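import Mathlib

/-!
# Project SNG (architect helper40): Singer's conjecture for right-angled Coxeter groups

The definitions used in the statement of the theorem.

Part 1: combinatorics of flag complexes.  A pair `(S, G)`, `S` a finite set of vertices of the graph
`G`, stands for the flag complex of the graph induced by `G` on `S`: its simplices are the cliques
`T ⊆ S` of `G` (the empty set included).

Part 2: the right-angled Coxeter group, harmonic chains of its Davis complex.
-/

namespace SNG

open Finset

/-! ### Combinatorics -/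

section comb

variable {V : Type}

open Classical in
/-- The neighbours of `v` in `S`: the vertices of the link of `v`. -/
noncomputable def lk (S : Finset V) (G : SimpleGraph V) (v : V) : Finset V :=
  S.filter fun x => G.Adj v x

open Classical in
/-- The common neighbours of `s` and `t` in `S`: the vertices of the link of the edge `st`. -/
noncomputable def ck (S : Finset V) (G : SimpleGraph V) (s t : V) : Finset V :=
  S.filter fun x => G.Adj s x ∧ G.Adj t x

theorem mem_lk {S : Finset V} {G : SimpleGraph V} {v x : V} : x ∈ lk S G v ↔ x ∈ S ∧ G.Adj v x := by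
  simp [lk]

theorem mem_ck {S : Finset V} {G : SimpleGraph V} {s t x : V} :
    x ∈ ck S G s t ↔ x ∈ S ∧ G.Adj s x ∧ G.Adj t x := by
  simp [ck]

/-- The graph with the edge `st` removed. -/
def cut (G : SimpleGraph V) (s t : V) : SimpleGraph V where
  Adj x y := G.Adj x y ∧ ¬ (x = s ∧ y = t) ∧ ¬ (x = t ∧ y = s)
  symm := ⟨by
    rintro x y ⟨h1, h2, h3⟩
    exact ⟨h1.symm, fun h => h3 ⟨h.2, h.1⟩, fun h => h2 ⟨h.2, h.1⟩⟩⟩
  loopless := ⟨fun x h => G.loopless.irrefl x h.1⟩

/-- Contraction of `t` into `s`: the vertex `s` becomes adjacent to all neighbours of `s` and of `t`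
(to be restricted to the vertices different from `t`). -/
def contract (G : SimpleGraph V) (s t : V) : SimpleGraph V where
  Adj x y := x ≠ y ∧ (G.Adj x y ∨ (x = s ∧ G.Adj t y) ∨ (y = s ∧ G.Adj t x))
  symm := ⟨by
    rintro x y ⟨h1, h2⟩
    refine ⟨h1.symm, ?_⟩
    rcases h2 with h | h | h
    · exact Or.inl h.symm
    · exact Or.inr (Or.inr h)
    · exact Or.inr (Or.inl h)⟩
  loopless := ⟨fun x h => h.1 rfl⟩

/-- The edge `st` is in no induced 4-cycle `s, x, y, t` of `S`. -/
def NoSq (S : Finset V) (G : SimpleGraph V) (s t : V) : Prop :=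
  ∀ x ∈ S, ∀ y ∈ S, G.Adj s x → G.Adj t y → ¬ G.Adj t x → ¬ G.Adj s y → x ≠ t → y ≠ s → ¬ G.Adj x y

open Classical in
/-- The vertices of the link of `T` in `(S, G)`. -/
noncomputable def lks (S : Finset V) (G : SimpleGraph V) (T : Finset V) : Finset V :=
  S.filter fun x => ∀ t ∈ T, G.Adj t x

variable [DecidableEq V]

/-- `(insert w S, G')` is the subdivision of `(S, G)` at the edge `st` with new vertex `w`. -/
def IsSub (S : Finset V) (G G' : SimpleGraph V) (s t w : V) : Prop :=
  (∀ x ∈ S, ∀ y ∈ S, G'.Adj x y ↔ (cut G s t).Adj x y) ∧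
    ∀ x ∈ S, G'.Adj w x ↔ x = s ∨ x = t ∨ (G.Adj s x ∧ G.Adj t x)

/-- Flag complexes obtained from the empty complex by suspensions and edge subdivisions.  (With all
suspensions first one gets the iterated edge subdivisions of the boundary of the cross polytope.) -/
inductive Trunc : ℕ → Finset V → SimpleGraph V → Prop
  | nil (G : SimpleGraph V) : Trunc 0 ∅ G
  | susp {n : ℕ} {S : Finset V} {G : SimpleGraph V} (h0 : Trunc n S G) (a b : V) (ha : a ∉ S)
      (hb : b ∉ S) (hab : a ≠ b) (hn : ¬ G.Adj a b) (h : ∀ x ∈ S, G.Adj a x ∧ G.Adj b x) :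
      Trunc (n + 1) (insert a (insert b S)) G
  | sub {n : ℕ} {S : Finset V} {G G' : SimpleGraph V} (h0 : Trunc n S G) (s t w : V) (hs : s ∈ S)
      (ht : t ∈ S) (hst : G.Adj s t) (hw : w ∉ S) (h : IsSub S G G' s t w) :
      Trunc n (insert w S) G'

variable [Fintype V]

/-- `x` is a chain over `F₂` on the simplices with `i` vertices of the flag complex `(A, G)` (the
augmented chain complex, the degree is the number of vertices). -/
def IsCh (A : Finset V) (G : SimpleGraph V) (i : ℕ) (x : Finset V → ZMod 2) : Prop :=
  ∀ T : Finset V, x T ≠ 0 → T ⊆ A ∧ G.IsClique (T : Set V) ∧ T.card = i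

/-- The boundary operator over `F₂`. -/
def dd (x : Finset V → ZMod 2) (T : Finset V) : ZMod 2 := ∑ s ∈ Tᶜ, x (insert s T)

/-- `x` is the boundary of a chain on simplices with `i` vertices. -/
def IsBd (A : Finset V) (G : SimpleGraph V) (i : ℕ) (x : Finset V → ZMod 2) : Prop :=
  ∃ y, IsCh A G i y ∧ dd y = x

/-- The flag complex `(A, G)` has the reduced homology over `F₂` of the sphere `S^(n-1)`: every cycle
in degree `i ≠ n` is a boundary, and in degree `n` there is a cycle `z` which is not a boundary such
that for every cycle `x` one of `x`, `x + z` is a boundary. -/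
def HSph (n : ℕ) (A : Finset V) (G : SimpleGraph V) : Prop :=
  (∀ i, i ≠ n → ∀ x, IsCh A G i x → dd x = 0 → IsBd A G (i + 1) x) ∧
    ∃ z, IsCh A G n z ∧ dd z = 0 ∧ ¬ IsBd A G (n + 1) z ∧
      ∀ x, IsCh A G n x → dd x = 0 → IsBd A G (n + 1) x ∨ IsBd A G (n + 1) (x + z)

/-- `(S, G)` is a flag homology sphere over `F₂` of dimension `n - 1`: all links, including the link
of the empty simplex, have the homology of a sphere of the right dimension. -/
def HGor (n : ℕ) (S : Finset V) (G : SimpleGraph V) : Prop :=
  ∀ T : Finset V, T ⊆ S → G.IsClique (T : Set V) → ∃ m : ℕ, m + T.card = n ∧ HSph m (lks S G T) G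

/-- The class of flag complexes for which the theorem is proved.
* `small`: all flag homology spheres over `F₂` of dimension `n - 1 ≤ 3`;
* `even`: for even `n`, a flag homology sphere over `F₂` of dimension `n - 1` whose vertices can be
  ordered (by `r`) in such a way that for every vertex `v` the earlier neighbours of `v` belong to a
  member `B v` of the class of some degree `m v < n`;
* `join`: for odd `n + 1`, vertex links in the class, and there is a set `S₁` of vertices, all of
  them adjacent to all the other vertices, with `S₁` in the class in some odd degree `m` (for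
  instance `S₁` two nonadjacent vertices, `m = 1`: a suspension);
* `cont`: for odd `n + 2`, vertex links in the class, and there is an edge `st` which is in no induced
  4-cycle, such that the link of `st` and the contraction are in the class. -/
inductive Rz : ℕ → Finset V → SimpleGraph V → Prop
  | small {n : ℕ} {S : Finset V} {G : SimpleGraph V} (hn : n ≤ 4) (h : HGor n S G) : Rz n S G
  | even {n : ℕ} {S : Finset V} {G : SimpleGraph V} (hn : Even n) (hg : HGor n S G) (r : V → ℕ)
      (hr : ∀ x ∈ S, ∀ y ∈ S, r x = r y → x = y) (m : V → ℕ) (hm : ∀ v ∈ S, m v < n)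
      (B : V → Finset V) (hB : ∀ v ∈ S, Rz (m v) (B v) G)
      (h : ∀ v ∈ S, ∀ x ∈ S, G.Adj v x → r x < r v → x ∈ B v) : Rz n S G
  | join {n : ℕ} {S : Finset V} {G : SimpleGraph V} (hn : Odd (n + 1))
      (hl : ∀ v ∈ S, Rz n (lk S G v) G) (m : ℕ) (hm : Odd m) (S₁ : Finset V) (hS : S₁ ⊆ S)
      (h₁ : Rz m S₁ G) (h : ∀ x ∈ S₁, ∀ y ∈ S, y ∉ S₁ → G.Adj x y) : Rz (n + 1) S G
  | cont {n : ℕ} {S : Finset V} {G : SimpleGraph V} (hn : Odd n)
      (hl : ∀ v ∈ S, Rz (n + 1) (lk S G v) G) (s t : V) (hs : s ∈ S) (ht : t ∈ S)
      (hst : G.Adj s t) (hq : NoSq S G s t) (hc : Rz n (ck S G s t) G)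
      (h : Rz (n + 2) (S.erase t) (contract G s t)) : Rz (n + 2) S G

end comb

/-! ### The right-angled Coxeter group and its Davis complex -/

section racg

variable {V : Type}

open Classical in
/-- The Coxeter matrix of the right-angled Coxeter system with nerve the flag complex of `G`:
generators joined by an edge commute, other pairs of generators generate an infinite dihedral
group. -/
noncomputable def raM (G : SimpleGraph V) : CoxeterMatrix V where
  M := Matrix.of fun s t => if s = t then 1 else if G.Adj s t then 2 else 0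
  isSymm := by
    ext s t
    simp only [Matrix.transpose_apply, Matrix.of_apply]
    by_cases h : s = t
    · simp [h]
    · simp [h, Ne.symm h, G.adj_comm t s]
  diagonal := by
    intro s
    simp
  off_diagonal := by
    intro s t h
    simp only [Matrix.of_apply, if_neg h]
    split_ifs <;> norm_num

/-- The right-angled Coxeter group of the graph `G`. -/
abbrev W (G : SimpleGraph V) : Type := (raM G).Group

/-- The generator `s` of the right-angled Coxeter group. -/
noncomputable abbrev sm (G : SimpleGraph V) (s : V) : W G := (raM G).toCoxeterSystem.simple s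

variable [LinearOrder V]

/-- The incidence sign of `s` relative to `T`. -/
def sg (T : Finset V) (s : V) : ℝ := (-1) ^ (T.filter (· < s)).card

variable [Fintype V] {P : Type} [Group P]

/-- Cellular boundary: `(∂ f)_T (g) = ∑_{s ∉ T} ± f_{T ∪ s} (g)`. -/
def bdry (f : Finset V → P → ℝ) (T : Finset V) (g : P) : ℝ :=
  ∑ s ∈ Tᶜ, sg T s * f (insert s T) g

/-- Cellular coboundary (the adjoint of the boundary):
`(∂* f)_T (g) = ∑_{s ∈ T} ± (f_{T - s} (g) - f_{T - s} (g p_s))`. -/
def cobd (p : V → P) (f : Finset V → P → ℝ) (T : Finset V) (g : P) : ℝ :=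
  ∑ s ∈ T, sg (T.erase s) s * (f (T.erase s) g - f (T.erase s) (g * p s))

/-- Harmonic cellular `i`-chains.  The cells of dimension `i` are the cosets `g W_T`, `T` a clique
with `i` elements; the oriented cell given by the vertex `g` and the ordered set `T` changes sign
when `g` is replaced by `g p_s`, `s ∈ T`; a chain is an alternating function of oriented cells. -/
structure Harm (G : SimpleGraph V) (p : V → P) (i : ℕ) (f : Finset V → P → ℝ) : Prop where
  supp : ∀ T : Finset V, ¬ (G.IsClique (T : Set V) ∧ T.card = i) → ∀ g, f T g = 0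
  alt : ∀ T : Finset V, ∀ s ∈ T, ∀ g, f T (g * p s) = - f T g
  bd0 : ∀ T : Finset V, ∀ g, bdry f T g = 0
  cobd0 : ∀ T : Finset V, G.IsClique (T : Set V) → ∀ g, cobd p f T g = 0

end racg

end SNG
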