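import Pool.Agent.SNG.Defs

/-!
# Project SNG (architect helper40), module Coc: descents in right-angled Coxeter groups

`W = W G`, `cs = (raM G).toCoxeterSystem`, `ℓ = cs.length`, `s` also denotes the simple reflection.
`raM G s t` is `1` for `s = t`, `2` for adjacent `s, t`, `0` otherwise.

Step 1, a cocycle `N : W → (W → ZMod 2)`: `N 1 = 0`, `N (s u) x = [x = s] + N u (s x s)`.
Existence: the permutations `π_s : (x, ε) ↦ (s x s, ε + [x = s])` of `W × ZMod 2` satisfy
`π_s π_s = 1` because `s x s = s` iff `x = s`, and for adjacent (commuting) `s, t` `π_s π_t = π_t π_s`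
because `s x s = t` iff `x = t`; use `CoxeterMatrix.IsLiftable`, `CoxeterSystem.lift`.  So
`w ↦ π_w`, `π_w (x, ε) = (w x w⁻¹, ε + η w x)`, `η (s u) x = η u x + [u x u⁻¹ = s]`,
`η (u v) x = η v x + η u (v x v⁻¹)`; put `N w x = η w⁻¹ x`: `N (s u) x = η (u⁻¹ s) x =
η s x + η u⁻¹ (s x s) = [x = s] + N u (s x s)`.  (Or the semidirect product of `W → ZMod 2` and `W`.)

Step 2: for every word `ω`: `N (cs.wordProd ω) x` is the number of times `x` occurs in
`cs.leftInvSeq ω` modulo 2 (induction on `ω`, `leftInvSeq (i :: ω) = s_i :: map (MulAut.conj s_i)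
(leftInvSeq ω)`, `N 1 = 0`).

Step 3: put `D s u = N u s`.  It is `1` iff `ℓ (s u) < ℓ u`.  If `N u s = 1` take a reduced word `ω`
for `u`; `s` occurs in `leftInvSeq ω`, so `ℓ (s u) < ℓ u` (`cs.isLeftInversion_of_mem_leftInvSeq`).
Conversely let `ℓ (s u) < ℓ u`; `N (s u) s = 1 + N u (s s s) = 1 + N u s`; if `N u s = 0` then
`N (s u) s = 1`, so `ℓ (s s u) < ℓ (s u)`, i.e. `ℓ u < ℓ (s u)`, a contradiction.

Step 4: `D s (s u) = D s u + 1` (just shown); for adjacent `s, t`:
`D s (t u) = N (t u) s = [s = t] + N u (t s t) = N u s = D s u`.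
-/

namespace SNG

open Finset

private theorem raM_ne {V : Type} (G : SimpleGraph V) {s t : V} (h : s ≠ t) :
    (raM G : CoxeterMatrix V) s t = open Classical in if G.Adj s t then 2 else 0 := by
  change (open Classical in if s = t then 1 else if G.Adj s t then 2 else 0) = _
  rw [if_neg h]

private theorem lift_aux {V : Type} (G : SimpleGraph V) {P : Type} [Group P] (p : V → P)
    (hsq : ∀ v, p v * p v = 1) (hcomm : ∀ v w, G.Adj v w → p v * p w = p w * p v) :
    ∃ φ : W G →* P, ∀ v, φ (sm G v) = p v := by
  classical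
  have hf : (raM G).IsLiftable p := by
    intro i i'
    by_cases h : i = i'
    · subst h
      rw [(raM G).diagonal, pow_one, hsq]
    · rw [raM_ne G h]
      split_ifs with h1
      · rw [pow_two]
        calc p i * p i' * (p i * p i') = p i * (p i' * p i) * p i' := by group
          _ = p i * (p i * p i') * p i' := by rw [hcomm i i' h1]
          _ = (p i * p i) * (p i' * p i') := by group
          _ = 1 := by rw [hsq, hsq, one_mul]
      · rw [pow_zero]
  exact ⟨(raM G).toCoxeterSystem.lift ⟨p, hf⟩,
    fun v => (raM G).toCoxeterSystem.lift_apply_simple hf v⟩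

section coc

variable {V : Type} (G : SimpleGraph V)

private theorem ss (s : V) : sm G s * sm G s = 1 :=
  (raM G).toCoxeterSystem.simple_mul_simple_self s

private theorem sinv (s : V) : (sm G s)⁻¹ = sm G s := (raM G).toCoxeterSystem.inv_simple s

private theorem sst (s : V) (x : W G) : sm G s * (sm G s * x * sm G s) * sm G s = x := by
  calc sm G s * (sm G s * x * sm G s) * sm G s = (sm G s * sm G s) * x * (sm G s * sm G s) := by
        group
    _ = x := by rw [ss, one_mul, mul_one]

private theorem scomm {s t : V} (h : G.Adj s t) : sm G s * sm G t = sm G t * sm G s := by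
  classical
  have h1 := (raM G).toCoxeterSystem.simple_mul_simple_pow s t
  rw [raM_ne G (G.ne_of_adj h), if_pos h, pow_two] at h1
  have h2 := eq_inv_of_mul_eq_one_left h1
  change sm G s * sm G t = _
  rw [h2, mul_inv_rev, sinv, sinv]

private theorem conj_eq {s t : V} (h : G.Adj s t) (x : W G) :
    sm G s * x * sm G s = sm G t ↔ x = sm G t := by
  constructor
  · intro h1
    rw [← sst G s x, h1, scomm G h, mul_assoc, ss, mul_one]
  · intro h1
    rw [h1, scomm G h, mul_assoc, ss, mul_one]

private theorem conj_self (s : V) (x : W G) :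
    sm G s * x * sm G s = sm G s ↔ x = sm G s := by
  constructor
  · intro h1
    rw [← sst G s x, h1, ss, one_mul]
  · intro h1
    rw [h1, ss, one_mul]

open Classical in
private theorem pi_inv (s : V) (x : W G × ZMod 2) :
    ((sm G s * (sm G s * x.1 * sm G s) * sm G s,
      x.2 + (if x.1 = sm G s then 1 else 0) +
        if sm G s * x.1 * sm G s = sm G s then 1 else 0) : W G × ZMod 2) = x := by
  refine Prod.ext (sst G s x.1) ?_
  simp only [conj_self]
  split_ifs
  · rw [add_assoc, CharTwo.add_self_eq_zero, add_zero]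
  · rw [add_zero, add_zero]

open Classical in
/-- The permutation `π_s`. -/
private noncomputable def pp (s : V) : Equiv.Perm (W G × ZMod 2) where
  toFun x := (sm G s * x.1 * sm G s, x.2 + if x.1 = sm G s then 1 else 0)
  invFun x := (sm G s * x.1 * sm G s, x.2 + if x.1 = sm G s then 1 else 0)
  left_inv x := pi_inv G s x
  right_inv x := pi_inv G s x

open Classical in
private theorem pp_apply (s : V) (x : W G) (ε : ZMod 2) :
    pp G s (x, ε) = (sm G s * x * sm G s, ε + if x = sm G s then 1 else 0) := rfl

private theorem exists_phi : ∃ φ : W G →* Equiv.Perm (W G × ZMod 2), ∀ v, φ (sm G v) = pp G v := by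
  classical
  refine lift_aux G (pp G) (fun v => ?_) (fun v w h => ?_)
  · ext x
    · exact congrArg Prod.fst (pi_inv G v x)
    · exact congrArg (fun y : W G × ZMod 2 => (y.2 : ZMod 2)) (pi_inv G v x)
  · apply Equiv.ext
    rintro ⟨x, ε⟩
    rw [Equiv.Perm.mul_apply, Equiv.Perm.mul_apply, pp_apply, pp_apply, pp_apply, pp_apply]
    refine Prod.ext ?_ ?_
    · change sm G v * (sm G w * x * sm G w) * sm G v = sm G w * (sm G v * x * sm G v) * sm G w
      calc sm G v * (sm G w * x * sm G w) * sm G v = (sm G v * sm G w) * x * (sm G w * sm G v) := by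
            group
        _ = (sm G w * sm G v) * x * (sm G v * sm G w) := by rw [scomm G h]
        _ = _ := by group
    · change (ε + if x = sm G w then 1 else 0) + (if sm G w * x * sm G w = sm G v then 1 else 0) =
        (ε + if x = sm G v then 1 else 0) + (if sm G v * x * sm G v = sm G w then 1 else 0)
      simp only [conj_eq G h, conj_eq G h.symm]
      ring

private theorem sm_ne {s t : V} (h : s ≠ t) : sm G s ≠ sm G t := by
  classical
  intro hst
  obtain ⟨φ, hφ⟩ := lift_aux G (P := Multiplicative (ZMod 2))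
    (fun v => Multiplicative.ofAdd (if v = s then (1 : ZMod 2) else 0)) (fun v => by
      rw [← ofAdd_add, CharTwo.add_self_eq_zero]
      rfl) (fun v w _ => mul_comm _ _)
  have h1 := hφ s
  rw [hst, hφ t, if_pos rfl, if_neg h.symm] at h1
  have h2 := Multiplicative.ofAdd.injective h1
  exact absurd h2 (by decide)

open Classical in
/-- The cocycle. -/
private theorem exists_N : ∃ N : W G → W G → ZMod 2, (∀ x, N 1 x = 0) ∧
    ∀ s u x, N (sm G s * u) x = (if x = sm G s then 1 else 0) + N u (sm G s * x * sm G s) := by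
  obtain ⟨φ, hφ⟩ := exists_phi G
  have h1 : ∀ w x ε, φ w (x, ε) = (w * x * w⁻¹, ε + (φ w (x, 0)).2) := by
    intro w
    refine (raM G).toCoxeterSystem.simple_induction_left
      (p := fun w => ∀ x ε, φ w (x, ε) = (w * x * w⁻¹, ε + (φ w (x, 0)).2)) w ?_ ?_
    · intro x ε
      rw [map_one]
      simp
    · intro u s hu x ε
      have e1 : φ ((raM G).toCoxeterSystem.simple s * u) = pp G s * φ u := by
        rw [map_mul]
        congr 1
        exact hφ s
      rw [e1, Equiv.Perm.mul_apply, Equiv.Perm.mul_apply, hu x ε, hu x 0, pp_apply, pp_apply]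
      refine Prod.ext ?_ ?_
      · change sm G s * (u * x * u⁻¹) * sm G s = sm G s * u * x * (sm G s * u)⁻¹
        rw [mul_inv_rev, sinv]
        group
      · dsimp only
        ring
  have h2 : ∀ u v x, (φ (u * v) (x, 0)).2 = (φ v (x, 0)).2 + (φ u (v * x * v⁻¹, 0)).2 := by
    intro u v x
    rw [map_mul, Equiv.Perm.mul_apply]
    conv_lhs => rw [h1 v x 0, zero_add, h1 u]
  refine ⟨fun w x => (φ w⁻¹ (x, 0)).2, fun x => ?_, fun s u x => ?_⟩
  · simp
  · change (φ (sm G s * u)⁻¹ (x, 0)).2 = _ + (φ u⁻¹ (sm G s * x * sm G s, 0)).2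
    rw [mul_inv_rev, h2, sinv, hφ, pp_apply, sinv]
    congr 1
    exact zero_add _

end coc

theorem exists_desc {V : Type} (G : SimpleGraph V) : ∃ D : V → W G → ZMod 2,
    (∀ s u, D s u = 1 ↔ (raM G).toCoxeterSystem.length (sm G s * u) <
      (raM G).toCoxeterSystem.length u) ∧
    (∀ s u, D s (sm G s * u) = D s u + 1) ∧ ∀ s t u, G.Adj s t → D s (sm G t * u) = D s u := by
  classical
  obtain ⟨N, hN1, hN⟩ := exists_N G
  have hcount : ∀ (ω : List V) (x : W G), N ((raM G).toCoxeterSystem.wordProd ω) x =
      ((((raM G).toCoxeterSystem.leftInvSeq ω).count x : ℕ) : ZMod 2) := by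
    intro ω
    induction ω with
    | nil =>
      intro x
      rw [CoxeterSystem.wordProd_nil, hN1]
      simp
    | cons i ω ih =>
      intro x
      rw [CoxeterSystem.wordProd_cons]
      have h1 := hN i ((raM G).toCoxeterSystem.wordProd ω) x
      have h2 : (raM G).toCoxeterSystem.leftInvSeq (i :: ω) =
          sm G i :: List.map (MulAut.conj (sm G i)) ((raM G).toCoxeterSystem.leftInvSeq ω) := rfl
      have h3 : x = MulAut.conj (sm G i) (sm G i * x * sm G i) := by
        rw [MulAut.conj_apply, sinv, sst]
      have h4 : (List.map (MulAut.conj (sm G i)) ((raM G).toCoxeterSystem.leftInvSeq ω)).count x =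
          ((raM G).toCoxeterSystem.leftInvSeq ω).count (sm G i * x * sm G i) := by
        conv_lhs => rw [h3]
        exact List.count_map_of_injective _ _ (MulAut.conj (sm G i)).injective _
      rw [h1, ih, h2, List.count_cons, h4]
      push_cast
      rw [add_comm]
      congr 1
      by_cases h5 : x = sm G i
      · simp [h5]
      · have h6 : ¬ (sm G i == x) = true := by
          rw [beq_iff_eq]
          exact fun h => h5 h.symm
        rw [if_neg h5, if_neg h6]
  have hself : ∀ s u, N (sm G s * u) (sm G s) = N u (sm G s) + 1 := by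
    intro s u
    rw [hN, if_pos rfl, ss, one_mul, add_comm]
  have hdir : ∀ s u, N u (sm G s) = 1 → (raM G).toCoxeterSystem.length (sm G s * u) <
      (raM G).toCoxeterSystem.length u := by
    intro s u h
    obtain ⟨ω, hred, hu⟩ := (raM G).toCoxeterSystem.exists_isReduced u
    rw [hu, hcount] at h
    have hmem : sm G s ∈ (raM G).toCoxeterSystem.leftInvSeq ω := by
      by_contra hn
      rw [List.count_eq_zero_of_not_mem hn] at h
      exact absurd h (by decide)
    have h2 := ((raM G).toCoxeterSystem.isLeftInversion_of_mem_leftInvSeq hred hmem).2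
    rw [hu]
    exact h2
  refine ⟨fun s u => N u (sm G s), fun s u => ⟨hdir s u, fun h => ?_⟩, hself, fun s t u h => ?_⟩
  · by_contra hne
    have h0 : N u (sm G s) = 0 := by
      have : ∀ z : ZMod 2, z ≠ 1 → z = 0 := by decide
      exact this _ hne
    have h1 := hself s u
    rw [h0, zero_add] at h1
    have h2 := hdir s _ h1
    rw [← mul_assoc, ss, one_mul] at h2
    omega
  · change N (sm G t * u) (sm G s) = N u (sm G s)
    rw [hN, if_neg (sm_ne G (G.ne_of_adj h)), zero_add, (conj_eq G h.symm _).2 rfl]

/-- A family of elements of a group satisfying the relations gives a homomorphism. -/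
theorem exists_lift {V : Type} (G : SimpleGraph V) {P : Type} [Group P] (p : V → P)
    (hsq : ∀ v, p v * p v = 1) (hcomm : ∀ v w, G.Adj v w → p v * p w = p w * p v) :
    ∃ φ : W G →* P, ∀ v, φ (sm G v) = p v :=
  lift_aux G p hsq hcomm

end SNG
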