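import Pool.Agent.SNG.LuckFin

/-!
# Project SNG (architect helper40), module Luck: approximation

`⟨f, g⟩ = pr f g` for a function `f` and a finitely supported function `g`.

`luck_inf`.  Write `T = tO K id A`, `D = dO id A`, `D' = dT id A`.
* For every function `f` and finitely supported `h` on `J × W`: `⟨f, D' h⟩ = ⟨op id A f, h⟩` (check on
  `δ_(j, y)`: both sides are `∑_i ∑_u A_ji(u) f_i(y u)`).
* If `op id A f = 0` then `⟨f, T g⟩ = ⟨f, g⟩ - (1/K) ⟨op id A f, D g⟩ = ⟨f, g⟩`; hence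
  `⟨f, T ^ M g⟩ = ⟨f, g⟩`; with `g = δ_(i, 1)`: `f i 1 = ⟨f, T ^ M δ_(i, 1)⟩`.
* Cauchy-Schwarz: `(f i 1)² ≤ (∑ over the support of T ^ M δ of f²) * |T ^ M δ|² ≤ |f|² |T ^ M δ|²`.
* `T` is symmetric on finitely supported functions: `⟨D g, h⟩ = ⟨g, D' h⟩` (check on `δ_(i, x)`,
  `δ_(j, y)`: both are the sum of `A_ji(u)` over `u` with `x = y u`).  So
  `|T ^ M δ_(i,1)|² = ⟨T ^ (2 M) δ_(i,1), δ_(i,1)⟩ = (T ^ (2 M) δ_(i,1)) (i, 1)`.
* `tau` is the sum over `i` of these nonnegative numbers.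

`luck`.  First `f i 1 = 0`: let `K = max 1 κ²`, `S = ∑_i |f_i|²`.  For every `M`, `δ ∈ (0, 1)`,
`ε > 0`: `luck_fin` gives `F`; `h ε F` gives `X, φ`; divide by `|X| > 0`:
`(f i 1)² ≤ S * (ε + |I| log K / log (1/δ) + |I| (1 - δ/K) ^ (2 M))`.  Let `ε → 0`, `M → ∞`
(`0 ≤ 1 - δ/K < 1`), `δ → 0`.
Then apply this to the left translates `f' i x = f i (w * x)`, which satisfy the same hypotheses
(`op id A f' j x = op id A f j (w * x)`).
-/

namespace SNG

open Finset Module

variable {W I J : Type} [Group W] [Fintype I] [Fintype J]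

/-! ### the inner product of finitely supported functions -/

/-- inner product -/
noncomputable def ip {Y : Type} (g h : Y →₀ ℝ) : ℝ := g.sum fun q c => c * h q

theorem ip_zero_left {Y : Type} (h : Y →₀ ℝ) : ip 0 h = 0 := Finsupp.sum_zero_index

theorem ip_add_left {Y : Type} (g g' h : Y →₀ ℝ) : ip (g + g') h = ip g h + ip g' h := by
  classical
  unfold ip
  rw [Finsupp.sum_add_index']
  · intro q
    rw [zero_mul]
  · intro q a b
    rw [add_mul]

theorem ip_single_left {Y : Type} (q : Y) (a : ℝ) (h : Y →₀ ℝ) :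
    ip (Finsupp.single q a) h = a * h q := by
  unfold ip
  rw [Finsupp.sum_single_index]
  rw [zero_mul]

theorem ip_zero_right {Y : Type} (g : Y →₀ ℝ) : ip g 0 = 0 := by
  unfold ip
  simp

theorem ip_add_right {Y : Type} (g h h' : Y →₀ ℝ) : ip g (h + h') = ip g h + ip g h' := by
  unfold ip
  rw [← Finsupp.sum_add]
  refine Finsupp.sum_congr fun q _ => ?_
  rw [Finsupp.add_apply, mul_add]

theorem ip_single_right {Y : Type} (g : Y →₀ ℝ) (q : Y) (a : ℝ) :
    ip g (Finsupp.single q a) = g q * a := by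
  classical
  induction g using Finsupp.induction_linear with
  | zero => rw [ip_zero_left, Finsupp.zero_apply, zero_mul]
  | add f g hf hg => rw [ip_add_left, hf, hg, Finsupp.add_apply, add_mul]
  | single p b =>
    rw [ip_single_left]
    by_cases h : p = q
    · subst h
      rw [Finsupp.single_eq_same, Finsupp.single_eq_same]
    · rw [Finsupp.single_eq_of_ne h, Finsupp.single_eq_of_ne (Ne.symm h), mul_zero, zero_mul]

theorem ip_comm {Y : Type} (g h : Y →₀ ℝ) : ip g h = ip h g := by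
  induction g using Finsupp.induction_linear with
  | zero => rw [ip_zero_left, ip_zero_right]
  | add f g hf hg => rw [ip_add_left, ip_add_right, hf, hg]
  | single p b => rw [ip_single_left, ip_single_right, mul_comm]

theorem ip_smul_left {Y : Type} (a : ℝ) (g h : Y →₀ ℝ) : ip (a • g) h = a * ip g h := by
  induction g using Finsupp.induction_linear with
  | zero => rw [smul_zero, ip_zero_left, mul_zero]
  | add f g hf hg => rw [smul_add, ip_add_left, ip_add_left, hf, hg, mul_add]
  | single p b => rw [Finsupp.smul_single, ip_single_left, ip_single_left, smul_eq_mul, mul_assoc]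

theorem ip_sub_left {Y : Type} (g g' h : Y →₀ ℝ) : ip (g - g') h = ip g h - ip g' h := by
  have h1 := ip_add_left (g - g') g' h
  rw [sub_add_cancel] at h1
  rw [h1]
  ring

section sym

variable {X : Type} [Group X]

theorem ip_adj (φ : W →* X) (A : J → I → W →₀ ℤ) (g : I × X →₀ ℝ) (h : J × X →₀ ℝ) :
    ip (dO φ A g) h = ip g (dT φ A h) := by
  classical
  induction g using Finsupp.induction_linear with
  | zero => rw [map_zero, ip_zero_left, ip_zero_left]
  | add f g hf hg => rw [map_add, ip_add_left, ip_add_left, hf, hg]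
  | single q a =>
    induction h using Finsupp.induction_linear with
    | zero => rw [map_zero, ip_zero_right, ip_zero_right]
    | add f g hf hg => rw [map_add, ip_add_right, ip_add_right, hf, hg]
    | single p b =>
      rw [ip_single_right, ip_single_left, dO_single, dT_single]
      ring

theorem ip_tO (K : ℝ) (φ : W →* X) (A : J → I → W →₀ ℤ) (g h : I × X →₀ ℝ) :
    ip (tO K φ A g) h = ip g (tO K φ A h) := by
  have h1 : ip (dT φ A (dO φ A g)) h = ip (dT φ A (dO φ A h)) g := by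
    rw [ip_comm, ← ip_adj, ip_comm, ip_adj, ip_comm]
  rw [ip_comm g, tO_apply, tO_apply, ip_sub_left, ip_sub_left, ip_smul_left, ip_smul_left, h1,
    ip_comm g h]

theorem ip_tO_pow (K : ℝ) (φ : W →* X) (A : J → I → W →₀ ℤ) (n : ℕ) (g h : I × X →₀ ℝ) :
    ip ((tO K φ A ^ n) g) h = ip g ((tO K φ A ^ n) h) := by
  induction n generalizing g h with
  | zero => simp
  | succ n ih =>
    rw [pow_succ, Module.End.mul_apply, ih, ip_tO, ← Module.End.mul_apply, ← pow_succ', pow_succ]

end sym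

/-! ### the pairing -/

omit [Fintype I] in
theorem pr_add (f : I → W → ℝ) (g h : I × W →₀ ℝ) : pr f (g + h) = pr f g + pr f h := by
  classical
  unfold pr
  rw [Finsupp.sum_add_index']
  · intro q
    rw [zero_mul]
  · intro q a b
    rw [add_mul]

/-- the pairing as a linear map -/
noncomputable def prL (f : I → W → ℝ) : (I × W →₀ ℝ) →ₗ[ℝ] ℝ :=
  Finsupp.linearCombination ℝ fun q => f q.1 q.2

omit [Fintype J] in
theorem prL_dT (A : J → I → W →₀ ℤ) (f : I → W → ℝ)
    (hf : ∀ j x, op (MonoidHom.id W) A f j x = 0) (h : J × W →₀ ℝ) :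
    prL f (dT (MonoidHom.id W) A h) = 0 := by
  induction h using Finsupp.induction_linear with
  | zero => rw [map_zero, map_zero]
  | add f g hf hg => rw [map_add, map_add, hf, hg, add_zero]
  | single p a =>
    unfold dT
    rw [Finsupp.linearCombination_single, map_smul, map_sum]
    have h1 := hf p.1 p.2
    unfold op at h1
    have h2 : ∑ i, prL f ((A p.1 i).sum fun u c =>
        Finsupp.single (i, p.2 * (MonoidHom.id W) u) (c : ℝ)) =
        ∑ i, (A p.1 i).sum fun u c => (c : ℝ) * f i (p.2 * (MonoidHom.id W) u) := by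
      refine Finset.sum_congr rfl fun i _ => ?_
      rw [Finsupp.sum, map_sum, Finsupp.sum]
      refine Finset.sum_congr rfl fun u _ => ?_
      unfold prL
      rw [Finsupp.linearCombination_single, smul_eq_mul]
    rw [h2, h1, smul_zero]

theorem prL_tO (K : ℝ) (A : J → I → W →₀ ℤ) (f : I → W → ℝ)
    (hf : ∀ j x, op (MonoidHom.id W) A f j x = 0) (n : ℕ) (g : I × W →₀ ℝ) :
    prL f ((tO K (MonoidHom.id W) A ^ n) g) = prL f g := by
  induction n generalizing g with
  | zero => simp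
  | succ n ih =>
    rw [pow_succ, Module.End.mul_apply, ih, tO_apply, map_sub, map_smul, prL_dT A f hf, smul_zero,
      sub_zero]

theorem prL_sq (f : I → W → ℝ) (hs : ∀ i, Summable fun w => f i w ^ 2) (g : I × W →₀ ℝ) :
    prL f g ^ 2 ≤ (∑ i, ∑' w, f i w ^ 2) * ip g g := by
  classical
  have h1 : prL f g = ∑ q ∈ g.support, f q.1 q.2 * g q := by
    unfold prL
    rw [Finsupp.linearCombination_apply, Finsupp.sum]
    refine Finset.sum_congr rfl fun q _ => ?_
    rw [smul_eq_mul, mul_comm]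
  have h2 : ip g g = ∑ q ∈ g.support, g q ^ 2 := by
    unfold ip
    rw [Finsupp.sum]
    refine Finset.sum_congr rfl fun q _ => ?_
    rw [sq]
  have h3 : ∑ q ∈ g.support, f q.1 q.2 ^ 2 ≤ ∑ i, ∑' w, f i w ^ 2 := by
    have h4 : g.support ⊆ (Finset.univ : Finset I) ×ˢ (g.support.image Prod.snd) := by
      intro q hq
      rw [Finset.mem_product]
      exact ⟨Finset.mem_univ _, Finset.mem_image_of_mem _ hq⟩
    refine (Finset.sum_le_sum_of_subset_of_nonneg h4 fun _ _ _ => sq_nonneg _).trans ?_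
    rw [Finset.sum_product]
    refine Finset.sum_le_sum fun i _ => ?_
    exact (hs i).sum_le_tsum _ fun _ _ => sq_nonneg _
  rw [h1, h2]
  refine (Finset.sum_mul_sq_le_sq_mul_sq _ _ _).trans ?_
  exact mul_le_mul_of_nonneg_right h3 (Finset.sum_nonneg fun _ _ => sq_nonneg _)

theorem luck_inf (A : J → I → W →₀ ℤ) (K : ℝ) (M : ℕ) (f : I → W → ℝ)
    (hs : ∀ i, Summable fun w => f i w ^ 2) (hf : ∀ j x, op (MonoidHom.id W) A f j x = 0) (i : I) :
    f i 1 ^ 2 ≤ (∑ i, ∑' w, f i w ^ 2) * tau K A M := by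
  have hS : 0 ≤ ∑ i, ∑' w, f i w ^ 2 :=
    Finset.sum_nonneg fun i _ => tsum_nonneg fun w => sq_nonneg _
  have ht : ∀ i, ip ((tO K (MonoidHom.id W) A ^ M) (Finsupp.single (i, 1) 1))
      ((tO K (MonoidHom.id W) A ^ M) (Finsupp.single (i, 1) 1)) =
      ((tO K (MonoidHom.id W) A) ^ (2 * M)) (Finsupp.single (i, 1) 1) (i, 1) := by
    intro i
    rw [ip_tO_pow, ip_single_left, one_mul, ← Module.End.mul_apply, ← pow_add, two_mul]
  have hn : ∀ i, 0 ≤ ip ((tO K (MonoidHom.id W) A ^ M) (Finsupp.single (i, 1) 1))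
      ((tO K (MonoidHom.id W) A ^ M) (Finsupp.single (i, 1) 1)) := by
    intro i
    unfold ip
    exact Finset.sum_nonneg fun q _ => mul_self_nonneg _
  have h1 : prL f (Finsupp.single (i, 1) 1) = f i 1 := by
    unfold prL
    rw [Finsupp.linearCombination_single, one_smul]
  rw [← h1, ← prL_tO K A f hf M]
  refine (prL_sq f hs _).trans (mul_le_mul_of_nonneg_left ?_ hS)
  unfold tau
  rw [ht]
  refine Finset.single_le_sum (f := fun i => ((tO K (MonoidHom.id W) A) ^ (2 * M))
    (Finsupp.single (i, 1) 1) (i, 1)) (fun i _ => ?_) (Finset.mem_univ i)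
  rw [← ht]
  exact hn i

theorem luck_one (A : J → I → W →₀ ℤ)
    (h : ∀ ε : ℝ, 0 < ε → ∀ F : Finset W, (1 : W) ∉ F → ∃ (X : Type) (_ : Group X) (_ : Finite X)
      (φ : W →* X), (∀ w ∈ F, φ w ≠ 1) ∧ (finrank ℝ ↥(opKer φ A) : ℝ) ≤ ε * Nat.card X)
    (f : I → W → ℝ) (hs : ∀ i, Summable fun w => f i w ^ 2)
    (hf : ∀ j x, op (MonoidHom.id W) A f j x = 0) (i : I) : f i 1 = 0 := by
  obtain ⟨K, hKd⟩ : ∃ K : ℝ, K = max 1 ((∑ j, ∑ i, (A j i).sum fun _ c => |(c : ℝ)|) ^ 2) :=
    ⟨_, rfl⟩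
  have hK1 : 1 ≤ K := by rw [hKd]; exact le_max_left _ _
  have hK : (∑ j, ∑ i, (A j i).sum fun _ c => |(c : ℝ)|) ^ 2 ≤ K := by
    rw [hKd]; exact le_max_right _ _
  have hS : 0 ≤ ∑ i, ∑' w, f i w ^ 2 :=
    Finset.sum_nonneg fun i _ => tsum_nonneg fun w => sq_nonneg _
  have hcI : (0 : ℝ) ≤ Fintype.card I := Nat.cast_nonneg _
  have hlog : 0 ≤ Real.log K := Real.log_nonneg hK1
  have htau : ∀ η : ℝ, 0 < η → ∃ M, tau K A M ≤ η := by
    intro η hη
    obtain ⟨R, hR⟩ : ∃ R : ℝ, R = 3 * (Fintype.card I * Real.log K) / η + 1 := ⟨_, rfl⟩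
    have hR0 : 0 < R := by
      rw [hR]
      have : 0 ≤ 3 * (Fintype.card I * Real.log K) / η := by positivity
      linarith
    have hδ0 : 0 < Real.exp (-R) := Real.exp_pos _
    have hδ1 : Real.exp (-R) < 1 := by
      rw [Real.exp_lt_one_iff]
      linarith
    have hlogδ : Real.log (1 / Real.exp (-R)) = R := by
      rw [one_div, Real.log_inv, Real.log_exp, neg_neg]
    have hq0 : 0 ≤ 1 - Real.exp (-R) / K := by
      have : Real.exp (-R) / K ≤ 1 := by
        rw [div_le_one (by linarith)]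
        linarith
      linarith
    have hq1 : 1 - Real.exp (-R) / K < 1 := by
      have : 0 < Real.exp (-R) / K := div_pos hδ0 (by linarith)
      linarith
    obtain ⟨M, hM⟩ := exists_pow_lt_of_lt_one (show 0 < η / (3 * (Fintype.card I + 1)) by positivity)
      hq1
    refine ⟨M, ?_⟩
    obtain ⟨F, hF1, hF⟩ := luck_fin A hK1 hK M
    obtain ⟨X, _, _, φ, hφ, hdim⟩ := h (η / 3) (by positivity) F hF1
    have h1 := hF X φ hφ _ hδ0 hδ1
    rw [hlogδ] at h1
    have hX : (0 : ℝ) < Nat.card X := by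
      exact_mod_cast Nat.card_pos
    have h2 : Fintype.card I * (Real.log K / R) ≤ η / 3 := by
      rw [← mul_div_assoc, div_le_iff₀ hR0, hR]
      have h3 : η / 3 * (3 * (Fintype.card I * Real.log K) / η + 1) =
          Fintype.card I * Real.log K + η / 3 := by
        field_simp
      rw [h3]
      linarith
    have h3 : Fintype.card I * (1 - Real.exp (-R) / K) ^ (2 * M) ≤ η / 3 := by
      have h4 : (1 - Real.exp (-R) / K) ^ (2 * M) ≤ (1 - Real.exp (-R) / K) ^ M :=
        pow_le_pow_of_le_one hq0 hq1.le (by omega)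
      have h5 : (1 - Real.exp (-R) / K) ^ (2 * M) ≤ η / (3 * (Fintype.card I + 1)) :=
        h4.trans hM.le
      refine (mul_le_mul_of_nonneg_left h5 hcI).trans ?_
      rw [← mul_div_assoc, div_le_div_iff₀ (by positivity) (by norm_num)]
      nlinarith
    have h6 : tau K A M * Nat.card X ≤ η * Nat.card X := by
      have h7 := mul_le_mul_of_nonneg_right h2 hX.le
      have h8 := mul_le_mul_of_nonneg_right h3 hX.le
      nlinarith
    exact le_of_mul_le_mul_right h6 hX
  have h9 : ∀ η : ℝ, 0 < η → f i 1 ^ 2 ≤ η := by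
    intro η hη
    obtain ⟨M, hM⟩ := htau (η / ((∑ i, ∑' w, f i w ^ 2) + 1)) (by positivity)
    refine (luck_inf A K M f hs hf i).trans ?_
    refine (mul_le_mul_of_nonneg_left hM hS).trans ?_
    rw [← mul_div_assoc, div_le_iff₀ (by positivity)]
    nlinarith
  have h10 : f i 1 ^ 2 ≤ 0 := le_of_forall_pos_le_add fun η hη => by
    rw [zero_add]
    exact h9 η hη
  exact pow_eq_zero_iff (two_ne_zero) |>.1 (le_antisymm h10 (sq_nonneg _))

theorem luck (A : J → I → W →₀ ℤ)
    (h : ∀ ε : ℝ, 0 < ε → ∀ F : Finset W, (1 : W) ∉ F → ∃ (X : Type) (_ : Group X) (_ : Finite X)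
      (φ : W →* X), (∀ w ∈ F, φ w ≠ 1) ∧ (finrank ℝ ↥(opKer φ A) : ℝ) ≤ ε * Nat.card X)
    (f : I → W → ℝ) (hs : ∀ i, Summable fun w => f i w ^ 2)
    (hf : ∀ j x, op (MonoidHom.id W) A f j x = 0) : f = 0 := by
  funext i w
  have h1 := luck_one A h (fun i x => f i (w * x)) (fun i => by
    have h2 := (Equiv.mulLeft w).summable_iff (f := fun y => f i y ^ 2)
    exact h2.2 (hs i)) (fun j x => by
    have h2 := hf j (w * x)
    unfold op at h2 ⊢
    simp only [mul_assoc] at h2
    exact h2) i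
  simp only [mul_one] at h1
  exact h1

end SNG
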