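import Pool.Agent.SNG.Coc

/-!
# Project SNG (architect helper40), module Nil: right-angled Coxeter groups are residually 2-finite

`W = W G`, `cs = (raM G).toCoxeterSystem`, `ℓ = cs.length`, `D` from `exists_desc` (module Coc).

The operators.  Fix `m` and let `B = {u ∈ W : ℓ u ≤ m}`, a finite set (the image of the words
of length `≤ m`).  Let `X` be the space of functions `W → ZMod 2` vanishing outside `B` (or
`B → ZMod 2`), `(U_s f) u = f u + D s u * f (s u)` for `u ∈ B` (if `D s u = 1` then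
`ℓ (s u) < ℓ u ≤ m`, so `s u ∈ B`).
`U_s U_s = 1`: `D s u * D s (s u) = 0`.  `U_s U_t = U_t U_s` for adjacent `s, t`:
`U_s U_t f u = f u + D t u f (t u) + D s u f (s u) + D s u D t (s u) f (t s u)`, `D t (s u) = D t u`,
`D s (t u) = D s u` and `t s = s t`.
So there is a homomorphism `φ : W → (Module.End X)ˣ` (or `→ Equiv.Perm X`, or `X ≃ₗ X`) with
`s ↦ U_s` (`exists_lift`).

2-group: let `F_k ⊆ X` be the functions vanishing at all `u` with `ℓ u < k`.  `F_0 = X`,
`F_{m + 1} = 0`, `(U_s - 1) F_k ⊆ F_{k + 1}`, hence `(φ w - 1) F_k ⊆ F_{k + 1}` for all `w`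
(`CoxeterSystem.simple_induction_left`; `g h - 1 = (g - 1) h + (h - 1)` and `h F_k ⊆ F_k`).  So
`(φ w - 1) ^ (m + 1) = 0` and, in characteristic 2,
`(φ w) ^ (2 ^ N) - 1 = (φ w - 1) ^ (2 ^ N) = 0` for `2 ^ N ≥ m + 1` (`sub_pow_char_pow_of_commute`
or by induction `(1 + n) ^ 2 = 1 + n ^ 2`).  So `P = φ.range`, a finite group, is a 2-group.

Separation: `φ w δ_1` vanishes at all `u` with `ℓ u > ℓ w` (induction on `ℓ w`), and for `ℓ w ≤ m`
`(φ w δ_1) w = 1`: for `w ≠ 1` take `s` with `D s w = 1` (`cs.exists_leftDescent_of_ne_one`),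
`w = s w'`, `ℓ w' = ℓ w - 1`; `(U_s (φ w' δ_1)) w = (φ w' δ_1) w + (φ w' δ_1) w' = 0 + 1`.  Since
`δ_1 w = 0` for `w ≠ 1` we get `φ w ≠ 1` if `1 ≤ ℓ w ≤ m`.  Take `m ≥ ℓ w` for all `w ∈ F`.
-/

namespace SNG

open Finset

section nil

variable {V : Type} {G : SimpleGraph V}

/-- the length -/
private noncomputable abbrev nl (u : W G) : ℕ := (raM G).toCoxeterSystem.length u

/-- the ball -/
private abbrev Bal (G : SimpleGraph V) (m : ℕ) : Type := {u : W G // nl u ≤ m}

private theorem bal_finite [Finite V] (m : ℕ) : Finite (Bal G m) := by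
  have h1 : {ω : List V | ω.length ≤ m}.Finite := List.finite_length_le V m
  have h2 : {u : W G | nl u ≤ m}.Finite := by
    refine (h1.image fun ω => (raM G).toCoxeterSystem.wordProd ω).subset ?_
    intro u hu
    obtain ⟨ω, hω, rfl⟩ := (raM G).toCoxeterSystem.exists_isReduced u
    refine ⟨ω, ?_, rfl⟩
    have : (raM G).toCoxeterSystem.length ((raM G).toCoxeterSystem.wordProd ω) = ω.length := hω
    rw [Set.mem_ofPred_eq, ← this]
    exact hu
  exact h2.to_subtype

/-- extension by zero -/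
private noncomputable def ex {m : ℕ} (f : Bal G m → ZMod 2) (u : W G) : ZMod 2 :=
  if h : nl u ≤ m then f ⟨u, h⟩ else 0

private theorem ex_of {m : ℕ} (f : Bal G m → ZMod 2) {u : W G} (h : nl u ≤ m) : ex f u = f ⟨u, h⟩ := by
  simp [ex, h]

private theorem ex_add {m : ℕ} (f g : Bal G m → ZMod 2) (u : W G) : ex (f + g) u = ex f u + ex g u := by
  unfold ex
  split_ifs <;> simp

private theorem ex_smul {m : ℕ} (c : ZMod 2) (f : Bal G m → ZMod 2) (u : W G) :
    ex (c • f) u = c * ex f u := by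
  unfold ex
  split_ifs <;> simp

/-- the nilpotent part -/
private noncomputable def Tn (D : V → W G → ZMod 2) (m : ℕ) (s : V) :
    (Bal G m → ZMod 2) →ₗ[ZMod 2] (Bal G m → ZMod 2) where
  toFun f := fun u => D s u.1 * ex f (sm G s * u.1)
  map_add' f g := by
    funext u
    simp only [Pi.add_apply, ex_add, mul_add]
  map_smul' c f := by
    funext u
    simp only [Pi.smul_apply, smul_eq_mul, RingHom.id_apply, ex_smul]
    ring

private theorem Tn_apply (D : V → W G → ZMod 2) (m : ℕ) (s : V) (f : Bal G m → ZMod 2)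
    (u : Bal G m) : Tn D m s f u = D s u.1 * ex f (sm G s * u.1) := rfl

private theorem z2 (a : ZMod 2) : a = 0 ∨ a = 1 := by
  revert a
  decide

private theorem z2_mul (a : ZMod 2) : a * (a + 1) = 0 := by
  revert a
  decide

private theorem z2_add (a : ZMod 2) : a + a = 0 := by
  revert a
  decide

variable {D : V → W G → ZMod 2}

private theorem ex_Tn (h1 : ∀ s u, D s u = 1 ↔ (raM G).toCoxeterSystem.length (sm G s * u) <
      (raM G).toCoxeterSystem.length u) (m : ℕ) (s t : V) (f : Bal G m → ZMod 2) (u : Bal G m) :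
    D s u.1 * ex (Tn D m t f) (sm G s * u.1) =
      D s u.1 * (D t (sm G s * u.1) * ex f (sm G t * (sm G s * u.1))) := by
  rcases z2 (D s u.1) with h | h
  · rw [h, zero_mul, zero_mul]
  · have h2 := (h1 s u.1).mp h
    have h3 : nl (sm G s * u.1) ≤ m := (h2.le).trans u.2
    rw [ex_of _ h3, Tn_apply]

private theorem Tn_sq (h1 : ∀ s u, D s u = 1 ↔ (raM G).toCoxeterSystem.length (sm G s * u) <
      (raM G).toCoxeterSystem.length u) (h2 : ∀ s u, D s (sm G s * u) = D s u + 1) (m : ℕ) (s : V) :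
    Tn D m s * Tn D m s = 0 := by
  ext1 f
  funext u
  rw [Module.End.mul_apply, Tn_apply, ex_Tn h1, h2, ← mul_assoc, z2_mul, zero_mul]
  rfl

private theorem Tn_comm (h1 : ∀ s u, D s u = 1 ↔ (raM G).toCoxeterSystem.length (sm G s * u) <
      (raM G).toCoxeterSystem.length u) (h3 : ∀ s t u, G.Adj s t → D s (sm G t * u) = D s u)
    (hc : ∀ s t, G.Adj s t → sm G s * sm G t = sm G t * sm G s) (m : ℕ) {s t : V} (hst : G.Adj s t) :
    Tn D m s * Tn D m t = Tn D m t * Tn D m s := by
  ext1 f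
  funext u
  have e : sm G t * (sm G s * u.1) = sm G s * (sm G t * u.1) := by
    rw [← mul_assoc, ← mul_assoc, hc s t hst]
  rw [Module.End.mul_apply, Module.End.mul_apply, Tn_apply, Tn_apply, ex_Tn h1, ex_Tn h1,
    h3 t s _ hst.symm, h3 s t _ hst, e]
  ring

private theorem two_end (m : ℕ) (a : Module.End (ZMod 2) (Bal G m → ZMod 2)) : a + a = 0 := by
  ext1 f
  funext u
  exact z2_add _

/-- the unipotent operator as a unit -/
private noncomputable def Un (D : V → W G → ZMod 2)
    (h1 : ∀ s u, D s u = 1 ↔ (raM G).toCoxeterSystem.length (sm G s * u) <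
      (raM G).toCoxeterSystem.length u) (h2 : ∀ s u, D s (sm G s * u) = D s u + 1) (m : ℕ) (s : V) :
    (Module.End (ZMod 2) (Bal G m → ZMod 2))ˣ :=
  have h : (1 + Tn D m s) * (1 + Tn D m s) = 1 := by
    rw [mul_add, add_mul, add_mul, Tn_sq h1 h2 m s]
    simp only [one_mul, mul_one, add_zero]
    rw [add_assoc, two_end, add_zero]
  ⟨1 + Tn D m s, 1 + Tn D m s, h, h⟩

private theorem Un_val (h1 : ∀ s u, D s u = 1 ↔ (raM G).toCoxeterSystem.length (sm G s * u) <
      (raM G).toCoxeterSystem.length u) (h2 : ∀ s u, D s (sm G s * u) = D s u + 1) (m : ℕ) (s : V) :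
    (Un D h1 h2 m s : Module.End (ZMod 2) (Bal G m → ZMod 2)) = 1 + Tn D m s := rfl

private theorem Un_sq (h1 : ∀ s u, D s u = 1 ↔ (raM G).toCoxeterSystem.length (sm G s * u) <
      (raM G).toCoxeterSystem.length u) (h2 : ∀ s u, D s (sm G s * u) = D s u + 1) (m : ℕ) (s : V) :
    Un D h1 h2 m s * Un D h1 h2 m s = 1 := by
  ext1
  exact (Un D h1 h2 m s).val_inv

/-- functions vanishing on elements of small length -/
private def Fk (G : SimpleGraph V) (m k : ℕ) (f : Bal G m → ZMod 2) : Prop := ∀ u : Bal G m, nl u.1 < k → f u = 0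

private theorem Fk_mono {m k : ℕ} {f : Bal G m → ZMod 2} (h : Fk G m (k + 1) f) : Fk G m k f :=
  fun u hu => h u (by omega)

private theorem Fk_add {m k : ℕ} {f g : Bal G m → ZMod 2} (hf : Fk G m k f) (hg : Fk G m k g) :
    Fk G m k (f + g) := by
  intro u hu
  rw [Pi.add_apply, hf u hu, hg u hu, add_zero]

private theorem Tn_Fk (h1 : ∀ s u, D s u = 1 ↔ (raM G).toCoxeterSystem.length (sm G s * u) <
      (raM G).toCoxeterSystem.length u) {m k : ℕ} (s : V) {f : Bal G m → ZMod 2} (hf : Fk G m k f) :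
    Fk G m (k + 1) (Tn D m s f) := by
  intro u hu
  rw [Tn_apply]
  rcases z2 (D s u.1) with h | h
  · rw [h, zero_mul]
  · have h2 : nl (sm G s * u.1) < nl u.1 := (h1 s u.1).mp h
    have h3 : nl (sm G s * u.1) ≤ m := (h2.le).trans u.2
    rw [ex_of _ h3, hf ⟨_, h3⟩ (by change nl (sm G s * u.1) < k; omega), mul_zero]

private theorem Un_Fk (h1 : ∀ s u, D s u = 1 ↔ (raM G).toCoxeterSystem.length (sm G s * u) <
      (raM G).toCoxeterSystem.length u) (h2 : ∀ s u, D s (sm G s * u) = D s u + 1) {m k : ℕ} (s : V)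
    {f : Bal G m → ZMod 2} (hf : Fk G m k f) :
    Fk G m k ((Un D h1 h2 m s : Module.End (ZMod 2) (Bal G m → ZMod 2)) f) := by
  rw [Un_val]
  exact Fk_add hf (Fk_mono (Tn_Fk h1 s hf))

private theorem phi_Fk (h1 : ∀ s u, D s u = 1 ↔ (raM G).toCoxeterSystem.length (sm G s * u) <
      (raM G).toCoxeterSystem.length u) (h2 : ∀ s u, D s (sm G s * u) = D s u + 1) {m : ℕ}
    (φ : W G →* (Module.End (ZMod 2) (Bal G m → ZMod 2))ˣ) (hφ : ∀ s, φ (sm G s) = Un D h1 h2 m s)
    (w : W G) : ∀ (k : ℕ) (f : Bal G m → ZMod 2), Fk G m k f →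
      Fk G m (k + 1) ((φ w : Module.End (ZMod 2) (Bal G m → ZMod 2)) f + f) := by
  refine (raM G).toCoxeterSystem.simple_induction_left
    (p := fun w => ∀ (k : ℕ) (f : Bal G m → ZMod 2), Fk G m k f →
      Fk G m (k + 1) ((φ w : Module.End (ZMod 2) (Bal G m → ZMod 2)) f + f)) w ?_ ?_
  · intro k f _ u _
    rw [map_one, Units.val_one, Module.End.one_apply, Pi.add_apply]
    exact z2_add _
  · intro w s ih k f hf
    have e : ((φ (sm G s * w) : (Module.End (ZMod 2) (Bal G m → ZMod 2))ˣ) :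
        Module.End (ZMod 2) (Bal G m → ZMod 2)) f + f =
        (Un D h1 h2 m s : Module.End (ZMod 2) (Bal G m → ZMod 2))
          ((φ w : Module.End (ZMod 2) (Bal G m → ZMod 2)) f + f) + Tn D m s f := by
      rw [map_mul, Units.val_mul, Module.End.mul_apply, hφ, map_add, Un_val]
      simp only [LinearMap.add_apply, Module.End.one_apply]
      have h3 : Tn D m s f + Tn D m s f = 0 := by
        funext u
        exact z2_add _
      rw [add_assoc ((φ w : Module.End (ZMod 2) (Bal G m → ZMod 2)) f +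
        Tn D m s ((φ w : Module.End (ZMod 2) (Bal G m → ZMod 2)) f)), add_assoc f, h3, add_zero]
    rw [e]
    exact Fk_add (Un_Fk h1 h2 s (ih k f hf)) (Tn_Fk h1 s hf)

private theorem one_add_pow {R : Type} [Ring R] (h : ∀ a : R, a + a = 0) (a : R) (k : ℕ) :
    (1 + a) ^ (2 ^ k) = 1 + a ^ (2 ^ k) := by
  induction k with
  | zero => simp
  | succ k ih =>
    rw [pow_succ, pow_mul, ih, sq, mul_add, add_mul, add_mul, pow_mul, sq]
    simp only [one_mul, mul_one]
    rw [add_assoc, ← add_assoc (a ^ 2 ^ k) (a ^ 2 ^ k), h, zero_add]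

private theorem phi_pow (h1 : ∀ s u, D s u = 1 ↔ (raM G).toCoxeterSystem.length (sm G s * u) <
      (raM G).toCoxeterSystem.length u) (h2 : ∀ s u, D s (sm G s * u) = D s u + 1) {m : ℕ}
    (φ : W G →* (Module.End (ZMod 2) (Bal G m → ZMod 2))ˣ) (hφ : ∀ s, φ (sm G s) = Un D h1 h2 m s)
    (w : W G) : φ w ^ (2 ^ (m + 1)) = 1 := by
  ext1
  rw [Units.val_pow_eq_pow_val, Units.val_one]
  set a : Module.End (ZMod 2) (Bal G m → ZMod 2) := (φ w : Module.End (ZMod 2) (Bal G m → ZMod 2)) + 1
    with ha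
  have e1 : (φ w : Module.End (ZMod 2) (Bal G m → ZMod 2)) = 1 + a := by
    rw [ha, add_comm _ (1 : Module.End (ZMod 2) (Bal G m → ZMod 2)), ← add_assoc, two_end, zero_add]
  have h3 : ∀ (k : ℕ) (f : Bal G m → ZMod 2), Fk G m k ((a ^ k) f) := by
    intro k
    induction k with
    | zero => intro f u hu; exact absurd hu (Nat.not_lt_zero _)
    | succ k ih =>
      intro f
      rw [pow_succ', Module.End.mul_apply]
      exact phi_Fk h1 h2 φ hφ w k _ (ih f)
  have h4 : a ^ (2 ^ (m + 1)) = 0 := by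
    ext1 f
    funext u
    have h5 : m + 1 < 2 ^ (m + 1) := Nat.lt_two_pow_self
    exact h3 (2 ^ (m + 1)) f u (by have := u.2; omega)
  rw [e1, one_add_pow (two_end m), h4, add_zero]

open Classical in
/-- the delta function -/
private noncomputable def dl (G : SimpleGraph V) (m : ℕ) (u : Bal G m) : ZMod 2 := if u.1 = 1 then 1 else 0

private theorem phi_zero (h1 : ∀ s u, D s u = 1 ↔ (raM G).toCoxeterSystem.length (sm G s * u) <
      (raM G).toCoxeterSystem.length u) (h2 : ∀ s u, D s (sm G s * u) = D s u + 1) {m : ℕ}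
    (φ : W G →* (Module.End (ZMod 2) (Bal G m → ZMod 2))ˣ) (hφ : ∀ s, φ (sm G s) = Un D h1 h2 m s)
    (n : ℕ) : ∀ w : W G, nl w = n → ∀ u : Bal G m, n < nl u.1 →
      (φ w : Module.End (ZMod 2) (Bal G m → ZMod 2)) (dl G m) u = 0 := by
  induction n with
  | zero =>
    intro w hw u hu
    rw [(raM G).toCoxeterSystem.length_eq_zero_iff.mp hw, map_one, Units.val_one, Module.End.one_apply]
    unfold dl
    rw [if_neg]
    intro h
    rw [h] at hu
    change 0 < (raM G).toCoxeterSystem.length 1 at hu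
    rw [(raM G).toCoxeterSystem.length_one] at hu
    exact Nat.not_lt_zero _ hu
  | succ n ih =>
    intro w hw u hu
    have hne : w ≠ 1 := by
      intro h
      rw [h] at hw
      change (raM G).toCoxeterSystem.length 1 = n + 1 at hw
      rw [(raM G).toCoxeterSystem.length_one] at hw
      omega
    obtain ⟨s, hs⟩ := (raM G).toCoxeterSystem.exists_leftDescent_of_ne_one hne
    have hs2 : nl (sm G s * w) + 1 = nl w := (raM G).toCoxeterSystem.isLeftDescent_iff.mp hs
    have hw' : w = sm G s * (sm G s * w) := by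
      rw [← mul_assoc, (raM G).toCoxeterSystem.simple_mul_simple_self, one_mul]
    have h3 := ih (sm G s * w) (by omega)
    rw [hw', map_mul, Units.val_mul, Module.End.mul_apply, hφ, Un_val, LinearMap.add_apply,
      Module.End.one_apply, Pi.add_apply, h3 u (by omega), zero_add, Tn_apply]
    rcases z2 (D s u.1) with h | h
    · rw [h, zero_mul]
    · have h4 := (h1 s u.1).mp h
      have h5 : nl (sm G s * u.1) ≤ m := (h4.le).trans u.2
      have h6 : nl (sm G s * u.1) = nl u.1 + 1 ∨ nl (sm G s * u.1) + 1 = nl u.1 :=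
        (raM G).toCoxeterSystem.length_simple_mul u.1 s
      rw [ex_of _ h5, h3 ⟨_, h5⟩ (by change n < nl (sm G s * u.1); omega), mul_zero]

private theorem phi_one (h1 : ∀ s u, D s u = 1 ↔ (raM G).toCoxeterSystem.length (sm G s * u) <
      (raM G).toCoxeterSystem.length u) (h2 : ∀ s u, D s (sm G s * u) = D s u + 1) {m : ℕ}
    (φ : W G →* (Module.End (ZMod 2) (Bal G m → ZMod 2))ˣ) (hφ : ∀ s, φ (sm G s) = Un D h1 h2 m s)
    (n : ℕ) : ∀ (w : W G) (hw : nl w ≤ m), nl w = n →
      (φ w : Module.End (ZMod 2) (Bal G m → ZMod 2)) (dl G m) ⟨w, hw⟩ = 1 := by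
  induction n with
  | zero =>
    intro w hw hn
    have hw1 := (raM G).toCoxeterSystem.length_eq_zero_iff.mp hn
    subst hw1
    rw [map_one, Units.val_one, Module.End.one_apply]
    unfold dl
    rw [if_pos rfl]
  | succ n ih =>
    intro w hw hn
    have hne : w ≠ 1 := by
      intro h
      rw [h] at hn
      change (raM G).toCoxeterSystem.length 1 = n + 1 at hn
      rw [(raM G).toCoxeterSystem.length_one] at hn
      omega
    obtain ⟨s, hs⟩ := (raM G).toCoxeterSystem.exists_leftDescent_of_ne_one hne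
    have hs2 : nl (sm G s * w) + 1 = nl w := (raM G).toCoxeterSystem.isLeftDescent_iff.mp hs
    have hw' : φ w = φ (sm G s) * φ (sm G s * w) := by
      rw [← map_mul, ← mul_assoc, (raM G).toCoxeterSystem.simple_mul_simple_self, one_mul]
    have h3 := phi_zero h1 h2 φ hφ n (sm G s * w) (by omega) ⟨w, hw⟩ (by change n < nl w; omega)
    have h5 : nl (sm G s * w) ≤ m := by omega
    rw [hw', Units.val_mul, Module.End.mul_apply, hφ, Un_val, LinearMap.add_apply,
      Module.End.one_apply, Pi.add_apply, h3, zero_add, Tn_apply, (h1 s w).mpr hs, one_mul]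
    rw [ex_of _ h5]
    exact ih _ h5 (by omega)

end nil

theorem nil_sep {V : Type} [Finite V] (G : SimpleGraph V) (F : Finset (W G)) (hF : (1 : W G) ∉ F) :
    ∃ (P : Type) (_ : Group P) (_ : Finite P) (φ : W G →* P), IsPGroup 2 P ∧ ∀ w ∈ F, φ w ≠ 1 := by
  classical
  obtain ⟨D, h1, h2, h3⟩ := exists_desc G
  obtain ⟨m, hm⟩ : ∃ m : ℕ, ∀ w ∈ F, nl w ≤ m := ⟨F.sup fun w => nl w, fun w hw => Finset.le_sup (f := fun w => nl w) hw⟩
  have hc : ∀ s t, G.Adj s t → sm G s * sm G t = sm G t * sm G s := by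
    intro s t hst
    have h4 := (raM G).toCoxeterSystem.simple_mul_simple_pow s t
    have h5 : (raM G) s t = 2 := by
      change (if s = t then 1 else if G.Adj s t then 2 else 0) = 2
      rw [if_neg hst.ne, if_pos hst]
    rw [h5, sq] at h4
    have h6 := (raM G).toCoxeterSystem.simple_mul_simple_self s
    have h7 := (raM G).toCoxeterSystem.simple_mul_simple_self t
    calc sm G s * sm G t = (sm G s * sm G t)⁻¹ := eq_inv_of_mul_eq_one_left h4
      _ = (sm G t)⁻¹ * (sm G s)⁻¹ := mul_inv_rev _ _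
      _ = sm G t * sm G s := by
          rw [inv_eq_of_mul_eq_one_left h6, inv_eq_of_mul_eq_one_left h7]
  have hcomm : ∀ v w, G.Adj v w → Un D h1 h2 m v * Un D h1 h2 m w = Un D h1 h2 m w * Un D h1 h2 m v := by
    intro v w hvw
    ext1
    rw [Units.val_mul, Units.val_mul, Un_val, Un_val, mul_add, add_mul, add_mul, mul_add, add_mul, add_mul,
      Tn_comm h1 h3 hc m hvw]
    simp only [one_mul, mul_one]
    abel
  obtain ⟨φ, hφ⟩ := exists_lift G (Un D h1 h2 m) (Un_sq h1 h2 m) hcomm
  have := bal_finite (G := G) m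
  have hfin : Finite (Module.End (ZMod 2) (Bal G m → ZMod 2)) :=
    Finite.of_injective (fun f => (f : (Bal G m → ZMod 2) → (Bal G m → ZMod 2))) DFunLike.coe_injective
  have hfin2 : Finite (Module.End (ZMod 2) (Bal G m → ZMod 2))ˣ :=
    Finite.of_injective (fun f => (f : Module.End (ZMod 2) (Bal G m → ZMod 2))) Units.val_injective
  refine ⟨φ.range, inferInstance, inferInstance, φ.rangeRestrict, ?_, ?_⟩
  · intro g
    obtain ⟨w, hw⟩ := g.2
    refine ⟨m + 1, ?_⟩
    ext1
    rw [Subgroup.coe_pow, ← hw, phi_pow h1 h2 φ hφ w]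
    rfl
  · intro w hw h
    have h4 : φ w = 1 := by
      have := congrArg (fun x : φ.range => (x : (Module.End (ZMod 2) (Bal G m → ZMod 2))ˣ)) h
      exact this
    have h5 := phi_one h1 h2 φ hφ (nl w) w (hm w hw) rfl
    rw [h4, Units.val_one, Module.End.one_apply] at h5
    unfold dl at h5
    rw [if_neg (fun h6 : w = 1 => hF (h6 ▸ hw))] at h5
    exact absurd h5 (by decide)

end SNG
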