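import Mathlib

/-!
# Project SNG (architect helper40), module RankInt: independence modulo 2 and over the real numbers

Let `v_1, …, v_r ∈ ℤ ^ N` be linearly independent modulo 2.  Then they are linearly independent over
`ℝ`.  Proof 1: the matrix modulo 2 has rank `r`, so some `r × r` minor is odd, hence nonzero over `ℝ`.
Proof 2: independence over `ℤ`: a nontrivial relation can be divided by a power of 2 so that not all
coefficients are even, which gives a nontrivial relation mod 2.  From `ℤ` to `ℚ`: clear denominators
(`LinearIndependent.iff_fractionRing`).  From `ℚ` to `ℝ`: the rank of a matrix does not change under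
field extension; (e.g. for `r × r` Gram matrix `det (⟨v_i, v_j⟩) ≠ 0` over `ℚ`; or
`LinearIndependent` of vectors in `N → ℚ` mapped to `N → ℝ`: see Mathlib for
`LinearIndependent.map_of_injective...`/`Matrix.rank` base change/`Module.Flat`).
Proof 3: direct: Gauss elimination / `Matrix.exists_...` whatever is in Mathlib.
-/

namespace SNG

theorem linearIndependent_real_of_mod_two {r N : Type} [Finite r] [Finite N] (v : r → N → ℤ)
    (h : LinearIndependent (ZMod 2) fun i => fun x => ((v i x : ℤ) : ZMod 2)) :
    LinearIndependent ℝ fun i => fun x => ((v i x : ℤ) : ℝ) := by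
  classical
  have := Fintype.ofFinite r
  have := Fintype.ofFinite N
  set w : r → N → ZMod 2 := fun i x => ((v i x : ℤ) : ZMod 2) with hw
  have hinj : Function.Injective (Fintype.linearCombination (ZMod 2) w) :=
    linearIndependent_iff_injective_fintypeLinearCombination.mp h
  obtain ⟨g, hg⟩ := LinearMap.exists_leftInverse_of_injective (Fintype.linearCombination (ZMod 2) w)
    (LinearMap.ker_eq_bot.mpr hinj)
  have hgw : ∀ i, g (w i) = Pi.single i 1 := by
    intro i
    have h1 := LinearMap.congr_fun hg (Pi.single i (1 : ZMod 2))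
    rw [LinearMap.comp_apply, LinearMap.id_apply, Fintype.linearCombination_apply_single, one_smul] at h1
    exact h1
  have hexp : ∀ i, g (w i) = ∑ x, w i x • g (Pi.single x 1) := by
    intro i
    have h1 : w i = ∑ x, w i x • (Pi.single x (1 : ZMod 2) : N → ZMod 2) := by
      funext y
      simp [Finset.sum_apply, Pi.single_apply]
    conv_lhs => rw [h1]
    rw [map_sum]
    exact Finset.sum_congr rfl fun x _ => map_smul g _ _
  let B : Matrix N r ℤ := Matrix.of fun x j => ((g (Pi.single x 1) j).val : ℤ)
  let M : Matrix r N ℤ := Matrix.of v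
  have hB : ∀ x j, ((B x j : ℤ) : ZMod 2) = g (Pi.single x 1) j := by
    intro x j
    simp [B]
  have h1 : (M * B).map (Int.castRingHom (ZMod 2)) = 1 := by
    ext i j
    have h2 := congrFun (hexp i) j
    rw [hgw i] at h2
    rw [Matrix.map_apply, Matrix.mul_apply, map_sum, Matrix.one_apply]
    have h3 : ∑ x, (Int.castRingHom (ZMod 2)) (M i x * B x j) = ∑ x, w i x * g (Pi.single x 1) j := by
      refine Finset.sum_congr rfl fun x _ => ?_
      rw [map_mul]
      simp only [eq_intCast]
      rw [hB]
      rfl
    rw [h3]
    have h4 : (∑ x, w i x • g (Pi.single x 1)) j = ∑ x, w i x * g (Pi.single x 1) j := by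
      simp [Finset.sum_apply]
    rw [← h4, ← h2, Pi.single_apply]
    by_cases hij : i = j
    · subst hij; simp
    · rw [if_neg hij, if_neg (Ne.symm hij)]
  have hdet : (M * B).det ≠ 0 := by
    intro h0
    have h2 : ((M * B).map (Int.castRingHom (ZMod 2))).det = 0 := by
      rw [← RingHom.mapMatrix_apply, ← RingHom.map_det, h0, map_zero]
    rw [h1, Matrix.det_one] at h2
    exact one_ne_zero h2
  have hdetR : ((M * B).map (Int.castRingHom ℝ)).det ≠ 0 := by
    rw [← RingHom.mapMatrix_apply, ← RingHom.map_det]
    simpa using hdet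
  rw [Fintype.linearIndependent_iff]
  intro c hc
  have h2 : Matrix.vecMul c (M.map (Int.castRingHom ℝ)) = 0 := by
    funext x
    have h3 := congrFun hc x
    simp only [Finset.sum_apply, Pi.smul_apply, smul_eq_mul, Pi.zero_apply] at h3
    simp only [Matrix.vecMul, dotProduct, Matrix.map_apply, Pi.zero_apply]
    exact h3
  have h3 : Matrix.vecMul c ((M * B).map (Int.castRingHom ℝ)) = 0 := by
    rw [Matrix.map_mul, ← Matrix.vecMul_vecMul, h2, Matrix.zero_vecMul]
  have h4 := Matrix.eq_zero_of_vecMul_eq_zero hdetR h3
  intro i
  exact congrFun h4 i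

end SNG
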