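import Pool.Agent.SNG.Basic
import Pool.Agent.SNG.RankInt

/-!
# Project SNG (architect helper40), module Real: from characteristic 2 to the real numbers

`P` is a finite group with `IsDat univ G p`.  Claim `dim HarmS G p i ≤ bt univ ∅ G p i`.

Notation.  `C i` (for `i : ℕ`) is the real vector space of the functions `f : Finset V → P → ℝ` with
`f T = 0` unless `T` is a clique with `i` elements, and `f T (g p_s) = - f T g` for `s ∈ T`.
`∂ = bdry` (as a linear map).  `∂` maps `C (i + 1)` to `C i`; `∂ ∂ = 0` because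
`sg T s * sg (insert s T) t = - sg T t * sg (insert t T) s` for `s ≠ t` not in `T`.
Coordinates `c` from `IsDat.co` (`c s (g p_t) = c s g + [t = s]`).  For `T : Finset V` let
`ε T g = (-1) ^ (∑_{s ∈ T} (c s g).val)` (a sign, `±1`); so `ε T (g p_s) = - ε T g` for `s ∈ T`.

Step 1: `dim C i = dim Ch univ ∅ G p i` (only `≤` is needed).  Multiplication with `ε` identifies
`C i` with the functions `f` supported on cliques with `i` elements with `f T (g p_s) = f T g` for
`s ∈ T`, i.e. `f T` is a function on the left cosets `P ⧸ Subgroup.closure (p '' T)`.  So both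
dimensions are the number of pairs (clique `T` with `i` elements, left coset).

Step 2: `dim bd (Ch univ ∅ G p (i + 1)) ≤ dim ∂ (C (i + 1))`.  For `f ∈ Ch univ ∅ G p (i + 1)` define
the lift `f~ T g = ε T g * (f T g).val` (`0` or `±1`), an integer valued element of `C (i + 1)` with
`f~ T g ≡ f T g mod 2`, so `∂ f~` is integer valued and `≡ bd f mod 2`.  Take `f_1, …, f_r` such that
`bd f_1, …, bd f_r` is a basis of the image.  Then `∂ f~_1, …, ∂ f~_r` are linearly independent over
`ℝ`: these are vectors with INTEGER coordinates whose reductions mod 2 are linearly independent over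
`ZMod 2` (`linearIndependent_real_of_mod_two`, module RankInt).

Step 3: rank nullity on `C i` and `Ch univ ∅ G p i` (for `i = 0` both `∂` and `bd` are `0` there; for
`i ≥ 1` use Step 2 for `i - 1`):
`dim (C i ∩ ker ∂) - dim ∂ (C (i + 1)) = dim C i - rank (∂ on C i) - rank (∂ on C (i + 1))
≤ dim Ch i - rank (bd on Ch i) - rank (bd on Ch (i + 1)) = bt univ ∅ G p i`.

Step 4: `HarmS ⊆ C i ∩ ker ∂` and `HarmS ∩ ∂ (C (i + 1)) = 0`: let `f = ∂ h ∈ HarmS`.  With
`⟨f, f'⟩ = ∑_T ∑_g f T g * f' T g`,
`⟨f, ∂ h⟩ = ∑_T ∑_g ∑_{s ∉ T} sg T s f_T(g) h_{T ∪ s}(g) = ∑_{T'} ∑_{s ∈ T'} sg (T' - s) s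
∑_g f_{T' - s}(g) h_{T'}(g)` and, as `h_{T'}(g p_s) = - h_{T'}(g)`,
`∑_g f_{T' - s}(g) h_{T'}(g) = 1/2 ∑_g (f_{T' - s}(g) - f_{T' - s}(g p_s)) h_{T'}(g)`, so
`⟨f, ∂ h⟩ = 1/2 ∑_{T'} ∑_g (cobd p f T' g) * h T' g = 0` (`h T' = 0` unless `T'` is a clique,
and then `cobd p f T' = 0`).  So `⟨f, f⟩ = 0`, `f = 0`.
Hence `dim HarmS + dim ∂ (C (i + 1)) ≤ dim (C i ∩ ker ∂)`, and with Step 3 the claim.
-/

namespace SNG

open Finset Module

/-! ### linear algebra -/

private theorem rn {K M N : Type} [Field K] [AddCommGroup M] [AddCommGroup N] [Module K M] [Module K N]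
    [FiniteDimensional K M] (S : Submodule K M) (φ : M →ₗ[K] N) :
    finrank K ↥(S.map φ) + finrank K ↥(S ⊓ LinearMap.ker φ) = finrank K ↥S := by
  have h := LinearMap.finrank_range_add_finrank_ker (φ.domRestrict S)
  rw [LinearMap.range_domRestrict] at h
  have h2 : finrank K ↥(LinearMap.ker (φ.domRestrict S)) = finrank K ↥(S ⊓ LinearMap.ker φ) := by
    rw [LinearMap.ker_domRestrict]
    have h3 : ((LinearMap.ker φ).comap S.subtype).map S.subtype = S ⊓ LinearMap.ker φ := by
      rw [Submodule.map_comap_subtype]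
    rw [← h3]
    exact (Submodule.equivMapOfInjective S.subtype S.injective_subtype _).finrank_eq
  rw [h2] at h
  exact h

section real

variable {V : Type} [Fintype V] [LinearOrder V] {P : Type} [Group P]

variable (V P) in
/-- the real boundary as a linear map -/
private noncomputable def rb : (Finset V → P → ℝ) →ₗ[ℝ] (Finset V → P → ℝ) where
  toFun f := bdry f
  map_add' f g := by
    funext T x
    simp only [bdry, Pi.add_apply, mul_add, sum_add_distrib]
  map_smul' c f := by
    funext T x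
    simp only [bdry, Pi.smul_apply, smul_eq_mul, mul_sum, RingHom.id_apply]
    exact sum_congr rfl fun s _ => by ring

omit [Group P] in
private theorem rb_apply (f : Finset V → P → ℝ) (T : Finset V) (g : P) :
    rb V P f T g = ∑ s ∈ Tᶜ, sg T s * f (insert s T) g := rfl

omit [Fintype V] in
/-- the sign rule -/
private theorem sg_sw {T : Finset V} {s t : V} (hs : s ∉ T) (ht : t ∉ T) (hst : s ≠ t) :
    sg T s * sg (insert s T) t = - (sg T t * sg (insert t T) s) := by
  have key : ∀ {a b : V}, a ∉ T → b ∉ T → a < b →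
      sg T a * sg (insert a T) b = - (sg T b * sg (insert b T) a) := by
    intro a b ha hb hab
    have e1 : (insert a T).filter (· < b) = insert a (T.filter (· < b)) := by
      rw [filter_insert, if_pos hab]
    have e2 : (insert b T).filter (· < a) = T.filter (· < a) := by
      rw [filter_insert, if_neg (not_lt.mpr hab.le)]
    have e3 : a ∉ T.filter (· < b) := fun h => ha (mem_filter.mp h).1
    unfold sg
    rw [e1, e2, card_insert_of_notMem e3, pow_succ]
    ring
  rcases lt_or_gt_of_ne hst with h | h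
  · exact key hs ht h
  · rw [key ht hs h, neg_neg]

omit [Group P] in
private theorem rb_rb (f : Finset V → P → ℝ) : rb V P (rb V P f) = 0 := by
  funext T g
  rw [rb_apply]
  have h1 : ∀ s ∈ Tᶜ, sg T s * rb V P f (insert s T) g =
      ∑ t ∈ (insert s T)ᶜ, sg T s * (sg (insert s T) t * f (insert t (insert s T)) g) := by
    intro s _
    rw [rb_apply, mul_sum]
  rw [sum_congr rfl h1, sum_sigma']
  refine sum_involution (fun a _ => ⟨a.2, a.1⟩) ?_ ?_ ?_ ?_
  · rintro ⟨s, t⟩ h
    obtain ⟨hs, ht⟩ := mem_sigma.mp h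
    simp only [mem_compl, mem_insert, not_or] at hs ht
    have h2 := sg_sw hs ht.2 (Ne.symm ht.1)
    have h3 : insert t (insert s T) = insert s (insert t T) := Finset.insert_comm t s T
    change sg T s * (sg (insert s T) t * f (insert t (insert s T)) g) +
      sg T t * (sg (insert t T) s * f (insert s (insert t T)) g) = 0
    rw [h3, ← mul_assoc, ← mul_assoc, h2]
    ring
  · rintro ⟨s, t⟩ h _ h2
    obtain ⟨hs, ht⟩ := mem_sigma.mp h
    simp only [mem_compl, mem_insert, not_or] at hs ht
    have h3 : t = s := congrArg Sigma.fst h2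
    exact ht.1 h3
  · rintro ⟨s, t⟩ h
    obtain ⟨hs, ht⟩ := mem_sigma.mp h
    simp only [mem_compl, mem_insert, not_or] at hs ht
    refine mem_sigma.mpr ⟨?_, ?_⟩
    · exact mem_compl.mpr ht.2
    · simp only [mem_compl, mem_insert, not_or]
      exact ⟨Ne.symm ht.1, hs⟩
  · rintro ⟨s, t⟩ h
    rfl

/-- real alternating chains -/
private def RC (G : SimpleGraph V) (p : V → P) (i : ℕ) : Submodule ℝ (Finset V → P → ℝ) where
  carrier := {f | (∀ T : Finset V, ¬ (G.IsClique (T : Set V) ∧ T.card = i) → f T = 0) ∧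
    ∀ T : Finset V, ∀ s ∈ T, ∀ g, f T (g * p s) = - f T g}
  zero_mem' := by simp
  add_mem' := by
    rintro f g ⟨h1, h2⟩ ⟨h3, h4⟩
    refine ⟨fun T hT => ?_, fun T s hs x => ?_⟩
    · rw [Pi.add_apply, h1 T hT, h3 T hT, add_zero]
    · rw [Pi.add_apply, Pi.add_apply, h2 T s hs, h4 T s hs, Pi.add_apply]
      ring
  smul_mem' := by
    rintro c f ⟨h1, h2⟩
    refine ⟨fun T hT => ?_, fun T s hs x => ?_⟩
    · rw [Pi.smul_apply, h1 T hT, smul_zero]
    · rw [Pi.smul_apply, Pi.smul_apply, h2 T s hs, Pi.smul_apply]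
      simp

omit [Fintype V] [LinearOrder V] in
private theorem mem_RC {G : SimpleGraph V} {p : V → P} {i : ℕ} {f : Finset V → P → ℝ} :
    f ∈ RC G p i ↔ (∀ T : Finset V, ¬ (G.IsClique (T : Set V) ∧ T.card = i) → f T = 0) ∧
    ∀ T : Finset V, ∀ s ∈ T, ∀ g, f T (g * p s) = - f T g := Iff.rfl

private theorem rb_mem {G : SimpleGraph V} {p : V → P} {i : ℕ} {f : Finset V → P → ℝ}
    (hf : f ∈ RC G p (i + 1)) : rb V P f ∈ RC G p i := by
  obtain ⟨h1, h2⟩ := mem_RC.mp hf
  refine mem_RC.mpr ⟨fun T hT => ?_, fun T s hs g => ?_⟩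
  · funext g
    rw [rb_apply]
    refine sum_eq_zero fun s hs => ?_
    have hs' := mem_compl.mp hs
    rw [h1 (insert s T), Pi.zero_apply, mul_zero]
    rintro ⟨h3, h4⟩
    rw [card_insert_of_notMem hs'] at h4
    refine hT ⟨?_, by omega⟩
    exact h3.subset (by rw [coe_insert]; exact Set.subset_insert _ _)
  · rw [rb_apply, rb_apply, ← sum_neg_distrib]
    refine sum_congr rfl fun t _ => ?_
    rw [h2 (insert t T) s (mem_insert_of_mem hs)]
    ring

/-! ### signs -/

private def chi (a : ZMod 2) : ℤ := (-1) ^ a.val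

private theorem chi_add (a : ZMod 2) : chi (a + 1) = - chi a := by
  revert a
  decide

private theorem chi_z (a : ZMod 2) : ((chi a : ℤ) : ZMod 2) = 1 := by
  revert a
  decide

private theorem chi_sq (a : ZMod 2) : chi a * chi a = 1 := by
  revert a
  decide

private def ep (c : V → P → ZMod 2) (T : Finset V) (g : P) : ℤ := ∏ x ∈ T, chi (c x g)

omit [Fintype V] in
private theorem ep_alt {p : V → P} {c : V → P → ZMod 2}
    (hc : ∀ v w, ∀ g, c v (g * p w) = c v g + if w = v then 1 else 0) (T : Finset V) {s : V}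
    (hs : s ∈ T) (g : P) : ep c T (g * p s) = - ep c T g := by
  unfold ep
  have h1 : ∀ x ∈ T, chi (c x (g * p s)) = (if s = x then -1 else 1) * chi (c x g) := by
    intro x _
    rw [hc]
    split_ifs with h
    · rw [chi_add]
      ring
    · rw [add_zero, one_mul]
  rw [prod_congr rfl h1, prod_mul_distrib, prod_ite_eq, if_pos hs]
  ring

omit [Fintype V] [LinearOrder V] [Group P] in
private theorem ep_sq (c : V → P → ZMod 2) (T : Finset V) (g : P) : ep c T g * ep c T g = 1 := by
  unfold ep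
  rw [← prod_mul_distrib]
  exact prod_eq_one fun x _ => chi_sq _

omit [Fintype V] [LinearOrder V] [Group P] in
private theorem ep_z (c : V → P → ZMod 2) (T : Finset V) (g : P) : ((ep c T g : ℤ) : ZMod 2) = 1 := by
  unfold ep
  rw [Int.cast_prod]
  exact prod_eq_one fun x _ => chi_z _

/-! ### dimensions of the chain spaces -/

omit [Fintype V] [LinearOrder V] in
private theorem inv_cl {X : Type} (p : V → P) (T : Finset V) (h : P → X)
    (hh : ∀ s ∈ T, ∀ g, h (g * p s) = h g) {x : P} (hx : x ∈ Subgroup.closure (p '' (T : Set V))) :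
    ∀ g, h (g * x) = h g := by
  refine Subgroup.closure_induction (p := fun x _ => ∀ g, h (g * x) = h g) ?_ ?_ ?_ ?_ hx
  · rintro _ ⟨s, hs, rfl⟩ g
    exact hh s hs g
  · intro g
    rw [mul_one]
  · intro a b _ _ ha hb g
    rw [← mul_assoc, hb, ha]
  · intro a _ ha g
    have := ha (g * a⁻¹)
    rw [inv_mul_cancel_right] at this
    exact this.symm

/-- index set of a basis -/
private abbrev Ix (G : SimpleGraph V) (p : V → P) (i : ℕ) : Type :=
  Σ T : {T : Finset V // G.IsClique (T : Set V) ∧ T.card = i},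
    P ⧸ Subgroup.closure (p '' ((T : Finset V) : Set V))

private theorem dimC_le [Finite P] {G : SimpleGraph V} {p : V → P} {c : V → P → ZMod 2}
    (hc : ∀ v w, ∀ g, c v (g * p w) = c v g + if w = v then 1 else 0) (i : ℕ) :
    finrank ℝ ↥(RC G p i) ≤ finrank (ZMod 2) ↥(Ch univ ∅ G p (i : ℤ)) := by
  classical
  have := Fintype.ofFinite P
  have hIx : Finite (Ix G p i) := inferInstance
  have := Fintype.ofFinite (Ix G p i)
  -- upper bound
  let φ : ↥(RC G p i) →ₗ[ℝ] (Ix G p i → ℝ) :=
    { toFun := fun f x => (ep c x.1.1 x.2.out : ℝ) * f.1 x.1.1 x.2.out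
      map_add' := by
        intro f g
        funext x
        simp only [Submodule.coe_add, Pi.add_apply, mul_add]
      map_smul' := by
        intro a f
        funext x
        simp only [Submodule.coe_smul, Pi.smul_apply, smul_eq_mul, RingHom.id_apply]
        ring }
  have hφ : Function.Injective φ := by
    rw [← LinearMap.ker_eq_bot, LinearMap.ker_eq_bot']
    intro f hf
    obtain ⟨h1, h2⟩ := mem_RC.mp f.2
    ext T g
    by_cases hT : G.IsClique (T : Set V) ∧ T.card = i
    · have h3 : ∀ s ∈ T, ∀ g, (fun g => (ep c T g : ℝ) * f.1 T g) (g * p s) =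
          (fun g => (ep c T g : ℝ) * f.1 T g) g := by
        intro s hs g
        simp only
        rw [h2 T s hs, ep_alt hc T hs]
        push_cast
        ring
      set q : P ⧸ Subgroup.closure (p '' (T : Set V)) := QuotientGroup.mk g with hq
      have h4 : (QuotientGroup.mk q.out : P ⧸ Subgroup.closure (p '' (T : Set V))) = QuotientGroup.mk g :=
        QuotientGroup.out_eq' q
      have h5 : g⁻¹ * q.out ∈ Subgroup.closure (p '' (T : Set V)) := QuotientGroup.eq.mp h4.symm
      have h6 := inv_cl p T (fun g => (ep c T g : ℝ) * f.1 T g) h3 h5 g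
      rw [mul_inv_cancel_left] at h6
      have h7 : (ep c T q.out : ℝ) * f.1 T q.out = 0 := congrFun hf ⟨⟨T, hT⟩, q⟩
      rw [h7] at h6
      have h8 : (ep c T g : ℝ) * (ep c T g : ℝ) = 1 := by
        exact_mod_cast ep_sq c T g
      have h9 : f.1 T g = (ep c T g : ℝ) * ((ep c T g : ℝ) * f.1 T g) := by
        rw [← mul_assoc, h8, one_mul]
      rw [← h6, mul_zero] at h9
      exact h9
    · rw [h1 T hT]
      rfl
  have hle1 : finrank ℝ ↥(RC G p i) ≤ Fintype.card (Ix G p i) := by
    have h1 := LinearMap.finrank_le_finrank_of_injective hφ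
    rwa [Module.finrank_fintype_fun_eq_card] at h1
  -- lower bound
  let ψ : (Ix G p i → ZMod 2) →ₗ[ZMod 2] ↥(Ch univ ∅ G p (i : ℤ)) :=
    { toFun := fun f => ⟨fun T g => if hT : G.IsClique (T : Set V) ∧ T.card = i then
          f ⟨⟨T, hT⟩, QuotientGroup.mk g⟩ else 0, by
        constructor
        · intro T hT
          funext g
          beta_reduce
          rw [dif_neg]
          · rfl
          · rintro ⟨h1, h2⟩
            exact hT ⟨subset_univ _, h1, by exact_mod_cast h2⟩
        · intro T s hs g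
          rw [union_empty] at hs
          beta_reduce
          by_cases hT : G.IsClique (T : Set V) ∧ T.card = i
          · rw [dif_pos hT, dif_pos hT]
            have h1 : (QuotientGroup.mk (g * p s) : P ⧸ Subgroup.closure (p '' (T : Set V))) =
                QuotientGroup.mk g := by
              refine (QuotientGroup.eq.mpr ?_).symm
              rw [inv_mul_cancel_left]
              exact Subgroup.subset_closure ⟨s, hs, rfl⟩
            rw [h1]
          · rw [dif_neg hT, dif_neg hT]⟩
      map_add' := by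
        intro f g
        ext T x
        simp only [Submodule.coe_add, Pi.add_apply]
        split_ifs <;> simp
      map_smul' := by
        intro a f
        ext T x
        simp only [Submodule.coe_smul, Pi.smul_apply, smul_eq_mul, RingHom.id_apply]
        split_ifs <;> simp }
  have hψ : Function.Injective ψ := by
    rw [← LinearMap.ker_eq_bot, LinearMap.ker_eq_bot']
    intro f hf
    funext x
    obtain ⟨⟨T, hT⟩, q⟩ := x
    have h1 : (ψ f).1 T q.out = 0 := by
      rw [hf]
      rfl
    have h2 : (ψ f).1 T q.out = f ⟨⟨T, hT⟩, QuotientGroup.mk q.out⟩ := by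
      change (if hT : G.IsClique (T : Set V) ∧ T.card = i then
          f ⟨⟨T, hT⟩, QuotientGroup.mk q.out⟩ else 0) = _
      rw [dif_pos hT]
    rw [h2, QuotientGroup.out_eq'] at h1
    exact h1
  have hle2 : Fintype.card (Ix G p i) ≤ finrank (ZMod 2) ↥(Ch univ ∅ G p (i : ℤ)) := by
    have h1 := LinearMap.finrank_le_finrank_of_injective hψ
    rwa [Module.finrank_fintype_fun_eq_card] at h1
  exact hle1.trans hle2

/-! ### ranks -/

omit [Fintype V] in
private theorem sg_int (T : Finset V) (s : V) : ∃ a : ℤ, sg T s = a ∧ ((a : ℤ) : ZMod 2) = 1 := by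
  refine ⟨(-1) ^ (T.filter (· < s)).card, ?_, ?_⟩
  · unfold sg
    push_cast
    rfl
  · rw [Int.cast_pow, Int.cast_neg, Int.cast_one]
    rw [show (-1 : ZMod 2) = 1 by decide, one_pow]

private theorem rank_le [Finite P] {G : SimpleGraph V} {p : V → P} {c : V → P → ZMod 2}
    (hc : ∀ v w, ∀ g, c v (g * p w) = c v g + if w = v then 1 else 0) (i : ℕ) :
    finrank (ZMod 2) ↥((Ch univ ∅ G p (i : ℤ)).map (bd V P)) ≤ finrank ℝ ↥((RC G p i).map (rb V P)) := by
  classical
  have := Fintype.ofFinite P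
  set r := finrank (ZMod 2) ↥((Ch univ ∅ G p (i : ℤ)).map (bd V P)) with hr
  let B := finBasis (ZMod 2) ↥((Ch univ ∅ G p (i : ℤ)).map (bd V P))
  have hB : ∀ k, ∃ h ∈ Ch univ ∅ G p (i : ℤ), bd V P h = (B k : Finset V → P → ZMod 2) :=
    fun k => (B k).2
  choose h hh1 hh2 using hB
  have hli : LinearIndependent (ZMod 2) fun k => bd V P (h k) := by
    have h1 := B.linearIndependent.map' (Submodule.subtype _) (Submodule.ker_subtype _)
    have h2 : (Submodule.subtype ((Ch univ ∅ G p (i : ℤ)).map (bd V P))) ∘ B = fun k => bd V P (h k) := by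
      funext k
      exact (hh2 k).symm
    rwa [h2] at h1
  -- integer lifts
  choose z hz1 hz2 using fun (T : Finset V) (s : V) => sg_int T s
  let L : Fin r → Finset V → P → ℤ := fun k T g => ep c T g * ((h k T g).val : ℤ)
  have hLz : ∀ k T g, ((L k T g : ℤ) : ZMod 2) = h k T g := by
    intro k T g
    change ((ep c T g * ((h k T g).val : ℤ) : ℤ) : ZMod 2) = h k T g
    rw [Int.cast_mul, ep_z, one_mul, Int.cast_natCast, ZMod.natCast_zmod_val]
  have hLmem : ∀ k, (fun T g => ((L k T g : ℤ) : ℝ)) ∈ RC G p i := by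
    intro k
    obtain ⟨h1, h2⟩ := hh1 k
    refine mem_RC.mpr ⟨fun T hT => ?_, fun T s hs g => ?_⟩
    · have h3 : h k T = 0 := h1 T (by
        rintro ⟨_, h4, h5⟩
        exact hT ⟨h4, by exact_mod_cast h5⟩)
      funext g
      change (((ep c T g * ((h k T g).val : ℤ) : ℤ)) : ℝ) = 0
      rw [h3]
      simp
    · have h3 := h2 T s (by rw [union_empty]; exact hs) g
      change (((ep c T (g * p s) * ((h k T (g * p s)).val : ℤ) : ℤ)) : ℝ) =
        -(((ep c T g * ((h k T g).val : ℤ) : ℤ)) : ℝ)
      rw [h3, ep_alt hc T hs]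
      push_cast
      ring
  let v : Fin r → Finset V × P → ℤ := fun k x => ∑ s ∈ x.1ᶜ, z x.1 s * L k (insert s x.1) x.2
  have hv1 : ∀ k x, ((v k x : ℤ) : ZMod 2) = bd V P (h k) x.1 x.2 := by
    intro k x
    change ((∑ s ∈ x.1ᶜ, z x.1 s * L k (insert s x.1) x.2 : ℤ) : ZMod 2) =
      ∑ s ∈ x.1ᶜ, h k (insert s x.1) x.2
    rw [Int.cast_sum]
    refine sum_congr rfl fun s _ => ?_
    rw [Int.cast_mul, hz2, one_mul, hLz]
  have hv2 : ∀ k x, ((v k x : ℤ) : ℝ) = rb V P (fun T g => ((L k T g : ℤ) : ℝ)) x.1 x.2 := by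
    intro k x
    rw [rb_apply]
    change ((∑ s ∈ x.1ᶜ, z x.1 s * L k (insert s x.1) x.2 : ℤ) : ℝ) = _
    rw [Int.cast_sum]
    refine sum_congr rfl fun s _ => ?_
    rw [Int.cast_mul, hz1]
  have hmod : LinearIndependent (ZMod 2) fun k => fun x => ((v k x : ℤ) : ZMod 2) := by
    have h1 := hli.map' (LinearEquiv.curry (ZMod 2) (ZMod 2) (Finset V) P).symm.toLinearMap
      (LinearEquiv.ker _)
    have h2 : (⇑(LinearEquiv.curry (ZMod 2) (ZMod 2) (Finset V) P).symm.toLinearMap ∘
        fun k => bd V P (h k)) = fun k => fun x => ((v k x : ℤ) : ZMod 2) := by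
      funext k x
      rw [hv1]
      rfl
    rwa [h2] at h1
  have hreal := linearIndependent_real_of_mod_two v hmod
  have hreal2 : LinearIndependent ℝ fun k => rb V P (fun T g => ((L k T g : ℤ) : ℝ)) := by
    have h1 := hreal.map' (LinearEquiv.curry ℝ ℝ (Finset V) P).toLinearMap (LinearEquiv.ker _)
    have h2 : (⇑(LinearEquiv.curry ℝ ℝ (Finset V) P).toLinearMap ∘
        fun k => fun x => ((v k x : ℤ) : ℝ)) = fun k => rb V P (fun T g => ((L k T g : ℤ) : ℝ)) := by
      funext k T g
      exact hv2 k (T, g)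
    rwa [h2] at h1
  have hreal3 : LinearIndependent ℝ fun k : Fin r =>
      (⟨rb V P (fun T g => ((L k T g : ℤ) : ℝ)), Submodule.mem_map_of_mem (hLmem k)⟩ :
        ↥((RC G p i).map (rb V P))) := by
    refine LinearIndependent.of_comp (Submodule.subtype _) ?_
    exact hreal2
  have h9 := hreal3.fintype_card_le_finrank
  rwa [Fintype.card_fin] at h9

/-! ### harmonic chains -/

private theorem harm_orth [Finite P] {G : SimpleGraph V} {p : V → P} {i : ℕ} {f h : Finset V → P → ℝ}
    (hf : Harm G p i f) (hh : h ∈ RC G p (i + 1)) (hfh : f = rb V P h) : f = 0 := by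
  classical
  have := Fintype.ofFinite P
  obtain ⟨h1, h2⟩ := mem_RC.mp hh
  -- the pairing
  have hswap : ∀ F : Finset V → V → ℝ, ∑ T : Finset V, ∑ s ∈ Tᶜ, F T s =
      ∑ T : Finset V, ∑ s ∈ T, F (T.erase s) s := by
    intro F
    rw [sum_sigma', sum_sigma']
    refine sum_bij' (fun x _ => ⟨insert x.2 x.1, x.2⟩) (fun x _ => ⟨x.1.erase x.2, x.2⟩) ?_ ?_ ?_ ?_ ?_
    · rintro ⟨T, s⟩ _
      exact mem_sigma.mpr ⟨mem_univ _, mem_insert_self _ _⟩
    · rintro ⟨T, s⟩ _
      exact mem_sigma.mpr ⟨mem_univ _, mem_compl.mpr (notMem_erase _ _)⟩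
    · rintro ⟨T, s⟩ hx
      have hs := mem_compl.mp (mem_sigma.mp hx).2
      simp only [erase_insert hs]
    · rintro ⟨T, s⟩ hx
      have hs := (mem_sigma.mp hx).2
      simp only [insert_erase hs]
    · rintro ⟨T, s⟩ hx
      have hs := mem_compl.mp (mem_sigma.mp hx).2
      simp only [erase_insert hs]
  have hhalf : ∀ (T : Finset V), ∀ s ∈ T, ∑ g, f (T.erase s) g * h T g =
      1 / 2 * ∑ g, (f (T.erase s) g - f (T.erase s) (g * p s)) * h T g := by
    intro T s hs
    have e1 : ∑ g, f (T.erase s) g * h T g = ∑ g, f (T.erase s) (g * p s) * h T (g * p s) :=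
      (Equiv.sum_comp (Equiv.mulRight (p s)) (fun g => f (T.erase s) g * h T g)).symm
    have e2 : ∑ g, f (T.erase s) (g * p s) * h T (g * p s) =
        - ∑ g, f (T.erase s) (g * p s) * h T g := by
      rw [← sum_neg_distrib]
      refine sum_congr rfl fun g _ => ?_
      rw [h2 T s hs]
      ring
    have e3 : ∑ g, (f (T.erase s) g - f (T.erase s) (g * p s)) * h T g =
        ∑ g, f (T.erase s) g * h T g - ∑ g, f (T.erase s) (g * p s) * h T g := by
      rw [← sum_sub_distrib]
      exact sum_congr rfl fun g _ => by ring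
    rw [e3]
    linarith
  have hpair : ∑ T : Finset V, ∑ g, f T g * rb V P h T g = 0 := by
    have e1 : ∀ T : Finset V, ∑ g, f T g * rb V P h T g =
        ∑ s ∈ Tᶜ, sg T s * ∑ g, f T g * h (insert s T) g := by
      intro T
      simp_rw [rb_apply, mul_sum]
      rw [sum_comm]
      refine sum_congr rfl fun s _ => sum_congr rfl fun g _ => ?_
      ring
    rw [sum_congr rfl fun T _ => e1 T, hswap (fun T s => sg T s * ∑ g, f T g * h (insert s T) g)]
    refine sum_eq_zero fun T _ => ?_
    have e2 : ∀ s ∈ T, sg (T.erase s) s * ∑ g, f (T.erase s) g * h (insert s (T.erase s)) g =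
        1 / 2 * ∑ g, (sg (T.erase s) s * (f (T.erase s) g - f (T.erase s) (g * p s))) * h T g := by
      intro s hs
      rw [insert_erase hs, hhalf T s hs, mul_left_comm]
      congr 1
      rw [mul_sum]
      refine sum_congr rfl fun g _ => ?_
      ring
    rw [sum_congr rfl e2, ← mul_sum, sum_comm]
    have e3 : ∀ g : P, ∑ s ∈ T, sg (T.erase s) s * (f (T.erase s) g - f (T.erase s) (g * p s)) * h T g =
        cobd p f T g * h T g := by
      intro g
      unfold cobd
      rw [sum_mul]
    rw [sum_congr rfl fun g _ => e3 g]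
    by_cases hT : G.IsClique (T : Set V)
    · rw [sum_eq_zero, mul_zero]
      intro g _
      rw [hf.cobd0 T hT, zero_mul]
    · rw [sum_eq_zero, mul_zero]
      intro g _
      rw [h1 T (fun h => hT h.1), Pi.zero_apply, mul_zero]
  rw [← hfh] at hpair
  have hnn : ∀ T ∈ (univ : Finset (Finset V)), 0 ≤ ∑ g, f T g * f T g :=
    fun T _ => sum_nonneg fun g _ => mul_self_nonneg _
  have h3 := (sum_eq_zero_iff_of_nonneg hnn).mp hpair
  funext T g
  have h4 := (sum_eq_zero_iff_of_nonneg (fun g (_ : g ∈ (univ : Finset P)) =>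
    mul_self_nonneg (f T g))).mp (h3 T (mem_univ _)) g (mem_univ _)
  exact mul_self_eq_zero.mp h4

private theorem harm_mem {G : SimpleGraph V} {p : V → P} {i : ℕ} {f : Finset V → P → ℝ}
    (hf : Harm G p i f) : f ∈ RC G p i ⊓ LinearMap.ker (rb V P) := by
  refine ⟨mem_RC.mpr ⟨fun T hT => ?_, hf.alt⟩, ?_⟩
  · funext g
    exact hf.supp T hT g
  · change rb V P f = 0
    funext T g
    exact hf.bd0 T g

end real

theorem real_le {V : Type} [Fintype V] [LinearOrder V] (G : SimpleGraph V) {P : Type} [Group P]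
    [Finite P] (p : V → P) (hp : IsDat univ G p) (i : ℕ) :
    finrank ℝ ↥(HarmS G p i) ≤ bt univ ∅ G p (i : ℤ) := by
  have := Fintype.ofFinite P
  obtain ⟨c, hc'⟩ := hp.co
  have hc : ∀ v w, ∀ g, c v (g * p w) = c v g + if w = v then 1 else 0 :=
    fun v w g => hc' v (mem_univ _) w (mem_univ _) g
  have h1 := dimC_le (G := G) hc i
  have h2 := rank_le (G := G) hc i
  have h3 := rank_le (G := G) hc (i + 1)
  have h4 := rn (RC G p i) (rb V P)
  have h5 := rn (Ch univ ∅ G p (i : ℤ)) (bd V P)
  have h6 : finrank ℝ ↥(HarmS G p i) + finrank ℝ ↥((RC G p (i + 1)).map (rb V P)) ≤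
      finrank ℝ ↥(RC G p i ⊓ LinearMap.ker (rb V P)) := by
    have h7 := Submodule.finrank_sup_add_finrank_inf_eq (HarmS G p i) ((RC G p (i + 1)).map (rb V P))
    have h8 : HarmS G p i ⊓ (RC G p (i + 1)).map (rb V P) = ⊥ := by
      rw [eq_bot_iff]
      rintro f ⟨hf1, h, hh, hf2⟩
      exact (Submodule.mem_bot ℝ).mpr (harm_orth (show Harm G p i f from hf1) hh hf2.symm)
    rw [h8, finrank_bot, add_zero] at h7
    rw [← h7]
    refine Submodule.finrank_mono (sup_le ?_ ?_)
    · intro f hf
      exact harm_mem hf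
    · rintro _ ⟨h, hh, rfl⟩
      exact ⟨rb_mem hh, rb_rb h⟩
  unfold bt
  have e : ((i + 1 : ℕ) : ℤ) = (i : ℤ) + 1 := by push_cast; rfl
  rw [e] at h3
  omega

end SNG
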