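import Pool.Agent.SNG.RedImage

/-!
# Project SNG (architect helper40), module RedTrunc: `Trunc n S G → Red n S G`

R0 is `Red.image` and `Red.congr` (module RedImage; relabelling, independence of `G` outside `S`).

R1 `Red.susp'`: induction on `m`.  Constructor `Red.susp`.  Links in `S' = insert a (insert b A)`:
`lk S' G a = A = lk S' G b`; for `v ∈ A`: `lk S' G v = insert a (insert b (lk A G v))`, and
`m = m' + 1`, `Red m' (lk A G v) G` (`Red.lk_mem`), so R1 for `m'` applies.

R2 `Red.sub`: strong induction on `n`, for all `S, G, G', s, t, w`.  `S` is not empty so `n = n' + 1`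
(and `n' ≥ 1` since `t ∈ lk S G s`).  Let `S' = insert w S`.  Use the constructor `Red.cont` for the
edge `s w` of `S'` (`w` is the vertex contracted into `s`):
* `G'.Adj s w`: yes (`h.2 s`).
* `NoSq S' G' s w`: let `G'.Adj s x`, `G'.Adj w y`, `¬ G'.Adj w x`, `¬ G'.Adj s y`, `x ≠ w`, `y ≠ s`
  and suppose `G'.Adj x y`.  `y ∈ S` and by `h.2`: `y = s`, or `y = t`, or `y ∈ ck S G s t`; the last
  case gives `G.Adj s y`, `y ≠ t`, hence `G'.Adj s y`, a contradiction.  So `y = t`.  `x ∈ S`,
  `x ≠ t`, `G.Adj s x`, and `G'.Adj x t` gives `G.Adj x t`; then `G'.Adj w x` by `h.2`: contradiction.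
* The contraction: `S'.erase w = S` and `contract G' s w` agrees with `G` on `S`: for `x = s`, `y = t`
  (or conversely) because `G'.Adj w t`; for `x = s`, `y ≠ t`: `G'.Adj s y ∨ G'.Adj w y ↔ G.Adj s y`;
  for `x, y ≠ s`: `G'.Adj x y ↔ G.Adj x y`.  So `Red n S (contract G' s w)` by R0.
* Links.  Let `v ∈ S'`.
  - `v = w`: `lk S' G' w = insert s (insert t (ck S G s t))`, `s, t` not adjacent in `G'`, both adjacent
    in `G'` to all vertices of `ck`, `G'` agrees with `G` on `ck`.  `ck = lk (lk S G s) G t`, so
    `Red n'' ck G` with `n' = n'' + 1` (`Red.lk_mem` twice), by R0 and R1 `Red n' (lk S' G' w) G'`.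
  - `v = s`: `lk S' G' s = insert w ((lk S G s).erase t)`.  Relabel `t ↦ w` (`φ x = if x = t then w
    else x`, injective on `lk S G s`): for `x ∈ lk S G s`, `x ≠ t`: `G'.Adj w x ↔ G.Adj t x`.  R0.
  - `v = t`: the same with `s` and `t` exchanged.
  - `v ∈ S`, `v ≠ s, t`, `v` adjacent (in `G`) to `s` and `t`: `lk S' G' v = insert w (lk S G v)` and
    `IsSub (lk S G v) G G' s t w`; R2 for `n'`.
  - `v ∈ S`, `v ≠ s, t`, not adjacent to both: `lk S' G' v = lk S G v` and `G'` agrees with `G` on it.
    R0.
`trunc_red`: induction on `Trunc`.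
-/

namespace SNG

open Finset

variable {V : Type} [DecidableEq V]

theorem Red.susp' {m : ℕ} {A : Finset V} {G : SimpleGraph V} (h : Red m A G) {a b : V} (ha : a ∉ A)
    (hb : b ∉ A) (hab : a ≠ b) (hn : ¬ G.Adj a b) (hx : ∀ x ∈ A, G.Adj a x ∧ G.Adj b x) :
    Red (m + 1) (insert a (insert b A)) G := by
  induction m using Nat.strong_induction_on generalizing A with
  | _ m ih =>
    refine Red.susp ?_ a b (mem_insert_self _ _) (mem_insert_of_mem (mem_insert_self _ _)) hab hn ?_
    · intro v hv
      rcases mem_insert.1 hv with rfl | hv2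
      · have e : lk (insert v (insert b A)) G v = A := by
          ext x
          rw [mem_lk, mem_insert, mem_insert]
          constructor
          · rintro ⟨rfl | rfl | h1, h2⟩
            · exact absurd h2 (G.loopless.irrefl _)
            · exact absurd h2 hn
            · exact h1
          · intro h1
            exact ⟨Or.inr (Or.inr h1), (hx x h1).1⟩
        rw [e]
        exact h
      · rcases mem_insert.1 hv2 with rfl | hv3
        · have e : lk (insert a (insert v A)) G v = A := by
            ext x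
            rw [mem_lk, mem_insert, mem_insert]
            constructor
            · rintro ⟨rfl | rfl | h1, h2⟩
              · exact absurd h2.symm hn
              · exact absurd h2 (G.loopless.irrefl _)
              · exact h1
            · intro h1
              exact ⟨Or.inr (Or.inr h1), (hx x h1).2⟩
          rw [e]
          exact h
        · have e : lk (insert a (insert b A)) G v = insert a (insert b (lk A G v)) := by
            ext x
            rw [mem_lk, mem_insert, mem_insert, mem_insert, mem_insert, mem_lk]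
            constructor
            · rintro ⟨rfl | rfl | h1, h2⟩
              · exact Or.inl rfl
              · exact Or.inr (Or.inl rfl)
              · exact Or.inr (Or.inr ⟨h1, h2⟩)
            · rintro (rfl | rfl | ⟨h1, h2⟩)
              · exact ⟨Or.inl rfl, (hx v hv3).1.symm⟩
              · exact ⟨Or.inr (Or.inl rfl), (hx v hv3).2.symm⟩
              · exact ⟨Or.inr (Or.inr h1), h2⟩
          obtain ⟨m', rfl, h1⟩ := h.lk_mem hv3
          rw [e]
          exact ih m' (Nat.lt_succ_self m') h1 (fun h2 => ha (mem_lk.1 h2).1)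
            (fun h2 => hb (mem_lk.1 h2).1) fun x h2 => hx x (mem_lk.1 h2).1
    · intro x h1 h2 h3
      rcases mem_insert.1 h1 with h4 | h4
      · exact absurd h4 h2
      · rcases mem_insert.1 h4 with h5 | h5
        · exact absurd h5 h3
        · exact hx x h5

omit [DecidableEq V] in
private theorem isSub_symm {S : Finset V} {G G' : SimpleGraph V} {s t w : V}
    (h : IsSub S G G' s t w) : IsSub S G G' t s w := by
  refine ⟨fun x hx y hy => ?_, fun x hx => ?_⟩
  · rw [h.1 x hx y hy]
    exact ⟨fun h1 => ⟨h1.1, h1.2.2, h1.2.1⟩, fun h1 => ⟨h1.1, h1.2.2, h1.2.1⟩⟩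
  · rw [h.2 x hx]
    constructor
    · rintro (h1 | h1 | h1)
      · exact Or.inr (Or.inl h1)
      · exact Or.inl h1
      · exact Or.inr (Or.inr ⟨h1.2, h1.1⟩)
    · rintro (h1 | h1 | h1)
      · exact Or.inr (Or.inl h1)
      · exact Or.inl h1
      · exact Or.inr (Or.inr ⟨h1.2, h1.1⟩)

/-- The link of `s` in the subdivision. -/
private theorem red_link {n : ℕ} {S : Finset V} {G G' : SimpleGraph V} {s t w : V}
    (h : Red n (lk S G s) G) (hs : s ∈ S) (ht : t ∈ S) (hst : G.Adj s t) (hw : w ∉ S)
    (hsub : IsSub S G G' s t w) : Red n (lk (insert w S) G' s) G' := by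
  have htl : t ∈ lk S G s := mem_lk.2 ⟨ht, hst⟩
  have hws : G'.Adj w s := (hsub.2 s hs).2 (Or.inl rfl)
  have e : lk (insert w S) G' s = (lk S G s).image fun x => if x = t then w else x := by
    ext x
    rw [mem_lk, mem_insert, mem_image]
    constructor
    · rintro ⟨rfl | h1, h2⟩
      · exact ⟨t, htl, if_pos rfl⟩
      · have h3 := (hsub.1 s hs x h1).1 h2
        have hxt : x ≠ t := fun h4 => h3.2.1 ⟨rfl, h4⟩
        exact ⟨x, mem_lk.2 ⟨h1, h3.1⟩, if_neg hxt⟩
    · rintro ⟨y, hy, rfl⟩
      split_ifs with hyt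
      · exact ⟨Or.inl rfl, hws.symm⟩
      · obtain ⟨h1, h2⟩ := mem_lk.1 hy
        refine ⟨Or.inr h1, (hsub.1 s hs y h1).2 ⟨h2, fun h3 => hyt h3.2, fun h3 => ?_⟩⟩
        exact hst.ne h3.1
  rw [e]
  refine h.image _ ?_ G' ?_
  · intro x hx y hy hxy
    have hx1 := (mem_lk.1 (mem_coe.1 hx)).1
    have hy1 := (mem_lk.1 (mem_coe.1 hy)).1
    change (if x = t then w else x) = if y = t then w else y at hxy
    split_ifs at hxy with h1 h2 h2
    · rw [h1, h2]
    · exact absurd (hxy ▸ hy1) hw
    · exact absurd (hxy ▸ hx1) hw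
    · exact hxy
  · have key : ∀ y ∈ lk S G s, y ≠ t → (G'.Adj w y ↔ G.Adj t y) := by
      intro y hy hyt
      obtain ⟨h1, h2⟩ := mem_lk.1 hy
      rw [hsub.2 y h1]
      constructor
      · rintro (h3 | h3 | h3)
        · exact absurd h3.symm h2.ne
        · exact absurd h3 hyt
        · exact h3.2
      · intro h3
        exact Or.inr (Or.inr ⟨h2, h3⟩)
    intro x hx y hy
    split_ifs with h1 h2 h2
    · subst h1
      subst h2
      exact ⟨fun h3 => absurd h3 (G'.loopless.irrefl _), fun h3 => absurd h3 (G.loopless.irrefl _)⟩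
    · subst h1
      exact key y hy h2
    · subst h2
      rw [G'.adj_comm, G.adj_comm x]
      exact key x hx h1
    · rw [hsub.1 x (mem_lk.1 hx).1 y (mem_lk.1 hy).1]
      exact ⟨fun h3 => h3.1, fun h3 => ⟨h3, fun h4 => h2 h4.2, fun h4 => h1 h4.1⟩⟩

theorem Red.sub {n : ℕ} {S : Finset V} {G G' : SimpleGraph V} (h : Red n S G) {s t w : V}
    (hs : s ∈ S) (ht : t ∈ S) (hst : G.Adj s t) (hw : w ∉ S) (hsub : IsSub S G G' s t w) :
    Red n (insert w S) G' := by
  induction n using Nat.strong_induction_on generalizing S s t w G G' with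
  | _ n ih =>
    obtain ⟨n', rfl, hls⟩ := h.lk_mem hs
    have hne : s ≠ t := hst.ne
    have hws : w ≠ s := fun h1 => hw (h1 ▸ hs)
    have hwt : w ≠ t := fun h1 => hw (h1 ▸ ht)
    have hGws : G'.Adj w s := (hsub.2 s hs).2 (Or.inl rfl)
    have hGwt : G'.Adj w t := (hsub.2 t ht).2 (Or.inr (Or.inl rfl))
    refine Red.cont ?_ s w (mem_insert_of_mem hs) (mem_insert_self _ _) hGws.symm ?_ ?_
    · intro v hv
      by_cases hvw : v = w
      · subst hvw
        have e : lk (insert v S) G' v = insert s (insert t (ck S G s t)) := by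
          ext x
          rw [mem_lk, mem_insert, mem_insert, mem_insert, mem_ck]
          constructor
          · rintro ⟨rfl | h1, h2⟩
            · exact absurd h2 (G'.loopless.irrefl _)
            · rcases (hsub.2 x h1).1 h2 with h3 | h3 | h3
              · exact Or.inl h3
              · exact Or.inr (Or.inl h3)
              · exact Or.inr (Or.inr ⟨h1, h3⟩)
          · rintro (rfl | rfl | ⟨h1, h2⟩)
            · exact ⟨Or.inr hs, hGws⟩
            · exact ⟨Or.inr ht, hGwt⟩
            · exact ⟨Or.inr h1, (hsub.2 x h1).2 (Or.inr (Or.inr h2))⟩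
        obtain ⟨n'', rfl, hl2⟩ := hls.lk_mem (mem_lk.2 ⟨ht, hst⟩)
        have e2 : lk (lk S G s) G t = ck S G s t := by
          ext x
          rw [mem_lk, mem_lk, mem_ck, and_assoc]
        rw [e2] at hl2
        have hck : ∀ x ∈ ck S G s t, x ∈ S ∧ x ≠ s ∧ x ≠ t ∧ G.Adj s x ∧ G.Adj t x := by
          intro x hx
          obtain ⟨h1, h2, h3⟩ := mem_ck.1 hx
          exact ⟨h1, h2.ne.symm, h3.ne.symm, h2, h3⟩
        have h3 : Red n'' (ck S G s t) G' := by
          refine hl2.congr G' fun x hx y hy => ?_
          obtain ⟨hx1, hx2, hx3, -, -⟩ := hck x hx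
          obtain ⟨hy1, hy2, hy3, -, -⟩ := hck y hy
          rw [hsub.1 x hx1 y hy1]
          exact ⟨fun h4 => h4.1, fun h4 => ⟨h4, fun h5 => hx2 h5.1, fun h5 => hx3 h5.1⟩⟩
        rw [e]
        refine h3.susp' (fun h4 => (hck s h4).2.1 rfl) (fun h4 => (hck t h4).2.2.1 rfl) hne ?_ ?_
        · intro h4
          exact ((hsub.1 s hs t ht).1 h4).2.1 ⟨rfl, rfl⟩
        · intro x hx
          obtain ⟨hx1, hx2, hx3, hx4, hx5⟩ := hck x hx
          exact ⟨(hsub.1 s hs x hx1).2 ⟨hx4, fun h5 => hx3 h5.2, fun h5 => hx2 h5.2⟩,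
            (hsub.1 t ht x hx1).2 ⟨hx5, fun h5 => hx3 h5.2, fun h5 => hx2 h5.2⟩⟩
      · have hvS : v ∈ S := (mem_insert.1 hv).resolve_left hvw
        obtain ⟨m, hm, hlv⟩ := h.lk_mem hvS
        obtain rfl : m = n' := by omega
        by_cases hvs : v = s
        · subst hvs
          exact red_link hlv hs ht hst hw hsub
        · by_cases hvt : v = t
          · subst hvt
            exact red_link hlv ht hs hst.symm hw (isSub_symm hsub)
          · have hvx : ∀ x ∈ S, (G'.Adj v x ↔ G.Adj v x) := by
              intro x hx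
              rw [hsub.1 v hvS x hx]
              exact ⟨fun h1 => h1.1, fun h1 => ⟨h1, fun h2 => hvs h2.1, fun h2 => hvt h2.1⟩⟩
            by_cases hb : G.Adj s v ∧ G.Adj t v
            · have e : lk (insert w S) G' v = insert w (lk S G v) := by
                ext x
                rw [mem_lk, mem_insert, mem_insert, mem_lk]
                constructor
                · rintro ⟨rfl | h1, h2⟩
                  · exact Or.inl rfl
                  · exact Or.inr ⟨h1, (hvx x h1).1 h2⟩
                · rintro (rfl | ⟨h1, h2⟩)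
                  · exact ⟨Or.inl rfl, ((hsub.2 v hvS).2 (Or.inr (Or.inr hb))).symm⟩
                  · exact ⟨Or.inr h1, (hvx x h1).2 h2⟩
              rw [e]
              refine ih m (Nat.lt_succ_self m) hlv (mem_lk.2 ⟨hs, hb.1.symm⟩)
                (mem_lk.2 ⟨ht, hb.2.symm⟩) hst (fun h1 => hw (mem_lk.1 h1).1)
                ⟨fun x hx y hy => hsub.1 x (mem_lk.1 hx).1 y (mem_lk.1 hy).1,
                  fun x hx => hsub.2 x (mem_lk.1 hx).1⟩
            · have e : lk (insert w S) G' v = lk S G v := by
                ext x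
                rw [mem_lk, mem_insert, mem_lk]
                constructor
                · rintro ⟨rfl | h1, h2⟩
                  · rcases (hsub.2 v hvS).1 h2.symm with h3 | h3 | h3
                    · exact absurd h3 hvs
                    · exact absurd h3 hvt
                    · exact absurd h3 hb
                  · exact ⟨h1, (hvx x h1).1 h2⟩
                · rintro ⟨h1, h2⟩
                  exact ⟨Or.inr h1, (hvx x h1).2 h2⟩
              rw [e]
              refine hlv.congr G' fun x hx y hy => ?_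
              obtain ⟨hx1, hx2⟩ := mem_lk.1 hx
              obtain ⟨hy1, hy2⟩ := mem_lk.1 hy
              rw [hsub.1 x hx1 y hy1]
              refine ⟨fun h1 => h1.1, fun h1 => ⟨h1, ?_, ?_⟩⟩
              · rintro ⟨rfl, rfl⟩
                exact hb ⟨hx2.symm, hy2.symm⟩
              · rintro ⟨rfl, rfl⟩
                exact hb ⟨hy2.symm, hx2.symm⟩
    · intro x hx y hy hsx hwy hwx hsy hxw hys hxy
      have hxS : x ∈ S := (mem_insert.1 hx).resolve_left hxw
      have hyS : y ∈ S := (mem_insert.1 hy).resolve_left hwy.ne.symm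
      have hyt : y = t := by
        by_contra hyt
        rcases (hsub.2 y hyS).1 hwy with h1 | h1 | h1
        · exact hys h1
        · exact hyt h1
        · exact hsy ((hsub.1 s hs y hyS).2 ⟨h1.1, fun h2 => hyt h2.2, fun h2 => hys h2.2⟩)
      subst hyt
      have h1 := ((hsub.1 s hs x hxS).1 hsx).1
      have h2 := ((hsub.1 x hxS y hyS).1 hxy).1
      exact hwx ((hsub.2 x hxS).2 (Or.inr (Or.inr ⟨h1, h2.symm⟩)))
    · rw [erase_insert hw]
      refine h.congr _ fun x hx y hy => ?_
      constructor
      · rintro ⟨h1, h2 | ⟨rfl, h2⟩ | ⟨rfl, h2⟩⟩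
        · exact ((hsub.1 x hx y hy).1 h2).1
        · rcases (hsub.2 y hy).1 h2 with h3 | h3 | h3
          · exact absurd h3.symm h1
          · rw [h3]
            exact hst
          · exact h3.1
        · rcases (hsub.2 x hx).1 h2 with h3 | h3 | h3
          · exact absurd h3 h1
          · rw [h3]
            exact hst.symm
          · exact h3.1.symm
      · intro h1
        refine ⟨h1.ne, ?_⟩
        by_cases h2 : x = s ∧ y = t
        · exact Or.inr (Or.inl ⟨h2.1, by rw [h2.2]; exact hGwt⟩)
        · by_cases h3 : x = t ∧ y = s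
          · exact Or.inr (Or.inr ⟨h3.2, by rw [h3.1]; exact hGwt⟩)
          · exact Or.inl ((hsub.1 x hx y hy).2 ⟨h1, h2, h3⟩)

theorem trunc_red {n : ℕ} {S : Finset V} {G : SimpleGraph V} (h : Trunc n S G) : Red n S G := by
  induction h with
  | nil G => exact Red.nil G
  | susp h0 a b ha hb hab hn h ih => exact ih.susp' ha hb hab hn h
  | sub h0 s t w hs ht hst hw h ih => exact ih.sub hs ht hst hw h

end SNG
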