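import Pool.Agent.SNG.Ind
import Pool.Agent.SNG.RedTrunc
import Pool.Agent.SNG.Nil
import Pool.Agent.SNG.Luck
import Pool.Agent.SNG.Real
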