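import Mathlib

/-!
# Project SNG (architect helper40), module Les: Betti numbers and short exact sequences

Everything is finite dimensional linear algebra over a field `k` (used with `k = ZMod 2`).
A complex is a family `A : ℤ → Submodule k M` of submodules of one finite dimensional space `M`
together with ONE linear map `dA : M → M` with `dA (A (j + 1)) ⊆ A j` and `dA ∘ dA = 0` on `A`.
The Betti number `be A dA j` is `dim (A j ∩ ker dA) - dim dA (A (j + 1))` (natural subtraction).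

## Proof of `les_a`  (`b_j(C) ≤ b_j(A) + b_j(Q)`), write `0 = j`, `1 = j + 1`
`Z_C = C0 ∩ ker dC`, `B_C = dC (C1)`, and so on.
* `dim Z_C = dim (Z_C ∩ ker π) + dim π(Z_C)` (rank nullity for `π` restricted to `Z_C`),
  `dim B_C = dim (B_C ∩ ker π) + dim π(B_C)`.
* `Z_C ∩ ker π = ι (Z_A)`: if `z ∈ Z_C`, `π z = 0` then `z = ι a` with `a ∈ A0` (exact) and
  `ι (dA a) = dC (ι a) = 0`.  To get `dA a = 0` from `ι (dA a) = 0` use `inj` at the index `j - 1`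
  (`A j = A (j - 1 + 1)`, so `dA a ∈ A (j - 1)`).  Hence `dim (Z_C ∩ ker π) ≤ dim Z_A`
  (`finrank` of an image is at most the `finrank`).
* `B_C ∩ ker π ⊇ ι (B_A)` and `ι` is injective on `A0 ⊇ B_A`, hence `dim (B_C ∩ ker π) ≥ dim B_A`.
* `π (Z_C) ⊆ Z_Q`, `π (B_C) ⊇ B_Q` (`q = π c`, `dQ q = π (dC c)`).
Then `Z_C + B_A + B_Q ≤ B_C + Z_A + Z_Q` (dimensions) and `omega`.

## Proof of `les_b`  (`b_j(A) ≤ b_j(C) + b_{j+1}(Q)`), write `0 = j`, `1 = j + 1`, `2 = j + 2`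
* `K = {a ∈ Z_A : ι a ∈ B_C}` (`B_C = dC (C1)`).  The map `ι` maps `Z_A` to `Z_C` and induces an
  injection `Z_A / K → Z_C / B_C`.  In dimensions: `dim (ι Z_A + B_C) ≤ dim Z_C` and
  `dim (ι Z_A + B_C) = dim ι Z_A + dim B_C - dim (ι Z_A ∩ B_C)`, `ι Z_A ∩ B_C = ι K`, `ι` injective
  on `A0`.  So `dim Z_A + dim B_C ≤ dim Z_C + dim K`.
* `Z' = {c ∈ C1 : π (dC c) = 0}`.  `dC (Z') ⊇ ι K` (if `a ∈ K`, `ι a = dC c` with `c ∈ C1` and
  `π (dC c) = π (ι a) = 0`), so `dim K + dim (C1 ∩ ker dC) ≤ dim Z'` (rank nullity of `dC` on `Z'`;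
  `Z' ∩ ker dC = C1 ∩ ker dC`).
* `π (Z') ⊆ Z1(Q) = Q1 ∩ ker dQ` and `Z' ∩ ker π ⊆ ι (A1)`, so
  `dim Z' ≤ dim Z1(Q) + dim A1`.
* `dim A1 = dim (A1 ∩ ker dA) + dim B_A`  (rank nullity of `dA` on `A1`).
* rank nullity of `π` on `Z1(C) = C1 ∩ ker dC`: `dim Z1(C) ≥ dim (A1 ∩ ker dA) + dim B1(Q)`, where
  `B1(Q) = dQ (Q2)`: `Z1(C) ∩ ker π ⊇ ι (A1 ∩ ker dA)` (ι injective on A1) and
  `π (Z1(C)) ⊇ π (dC C2) = dQ Q2`.
Adding up: `Z_A + B_C ≤ Z_C + K`, `K + Z1C ≤ Z'`, `Z' ≤ Z1Q + A1`, `A1 = Z1A + B_A`,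
`Z1A + B1Q ≤ Z1C` give `Z_A + B_C + B1Q ≤ Z_C + B_A + Z1Q`; `omega`.
-/

namespace SNG

open Module

variable {k : Type} [Field k] {MA MC MQ : Type} [AddCommGroup MA] [AddCommGroup MC]
  [AddCommGroup MQ] [Module k MA] [Module k MC] [Module k MQ]

/-- The Betti number of the complex `A` with differential `d` in degree `j`. -/
noncomputable def be (A : ℤ → Submodule k MA) (d : MA →ₗ[k] MA) (j : ℤ) : ℕ :=
  finrank k ↥(A j ⊓ LinearMap.ker d) - finrank k ↥((A (j + 1)).map d)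

/-- A short exact sequence of complexes. -/
structure Ses (A : ℤ → Submodule k MA) (C : ℤ → Submodule k MC) (Q : ℤ → Submodule k MQ)
    (dA : MA →ₗ[k] MA) (dC : MC →ₗ[k] MC) (dQ : MQ →ₗ[k] MQ) (ι : MA →ₗ[k] MC) (π : MC →ₗ[k] MQ) :
    Prop where
  dA_mem : ∀ j, ∀ a ∈ A (j + 1), dA a ∈ A j
  dC_mem : ∀ j, ∀ a ∈ C (j + 1), dC a ∈ C j
  dQ_mem : ∀ j, ∀ a ∈ Q (j + 1), dQ a ∈ Q j
  dA2 : ∀ a, dA (dA a) = 0
  dC2 : ∀ a, dC (dC a) = 0
  dQ2 : ∀ a, dQ (dQ a) = 0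
  ι_mem : ∀ j, ∀ a ∈ A j, ι a ∈ C j
  π_mem : ∀ j, ∀ c ∈ C j, π c ∈ Q j
  ι_d : ∀ j, ∀ a ∈ A j, dC (ι a) = ι (dA a)
  π_d : ∀ j, ∀ c ∈ C j, dQ (π c) = π (dC c)
  inj : ∀ j, ∀ a ∈ A j, ι a = 0 → a = 0
  π_ι : ∀ j, ∀ a ∈ A j, π (ι a) = 0
  exact : ∀ j, ∀ c ∈ C j, π c = 0 → ∃ a ∈ A j, ι a = c
  surj : ∀ j, ∀ q ∈ Q j, ∃ c ∈ C j, π c = q

/-- rank nullity on a submodule. -/
theorem les_rn [FiniteDimensional k MC] (f : MC →ₗ[k] MQ) (S : Submodule k MC) :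
    finrank k ↥(S.map f) + finrank k ↥(S ⊓ LinearMap.ker f) = finrank k ↥S := by
  have h := LinearMap.finrank_range_add_finrank_ker (f.domRestrict S)
  rw [LinearMap.range_domRestrict] at h
  have h2 : LinearMap.ker (f.domRestrict S) = Submodule.comap S.subtype (S ⊓ LinearMap.ker f) := by
    ext x
    simp
  have h3 : finrank k ↥(LinearMap.ker (f.domRestrict S)) = finrank k ↥(S ⊓ LinearMap.ker f) := by
    rw [h2]
    exact LinearEquiv.finrank_eq (Submodule.comapSubtypeEquivOfLe inf_le_left)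
  rw [h3] at h
  exact h

/-- The dimension is preserved by maps which are injective on the submodule. -/
theorem les_inj [FiniteDimensional k MC] (f : MC →ₗ[k] MQ) (S : Submodule k MC)
    (h : ∀ x ∈ S, f x = 0 → x = 0) : finrank k ↥(S.map f) = finrank k ↥S := by
  have h1 := les_rn f S
  have h2 : S ⊓ LinearMap.ker f = ⊥ := by
    rw [Submodule.eq_bot_iff]
    rintro a ⟨ha1, ha2⟩
    exact h a ha1 ha2
  rw [h2, finrank_bot, add_zero] at h1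
  exact h1

section

variable [FiniteDimensional k MA] [FiniteDimensional k MC] [FiniteDimensional k MQ]
  {A : ℤ → Submodule k MA} {C : ℤ → Submodule k MC} {Q : ℤ → Submodule k MQ}
  {dA : MA →ₗ[k] MA} {dC : MC →ₗ[k] MC} {dQ : MQ →ₗ[k] MQ} {ι : MA →ₗ[k] MC} {π : MC →ₗ[k] MQ}

/-- Exactness of the long homology sequence at the homology of `C`. -/
theorem les_a (h : Ses A C Q dA dC dQ ι π) (j : ℤ) : be C dC j ≤ be A dA j + be Q dQ j := by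
  have hj : ∀ a ∈ A j, dA a ∈ A (j - 1) := by
    intro a ha
    refine h.dA_mem (j - 1) a ?_
    rw [sub_add_cancel]
    exact ha
  have h1 := les_rn π (C j ⊓ LinearMap.ker dC)
  have h1a : finrank k ↥((C j ⊓ LinearMap.ker dC) ⊓ LinearMap.ker π) ≤
      finrank k ↥(A j ⊓ LinearMap.ker dA) := by
    refine le_trans (Submodule.finrank_mono ?_) (Submodule.finrank_map_le ι _)
    rintro c ⟨⟨hc1, hc2⟩, hc3⟩
    obtain ⟨a, ha, hac⟩ := h.exact j c hc1 hc3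
    refine ⟨a, ⟨ha, ?_⟩, hac⟩
    refine h.inj (j - 1) (dA a) (hj a ha) ?_
    rw [← h.ι_d j a ha, hac]
    exact hc2
  have h1b : finrank k ↥((C j ⊓ LinearMap.ker dC).map π) ≤ finrank k ↥(Q j ⊓ LinearMap.ker dQ) := by
    refine Submodule.finrank_mono ?_
    rintro _ ⟨c, ⟨hc1, hc2⟩, rfl⟩
    refine ⟨h.π_mem j c hc1, ?_⟩
    show dQ (π c) = 0
    rw [h.π_d j c hc1]
    have h2 : dC c = 0 := hc2
    rw [h2, map_zero]
  have h2 := les_rn π ((C (j + 1)).map dC)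
  have h2a : finrank k ↥((A (j + 1)).map dA) ≤
      finrank k ↥(((C (j + 1)).map dC) ⊓ LinearMap.ker π) := by
    rw [← les_inj ι ((A (j + 1)).map dA)]
    · refine Submodule.finrank_mono ?_
      rintro _ ⟨_, ⟨a, ha, rfl⟩, rfl⟩
      refine ⟨⟨ι a, h.ι_mem _ a ha, h.ι_d _ a ha⟩, ?_⟩
      exact h.π_ι j _ (h.dA_mem j a ha)
    · rintro _ ⟨a, ha, rfl⟩ h3
      exact h.inj j _ (h.dA_mem j a ha) h3
  have h2b : finrank k ↥((Q (j + 1)).map dQ) ≤ finrank k ↥(((C (j + 1)).map dC).map π) := by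
    refine Submodule.finrank_mono ?_
    rintro _ ⟨q, hq, rfl⟩
    obtain ⟨c, hc, rfl⟩ := h.surj (j + 1) q hq
    exact ⟨dC c, ⟨c, hc, rfl⟩, (h.π_d _ c hc).symm⟩
  unfold be
  omega

/-- Exactness of the long homology sequence at the homology of `A`. -/
theorem les_b (h : Ses A C Q dA dC dQ ι π) (j : ℤ) : be A dA j ≤ be C dC j + be Q dQ (j + 1) := by
  -- `K`, as a submodule of `MA`
  have h1 : finrank k ↥(A j ⊓ LinearMap.ker dA) + finrank k ↥((C (j + 1)).map dC) ≤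
      finrank k ↥(C j ⊓ LinearMap.ker dC) +
        finrank k ↥((A j ⊓ LinearMap.ker dA) ⊓ ((C (j + 1)).map dC).comap ι) := by
    have e1 := Submodule.finrank_sup_add_finrank_inf_eq ((A j ⊓ LinearMap.ker dA).map ι)
      ((C (j + 1)).map dC)
    have e2 : finrank k ↥((A j ⊓ LinearMap.ker dA).map ι) = finrank k ↥(A j ⊓ LinearMap.ker dA) :=
      les_inj ι _ fun x hx h0 => h.inj j x hx.1 h0
    have e3 : finrank k ↥((A j ⊓ LinearMap.ker dA).map ι ⊔ (C (j + 1)).map dC) ≤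
        finrank k ↥(C j ⊓ LinearMap.ker dC) := by
      refine Submodule.finrank_mono (sup_le ?_ ?_)
      · rintro _ ⟨a, ⟨ha1, ha2⟩, rfl⟩
        refine ⟨h.ι_mem j a ha1, ?_⟩
        show dC (ι a) = 0
        have h3 : dA a = 0 := ha2
        rw [h.ι_d j a ha1, h3, map_zero]
      · rintro _ ⟨c, hc, rfl⟩
        exact ⟨h.dC_mem j c hc, h.dC2 c⟩
    have e4 : finrank k ↥((A j ⊓ LinearMap.ker dA).map ι ⊓ (C (j + 1)).map dC) ≤
        finrank k ↥((A j ⊓ LinearMap.ker dA) ⊓ ((C (j + 1)).map dC).comap ι) := by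
      refine le_trans (Submodule.finrank_mono ?_) (Submodule.finrank_map_le ι _)
      rintro _ ⟨⟨a, ha, rfl⟩, ha2⟩
      exact ⟨a, ⟨ha, ha2⟩, rfl⟩
    omega
  have h2 := les_rn dC (C (j + 1) ⊓ LinearMap.ker (π.comp dC))
  have h2a : finrank k ↥((A j ⊓ LinearMap.ker dA) ⊓ ((C (j + 1)).map dC).comap ι) ≤
      finrank k ↥((C (j + 1) ⊓ LinearMap.ker (π.comp dC)).map dC) := by
    rw [← les_inj ι ((A j ⊓ LinearMap.ker dA) ⊓ ((C (j + 1)).map dC).comap ι)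
      (fun x hx h0 => h.inj j x hx.1.1 h0)]
    refine Submodule.finrank_mono ?_
    rintro _ ⟨a, ⟨⟨ha1, _⟩, ⟨c, hc, hca⟩⟩, rfl⟩
    refine ⟨c, ⟨hc, ?_⟩, hca⟩
    show π (dC c) = 0
    rw [hca]
    exact h.π_ι j a ha1
  have h2b : finrank k ↥(C (j + 1) ⊓ LinearMap.ker dC) ≤
      finrank k ↥((C (j + 1) ⊓ LinearMap.ker (π.comp dC)) ⊓ LinearMap.ker dC) := by
    refine Submodule.finrank_mono ?_
    rintro c ⟨hc1, hc2⟩
    refine ⟨⟨hc1, ?_⟩, hc2⟩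
    show π (dC c) = 0
    have h3 : dC c = 0 := hc2
    rw [h3, map_zero]
  have h3 := les_rn π (C (j + 1) ⊓ LinearMap.ker (π.comp dC))
  have h3a : finrank k ↥((C (j + 1) ⊓ LinearMap.ker (π.comp dC)).map π) ≤
      finrank k ↥(Q (j + 1) ⊓ LinearMap.ker dQ) := by
    refine Submodule.finrank_mono ?_
    rintro _ ⟨c, ⟨hc1, hc2⟩, rfl⟩
    refine ⟨h.π_mem _ c hc1, ?_⟩
    show dQ (π c) = 0
    rw [h.π_d _ c hc1]
    exact hc2
  have h3b : finrank k ↥((C (j + 1) ⊓ LinearMap.ker (π.comp dC)) ⊓ LinearMap.ker π) ≤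
      finrank k ↥(A (j + 1)) := by
    refine le_trans (Submodule.finrank_mono ?_) (Submodule.finrank_map_le ι _)
    rintro c ⟨⟨hc1, _⟩, hc3⟩
    obtain ⟨a, ha, hac⟩ := h.exact (j + 1) c hc1 hc3
    exact ⟨a, ha, hac⟩
  have h4 := les_rn dA (A (j + 1))
  have h5 := les_rn π (C (j + 1) ⊓ LinearMap.ker dC)
  have h5a : finrank k ↥(A (j + 1) ⊓ LinearMap.ker dA) ≤
      finrank k ↥((C (j + 1) ⊓ LinearMap.ker dC) ⊓ LinearMap.ker π) := by
    rw [← les_inj ι (A (j + 1) ⊓ LinearMap.ker dA) (fun x hx h0 => h.inj (j + 1) x hx.1 h0)]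
    refine Submodule.finrank_mono ?_
    rintro _ ⟨a, ⟨ha1, ha2⟩, rfl⟩
    refine ⟨⟨h.ι_mem _ a ha1, ?_⟩, h.π_ι _ a ha1⟩
    show dC (ι a) = 0
    have h3 : dA a = 0 := ha2
    rw [h.ι_d _ a ha1, h3, map_zero]
  have h5b : finrank k ↥((Q (j + 1 + 1)).map dQ) ≤
      finrank k ↥((C (j + 1) ⊓ LinearMap.ker dC).map π) := by
    refine Submodule.finrank_mono ?_
    rintro _ ⟨q, hq, rfl⟩
    obtain ⟨c, hc, rfl⟩ := h.surj (j + 1 + 1) q hq
    exact ⟨dC c, ⟨h.dC_mem _ c hc, h.dC2 c⟩, (h.π_d _ c hc).symm⟩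
  unfold be
  omega

end

section

variable [FiniteDimensional k MA] [FiniteDimensional k MC]
  {A : ℤ → Submodule k MA} {C : ℤ → Submodule k MC} {dA : MA →ₗ[k] MA} {dC : MC →ₗ[k] MC}

/-- The homology of a retract.  Proof: `ι (Z_A) + B_C ⊆ Z_C` and `r (ι Z_A ∩ B_C) ⊆ B_A`
(`ι a = dC c` gives `a = r (dC c) = dA (r c)`), `ι` is injective on `A j`, so
`dim Z_A + dim B_C ≤ dim Z_C + dim B_A`. -/
theorem be_retract {j : ℤ} (hd : ∀ c ∈ C (j + 1), dC c ∈ C j)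
    (hd2 : ∀ c ∈ C (j + 1), dC (dC c) = 0)
    (ι : MA →ₗ[k] MC) (r : MC →ₗ[k] MA) (hι : ∀ a ∈ A j, ι a ∈ C j)
    (hιd : ∀ a ∈ A j, dA a = 0 → dC (ι a) = 0) (hr : ∀ c ∈ C (j + 1), r c ∈ A (j + 1))
    (hrd : ∀ c ∈ C (j + 1), r (dC c) = dA (r c)) (hrι : ∀ a ∈ A j, r (ι a) = a) :
    be A dA j ≤ be C dC j := by
  have e1 := Submodule.finrank_sup_add_finrank_inf_eq ((A j ⊓ LinearMap.ker dA).map ι)
    ((C (j + 1)).map dC)
  have e2 : finrank k ↥((A j ⊓ LinearMap.ker dA).map ι) = finrank k ↥(A j ⊓ LinearMap.ker dA) := by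
    refine les_inj ι _ fun x hx h0 => ?_
    rw [← hrι x hx.1, h0, map_zero]
  have e3 : finrank k ↥((A j ⊓ LinearMap.ker dA).map ι ⊔ (C (j + 1)).map dC) ≤
      finrank k ↥(C j ⊓ LinearMap.ker dC) := by
    refine Submodule.finrank_mono (sup_le ?_ ?_)
    · rintro _ ⟨a, ⟨ha1, ha2⟩, rfl⟩
      exact ⟨hι a ha1, hιd a ha1 ha2⟩
    · rintro _ ⟨c, hc, rfl⟩
      exact ⟨hd c hc, hd2 c hc⟩
  have e4 : finrank k ↥((A j ⊓ LinearMap.ker dA).map ι ⊓ (C (j + 1)).map dC) ≤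
      finrank k ↥((A (j + 1)).map dA) := by
    rw [← les_inj r ((A j ⊓ LinearMap.ker dA).map ι ⊓ (C (j + 1)).map dC)]
    · refine Submodule.finrank_mono ?_
      rintro _ ⟨_, ⟨⟨a, ⟨ha1, ha2⟩, rfl⟩, ⟨c, hc, hca⟩⟩, rfl⟩
      refine ⟨r c, hr c hc, ?_⟩
      rw [← hrd c hc, hca]
    · rintro _ ⟨⟨a, ⟨ha1, ha2⟩, rfl⟩, _⟩ h0
      rw [hrι a ha1] at h0
      rw [h0, map_zero]
  unfold be
  omega

end

/-- Shift of the degree. -/
theorem be_shift (A : ℤ → Submodule k MA) (d : MA →ₗ[k] MA) (a j : ℤ) :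
    be (fun i => A (i - a)) d j = be A d (j - a) := by
  have e : A (j + 1 - a) = A (j - a + 1) := by
    rw [show j + 1 - a = j - a + 1 by ring]
  have h : ∀ X Y : Submodule k MA, X = Y → finrank k ↥(X.map d) = finrank k ↥(Y.map d) := by
    rintro X Y rfl
    rfl
  exact congrArg (fun x => finrank k ↥(A (j - a) ⊓ LinearMap.ker d) - x) (h _ _ e)

end SNG
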