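import Pool.Agent.SNG.Defs
import Pool.Agent.SNG.Les

/-!
# Project SNG (architect helper40), module Basic: first properties of the complexes `Ch`

`bd_bd`: `(bd (bd f)) T g = ∑_{s ∉ T} ∑_{t ∉ insert s T} f (insert t (insert s T)) g`; the terms for
`(s, t)` and `(t, s)` agree, so the sum is `0` in characteristic 2 (e.g. `Finset.sum_involution` on
the set of pairs, or `Finset.sum_comm` type argument with `CharTwo.add_self_eq_zero`).

`bd_mem`: if `(bd f) T ≠ 0` there is `s ∉ T` with `f (insert s T) ≠ 0`, so `insert s T ⊆ S` is a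
clique with `j + 1` elements, hence `T ⊆ S` is a clique with `j` elements.  Invariance: for
`r ∈ T ∪ R` and `s ∉ T`, `r ∈ insert s T ∪ R`.

`Ch_congr`: the conditions in the definition of `Ch` only use `G` on `S` and `p` on `S ∪ R` (for `T`
not contained in `S` both say `f T = 0`).
-/

namespace SNG

open Finset

variable {V : Type} [Fintype V] [DecidableEq V] {P : Type} [Group P]

theorem bd_bd (f : Finset V → P → ZMod 2) : bd V P (bd V P f) = 0 := by
  funext T g
  change ∑ s ∈ Tᶜ, ∑ t ∈ (insert s T)ᶜ, f (insert t (insert s T)) g = 0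
  rw [Finset.sum_sigma']
  refine Finset.sum_involution (fun x _ => ⟨x.2, x.1⟩) ?_ ?_ ?_ ?_
  · rintro ⟨s, t⟩ _
    change f (insert t (insert s T)) g + f (insert s (insert t T)) g = 0
    rw [Finset.insert_comm]
    exact CharTwo.add_self_eq_zero _
  · rintro ⟨s, t⟩ h _ h2
    rw [Finset.mem_sigma, Finset.mem_compl, Finset.mem_compl, Finset.mem_insert, not_or] at h
    exact h.2.1 (congrArg Sigma.fst h2)
  · rintro ⟨s, t⟩ h
    rw [Finset.mem_sigma, Finset.mem_compl, Finset.mem_compl, Finset.mem_insert, not_or] at h ⊢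
    exact ⟨h.2.2, fun h2 => h.2.1 h2.symm, h.1⟩
  · rintro ⟨s, t⟩ _
    rfl

theorem bd_mem {S R : Finset V} {G : SimpleGraph V} {p : V → P} {j : ℤ} {f : Finset V → P → ZMod 2}
    (hf : f ∈ Ch S R G p (j + 1)) : bd V P f ∈ Ch S R G p j := by
  obtain ⟨h1, h2⟩ := hf
  refine ⟨fun T hT => ?_, fun T r hr g => ?_⟩
  · funext g
    change ∑ s ∈ Tᶜ, f (insert s T) g = 0
    refine Finset.sum_eq_zero fun s hs => ?_
    rw [Finset.mem_compl] at hs
    rw [h1 (insert s T)]
    · rfl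
    · rintro ⟨h3, h4, h5⟩
      refine hT ⟨(Finset.subset_insert s T).trans h3, h4.subset (by simp), ?_⟩
      rw [Finset.card_insert_of_notMem hs] at h5
      push_cast at h5
      linarith
  · change ∑ s ∈ Tᶜ, f (insert s T) (g * p r) = ∑ s ∈ Tᶜ, f (insert s T) g
    refine Finset.sum_congr rfl fun s _ => h2 (insert s T) r ?_ g
    rw [Finset.mem_union] at hr ⊢
    exact hr.imp (fun h => Finset.mem_insert_of_mem h) id

omit [Fintype V] in
private theorem ch_le99 {S R : Finset V} {G G' : SimpleGraph V} {p p' : V → P}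
    (hG : ∀ x ∈ S, ∀ y ∈ S, (G.Adj x y ↔ G'.Adj x y)) (hp : ∀ x ∈ S ∪ R, p x = p' x) (j : ℤ)
    {f : Finset V → P → ZMod 2} (hf : f ∈ Ch S R G p j) : f ∈ Ch S R G' p' j := by
  obtain ⟨h1, h2⟩ := hf
  refine ⟨fun T hT => h1 T ?_, fun T r hr g => ?_⟩
  · rintro ⟨h3, h4, h5⟩
    refine hT ⟨h3, fun x hx y hy hxy => ?_, h5⟩
    exact (hG x (h3 (Finset.mem_coe.1 hx)) y (h3 (Finset.mem_coe.1 hy))).1 (h4 hx hy hxy)
  · by_cases hS : T ⊆ S
    · rw [← hp r (Finset.union_subset_union_left hS hr)]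
      exact h2 T r hr g
    · rw [h1 T (fun h => hS h.1)]
      rfl

theorem Ch_congr {S R : Finset V} {G G' : SimpleGraph V} {p p' : V → P}
    (hG : ∀ x ∈ S, ∀ y ∈ S, (G.Adj x y ↔ G'.Adj x y)) (hp : ∀ x ∈ S ∪ R, p x = p' x) (j : ℤ) :
    Ch S R G p j = Ch S R G' p' j := by
  ext f
  exact ⟨fun h => ch_le99 hG hp j h,
    fun h => ch_le99 (fun x hx y hy => (hG x hx y hy).symm) (fun x hx => (hp x hx).symm) j h⟩

theorem bt_congr {S R : Finset V} {G G' : SimpleGraph V} {p p' : V → P}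
    (hG : ∀ x ∈ S, ∀ y ∈ S, (G.Adj x y ↔ G'.Adj x y)) (hp : ∀ x ∈ S ∪ R, p x = p' x) (j : ℤ) :
    bt S R G p j = bt S R G' p' j := by
  unfold bt
  rw [Ch_congr hG hp j, Ch_congr hG hp (j + 1)]

theorem bt_eq_be (S R : Finset V) (G : SimpleGraph V) (p : V → P) (j : ℤ) :
    bt S R G p j = be (fun i => Ch S R G p i) (bd V P) j := rfl

theorem bt_eq_be_shift (S R : Finset V) (G : SimpleGraph V) (p : V → P) (a j : ℤ) :
    bt S R G p (j - a) = be (fun i => Ch S R G p (i - a)) (bd V P) j :=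
  (be_shift (fun i => Ch S R G p i) (bd V P) a j).symm

end SNG
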