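import Pool.Agent.SNG.Edge

/-!
# Project SNG (architect helper40), module Cont: the contraction inequality

Let `s, t ∈ S` be adjacent, the edge `st` in no induced 4-cycle, and `p t = p s`.  There is a short
exact sequence (`Ses`)
`0 → Ch ck {s} G (j - 1) → Ch S ∅ (cut G s t) j → Ch (S.erase t) ∅ (contract G s t) j → 0`
with
`ι q T = if s ∈ T ∧ t ∉ T then q (T.erase s) else if t ∈ T ∧ s ∉ T then q (T.erase t) else 0`,
`θ f T = if t ∈ T then 0 else if s ∈ T then f T + f (insert t (T.erase s)) else f T`.
(Below: cliques of `cut G s t` are the cliques of `G` not containing both `s` and `t`,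
`isClique_cut`; so chains `f` of the middle complex vanish on `T ∋ s, t`.)

* `ι` commutes with `bd` (on `Ch ck {s}`): evaluate at `T`.
  - `s, t ∉ T`: `(bd (ι q)) T = q T + q T = 0` (terms `x = s`, `x = t`; the other terms
    `insert x T` contain neither `s` nor `t`); `ι (bd q) T = 0`.
  - `s ∈ T`, `t ∉ T`: `∑_{x ∉ T, x ≠ t} q (insert x (T.erase s))` (`x = t` gives a set containing
    both); on the other side the additional terms are `x = s`: `q T`, `x = t`:
    `q (insert t (T.erase s))`, both `0` since `s, t ∉ ck`.   `t ∈ T`, `s ∉ T`: the same.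
  - `s, t ∈ T`: both `0`.
* `θ` commutes with `bd` (on the middle complex): evaluate at `T`.
  - `t ∈ T`: both `0`.
  - `t ∉ T`, `s ∈ T`: `θ (bd f) T = ∑_{x ∉ T} f (insert x T) +
    ∑_{x ∉ insert t (T.erase s)} f (insert x (insert t (T.erase s)))`.  The term `x = t` of the first
    sum and the term `x = s` of the second vanish (both sets contain `s, t`).  The rest is
    `∑_{x ∉ T, x ≠ t} (f (insert x T) + f (insert t ((insert x T).erase s))) = bd (θ f) T` (the term
    `x = t` of `bd (θ f) T` is `0`).
  - `s, t ∉ T`: `θ (bd f) T = ∑_{x ∉ T} f (insert x T)`; in `bd (θ f) T` the term `x = t` is `0`, the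
    term `x = s` is `f (insert s T) + f (insert t T)`, the others agree.
* `ι q` is in the middle complex: if `ι q T ≠ 0`, say `s ∈ T`, `t ∉ T`, then `T.erase s ⊆ ck` is a
  clique with `j - 1` elements, so `T ⊆ S` is a clique of `G` with `j` elements.  Invariance under
  `p x`, `x ∈ T.erase s`: clear, under `p s`: `s ∈ {s}`, for the other case `p t = p s`.
* `θ f ∈ Ch (S.erase t) ∅ (contract G s t) j`: if `θ f T ≠ 0` then `t ∉ T` and `T` is a clique of `G`
  or `s ∈ T` and `insert t (T.erase s)` is a clique of `G`: in both cases `T` is a clique of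
  `contract G s t`, contained in `S.erase t` (`s ∈ S`), with `j` elements.  Invariance: `p t = p s`.
* `ι` is injective: `q T = ι q (insert s T)` if `s, t ∉ T`, otherwise `q T = 0`.
* `θ ∘ ι = 0`: `q (T.erase s) + q (T.erase s) = 0`.
* exact: let `θ f = 0`.  Put `q T = if s ∈ T ∨ t ∈ T then 0 else f (insert s T)`.  `θ f = 0` at
  `insert s T` says `f (insert s T) = f (insert t T)` (`s, t ∉ T`).  If `q T ≠ 0` then `insert s T`
  and `insert t T` are cliques of `G`, so `T ⊆ ck`.  `ι q = f`: for `s ∈ T`, `t ∉ T` clear; for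
  `t ∈ T`, `s ∉ T` by `f (insert s (T.erase t)) = f (insert t (T.erase t))`; for `s, t ∉ T`
  `f T = θ f T = 0`; for `s, t ∈ T` both are `0`.
* surjective: let `q' ∈ Ch (S.erase t) ∅ (contract G s t) j`.  KEY (uses `NoSq`): if `T` is a clique
  of `contract G s t` with `t ∉ T`, `s ∈ T`, `T ⊆ S`, then `T` or `insert t (T.erase s)` is a clique
  of `G`.  (Otherwise there are `x, y ∈ T.erase s` with `x` not adjacent to `s`, hence adjacent to
  `t`, and `y` not adjacent to `t`, hence adjacent to `s`; `x ≠ y`, so `x, y` are adjacent in `G`: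
  this contradicts `hq y _ x _`.)  Put
  `f T = if t ∈ T then (if s ∈ T then 0 else if G.IsClique (insert s (T.erase t)) then 0 else
    if G.IsClique T then q' (insert s (T.erase t)) else 0) else if G.IsClique T then q' T else 0`.
  Then `f` is in the middle complex and `θ f = q'` (if `q' T ≠ 0` and `T` is not a clique of `G` then
  `s ∈ T` and `insert t (T.erase s)` is one).

`cont_le` is `les_a` with `bt_eq_be`, `bt_eq_be_shift`.
-/

namespace SNG

open Finset

variable {V : Type} [Fintype V] [DecidableEq V] {P : Type} [Group P] [Finite P]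

private theorem two_self (a : ZMod 2) : a + a = 0 := by
  revert a
  decide

private theorem two_eq {a b : ZMod 2} (h : a + b = 0) : a = b := by
  revert a b
  decide

private theorem fun_self (f : P → ZMod 2) : f + f = 0 := funext fun g => two_self (f g)

private theorem fun_eq {f f' : P → ZMod 2} (h : f + f' = 0) : f = f' :=
  funext fun g => two_eq (congrFun h g)

private theorem bd_apply (f : Finset V → P → ZMod 2) (T : Finset V) :
    bd V P f T = ∑ x ∈ Tᶜ, f (insert x T) := by
  funext g
  rw [Finset.sum_apply]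
  rfl

/-- the map `ι` -/
private def iot (P : Type) (s t : V) :
    (Finset V → P → ZMod 2) →ₗ[ZMod 2] (Finset V → P → ZMod 2) where
  toFun q := fun T => if s ∈ T ∧ t ∉ T then q (T.erase s) else
    if t ∈ T ∧ s ∉ T then q (T.erase t) else 0
  map_add' q q' := by
    funext T
    simp only [Pi.add_apply]
    split_ifs <;> simp
  map_smul' c q := by
    funext T
    simp only [Pi.smul_apply, RingHom.id_apply]
    split_ifs <;> simp

/-- the map `θ` -/
private def tht (P : Type) (s t : V) :
    (Finset V → P → ZMod 2) →ₗ[ZMod 2] (Finset V → P → ZMod 2) where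
  toFun f := fun T => if t ∈ T then 0 else
    if s ∈ T then f T + f (insert t (T.erase s)) else f T
  map_add' q q' := by
    funext T
    simp only [Pi.add_apply]
    split_ifs
    · simp
    · abel
    · rfl
  map_smul' c q := by
    funext T
    simp only [Pi.smul_apply, RingHom.id_apply]
    split_ifs
    · simp
    · rw [smul_add]
    · rfl

section maps

variable {s t : V} {T : Finset V} (q : Finset V → P → ZMod 2)

private theorem iot_left (h1 : s ∈ T) (h2 : t ∉ T) : iot P s t q T = q (T.erase s) :=
  if_pos ⟨h1, h2⟩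

private theorem iot_right (h1 : s ∉ T) (h2 : t ∈ T) : iot P s t q T = q (T.erase t) :=
  (if_neg fun h => h1 h.1).trans (if_pos ⟨h2, h1⟩)

private theorem iot_none (h1 : s ∉ T) (h2 : t ∉ T) : iot P s t q T = 0 :=
  (if_neg fun h => h1 h.1).trans (if_neg fun h => h2 h.1)

private theorem iot_both (h1 : s ∈ T) (h2 : t ∈ T) : iot P s t q T = 0 :=
  (if_neg fun h => h.2 h2).trans (if_neg fun h => h.2 h1)

private theorem tht_mem (h2 : t ∈ T) : tht P s t q T = 0 := if_pos h2

private theorem tht_left (h1 : s ∈ T) (h2 : t ∉ T) :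
    tht P s t q T = q T + q (insert t (T.erase s)) := (if_neg h2).trans (if_pos h1)

private theorem tht_none (h1 : s ∉ T) (h2 : t ∉ T) : tht P s t q T = q T :=
  (if_neg h2).trans (if_neg h1)

end maps

section chains

variable {S R : Finset V} {G : SimpleGraph V} {p : V → P} {j : ℤ} {f : Finset V → P → ZMod 2}

private theorem ch_supp (hf : f ∈ Ch S R G p j) {T : Finset V} (h : f T ≠ 0) :
    T ⊆ S ∧ G.IsClique (T : Set V) ∧ (T.card : ℤ) = j := by
  by_contra hn
  exact h (hf.1 T hn)

private theorem ch_mk (h1 : ∀ T, f T ≠ 0 → T ⊆ S ∧ G.IsClique (T : Set V) ∧ (T.card : ℤ) = j)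
    (h2 : ∀ T : Finset V, ∀ s ∈ T ∪ R, ∀ g, f T (g * p s) = f T g) : f ∈ Ch S R G p j := by
  refine ⟨fun T hT => ?_, h2⟩
  by_contra hn
  exact hT (h1 T hn)

end chains

/-! ### The first map -/

section first

variable {S : Finset V} {G : SimpleGraph V} {p : V → P} {s t : V} {j : ℤ}

private theorem q_zero {R : Finset V} {q : Finset V → P → ZMod 2}
    (hq : q ∈ Ch (ck S G s t) R G p j) {T : Finset V} (h : s ∈ T ∨ t ∈ T) : q T = 0 := by
  by_contra hn
  obtain ⟨h1, -, -⟩ := ch_supp hq hn
  rcases h with h | h
  · exact G.loopless.irrefl s (mem_ck.1 (h1 h)).2.1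
  · exact G.loopless.irrefl t (mem_ck.1 (h1 h)).2.2

private theorem clique_insert_erase {a : V} {T : Finset V} (ha : a ∈ T)
    (h1 : G.IsClique ((T.erase a : Finset V) : Set V)) (h2 : ∀ x ∈ T.erase a, G.Adj a x) :
    G.IsClique (T : Set V) := by
  rw [← Finset.insert_erase ha, Finset.coe_insert, SimpleGraph.isClique_insert]
  exact ⟨h1, fun b hb _ => h2 b hb⟩

private theorem card_erase_int {a : V} {T : Finset V} (ha : a ∈ T) :
    (T.card : ℤ) = (T.erase a).card + 1 := by
  have h := Finset.card_erase_add_one ha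
  exact_mod_cast h.symm

private theorem iot_mem (hs : s ∈ S) (ht : t ∈ S) (hst : G.Adj s t) (hp : p t = p s)
    {q : Finset V → P → ZMod 2} (hq : q ∈ Ch (ck S G s t) {s} G p (j - 1)) :
    iot P s t q ∈ Ch S ∅ (cut G s t) p j := by
  have key : ∀ (a : V) (T : Finset V), a ∈ S → a ∈ T → (∀ x ∈ ck S G s t, G.Adj a x) →
      q (T.erase a) ≠ 0 → T ⊆ S ∧ G.IsClique (T : Set V) ∧ (T.card : ℤ) = j := by
    intro a T ha haT hadj hne
    obtain ⟨h1, h2, h3⟩ := ch_supp hq hne
    refine ⟨?_, ?_, ?_⟩
    · intro x hx
      by_cases hxa : x = a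
      · rw [hxa]
        exact ha
      · exact (mem_ck.1 (h1 (Finset.mem_erase.2 ⟨hxa, hx⟩))).1
    · exact clique_insert_erase haT h2 fun x hx => hadj x (h1 hx)
    · rw [card_erase_int haT, h3]
      ring
  refine ch_mk ?_ ?_
  · intro T hT
    by_cases h1 : s ∈ T
    · by_cases h2 : t ∈ T
      · exact absurd (iot_both q h1 h2) hT
      · rw [iot_left q h1 h2] at hT
        obtain ⟨k1, k2, k3⟩ := key s T hs h1 (fun x hx => (mem_ck.1 hx).2.1) hT
        exact ⟨k1, (isClique_cut hst T).2 ⟨k2, fun h => h2 h.2⟩, k3⟩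
    · by_cases h2 : t ∈ T
      · rw [iot_right q h1 h2] at hT
        obtain ⟨k1, k2, k3⟩ := key t T ht h2 (fun x hx => (mem_ck.1 hx).2.2) hT
        exact ⟨k1, (isClique_cut hst T).2 ⟨k2, fun h => h1 h.1⟩, k3⟩
      · exact absurd (iot_none q h1 h2) hT
  · intro T x hx g
    rw [Finset.union_empty] at hx
    by_cases h1 : s ∈ T
    · by_cases h2 : t ∈ T
      · rw [iot_both q h1 h2]
        rfl
      · rw [iot_left q h1 h2]
        by_cases hxs : x = s
        · exact hq.2 _ x (Finset.mem_union_right _ (Finset.mem_singleton.2 hxs)) g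
        · exact hq.2 _ x (Finset.mem_union_left _ (Finset.mem_erase.2 ⟨hxs, hx⟩)) g
    · by_cases h2 : t ∈ T
      · rw [iot_right q h1 h2]
        by_cases hxt : x = t
        · rw [hxt, hp]
          exact hq.2 _ s (Finset.mem_union_right _ (Finset.mem_singleton_self s)) g
        · exact hq.2 _ x (Finset.mem_union_left _ (Finset.mem_erase.2 ⟨hxt, hx⟩)) g
      · rw [iot_none q h1 h2]
        rfl

private theorem iot_bd_aux {a b : V} (hab : a ≠ b) {q F : Finset V → P → ZMod 2}
    (h1 : ∀ T, a ∈ T → b ∉ T → F T = q (T.erase a)) (h2 : ∀ T, a ∈ T → b ∈ T → F T = 0)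
    (hq : ∀ T, (a ∈ T ∨ b ∈ T) → q T = 0) {T : Finset V} (ha : a ∈ T) (hb : b ∉ T) :
    ∑ x ∈ Tᶜ, F (insert x T) = ∑ x ∈ (T.erase a)ᶜ, q (insert x (T.erase a)) := by
  have e1 : ∑ x ∈ Tᶜ, F (insert x T) = ∑ x ∈ Tᶜ, q (insert x (T.erase a)) := by
    refine Finset.sum_congr rfl fun x hx => ?_
    have hx' : x ∉ T := Finset.mem_compl.1 hx
    have hxa : x ≠ a := fun h => hx' (h ▸ ha)
    by_cases hxb : x = b
    · subst hxb
      rw [h2 _ (Finset.mem_insert_of_mem ha) (Finset.mem_insert_self _ _),
        hq _ (Or.inr (Finset.mem_insert_self _ _))]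
    · rw [h1 _ (Finset.mem_insert_of_mem ha) (fun h => by
        rcases Finset.mem_insert.1 h with h | h
        · exact hxb h.symm
        · exact hb h), Finset.erase_insert_of_ne hxa]
  rw [e1]
  refine Finset.sum_subset ?_ ?_
  · exact Finset.compl_subset_compl.2 (Finset.erase_subset a T)
  · intro x hx hx'
    have hx1 : x ∈ T := by
      by_contra h
      exact hx' (Finset.mem_compl.2 h)
    have hx2 : x ∉ T.erase a := Finset.mem_compl.1 hx
    have hx3 : x = a := by
      by_contra h
      exact hx2 (Finset.mem_erase.2 ⟨h, hx1⟩)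
    rw [hx3]
    exact hq _ (Or.inl (Finset.mem_insert_self _ _))

private theorem iot_bd (hst : s ≠ t) {R : Finset V} {q : Finset V → P → ZMod 2}
    (hq : q ∈ Ch (ck S G s t) R G p j) : bd V P (iot P s t q) = iot P s t (bd V P q) := by
  funext T
  rw [bd_apply]
  by_cases h1 : s ∈ T
  · by_cases h2 : t ∈ T
    · rw [iot_both _ h1 h2]
      exact Finset.sum_eq_zero fun x _ =>
        iot_both q (Finset.mem_insert_of_mem h1) (Finset.mem_insert_of_mem h2)
    · rw [iot_left _ h1 h2, bd_apply]
      exact iot_bd_aux hst (fun T a b => iot_left q a b) (fun T a b => iot_both q a b)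
        (fun T h => q_zero hq h) h1 h2
  · by_cases h2 : t ∈ T
    · rw [iot_right _ h1 h2, bd_apply]
      exact iot_bd_aux hst.symm (fun T a b => iot_right q b a) (fun T a b => iot_both q b a)
        (fun T h => q_zero hq h.symm) h2 h1
    · rw [iot_none _ h1 h2, Finset.sum_eq_add_of_mem s t (Finset.mem_compl.2 h1)
        (Finset.mem_compl.2 h2) hst (fun x _ hx => ?_)]
      · rw [iot_left q (Finset.mem_insert_self _ _) (fun h => by
          rcases Finset.mem_insert.1 h with h | h
          · exact hst h.symm
          · exact h2 h), iot_right q (fun h => by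
          rcases Finset.mem_insert.1 h with h | h
          · exact hst h
          · exact h1 h) (Finset.mem_insert_self _ _), Finset.erase_insert h1,
          Finset.erase_insert h2, fun_self]
      · refine iot_none q (fun h => ?_) (fun h => ?_)
        · rcases Finset.mem_insert.1 h with h | h
          · exact hx.1 h.symm
          · exact h1 h
        · rcases Finset.mem_insert.1 h with h | h
          · exact hx.2 h.symm
          · exact h2 h

end first

/-! ### The second map -/

section second

variable {S : Finset V} {G : SimpleGraph V} {p : V → P} {s t : V} {j : ℤ}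

private theorem f_zero (hst : G.Adj s t) {f : Finset V → P → ZMod 2}
    (hf : f ∈ Ch S ∅ (cut G s t) p j) {T : Finset V} (h1 : s ∈ T) (h2 : t ∈ T) : f T = 0 := by
  by_contra hn
  obtain ⟨-, h, -⟩ := ch_supp hf hn
  exact ((isClique_cut hst T).1 h).2 ⟨h1, h2⟩

private theorem clique_contract {T : Finset V} (h : G.IsClique (T : Set V)) :
    (contract G s t).IsClique (T : Set V) := fun x hx y hy hxy =>
  ⟨hxy, Or.inl (h hx hy hxy)⟩

private theorem tht_mem_ch (hs : s ∈ S) (hst : G.Adj s t) (hp : p t = p s)
    {f : Finset V → P → ZMod 2} (hf : f ∈ Ch S ∅ (cut G s t) p j) :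
    tht P s t f ∈ Ch (S.erase t) ∅ (contract G s t) p j := by
  have hst' : s ≠ t := hst.ne
  have key : ∀ T : Finset V, t ∉ T → f T ≠ 0 → T ⊆ S.erase t ∧
      (contract G s t).IsClique (T : Set V) ∧ (T.card : ℤ) = j := by
    intro T h2 hT
    obtain ⟨k1, k2, k3⟩ := ch_supp hf hT
    exact ⟨Finset.subset_erase.2 ⟨k1, h2⟩, clique_contract ((isClique_cut hst T).1 k2).1, k3⟩
  refine ch_mk ?_ ?_
  · intro T hT
    by_cases h2 : t ∈ T
    · exact absurd (tht_mem f h2) hT
    · by_cases h1 : s ∈ T
      · rw [tht_left f h1 h2] at hT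
        by_cases hfT : f T = 0
        · rw [hfT, zero_add] at hT
          obtain ⟨k1, k2, k3⟩ := ch_supp hf hT
          have k2' := ((isClique_cut hst _).1 k2).1
          have hx' : ∀ x ∈ T, x ≠ s → x ∈ insert t (T.erase s) := fun x hx hxs =>
            Finset.mem_insert_of_mem (Finset.mem_erase.2 ⟨hxs, hx⟩)
          have ht' : t ∈ insert t (T.erase s) := Finset.mem_insert_self _ _
          refine ⟨?_, ?_, ?_⟩
          · intro x hx
            rw [Finset.mem_erase]
            refine ⟨fun h => h2 (h ▸ hx), ?_⟩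
            by_cases hxs : x = s
            · rw [hxs]
              exact hs
            · exact k1 (hx' x hx hxs)
          · intro x hx y hy hxy
            have hxt : x ≠ t := fun h => h2 (h ▸ hx)
            have hyt : y ≠ t := fun h => h2 (h ▸ hy)
            refine ⟨hxy, ?_⟩
            by_cases hxs : x = s
            · refine Or.inr (Or.inl ⟨hxs, ?_⟩)
              exact k2' (Finset.mem_coe.2 ht') (Finset.mem_coe.2 (hx' y hy fun h =>
                hxy (hxs.trans h.symm))) hyt.symm
            · by_cases hys : y = s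
              · refine Or.inr (Or.inr ⟨hys, ?_⟩)
                exact k2' (Finset.mem_coe.2 ht') (Finset.mem_coe.2 (hx' x hx hxs)) hxt.symm
              · exact Or.inl (k2' (Finset.mem_coe.2 (hx' x hx hxs))
                  (Finset.mem_coe.2 (hx' y hy hys)) hxy)
          · rw [← k3, Finset.card_insert_of_notMem (fun h => h2 (Finset.mem_of_mem_erase h)),
              Finset.card_erase_add_one h1]
        · exact key T h2 hfT
      · rw [tht_none f h1 h2] at hT
        exact key T h2 hT
  · intro T x hx g
    rw [Finset.union_empty] at hx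
    have hfx : ∀ T' : Finset V, x ∈ T' → f T' (g * p x) = f T' g := fun T' h =>
      hf.2 T' x (Finset.mem_union_left _ h) g
    by_cases h2 : t ∈ T
    · rw [tht_mem f h2]
      rfl
    · by_cases h1 : s ∈ T
      · rw [tht_left f h1 h2, Pi.add_apply, Pi.add_apply, hfx T hx]
        congr 1
        by_cases hxs : x = s
        · rw [hxs, ← hp]
          exact hf.2 _ t (Finset.mem_union_left _ (Finset.mem_insert_self _ _)) g
        · exact hfx _ (Finset.mem_insert_of_mem (Finset.mem_erase.2 ⟨hxs, hx⟩))
      · rw [tht_none f h1 h2]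
        exact hfx T hx

private theorem tht_bd (hst : G.Adj s t) {f : Finset V → P → ZMod 2}
    (hf : f ∈ Ch S ∅ (cut G s t) p j) : bd V P (tht P s t f) = tht P s t (bd V P f) := by
  have hst' : s ≠ t := hst.ne
  have hf0 : ∀ T : Finset V, s ∈ T → t ∈ T → f T = 0 := fun T a b => f_zero hst hf a b
  funext T
  rw [bd_apply]
  by_cases h2 : t ∈ T
  · rw [tht_mem _ h2]
    exact Finset.sum_eq_zero fun x _ => tht_mem f (Finset.mem_insert_of_mem h2)
  · by_cases h1 : s ∈ T
    · rw [tht_left _ h1 h2, bd_apply, bd_apply]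
      have e1 : ∑ x ∈ Tᶜ.erase t, tht P s t f (insert x T) = ∑ x ∈ Tᶜ, tht P s t f (insert x T) := by
        refine Finset.sum_subset (Finset.erase_subset _ _) fun x hx hx' => ?_
        have hxt : x = t := by
          by_contra h
          exact hx' (Finset.mem_erase.2 ⟨h, hx⟩)
        rw [hxt]
        exact tht_mem f (Finset.mem_insert_self _ _)
      have e2 : ∑ x ∈ Tᶜ.erase t, f (insert x T) = ∑ x ∈ Tᶜ, f (insert x T) := by
        refine Finset.sum_subset (Finset.erase_subset _ _) fun x hx hx' => ?_
        have hxt : x = t := by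
          by_contra h
          exact hx' (Finset.mem_erase.2 ⟨h, hx⟩)
        rw [hxt]
        exact hf0 _ (Finset.mem_insert_of_mem h1) (Finset.mem_insert_self _ _)
      have e3 : ∑ x ∈ Tᶜ.erase t, f (insert x (insert t (T.erase s))) =
          ∑ x ∈ (insert t (T.erase s))ᶜ, f (insert x (insert t (T.erase s))) := by
        refine Finset.sum_subset ?_ fun x hx hx' => ?_
        · intro x hx
          obtain ⟨k1, k2⟩ := Finset.mem_erase.1 hx
          rw [Finset.mem_compl] at k2 ⊢
          intro h
          rcases Finset.mem_insert.1 h with h | h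
          · exact k1 h
          · exact k2 (Finset.mem_of_mem_erase h)
        · have hx1 := Finset.mem_compl.1 hx
          have hxt : x ≠ t := fun h => hx1 (h ▸ Finset.mem_insert_self _ _)
          have hxs : x = s := by
            by_contra h
            apply hx'
            rw [Finset.mem_erase, Finset.mem_compl]
            exact ⟨hxt, fun hxT => hx1 (Finset.mem_insert_of_mem (Finset.mem_erase.2 ⟨h, hxT⟩))⟩
          rw [hxs]
          exact hf0 _ (Finset.mem_insert_self _ _)
            (Finset.mem_insert_of_mem (Finset.mem_insert_self _ _))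
      rw [← e1, ← e2, ← e3, ← Finset.sum_add_distrib]
      refine Finset.sum_congr rfl fun x hx => ?_
      obtain ⟨k1, k2⟩ := Finset.mem_erase.1 hx
      rw [Finset.mem_compl] at k2
      have hxs : x ≠ s := fun h => k2 (h ▸ h1)
      rw [tht_left f (Finset.mem_insert_of_mem h1) (fun h => by
        rcases Finset.mem_insert.1 h with h | h
        · exact k1 h.symm
        · exact h2 h), Finset.erase_insert_of_ne hxs, Finset.insert_comm]
    · rw [tht_none _ h1 h2, bd_apply]
      refine fun_eq ?_
      rw [← Finset.sum_add_distrib, Finset.sum_eq_add_of_mem s t (Finset.mem_compl.2 h1)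
        (Finset.mem_compl.2 h2) hst' (fun x _ hx => ?_)]
      · rw [tht_left f (Finset.mem_insert_self _ _) (fun h => by
          rcases Finset.mem_insert.1 h with h | h
          · exact hst' h.symm
          · exact h2 h), Finset.erase_insert h1, tht_mem f (Finset.mem_insert_self _ _), zero_add]
        have h5 : f (insert s T) + f (insert t T) + f (insert s T) + f (insert t T) =
            (f (insert s T) + f (insert s T)) + (f (insert t T) + f (insert t T)) := by abel
        rw [h5, fun_self, fun_self, zero_add]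
      · rw [tht_none f (fun h => ?_) (fun h => ?_), fun_self]
        · rcases Finset.mem_insert.1 h with h | h
          · exact hx.1 h.symm
          · exact h1 h
        · rcases Finset.mem_insert.1 h with h | h
          · exact hx.2 h.symm
          · exact h2 h

end second

/-! ### Exactness -/

section exact

variable {S : Finset V} {G : SimpleGraph V} {p : V → P} {s t : V} {j : ℤ}

private theorem iot_inj (hst : s ≠ t) {R : Finset V} {q : Finset V → P → ZMod 2}
    (hq : q ∈ Ch (ck S G s t) R G p j) (h : iot P s t q = 0) : q = 0 := by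
  funext T
  by_cases hT : s ∈ T ∨ t ∈ T
  · exact q_zero hq hT
  · rw [not_or] at hT
    have h1 := congrFun h (insert s T)
    rw [iot_left q (Finset.mem_insert_self _ _) (fun h => by
      rcases Finset.mem_insert.1 h with h | h
      · exact hst h.symm
      · exact hT.2 h), Finset.erase_insert hT.1] at h1
    exact h1

private theorem tht_iot (hst : s ≠ t) (q : Finset V → P → ZMod 2) :
    tht P s t (iot P s t q) = 0 := by
  funext T
  by_cases h2 : t ∈ T
  · exact tht_mem _ h2
  · by_cases h1 : s ∈ T
    · rw [tht_left _ h1 h2, iot_left q h1 h2, iot_right q (fun h => by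
        rcases Finset.mem_insert.1 h with h | h
        · exact hst h
        · exact (Finset.notMem_erase s T) h) (Finset.mem_insert_self _ _),
        Finset.erase_insert (fun h => h2 (Finset.mem_of_mem_erase h)), fun_self]
      rfl
    · rw [tht_none _ h1 h2, iot_none q h1 h2]
      rfl

private theorem ex_exact (hst : G.Adj s t) {f : Finset V → P → ZMod 2}
    (hf : f ∈ Ch S ∅ (cut G s t) p j) (h0 : tht P s t f = 0) :
    ∃ q ∈ Ch (ck S G s t) {s} G p (j - 1), iot P s t q = f := by
  have hst' : s ≠ t := hst.ne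
  have hf0 : ∀ T : Finset V, s ∈ T → t ∈ T → f T = 0 := fun T a b => f_zero hst hf a b
  have h1 : ∀ T : Finset V, s ∉ T → t ∉ T → f (insert s T) = f (insert t T) := by
    intro T hs ht
    have h2 := congrFun h0 (insert s T)
    rw [tht_left f (Finset.mem_insert_self _ _) (fun h => by
      rcases Finset.mem_insert.1 h with h | h
      · exact hst' h.symm
      · exact ht h), Finset.erase_insert hs] at h2
    exact fun_eq h2
  obtain ⟨q, hq⟩ : ∃ q : Finset V → P → ZMod 2, ∀ T, q T =
      if s ∈ T ∨ t ∈ T then 0 else f (insert s T) := ⟨_, fun _ => rfl⟩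
  have hq1 : ∀ T, s ∉ T → t ∉ T → q T = f (insert s T) := by
    intro T hs ht
    rw [hq, if_neg]
    rintro (h | h)
    · exact hs h
    · exact ht h
  have hq2 : ∀ T, (s ∈ T ∨ t ∈ T) → q T = 0 := by
    intro T h
    rw [hq, if_pos h]
  refine ⟨q, ch_mk ?_ ?_, ?_⟩
  · intro T hT
    have hs : s ∉ T := fun h => hT (hq2 T (Or.inl h))
    have ht : t ∉ T := fun h => hT (hq2 T (Or.inr h))
    rw [hq1 T hs ht] at hT
    obtain ⟨k1, k2, k3⟩ := ch_supp hf hT
    rw [h1 T hs ht] at hT
    obtain ⟨l1, l2, l3⟩ := ch_supp hf hT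
    have k2' := ((isClique_cut hst _).1 k2).1
    have l2' := ((isClique_cut hst _).1 l2).1
    refine ⟨?_, ?_, ?_⟩
    · intro x hx
      rw [mem_ck]
      refine ⟨k1 (Finset.mem_insert_of_mem hx), ?_, ?_⟩
      · exact k2' (Finset.mem_coe.2 (Finset.mem_insert_self _ _))
          (Finset.mem_coe.2 (Finset.mem_insert_of_mem hx)) (fun h => hs (h ▸ hx))
      · exact l2' (Finset.mem_coe.2 (Finset.mem_insert_self _ _))
          (Finset.mem_coe.2 (Finset.mem_insert_of_mem hx)) (fun h => ht (h ▸ hx))
    · exact k2'.subset (Finset.coe_subset.2 (Finset.subset_insert _ _))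
    · rw [Finset.card_insert_of_notMem hs] at k3
      push_cast at k3
      linarith
  · intro T x hx g
    by_cases h : s ∈ T ∨ t ∈ T
    · rw [hq2 T h]
      rfl
    · rw [not_or] at h
      rw [hq1 T h.1 h.2]
      refine hf.2 _ x (Finset.mem_union_left _ ?_) g
      rcases Finset.mem_union.1 hx with h' | h'
      · exact Finset.mem_insert_of_mem h'
      · rw [Finset.mem_singleton.1 h']
        exact Finset.mem_insert_self _ _
  · funext T
    by_cases hs : s ∈ T
    · by_cases ht : t ∈ T
      · rw [iot_both q hs ht, hf0 T hs ht]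
      · rw [iot_left q hs ht, hq1 _ (Finset.notMem_erase s T)
          (fun h => ht (Finset.mem_of_mem_erase h)), Finset.insert_erase hs]
    · by_cases ht : t ∈ T
      · have hs' : s ∉ T.erase t := fun h => hs (Finset.mem_of_mem_erase h)
        rw [iot_right q hs ht, hq1 _ hs' (Finset.notMem_erase t T),
          h1 _ hs' (Finset.notMem_erase t T), Finset.insert_erase ht]
      · rw [iot_none q hs ht]
        have h2 := congrFun h0 T
        rw [tht_none f hs ht] at h2
        exact h2.symm

private theorem key_clique (hq : NoSq S G s t) {T : Finset V} (hTS : T ⊆ S.erase t)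
    (hc : (contract G s t).IsClique (T : Set V)) (hsT : s ∈ T)
    (hn : ¬ G.IsClique (T : Set V)) : G.IsClique ((insert t (T.erase s) : Finset V) : Set V) := by
  have hG : ∀ x ∈ T.erase s, ∀ y ∈ T.erase s, x ≠ y → G.Adj x y := by
    intro x hx y hy hxy
    obtain ⟨hx1, hx2⟩ := Finset.mem_erase.1 hx
    obtain ⟨hy1, hy2⟩ := Finset.mem_erase.1 hy
    rcases (hc (Finset.mem_coe.2 hx2) (Finset.mem_coe.2 hy2) hxy).2 with h | h | h
    · exact h
    · exact absurd h.1 hx1
    · exact absurd h.1 hy1
  have hor : ∀ y ∈ T.erase s, G.Adj s y ∨ G.Adj t y := by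
    intro y hy
    obtain ⟨hy1, hy2⟩ := Finset.mem_erase.1 hy
    rcases (hc (Finset.mem_coe.2 hsT) (Finset.mem_coe.2 hy2) (Ne.symm hy1)).2 with h | h | h
    · exact Or.inl h
    · exact Or.inr h.2
    · exact absurd h.1 hy1
  obtain ⟨x, hx, hsx⟩ : ∃ x ∈ T.erase s, ¬ G.Adj s x := by
    by_contra hcon
    push Not at hcon
    apply hn
    refine clique_insert_erase hsT ?_ hcon
    intro x hx y hy hxy
    exact hG x (Finset.mem_coe.1 hx) y (Finset.mem_coe.1 hy) hxy
  have htx : G.Adj t x := (hor x hx).resolve_left hsx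
  have hT : ∀ y ∈ T.erase s, G.Adj t y := by
    intro y hy
    by_contra hty
    have hsy : G.Adj s y := (hor y hy).resolve_right hty
    have hyx : y ≠ x := fun h => hsx (h ▸ hsy)
    have hxS := Finset.mem_erase.1 (hTS (Finset.mem_of_mem_erase hx))
    have hyS := Finset.mem_erase.1 (hTS (Finset.mem_of_mem_erase hy))
    exact hq y hyS.2 x hxS.2 hsy htx hty hsx hyS.1 (Finset.mem_erase.1 hx).1
      (hG y hy x hx hyx)
  rw [Finset.coe_insert, SimpleGraph.isClique_insert]
  refine ⟨?_, fun b hb _ => hT b (Finset.mem_coe.1 hb)⟩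
  intro x hx y hy hxy
  exact hG x (Finset.mem_coe.1 hx) y (Finset.mem_coe.1 hy) hxy

private theorem ex_surj (hs : s ∈ S) (ht : t ∈ S) (hst : G.Adj s t) (hq : NoSq S G s t)
    (hp : p t = p s) {h : Finset V → P → ZMod 2}
    (hh : h ∈ Ch (S.erase t) ∅ (contract G s t) p j) :
    ∃ f ∈ Ch S ∅ (cut G s t) p j, tht P s t f = h := by
  classical
  have hst' : s ≠ t := hst.ne
  obtain ⟨f, hf⟩ : ∃ f : Finset V → P → ZMod 2, ∀ T, f T =
      if t ∈ T then (if s ∈ T then 0 else if G.IsClique ((insert s (T.erase t) : Finset V) : Set V)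
        then 0 else if G.IsClique (T : Set V) then h (insert s (T.erase t)) else 0)
      else if G.IsClique (T : Set V) then h T else 0 := ⟨_, fun _ => rfl⟩
  have hA : ∀ T : Finset V, t ∉ T → G.IsClique (T : Set V) → f T = h T := by
    intro T h1 h2
    rw [hf, if_neg h1, if_pos h2]
  have hB : ∀ T : Finset V, t ∉ T → ¬ G.IsClique (T : Set V) → f T = 0 := by
    intro T h1 h2
    rw [hf, if_neg h1, if_neg h2]
  have hC : ∀ T : Finset V, t ∈ T → s ∉ T → ¬ G.IsClique ((insert s (T.erase t) : Finset V) : Set V) →
      G.IsClique (T : Set V) → f T = h (insert s (T.erase t)) := by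
    intro T h1 h2 h3 h4
    rw [hf, if_pos h1, if_neg h2, if_neg h3, if_pos h4]
  have hD : ∀ T : Finset V, t ∈ T → s ∉ T → G.IsClique ((insert s (T.erase t) : Finset V) : Set V) →
      f T = 0 := by
    intro T h1 h2 h3
    rw [hf, if_pos h1, if_neg h2, if_pos h3]
  have hE : ∀ T : Finset V, t ∈ T → ¬ (s ∉ T ∧ ¬ G.IsClique ((insert s (T.erase t) : Finset V) : Set V) ∧
      G.IsClique (T : Set V)) → f T = 0 := by
    intro T h1 h2
    rw [hf, if_pos h1]
    by_cases h3 : s ∈ T
    · rw [if_pos h3]
    · rw [if_neg h3]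
      by_cases h4 : G.IsClique ((insert s (T.erase t) : Finset V) : Set V)
      · rw [if_pos h4]
      · rw [if_neg h4]
        by_cases h5 : G.IsClique (T : Set V)
        · exact absurd ⟨h3, h4, h5⟩ h2
        · rw [if_neg h5]
  refine ⟨f, ch_mk ?_ ?_, ?_⟩
  · intro T hT
    by_cases htT : t ∈ T
    · by_cases hc : s ∉ T ∧ ¬ G.IsClique ((insert s (T.erase t) : Finset V) : Set V) ∧
          G.IsClique (T : Set V)
      · rw [hC T htT hc.1 hc.2.1 hc.2.2] at hT
        obtain ⟨k1, -, k3⟩ := ch_supp hh hT
        refine ⟨?_, (isClique_cut hst T).2 ⟨hc.2.2, fun h => hc.1 h.1⟩, ?_⟩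
        · intro x hx
          by_cases hxt : x = t
          · rw [hxt]
            exact ht
          · exact Finset.mem_of_mem_erase
              (k1 (Finset.mem_insert_of_mem (Finset.mem_erase.2 ⟨hxt, hx⟩)))
        · rw [← k3, Finset.card_insert_of_notMem (fun h => hc.1 (Finset.mem_of_mem_erase h)),
            Finset.card_erase_add_one htT]
      · exact absurd (hE T htT hc) hT
    · by_cases hc : G.IsClique (T : Set V)
      · rw [hA T htT hc] at hT
        obtain ⟨k1, -, k3⟩ := ch_supp hh hT
        exact ⟨fun x hx => Finset.mem_of_mem_erase (k1 hx),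
          (isClique_cut hst T).2 ⟨hc, fun h => htT h.2⟩, k3⟩
      · exact absurd (hB T htT hc) hT
  · intro T x hx g
    rw [Finset.union_empty] at hx
    by_cases htT : t ∈ T
    · by_cases hc : s ∉ T ∧ ¬ G.IsClique ((insert s (T.erase t) : Finset V) : Set V) ∧
          G.IsClique (T : Set V)
      · rw [hC T htT hc.1 hc.2.1 hc.2.2]
        by_cases hxt : x = t
        · rw [hxt, hp]
          exact hh.2 _ s (Finset.mem_union_left _ (Finset.mem_insert_self _ _)) g
        · exact hh.2 _ x (Finset.mem_union_left _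
            (Finset.mem_insert_of_mem (Finset.mem_erase.2 ⟨hxt, hx⟩))) g
      · rw [hE T htT hc]
        rfl
    · by_cases hc : G.IsClique (T : Set V)
      · rw [hA T htT hc]
        exact hh.2 _ x (Finset.mem_union_left _ hx) g
      · rw [hB T htT hc]
        rfl
  · funext T
    by_cases htT : t ∈ T
    · rw [tht_mem f htT]
      by_contra hn
      obtain ⟨k1, -, -⟩ := ch_supp hh (Ne.symm hn)
      exact Finset.notMem_erase t S (k1 htT)
    · by_cases hsT : s ∈ T
      · rw [tht_left f hsT htT]
        have htT' : t ∉ T.erase s := fun h => htT (Finset.mem_of_mem_erase h)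
        have h1 : t ∈ insert t (T.erase s) := Finset.mem_insert_self _ _
        have h2 : s ∉ insert t (T.erase s) := fun h => by
          rcases Finset.mem_insert.1 h with h | h
          · exact hst' h
          · exact Finset.notMem_erase s T h
        have h3 : insert s ((insert t (T.erase s)).erase t) = T := by
          rw [Finset.erase_insert htT', Finset.insert_erase hsT]
        by_cases hc : G.IsClique (T : Set V)
        · rw [hA T htT hc, hD _ h1 h2 (by rw [h3]; exact hc), add_zero]
        · rw [hB T htT hc, zero_add]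
          by_cases hhT : h T = 0
          · rw [hhT]
            by_cases hc' : G.IsClique ((insert t (T.erase s) : Finset V) : Set V)
            · rw [hC _ h1 h2 (by rw [h3]; exact hc) hc', h3, hhT]
            · exact hE _ h1 fun h => hc' h.2.2
          · obtain ⟨k1, k2, -⟩ := ch_supp hh hhT
            rw [hC _ h1 h2 (by rw [h3]; exact hc) (key_clique hq k1 k2 hsT hc), h3]
      · rw [tht_none f hsT htT]
        by_cases hhT : h T = 0
        · by_cases hc : G.IsClique (T : Set V)
          · exact hA T htT hc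
          · rw [hB T htT hc, hhT]
        · obtain ⟨-, k2, -⟩ := ch_supp hh hhT
          refine hA T htT ?_
          intro x hx y hy hxy
          rcases (k2 hx hy hxy).2 with h' | h' | h'
          · exact h'
          · exact absurd (h'.1 ▸ Finset.mem_coe.1 hx) hsT
          · exact absurd (h'.1 ▸ Finset.mem_coe.1 hy) hsT

end exact

theorem cont_le {S : Finset V} {G : SimpleGraph V} {p : V → P} {s t : V} (hs : s ∈ S) (ht : t ∈ S)
    (hst : G.Adj s t) (hq : NoSq S G s t) (hp : p t = p s) (j : ℤ) :
    bt S ∅ (cut G s t) p j ≤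
      bt (S.erase t) ∅ (contract G s t) p j + bt (ck S G s t) {s} G p (j - 1) := by
  have hses : Ses (fun i => Ch (ck S G s t) {s} G p (i - 1)) (fun i => Ch S ∅ (cut G s t) p i)
      (fun i => Ch (S.erase t) ∅ (contract G s t) p i) (bd V P) (bd V P) (bd V P)
      (iot P s t) (tht P s t) :=
    { dA_mem := fun j a ha => by
        have e : j + 1 - 1 = j - 1 + 1 := by ring
        have ha' : a ∈ Ch (ck S G s t) {s} G p (j - 1 + 1) := by
          rw [← e]
          exact ha
        exact bd_mem ha'
      dC_mem := fun j a ha => bd_mem ha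
      dQ_mem := fun j a ha => bd_mem ha
      dA2 := bd_bd
      dC2 := bd_bd
      dQ2 := bd_bd
      ι_mem := fun j a ha => iot_mem hs ht hst hp ha
      π_mem := fun j a ha => tht_mem_ch hs hst hp ha
      ι_d := fun j a ha => iot_bd hst.ne ha
      π_d := fun j c hc => tht_bd hst hc
      inj := fun j a ha h => iot_inj hst.ne ha h
      π_ι := fun j a _ => tht_iot hst.ne a
      exact := fun j c hc h => ex_exact hst hc h
      surj := fun j q hq' => ex_surj hs ht hst hq hp hq' }
  have h1 := les_a hses j
  rw [bt_eq_be, bt_eq_be, bt_eq_be_shift, add_comm]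
  exact h1

end SNG
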