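import Pool.Agent.SNG.Basic

/-!
# Project SNG (architect helper40), module Cover: double covers

`π : P → P'` is surjective with kernel `{1, z}`, `z ≠ 1`.  Then `z * z = 1` (`z * z` is in the kernel
and `z * z = z` would give `z = 1`) and `z` is central (`g z g⁻¹` is in the kernel and not `1`).  The
fibres of `π` are the pairs `{g, g z}`.

Short exact sequence (`Ses`) `0 → Ch S ∅ (π ∘ p) j → Ch S ∅ p j → Ch S ∅ (π ∘ p) j → 0` with
`(ι f) T g = f T (π g)` (pull back) and `(θ f) T y = ∑_{g, π g = y} f T g = f T (σ y) + f T (σ y z)`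
(push forward; `σ` a section of `π`, e.g. `Function.surjInv`).
* both commute with `bd`; both preserve the conditions (for `θ`: `g ↦ g p_s` is a bijection from the
  fibre of `y` to the fibre of `y π(p_s)`, and `f T (g p_s) = f T g`).
* `ι` is injective (`π` surjective), `θ ∘ ι = 0` (characteristic 2).
* exact: `θ f = 0` means `f T g = f T (g z)`, so `f T g` only depends on `π g`: `f = ι (f T ∘ σ)`.
* surjective: let `q ∈ Ch S ∅ (π ∘ p) j` and fix a clique `T ⊆ S` with `j` elements (`f T = 0` for
  the other `T`).  Let `c` be the coordinate functions for `T` from `hloc`, `c_s' = c_s ∘ π`.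
  Start with `f₀ g = if g = σ (π g) then q T (π g) else 0`: push forward of `f₀` is `q T`.
  For `s ∈ T` let `(E_s f) g = c_s(π g) f g + (c_s(π g) + 1) f (g p_s)`.  Then, as in module Inv,
  `E_s f` is invariant under `p_s` (uses `p_s² = 1`), if `f` is invariant under `p_t` (`t ∈ T`,
  `t ≠ s`) so is `E_s f` (`c_s` is invariant under `π p_t` and `p_s, p_t` commute), and the push
  forward of `E_s f` is `c_s(y) (push f)(y) + (c_s(y) + 1) (push f)(y π p_s)`, which is `q T` if
  `push f = q T`.  Apply the operators `E_s` for all `s ∈ T` one after the other (Finset induction: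
  for all `T' ⊆ T` there is `f : P → ZMod 2` with push forward `q T`, invariant under `p_s` for all
  `s ∈ T'`).  `T ≠ s` cases: elements of a clique commute (`hcomm`).

`cover_le` is `les_a`.
-/

namespace SNG

open Finset

variable {V : Type} [Fintype V] [DecidableEq V] {P P' : Type} [Group P] [Finite P] [Group P']

namespace Cov

omit [Finite P] in
theorem zz {π : P →* P'} {z : P} (hz : z ≠ 1) (hk : ∀ g, π g = 1 ↔ g = 1 ∨ g = z) :
    z * z = 1 := by
  have h : π (z * z) = 1 := by
    rw [map_mul, (hk z).2 (Or.inr rfl), one_mul]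
  rcases (hk _).1 h with h | h
  · exact h
  · exact absurd (mul_eq_left.1 h) hz

omit [Finite P] in
theorem zc {π : P →* P'} {z : P} (hz : z ≠ 1) (hk : ∀ g, π g = 1 ↔ g = 1 ∨ g = z) (g : P) :
    g * z = z * g := by
  have h : π (g * z * g⁻¹) = 1 := by
    rw [map_mul, map_mul, (hk z).2 (Or.inr rfl), mul_one, ← map_mul, mul_inv_cancel, map_one]
  rcases (hk _).1 h with h | h
  · exact absurd (conj_eq_one_iff.1 h) hz
  · exact mul_inv_eq_iff_eq_mul.1 h

omit [Finite P] in
theorem fib {π : P →* P'} {z : P} (hk : ∀ g, π g = 1 ↔ g = 1 ∨ g = z) {a b : P}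
    (h : π a = π b) : a = b ∨ a = b * z := by
  have h1 : π (b⁻¹ * a) = 1 := by
    rw [map_mul, h, ← map_mul, inv_mul_cancel, map_one]
  rcases (hk _).1 h1 with h2 | h2
  · left
    rw [inv_mul_eq_iff_eq_mul, mul_one] at h2
    exact h2
  · right
    rw [inv_mul_eq_iff_eq_mul] at h2
    exact h2

omit [Finite P] in
theorem pz {π : P →* P'} {z : P} (hk : ∀ g, π g = 1 ↔ g = 1 ∨ g = z) (g : P) :
    π (g * z) = π g := by
  rw [map_mul, (hk z).2 (Or.inr rfl), mul_one]

/-- Pull back. -/
def io (V : Type) (π : P →* P') :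
    (Finset V → P' → ZMod 2) →ₗ[ZMod 2] (Finset V → P → ZMod 2) where
  toFun f := fun T g => f T (π g)
  map_add' _ _ := rfl
  map_smul' _ _ := rfl

/-- Push forward. -/
def th (V : Type) (σ : P' → P) (z : P) :
    (Finset V → P → ZMod 2) →ₗ[ZMod 2] (Finset V → P' → ZMod 2) where
  toFun f := fun T y => f T (σ y) + f T (σ y * z)
  map_add' f g := by
    funext T y
    simp only [Pi.add_apply]
    ring
  map_smul' c f := by
    funext T y
    simp only [Pi.smul_apply, smul_eq_mul, RingHom.id_apply, mul_add]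

omit [Finite P] [Fintype V] [DecidableEq V] in
theorem th_apply {π : P →* P'} {z : P} (hz : z ≠ 1) (hk : ∀ g, π g = 1 ↔ g = 1 ∨ g = z)
    {σ : P' → P} (hσ : ∀ y, π (σ y) = y) (f : Finset V → P → ZMod 2) (T : Finset V) (g : P) :
    th V σ z f T (π g) = f T g + f T (g * z) := by
  change f T (σ (π g)) + f T (σ (π g) * z) = _
  rcases fib hk (hσ (π g)) with h | h
  · rw [h]
  · rw [h, mul_assoc, zz hz hk, mul_one, add_comm]

omit [Finite P] [Fintype V] in
theorem lift {π : P →* P'} {z : P} (hz : z ≠ 1) (hk : ∀ g, π g = 1 ↔ g = 1 ∨ g = z)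
    {σ : P' → P} (hσ : ∀ y, π (σ y) = y) {S : Finset V} {G : SimpleGraph V} {p : V → P}
    (hsq : ∀ v ∈ S, p v * p v = 1) (hcomm : ∀ v ∈ S, ∀ w ∈ S, G.Adj v w → p v * p w = p w * p v)
    (hloc : Loc S G (fun v => π (p v))) {T : Finset V} (hT : T ⊆ S)
    (hcl : G.IsClique (T : Set V)) (q : P' → ZMod 2) (hq : ∀ s ∈ T, ∀ y, q (y * π (p s)) = q y) :
    ∃ f : P → ZMod 2, (∀ g, f g + f (g * z) = q (π g)) ∧ ∀ s ∈ T, ∀ g, f (g * p s) = f g := by
  classical
  obtain ⟨c, hc⟩ := hloc T hT hcl
  have key : ∀ T' : Finset V, T' ⊆ T → ∃ f : P → ZMod 2, (∀ g, f g + f (g * z) = q (π g)) ∧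
      ∀ s ∈ T', ∀ g, f (g * p s) = f g := by
    intro T'
    induction T' using Finset.induction_on with
    | empty =>
      intro _
      refine ⟨fun g => if g = σ (π g) then q (π g) else 0, ?_, by simp⟩
      intro g
      simp only [pz hk]
      rcases fib hk (hσ (π g)) with h | h
      · rw [h, if_pos rfl, if_neg, add_zero]
        intro h2
        exact hz (mul_eq_left.1 h2)
      · rw [h, if_neg, if_pos rfl, zero_add]
        intro h2
        exact hz (mul_eq_left.1 h2.symm)
    | insert s T' hs ih =>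
      intro hT'
      obtain ⟨f, h1, h2⟩ := ih fun x hx => hT' (mem_insert_of_mem hx)
      have hsT : s ∈ T := hT' (mem_insert_self _ _)
      refine ⟨fun g => c s (π g) * f g + (c s (π g) + 1) * f (g * p s), ?_, ?_⟩
      · intro g
        simp only [pz hk]
        have e1 := h1 g
        have e2 := h1 (g * p s)
        rw [map_mul, hq s hsT] at e2
        have e3 : g * z * p s = g * p s * z := by
          rw [mul_assoc, ← zc hz hk, mul_assoc]
        rw [e3]
        have e4 : c s (π g) + c s (π g) = 0 := CharTwo.add_self_eq_zero _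
        linear_combination c s (π g) * e1 + (c s (π g) + 1) * e2 + q (π g) * e4
      · intro t ht g
        rcases mem_insert.1 ht with rfl | ht'
        · have e1 := hc t hsT t hsT (π g)
          rw [if_pos rfl, ← map_mul] at e1
          have e2 : g * p t * p t = g := by rw [mul_assoc, hsq t (hT hsT), mul_one]
          simp only [e1, e2]
          have e4 : (1 : ZMod 2) + 1 = 0 := CharTwo.add_self_eq_zero _
          linear_combination (f g) * e4
        · have htT : t ∈ T := hT' ht
          have hne : t ≠ s := by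
            rintro rfl
            exact hs ht'
          have e1 := hc s hsT t htT (π g)
          rw [if_neg hne, ← map_mul, add_zero] at e1
          have hadj : G.Adj t s := hcl htT hsT hne
          have e2 : g * p t * p s = g * p s * p t := by
            rw [mul_assoc, hcomm t (hT htT) s (hT hsT) hadj, mul_assoc]
          simp only [e1, e2, h2 t ht']
  exact key T Subset.rfl

omit [Finite P] in
theorem ses {π : P →* P'} (hπ : Function.Surjective π) {z : P} (hz : z ≠ 1)
    (hk : ∀ g, π g = 1 ↔ g = 1 ∨ g = z) {σ : P' → P} (hσ : ∀ y, π (σ y) = y)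
    {S : Finset V} {G : SimpleGraph V} {p : V → P}
    (hsq : ∀ v ∈ S, p v * p v = 1) (hcomm : ∀ v ∈ S, ∀ w ∈ S, G.Adj v w → p v * p w = p w * p v)
    (hloc : Loc S G (fun v => π (p v))) :
    Ses (fun i => Ch S ∅ G (fun v => π (p v)) i) (fun i => Ch S ∅ G p i)
      (fun i => Ch S ∅ G (fun v => π (p v)) i) (bd V P') (bd V P) (bd V P') (io V π)
      (th V σ z) := by
  constructor
  · exact fun j a ha => bd_mem ha
  · exact fun j a ha => bd_mem ha
  · exact fun j a ha => bd_mem ha
  · exact fun a => bd_bd a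
  · exact fun a => bd_bd a
  · exact fun a => bd_bd a
  · rintro j a ⟨h1, h2⟩
    refine ⟨fun T hT => ?_, fun T s hs g => ?_⟩
    · funext g
      change a T (π g) = 0
      rw [h1 T hT, Pi.zero_apply]
    · change a T (π (g * p s)) = a T (π g)
      rw [map_mul]
      exact h2 T s hs (π g)
  · rintro j a ⟨h1, h2⟩
    refine ⟨fun T hT => ?_, fun T s hs y => ?_⟩
    · funext g
      change a T (σ g) + a T (σ g * z) = 0
      rw [h1 T hT, Pi.zero_apply, Pi.zero_apply, add_zero]
    · obtain ⟨g, rfl⟩ := hπ y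
      rw [← map_mul, th_apply hz hk hσ, th_apply hz hk hσ, h2 T s hs]
      have e3 : g * p s * z = g * z * p s := by
        rw [mul_assoc, zc hz hk, mul_assoc]
      rw [e3, h2 T s hs]
  · intro j a ha
    funext T g
    rfl
  · intro j a ha
    funext T y
    change ∑ s ∈ Tᶜ, (a (insert s T) (σ y) + a (insert s T) (σ y * z)) =
      ∑ s ∈ Tᶜ, a (insert s T) (σ y) + ∑ s ∈ Tᶜ, a (insert s T) (σ y * z)
    rw [sum_add_distrib]
  · intro j a ha h
    funext T y
    obtain ⟨g, rfl⟩ := hπ y
    exact congrFun (congrFun h T) g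
  · intro j a ha
    funext T y
    change a T (π (σ y)) + a T (π (σ y * z)) = 0
    rw [pz hk, CharTwo.add_self_eq_zero]
  · rintro j f ⟨h1, h2⟩ h
    have hfz : ∀ T g, f T (g * z) = f T g := by
      intro T g
      have h3 := th_apply hz hk hσ f T g
      rw [h] at h3
      change (0 : ZMod 2) = _ at h3
      exact (CharTwo.add_eq_zero.1 h3.symm).symm
    have hfib : ∀ T a b, π a = π b → f T a = f T b := by
      intro T a b hab
      rcases fib hk hab with rfl | rfl
      · rfl
      · exact hfz T b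
    refine ⟨fun T y => f T (σ y), ⟨fun T hT => ?_, fun T s hs y => ?_⟩, ?_⟩
    · funext y
      simp only [h1 T hT, Pi.zero_apply]
    · change f T (σ (y * π (p s))) = f T (σ y)
      rw [← h2 T s hs (σ y)]
      apply hfib
      rw [hσ, map_mul, hσ]
    · funext T g
      change f T (σ (π g)) = f T g
      apply hfib
      rw [hσ]
  · rintro j q ⟨h1, h2⟩
    have H : ∀ T : Finset V, ∃ f : P → ZMod 2, (∀ g, f g + f (g * z) = q T (π g)) ∧
        (∀ s ∈ T, ∀ g, f (g * p s) = f g) ∧
        (¬ (T ⊆ S ∧ G.IsClique (T : Set V) ∧ (T.card : ℤ) = j) → f = 0) := by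
      intro T
      by_cases hT : T ⊆ S ∧ G.IsClique (T : Set V) ∧ (T.card : ℤ) = j
      · obtain ⟨f, h3, h4⟩ := lift hz hk hσ hsq hcomm hloc hT.1 hT.2.1 (q T)
          (fun s hs y => h2 T s (by simpa using hs) y)
        exact ⟨f, h3, h4, fun h => absurd hT h⟩
      · refine ⟨0, fun g => ?_, fun s _ g => rfl, fun _ => rfl⟩
        rw [h1 T hT]
        simp
    choose f h3 h4 h5 using H
    refine ⟨f, ⟨fun T hT => h5 T hT, fun T s hs g => h4 T s (by simpa using hs) g⟩, ?_⟩
    funext T y
    obtain ⟨g, rfl⟩ := hπ y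
    rw [th_apply hz hk hσ, h3]

end Cov

theorem cover_le (π : P →* P') (hπ : Function.Surjective π) (z : P) (hz : z ≠ 1)
    (hk : ∀ g, π g = 1 ↔ g = 1 ∨ g = z) {S : Finset V} {G : SimpleGraph V} {p : V → P}
    (hsq : ∀ v ∈ S, p v * p v = 1) (hcomm : ∀ v ∈ S, ∀ w ∈ S, G.Adj v w → p v * p w = p w * p v)
    (hloc : Loc S G (fun v => π (p v))) (j : ℤ) :
    bt S ∅ G p j ≤ 2 * bt S ∅ G (fun v => π (p v)) j := by
  have : Finite P' := Finite.of_surjective π hπ
  have h := les_a (Cov.ses hπ hz hk (σ := Function.surjInv hπ)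
    (Function.surjInv_eq hπ) hsq hcomm hloc) j
  rw [bt_eq_be, bt_eq_be, two_mul]
  exact h

end SNG
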