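import Pool.Agent.SNG.DBase

/-!
# Project SNG (architect helper40), module DA: the chains inject in homology of the double complex

Write `D = eD p`, `(1 + p_s) f (g) = f g + f (g p_s)`; `c_s` are the coordinate functions
(`IsDat.co`).

Step 1 (`e2` is exact at `T`-degree `a ≥ 1`): let `e ∈ E2 S G p m` be supported on pairs with
`|T| = a ≥ 1` and `e2 p e = 0`.  Then `e = e2 p w` with `w ∈ E2 S G p (m + 1)` supported on pairs with
`|T| = a - 1`.
Fix `U` (everything decomposes; or treat all `U` at the same time with a linear order or list of the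
vertices).  For `s ∈ U` let `(h_s e) T U g = if s ∈ T then 0 else c_s g * e (insert s T) U g` (for
`T ⊆ U`).  It is invariant under `p_t`, `t ∈ T` (`t ≠ s`).  For `T ∋ s`:
`e2 (h_s e) T = (1 + p_s)(c_s e T) = e T` (as `e T` is invariant under `p_s` and `c_s(g p_s) = c_s g + 1`;
the terms `T - t`, `t ≠ s`, contain `s`).  For `s ∉ T`: `e2 (h_s e) T = c_s ∑_{t ∈ T} (1 + p_t)
e (insert s T - t)`, and `0 = e2 e (insert s T) = ∑_{t ∈ T} (1 + p_t) e (insert s T - t) +
(1 + p_s) e T`, so `e2 (h_s e) T = c_s (1 + p_s) e T`.
Claim: for every `R ⊆ U` there is `w` (in the right space, supported at this `U`) such that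
`e - e2 w` (at this `U`) vanishes on all `T` with `T ∩ R ≠ ∅`.  Induction on `R`: let `e' = e - e2 w` be as in the
claim for `R`, `e2 e' = 0`, and `s ∈ U \ R`; put `w' = w + h_s e'`: `e' - e2 (h_s e')` vanishes on
`T ∋ s`; for `T ∌ s` with `T ∩ R ≠ ∅`: `e' T = 0` and `e2 (h_s e') T = c_s (1 + p_s) e' T = 0`.
With `R = U` and `a ≥ 1` we get `e = e2 w`.
(If it is more convenient, prove Step 1 for functions `e T g` with a fixed clique `U`.)

Step 2: let `f ∈ Ch S ∅ G p j` and `eA f = D y` with `y ∈ E2 S G p (j + 1)`.  Then `f = bd f'` for some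
`f' ∈ Ch S ∅ G p (j + 1)`.  Let `a` be the largest `|T|` with `y T ≠ 0`; induction on `a`.  If
`a ≥ 1`: the component of `D y` at `|T| = a + 1` is `e2 y_a`, where `y_a` is the part of `y` with
`|T| = a`; it is `0` as `eA f` lives on `T = ∅`.  By Step 1 `y_a = e2 w`; replace `y` by `y - D w`
(`D D = 0`), which has smaller `a`.  If `a = 0`: the component of `D y` at `|T| = 1` is `0`: `y ∅ U` is
invariant under `p_s`, `s ∈ U`.  So `y = eA f'`, `f' U = y ∅ U ∈ Ch S ∅ G p (j + 1)` and
`eA f = D (eA f') = eA (bd f')`, so `f = bd f'`.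

Step 3: `bt S ∅ G p j ≤ be (E2 S G p) (eD p) j`: `eA` is injective, maps cycles to cycles and a cycle
is a boundary if its image is; so `dim Z + dim B_E ≤ dim Z_E + dim B`
(`eA Z + B_E ⊆ Z_E`, `eA Z ∩ B_E = eA B`).
-/

namespace SNG

open Finset

variable {V : Type} [Fintype V] [DecidableEq V] {P : Type} [Group P] [Finite P] {S : Finset V}
  {G : SimpleGraph V} {p : V → P}

set_option linter.unusedSectionVars false

/-- The second differential for a fixed `U`. -/
private def k2 (p : V → P) (w : Finset V → P → ZMod 2) (T : Finset V) (g : P) : ZMod 2 :=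
  ∑ s ∈ T, (w (T.erase s) g + w (T.erase s) (g * p s))

omit [Fintype V] [Finite P] in
private theorem z2 (a : ZMod 2) : a + a = 0 := by
  have h : (2 : ZMod 2) = 0 := by decide
  rw [← two_mul, h, zero_mul]

private theorem z2_eq {a b : ZMod 2} (h : a + b = 0) : a = b := by
  have h1 : a + b + b = b := by rw [h, zero_add]
  rwa [add_assoc, z2, add_zero] at h1

omit [Fintype V] [Finite P] in
private theorem k2_add (p : V → P) (w v : Finset V → P → ZMod 2) (T : Finset V) (g : P) :
    k2 p (fun T g => w T g + v T g) T g = k2 p w T g + k2 p v T g := by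
  unfold k2
  rw [← sum_add_distrib]
  exact sum_congr rfl fun s _ => by ring

omit [Fintype V] [Finite P] in
private theorem k2_k2 (p : V → P) (w : Finset V → P → ZMod 2) (T : Finset V)
    (hc : ∀ s ∈ T, ∀ t ∈ T, p s * p t = p t * p s) (g : P) :
    k2 p (k2 p w) T g = 0 := by
  unfold k2
  have e1 : ∀ s ∈ T, (∑ t ∈ T.erase s, (w ((T.erase s).erase t) g + w ((T.erase s).erase t) (g * p t)) +
      ∑ t ∈ T.erase s, (w ((T.erase s).erase t) (g * p s) +
        w ((T.erase s).erase t) (g * p s * p t))) =
      ∑ t ∈ T.erase s, (w ((T.erase s).erase t) g + w ((T.erase s).erase t) (g * p t) +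
        w ((T.erase s).erase t) (g * p s) + w ((T.erase s).erase t) (g * p s * p t)) := by
    intro s _
    rw [← sum_add_distrib]
    exact sum_congr rfl fun t _ => by ring
  rw [sum_congr rfl e1, Finset.sum_sigma']
  refine Finset.sum_involution (fun x _ => ⟨x.2, x.1⟩) ?_ ?_ ?_ ?_
  · rintro ⟨s, t⟩ hx
    simp only [mem_sigma, mem_erase] at hx
    have h1 : (T.erase t).erase s = (T.erase s).erase t := erase_right_comm
    have h2 : g * p t * p s = g * p s * p t := by
      rw [mul_assoc, mul_assoc, hc t hx.2.2 s hx.1]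
    simp only [h1, h2]
    linear_combination (z2 (w ((T.erase s).erase t) g)) + (z2 (w ((T.erase s).erase t) (g * p t))) +
      (z2 (w ((T.erase s).erase t) (g * p s))) + z2 (w ((T.erase s).erase t) (g * p s * p t))
  · rintro ⟨s, t⟩ hx _ h
    simp only [mem_sigma, mem_erase] at hx
    simp only [Sigma.mk.injEq, heq_eq_eq] at h
    exact hx.2.1 h.1
  · rintro ⟨s, t⟩ hx
    simp only [mem_sigma, mem_erase] at hx ⊢
    exact ⟨hx.2.2, fun h => hx.2.1 h.symm, hx.1⟩
  · rintro ⟨s, t⟩ hx
    rfl

omit [Fintype V] [Finite P] in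
private theorem k2_inv (p : V → P) (w : Finset V → P → ZMod 2) (T : Finset V)
    (hq : ∀ s ∈ T, p s * p s = 1)
    (hc : ∀ s ∈ T, ∀ t ∈ T, p s * p t = p t * p s)
    (hw : ∀ T : Finset V, ∀ s ∈ T, ∀ g, w T (g * p s) = w T g) {t : V} (ht : t ∈ T) (g : P) :
    k2 p w T (g * p t) = k2 p w T g := by
  unfold k2
  refine sum_congr rfl fun s hs => ?_
  by_cases h : t = s
  · subst h
    rw [mul_assoc, hq t ht, mul_one, add_comm]
  · have h1 : t ∈ T.erase s := mem_erase.2 ⟨h, ht⟩
    rw [hw _ t h1 g, mul_assoc, hc t ht s hs, ← mul_assoc, hw _ t h1]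

omit [Fintype V] [Finite P] in
private theorem k2_card (p : V → P) (w : Finset V → P → ZMod 2) (T : Finset V) {b : ℕ}
    (hw : ∀ T : Finset V, T.card ≠ b → w T = 0) (hT : T.card ≠ b + 1) (g : P) :
    k2 p w T g = 0 := by
  unfold k2
  refine sum_eq_zero fun s hs => ?_
  have h1 : (T.erase s).card ≠ b := by
    rw [card_erase_of_mem hs]
    have := card_pos.2 ⟨s, hs⟩
    omega
  rw [hw _ h1]
  simp

omit [Fintype V] [Finite P] in
/-- Step 1 for a fixed clique `U`. -/
private theorem exact_U (U : Finset V) (hq : ∀ s ∈ U, p s * p s = 1)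
    (hc : ∀ s ∈ U, ∀ t ∈ U, p s * p t = p t * p s)
    (c : V → P → ZMod 2) (hco : ∀ v ∈ U, ∀ w ∈ U, ∀ g, c v (g * p w) = c v g + if w = v then 1 else 0)
    (b : ℕ) (w : Finset V → P → ZMod 2) (hw0 : ∀ T : Finset V, ¬ (T ⊆ U ∧ T.card = b + 1) → w T = 0)
    (hw1 : ∀ T : Finset V, ∀ s ∈ T, ∀ g, w T (g * p s) = w T g)
    (hw2 : ∀ T : Finset V, T ⊆ U → ∀ g, k2 p w T g = 0) :
    ∃ v : Finset V → P → ZMod 2, (∀ T : Finset V, ¬ (T ⊆ U ∧ T.card = b) → v T = 0) ∧
      (∀ T : Finset V, ∀ s ∈ T, ∀ g, v T (g * p s) = v T g) ∧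
      ∀ T : Finset V, T ⊆ U → ∀ g, k2 p v T g = w T g := by
  classical
  have key : ∀ R : Finset V, R ⊆ U → ∃ v : Finset V → P → ZMod 2,
      (∀ T : Finset V, ¬ (T ⊆ U ∧ T.card = b) → v T = 0) ∧
      (∀ T : Finset V, ∀ s ∈ T, ∀ g, v T (g * p s) = v T g) ∧
      ∀ T : Finset V, T ⊆ U → (T ∩ R).Nonempty → ∀ g, k2 p v T g = w T g := by
    intro R
    induction R using Finset.induction_on with
    | empty =>
      intro _
      refine ⟨fun _ _ => 0, fun T _ => rfl, fun T s _ g => rfl, fun T _ h => ?_⟩
      simp at h
    | insert s R hs ih =>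
      intro hR
      have hsU : s ∈ U := hR (mem_insert_self s R)
      obtain ⟨v, hv0, hv1, hv2⟩ := ih fun x hx => hR (mem_insert_of_mem hx)
      have hv0' : ∀ T : Finset V, T.card ≠ b → v T = 0 := fun T hT => hv0 T fun h => hT h.2
      have hw0' : ∀ T : Finset V, T.card ≠ b + 1 → w T = 0 := fun T hT => hw0 T fun h => hT h.2
      -- the rest
      set w' : Finset V → P → ZMod 2 := fun T g => w T g + k2 p v T g with hw'
      have w'inv : ∀ T : Finset V, T ⊆ U → ∀ t ∈ T, ∀ g, w' T (g * p t) = w' T g := by
        intro T hT t ht g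
        simp only [hw']
        rw [hw1 T t ht g, k2_inv p v T (fun x hx => hq x (hT hx))
          (fun x hx y hy => hc x (hT hx) y (hT hy)) hv1 ht g]
      have w'card : ∀ T : Finset V, T.card ≠ b + 1 → ∀ g, w' T g = 0 := by
        intro T hT g
        simp only [hw']
        rw [hw0' T hT, k2_card p v T hv0' hT g]
        simp
      have w'cl : ∀ T : Finset V, T ⊆ U → ∀ g, k2 p w' T g = 0 := by
        intro T hT g
        rw [hw', k2_add, hw2 T hT g, k2_k2 p v T (fun x hx y hy => hc x (hT hx) y (hT hy)) g,
          add_zero]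
      set h : Finset V → P → ZMod 2 := fun T g =>
        if T ⊆ U ∧ s ∉ T then c s g * w' (insert s T) g else 0 with hh
      have hcard : ∀ T : Finset V, ¬ (T ⊆ U ∧ T.card = b) → ∀ g, h T g = 0 := by
        intro T hT g
        simp only [hh]
        split_ifs with h1
        · have h2 : (insert s T).card ≠ b + 1 := by
            rw [card_insert_of_notMem h1.2]
            intro h3
            exact hT ⟨h1.1, by omega⟩
          rw [w'card _ h2, mul_zero]
        · rfl
      have hinv : ∀ T : Finset V, ∀ t ∈ T, ∀ g, h T (g * p t) = h T g := by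
        intro T t ht g
        simp only [hh]
        split_ifs with h1
        · have hts : t ≠ s := fun e => h1.2 (e ▸ ht)
          have h2 : insert s T ⊆ U := insert_subset hsU h1.1
          rw [w'inv _ h2 t (mem_insert_of_mem ht), hco s hsU t (h1.1 ht), if_neg hts, add_zero]
        · rfl
      refine ⟨fun T g => v T g + h T g, fun T hT => ?_, fun T t ht g => ?_, fun T hT hTR g => ?_⟩
      · funext g
        show v T g + h T g = 0
        rw [hv0 T hT, hcard T hT g]
        simp
      · show v T (g * p t) + h T (g * p t) = v T g + h T g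
        rw [hv1 T t ht g, hinv T t ht g]
      · rw [k2_add]
        have goal : k2 p h T g = w' T g := by
          by_cases hsT : s ∈ T
          · unfold k2
            rw [Finset.sum_eq_single_of_mem s hsT]
            · have h1 : T.erase s ⊆ U ∧ s ∉ T.erase s :=
                ⟨fun x hx => hT (mem_of_mem_erase hx), notMem_erase s T⟩
              simp only [hh, if_pos h1, insert_erase hsT]
              rw [w'inv T hT s hsT g, hco s hsU s hsU g, if_pos rfl]
              linear_combination z2 (c s g * w' T g)
            · intro t ht hts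
              have h1 : ¬ (T.erase t ⊆ U ∧ s ∉ T.erase t) := by
                rintro ⟨-, h2⟩
                exact h2 (mem_erase.2 ⟨fun e => hts e.symm, hsT⟩)
              simp only [hh, if_neg h1, add_zero]
          · have hTR' : (T ∩ R).Nonempty := by
              obtain ⟨x, hx⟩ := hTR
              rw [mem_inter, mem_insert] at hx
              rcases hx.2 with h1 | h1
              · exact absurd (h1 ▸ hx.1) hsT
              · exact ⟨x, mem_inter.2 ⟨hx.1, h1⟩⟩
            have hz : ∀ g, w' T g = 0 := by
              intro g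
              simp only [hw']
              rw [hv2 T hT hTR' g, z2]
            rw [hz g]
            have hins : insert s T ⊆ U := insert_subset hsU hT
            have h3 := w'cl (insert s T) hins g
            unfold k2 at h3
            rw [sum_insert hsT, erase_insert hsT, hz, hz, add_zero, zero_add] at h3
            unfold k2
            have h4 : ∀ t ∈ T, h (T.erase t) g + h (T.erase t) (g * p t) =
                c s g * (w' ((insert s T).erase t) g + w' ((insert s T).erase t) (g * p t)) := by
              intro t ht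
              have hts : t ≠ s := fun e => hsT (e ▸ ht)
              have h5 : T.erase t ⊆ U ∧ s ∉ T.erase t :=
                ⟨fun x hx => hT (mem_of_mem_erase hx), fun hx => hsT (mem_of_mem_erase hx)⟩
              have h6 : (insert s T).erase t = insert s (T.erase t) :=
                erase_insert_of_ne (Ne.symm hts)
              simp only [hh, if_pos h5, h6]
              rw [hco s hsU t (hT ht), if_neg hts, add_zero]
              ring
            rw [sum_congr rfl h4, ← mul_sum, h3, mul_zero]
        rw [goal]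
        simp only [hw']
        linear_combination z2 (k2 p v T g)
  obtain ⟨v, hv0, hv1, hv2⟩ := key U subset_rfl
  refine ⟨v, hv0, hv1, fun T hT g => ?_⟩
  by_cases hT0 : T.Nonempty
  · refine hv2 T hT ?_ g
    rwa [inter_eq_left.2 hT]
  · rw [not_nonempty_iff_eq_empty] at hT0
    subst hT0
    rw [hw0 ∅ (by simp)]
    unfold k2
    simp

omit [Finite P] [Fintype V] [Group P] in
private theorem eA_emp (f : Finset V → P → ZMod 2) (U : Finset V) (g : P) :
    eA V P f ∅ U g = f U g := by
  show (if (∅ : Finset V) = ∅ then f U g else 0) = _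
  rw [if_pos rfl]

omit [Finite P] [Fintype V] [Group P] in
private theorem eA_ne (f : Finset V → P → ZMod 2) {T : Finset V} (h : T ≠ ∅) (U : Finset V) (g : P) :
    eA V P f T U g = 0 := if_neg h

omit [Finite P] [Group P] in
private theorem e1_eq (e : Finset V → Finset V → P → ZMod 2) {T U : Finset V} (h : T ⊆ U) (g : P) :
    e1 V P e T U g = ∑ s ∈ Uᶜ, e T (insert s U) g := if_pos h

omit [Finite P] [Fintype V] in
private theorem e2_eq (e : Finset V → Finset V → P → ZMod 2) {T U : Finset V} (h : T ⊆ U) (g : P) :
    e2 p e T U g = k2 p (fun T => e T U) T g := by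
  show (if T ⊆ U then _ else _) = _
  rw [if_pos h]
  rfl

omit [Finite P] [Fintype V] in
private theorem e2_ne (e : Finset V → Finset V → P → ZMod 2) {T U : Finset V} (h : ¬ T ⊆ U) (g : P) :
    e2 p e T U g = 0 := by
  show (if T ⊆ U then _ else _) = _
  rw [if_neg h]

omit [Finite P] [Group P] in
private theorem e1_zero (e : Finset V → Finset V → P → ZMod 2) {T : Finset V} (h : e T = 0)
    (U : Finset V) (g : P) : e1 V P e T U g = 0 := by
  show (if T ⊆ U then _ else _) = _
  split_ifs
  · rw [h]
    simp
  · rfl

omit [Finite P] in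
/-- Step 2. -/
private theorem step2 (hp : IsDat S G p) (j : ℤ) (f : Finset V → P → ZMod 2) (a : ℕ) :
    ∀ y ∈ E2 S G p (j + 1), (∀ T : Finset V, a < T.card → y T = 0) → eA V P f = eD p y →
      ∃ f' ∈ Ch S ∅ G p (j + 1), bd V P f' = f := by
  classical
  induction a with
  | zero =>
    intro y hy hy0 hD
    obtain ⟨hy1, hy2⟩ := hy
    refine ⟨fun U => y ∅ U, ⟨fun U hU => ?_, fun U s hs g => ?_⟩, ?_⟩
    · refine hy1 ∅ U fun h => hU ⟨h.2.1, h.2.2.1, ?_⟩
      have := h.2.2.2
      simpa using this
    · rw [union_empty] at hs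
      have h1 : eA V P f {s} U g = eD p y {s} U g := by rw [hD]
      have h2 : eA V P f {s} U g = 0 := eA_ne f (singleton_ne_empty s) U g
      have h3 : eD p y {s} U g = e1 V P y {s} U g + e2 p y {s} U g := rfl
      rw [h2, h3, e1_zero y (hy0 {s} (by simp)), e2_eq y (singleton_subset_iff.2 hs), zero_add] at h1
      unfold k2 at h1
      simp only [sum_singleton, erase_singleton] at h1
      exact (z2_eq h1.symm).symm
    · funext U g
      have h1 : eA V P f ∅ U g = eD p y ∅ U g := by rw [hD]
      have h2 : eA V P f ∅ U g = f U g := eA_emp f U g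
      have h3 : eD p y ∅ U g = e1 V P y ∅ U g + e2 p y ∅ U g := rfl
      rw [h2, h3, e2_eq y (empty_subset U)] at h1
      have h4 : k2 p (fun T => y T U) ∅ g = 0 := by
        unfold k2
        simp
      have h5 : e1 V P y ∅ U g = ∑ s ∈ Uᶜ, y ∅ (insert s U) g := e1_eq y (empty_subset U) g
      rw [h4, h5, add_zero] at h1
      exact h1.symm
  | succ a ih =>
    intro y hy hy0 hD
    obtain ⟨c, hc⟩ := hp.co
    have hy1 := hy.1
    have hy2 := hy.2
    have ex : ∀ U : Finset V, ∃ v : Finset V → P → ZMod 2, U ⊆ S → G.IsClique (U : Set V) →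
        (∀ T : Finset V, ¬ (T ⊆ U ∧ T.card = a) → v T = 0) ∧
        (∀ T : Finset V, ∀ s ∈ T, ∀ g, v T (g * p s) = v T g) ∧
        ∀ T : Finset V, T ⊆ U → ∀ g, k2 p v T g = (if T.card = a + 1 then y T U else 0) g := by
      intro U
      by_cases hU : U ⊆ S ∧ G.IsClique (U : Set V)
      · obtain ⟨v, h1, h2, h3⟩ := exact_U (p := p) U (fun s hs => hp.sq s (hU.1 hs))
          (fun s hs t ht => by
            by_cases hst : s = t
            · rw [hst]
            · exact hp.comm s (hU.1 hs) t (hU.1 ht) (hU.2 hs ht hst)) c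
          (fun s hs t ht g => hc s (hU.1 hs) t (hU.1 ht) g) a
          (fun T => if T.card = a + 1 then y T U else 0) (fun T hT => by
            by_cases h1 : T.card = a + 1
            · simp only [if_pos h1]
              exact hy1 T U fun h2 => hT ⟨h2.1, h1⟩
            · simp only [if_neg h1])
          (fun T s hs g => by
            by_cases h1 : T.card = a + 1
            · simp only [if_pos h1]
              exact hy2 T U s hs g
            · simp only [if_neg h1, Pi.zero_apply])
          (fun T hT g => by
            by_cases h1 : T.card = a + 2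
            · have h2 : eA V P f T U g = eD p y T U g := by rw [hD]
              have h3 : eA V P f T U g = 0 := by
                refine eA_ne f ?_ U g
                rintro rfl
                simp at h1
              have h4 : eD p y T U g = e1 V P y T U g + e2 p y T U g := rfl
              rw [h3, h4, e1_zero y (hy0 T (by omega)), e2_eq y hT, zero_add] at h2
              rw [h2]
              unfold k2
              refine sum_congr rfl fun s hs => ?_
              have h5 : (T.erase s).card = a + 1 := by
                rw [card_erase_of_mem hs]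
                omega
              simp only [if_pos h5]
            · refine k2_card p _ T (b := a + 1) (fun T hT => ?_) (by omega) g
              simp only [if_neg hT])
        exact ⟨v, fun _ _ => ⟨h1, h2, h3⟩⟩
      · exact ⟨0, fun h1 h2 => absurd ⟨h1, h2⟩ hU⟩
    choose v hv using ex
    set z : Finset V → Finset V → P → ZMod 2 := fun T U =>
      if U ⊆ S ∧ G.IsClique (U : Set V) ∧ (U.card : ℤ) - a = j + 1 + 1 then v U T else 0 with hz
    have zc : ∀ T : Finset V, T.card ≠ a → z T = 0 := by
      intro T hT
      funext U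
      simp only [hz]
      split_ifs with h
      · exact (hv U h.1 h.2.1).1 T fun h2 => hT h2.2
      · rfl
    have zE : z ∈ E2 S G p (j + 1 + 1) := by
      refine ⟨fun T U hT => ?_, fun T U s hs g => ?_⟩
      · simp only [hz]
        split_ifs with h
        · refine (hv U h.1 h.2.1).1 T fun h2 => hT ⟨h2.1, h.1, h.2.1, ?_⟩
          rw [h2.2]
          exact h.2.2
        · rfl
      · simp only [hz]
        split_ifs with h
        · exact (hv U h.1 h.2.1).2.1 T s hs g
        · rfl
    refine ih (y + eD p z) (Submodule.add_mem _ hy (eD_mem hp zE)) (fun T hT => ?_) ?_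
    · funext U g
      have e0 : (y + eD p z) T U g = y T U g + (e1 V P z T U g + e2 p z T U g) := rfl
      rw [e0, e1_zero z (zc T (by omega)), zero_add]
      show _ = (0 : ZMod 2)
      by_cases hTU : T ⊆ U
      · rw [e2_eq z hTU]
        by_cases hT1 : T.card = a + 1
        · by_cases hU : U ⊆ S ∧ G.IsClique (U : Set V) ∧ (U.card : ℤ) - a = j + 1 + 1
          · have h1 : (fun T => z T U) = v U := by
              funext T
              simp only [hz, if_pos hU]
            rw [h1, (hv U hU.1 hU.2.1).2.2 T hTU g, if_pos hT1, z2]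
          · have h1 : (fun T => z T U) = 0 := by
              funext T
              simp only [hz, if_neg hU, Pi.zero_apply]
            have h2 : y T U = 0 := by
              refine hy1 T U fun h => hU ⟨h.2.1, h.2.2.1, ?_⟩
              have := h.2.2.2
              rw [hT1] at this
              push_cast at this
              linarith
            rw [h1, h2]
            unfold k2
            simp
        · rw [k2_card p _ T (b := a) (fun T' hT' => by rw [zc T' hT']; rfl) hT1 g,
            hy0 T (by omega)]
          simp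
      · rw [e2_ne z hTU, hy1 T U fun h => hTU h.1]
        simp
    · rw [map_add, eD_eD hp zE, add_zero]
      exact hD

theorem dual_a (hp : IsDat S G p) (j : ℤ) :
    bt S ∅ G p j ≤ be (fun i => E2 S G p i) (eD p) j := by
  classical
  unfold bt be
  set Z := Ch S ∅ G p j ⊓ LinearMap.ker (bd V P) with hZ
  set B := (Ch S ∅ G p (j + 1)).map (bd V P) with hB
  set Z' := E2 S G p j ⊓ LinearMap.ker (eD p) with hZ'
  set B' := (E2 S G p (j + 1)).map (eD p) with hB'
  have inj : Function.Injective (eA V P) := by
    intro f f' h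
    funext U g
    have h1 : eA V P f ∅ U g = eA V P f' ∅ U g := by rw [h]
    rwa [eA_emp, eA_emp] at h1
  have hZZ : Z.map (eA V P) ≤ Z' := by
    rintro _ ⟨f, ⟨h1, h2⟩, rfl⟩
    refine ⟨eA_mem h1, LinearMap.mem_ker.2 ?_⟩
    rw [eD_eA h1, LinearMap.mem_ker.1 h2, map_zero]
  have hBZ : B' ≤ Z' := by
    rintro _ ⟨y, h1, rfl⟩
    exact ⟨eD_mem hp h1, LinearMap.mem_ker.2 (eD_eD hp h1)⟩
  have hI : Z.map (eA V P) ⊓ B' ≤ B.map (eA V P) := by
    rintro _ ⟨⟨f, hf, rfl⟩, ⟨y, h1, h2⟩⟩
    obtain ⟨f', h3, h4⟩ := step2 hp j f (Fintype.card V) y h1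
      (fun T hT => absurd (card_le_univ T) (by omega)) h2.symm
    exact ⟨f, ⟨f', h3, h4⟩, rfl⟩
  have e1 := Submodule.finrank_sup_add_finrank_inf_eq (Z.map (eA V P)) B'
  have e2 : Module.finrank (ZMod 2) ↥(Z.map (eA V P)) = Module.finrank (ZMod 2) ↥Z :=
    (LinearEquiv.finrank_eq (Submodule.equivMapOfInjective _ inj Z)).symm
  have e3 : Module.finrank (ZMod 2) ↥(B.map (eA V P)) = Module.finrank (ZMod 2) ↥B :=
    (LinearEquiv.finrank_eq (Submodule.equivMapOfInjective _ inj B)).symm
  have e4 := Submodule.finrank_mono (sup_le hZZ hBZ)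
  have e5 := Submodule.finrank_mono hI
  omega

end SNG
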