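import Pool.Agent.SNG.DBase

/-!
# Project SNG (architect helper40), module DB: the homology of the double complex comes from cochains

Let `(S, G)` be a flag homology sphere, `Gor n S G`.
Facts.  (F1) Every clique `U ⊆ S` has at most `n` elements (`Gor`: `m + |U| = n`), and
`lks S G U = ∅` if `|U| = n` (`Sph 0 A G` implies `A = ∅`: if `x ∈ A` then `bt A ∅ G 1 0 = 0`, because
the constant chain at `∅` is the boundary of the chain `δ_{x}`).
(F2) Every clique `U' ⊆ S` with `n - 1` elements is contained in exactly two cliques `U ⊆ S` with `n`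
elements, i.e. `A = lks S G U'` has two elements: `A` has no edges (F1), so its chain complex is
`F₂ ^ A → F₂`, and `Sph 1 A G` (`bt` at `0` is `0`, at `1` is `1`) gives `|A| - 1 = 1`.
(F3) For a clique `T ⊆ S` let `A = lks S G T` and `k = n - |T|` (`Sph k A G`).  If `x` is a chain of
`A` (a function on the cliques `X ⊆ A` with `i` elements) with `∂ x = 0` and `i ≠ k` then `x = ∂ y` for a
chain `y` on the cliques with `i + 1` elements.  If `i = k` then `x` is constant on the cliques with `k`
elements: the cycles in degree `k` have dimension `1` (there are no chains in degree `k + 1`), the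
chain `1` (value `1` on all cliques of `A` with `k` elements) is a cycle by (F2) applied to the cliques
`T ∪ X'`, and it is not `0` since `bt A ∅ G 1 k = 1` implies that there is a clique with `k` elements.
Chains of the trivial group: `Finset V → Unit → ZMod 2`.

The map `β`: for `h ∈ Ch S ∅ G p (n - j)` let
`(β h) T U = if T ⊆ U, U ⊆ S, U a clique, |U| = n then h T else 0`: an element of `E2 S G p j`.
`e1 (β h) = 0` by (F2), `e2 (β h) = β (cb h)`; `β` is injective (every clique `T ⊆ S` is contained in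
one with `n` elements, (F3)).

Claim: every `e ∈ E2 S G p j` with `D e = 0` (`D = eD p`) can be written `e = β h + D w` with
`w ∈ E2 S G p (j + 1)`, `h ∈ Ch S ∅ G p (n - j)`, `cb h = 0`.
Proof.  For each `r` there is `w` such that `e - D w` vanishes on all `(T, U)` with `|T| < r`, as long
as `r ≤ n - j`: induction on `r`.  Let `e' = e - D w` vanish for `|T| < r`, `r < n - j`.  The
component of `D e' = 0` at `(T, U)`, `|T| = r`, is `e1 e'` (the `e2` part involves `|T| = r - 1`).  For
a clique `T` with `r` elements and `g ∈ P`, `x X = e' T (T ∪ X) g` (`X ⊆ lks S G T` a clique; here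
`|X| = j ≠ n - r`) is a cycle of `lks S G T`, so by (F3) `x = ∂ y` and `y` can be chosen as a function of
`x` only, hence invariant in `g` under `p_s`, `s ∈ T`.  Put `w' T U g = y (U \ T)` for `|T| = r`.  Then
`e1 w' = e'` at `|T| = r`, and `e' - D w'` vanishes for `|T| ≤ r`.
For `r = n - j` (if `n - j < 0` then `E2 S G p j = ⊥`, nothing to do; also if `j < 0`): `e'` lives on
`|T| ≥ n - j`, `|U| = |T| + j ≥ n`, so on `|T| = n - j`, `|U| = n`.  `e1 e' = 0` and (F3) (`i = k = j`)
give `e' T U g = h T g` for all cliques `U ⊇ T` with `n` elements, so `e' = β h`, and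
`β (cb h) = e2 (β h) = 0` gives `cb h = 0`.

Hence `be (E2 S G p) (eD p) j ≤ cbt S G p (n - j)`: the cycles are `β (Z^(n-j)) + B_E`, and
`β (cb h') = D (β h')` (up to the shift of degree) is in `B_E` for `h' ∈ Ch S ∅ G p (n - j - 1)`.
-/

namespace SNG

open Finset

variable {V : Type} [Fintype V] [DecidableEq V] {P : Type} [Group P] [Finite P] {S : Finset V}
  {G : SimpleGraph V} {p : V → P}

set_option linter.unusedSectionVars false

private theorem db_aa (x : ZMod 2) : x + x = 0 := CharTwo.add_self_eq_zero x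

private theorem db_01 : ∀ c : ZMod 2, c = 0 ∨ c = 1 := by decide

private theorem db_e1 (e : Finset V → Finset V → P → ZMod 2) {T U : Finset V} (h : T ⊆ U) (g : P) :
    e1 V P e T U g = ∑ s ∈ Uᶜ, e T (insert s U) g := if_pos h

private theorem db_e1n (e : Finset V → Finset V → P → ZMod 2) {T U : Finset V} (h : ¬ T ⊆ U) (g : P) :
    e1 V P e T U g = 0 := if_neg h

private theorem db_e2 (p : V → P) (e : Finset V → Finset V → P → ZMod 2) {T U : Finset V}
    (h : T ⊆ U) (g : P) :
    e2 p e T U g = ∑ s ∈ T, (e (T.erase s) U g + e (T.erase s) U (g * p s)) := if_pos h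

private theorem db_e2n (p : V → P) (e : Finset V → Finset V → P → ZMod 2) {T U : Finset V}
    (h : ¬ T ⊆ U) (g : P) : e2 p e T U g = 0 := if_neg h

private theorem mem_lks {T : Finset V} {x : V} : x ∈ lks S G T ↔ x ∈ S ∧ ∀ t ∈ T, G.Adj t x := by
  simp [lks]

private theorem sph_exact {m : ℕ} {A : Finset V} (h : Sph m A G) {i : ℤ} (hi : i ≠ m)
    {x : Finset V → Unit → ZMod 2} (hx : x ∈ Ch A ∅ G (fun _ => (1 : Unit)) i)
    (hx0 : bd V Unit x = 0) :
    ∃ y ∈ Ch A ∅ G (fun _ => (1 : Unit)) (i + 1), bd V Unit y = x := by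
  have h1 := h i
  rw [if_neg hi, bt] at h1
  have h2 : (Ch A ∅ G (fun _ => (1 : Unit)) (i + 1)).map (bd V Unit) ≤
      Ch A ∅ G (fun _ => (1 : Unit)) i ⊓ LinearMap.ker (bd V Unit) := by
    rintro _ ⟨y, hy, rfl⟩
    exact ⟨bd_mem hy, bd_bd y⟩
  have h3 := Submodule.eq_of_le_of_finrank_le h2 (Nat.sub_eq_zero_iff_le.1 h1)
  have h4 : x ∈ (Ch A ∅ G (fun _ => (1 : Unit)) (i + 1)).map (bd V Unit) := by
    rw [h3]
    exact ⟨hx, hx0⟩
  exact h4

private theorem sph_top {m : ℕ} {A : Finset V} (h : Sph m A G)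
    (hA : ∀ X : Finset V, X ⊆ A → G.IsClique (X : Set V) → X.card ≤ m) :
    ∃ z ∈ Ch A ∅ G (fun _ => (1 : Unit)) m, bd V Unit z = 0 ∧ z ≠ 0 ∧
      ∀ x ∈ Ch A ∅ G (fun _ => (1 : Unit)) m, bd V Unit x = 0 → x ≠ 0 → x = z := by
  have h1 := h m
  rw [if_pos rfl, bt] at h1
  have h2 : Ch A ∅ G (fun _ => (1 : Unit)) ((m : ℤ) + 1) = ⊥ := by
    rw [eq_bot_iff]
    intro f hf
    rw [Submodule.mem_bot]
    funext T
    refine hf.1 T ?_
    rintro ⟨h3, h4, h5⟩
    have h6 := hA T h3 h4
    omega
  rw [h2, Submodule.map_bot, finrank_bot, Nat.sub_zero] at h1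
  obtain ⟨⟨z, hz1, hz2⟩, hz3, hz4⟩ := finrank_eq_one_iff'.1 h1
  refine ⟨z, hz1, hz2, fun h3 => hz3 (Subtype.ext h3), fun x hx hx0 hx1 => ?_⟩
  obtain ⟨c, hc⟩ := hz4 ⟨x, hx, hx0⟩
  have hc2 : c • z = x := congrArg Subtype.val hc
  rcases db_01 c with h3 | h3
  · rw [h3, zero_smul] at hc2
    exact absurd hc2.symm hx1
  · rw [h3, one_smul] at hc2
    exact hc2.symm

private theorem cl_le {n : ℕ} (hG : Gor n S G) {U : Finset V} (h1 : U ⊆ S)
    (h2 : G.IsClique (U : Set V)) : U.card ≤ n := by
  obtain ⟨m, hm, _⟩ := hG U h1 h2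
  omega

private theorem lks_un {T X : Finset V} (hT : T ⊆ S) (hT2 : G.IsClique (T : Set V))
    (hX : X ⊆ lks S G T) (hX2 : G.IsClique (X : Set V)) :
    T ∪ X ⊆ S ∧ G.IsClique ((T ∪ X : Finset V) : Set V) ∧ Disjoint T X := by
  refine ⟨Finset.union_subset hT (fun x hx => (mem_lks.1 (hX hx)).1), ?_, ?_⟩
  · intro a ha b hb hab
    rw [Finset.mem_coe, Finset.mem_union] at ha hb
    rcases ha with ha | ha
    · rcases hb with hb | hb
      · exact hT2 (Finset.mem_coe.2 ha) (Finset.mem_coe.2 hb) hab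
      · exact (mem_lks.1 (hX hb)).2 a ha
    · rcases hb with hb | hb
      · exact ((mem_lks.1 (hX ha)).2 b hb).symm
      · exact hX2 (Finset.mem_coe.2 ha) (Finset.mem_coe.2 hb) hab
  · rw [Finset.disjoint_left]
    intro a ha hb
    exact G.loopless.irrefl a ((mem_lks.1 (hX hb)).2 a ha)

private theorem lks_sub {T X : Finset V} (h1 : T ∪ X ⊆ S)
    (h2 : G.IsClique ((T ∪ X : Finset V) : Set V)) (h3 : Disjoint T X) :
    X ⊆ lks S G T ∧ G.IsClique (X : Set V) := by
  refine ⟨fun x hx => mem_lks.2 ⟨h1 (Finset.mem_union_right T hx), fun t ht => ?_⟩,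
    h2.subset (Finset.coe_subset.2 Finset.subset_union_right)⟩
  refine h2 (Finset.mem_coe.2 (Finset.mem_union_left X ht))
    (Finset.mem_coe.2 (Finset.mem_union_right T hx)) ?_
  rintro rfl
  exact Finset.disjoint_left.1 h3 ht hx

private theorem lk_le {n : ℕ} (hG : Gor n S G) {T : Finset V} (hT : T ⊆ S)
    (hT2 : G.IsClique (T : Set V)) {m : ℕ} (hm : m + T.card = n) (X : Finset V)
    (hX : X ⊆ lks S G T) (hX2 : G.IsClique (X : Set V)) : X.card ≤ m := by
  obtain ⟨h1, h2, h3⟩ := lks_un hT hT2 hX hX2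
  have h4 := cl_le hG h1 h2
  rw [Finset.card_union_of_disjoint h3] at h4
  omega

private theorem ex_top {n : ℕ} (hG : Gor n S G) {T : Finset V} (hT : T ⊆ S)
    (hT2 : G.IsClique (T : Set V)) :
    ∃ U : Finset V, T ⊆ U ∧ U ⊆ S ∧ G.IsClique (U : Set V) ∧ U.card = n := by
  obtain ⟨m, hm, hs⟩ := hG T hT hT2
  obtain ⟨z, hz1, hz2, hz3, _⟩ := sph_top hs (lk_le hG hT hT2 hm)
  have h1 : ∃ X, ∃ u, z X u ≠ 0 := by
    by_contra h
    push Not at h
    exact hz3 (funext fun X => funext fun u => h X u)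
  obtain ⟨X, u, hX⟩ := h1
  have h2 : X ⊆ lks S G T ∧ G.IsClique (X : Set V) ∧ (X.card : ℤ) = m := by
    by_contra h
    exact hX (congrFun (hz1.1 X h) u)
  obtain ⟨h3, h4, h5⟩ := h2
  obtain ⟨h6, h7, h8⟩ := lks_un hT hT2 h3 h4
  refine ⟨T ∪ X, Finset.subset_union_left, h6, h7, ?_⟩
  rw [Finset.card_union_of_disjoint h8]
  omega

/-- The chain with value one at the vertex `a`. -/
private def dl (a : V) : Finset V → Unit → ZMod 2 := fun X _ => if X = {a} then 1 else 0

private theorem dl_bd (a : V) (T : Finset V) (u : Unit) :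
    bd V Unit (dl a) T u = if T = ∅ then 1 else 0 := by
  change ∑ s ∈ Tᶜ, (if insert s T = {a} then (1 : ZMod 2) else 0) = _
  by_cases h : T = ∅
  · subst h
    rw [if_pos rfl, Finset.sum_eq_single a]
    · rw [if_pos (by simp)]
    · intro b _ hb
      rw [if_neg]
      intro h2
      apply hb
      have h3 : b ∈ ({a} : Finset V) := by
        rw [← h2]
        exact Finset.mem_insert_self b ∅
      exact Finset.mem_singleton.1 h3
    · intro h2
      exact absurd (Finset.mem_compl.2 (Finset.notMem_empty a)) h2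
  · rw [if_neg h]
    refine Finset.sum_eq_zero fun s hs => ?_
    rw [Finset.mem_compl] at hs
    rw [if_neg]
    intro h2
    have h3 := congrArg Finset.card h2
    rw [Finset.card_insert_of_notMem hs, Finset.card_singleton] at h3
    exact h (Finset.card_eq_zero.1 (by omega))

private theorem dl_mem {A : Finset V} {a : V} (ha : a ∈ A) :
    dl a ∈ Ch A ∅ G (fun _ => (1 : Unit)) ((1 : ℕ) : ℤ) := by
  refine ⟨fun T hT => ?_, fun _ _ _ _ => rfl⟩
  funext u
  change (if T = {a} then (1 : ZMod 2) else 0) = 0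
  rw [if_neg]
  rintro rfl
  apply hT
  refine ⟨Finset.singleton_subset_iff.2 ha, ?_, by simp⟩
  rw [Finset.coe_singleton]
  exact Set.pairwise_singleton _ _

private theorem even_lks {n : ℕ} (hG : Gor n S G) {U : Finset V} (h1 : U ⊆ S)
    (h2 : G.IsClique (U : Set V)) (h3 : U.card + 1 = n) : ((lks S G U).card : ZMod 2) = 0 := by
  obtain ⟨m, hm, hs⟩ := hG U h1 h2
  have hm1 : m = 1 := by omega
  subst hm1
  obtain ⟨z, hz1, hz2, hz3, hz4⟩ := sph_top hs (lk_le hG h1 h2 hm)
  have hb : ∃ b ∈ lks S G U, z {b} () ≠ 0 := by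
    have h4 : ∃ X, ∃ u, z X u ≠ 0 := by
      by_contra h
      push Not at h
      exact hz3 (funext fun X => funext fun u => h X u)
    obtain ⟨X, u, hX⟩ := h4
    have h5 : X ⊆ lks S G U ∧ G.IsClique (X : Set V) ∧ (X.card : ℤ) = (1 : ℕ) := by
      by_contra h
      exact hX (congrFun (hz1.1 X h) u)
    obtain ⟨h6, _, h7⟩ := h5
    obtain ⟨b, rfl⟩ := Finset.card_eq_one.1 (by exact_mod_cast h7 : X.card = 1)
    exact ⟨b, Finset.singleton_subset_iff.1 h6, hX⟩
  obtain ⟨b, hbA, hb⟩ := hb
  have hone : ∀ a ∈ lks S G U, z {a} () = 1 := by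
    intro a ha
    rcases db_01 (z {a} ()) with h | h
    · exfalso
      have hab : a ≠ b := by
        rintro rfl
        exact hb h
      have h4 : dl a + dl b = z := by
        refine hz4 _ (Submodule.add_mem _ (dl_mem ha) (dl_mem hbA)) ?_ ?_
        · rw [map_add]
          funext T u
          rw [Pi.add_apply, Pi.add_apply, dl_bd, dl_bd]
          exact db_aa _
        · intro h5
          have h6 := congrFun (congrFun h5 {a}) ()
          change (if ({a} : Finset V) = {a} then (1 : ZMod 2) else 0) +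
            (if ({a} : Finset V) = {b} then (1 : ZMod 2) else 0) = 0 at h6
          rw [if_pos rfl, if_neg (fun h7 => hab (Finset.singleton_injective h7)), add_zero] at h6
          exact one_ne_zero h6
      have h6 := congrFun (congrFun h4 {a}) ()
      rw [h] at h6
      change (if ({a} : Finset V) = {a} then (1 : ZMod 2) else 0) +
        (if ({a} : Finset V) = {b} then (1 : ZMod 2) else 0) = 0 at h6
      rw [if_pos rfl, if_neg (fun h7 => hab (Finset.singleton_injective h7)), add_zero] at h6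
      exact one_ne_zero h6
    · exact h
  have h4 := congrFun (congrFun hz2 ∅) ()
  change ∑ s ∈ (∅ : Finset V)ᶜ, z (insert s ∅) () = 0 at h4
  rw [← h4, ← nsmul_one, ← Finset.sum_const]
  refine (Finset.sum_congr rfl (fun a ha => (hone a ha).symm)).trans ?_
  refine Finset.sum_subset (fun a _ => Finset.mem_compl.2 (Finset.notMem_empty a)) ?_
  intro a _ ha
  refine congrFun (hz1.1 {a} ?_) ()
  rintro ⟨h5, _⟩
  exact ha (Finset.singleton_subset_iff.1 h5)

open Classical in
/-- The sum of all simplices with `k` elements in the link of `T`. -/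
private noncomputable def onek (S : Finset V) (G : SimpleGraph V) (T : Finset V) (k : ℕ) :
    Finset V → Unit → ZMod 2 :=
  fun X _ => if X ⊆ lks S G T ∧ G.IsClique (X : Set V) ∧ X.card = k then 1 else 0

private theorem onek_pos {T X : Finset V} {k : ℕ}
    (h : X ⊆ lks S G T ∧ G.IsClique (X : Set V) ∧ X.card = k) (u : Unit) :
    onek S G T k X u = 1 := by
  classical exact if_pos h

private theorem onek_neg {T X : Finset V} {k : ℕ}
    (h : ¬ (X ⊆ lks S G T ∧ G.IsClique (X : Set V) ∧ X.card = k)) (u : Unit) :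
    onek S G T k X u = 0 := by
  classical exact if_neg h

private theorem onek_bd {n : ℕ} (hG : Gor n S G) {T : Finset V} (hT : T ⊆ S)
    (hT2 : G.IsClique (T : Set V)) {k : ℕ} (hk : k + T.card = n) :
    bd V Unit (onek S G T k) = 0 := by
  funext X u
  change ∑ s ∈ Xᶜ, onek S G T k (insert s X) u = 0
  by_cases h : X ⊆ lks S G T ∧ G.IsClique (X : Set V) ∧ X.card + 1 = k
  · obtain ⟨h1, h2, h3⟩ := h
    obtain ⟨h4, h5, h6⟩ := lks_un hT hT2 h1 h2
    have h7 := even_lks hG h4 h5 (by rw [Finset.card_union_of_disjoint h6]; omega)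
    rw [← h7, ← nsmul_one, ← Finset.sum_const]
    symm
    have e0 : ∀ s ∈ lks S G (T ∪ X), (1 : ZMod 2) = onek S G T k (insert s X) u := by
      intro s hs
      rw [mem_lks] at hs
      have hsX : s ∉ X := fun h8 =>
        G.loopless.irrefl s (hs.2 s (Finset.mem_union_right T h8))
      refine (onek_pos ⟨?_, ?_, ?_⟩ u).symm
      · intro x hx
        rcases Finset.mem_insert.1 hx with rfl | hx
        · exact mem_lks.2 ⟨hs.1, fun t ht => hs.2 t (Finset.mem_union_left X ht)⟩
        · exact h1 hx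
      · rw [Finset.coe_insert]
        exact h2.insert fun b hb _ => (hs.2 b (Finset.mem_union_right T hb)).symm
      · rw [Finset.card_insert_of_notMem hsX]
        exact h3
    rw [Finset.sum_congr rfl e0]
    refine Finset.sum_subset ?_ ?_
    · intro s hs
      rw [Finset.mem_compl]
      intro h8
      exact G.loopless.irrefl s ((mem_lks.1 hs).2 s (Finset.mem_union_right T h8))
    · intro s hs hs2
      refine onek_neg ?_ u
      rintro ⟨h8, h9, _⟩
      apply hs2
      rw [mem_lks]
      have h10 := mem_lks.1 (h8 (Finset.mem_insert_self s X))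
      refine ⟨h10.1, fun t ht => ?_⟩
      rcases Finset.mem_union.1 ht with ht | ht
      · exact h10.2 t ht
      · refine h9 (Finset.mem_coe.2 (Finset.mem_insert_of_mem ht))
          (Finset.mem_coe.2 (Finset.mem_insert_self s X)) ?_
        rintro rfl
        exact (Finset.mem_compl.1 hs) ht
  · refine Finset.sum_eq_zero fun s hs => onek_neg ?_ u
    rw [Finset.mem_compl] at hs
    rintro ⟨h1, h2, h3⟩
    apply h
    refine ⟨(Finset.subset_insert s X).trans h1, h2.subset (by simp), ?_⟩
    rwa [Finset.card_insert_of_notMem hs] at h3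

private theorem top_const {n : ℕ} (hG : Gor n S G) {T : Finset V} (hT : T ⊆ S)
    (hT2 : G.IsClique (T : Set V)) {k : ℕ} (hk : k + T.card = n) {x : Finset V → Unit → ZMod 2}
    (hx : x ∈ Ch (lks S G T) ∅ G (fun _ => (1 : Unit)) k) (hx0 : bd V Unit x = 0)
    {X Y : Finset V} (hX : X ⊆ lks S G T ∧ G.IsClique (X : Set V) ∧ X.card = k)
    (hY : Y ⊆ lks S G T ∧ G.IsClique (Y : Set V) ∧ Y.card = k) : x X () = x Y () := by
  obtain ⟨m, hm, hs⟩ := hG T hT hT2
  have hmk : m = k := by omega
  subst hmk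
  obtain ⟨z, hz1, hz2, hz3, hz4⟩ := sph_top hs (lk_le hG hT hT2 hm)
  have h1 : onek S G T m = z := by
    refine hz4 _ ⟨fun X hX => ?_, fun _ _ _ _ => rfl⟩ (onek_bd hG hT hT2 hk) ?_
    · funext u
      refine onek_neg ?_ u
      rintro ⟨h2, h3, h4⟩
      exact hX ⟨h2, h3, by exact_mod_cast h4⟩
    · intro h2
      have h3 := congrFun (congrFun h2 X) ()
      rw [onek_pos hX] at h3
      exact one_ne_zero h3
  by_cases h2 : x = 0
  · rw [h2]
    rfl
  · rw [hz4 x hx hx0 h2, ← h1, onek_pos hX, onek_pos hY]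

/-! ### The map `β` -/

open Classical in
/-- The map `β`. -/
private noncomputable def be0 (P : Type) (S : Finset V) (G : SimpleGraph V) (n : ℕ) :
    (Finset V → P → ZMod 2) →ₗ[ZMod 2] (Finset V → Finset V → P → ZMod 2) where
  toFun h := fun T U g =>
    if T ⊆ U ∧ U ⊆ S ∧ G.IsClique (U : Set V) ∧ U.card = n then h T g else 0
  map_add' e f := by
    funext T U g
    by_cases h : T ⊆ U ∧ U ⊆ S ∧ G.IsClique (U : Set V) ∧ U.card = n
    · simp only [Pi.add_apply, if_pos h]
    · simp only [Pi.add_apply, if_neg h, add_zero]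
  map_smul' c e := by
    funext T U g
    by_cases h : T ⊆ U ∧ U ⊆ S ∧ G.IsClique (U : Set V) ∧ U.card = n
    · simp only [Pi.smul_apply, smul_eq_mul, RingHom.id_apply, if_pos h]
    · simp only [Pi.smul_apply, smul_eq_mul, RingHom.id_apply, if_neg h, mul_zero]

private theorem be0_pos {n : ℕ} {T U : Finset V}
    (h : T ⊆ U ∧ U ⊆ S ∧ G.IsClique (U : Set V) ∧ U.card = n) (f : Finset V → P → ZMod 2) (g : P) :
    be0 P S G n f T U g = f T g := by
  classical exact if_pos h

private theorem be0_neg {n : ℕ} {T U : Finset V}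
    (h : ¬ (T ⊆ U ∧ U ⊆ S ∧ G.IsClique (U : Set V) ∧ U.card = n)) (f : Finset V → P → ZMod 2)
    (g : P) : be0 P S G n f T U g = 0 := by
  classical exact if_neg h

private theorem be0_mem {n : ℕ} {k j : ℤ} (hkj : (n : ℤ) - k = j) {f : Finset V → P → ZMod 2}
    (hf : f ∈ Ch S ∅ G p k) : be0 P S G n f ∈ E2 S G p j := by
  refine ⟨fun T U hT => ?_, fun T U s hs g => ?_⟩
  · funext g
    by_cases h : T ⊆ U ∧ U ⊆ S ∧ G.IsClique (U : Set V) ∧ U.card = n
    · rw [be0_pos h, hf.1 T]
      · rintro ⟨_, _, h3⟩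
        apply hT
        refine ⟨h.1, h.2.1, h.2.2.1, ?_⟩
        rw [h.2.2.2, h3]
        exact hkj
    · rw [be0_neg h]
      rfl
  · by_cases h : T ⊆ U ∧ U ⊆ S ∧ G.IsClique (U : Set V) ∧ U.card = n
    · rw [be0_pos h, be0_pos h, hf.2 T s (Finset.mem_union_left _ hs)]
    · rw [be0_neg h, be0_neg h]

private theorem be0_inj {n : ℕ} (hG : Gor n S G) {k : ℤ} {f : Finset V → P → ZMod 2}
    (hf : f ∈ Ch S ∅ G p k) (h0 : be0 P S G n f = 0) : f = 0 := by
  funext T
  by_cases h : T ⊆ S ∧ G.IsClique (T : Set V) ∧ (T.card : ℤ) = k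
  · obtain ⟨U, h1, h2, h3, h4⟩ := ex_top hG h.1 h.2.1
    funext g
    rw [← be0_pos ⟨h1, h2, h3, h4⟩ f g, h0]
    rfl
  · exact hf.1 T h

private theorem e1_be0 {n : ℕ} (hG : Gor n S G) (f : Finset V → P → ZMod 2) :
    e1 V P (be0 P S G n f) = 0 := by
  funext T U g
  by_cases hTU : T ⊆ U
  · rw [db_e1 _ hTU]
    by_cases h : U ⊆ S ∧ G.IsClique (U : Set V) ∧ U.card + 1 = n
    · obtain ⟨h1, h2, h3⟩ := h
      have h7 := even_lks hG h1 h2 h3
      have h8 : ∑ s ∈ lks S G U, f T g = 0 := by
        rw [Finset.sum_const, nsmul_eq_mul, h7, zero_mul]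
      refine Eq.trans ?_ h8
      symm
      have e0 : ∀ s ∈ lks S G U, f T g = be0 P S G n f T (insert s U) g := by
        intro s hs
        rw [mem_lks] at hs
        have hsU : s ∉ U := fun h9 => G.loopless.irrefl s (hs.2 s h9)
        refine (be0_pos ⟨hTU.trans (Finset.subset_insert s U), ?_, ?_, ?_⟩ f g).symm
        · exact Finset.insert_subset hs.1 h1
        · rw [Finset.coe_insert]
          exact h2.insert fun b hb _ => (hs.2 b hb).symm
        · rw [Finset.card_insert_of_notMem hsU]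
          exact h3
      rw [Finset.sum_congr rfl e0]
      refine Finset.sum_subset ?_ ?_
      · intro s hs
        rw [Finset.mem_compl]
        intro h9
        exact G.loopless.irrefl s ((mem_lks.1 hs).2 s h9)
      · intro s hs hs2
        refine be0_neg ?_ f g
        rintro ⟨_, h9, h10, _⟩
        apply hs2
        rw [mem_lks]
        refine ⟨h9 (Finset.mem_insert_self s U), fun t ht => ?_⟩
        refine h10 (Finset.mem_coe.2 (Finset.mem_insert_of_mem ht))
          (Finset.mem_coe.2 (Finset.mem_insert_self s U)) ?_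
        rintro rfl
        exact (Finset.mem_compl.1 hs) ht
    · refine Finset.sum_eq_zero fun s hs => be0_neg ?_ f g
      rw [Finset.mem_compl] at hs
      rintro ⟨_, h1, h2, h3⟩
      apply h
      refine ⟨(Finset.subset_insert s U).trans h1, h2.subset (by simp), ?_⟩
      rwa [Finset.card_insert_of_notMem hs] at h3
  · rw [db_e1n _ hTU]
    rfl

private theorem e2_be0 {n : ℕ} (f : Finset V → P → ZMod 2) :
    e2 p (be0 P S G n f) = be0 P S G n (cb S G p f) := by
  funext T U g
  by_cases hTU : T ⊆ U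
  · rw [db_e2 _ _ hTU]
    by_cases h : U ⊆ S ∧ G.IsClique (U : Set V) ∧ U.card = n
    · rw [be0_pos ⟨hTU, h⟩]
      have h1 : T ⊆ S ∧ G.IsClique (T : Set V) :=
        ⟨hTU.trans h.1, h.2.1.subset (Finset.coe_subset.2 hTU)⟩
      have h2 : cb S G p f T g = ∑ s ∈ T, (f (T.erase s) g + f (T.erase s) (g * p s)) :=
        if_pos h1
      rw [h2]
      refine Finset.sum_congr rfl fun s _ => ?_
      have h3 : T.erase s ⊆ U := (Finset.erase_subset s T).trans hTU
      rw [be0_pos ⟨h3, h⟩, be0_pos ⟨h3, h⟩]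
    · rw [be0_neg (fun h1 => h h1.2)]
      refine Finset.sum_eq_zero fun s _ => ?_
      rw [be0_neg (fun h1 => h h1.2), be0_neg (fun h1 => h h1.2), add_zero]
  · rw [db_e2n _ _ hTU, be0_neg (fun h1 => hTU h1.1)]

private theorem eD_be0 {n : ℕ} (hG : Gor n S G) (f : Finset V → P → ZMod 2) :
    eD p (be0 P S G n f) = be0 P S G n (cb S G p f) := by
  change e1 V P (be0 P S G n f) + e2 p (be0 P S G n f) = _
  rw [e1_be0 hG, e2_be0, zero_add]

/-! ### Restriction to the link -/

/-- The chain of the link of `T` given by `e` and `g`. -/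
private def rs (e : Finset V → Finset V → P → ZMod 2) (T : Finset V) (g : P) :
    Finset V → Unit → ZMod 2 :=
  fun X _ => if Disjoint T X then e T (T ∪ X) g else 0

private theorem rs_mem {j : ℤ} {e : Finset V → Finset V → P → ZMod 2} (he : e ∈ E2 S G p j)
    (T : Finset V) (g : P) : rs e T g ∈ Ch (lks S G T) ∅ G (fun _ => (1 : Unit)) j := by
  refine ⟨fun X hX => ?_, fun _ _ _ _ => rfl⟩
  funext u
  by_cases h : Disjoint T X
  · change (if Disjoint T X then e T (T ∪ X) g else 0) = 0
    rw [if_pos h, he.1 T (T ∪ X)]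
    · rfl
    · rintro ⟨_, h2, h3, h4⟩
      apply hX
      obtain ⟨h5, h6⟩ := lks_sub h2 h3 h
      refine ⟨h5, h6, ?_⟩
      rw [Finset.card_union_of_disjoint h] at h4
      push_cast at h4
      linarith
  · exact if_neg h

private theorem rs_bd {e : Finset V → Finset V → P → ZMod 2} {T : Finset V} {g : P}
    (h : ∀ U, T ⊆ U → e1 V P e T U g = 0) : bd V Unit (rs e T g) = 0 := by
  funext X u
  change ∑ s ∈ Xᶜ, (if Disjoint T (insert s X) then e T (T ∪ insert s X) g else 0) = 0
  by_cases hX : Disjoint T X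
  · have h1 := h (T ∪ X) Finset.subset_union_left
    rw [db_e1 _ Finset.subset_union_left] at h1
    refine Eq.trans ?_ h1
    symm
    have e0 : ∀ s ∈ (T ∪ X)ᶜ, e T (insert s (T ∪ X)) g =
        if Disjoint T (insert s X) then e T (T ∪ insert s X) g else 0 := by
      intro s hs
      rw [Finset.mem_compl, Finset.mem_union, not_or] at hs
      rw [if_pos (Finset.disjoint_insert_right.2 ⟨hs.1, hX⟩), Finset.union_insert]
    rw [Finset.sum_congr rfl e0]
    refine Finset.sum_subset ?_ ?_
    · exact Finset.compl_subset_compl.2 Finset.subset_union_right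
    · intro s hs hs2
      rw [if_neg]
      intro h3
      apply hs2
      rw [Finset.mem_compl, Finset.mem_union, not_or]
      exact ⟨(Finset.disjoint_insert_right.1 h3).1, Finset.mem_compl.1 hs⟩
  · refine Finset.sum_eq_zero fun s _ => if_neg ?_
    intro h3
    exact hX (Finset.disjoint_insert_right.1 h3).2

private theorem e2_low {e : Finset V → Finset V → P → ZMod 2} {T : Finset V}
    (h : ∀ s ∈ T, e (T.erase s) = 0) (U : Finset V) (g : P) : e2 p e T U g = 0 := by
  by_cases hTU : T ⊆ U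
  · rw [db_e2 _ _ hTU]
    refine Finset.sum_eq_zero fun s hs => ?_
    rw [h s hs]
    exact add_zero _
  · exact db_e2n _ _ hTU g

private theorem e1_low {e : Finset V → Finset V → P → ZMod 2} {T : Finset V}
    (h : e T = 0) (U : Finset V) (g : P) : e1 V P e T U g = 0 := by
  by_cases hTU : T ⊆ U
  · rw [db_e1 _ hTU]
    refine Finset.sum_eq_zero fun s hs => ?_
    rw [h]
    rfl
  · exact db_e1n _ hTU g

private theorem e1_zero_of {e : Finset V → Finset V → P → ZMod 2} (he : eD p e = 0) {T : Finset V}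
    (h : ∀ s ∈ T, e (T.erase s) = 0) (U : Finset V) (g : P) : e1 V P e T U g = 0 := by
  have h1 := congrFun (congrFun (congrFun he T) U) g
  change e1 V P e T U g + e2 p e T U g = 0 at h1
  rwa [e2_low h, add_zero] at h1

private theorem stepB {n : ℕ} (hG : Gor n S G) (hp : IsDat S G p) {j : ℤ}
    {e : Finset V → Finset V → P → ZMod 2} (he : e ∈ E2 S G p j) (he0 : eD p e = 0) (r : ℕ) :
    (r : ℤ) ≤ n - j → ∃ w ∈ E2 S G p (j + 1), ∀ T : Finset V, T.card < r → (e + eD p w) T = 0 := by
  induction r with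
  | zero =>
    intro _
    exact ⟨0, Submodule.zero_mem _, fun T hT => absurd hT (Nat.not_lt_zero _)⟩
  | succ r ih =>
    intro hr
    push_cast at hr
    obtain ⟨w, hw, hw0⟩ := ih (by linarith)
    have he' : e + eD p w ∈ E2 S G p j := Submodule.add_mem _ he (eD_mem hp hw)
    have he'0 : eD p (e + eD p w) = 0 := by
      rw [map_add, he0, eD_eD hp hw, add_zero]
    have heq : ∀ w' : Finset V → Finset V → P → ZMod 2,
        e + eD p (w + w') = (e + eD p w) + eD p w' := by
      intro w'
      rw [map_add, add_assoc]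
    generalize e + eD p w = e' at hw0 he' he'0 heq
    have hlow : ∀ T : Finset V, T.card = r → ∀ s ∈ T, e' (T.erase s) = 0 := by
      intro T hT s hs
      apply hw0
      rw [Finset.card_erase_of_mem hs]
      have := Finset.card_pos.2 ⟨s, hs⟩
      omega
    have hc : ∀ (T : Finset V) (x : Finset V → Unit → ZMod 2),
        ∃ y : Finset V → Unit → ZMod 2, (T ⊆ S ∧ G.IsClique (T : Set V) ∧ T.card = r ∧
          x ∈ Ch (lks S G T) ∅ G (fun _ => (1 : Unit)) j ∧ bd V Unit x = 0) →
          y ∈ Ch (lks S G T) ∅ G (fun _ => (1 : Unit)) (j + 1) ∧ bd V Unit y = x := by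
      intro T x
      by_cases h : T ⊆ S ∧ G.IsClique (T : Set V) ∧ T.card = r ∧
          x ∈ Ch (lks S G T) ∅ G (fun _ => (1 : Unit)) j ∧ bd V Unit x = 0
      · obtain ⟨h1, h2, h3, h4, h5⟩ := h
        obtain ⟨m, hm, hs⟩ := hG T h1 h2
        have hjm : j ≠ m := by
          rintro rfl
          omega
        obtain ⟨y, hy, hy0⟩ := sph_exact hs hjm h4 h5
        exact ⟨y, fun _ => ⟨hy, hy0⟩⟩
      · exact ⟨0, fun h1 => absurd h1 h⟩
    choose c hc using hc
    classical
    obtain ⟨w', hw'⟩ : ∃ w' : Finset V → Finset V → P → ZMod 2, w' = fun T U g =>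
        if T ⊆ S ∧ G.IsClique (T : Set V) ∧ T.card = r ∧ T ⊆ U then c T (rs e' T g) (U \ T) ()
        else 0 := ⟨_, rfl⟩
    have hpos : ∀ T U : Finset V, ∀ g, (T ⊆ S ∧ G.IsClique (T : Set V) ∧ T.card = r ∧ T ⊆ U) →
        w' T U g = c T (rs e' T g) (U \ T) () := by
      intro T U g h
      rw [hw']
      exact if_pos h
    have hneg : ∀ T U : Finset V, ∀ g, ¬ (T ⊆ S ∧ G.IsClique (T : Set V) ∧ T.card = r ∧ T ⊆ U) →
        w' T U g = 0 := by
      intro T U g h
      rw [hw']
      exact if_neg h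
    clear hw'
    have hcc : ∀ (T : Finset V) (g : P), T ⊆ S → G.IsClique (T : Set V) → T.card = r →
        c T (rs e' T g) ∈ Ch (lks S G T) ∅ G (fun _ => (1 : Unit)) (j + 1) ∧
          bd V Unit (c T (rs e' T g)) = rs e' T g := fun T g h1 h2 h3 =>
      hc T _ ⟨h1, h2, h3, rs_mem he' T g, rs_bd fun U _ => e1_zero_of he'0 (hlow T h3) U g⟩
    have hw'mem : w' ∈ E2 S G p (j + 1) := by
      refine ⟨fun T U hTU => ?_, fun T U s hs g => ?_⟩
      · funext g
        by_cases h : T ⊆ S ∧ G.IsClique (T : Set V) ∧ T.card = r ∧ T ⊆ U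
        · rw [hpos T U g h]
          refine congrFun ((hcc T g h.1 h.2.1 h.2.2.1).1.1 (U \ T) ?_) ()
          rintro ⟨h1, h2, h3⟩
          apply hTU
          obtain ⟨h4, h5, h6⟩ := lks_un h.1 h.2.1 h1 h2
          rw [Finset.union_sdiff_of_subset h.2.2.2] at h4 h5
          refine ⟨h.2.2.2, h4, h5, ?_⟩
          rw [← h3, Finset.card_sdiff_of_subset h.2.2.2, Nat.cast_sub (Finset.card_le_card h.2.2.2)]
        · exact hneg T U g h
      · have h1 : rs e' T (g * p s) = rs e' T g := by
          funext X u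
          change (if Disjoint T X then e' T (T ∪ X) (g * p s) else 0) =
            if Disjoint T X then e' T (T ∪ X) g else 0
          rw [he'.2 T (T ∪ X) s hs g]
        by_cases h : T ⊆ S ∧ G.IsClique (T : Set V) ∧ T.card = r ∧ T ⊆ U
        · rw [hpos T U _ h, hpos T U _ h, h1]
        · rw [hneg T U _ h, hneg T U _ h]
    have hw'low : ∀ T : Finset V, T.card ≠ r → w' T = 0 := by
      intro T hT
      funext U g
      exact hneg T U g fun h => hT h.2.2.1
    refine ⟨w + w', Submodule.add_mem _ hw hw'mem, fun T hT => ?_⟩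
    rw [heq]
    funext U g
    change e' T U g + (e1 V P w' T U g + e2 p w' T U g) = 0
    have h2 : e2 p w' T U g = 0 := by
      refine e2_low (fun s hs => hw'low _ ?_) U g
      rw [Finset.card_erase_of_mem hs]
      have := Finset.card_pos.2 ⟨s, hs⟩
      omega
    rw [h2, add_zero]
    by_cases hTr : T.card = r
    · have h3 : e1 V P w' T U g = e' T U g := by
        by_cases hTU : T ⊆ U
        · by_cases hTc : T ⊆ S ∧ G.IsClique (T : Set V)
          · rw [db_e1 _ hTU]
            have h4 := congrFun (congrFun (hcc T g hTc.1 hTc.2 hTr).2 (U \ T)) ()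
            change ∑ s ∈ (U \ T)ᶜ, c T (rs e' T g) (insert s (U \ T)) () =
              (if Disjoint T (U \ T) then e' T (T ∪ (U \ T)) g else 0) at h4
            rw [if_pos Finset.disjoint_sdiff, Finset.union_sdiff_of_subset hTU] at h4
            rw [← h4]
            have e0 : ∀ s ∈ Uᶜ, w' T (insert s U) g = c T (rs e' T g) (insert s (U \ T)) () := by
              intro s hs
              rw [Finset.mem_compl] at hs
              rw [hpos T _ g ⟨hTc.1, hTc.2, hTr, hTU.trans (Finset.subset_insert s U)⟩,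
                Finset.insert_sdiff_of_notMem U (fun h5 => hs (hTU h5))]
            rw [Finset.sum_congr rfl e0]
            refine Finset.sum_subset ?_ ?_
            · intro s hs
              rw [Finset.mem_compl] at hs ⊢
              exact fun h5 => hs (Finset.mem_sdiff.1 h5).1
            · intro s hs hs2
              rw [Finset.mem_compl, Finset.mem_sdiff, not_and, not_not] at hs
              rw [Finset.mem_compl, not_not] at hs2
              refine congrFun ((hcc T g hTc.1 hTc.2 hTr).1.1 _ ?_) ()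
              rintro ⟨h5, _, _⟩
              exact G.loopless.irrefl s
                ((mem_lks.1 (h5 (Finset.mem_insert_self s _))).2 s (hs hs2))
          · rw [e1_low (by
              funext U g
              exact hneg T U g fun h => hTc ⟨h.1, h.2.1⟩), he'.1 T U]
            · rfl
            · rintro ⟨h5, h6, h7, _⟩
              exact hTc ⟨h5.trans h6, h7.subset (Finset.coe_subset.2 h5)⟩
        · rw [db_e1n _ hTU, he'.1 T U (fun h => hTU h.1)]
          rfl
      rw [h3]
      exact db_aa _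
    · rw [e1_low (hw'low T hTr), add_zero, hw0 T (by omega)]
      rfl

private theorem cyc {n : ℕ} (hG : Gor n S G) (hp : IsDat S G p) {j : ℤ}
    {e : Finset V → Finset V → P → ZMod 2} (he : e ∈ E2 S G p j) (he0 : eD p e = 0) :
    ∃ h ∈ Ch S ∅ G p (n - j), cb S G p h = 0 ∧
      ∃ w ∈ E2 S G p (j + 1), e = be0 P S G n h + eD p w := by
  by_cases hj : (n : ℤ) - j < 0
  · have h0 : e = 0 := by
      funext T U
      refine he.1 T U ?_
      rintro ⟨_, h2, h3, h4⟩
      have h5 := cl_le hG h2 h3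
      omega
    refine ⟨0, Submodule.zero_mem _, map_zero _, 0, Submodule.zero_mem _, ?_⟩
    rw [h0, map_zero, map_zero, add_zero]
  · push Not at hj
    obtain ⟨r, hr⟩ := Int.eq_ofNat_of_zero_le hj
    obtain ⟨w, hw, hw0⟩ := stepB hG hp he he0 r (le_of_eq hr.symm)
    have he' : e + eD p w ∈ E2 S G p j := Submodule.add_mem _ he (eD_mem hp hw)
    have he'0 : eD p (e + eD p w) = 0 := by
      rw [map_add, he0, eD_eD hp hw, add_zero]
    have heq : e = (e + eD p w) + eD p w := by
      funext T U g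
      change e T U g = e T U g + eD p w T U g + eD p w T U g
      rw [add_assoc, db_aa, add_zero]
    generalize e + eD p w = e' at hw0 he' he'0 heq
    have hlow : ∀ T : Finset V, T.card = r → ∀ s ∈ T, e' (T.erase s) = 0 := by
      intro T hT s hs
      apply hw0
      rw [Finset.card_erase_of_mem hs]
      have := Finset.card_pos.2 ⟨s, hs⟩
      omega
    have hu : ∀ T : Finset V, ∃ U : Finset V, T ⊆ S → G.IsClique (T : Set V) →
        (T ⊆ U ∧ U ⊆ S ∧ G.IsClique (U : Set V) ∧ U.card = n) := by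
      intro T
      by_cases h : T ⊆ S ∧ G.IsClique (T : Set V)
      · obtain ⟨U, hU⟩ := ex_top hG h.1 h.2
        exact ⟨U, fun _ _ => hU⟩
      · exact ⟨∅, fun h1 h2 => absurd ⟨h1, h2⟩ h⟩
    choose u hu using hu
    classical
    obtain ⟨h, hh⟩ : ∃ h : Finset V → P → ZMod 2, h = fun T g =>
        if T ⊆ S ∧ G.IsClique (T : Set V) ∧ (T.card : ℤ) = n - j then e' T (u T) g else 0 :=
      ⟨_, rfl⟩
    have hpos : ∀ T g, (T ⊆ S ∧ G.IsClique (T : Set V) ∧ (T.card : ℤ) = n - j) →
        h T g = e' T (u T) g := by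
      intro T g h1
      rw [hh]
      exact if_pos h1
    have hneg : ∀ T g, ¬ (T ⊆ S ∧ G.IsClique (T : Set V) ∧ (T.card : ℤ) = n - j) →
        h T g = 0 := by
      intro T g h1
      rw [hh]
      exact if_neg h1
    clear hh
    have hmem : h ∈ Ch S ∅ G p (n - j) := by
      refine ⟨fun T hT => funext fun g => hneg T g hT, fun T s hs g => ?_⟩
      rw [Finset.union_empty] at hs
      by_cases h1 : T ⊆ S ∧ G.IsClique (T : Set V) ∧ (T.card : ℤ) = n - j
      · rw [hpos T _ h1, hpos T _ h1, he'.2 T (u T) s hs g]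
      · rw [hneg T _ h1, hneg T _ h1]
    have hval : ∀ T U : Finset V, ∀ g, T ⊆ U → U ⊆ S → G.IsClique (U : Set V) → U.card = n →
        T.card = r → e' T U g = h T g := by
      intro T U g h1 h2 h3 h4 h5
      have hT : T ⊆ S := h1.trans h2
      have hT2 : G.IsClique (T : Set V) := h3.subset (Finset.coe_subset.2 h1)
      have hT3 : (T.card : ℤ) = n - j := by
        rw [h5, hr]
      rw [hpos T g ⟨hT, hT2, hT3⟩]
      obtain ⟨m, hm, _⟩ := hG T hT hT2
      have hjm : j = (m : ℤ) := by omega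
      obtain ⟨h6, h7, h8, h9⟩ := hu T hT hT2
      have h10 : rs e' T g ∈ Ch (lks S G T) ∅ G (fun _ => (1 : Unit)) (m : ℤ) := by
        rw [← hjm]
        exact rs_mem he' T g
      have hd : ∀ W : Finset V, T ⊆ W → W ⊆ S → G.IsClique (W : Set V) → W.card = n →
          W \ T ⊆ lks S G T ∧ G.IsClique ((W \ T : Finset V) : Set V) ∧ (W \ T).card = m := by
        intro W k1 k2 k3 k4
        have k5 : T ∪ (W \ T) = W := Finset.union_sdiff_of_subset k1
        have k8 : T ∪ (W \ T) ⊆ S := by rw [k5]; exact k2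
        have k9 : G.IsClique ((T ∪ (W \ T) : Finset V) : Set V) := by rw [k5]; exact k3
        obtain ⟨k6, k7⟩ := lks_sub k8 k9 (Finset.disjoint_sdiff : Disjoint T (W \ T))
        refine ⟨k6, k7, ?_⟩
        rw [Finset.card_sdiff_of_subset k1]
        omega
      have h11 := top_const hG hT hT2 hm h10
        (rs_bd fun U _ => e1_zero_of he'0 (hlow T h5) U g)
        (hd U h1 h2 h3 h4) (hd (u T) h6 h7 h8 h9)
      change (if Disjoint T (U \ T) then e' T (T ∪ (U \ T)) g else 0) =
        (if Disjoint T (u T \ T) then e' T (T ∪ (u T \ T)) g else 0) at h11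
      rwa [if_pos Finset.disjoint_sdiff, if_pos Finset.disjoint_sdiff,
        Finset.union_sdiff_of_subset h1, Finset.union_sdiff_of_subset h6] at h11
    have hbe : be0 P S G n h = e' := by
      funext T U g
      by_cases h1 : T ⊆ U ∧ U ⊆ S ∧ G.IsClique (U : Set V) ∧ U.card = n
      · rw [be0_pos h1]
        by_cases h2 : T.card = r
        · exact (hval T U g h1.1 h1.2.1 h1.2.2.1 h1.2.2.2 h2).symm
        · rw [hneg T g, he'.1 T U]
          · rfl
          · rintro ⟨_, _, _, h6⟩
            omega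
          · rintro ⟨_, _, h6⟩
            omega
      · rw [be0_neg h1]
        symm
        by_cases h2 : T.card < r
        · rw [hw0 T h2]
          rfl
        · refine congrFun (he'.1 T U ?_) g
          rintro ⟨h3, h4, h5, h6⟩
          have h7 := cl_le hG h4 h5
          exact h1 ⟨h3, h4, h5, by omega⟩
    refine ⟨h, hmem, ?_, w, hw, ?_⟩
    · refine be0_inj hG (cb_mem hp hmem) ?_
      rw [← eD_be0 hG, hbe, he'0]
    · rw [hbe]
      exact heq

theorem dual_b {n : ℕ} (hG : Gor n S G) (hp : IsDat S G p) (j : ℤ) :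
    be (fun i => E2 S G p i) (eD p) j ≤ cbt S G p (n - j) := by
  unfold be cbt
  obtain ⟨β, hβ⟩ : ∃ β, β = be0 P S G n := ⟨_, rfl⟩
  have h1 : E2 S G p j ⊓ LinearMap.ker (eD p) ≤
      (Ch S ∅ G p (n - j) ⊓ LinearMap.ker (cb S G p)).map β ⊔ (E2 S G p (j + 1)).map (eD p) := by
    rintro e ⟨he, he0⟩
    obtain ⟨h, hh, hh0, w, hw, rfl⟩ := cyc hG hp he he0
    rw [hβ]
    exact Submodule.add_mem_sup ⟨h, ⟨hh, hh0⟩, rfl⟩ ⟨w, hw, rfl⟩
  have h2 : ((Ch S ∅ G p (n - j - 1)).map (cb S G p)).map β ≤
      (Ch S ∅ G p (n - j) ⊓ LinearMap.ker (cb S G p)).map β ⊓ (E2 S G p (j + 1)).map (eD p) := by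
    rintro _ ⟨_, ⟨f, hf, rfl⟩, rfl⟩
    refine ⟨⟨cb S G p f, ⟨?_, cb_cb hp hf⟩, rfl⟩, ⟨β f, ?_, ?_⟩⟩
    · have h3 := cb_mem hp hf
      rwa [sub_add_cancel] at h3
    · rw [hβ]
      exact be0_mem (by ring) hf
    · rw [hβ]
      exact eD_be0 hG f
  have h3 : Module.finrank (ZMod 2) ↥(((Ch S ∅ G p (n - j - 1)).map (cb S G p)).map β) =
      Module.finrank (ZMod 2) ↥((Ch S ∅ G p (n - j - 1)).map (cb S G p)) := by
    have h4 : Function.Injective (β.domRestrict ((Ch S ∅ G p (n - j - 1)).map (cb S G p))) := by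
      rw [injective_iff_map_eq_zero]
      rintro ⟨_, ⟨f, hf, rfl⟩⟩ h0
      rw [hβ] at h0
      exact Subtype.ext (be0_inj hG (cb_mem hp hf) h0)
    rw [← LinearMap.finrank_range_of_inj h4, LinearMap.range_domRestrict]
  have h4 := Submodule.finrank_mono h1
  have h5 := Submodule.finrank_mono h2
  have h6 := Submodule.finrank_sup_add_finrank_inf_eq
    ((Ch S ∅ G p (n - j) ⊓ LinearMap.ker (cb S G p)).map β) ((E2 S G p (j + 1)).map (eD p))
  have h7 := Submodule.finrank_map_le β (Ch S ∅ G p (n - j) ⊓ LinearMap.ker (cb S G p))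
  rw [h3] at h5
  change Module.finrank (ZMod 2) ↥(E2 S G p j ⊓ LinearMap.ker (eD p)) -
    Module.finrank (ZMod 2) ↥((E2 S G p (j + 1)).map (eD p)) ≤ _
  omega

end SNG
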