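import Pool.Agent.SNG.DDefs
import Pool.Agent.SNG.Basic

/-!
# Project SNG (architect helper40), module DBase: the double complex is a complex

Everything only uses `p s * p t = p t * p s` for `s, t` in a common clique `U ⊆ S` (`IsDat.comm`)
and characteristic 2.
* `e1 (e1 e) = 0`: like `bd_bd`.  `e2 (e2 e) T U g = ∑_{s ∈ T} ∑_{t ∈ T - s} (e T'(g) + e T'(g p_t) +
  e T'(g p_s) + e T'(g p_s p_t))`, `T' = T - s - t`: symmetric in `s, t` since `p_s p_t = p_t p_s` for
  `s, t ∈ T ⊆ U`, `U` a clique (for other `U` everything is `0` as `e T' U = 0`).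
  `e1 (e2 e) = e2 (e1 e)` for `e ∈ E2 S G p m`: both are, for `T ⊆ U`,
  `∑_{x ∉ U} ∑_{s ∈ T} (e (T.erase s) (insert x U) g + e (T.erase s) (insert x U) (g p_s))`.
* `eD` maps `E2 S G p (m + 1)` to `E2 S G p m`: the invariance of `e2 e T U` under `p_t`, `t ∈ T`:
  for `s ≠ t` use `g p_t p_s = g p_s p_t`, for `s = t` use `p_t p_t = 1`.
* `cb` maps `Ch S ∅ G p k` to `Ch S ∅ G p (k + 1)` and `cb (cb f) = 0` for `f ∈ Ch S ∅ G p k`.
* the embeddings `α f T U = if T = ∅ then f U else 0` (`Ch S ∅ G p j → E2 S G p j`,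
  `eD (α f) = α (bd f)`: `e2 (α f) T U` is nonzero only for `T = {s}`, `s ∈ U`, where it is
  `f U g + f U (g p_s) = 0`).
-/

namespace SNG

open Finset

variable {V : Type} [Fintype V] [DecidableEq V] {P : Type} [Group P] {S : Finset V}
  {G : SimpleGraph V} {p : V → P}

private theorem add_self2 (x : ZMod 2) : x + x = 0 := CharTwo.add_self_eq_zero x

omit [Fintype V] in
private theorem sum_swap2 (T : Finset V) (F : V → V → ZMod 2)
    (hF : ∀ s ∈ T, ∀ t ∈ T, s ≠ t → F s t = F t s) : ∑ s ∈ T, ∑ t ∈ T.erase s, F s t = 0 := by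
  rw [Finset.sum_sigma']
  refine Finset.sum_involution (fun x _ => ⟨x.2, x.1⟩) ?_ ?_ ?_ ?_
  · rintro ⟨s, t⟩ h
    rw [Finset.mem_sigma, Finset.mem_erase] at h
    change F s t + F t s = 0
    rw [hF s h.1 t h.2.2 (Ne.symm h.2.1)]
    exact add_self2 _
  · rintro ⟨s, t⟩ h _ h2
    rw [Finset.mem_sigma, Finset.mem_erase] at h
    exact h.2.1 (congrArg Sigma.fst h2)
  · rintro ⟨s, t⟩ h
    rw [Finset.mem_sigma, Finset.mem_erase] at h ⊢
    exact ⟨h.2.2, fun h2 => h.2.1 h2.symm, h.1⟩
  · rintro ⟨s, t⟩ _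
    rfl

private theorem e1_apply (e : Finset V → Finset V → P → ZMod 2) {T U : Finset V} (h : T ⊆ U) (g : P) :
    e1 V P e T U g = ∑ s ∈ Uᶜ, e T (insert s U) g := if_pos h

private theorem e1_apply0 (e : Finset V → Finset V → P → ZMod 2) {T U : Finset V} (h : ¬ T ⊆ U) (g : P) :
    e1 V P e T U g = 0 := if_neg h

omit [Fintype V] in
private theorem e2_apply (p : V → P) (e : Finset V → Finset V → P → ZMod 2) {T U : Finset V}
    (h : T ⊆ U) (g : P) :
    e2 p e T U g = ∑ s ∈ T, (e (T.erase s) U g + e (T.erase s) U (g * p s)) := if_pos h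

omit [Fintype V] in
private theorem e2_apply0 (p : V → P) (e : Finset V → Finset V → P → ZMod 2) {T U : Finset V}
    (h : ¬ T ⊆ U) (g : P) : e2 p e T U g = 0 := if_neg h

private theorem e1_e1 (e : Finset V → Finset V → P → ZMod 2) : e1 V P (e1 V P e) = 0 := by
  funext T U g
  by_cases h : T ⊆ U
  · rw [e1_apply _ h]
    have e0 : ∀ s ∈ Uᶜ, e1 V P e T (insert s U) g = ∑ t ∈ (insert s U)ᶜ, e T (insert t (insert s U)) g :=
      fun s _ => e1_apply _ (h.trans (Finset.subset_insert s U)) g
    rw [Finset.sum_congr rfl e0]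
    exact congrFun (congrFun (bd_bd (fun X => e T X)) U) g
  · rw [e1_apply0 _ h]
    rfl

omit [Fintype V] in
private theorem comm_or (hp : IsDat S G p) {m : ℤ} {e : Finset V → Finset V → P → ZMod 2}
    (he : e ∈ E2 S G p m) {U : Finset V} {s t : V} (hs : s ∈ U) (ht : t ∈ U) (hst : s ≠ t)
    (X : Finset V) (g : P) : e X U (g * p s * p t) = e X U (g * p t * p s) := by
  by_cases h : U ⊆ S ∧ G.IsClique (U : Set V)
  · have hc := hp.comm s (h.1 hs) t (h.1 ht) (h.2 (Finset.mem_coe.2 hs) (Finset.mem_coe.2 ht) hst)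
    rw [mul_assoc, hc, ← mul_assoc]
  · rw [he.1 X U (fun h2 => h ⟨h2.2.1, h2.2.2.1⟩)]
    rfl

omit [Fintype V] in
private theorem sq_or (hp : IsDat S G p) {m : ℤ} {e : Finset V → Finset V → P → ZMod 2}
    (he : e ∈ E2 S G p m) {U : Finset V} {s : V} (hs : s ∈ U)
    (X : Finset V) (g : P) : e X U (g * p s * p s) = e X U g := by
  by_cases h : U ⊆ S
  · rw [mul_assoc, hp.sq s (h hs), mul_one]
  · rw [he.1 X U (fun h2 => h h2.2.1)]
    rfl

omit [Fintype V] in
private theorem e2_e2 (hp : IsDat S G p) {m : ℤ} {e : Finset V → Finset V → P → ZMod 2}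
    (he : e ∈ E2 S G p m) : e2 p (e2 p e) = 0 := by
  funext T U g
  by_cases h : T ⊆ U
  · rw [e2_apply _ _ h]
    have e0 : ∀ s ∈ T, e2 p e (T.erase s) U g + e2 p e (T.erase s) U (g * p s) =
        ∑ t ∈ T.erase s, ((e ((T.erase s).erase t) U g + e ((T.erase s).erase t) U (g * p t)) +
          (e ((T.erase s).erase t) U (g * p s) + e ((T.erase s).erase t) U (g * p s * p t))) := by
      intro s _
      have h2 := (Finset.erase_subset s T).trans h
      rw [e2_apply _ _ h2, e2_apply _ _ h2, ← Finset.sum_add_distrib]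
    rw [Finset.sum_congr rfl e0]
    refine sum_swap2 T (fun s t => (e ((T.erase s).erase t) U g + e ((T.erase s).erase t) U (g * p t)) +
          (e ((T.erase s).erase t) U (g * p s) + e ((T.erase s).erase t) U (g * p s * p t))) ?_
    intro s hs t ht hst
    change (e ((T.erase s).erase t) U g + e ((T.erase s).erase t) U (g * p t)) +
          (e ((T.erase s).erase t) U (g * p s) + e ((T.erase s).erase t) U (g * p s * p t)) =
        (e ((T.erase t).erase s) U g + e ((T.erase t).erase s) U (g * p s)) +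
          (e ((T.erase t).erase s) U (g * p t) + e ((T.erase t).erase s) U (g * p t * p s))
    rw [Finset.erase_right_comm, comm_or hp he (h hs) (h ht) hst]
    ring
  · rw [e2_apply0 _ _ h]
    rfl

private theorem e1_e2 (p : V → P) (e : Finset V → Finset V → P → ZMod 2) :
    e1 V P (e2 p e) = e2 p (e1 V P e) := by
  funext T U g
  by_cases h : T ⊆ U
  · rw [e1_apply _ h, e2_apply _ _ h]
    have e0 : ∀ x ∈ Uᶜ, e2 p e T (insert x U) g =
        ∑ s ∈ T, (e (T.erase s) (insert x U) g + e (T.erase s) (insert x U) (g * p s)) :=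
      fun x _ => e2_apply _ _ (h.trans (Finset.subset_insert x U)) g
    have e3 : ∀ s ∈ T, e1 V P e (T.erase s) U g + e1 V P e (T.erase s) U (g * p s) =
        ∑ x ∈ Uᶜ, (e (T.erase s) (insert x U) g + e (T.erase s) (insert x U) (g * p s)) := by
      intro s _
      have h2 := (Finset.erase_subset s T).trans h
      rw [e1_apply _ h2, e1_apply _ h2, ← Finset.sum_add_distrib]
    rw [Finset.sum_congr rfl e0, Finset.sum_congr rfl e3, Finset.sum_comm]
  · rw [e1_apply0 _ h, e2_apply0 _ _ h]

private theorem e1_mem {m : ℤ} {e : Finset V → Finset V → P → ZMod 2}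
    (he : e ∈ E2 S G p (m + 1)) : e1 V P e ∈ E2 S G p m := by
  obtain ⟨h1, h2⟩ := he
  refine ⟨fun T U hT => ?_, fun T U r hr g => ?_⟩
  · funext g
    by_cases h : T ⊆ U
    · rw [e1_apply _ h]
      refine Finset.sum_eq_zero fun s hs => ?_
      rw [Finset.mem_compl] at hs
      rw [h1 T (insert s U)]
      · rfl
      · rintro ⟨h3, h4, h5, h6⟩
        refine hT ⟨h, (Finset.subset_insert s U).trans h4, h5.subset (by simp), ?_⟩
        rw [Finset.card_insert_of_notMem hs] at h6
        push_cast at h6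
        linarith
    · rw [e1_apply0 _ h]
      rfl
  · by_cases h : T ⊆ U
    · rw [e1_apply _ h, e1_apply _ h]
      exact Finset.sum_congr rfl fun s _ => h2 T (insert s U) r hr g
    · rw [e1_apply0 _ h, e1_apply0 _ h]

omit [Fintype V] in
private theorem e2_mem (hp : IsDat S G p) {m : ℤ} {e : Finset V → Finset V → P → ZMod 2}
    (he : e ∈ E2 S G p (m + 1)) : e2 p e ∈ E2 S G p m := by
  have he' := he
  obtain ⟨h1, h2⟩ := he
  refine ⟨fun T U hT => ?_, fun T U r hr g => ?_⟩
  · funext g
    by_cases h : T ⊆ U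
    · rw [e2_apply _ _ h]
      refine Finset.sum_eq_zero fun s hs => ?_
      have h0 : e (T.erase s) U = 0 := by
        refine h1 (T.erase s) U ?_
        rintro ⟨h3, h4, h5, h6⟩
        refine hT ⟨h, h4, h5, ?_⟩
        have h7 : ((T.erase s).card : ℤ) = (T.card : ℤ) - 1 := by
          rw [Finset.card_erase_of_mem hs, Nat.cast_sub (Finset.card_pos.2 ⟨s, hs⟩)]
          push_cast
          ring
        rw [h7] at h6
        linarith
      rw [h0]
      exact add_zero _
    · rw [e2_apply0 _ _ h]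
      rfl
  · by_cases h : T ⊆ U
    · rw [e2_apply _ _ h, e2_apply _ _ h]
      refine Finset.sum_congr rfl fun s hs => ?_
      by_cases hsr : s = r
      · subst hsr
        rw [sq_or hp he' (h hs), add_comm]
      · have hr' : r ∈ T.erase s := Finset.mem_erase.2 ⟨fun h3 => hsr h3.symm, hr⟩
        rw [h2 (T.erase s) U r hr' g, comm_or hp he' (h hr) (h hs) (fun h3 => hsr h3.symm),
          h2 (T.erase s) U r hr' (g * p s)]
    · rw [e2_apply0 _ _ h, e2_apply0 _ _ h]

theorem eD_mem (hp : IsDat S G p) {m : ℤ} {e : Finset V → Finset V → P → ZMod 2}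
    (he : e ∈ E2 S G p (m + 1)) : eD p e ∈ E2 S G p m :=
  Submodule.add_mem _ (e1_mem he) (e2_mem hp he)

theorem eD_eD (hp : IsDat S G p) {m : ℤ} {e : Finset V → Finset V → P → ZMod 2}
    (he : e ∈ E2 S G p m) : eD p (eD p e) = 0 := by
  have h0 : eD p (eD p e) = e1 V P (e1 V P e) + e1 V P (e2 p e) + (e2 p (e1 V P e) + e2 p (e2 p e)) := by
    change e1 V P (e1 V P e + e2 p e) + e2 p (e1 V P e + e2 p e) = _
    rw [map_add, map_add]
  rw [h0, e1_e1, e2_e2 hp he, e1_e2, zero_add, add_zero]
  funext T U g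
  exact add_self2 _

omit [Fintype V] in
private theorem cb_apply (f : Finset V → P → ZMod 2) {T : Finset V}
    (h : T ⊆ S ∧ G.IsClique (T : Set V)) (g : P) :
    cb S G p f T g = ∑ s ∈ T, (f (T.erase s) g + f (T.erase s) (g * p s)) := if_pos h

omit [Fintype V] in
private theorem cb_apply0 (f : Finset V → P → ZMod 2) {T : Finset V}
    (h : ¬ (T ⊆ S ∧ G.IsClique (T : Set V))) (g : P) : cb S G p f T g = 0 := if_neg h

theorem cb_mem (hp : IsDat S G p) {k : ℤ} {f : Finset V → P → ZMod 2}
    (hf : f ∈ Ch S ∅ G p k) : cb S G p f ∈ Ch S ∅ G p (k + 1) := by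
  obtain ⟨h1, h2⟩ := hf
  refine ⟨fun T hT => ?_, fun T r hr g => ?_⟩
  · funext g
    by_cases h : T ⊆ S ∧ G.IsClique (T : Set V)
    · rw [cb_apply _ h]
      refine Finset.sum_eq_zero fun s hs => ?_
      have h0 : f (T.erase s) = 0 := by
        refine h1 (T.erase s) ?_
        rintro ⟨_, _, h6⟩
        refine hT ⟨h.1, h.2, ?_⟩
        have h7 : ((T.erase s).card : ℤ) = (T.card : ℤ) - 1 := by
          rw [Finset.card_erase_of_mem hs, Nat.cast_sub (Finset.card_pos.2 ⟨s, hs⟩)]
          push_cast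
          ring
        rw [h7] at h6
        linarith
      rw [h0]
      exact add_zero _
    · rw [cb_apply0 _ h]
      rfl
  · rw [Finset.union_empty] at hr
    by_cases h : T ⊆ S ∧ G.IsClique (T : Set V)
    · rw [cb_apply _ h, cb_apply _ h]
      refine Finset.sum_congr rfl fun s hs => ?_
      by_cases hsr : s = r
      · subst hsr
        rw [mul_assoc, hp.sq s (h.1 hs), mul_one, add_comm]
      · have hr' : r ∈ T.erase s ∪ ∅ :=
          Finset.mem_union_left _ (Finset.mem_erase.2 ⟨fun h3 => hsr h3.symm, hr⟩)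
        have hc := hp.comm r (h.1 hr) s (h.1 hs)
          (h.2 (Finset.mem_coe.2 hr) (Finset.mem_coe.2 hs) (fun h3 => hsr h3.symm))
        rw [h2 (T.erase s) r hr' g, mul_assoc, hc, ← mul_assoc, h2 (T.erase s) r hr' (g * p s)]
    · rw [cb_apply0 _ h, cb_apply0 _ h]

theorem cb_cb (hp : IsDat S G p) {k : ℤ} {f : Finset V → P → ZMod 2}
    (hf : f ∈ Ch S ∅ G p k) : cb S G p (cb S G p f) = 0 := by
  funext T g
  by_cases h : T ⊆ S ∧ G.IsClique (T : Set V)
  · rw [cb_apply _ h]
    have e0 : ∀ s ∈ T, cb S G p f (T.erase s) g + cb S G p f (T.erase s) (g * p s) =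
        ∑ t ∈ T.erase s, ((f ((T.erase s).erase t) g + f ((T.erase s).erase t) (g * p t)) +
          (f ((T.erase s).erase t) (g * p s) + f ((T.erase s).erase t) (g * p s * p t))) := by
      intro s _
      have h2 : T.erase s ⊆ S ∧ G.IsClique ((T.erase s : Finset V) : Set V) :=
        ⟨(Finset.erase_subset s T).trans h.1,
          h.2.subset (Finset.coe_subset.2 (Finset.erase_subset s T))⟩
      rw [cb_apply _ h2, cb_apply _ h2, ← Finset.sum_add_distrib]
    rw [Finset.sum_congr rfl e0]
    refine sum_swap2 T (fun s t => (f ((T.erase s).erase t) g + f ((T.erase s).erase t) (g * p t)) +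
          (f ((T.erase s).erase t) (g * p s) + f ((T.erase s).erase t) (g * p s * p t))) ?_
    intro s hs t ht hst
    change (f ((T.erase s).erase t) g + f ((T.erase s).erase t) (g * p t)) +
          (f ((T.erase s).erase t) (g * p s) + f ((T.erase s).erase t) (g * p s * p t)) =
        (f ((T.erase t).erase s) g + f ((T.erase t).erase s) (g * p s)) +
          (f ((T.erase t).erase s) (g * p t) + f ((T.erase t).erase s) (g * p t * p s))
    have hc := hp.comm s (h.1 hs) t (h.1 ht) (h.2 (Finset.mem_coe.2 hs) (Finset.mem_coe.2 ht) hst)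
    rw [Finset.erase_right_comm, mul_assoc g (p s) (p t), hc, ← mul_assoc]
    ring
  · rw [cb_apply0 _ h]
    rfl

variable (V P) in
/-- The embedding of the chains in the double complex. -/
def eA : (Finset V → P → ZMod 2) →ₗ[ZMod 2] (Finset V → Finset V → P → ZMod 2) where
  toFun f := fun T U g => if T = ∅ then f U g else 0
  map_add' e f := by
    funext T U g
    by_cases h : T = ∅
    · simp only [Pi.add_apply, if_pos h]
    · simp only [Pi.add_apply, if_neg h, add_zero]
  map_smul' c e := by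
    funext T U g
    by_cases h : T = ∅
    · simp only [Pi.smul_apply, smul_eq_mul, RingHom.id_apply, if_pos h]
    · simp only [Pi.smul_apply, smul_eq_mul, RingHom.id_apply, if_neg h, mul_zero]

omit [Fintype V] [Group P] in
private theorem eA_apply (f : Finset V → P → ZMod 2) (U : Finset V) (g : P) :
    eA V P f ∅ U g = f U g := by
  change (if (∅ : Finset V) = ∅ then f U g else 0) = f U g
  exact if_pos rfl

omit [Fintype V] [Group P] in
private theorem eA_apply0 (f : Finset V → P → ZMod 2) {T : Finset V} (h : T ≠ ∅) (U : Finset V)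
    (g : P) : eA V P f T U g = 0 := by
  change (if T = ∅ then f U g else 0) = 0
  exact if_neg h

theorem eA_mem {j : ℤ} {f : Finset V → P → ZMod 2} (hf : f ∈ Ch S ∅ G p j) :
    eA V P f ∈ E2 S G p j := by
  obtain ⟨h1, h2⟩ := hf
  refine ⟨fun T U hT => ?_, fun T U r hr g => ?_⟩
  · funext g
    by_cases h : T = ∅
    · subst h
      rw [eA_apply, h1 U]
      rintro ⟨h3, h4, h5⟩
      refine hT ⟨Finset.empty_subset U, h3, h4, ?_⟩
      rw [Finset.card_empty, h5]
      push_cast
      ring
    · rw [eA_apply0 _ h]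
      rfl
  · have h : T ≠ ∅ := Finset.ne_empty_of_mem hr
    rw [eA_apply0 _ h, eA_apply0 _ h]

theorem eD_eA {j : ℤ} {f : Finset V → P → ZMod 2} (hf : f ∈ Ch S ∅ G p j) :
    eD p (eA V P f) = eA V P (bd V P f) := by
  obtain ⟨h1, h2⟩ := hf
  funext T U g
  change e1 V P (eA V P f) T U g + e2 p (eA V P f) T U g = _
  by_cases h : T = ∅
  · subst h
    rw [eA_apply, e1_apply _ (Finset.empty_subset U), e2_apply _ _ (Finset.empty_subset U),
      Finset.sum_empty, add_zero]
    exact Finset.sum_congr rfl fun s _ => eA_apply f _ g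
  · rw [eA_apply0 _ h]
    by_cases hU : T ⊆ U
    · rw [e1_apply _ hU, e2_apply _ _ hU, Finset.sum_eq_zero fun s _ => eA_apply0 f h _ g, zero_add]
      refine Finset.sum_eq_zero fun s hs => ?_
      by_cases h3 : T.erase s = ∅
      · rw [h3, eA_apply, eA_apply, h2 U s (Finset.mem_union_left _ (hU hs)) g]
        exact add_self2 _
      · rw [eA_apply0 f h3, eA_apply0 f h3, add_zero]
    · rw [e1_apply0 _ hU, e2_apply0 _ _ hU, add_zero]

end SNG
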