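import Pool.Agent.SNG.DBase

/-!
# Project SNG (architect helper40), module DC: cochains are dual to chains

Let `c_s` be the coordinate functions (`IsDat.co`), `N_T = {g ∈ P : c_t g = 0 for all t ∈ T}`, and for
`f, h ∈ Ch S ∅ G p k`: `⟨f, h⟩_k = ∑_{T ⊆ S clique, |T| = k} ∑_{g ∈ N_T} f T g * h T g`.
* Nondegenerate: let `f ∈ Ch S ∅ G p k` with `⟨f, h⟩ = 0` for all `h`.  Let `T` be a clique with `k`
  elements, `g₀ ∈ N_T`.  Let `h` be the indicator function of `{T} × g₀ H_T`,
  `H_T = Subgroup.closure (p '' T)`.  Then `N_T ∩ g₀ H_T = {g₀}`: the elements of `H_T` are the products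
  `∏_{t ∈ T'} p_t`, `T' ⊆ T` (commuting involutions), and `c_t (g₀ ∏_{T'} p) = [t ∈ T']`.  So
  `f T g₀ = 0`.  Every `g ∈ P` is `g₀ u` with `g₀ ∈ N_T`, `u ∈ H_T` (`g₀ = g ∏_{t ∈ T, c_t g = 1} p_t`),
  so `f T g = f T g₀ = 0`.
  (Alternative to avoid cosets: the space of functions `φ : P → ZMod 2` invariant under `p_t`,
  `t ∈ T`, restricted to `N_T`: the restriction is bijective onto all functions on `N_T`, by
  induction on `T`.)
* Adjoint: for `f ∈ Ch S ∅ G p (k + 1)`, `h ∈ Ch S ∅ G p k`: `⟨bd f, h⟩_k = ⟨f, cb h⟩_(k+1)`: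
  for `s ∉ T`, `T' = insert s T` a clique, `N_T` is the disjoint union of `N_T'` and `N_T' p_s`, so
  `∑_{g ∈ N_T} f T' g * h T g = ∑_{g ∈ N_T'} f T' g * (h T g + h T (g p_s))`.
* So `rank (bd : Ch (k + 1) → Ch k) = rank (cb : Ch k → Ch (k + 1))` (adjoint maps for
  nondegenerate pairings on finite dimensional spaces), and
  `cbt k = dim Ch k - rank (cb on Ch k) - rank (cb on Ch (k - 1))
  = dim Ch k - rank (bd on Ch (k + 1)) - rank (bd on Ch k) = bt S ∅ G p k`.
Only the inequality `≤` is needed.
-/

namespace SNG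

open Finset

variable {V : Type} [Fintype V] [DecidableEq V] {P : Type} [Group P] [Finite P] {S : Finset V}
  {G : SimpleGraph V} {p : V → P}

omit [Fintype V] [Finite P] in
private theorem dc_ext (hp : IsDat S G p) {c : V → P → ZMod 2}
    (hc : ∀ v ∈ S, ∀ w ∈ S, ∀ g, c v (g * p w) = c v g + if w = v then 1 else 0)
    (T : Finset V) (hT : T ⊆ S) (hcl : G.IsClique (T : Set V)) (φ : P → ZMod 2) :
    ∃ ψ : P → ZMod 2, (∀ t ∈ T, ∀ g, ψ (g * p t) = ψ g) ∧
      ∀ g, (∀ t ∈ T, c t g = 0) → ψ g = φ g := by
  induction T using Finset.induction_on with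
  | empty => exact ⟨φ, fun t ht => absurd ht (Finset.notMem_empty t), fun g _ => rfl⟩
  | insert s T hs ih =>
    have hsS : s ∈ S := hT (Finset.mem_insert_self s T)
    have hTS : T ⊆ S := (Finset.subset_insert s T).trans hT
    obtain ⟨ψ, h1, h2⟩ := ih hTS (hcl.subset (by simp))
    refine ⟨fun g => if c s g = 0 then ψ g else ψ (g * p s), ?_, ?_⟩
    · intro t ht g
      change (if c s (g * p t) = 0 then ψ (g * p t) else ψ (g * p t * p s)) =
        if c s g = 0 then ψ g else ψ (g * p s)
      rcases Finset.mem_insert.1 ht with rfl | ht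
      · rw [hc t hsS t hsS g, if_pos rfl, mul_assoc, hp.sq t hsS, mul_one]
        have h3 : c t g = 0 ∨ c t g = 1 := by
          generalize c t g = x
          revert x
          decide
        rcases h3 with h3 | h3
        · rw [h3, if_neg (by decide), if_pos rfl]
        · rw [h3, if_pos (by decide), if_neg (by decide)]
      · have hst : t ≠ s := fun h => hs (h ▸ ht)
        have hadj : G.Adj t s := hcl (by simp [ht]) (by simp) hst
        rw [hc s hsS t (hTS ht) g, if_neg hst, add_zero, h1 t ht g, mul_assoc,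
          hp.comm t (hTS ht) s hsS hadj, ← mul_assoc, h1 t ht (g * p s)]
    · intro g hg
      change (if c s g = 0 then ψ g else ψ (g * p s)) = φ g
      rw [if_pos (hg s (Finset.mem_insert_self s T))]
      exact h2 g fun t ht => hg t (Finset.mem_insert_of_mem ht)

omit [Fintype V] [Finite P] in
private theorem dc_uniq {c : V → P → ZMod 2}
    (hc : ∀ v ∈ S, ∀ w ∈ S, ∀ g, c v (g * p w) = c v g + if w = v then 1 else 0)
    (T : Finset V) (hT : T ⊆ S) (ψ : P → ZMod 2) (h1 : ∀ t ∈ T, ∀ g, ψ (g * p t) = ψ g)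
    (h2 : ∀ g, (∀ t ∈ T, c t g = 0) → ψ g = 0) (g : P) : ψ g = 0 := by
  induction T using Finset.induction_on generalizing g with
  | empty => exact h2 g fun t ht => absurd ht (Finset.notMem_empty t)
  | insert s T hs ih =>
    have hsS : s ∈ S := hT (Finset.mem_insert_self s T)
    have hTS : T ⊆ S := (Finset.subset_insert s T).trans hT
    refine ih hTS (fun t ht => h1 t (Finset.mem_insert_of_mem ht)) ?_ g
    intro x hx
    have h3 : c s x = 0 ∨ c s x = 1 := by
      generalize c s x = y
      revert y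
      decide
    rcases h3 with h3 | h3
    · refine h2 x fun t ht => ?_
      rcases Finset.mem_insert.1 ht with rfl | ht
      · exact h3
      · exact hx t ht
    · rw [← h1 s (Finset.mem_insert_self s T) x]
      refine h2 _ fun t ht => ?_
      rcases Finset.mem_insert.1 ht with rfl | ht
      · rw [hc t hsS t hsS x, if_pos rfl, h3]
        decide
      · have hne : s ≠ t := fun h => hs (h ▸ ht)
        rw [hc t (hTS ht) s hsS x, if_neg hne, add_zero, hx t ht]

/-- The pairing. -/
private noncomputable def dcB [Fintype P] (c : V → P → ZMod 2) :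
    (Finset V → P → ZMod 2) →ₗ[ZMod 2] (Finset V → P → ZMod 2) →ₗ[ZMod 2] ZMod 2 :=
  LinearMap.mk₂ (ZMod 2)
    (fun f h => ∑ T : Finset V, ∑ g : P, if (∀ t ∈ T, c t g = 0) then f T g * h T g else 0)
    (fun f f' h => by
      rw [← Finset.sum_add_distrib]
      refine Finset.sum_congr rfl fun T _ => ?_
      rw [← Finset.sum_add_distrib]
      refine Finset.sum_congr rfl fun g _ => ?_
      split_ifs
      · simp only [Pi.add_apply, add_mul]
      · rw [add_zero])
    (fun a f h => by
      rw [smul_eq_mul, Finset.mul_sum]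
      refine Finset.sum_congr rfl fun T _ => ?_
      rw [Finset.mul_sum]
      refine Finset.sum_congr rfl fun g _ => ?_
      split_ifs
      · simp only [Pi.smul_apply, smul_eq_mul, mul_assoc]
      · rw [mul_zero])
    (fun f h h' => by
      rw [← Finset.sum_add_distrib]
      refine Finset.sum_congr rfl fun T _ => ?_
      rw [← Finset.sum_add_distrib]
      refine Finset.sum_congr rfl fun g _ => ?_
      split_ifs
      · simp only [Pi.add_apply, mul_add]
      · rw [add_zero])
    (fun a f h => by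
      rw [smul_eq_mul, Finset.mul_sum]
      refine Finset.sum_congr rfl fun T _ => ?_
      rw [Finset.mul_sum]
      refine Finset.sum_congr rfl fun g _ => ?_
      split_ifs
      · simp only [Pi.smul_apply, smul_eq_mul]
        ring
      · rw [mul_zero])

omit [Finite P] [Group P] in
private theorem dcB_apply [Fintype P] (c : V → P → ZMod 2) (f h : Finset V → P → ZMod 2) :
    dcB c f h = ∑ T : Finset V, ∑ g : P,
      if (∀ t ∈ T, c t g = 0) then f T g * h T g else 0 := rfl

omit [Finite P] in
private theorem dc_nondeg [Fintype P] (hp : IsDat S G p) {c : V → P → ZMod 2}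
    (hc : ∀ v ∈ S, ∀ w ∈ S, ∀ g, c v (g * p w) = c v g + if w = v then 1 else 0)
    {k : ℤ} {f : Finset V → P → ZMod 2} (hf : f ∈ Ch S ∅ G p k)
    (h0 : ∀ h ∈ Ch S ∅ G p k, dcB c f h = 0) : f = 0 := by
  classical
  funext T
  by_cases hT : T ⊆ S ∧ G.IsClique (T : Set V) ∧ (T.card : ℤ) = k
  · funext g
    refine dc_uniq hc T hT.1 (f T) (fun t ht x => hf.2 T t (Finset.mem_union_left _ ht) x) ?_ g
    intro g₀ hg₀
    obtain ⟨ψ, h1, h2⟩ := dc_ext hp hc T hT.1 hT.2.1 (fun g => if g = g₀ then 1 else 0)
    have hh : (fun T' : Finset V => if T' = T then ψ else 0) ∈ Ch S ∅ G p k := by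
      refine ⟨fun T' hT' => ?_, fun T' s hs x => ?_⟩
      · have : T' ≠ T := by
          rintro rfl
          exact hT' hT
        exact if_neg this
      · change (if T' = T then ψ else 0) (x * p s) = (if T' = T then ψ else 0) x
        by_cases h3 : T' = T
        · rw [if_pos h3]
          rw [Finset.union_empty, h3] at hs
          exact h1 s hs x
        · rw [if_neg h3]
          rfl
    have h4 := h0 _ hh
    rw [dcB_apply] at h4
    have h5 : ∀ T' ∈ (Finset.univ : Finset (Finset V)), T' ≠ T →
        (∑ g : P, if (∀ t ∈ T', c t g = 0) then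
          f T' g * (fun T' : Finset V => if T' = T then ψ else 0) T' g else 0) = 0 := by
      intro T' _ hT'
      refine Finset.sum_eq_zero fun x _ => ?_
      by_cases h6 : ∀ t ∈ T', c t x = 0
      · rw [if_pos h6]
        change f T' x * (if T' = T then ψ else 0) x = 0
        rw [if_neg hT']
        exact mul_zero _
      · rw [if_neg h6]
    rw [Finset.sum_eq_single_of_mem T (Finset.mem_univ T) h5] at h4
    have h7 : ∀ x ∈ (Finset.univ : Finset P), x ≠ g₀ →
        (if (∀ t ∈ T, c t x = 0) then
          f T x * (fun T' : Finset V => if T' = T then ψ else 0) T x else 0) = 0 := by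
      intro x _ hx
      by_cases h6 : ∀ t ∈ T, c t x = 0
      · rw [if_pos h6]
        change f T x * (if T = T then ψ else 0) x = 0
        rw [if_pos rfl, h2 x h6, if_neg hx, mul_zero]
      · rw [if_neg h6]
    rw [Finset.sum_eq_single_of_mem g₀ (Finset.mem_univ g₀) h7, if_pos hg₀] at h4
    change f T g₀ * (if T = T then ψ else 0) g₀ = 0 at h4
    rw [if_pos rfl, h2 g₀ hg₀, if_pos rfl, mul_one] at h4
    exact h4
  · exact hf.1 T hT

omit [Finite P] in
private theorem dc_split [Fintype P] (hp : IsDat S G p) {c : V → P → ZMod 2}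
    (hc : ∀ v ∈ S, ∀ w ∈ S, ∀ g, c v (g * p w) = c v g + if w = v then 1 else 0)
    {T : Finset V} {s : V} (hs : s ∉ T) (hT : insert s T ⊆ S) (F : P → ZMod 2) :
    ∑ g : P, (if (∀ t ∈ T, c t g = 0) then F g else 0) =
      ∑ g : P, if (∀ t ∈ insert s T, c t g = 0) then F g + F (g * p s) else 0 := by
  have hsS : s ∈ S := hT (Finset.mem_insert_self s T)
  have e1 : ∑ g : P, (if (∀ t ∈ T, c t g = 0) then F g else 0) =
      ∑ g : P, (if (∀ t ∈ insert s T, c t g = 0) then F g else 0) +
      ∑ g : P, (if (∀ t ∈ T, c t g = 0) ∧ c s g = 1 then F g else 0) := by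
    rw [← Finset.sum_add_distrib]
    refine Finset.sum_congr rfl fun g _ => ?_
    have h3 : c s g = 0 ∨ c s g = 1 := by
      generalize c s g = y
      revert y
      decide
    by_cases h4 : ∀ t ∈ T, c t g = 0
    · rcases h3 with h3 | h3
      · have h5 : ∀ t ∈ insert s T, c t g = 0 := by
          intro t ht
          rcases Finset.mem_insert.1 ht with rfl | ht
          · exact h3
          · exact h4 t ht
        rw [if_pos h4, if_pos h5, if_neg (fun h => by rw [h3] at h; exact absurd h.2 (by decide)),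
          add_zero]
      · rw [if_pos h4, if_neg (fun h => by
          have := h s (Finset.mem_insert_self s T)
          rw [h3] at this
          exact absurd this (by decide)), if_pos ⟨h4, h3⟩, zero_add]
    · rw [if_neg h4, if_neg (fun h => h4 fun t ht => h t (Finset.mem_insert_of_mem ht)),
        if_neg (fun h => h4 h.1), add_zero]
  have e2 : ∑ g : P, (if (∀ t ∈ T, c t g = 0) ∧ c s g = 1 then F g else 0) =
      ∑ g : P, (if (∀ t ∈ insert s T, c t g = 0) then F (g * p s) else 0) := by
    refine Fintype.sum_equiv (Equiv.mulRight (p s)) _ _ fun g => ?_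
    change _ = if (∀ t ∈ insert s T, c t (g * p s) = 0) then F (g * p s * p s) else 0
    rw [mul_assoc g, hp.sq s hsS, mul_one]
    have h6 : ((∀ t ∈ T, c t g = 0) ∧ c s g = 1) ↔ ∀ t ∈ insert s T, c t (g * p s) = 0 := by
      constructor
      · rintro ⟨h7, h8⟩ t ht
        rcases Finset.mem_insert.1 ht with rfl | ht
        · rw [hc t hsS t hsS, if_pos rfl, h8]
          decide
        · have hne : s ≠ t := fun h => hs (h ▸ ht)
          rw [hc t (hT (Finset.mem_insert_of_mem ht)) s hsS, if_neg hne, add_zero, h7 t ht]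
      · intro h7
        refine ⟨fun t ht => ?_, ?_⟩
        · have := h7 t (Finset.mem_insert_of_mem ht)
          have hne : s ≠ t := fun h => hs (h ▸ ht)
          rwa [hc t (hT (Finset.mem_insert_of_mem ht)) s hsS, if_neg hne, add_zero] at this
        · have := h7 s (Finset.mem_insert_self s T)
          rw [hc s hsS s hsS, if_pos rfl] at this
          revert this
          generalize c s g = y
          revert y
          decide
    by_cases h7 : (∀ t ∈ T, c t g = 0) ∧ c s g = 1
    · rw [if_pos h7, if_pos (h6.1 h7)]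
    · rw [if_neg h7, if_neg (fun h => h7 (h6.2 h))]
  rw [e1, e2, ← Finset.sum_add_distrib]
  refine Finset.sum_congr rfl fun g _ => ?_
  split_ifs
  · rfl
  · rw [add_zero]

omit [Finite P] [Group P] in
private theorem dc_reindex (A B : Finset V → V → ZMod 2)
    (h : ∀ T s, s ∉ T → A T s = B (insert s T) s) :
    ∑ T : Finset V, ∑ s ∈ Tᶜ, A T s = ∑ U : Finset V, ∑ s ∈ U, B U s := by
  rw [Finset.sum_sigma', Finset.sum_sigma']
  refine Finset.sum_bij' (fun x _ => ⟨insert x.2 x.1, x.2⟩) (fun x _ => ⟨x.1.erase x.2, x.2⟩)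
    ?_ ?_ ?_ ?_ ?_
  · rintro ⟨T, s⟩ hx
    simp
  · rintro ⟨U, s⟩ hx
    simp
  · rintro ⟨T, s⟩ hx
    rw [Finset.mem_sigma, Finset.mem_compl] at hx
    simp only [Finset.erase_insert hx.2]
  · rintro ⟨U, s⟩ hx
    rw [Finset.mem_sigma] at hx
    simp only [Finset.insert_erase hx.2]
  · rintro ⟨T, s⟩ hx
    rw [Finset.mem_sigma, Finset.mem_compl] at hx
    exact h T s hx.2

omit [Finite P] in
private theorem dc_adj [Fintype P] (hp : IsDat S G p) {c : V → P → ZMod 2}
    (hc : ∀ v ∈ S, ∀ w ∈ S, ∀ g, c v (g * p w) = c v g + if w = v then 1 else 0)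
    {k : ℤ} {f : Finset V → P → ZMod 2} (hf : f ∈ Ch S ∅ G p (k + 1))
    (h : Finset V → P → ZMod 2) : dcB c (bd V P f) h = dcB c f (cb S G p h) := by
  classical
  rw [dcB_apply, dcB_apply]
  have e1 : ∀ T : Finset V, (∑ g : P, if (∀ t ∈ T, c t g = 0) then bd V P f T g * h T g else 0) =
      ∑ s ∈ Tᶜ, ∑ g : P, if (∀ t ∈ insert s T, c t g = 0) then
        f (insert s T) g * (h T g + h T (g * p s)) else 0 := by
    intro T
    have e2 : ∀ s ∈ Tᶜ, (∑ g : P, if (∀ t ∈ insert s T, c t g = 0) then
        f (insert s T) g * (h T g + h T (g * p s)) else 0) =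
        ∑ g : P, if (∀ t ∈ T, c t g = 0) then f (insert s T) g * h T g else 0 := by
      intro s hs
      rw [Finset.mem_compl] at hs
      by_cases hT : insert s T ⊆ S
      · rw [dc_split hp hc hs hT]
        refine Finset.sum_congr rfl fun g _ => ?_
        rw [hf.2 (insert s T) s (Finset.mem_union_left _ (Finset.mem_insert_self s T)) g, mul_add]
      · have h0 : f (insert s T) = 0 := hf.1 _ (fun h2 => hT h2.1)
        rw [h0]
        refine Finset.sum_congr rfl fun g _ => ?_
        split_ifs <;> simp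
    rw [Finset.sum_congr rfl e2, Finset.sum_comm]
    refine Finset.sum_congr rfl fun g _ => ?_
    split_ifs
    · change (∑ s ∈ Tᶜ, f (insert s T) g) * h T g = _
      rw [Finset.sum_mul]
    · rw [Finset.sum_const_zero]
  have e3 : ∀ U : Finset V, (∑ g : P, if (∀ t ∈ U, c t g = 0) then f U g * cb S G p h U g else 0) =
      ∑ s ∈ U, ∑ g : P, if (∀ t ∈ U, c t g = 0) then
        f U g * (h (U.erase s) g + h (U.erase s) (g * p s)) else 0 := by
    intro U
    rw [Finset.sum_comm]
    refine Finset.sum_congr rfl fun g _ => ?_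
    split_ifs
    · by_cases hU : U ⊆ S ∧ G.IsClique (U : Set V)
      · have e4 : cb S G p h U g = ∑ s ∈ U, (h (U.erase s) g + h (U.erase s) (g * p s)) :=
          if_pos hU
        rw [e4, Finset.mul_sum]
      · have h0 : f U = 0 := hf.1 _ (fun h2 => hU ⟨h2.1, h2.2.1⟩)
        rw [h0]
        simp
    · rw [Finset.sum_const_zero]
  rw [Finset.sum_congr rfl fun T _ => e1 T, Finset.sum_congr rfl fun U _ => e3 U]
  refine dc_reindex (fun T s => ∑ g : P, if (∀ t ∈ insert s T, c t g = 0) then
        f (insert s T) g * (h T g + h T (g * p s)) else 0)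
    (fun U s => ∑ g : P, if (∀ t ∈ U, c t g = 0) then
        f U g * (h (U.erase s) g + h (U.erase s) (g * p s)) else 0) fun T s hs => ?_
  change _ = ∑ g : P, if (∀ t ∈ insert s T, c t g = 0) then
    f (insert s T) g * (h ((insert s T).erase s) g + h ((insert s T).erase s) (g * p s)) else 0
  rw [Finset.erase_insert hs]

private theorem dc_rank (hp : IsDat S G p) (k : ℤ) :
    Module.finrank (ZMod 2) ↥((Ch S ∅ G p (k + 1)).map (bd V P)) ≤
      Module.finrank (ZMod 2) ↥((Ch S ∅ G p k).map (cb S G p)) := by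
  classical
  have : Fintype P := Fintype.ofFinite P
  obtain ⟨c, hc⟩ := hp.co
  set X := Ch S ∅ G p k with hX
  set L : ↥X →ₗ[ZMod 2] (Finset V → P → ZMod 2) := (cb S G p).domRestrict X with hL
  set Y := (Ch S ∅ G p (k + 1)).map (bd V P) with hY
  have hmap : X.map (cb S G p) = LinearMap.range L := by
    rw [hL, LinearMap.range_domRestrict]
  have hYX : ∀ y ∈ Y, y ∈ X := by
    rintro y ⟨f, hf, rfl⟩
    exact bd_mem hf
  let Φ : ↥Y →ₗ[ZMod 2] Module.Dual (ZMod 2) ↥X :=
    { toFun := fun y => (dcB c y.1).comp X.subtype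
      map_add' := fun y z => by
        ext x
        simp
      map_smul' := fun a y => by
        ext x
        simp }
  have hΦ : Function.Injective Φ := by
    rw [injective_iff_map_eq_zero]
    intro y hy
    apply Subtype.ext
    refine dc_nondeg hp hc (hYX y.1 y.2) fun h hh => ?_
    have := LinearMap.congr_fun hy ⟨h, hh⟩
    exact this
  have hΦ2 : ∀ y, Φ y ∈ (LinearMap.ker L).dualAnnihilator := by
    rintro ⟨y, f, hf, rfl⟩
    rw [Submodule.mem_dualAnnihilator]
    intro x hx
    change dcB c (bd V P f) x.1 = 0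
    rw [dc_adj hp hc hf, show cb S G p x.1 = 0 from hx, map_zero]
  have h1 : Module.finrank (ZMod 2) ↥Y ≤
      Module.finrank (ZMod 2) ↥(LinearMap.ker L).dualAnnihilator := by
    refine LinearMap.finrank_le_finrank_of_injective (f := Φ.codRestrict _ hΦ2) ?_
    intro a b hab
    exact hΦ (congrArg Subtype.val hab)
  have h2 := Subspace.finrank_add_finrank_dualAnnihilator_eq (LinearMap.ker L)
  have h3 := LinearMap.finrank_range_add_finrank_ker L
  rw [hmap]
  omega

theorem dual_c (hp : IsDat S G p) (k : ℤ) : cbt S G p k ≤ bt S ∅ G p k := by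
  have key : ∀ (X : Submodule (ZMod 2) (Finset V → P → ZMod 2))
      (D : (Finset V → P → ZMod 2) →ₗ[ZMod 2] (Finset V → P → ZMod 2)),
      Module.finrank (ZMod 2) ↥(X ⊓ LinearMap.ker D) + Module.finrank (ZMod 2) ↥(X.map D) =
        Module.finrank (ZMod 2) ↥X := by
    intro X D
    have h1 := LinearMap.finrank_range_add_finrank_ker (D.domRestrict X)
    have h2 : LinearMap.range (D.domRestrict X) = X.map D := LinearMap.range_domRestrict _ _
    have h3 : Module.finrank (ZMod 2) ↥(LinearMap.ker (D.domRestrict X)) =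
        Module.finrank (ZMod 2) ↥(X ⊓ LinearMap.ker D) := by
      have h4 : LinearMap.ker (D.domRestrict X) =
          (X ⊓ LinearMap.ker D).comap X.subtype := by
        ext x
        simp
      rw [h4]
      exact (Submodule.comapSubtypeEquivOfLe inf_le_left).finrank_eq
    rw [h2, h3] at h1
    omega
  have h1 := key (Ch S ∅ G p k) (cb S G p)
  have h2 := key (Ch S ∅ G p k) (bd V P)
  have h3 := dc_rank hp k
  have h4 := dc_rank hp (k - 1)
  rw [sub_add_cancel] at h4
  unfold cbt bt
  omega

end SNG
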