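import Pool.Agent.SNG.Defs
import Pool.Agent.SNG.Les

/-!
# Project SNG (architect helper40): definitions for the duality extension

`Sph n S G`: the flag complex `(S, G)` has the reduced homology over `F₂` of the sphere of dimension
`n - 1` (`bt` for the trivial group is the Betti number of the augmented chain complex; the degree
is the number of vertices).

`Rd`: the extended class of reducible flag complexes.  For even `n` all flag complexes with the
homology of `S^(n-1)` and reducible vertex links are allowed.

`E2`: the double complex with `e T U g`, `T ⊆ U ⊆ S`, `U` a clique, `e T U` invariant under `p s`,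
`s ∈ T`; total degree `|U| - |T|`.
-/

namespace SNG

open Finset

variable {V : Type} [Fintype V] [DecidableEq V]

/-- The flag complex `(S, G)` has the reduced homology over `F₂` of the sphere `S^(n-1)`. -/
def Sph (n : ℕ) (S : Finset V) (G : SimpleGraph V) : Prop :=
  ∀ j : ℤ, bt S ∅ G (fun _ => (1 : Unit)) j = if j = n then 1 else 0

/-- Reducible flag complexes, extended class: as `Red`, but for even `n` every flag complex with the
homology over `F₂` of `S^(n-1)` and with reducible vertex links is allowed. -/
inductive Rd : ℕ → Finset V → SimpleGraph V → Prop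
  | nil (G : SimpleGraph V) : Rd 0 ∅ G
  | even {n : ℕ} {S : Finset V} {G : SimpleGraph V} (hl : ∀ v ∈ S, Rd n (lk S G v) G)
      (hn : Even (n + 1)) (hs : Sph (n + 1) S G) : Rd (n + 1) S G
  | susp {n : ℕ} {S : Finset V} {G : SimpleGraph V} (hl : ∀ v ∈ S, Rd n (lk S G v) G) (a b : V)
      (ha : a ∈ S) (hb : b ∈ S) (hab : a ≠ b) (hn : ¬ G.Adj a b)
      (h : ∀ x ∈ S, x ≠ a → x ≠ b → G.Adj a x ∧ G.Adj b x) : Rd (n + 1) S G
  | cont {n : ℕ} {S : Finset V} {G : SimpleGraph V} (hl : ∀ v ∈ S, Rd n (lk S G v) G) (s t : V)
      (hs : s ∈ S) (ht : t ∈ S) (hst : G.Adj s t) (hq : NoSq S G s t)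
      (h : Rd (n + 1) (S.erase t) (contract G s t)) : Rd (n + 1) S G

theorem Red.rd {n : ℕ} {S : Finset V} {G : SimpleGraph V} (h : Red n S G) : Rd n S G := by
  induction h with
  | nil G => exact Rd.nil G
  | susp hl a b ha hb hab hn h ih => exact Rd.susp ih a b ha hb hab hn h
  | cont hl s t hs ht hst hq h ih1 ih2 => exact Rd.cont ih1 s t hs ht hst hq ih2

/-- `(S, G)` is a flag homology sphere over `F₂` of dimension `n - 1`: all links, including the link
of the empty simplex, have the homology of a sphere of the right dimension. -/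
def Gor (n : ℕ) (S : Finset V) (G : SimpleGraph V) : Prop :=
  ∀ T : Finset V, T ⊆ S → G.IsClique (T : Set V) → ∃ m : ℕ, m + T.card = n ∧ Sph m (lks S G T) G

variable {P : Type} [Group P]

/-- The chains of the double complex, total degree `m`. -/
def E2 (S : Finset V) (G : SimpleGraph V) (p : V → P) (m : ℤ) :
    Submodule (ZMod 2) (Finset V → Finset V → P → ZMod 2) where
  carrier := {e | (∀ T U : Finset V, ¬ (T ⊆ U ∧ U ⊆ S ∧ G.IsClique (U : Set V) ∧
    (U.card : ℤ) - T.card = m) → e T U = 0) ∧
    ∀ T U : Finset V, ∀ s ∈ T, ∀ g, e T U (g * p s) = e T U g}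
  zero_mem' := by simp
  add_mem' := by
    rintro f g ⟨h1, h2⟩ ⟨h3, h4⟩
    refine ⟨fun T U hT => ?_, fun T U s hs x => ?_⟩
    · rw [Pi.add_apply, Pi.add_apply, h1 T U hT, h3 T U hT, add_zero]
    · simp only [Pi.add_apply, h2 T U s hs, h4 T U s hs]
  smul_mem' := by
    rintro c f ⟨h1, h2⟩
    refine ⟨fun T U hT => ?_, fun T U s hs x => ?_⟩
    · rw [Pi.smul_apply, Pi.smul_apply, h1 T U hT, smul_zero]
    · simp only [Pi.smul_apply, h2 T U s hs]

variable (V P) in
/-- The first differential: the boundary in the direction of `U`. -/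
def e1 : (Finset V → Finset V → P → ZMod 2) →ₗ[ZMod 2] (Finset V → Finset V → P → ZMod 2) where
  toFun e := fun T U g => if T ⊆ U then ∑ s ∈ Uᶜ, e T (insert s U) g else 0
  map_add' e f := by
    funext T U g
    by_cases h : T ⊆ U
    · simp only [Pi.add_apply, if_pos h, sum_add_distrib]
    · simp only [Pi.add_apply, if_neg h, add_zero]
  map_smul' c e := by
    funext T U g
    by_cases h : T ⊆ U
    · simp only [Pi.smul_apply, smul_eq_mul, RingHom.id_apply, if_pos h, mul_sum]
    · simp only [Pi.smul_apply, smul_eq_mul, RingHom.id_apply, if_neg h, mul_zero]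

/-- The second differential: push forward in the direction of `T`. -/
def e2 (p : V → P) :
    (Finset V → Finset V → P → ZMod 2) →ₗ[ZMod 2] (Finset V → Finset V → P → ZMod 2) where
  toFun e := fun T U g =>
    if T ⊆ U then ∑ s ∈ T, (e (T.erase s) U g + e (T.erase s) U (g * p s)) else 0
  map_add' e f := by
    funext T U g
    by_cases h : T ⊆ U
    · simp only [Pi.add_apply, if_pos h, ← sum_add_distrib]
      exact sum_congr rfl fun s _ => by ring
    · simp only [Pi.add_apply, if_neg h, add_zero]
  map_smul' c e := by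
    funext T U g
    by_cases h : T ⊆ U
    · simp only [Pi.smul_apply, smul_eq_mul, RingHom.id_apply, if_pos h, mul_sum]
      exact sum_congr rfl fun s _ => by ring
    · simp only [Pi.smul_apply, smul_eq_mul, RingHom.id_apply, if_neg h, mul_zero]

/-- The total differential. -/
def eD (p : V → P) :
    (Finset V → Finset V → P → ZMod 2) →ₗ[ZMod 2] (Finset V → Finset V → P → ZMod 2) :=
  e1 V P + e2 p

open Classical in
/-- The coboundary of the complex `Ch S ∅ G p` (push forward to larger cliques). -/
noncomputable def cb (S : Finset V) (G : SimpleGraph V) (p : V → P) :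
    (Finset V → P → ZMod 2) →ₗ[ZMod 2] (Finset V → P → ZMod 2) where
  toFun f := fun T g => if T ⊆ S ∧ G.IsClique (T : Set V) then
    ∑ s ∈ T, (f (T.erase s) g + f (T.erase s) (g * p s)) else 0
  map_add' e f := by
    funext T g
    by_cases h : T ⊆ S ∧ G.IsClique (T : Set V)
    · simp only [Pi.add_apply, if_pos h, ← sum_add_distrib]
      exact sum_congr rfl fun s _ => by ring
    · simp only [Pi.add_apply, if_neg h, add_zero]
  map_smul' c e := by
    funext T g
    by_cases h : T ⊆ S ∧ G.IsClique (T : Set V)
    · simp only [Pi.smul_apply, smul_eq_mul, RingHom.id_apply, if_pos h, mul_sum]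
      exact sum_congr rfl fun s _ => by ring
    · simp only [Pi.smul_apply, smul_eq_mul, RingHom.id_apply, if_neg h, mul_zero]

/-- Cohomological Betti number in degree `k`. -/
noncomputable def cbt (S : Finset V) (G : SimpleGraph V) (p : V → P) (k : ℤ) : ℕ :=
  Module.finrank (ZMod 2) ↥(Ch S ∅ G p k ⊓ LinearMap.ker (cb S G p)) -
    Module.finrank (ZMod 2) ↥((Ch S ∅ G p (k - 1)).map (cb S G p))

end SNG
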