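import Pool.Agent.SNG.Core

/-!
# Project SNG (architect helper40): further definitions

Part 1: the class `Red`.  Part 2: chains over `F₂ = ZMod 2` of finite quotients.  Part 3: the space of
harmonic chains, operators with coefficients in the group ring.
-/

namespace SNG

open Finset

section comb

variable {V : Type} [DecidableEq V]

/-- Reducible flag complexes: `Red 0` is the empty complex only; `(S, G)` is in `Red (n + 1)` if all
its vertex links are in `Red n` and it is a suspension or has an edge in no induced 4-cycle whose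
contraction is in `Red (n + 1)`. -/
inductive Red : ℕ → Finset V → SimpleGraph V → Prop
  | nil (G : SimpleGraph V) : Red 0 ∅ G
  | susp {n : ℕ} {S : Finset V} {G : SimpleGraph V} (hl : ∀ v ∈ S, Red n (lk S G v) G) (a b : V)
      (ha : a ∈ S) (hb : b ∈ S) (hab : a ≠ b) (hn : ¬ G.Adj a b)
      (h : ∀ x ∈ S, x ≠ a → x ≠ b → G.Adj a x ∧ G.Adj b x) : Red (n + 1) S G
  | cont {n : ℕ} {S : Finset V} {G : SimpleGraph V} (hl : ∀ v ∈ S, Red n (lk S G v) G) (s t : V)
      (hs : s ∈ S) (ht : t ∈ S) (hst : G.Adj s t) (hq : NoSq S G s t)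
      (h : Red (n + 1) (S.erase t) (contract G s t)) : Red (n + 1) S G

end comb

/-! ### Chains over `F₂` -/

section chains

variable {V : Type} [Fintype V] [DecidableEq V] {P : Type} [Group P]

/-- Chains of degree `j` with coefficients in `F₂`: functions `f T g`, `T` a clique in `S` with
`j` elements, `g ∈ P`, invariant under right multiplication of `g` by `p s` for `s ∈ T` and for
`s ∈ R`. -/
def Ch (S R : Finset V) (G : SimpleGraph V) (p : V → P) (j : ℤ) :
    Submodule (ZMod 2) (Finset V → P → ZMod 2) where
  carrier := {f | (∀ T : Finset V, ¬ (T ⊆ S ∧ G.IsClique (T : Set V) ∧ (T.card : ℤ) = j) → f T = 0) ∧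
    ∀ T : Finset V, ∀ s ∈ T ∪ R, ∀ g, f T (g * p s) = f T g}
  zero_mem' := by simp
  add_mem' := by
    rintro f g ⟨h1, h2⟩ ⟨h3, h4⟩
    refine ⟨fun T hT => ?_, fun T s hs x => ?_⟩
    · rw [Pi.add_apply, h1 T hT, h3 T hT, add_zero]
    · rw [Pi.add_apply, Pi.add_apply, h2 T s hs, h4 T s hs, Pi.add_apply]
  smul_mem' := by
    rintro c f ⟨h1, h2⟩
    refine ⟨fun T hT => ?_, fun T s hs x => ?_⟩
    · rw [Pi.smul_apply, h1 T hT, smul_zero]
    · rw [Pi.smul_apply, Pi.smul_apply, h2 T s hs, Pi.smul_apply]

variable (V P)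

/-- The boundary operator `(∂ f) T g = ∑_{s ∉ T} f (T ∪ s) g`. -/
def bd : (Finset V → P → ZMod 2) →ₗ[ZMod 2] (Finset V → P → ZMod 2) where
  toFun f := fun T g => ∑ s ∈ Tᶜ, f (insert s T) g
  map_add' f g := by
    funext T x
    simp only [Pi.add_apply, sum_add_distrib]
  map_smul' c f := by
    funext T x
    simp only [Pi.smul_apply, smul_eq_mul, RingHom.id_apply, mul_sum]

variable {V P}

/-- The Betti number in degree `j`. -/
noncomputable def bt (S R : Finset V) (G : SimpleGraph V) (p : V → P) (j : ℤ) : ℕ :=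
  Module.finrank (ZMod 2) ↥(Ch S R G p j ⊓ LinearMap.ker (bd V P)) -
    Module.finrank (ZMod 2) ↥((Ch S R G p (j + 1)).map (bd V P))

/-- `p` satisfies the relations of the right-angled Coxeter group of `(S, G)` and there are
coordinate functions modulo 2. -/
structure IsDat (S : Finset V) (G : SimpleGraph V) (p : V → P) : Prop where
  sq : ∀ v ∈ S, p v * p v = 1
  comm : ∀ v ∈ S, ∀ w ∈ S, G.Adj v w → p v * p w = p w * p v
  co : ∃ c : V → P → ZMod 2, ∀ v ∈ S, ∀ w ∈ S, ∀ g, c v (g * p w) = c v g + if w = v then 1 else 0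

/-- Coordinate functions for every clique separately. -/
def Loc (S : Finset V) (G : SimpleGraph V) (p : V → P) : Prop :=
  ∀ T : Finset V, T ⊆ S → G.IsClique (T : Set V) → ∃ c : V → P → ZMod 2, ∀ v ∈ T, ∀ w ∈ T, ∀ g,
    c v (g * p w) = c v g + if w = v then 1 else 0

omit [Fintype V] in
theorem IsDat.loc {S : Finset V} {G : SimpleGraph V} {p : V → P} (h : IsDat S G p) : Loc S G p := by
  obtain ⟨c, hc⟩ := h.co
  exact fun T hT _ => ⟨c, fun v hv w hw g => hc v (hT hv) w (hT hw) g⟩

/-- The normalised Betti number in degree `j` of the finite 2-group quotients can be made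
arbitrarily small. -/
def Zp (S : Finset V) (G : SimpleGraph V) (j : ℤ) : Prop :=
  ∀ m : ℕ, ∃ (P : Type) (_ : Group P) (_ : Finite P) (p : V → P), IsPGroup 2 P ∧ IsDat S G p ∧
    m * bt S ∅ G p j ≤ Nat.card P

end chains

/-! ### The space of harmonic chains -/

section racg

variable {V : Type} [LinearOrder V] [Fintype V] {P : Type} [Group P]

/-- The space of harmonic `i`-chains of a group `P` with elements `p s`. -/
def HarmS (G : SimpleGraph V) (p : V → P) (i : ℕ) : Submodule ℝ (Finset V → P → ℝ) where
  carrier := {f | Harm G p i f}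
  zero_mem' := by
    constructor <;> simp [bdry, cobd]
  add_mem' := by
    rintro f g ⟨h1, h2, h3, h4⟩ ⟨k1, k2, k3, k4⟩
    refine ⟨fun T hT x => ?_, fun T s hs x => ?_, fun T x => ?_, fun T hT x => ?_⟩
    · simp [h1 T hT, k1 T hT]
    · simp only [Pi.add_apply, h2 T s hs, k2 T s hs]
      ring
    · have e : bdry (f + g) T x = bdry f T x + bdry g T x := by
        simp only [bdry, Pi.add_apply, mul_add, sum_add_distrib]
      rw [e, h3, k3, add_zero]
    · have e : cobd p (f + g) T x = cobd p f T x + cobd p g T x := by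
        simp only [cobd, Pi.add_apply, ← sum_add_distrib]
        exact sum_congr rfl fun s _ => by ring
      rw [e, h4 T hT, k4 T hT, add_zero]
  smul_mem' := by
    rintro c f ⟨h1, h2, h3, h4⟩
    refine ⟨fun T hT x => ?_, fun T s hs x => ?_, fun T x => ?_, fun T hT x => ?_⟩
    · simp [h1 T hT]
    · simp only [Pi.smul_apply, smul_eq_mul, h2 T s hs]
      ring
    · have e : bdry (c • f) T x = c * bdry f T x := by
        simp only [bdry, Pi.smul_apply, smul_eq_mul, mul_sum]
        exact sum_congr rfl fun s _ => by ring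
      rw [e, h3, mul_zero]
    · have e : cobd p (c • f) T x = c * cobd p f T x := by
        simp only [cobd, Pi.smul_apply, smul_eq_mul, mul_sum]
        exact sum_congr rfl fun s _ => by ring
      rw [e, h4 T hT, mul_zero]

end racg

/-! ### Operators with coefficients in the group ring -/

section op

variable {W X I J : Type} [Group W] [Group X] [Fintype I]

/-- The operator on functions on `I × X` given by the matrix `A` over the group ring of `W` and the
homomorphism `φ : W → X`. -/
def op (φ : W →* X) (A : J → I → W →₀ ℤ) (f : I → X → ℝ) (j : J) (x : X) : ℝ :=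
  ∑ i, (A j i).sum fun u c => (c : ℝ) * f i (x * φ u)

/-- The kernel of `op φ A`. -/
def opKer (φ : W →* X) (A : J → I → W →₀ ℤ) : Submodule ℝ (I → X → ℝ) where
  carrier := {f | ∀ j x, op φ A f j x = 0}
  zero_mem' := by
    intro j x
    simp [op]
  add_mem' := by
    intro f g hf hg j x
    have e : op φ A (f + g) j x = op φ A f j x + op φ A g j x := by
      simp only [op, Pi.add_apply, mul_add, Finsupp.sum_add, sum_add_distrib]
    rw [e, hf j x, hg j x, add_zero]
  smul_mem' := by
    intro c f hf j x
    have e : op φ A (c • f) j x = c * op φ A f j x := by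
      simp only [op, Pi.smul_apply, smul_eq_mul, mul_sum, Finsupp.mul_sum]
      refine sum_congr rfl fun i _ => ?_
      exact Finsupp.sum_congr fun u _ => by ring
    rw [e, hf j x, mul_zero]

end op

end SNG
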