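import Pool.Agent.SNG.DA
import Pool.Agent.SNG.DB
import Pool.Agent.SNG.DC

/-!
# Project SNG (architect helper40): Poincare duality over `F₂` for finite quotients
-/

namespace SNG

open Finset

variable {V : Type} [Fintype V] [DecidableEq V] {S : Finset V} {G : SimpleGraph V}

theorem dual_le {P : Type} [Group P] [Finite P] {p : V → P} {n : ℕ} (hG : Gor n S G)
    (hp : IsDat S G p) (j : ℤ) : bt S ∅ G p j ≤ bt S ∅ G p (n - j) :=
  ((dual_a hp j).trans (dual_b hG hp j)).trans (dual_c hp _)

theorem zp_dual {n : ℕ} (hG : Gor n S G) {j : ℤ} (h : Zp S G (n - j)) : Zp S G j := by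
  intro m
  obtain ⟨P, _, _, p, hP, hp, hb⟩ := h m
  exact ⟨P, inferInstance, inferInstance, p, hP, hp, (Nat.mul_le_mul_left _ (dual_le hG hp j)).trans hb⟩

end SNG
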