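import Pool.Agent.SNG.Basic

/-!
# Project SNG (architect helper40), module Edge: removing an edge

Short exact sequence (`Ses`) `0 → Ch S ∅ (cut G s t) j → Ch S ∅ G j → Ch ck {s, t} G (j - 2) → 0`
with `ck = ck S G s t`, `ι = id`, `π f T = if s ∈ T ∨ t ∈ T then 0 else f (insert s (insert t T))`.
* A clique of `cut G s t` is a clique of `G` not containing both `s` and `t` (and conversely).
* `π` commutes with `bd`: if `s ∈ T` or `t ∈ T` both sides are `0`; otherwise both sides are
  `∑_{x ∉ T, x ≠ s, x ≠ t} f (insert x (insert s (insert t T)))`.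
* `π f ∈ Ch ck {s, t} G (j - 2)`: if `π f T ≠ 0` then `insert s (insert t T) ⊆ S` is a clique with `j`
  elements, `s, t ∉ T`, so `T ⊆ ck`.
* exact: `π f = 0` implies `f T = 0` if `s, t ∈ T` (apply to `(T.erase s).erase t`).
* surjective: `f T = if s ∈ T ∧ t ∈ T then q ((T.erase s).erase t) else 0` (`s, t ∉ ck`;
  `hs, ht, hst` are used here).
`edge_add` is `les_a` with `bt_eq_be`, `bt_eq_be_shift`.
-/

namespace SNG

open Finset

variable {V : Type} [Fintype V] [DecidableEq V] {P : Type} [Group P] [Finite P]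

omit [Fintype V] [DecidableEq V] in
theorem isClique_cut {G : SimpleGraph V} {s t : V} (hst : G.Adj s t) (T : Finset V) :
    (cut G s t).IsClique (T : Set V) ↔ G.IsClique (T : Set V) ∧ ¬ (s ∈ T ∧ t ∈ T) := by
  constructor
  · intro h
    refine ⟨fun x hx y hy hxy => (h hx hy hxy).1, fun h2 => ?_⟩
    exact (h (Finset.mem_coe.2 h2.1) (Finset.mem_coe.2 h2.2) hst.ne).2.1 ⟨rfl, rfl⟩
  · rintro ⟨h, h2⟩ x hx y hy hxy
    refine ⟨h hx hy hxy, ?_, ?_⟩
    · rintro ⟨rfl, rfl⟩
      exact h2 ⟨hx, hy⟩
    · rintro ⟨rfl, rfl⟩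
      exact h2 ⟨hy, hx⟩

/-- The restriction to the link of the edge `st`. -/
private def edgePi (s t : V) : (Finset V → P → ZMod 2) →ₗ[ZMod 2] (Finset V → P → ZMod 2) where
  toFun f := fun T g => if s ∈ T ∨ t ∈ T then 0 else f (insert s (insert t T)) g
  map_add' f g := by
    funext T x
    simp only [Pi.add_apply]
    split_ifs
    · rw [add_zero]
    · rfl
  map_smul' c f := by
    funext T x
    simp only [Pi.smul_apply, smul_eq_mul, RingHom.id_apply]
    split_ifs
    · rw [mul_zero]
    · rfl

omit [Fintype V] [Finite P] in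
private theorem edgePi_pos {s t : V} {T : Finset V} (h : s ∈ T ∨ t ∈ T)
    (f : Finset V → P → ZMod 2) (g : P) : edgePi s t f T g = 0 := if_pos h

omit [Fintype V] [Finite P] in
private theorem edgePi_neg {s t : V} {T : Finset V} (h : ¬ (s ∈ T ∨ t ∈ T))
    (f : Finset V → P → ZMod 2) (g : P) : edgePi s t f T g = f (insert s (insert t T)) g :=
  if_neg h

omit [Finite P] in
private theorem edge_comm (s t : V) (f : Finset V → P → ZMod 2) :
    bd V P (edgePi s t f) = edgePi s t (bd V P f) := by
  funext T g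
  change ∑ x ∈ Tᶜ, edgePi s t f (insert x T) g = _
  by_cases h : s ∈ T ∨ t ∈ T
  · rw [edgePi_pos h]
    refine Finset.sum_eq_zero fun x _ => edgePi_pos ?_ _ _
    exact h.imp (fun h => Finset.mem_insert_of_mem h) (fun h => Finset.mem_insert_of_mem h)
  · rw [edgePi_neg h]
    change _ = ∑ x ∈ (insert s (insert t T))ᶜ, f (insert x (insert s (insert t T))) g
    have hsub : (insert s (insert t T))ᶜ ⊆ Tᶜ := by
      intro x hx
      rw [Finset.mem_compl] at hx ⊢
      exact fun h2 => hx (Finset.mem_insert_of_mem (Finset.mem_insert_of_mem h2))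
    rw [← Finset.sum_subset hsub]
    · refine Finset.sum_congr rfl fun x hx => ?_
      rw [Finset.mem_compl, Finset.mem_insert, Finset.mem_insert, not_or, not_or] at hx
      rw [not_or] at h
      rw [edgePi_neg]
      · congr 1
        rw [Finset.insert_comm x s, Finset.insert_comm x t]
      · rw [Finset.mem_insert, Finset.mem_insert, not_or, not_or, not_or]
        exact ⟨⟨fun h2 => hx.1 h2.symm, h.1⟩, ⟨fun h2 => hx.2.1 h2.symm, h.2⟩⟩
    · intro x hx hx2
      rw [Finset.mem_compl] at hx
      rw [Finset.mem_compl, not_not, Finset.mem_insert, Finset.mem_insert] at hx2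
      refine edgePi_pos ?_ _ _
      rcases hx2 with rfl | rfl | h2
      · exact Or.inl (Finset.mem_insert_self _ _)
      · exact Or.inr (Finset.mem_insert_self _ _)
      · exact absurd h2 hx

omit [Fintype V] in
private theorem edge_dec {s t : V} {T : Finset V} (hs : s ∈ T) (ht : t ∈ T) (hst : s ≠ t) :
    insert s (insert t ((T.erase s).erase t)) = T := by
  rw [Finset.insert_erase (Finset.mem_erase.2 ⟨hst.symm, ht⟩), Finset.insert_erase hs]

omit [Fintype V] in
private theorem edge_nm {s t : V} (T : Finset V) :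
    ¬ (s ∈ (T.erase s).erase t ∨ t ∈ (T.erase s).erase t) := by
  rintro (h | h)
  · exact (Finset.mem_erase.1 (Finset.mem_erase.1 h).2).1 rfl
  · exact (Finset.mem_erase.1 h).1 rfl

omit [Fintype V] in
private theorem edge_ie {s t : V} {T : Finset V} (h : ¬ (s ∈ T ∨ t ∈ T)) (hst : s ≠ t) :
    ((insert s (insert t T)).erase s).erase t = T := by
  rw [not_or] at h
  rw [Finset.erase_insert, Finset.erase_insert h.2]
  rw [Finset.mem_insert, not_or]
  exact ⟨hst, h.1⟩

omit [Fintype V] in
private theorem edge_card {s t : V} {T : Finset V} (h : ¬ (s ∈ T ∨ t ∈ T)) (hst : s ≠ t) :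
    (insert s (insert t T)).card = T.card + 2 := by
  rw [not_or] at h
  rw [Finset.card_insert_of_notMem, Finset.card_insert_of_notMem h.2]
  rw [Finset.mem_insert, not_or]
  exact ⟨hst, h.1⟩

omit [Fintype V] in
private theorem edge_clq {S : Finset V} {G : SimpleGraph V} {s t : V} (hs : s ∈ S) (ht : t ∈ S)
    (hst : G.Adj s t) {T : Finset V} (h : ¬ (s ∈ T ∨ t ∈ T)) :
    (insert s (insert t T) ⊆ S ∧ G.IsClique (insert s (insert t T) : Finset V)) ↔
      T ⊆ ck S G s t ∧ G.IsClique (T : Set V) := by
  constructor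
  · rintro ⟨h1, h2⟩
    refine ⟨fun x hx => ?_, fun x hx y hy hxy => h2 ?_ ?_ hxy⟩
    · have hx' : x ∈ insert s (insert t T) :=
        Finset.mem_insert_of_mem (Finset.mem_insert_of_mem hx)
      rw [mem_ck]
      refine ⟨h1 hx', h2 ?_ ?_ ?_, h2 ?_ ?_ ?_⟩
      · exact Finset.mem_coe.2 (Finset.mem_insert_self _ _)
      · exact Finset.mem_coe.2 hx'
      · rintro rfl
        exact h (Or.inl hx)
      · exact Finset.mem_coe.2 (Finset.mem_insert_of_mem (Finset.mem_insert_self _ _))
      · exact Finset.mem_coe.2 hx'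
      · rintro rfl
        exact h (Or.inr hx)
    · exact Finset.mem_coe.2 (Finset.mem_insert_of_mem (Finset.mem_insert_of_mem hx))
    · exact Finset.mem_coe.2 (Finset.mem_insert_of_mem (Finset.mem_insert_of_mem hy))
  · rintro ⟨h1, h2⟩
    refine ⟨fun x hx => ?_, ?_⟩
    · rw [Finset.mem_insert, Finset.mem_insert] at hx
      rcases hx with rfl | rfl | hx
      · exact hs
      · exact ht
      · exact (mem_ck.1 (h1 hx)).1
    · intro x hx y hy hxy
      rw [Finset.mem_coe, Finset.mem_insert, Finset.mem_insert] at hx hy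
      rcases hx with rfl | rfl | hx
      · rcases hy with rfl | rfl | hy
        · exact absurd rfl hxy
        · exact hst
        · exact (mem_ck.1 (h1 hy)).2.1
      · rcases hy with rfl | rfl | hy
        · exact hst.symm
        · exact absurd rfl hxy
        · exact (mem_ck.1 (h1 hy)).2.2
      · rcases hy with rfl | rfl | hy
        · exact (mem_ck.1 (h1 hx)).2.1.symm
        · exact (mem_ck.1 (h1 hx)).2.2.symm
        · exact h2 hx hy hxy

omit [Finite P] in
private theorem edge_ses {S : Finset V} {G : SimpleGraph V} (p : V → P) {s t : V} (hs : s ∈ S)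
    (ht : t ∈ S) (hst : G.Adj s t) :
    Ses (fun j => Ch S ∅ (cut G s t) p j) (fun j => Ch S ∅ G p j)
      (fun j => Ch (ck S G s t) {s, t} G p (j - 2)) (bd V P) (bd V P) (bd V P) LinearMap.id
      (edgePi s t) where
  dA_mem j a ha := bd_mem ha
  dC_mem j a ha := bd_mem ha
  dQ_mem j a ha := by
    refine bd_mem ?_
    rw [show j - 2 + 1 = j + 1 - 2 by ring]
    exact ha
  dA2 := bd_bd
  dC2 := bd_bd
  dQ2 := bd_bd
  ι_mem j a ha := by
    refine ⟨fun T hT => ha.1 T fun h => hT ⟨h.1, ((isClique_cut hst T).1 h.2.1).1, h.2.2⟩, ha.2⟩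
  π_mem j c hc := by
    refine ⟨fun T hT => ?_, fun T r hr g => ?_⟩
    · funext g
      by_cases h : s ∈ T ∨ t ∈ T
      · exact edgePi_pos h c g
      · rw [edgePi_neg h c g]
        refine congrFun (hc.1 (insert s (insert t T)) fun h2 => ?_) g
        · refine hT ?_
          have h3 := (edge_clq hs ht hst h).1 ⟨h2.1, h2.2.1⟩
          refine ⟨h3.1, h3.2, ?_⟩
          have h4 := h2.2.2
          rw [edge_card h hst.ne] at h4
          push_cast at h4
          linarith
    · by_cases h : s ∈ T ∨ t ∈ T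
      · rw [edgePi_pos h, edgePi_pos h]
      · rw [edgePi_neg h, edgePi_neg h]
        refine hc.2 _ r ?_ g
        rw [Finset.union_empty, Finset.mem_insert, Finset.mem_insert]
        rw [Finset.mem_union, Finset.mem_insert, Finset.mem_singleton] at hr
        tauto
  ι_d j a _ := rfl
  π_d j c _ := edge_comm s t c
  inj j a _ h := h
  π_ι j a ha := by
    funext T g
    by_cases h : s ∈ T ∨ t ∈ T
    · exact edgePi_pos h _ g
    · rw [edgePi_neg h]
      change a (insert s (insert t T)) g = 0
      rw [ha.1]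
      · rfl
      · intro h2
        exact ((isClique_cut hst _).1 h2.2.1).2 ⟨Finset.mem_insert_self _ _,
          Finset.mem_insert_of_mem (Finset.mem_insert_self _ _)⟩
  exact j c hc h := by
    refine ⟨c, ⟨fun T hT => ?_, hc.2⟩, rfl⟩
    by_cases h1 : s ∈ T ∧ t ∈ T
    · funext g
      have h2 := congrFun (congrFun h ((T.erase s).erase t)) g
      rw [edgePi_neg (edge_nm T), edge_dec h1.1 h1.2 hst.ne] at h2
      exact h2
    · refine hc.1 T fun h2 => hT ⟨h2.1, (isClique_cut hst T).2 ⟨h2.2.1, h1⟩, h2.2.2⟩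
  surj j q hq := by
    refine ⟨fun T g => if s ∈ T ∧ t ∈ T then q ((T.erase s).erase t) g else 0,
      ⟨fun T hT => ?_, fun T r hr g => ?_⟩, ?_⟩
    · funext g
      change (if s ∈ T ∧ t ∈ T then q ((T.erase s).erase t) g else 0) = 0
      split_ifs with h
      · rw [hq.1]
        · rfl
        · intro h2
          refine hT ?_
          have h3 := (edge_clq hs ht hst (edge_nm T)).2 ⟨h2.1, h2.2.1⟩
          rw [edge_dec h.1 h.2 hst.ne] at h3
          refine ⟨h3.1, h3.2, ?_⟩
          have h4 := edge_card (edge_nm (s := s) (t := t) T) hst.ne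
          rw [edge_dec h.1 h.2 hst.ne] at h4
          have h5 := h2.2.2
          rw [h4]
          push_cast
          linarith
      · rfl
    · change (if s ∈ T ∧ t ∈ T then q ((T.erase s).erase t) (g * p r) else 0) =
        if s ∈ T ∧ t ∈ T then q ((T.erase s).erase t) g else 0
      split_ifs with h
      · refine hq.2 _ r ?_ g
        rw [Finset.union_empty] at hr
        rw [Finset.mem_union, Finset.mem_insert, Finset.mem_singleton, Finset.mem_erase,
          Finset.mem_erase]
        tauto
      · rfl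
    · funext T g
      by_cases h : s ∈ T ∨ t ∈ T
      · rw [edgePi_pos h, hq.1]
        · rfl
        · intro h2
          rcases h with h | h
          · exact G.loopless.irrefl s (mem_ck.1 (h2.1 h)).2.1
          · exact G.loopless.irrefl t (mem_ck.1 (h2.1 h)).2.2
      · rw [edgePi_neg h]
        change (if s ∈ insert s (insert t T) ∧ t ∈ insert s (insert t T) then
          q (((insert s (insert t T)).erase s).erase t) g else 0) = _
        rw [if_pos ⟨Finset.mem_insert_self _ _,
          Finset.mem_insert_of_mem (Finset.mem_insert_self _ _)⟩, edge_ie h hst.ne]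

theorem edge_add {S : Finset V} {G : SimpleGraph V} {p : V → P} {s t : V} (hs : s ∈ S) (ht : t ∈ S)
    (hst : G.Adj s t) (j : ℤ) :
    bt S ∅ G p j ≤ bt S ∅ (cut G s t) p j + bt (ck S G s t) {s, t} G p (j - 2) := by
  rw [bt_eq_be_shift, bt_eq_be, bt_eq_be]
  exact les_a (edge_ses p hs ht hst) j

end SNG
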