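import Mathlib

/-!
# Project SNG (architect helper40), module Eig: traces and kernels of integer matrices

`B` an integer matrix, `A = BᵀB` over `ℝ`: symmetric, positive semidefinite, `ker A = ker B`
(`x ⬝ᵥ A x = |B x|²`).  Let `λ_1, …, λ_N` (`N = card n`) be its eigenvalues
(`Matrix.IsHermitian.eigenvalues`), `0 ≤ λ_i ≤ K` (Rayleigh quotient `hK` at an eigenvector).
* `trace ((1 - (1/K) • A) ^ (2 M)) = ∑_i (1 - λ_i / K) ^ (2 M)` (spectral theorem
  `A = U D U*`, so `(1 - A/K) ^ (2M) = U (1 - D/K) ^ (2M) U*`).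
* `#{i : λ_i = 0} = dim ker A = dim ker B`  (`Matrix.IsHermitian.rank_eq_card_non_zero_eigs`,
  rank nullity).
* `r = #{i : 0 < λ_i < δ}` satisfies `r * log (1/δ) ≤ N * log K`: the characteristic polynomial of the
  INTEGER matrix `BᵀB` is `∏ (X - λ_i) = X ^ z * ∏_{λ_i ≠ 0} (X - λ_i)`, so the product of the nonzero
  eigenvalues is, up to sign, its coefficient at `X ^ z` (`z = #{i : λ_i = 0}`), which is a nonzero
  integer.  So `1 ≤ ∏_{λ_i ≠ 0} λ_i ≤ δ ^ r * K ^ N` (`K ≥ 1`).
* `(1 - λ/K) ^ (2M)` is `1` for `λ = 0`, at most `1` for `0 < λ < δ`, at most `(1 - δ/K) ^ (2M)` for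
  `δ ≤ λ ≤ K`.
-/

namespace SNG

open Module

section eig

open Matrix Finset

variable {n : Type} [Fintype n] [DecidableEq n]

/-- trace of powers of `1 - A / K` -/
private theorem eig_trace {A : Matrix n n ℝ} (hA : A.IsHermitian) (K : ℝ) (k : ℕ) :
    Matrix.trace ((1 - (1 / K) • A) ^ k) = ∑ i, (1 - hA.eigenvalues i / K) ^ k := by
  set φ := Unitary.conjStarAlgAut ℝ (Matrix n n ℝ) hA.eigenvectorUnitary with hφ
  have h1 : A = φ (diagonal hA.eigenvalues) := hA.spectral_theorem
  have h2 : (1 - (1 / K) • A) = φ (1 - (1 / K) • diagonal hA.eigenvalues) := by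
    rw [map_sub, map_one, map_smul, ← h1]
  have h3 : (1 - (1 / K) • diagonal hA.eigenvalues : Matrix n n ℝ) =
      diagonal fun i => 1 - hA.eigenvalues i / K := by
    ext i j
    by_cases h : i = j
    · subst h
      simp [Matrix.sub_apply, Matrix.smul_apply]
      ring
    · simp [Matrix.sub_apply, Matrix.smul_apply, h]
  rw [h2, ← map_pow, h3, Matrix.diagonal_pow, hφ, Unitary.conjStarAlgAut_apply,
    Matrix.trace_mul_cycle]
  rw [Unitary.coe_star_mul_self, one_mul, Matrix.trace_diagonal]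
  rfl

/-- the product of the nonzero eigenvalues of an integer matrix -/
private theorem eig_prod {Z : Matrix n n ℤ} {A : Matrix n n ℝ} (hZ : A = Z.map (Int.cast : ℤ → ℝ))
    (hA : A.IsHermitian) :
    1 ≤ ∏ i ∈ univ.filter (fun i => hA.eigenvalues i ≠ 0), |hA.eigenvalues i| := by
  classical
  set l := hA.eigenvalues with hl
  set s := univ.filter (fun i => l i ≠ 0) with hs
  set s' := univ.filter (fun i => ¬ l i ≠ 0) with hs'
  have h1 : A.charpoly = ∏ i, (Polynomial.X - Polynomial.C (l i)) := hA.charpoly_eq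
  have h2 : A.charpoly = (∏ i ∈ s, (Polynomial.X - Polynomial.C (l i))) *
      Polynomial.X ^ s'.card := by
    rw [h1, ← Finset.prod_filter_mul_prod_filter_not univ (fun i => l i ≠ 0)]
    congr 1
    rw [← Finset.prod_const]
    refine Finset.prod_congr rfl fun i hi => ?_
    have h3 : l i = 0 := by
      have := (Finset.mem_filter.1 hi).2
      exact not_not.1 this
    rw [h3, map_zero, sub_zero]
  have h3 : A.charpoly.coeff s'.card = ∏ i ∈ s, (- l i) := by
    rw [h2]
    have h4 := Polynomial.coeff_mul_X_pow (∏ i ∈ s, (Polynomial.X - Polynomial.C (l i)))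
      s'.card 0
    rw [zero_add] at h4
    rw [h4, Polynomial.coeff_zero_eq_eval_zero, Polynomial.eval_prod]
    refine Finset.prod_congr rfl fun i _ => ?_
    simp
  have h4 : A.charpoly.coeff s'.card = ((Z.charpoly.coeff s'.card : ℤ) : ℝ) := by
    rw [hZ]
    have h5 : (Z.map (Int.cast : ℤ → ℝ)) = Z.map (Int.castRingHom ℝ) := rfl
    rw [h5, Matrix.charpoly_map, Polynomial.coeff_map]
    rfl
  have h5 : ∏ i ∈ s, |l i| = |((Z.charpoly.coeff s'.card : ℤ) : ℝ)| := by
    rw [← h4, h3, Finset.abs_prod]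
    exact Finset.prod_congr rfl fun i _ => (abs_neg _).symm
  have h6 : ∏ i ∈ s, |l i| ≠ 0 := by
    refine Finset.prod_ne_zero_iff.2 fun i hi => ?_
    exact abs_ne_zero.2 (Finset.mem_filter.1 hi).2
  rw [h5] at h6 ⊢
  have h7 : Z.charpoly.coeff s'.card ≠ 0 := by
    intro h
    rw [h] at h6
    simp at h6
  have h8 : 1 ≤ |Z.charpoly.coeff s'.card| := Int.one_le_abs h7
  exact_mod_cast h8

end eig

theorem trace_le {m n : Type} [Fintype m] [Fintype n] [DecidableEq n] (B : Matrix m n ℤ) {K δ : ℝ}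
    (hK1 : 1 ≤ K)
    (hK : ∀ x : n → ℝ, (B.map (Int.cast : ℤ → ℝ)).mulVec x ⬝ᵥ (B.map (Int.cast : ℤ → ℝ)).mulVec x ≤
      K * (x ⬝ᵥ x)) (hδ : 0 < δ) (hδ1 : δ < 1) (M : ℕ) :
    Matrix.trace ((1 - (1 / K) • ((B.map (Int.cast : ℤ → ℝ)).transpose *
      B.map (Int.cast : ℤ → ℝ))) ^ (2 * M)) ≤
      finrank ℝ ↥(LinearMap.ker (B.map (Int.cast : ℤ → ℝ)).mulVecLin) +
        Fintype.card n * (Real.log K / Real.log (1 / δ)) +
        Fintype.card n * (1 - δ / K) ^ (2 * M) := by
  classical
  set BR : Matrix m n ℝ := B.map (Int.cast : ℤ → ℝ) with hBR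
  set A : Matrix n n ℝ := BR.transpose * BR with hAdef
  have hA : A.IsHermitian := by
    rw [Matrix.IsHermitian, Matrix.conjTranspose_eq_transpose_of_trivial, hAdef,
      Matrix.transpose_mul, Matrix.transpose_transpose]
  set l := hA.eigenvalues with hl
  have hK0 : 0 < K := by linarith
  -- the eigenvalues
  have hev : ∀ i, 0 ≤ l i ∧ l i ≤ K := by
    intro i
    set x : n → ℝ := ⇑(hA.eigenvectorBasis i) with hx
    have h1 : A.mulVec x = l i • x := hA.mulVec_eigenvectorBasis i
    have h2 : x ⬝ᵥ A.mulVec x = (BR.mulVec x) ⬝ᵥ (BR.mulVec x) := by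
      rw [hAdef, ← Matrix.mulVec_mulVec, Matrix.dotProduct_mulVec, Matrix.vecMul_transpose]
    have hx0 : x ≠ 0 := by
      intro h
      have h3 : hA.eigenvectorBasis i = 0 := by
        ext j
        exact congrFun h j
      exact hA.eigenvectorBasis.toBasis.ne_zero i (by simpa using h3)
    have h3 : 0 < x ⬝ᵥ x := by
      rcases lt_or_eq_of_le (show 0 ≤ x ⬝ᵥ x from
        Finset.sum_nonneg fun j _ => mul_self_nonneg _) with h | h
      · exact h
      · exact absurd (dotProduct_self_eq_zero.1 h.symm) hx0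
    rw [h1, dotProduct_smul, smul_eq_mul] at h2
    have h4 : 0 ≤ (BR.mulVec x) ⬝ᵥ (BR.mulVec x) :=
      Finset.sum_nonneg fun j _ => mul_self_nonneg _
    have h5 := hK x
    rw [← h2] at h4 h5
    exact ⟨by
      by_contra h
      push Not at h
      nlinarith, le_of_mul_le_mul_right h5 h3⟩
  -- the kernel
  have hker : finrank ℝ ↥(LinearMap.ker BR.mulVecLin) =
      (Finset.univ.filter fun i => l i = 0).card := by
    have h1 := LinearMap.finrank_range_add_finrank_ker BR.mulVecLin
    have h2 : finrank ℝ ↥(LinearMap.range BR.mulVecLin) = A.rank := by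
      rw [hAdef, Matrix.rank_transpose_mul_self]
      rfl
    rw [h2, hA.rank_eq_card_non_zero_eigs, Fintype.card_subtype, Module.finrank_pi] at h1
    have h3 := Finset.card_filter_add_card_filter_not (s := (Finset.univ : Finset n))
      (fun i => l i = 0)
    rw [Finset.card_univ] at h3
    have h4 : (Finset.univ.filter fun i => ¬ l i = 0).card =
      (Finset.univ.filter fun i => hA.eigenvalues i ≠ 0).card := rfl
    omega
  -- the small eigenvalues
  have hlogd : 0 < Real.log (1 / δ) := Real.log_pos ((one_lt_div hδ).2 hδ1)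
  have hsm : ((Finset.univ.filter fun i => l i ≠ 0 ∧ l i < δ).card : ℝ) ≤
      Fintype.card n * (Real.log K / Real.log (1 / δ)) := by
    have hZ : A = ((B.transpose * B).map (Int.cast : ℤ → ℝ)) := by
      rw [hAdef, hBR]
      ext i j
      simp [Matrix.mul_apply, Matrix.transpose_apply]
    have h1 := eig_prod hZ hA
    have h2 := Real.log_nonneg h1
    rw [Real.log_prod (fun i hi => abs_ne_zero.2 (Finset.mem_filter.1 hi).2)] at h2
    have hlK : 0 ≤ Real.log K := Real.log_nonneg hK1
    have h3 : ∀ i ∈ Finset.univ.filter (fun i => hA.eigenvalues i ≠ 0),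
        Real.log |hA.eigenvalues i| ≤ Real.log K + if l i < δ then Real.log δ else 0 := by
      intro i hi
      have hi0 : l i ≠ 0 := (Finset.mem_filter.1 hi).2
      have hi1 : 0 < l i := lt_of_le_of_ne (hev i).1 (Ne.symm hi0)
      rw [show hA.eigenvalues i = l i from rfl, abs_of_pos hi1]
      split_ifs with h
      · have := Real.log_le_log hi1 h.le
        linarith
      · rw [add_zero]
        exact Real.log_le_log hi1 (hev i).2
    have h4 := h2.trans (Finset.sum_le_sum h3)
    rw [Finset.sum_add_distrib, Finset.sum_const, ← Finset.sum_filter, Finset.sum_const,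
      nsmul_eq_mul, nsmul_eq_mul, Finset.filter_filter] at h4
    have h5 : ((Finset.univ.filter fun i => hA.eigenvalues i ≠ 0).card : ℝ) ≤ Fintype.card n := by
      exact_mod_cast (Finset.card_le_univ _)
    have h6 : Real.log (1 / δ) = - Real.log δ := by
      rw [one_div, Real.log_inv]
    rw [← mul_div_assoc, le_div_iff₀ hlogd, h6]
    have h7 := mul_le_mul_of_nonneg_right h5 hlK
    have h8 : (Finset.univ.filter fun i => hA.eigenvalues i ≠ 0 ∧ l i < δ) =
      (Finset.univ.filter fun i => l i ≠ 0 ∧ l i < δ) := rfl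
    rw [h8] at h4
    linarith
  -- the sum
  have hdK : 0 ≤ 1 - δ / K := by
    have : δ / K ≤ 1 := (div_le_one hK0).2 (by linarith)
    linarith
  rw [eig_trace hA]
  have hterm : ∀ i, (1 - l i / K) ^ (2 * M) ≤ (if l i = 0 then (1 : ℝ) else 0) +
      (if l i ≠ 0 ∧ l i < δ then (1 : ℝ) else 0) + (1 - δ / K) ^ (2 * M) := by
    intro i
    have h1 : 0 ≤ (1 - δ / K) ^ (2 * M) := pow_nonneg hdK _
    have h2 : 0 ≤ 1 - l i / K := by
      have : l i / K ≤ 1 := (div_le_one hK0).2 (hev i).2
      linarith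
    have h3 : 1 - l i / K ≤ 1 := by
      have : 0 ≤ l i / K := div_nonneg (hev i).1 hK0.le
      linarith
    have h4 : (1 - l i / K) ^ (2 * M) ≤ 1 := pow_le_one₀ h2 h3
    by_cases ha : l i = 0
    · rw [if_pos ha]
      have : (0 : ℝ) ≤ if l i ≠ 0 ∧ l i < δ then (1 : ℝ) else 0 := by split_ifs <;> norm_num
      linarith
    · rw [if_neg ha]
      by_cases hb : l i < δ
      · rw [if_pos ⟨ha, hb⟩]
        linarith
      · rw [if_neg (fun h => hb h.2), zero_add, zero_add]
        push Not at hb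
        refine pow_le_pow_left₀ h2 ?_ _
        have : δ / K ≤ l i / K := div_le_div_of_nonneg_right hb hK0.le
        linarith
  refine (Finset.sum_le_sum fun i _ => hterm i).trans ?_
  rw [Finset.sum_add_distrib, Finset.sum_add_distrib, Finset.sum_const, Finset.sum_boole,
    Finset.sum_boole, hker, Finset.card_univ, nsmul_eq_mul]
  linarith

end SNG
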