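import Pool.Agent.SNG.Ind
import Pool.Agent.SNG.RedTrunc
import Pool.Agent.SNG.Nil
import Pool.Agent.SNG.Luck
import Pool.Agent.SNG.Real

/-!
# Project SNG (architect helper40): final assembly
-/

namespace SNG

open Finset Module

/-- Evaluation of an element of the group ring on a function. -/
noncomputable def ev {W : Type} (a : W →₀ ℤ) (h : W → ℝ) : ℝ := a.sum fun u c => (c : ℝ) * h u

section ev

variable {W : Type}

theorem ev_zero (h : W → ℝ) : ev 0 h = 0 := by simp [ev]

theorem ev_add (a b : W →₀ ℤ) (h : W → ℝ) : ev (a + b) h = ev a h + ev b h := by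
  classical
  unfold ev
  rw [Finsupp.sum_add_index']
  · intro u
    simp
  · intro u c d
    push_cast
    ring

theorem ev_single (u : W) (c : ℤ) (h : W → ℝ) : ev (Finsupp.single u c) h = c * h u := by
  unfold ev
  rw [Finsupp.sum_single_index]
  simp

theorem ev_sum {ι : Type} (s : Finset ι) (a : ι → W →₀ ℤ) (h : W → ℝ) :
    ev (∑ i ∈ s, a i) h = ∑ i ∈ s, ev (a i) h := by
  classical
  induction s using Finset.induction_on with
  | empty => simp [ev_zero]
  | insert i s hi ih => rw [sum_insert hi, sum_insert hi, ev_add, ih]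

end ev

section

variable {V : Type} [Fintype V] [LinearOrder V]

/-- Incidence signs as integers. -/
def sgz (T : Finset V) (s : V) : ℤ := (-1) ^ (T.filter (· < s)).card

omit [Fintype V] in
theorem sgz_cast (T : Finset V) (s : V) : ((sgz T s : ℤ) : ℝ) = sg T s := by
  simp [sgz, sg]

open Classical in
/-- The equations defining harmonic chains, as a matrix over the group ring. -/
noncomputable def eqs (G : SimpleGraph V) (i : ℕ) :
    (Finset V ⊕ (Finset V × V) ⊕ Finset V ⊕ Finset V) → Finset V → W G →₀ ℤ
  | Sum.inl T, U => if U = T ∧ ¬ (G.IsClique (T : Set V) ∧ T.card = i) then Finsupp.single 1 1 else 0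
  | Sum.inr (Sum.inl q), U => if U = q.1 ∧ q.2 ∈ q.1 then
      Finsupp.single (sm G q.2) 1 + Finsupp.single 1 1 else 0
  | Sum.inr (Sum.inr (Sum.inl T)), U => ∑ s ∈ Tᶜ, if U = insert s T then
      Finsupp.single 1 (sgz T s) else 0
  | Sum.inr (Sum.inr (Sum.inr T)), U => if G.IsClique (T : Set V) then ∑ s ∈ T,
      (if U = T.erase s then Finsupp.single 1 (sgz (T.erase s) s) +
        Finsupp.single (sm G s) (- sgz (T.erase s) s) else 0) else 0

theorem op_eq_ev {W X I J : Type} [Group W] [Group X] [Fintype I] (φ : W →* X)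
    (A : J → I → W →₀ ℤ) (f : I → X → ℝ) (j : J) (x : X) :
    op φ A f j x = ∑ i, ev (A j i) fun u => f i (x * φ u) := rfl

variable {G : SimpleGraph V} {i : ℕ} {X : Type} [Group X] (φ : W G →* X)

open Classical in
theorem op_supp (f : Finset V → X → ℝ) (T : Finset V) (x : X) :
    op φ (eqs G i) f (Sum.inl T) x = if ¬ (G.IsClique (T : Set V) ∧ T.card = i) then f T x else 0 := by
  rw [op_eq_ev]
  by_cases h : ¬ (G.IsClique (T : Set V) ∧ T.card = i)
  · rw [if_pos h, Finset.sum_eq_single T]
    · simp only [eqs, if_pos h, true_and, ev_single]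
      simp
    · intro U _ hU
      simp only [eqs]
      rw [if_neg (fun h' => hU h'.1), ev_zero]
    · intro h'
      exact absurd (mem_univ _) h'
  · rw [if_neg h]
    apply Finset.sum_eq_zero
    intro U _
    simp only [eqs]
    rw [if_neg (fun h' => h h'.2), ev_zero]

theorem op_alt (f : Finset V → X → ℝ) (T : Finset V) (s : V) (x : X) :
    op φ (eqs G i) f (Sum.inr (Sum.inl (T, s))) x =
      if s ∈ T then f T (x * φ (sm G s)) + f T x else 0 := by
  classical
  rw [op_eq_ev]
  by_cases h : s ∈ T
  · rw [if_pos h, Finset.sum_eq_single T]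
    · simp only [eqs]
      rw [if_pos ⟨trivial, h⟩, ev_add, ev_single, ev_single]
      simp
    · intro U _ hU
      simp only [eqs]
      rw [if_neg (fun h' => hU h'.1), ev_zero]
    · intro h'
      exact absurd (mem_univ _) h'
  · rw [if_neg h]
    apply Finset.sum_eq_zero
    intro U _
    simp only [eqs]
    rw [if_neg (fun h' => h h'.2), ev_zero]

theorem op_bdry (f : Finset V → X → ℝ) (T : Finset V) (x : X) :
    op φ (eqs G i) f (Sum.inr (Sum.inr (Sum.inl T))) x = bdry f T x := by
  classical
  rw [op_eq_ev]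
  simp only [eqs, ev_sum]
  rw [sum_comm]
  unfold bdry
  refine sum_congr rfl fun s _ => ?_
  rw [Finset.sum_eq_single (insert s T)]
  · rw [if_pos rfl, ev_single, sgz_cast]
    simp
  · intro U _ hU
    rw [if_neg hU, ev_zero]
  · intro h'
    exact absurd (mem_univ _) h'

open Classical in
theorem op_cobd (f : Finset V → X → ℝ) (T : Finset V) (x : X) :
    op φ (eqs G i) f (Sum.inr (Sum.inr (Sum.inr T))) x =
      if G.IsClique (T : Set V) then cobd (fun v => φ (sm G v)) f T x else 0 := by
  rw [op_eq_ev]
  by_cases h : G.IsClique (T : Set V)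
  · rw [if_pos h]
    simp only [eqs, if_pos h, ev_sum]
    rw [sum_comm]
    unfold cobd
    refine sum_congr rfl fun s _ => ?_
    rw [Finset.sum_eq_single (T.erase s)]
    · rw [if_pos rfl, ev_add, ev_single, ev_single]
      push_cast
      rw [sgz_cast]
      simp only [map_one, mul_one]
      ring
    · intro U _ hU
      rw [if_neg hU, ev_zero]
    · intro h'
      exact absurd (mem_univ _) h'
  · rw [if_neg h]
    apply Finset.sum_eq_zero
    intro U _
    simp only [eqs]
    rw [if_neg h, ev_zero]

theorem op_zero_iff (f : Finset V → X → ℝ) :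
    (∀ j x, op φ (eqs G i) f j x = 0) ↔ Harm G (fun v => φ (sm G v)) i f := by
  constructor
  · intro h
    refine ⟨fun T hT g => ?_, fun T s hs g => ?_, fun T g => ?_, fun T hT g => ?_⟩
    · have := h (Sum.inl T) g
      rwa [op_supp, if_pos hT] at this
    · have := h (Sum.inr (Sum.inl (T, s))) g
      rw [op_alt, if_pos hs] at this
      linarith
    · have := h (Sum.inr (Sum.inr (Sum.inl T))) g
      rwa [op_bdry] at this
    · have := h (Sum.inr (Sum.inr (Sum.inr T))) g
      rwa [op_cobd, if_pos hT] at this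
  · intro h j x
    rcases j with T | ⟨T, s⟩ | T | T
    · rw [op_supp]
      by_cases hT : ¬ (G.IsClique (T : Set V) ∧ T.card = i)
      · rw [if_pos hT]
        exact h.supp T hT x
      · rw [if_neg hT]
    · rw [op_alt]
      split_ifs with hs
      · have := h.alt T s hs x
        linarith
      · rfl
    · rw [op_bdry]
      exact h.bd0 T x
    · rw [op_cobd]
      split_ifs with hT
      · exact h.cobd0 T hT x
      · rfl

theorem opKer_eq : opKer φ (eqs G i) = HarmS G (fun v => φ (sm G v)) i := by
  ext f
  exact op_zero_iff φ f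

theorem isPGroup_prod {P Q : Type} [Group P] [Group Q] (hP : IsPGroup 2 P) (hQ : IsPGroup 2 Q) :
    IsPGroup 2 (P × Q) := by
  intro g
  obtain ⟨a, ha⟩ := hP g.1
  obtain ⟨b, hb⟩ := hQ g.2
  refine ⟨a + b, Prod.ext ?_ ?_⟩
  · rw [Prod.pow_fst, pow_add, pow_mul, ha, one_pow, Prod.fst_one]
  · rw [Prod.pow_snd, add_comm, pow_add, pow_mul, hb, one_pow, Prod.snd_one]

/-- The vanishing theorem from the vanishing of the `F₂`-homology gradient. -/
theorem singer_of_zp (G : SimpleGraph V) (i : ℕ) (hz : Zp univ G (i : ℤ)) (f : Finset V → W G → ℝ)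
    (hf : Harm G (sm G) i f) (hs : ∀ T, Summable fun w => f T w ^ 2) : f = 0 := by
  classical
  refine luck (eqs G i) ?_ f hs ?_
  · intro ε hε F hF
    obtain ⟨m, hm⟩ := exists_nat_gt (1 / ε)
    obtain ⟨P, _, _, p, hP, hp, hb⟩ := hz m
    obtain ⟨Q, _, _, ψ, hQ, hψ⟩ := nil_sep G F hF
    obtain ⟨φ, hφ⟩ := exists_lift G p (fun v => hp.sq v (mem_univ v))
      (fun v w h => hp.comm v (mem_univ v) w (mem_univ w) h)
    refine ⟨P × Q, inferInstance, inferInstance, φ.prod ψ, fun w hw h => hψ w hw ?_, ?_⟩
    · exact (Prod.ext_iff.1 h).2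
    · have hdat : IsDat univ G (fun v => (φ.prod ψ) (sm G v)) := by
        refine ⟨fun v _ => ?_, fun v _ w _ h => ?_, ?_⟩
        · rw [← map_mul, CoxeterSystem.simple_mul_simple_self, map_one]
        · rw [← map_mul, ← map_mul]
          congr 1
          have e := (raM G).toCoxeterSystem.simple_mul_simple_pow v w
          have e2 : raM G v w = 2 := by
            simp [raM, h, h.ne]
          rw [e2, pow_two] at e
          have e3 : sm G v * sm G w * (sm G v * sm G w) = 1 := e
          have e4 := (raM G).toCoxeterSystem.simple_mul_simple_self v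
          have e5 := (raM G).toCoxeterSystem.simple_mul_simple_self w
          calc sm G v * sm G w = (sm G w * sm G v) * (sm G v * sm G w * (sm G v * sm G w)) := by
                have : sm G w * sm G v * (sm G v * sm G w) = 1 := by
                  rw [mul_assoc, ← mul_assoc (sm G v) (sm G v), e4, one_mul, e5]
                rw [← mul_assoc, this, one_mul]
            _ = sm G w * sm G v := by rw [e3, mul_one]
        · obtain ⟨c, hc⟩ := hp.co
          refine ⟨fun v g => c v g.1, fun v _ w _ g => ?_⟩
          have := hc v (mem_univ v) w (mem_univ w) g.1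
          rw [← hφ w] at this
          exact this
      rw [opKer_eq]
      have h1 := real_le G _ hdat i
      have h2 := surj_le (MonoidHom.fst P Q) Prod.fst_surjective
        (S := univ) (G := G) (p := fun v => (φ.prod ψ) (sm G v)) ?_ ?_ ?_ ?_ (i : ℤ)
      · have e : (fun v => (MonoidHom.fst P Q) ((φ.prod ψ) (sm G v))) = p := by
          funext v
          exact hφ v
        rw [e] at h2
        have hcP : 0 < Nat.card P := Nat.card_pos
        -- m * finrank ≤ card (P × Q)
        have h3 : m * finrank ℝ ↥(HarmS G (fun v => (φ.prod ψ) (sm G v)) i) ≤ Nat.card (P × Q) := by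
          have h4 : (m * bt univ ∅ G (fun v => (φ.prod ψ) (sm G v)) (i : ℤ)) * Nat.card P ≤
              Nat.card (P × Q) * Nat.card P := by
            calc (m * bt univ ∅ G (fun v => (φ.prod ψ) (sm G v)) (i : ℤ)) * Nat.card P
                = m * (bt univ ∅ G (fun v => (φ.prod ψ) (sm G v)) (i : ℤ) * Nat.card P) := by ring
              _ ≤ m * (bt univ ∅ G p (i : ℤ) * Nat.card (P × Q)) := Nat.mul_le_mul_left _ h2
              _ = (m * bt univ ∅ G p (i : ℤ)) * Nat.card (P × Q) := by ring
              _ ≤ Nat.card P * Nat.card (P × Q) := Nat.mul_le_mul_right _ hb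
              _ = Nat.card (P × Q) * Nat.card P := by ring
          exact (Nat.mul_le_mul_left _ h1).trans (Nat.le_of_mul_le_mul_right h4 hcP)
        have hm' : (1 : ℝ) < ε * m := by
          rw [div_lt_iff₀ hε] at hm
          linarith
        have h5 : (m : ℝ) * (finrank ℝ ↥(HarmS G (fun v => (φ.prod ψ) (sm G v)) i) : ℝ) ≤
            (Nat.card (P × Q) : ℝ) := by exact_mod_cast h3
        have h6 : (0 : ℝ) ≤ (finrank ℝ ↥(HarmS G (fun v => (φ.prod ψ) (sm G v)) i) : ℝ) :=
          Nat.cast_nonneg _
        calc (finrank ℝ ↥(HarmS G (fun v => (φ.prod ψ) (sm G v)) i) : ℝ)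
            ≤ (ε * m) * (finrank ℝ ↥(HarmS G (fun v => (φ.prod ψ) (sm G v)) i) : ℝ) := by
              nlinarith
          _ = ε * ((m : ℝ) * (finrank ℝ ↥(HarmS G (fun v => (φ.prod ψ) (sm G v)) i) : ℝ)) := by ring
          _ ≤ ε * Nat.card (P × Q) := mul_le_mul_of_nonneg_left h5 hε.le
      · exact isPGroup_prod hP hQ
      · exact hdat.sq
      · exact hdat.comm
      · have e : (fun v => (MonoidHom.fst P Q) ((φ.prod ψ) (sm G v))) = p := by
          funext v
          exact hφ v
        rw [e]
        exact hp.loc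
  · exact (op_zero_iff (MonoidHom.id (W G)) f).2 hf

/-- Singer's conjecture for right-angled Coxeter groups with reducible flag nerve. -/
theorem singer_red (G : SimpleGraph V) (n : ℕ) (hr : Red n univ G) (i : ℕ) (hi : 2 * i ≠ n)
    (f : Finset V → W G → ℝ) (hf : Harm G (sm G) i f) (hs : ∀ T, Summable fun w => f T w ^ 2) :
    f = 0 :=
  singer_of_zp G i ((red_z hr).1 i (by exact_mod_cast hi)) f hf hs

end

end SNG
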