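import Pool.Agent.SNG.Les

/-!
# Project SNG (architect helper40), module Les2: the third part of the long exact sequence

`les_c`: `b_{j+1}(Q) ≤ b_{j+1}(C) + b_j(A)`.  Write `0 = j`, `1 = j + 1`, `2 = j + 2`,
`Z1Q = Q1 ∩ ker dQ` and so on.
Let `Z' = {c ∈ C1 : π (dC c) = 0}`.  `π (Z') = Z1Q` (`π` is onto and `dQ (π c) = π (dC c)`).
Let `K = {q ∈ Z1Q : ∃ c ∈ Z1C, π c = q} = π (Z1C)`.
* `dim K + dim (Z1C ∩ ker π) = dim Z1C`, `Z1C ∩ ker π = ι (Z1A)`; `dim B1Q ≤ ...`: `B1Q = π (B1C)` and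
  `dim B1C = dim B1Q + dim (B1C ∩ ker π)`, `B1C ∩ ker π ⊆ ι (Z1A)`.  So
  `dim K - dim B1Q = dim Z1C - dim Z1A - dim B1C + dim (B1C ∩ ker π) ≤ dim Z1C - dim B1C`.
* `dim Z1Q - dim K ≤ dim Z0A - dim B0A`: the map `c ↦ ι⁻¹ (dC c)` from `Z'` to `Z0A`; if it maps `c` to
  `dA a`, `a ∈ A1`, then `c - ι a ∈ Z1C` and `π c ∈ K`.  In dimensions: `dim Z' = dim (dC Z') +
  dim Z1C`, `dC Z' ⊆ ι (Z0A)`, and `dim Z' = dim Z1Q + dim (C1 ∩ ker π) = dim Z1Q + dim A1`,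
  `dim A1 = dim Z1A + dim B0A`.  So `dim Z1Q = dim Z' - dim A1 ≤ dim Z0A + dim Z1C - dim Z1A - dim B0A`
  and `dim K = dim Z1C - dim Z1A`.
Together `Z1Q - B1Q ≤ (Z0A - B0A) + (Z1C - B1C)`.
-/

namespace SNG

open Module

variable {k : Type} [Field k] {MA MC MQ : Type} [AddCommGroup MA] [AddCommGroup MC]
  [AddCommGroup MQ] [Module k MA] [Module k MC] [Module k MQ] [FiniteDimensional k MA]
  [FiniteDimensional k MC] [FiniteDimensional k MQ]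
  {A : ℤ → Submodule k MA} {C : ℤ → Submodule k MC} {Q : ℤ → Submodule k MQ}
  {dA : MA →ₗ[k] MA} {dC : MC →ₗ[k] MC} {dQ : MQ →ₗ[k] MQ} {ι : MA →ₗ[k] MC} {π : MC →ₗ[k] MQ}

omit [FiniteDimensional k MQ] [FiniteDimensional k MA] in
/-- rank nullity on a submodule. -/
theorem les2_rn (f : MC →ₗ[k] MQ) (S : Submodule k MC) :
    finrank k ↥(S.map f) + finrank k ↥(S ⊓ LinearMap.ker f) = finrank k ↥S := by
  have h := LinearMap.finrank_range_add_finrank_ker (f.domRestrict S)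
  rw [LinearMap.range_domRestrict] at h
  have h2 : LinearMap.ker (f.domRestrict S) = Submodule.comap S.subtype (S ⊓ LinearMap.ker f) := by
    ext x
    simp
  have h3 : finrank k ↥(LinearMap.ker (f.domRestrict S)) = finrank k ↥(S ⊓ LinearMap.ker f) := by
    rw [h2]
    exact LinearEquiv.finrank_eq (Submodule.comapSubtypeEquivOfLe inf_le_left)
  rw [h3] at h
  exact h

theorem les_c (h : Ses A C Q dA dC dQ ι π) (j : ℤ) :
    be Q dQ (j + 1) ≤ be C dC (j + 1) + be A dA j := by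
  have hj : ∀ a ∈ A j, dA a ∈ A (j - 1) := by
    intro a ha
    refine h.dA_mem (j - 1) a ?_
    rw [sub_add_cancel]
    exact ha
  -- the space `Z'`
  have h1 := les2_rn dC (C (j + 1) ⊓ LinearMap.ker (π.comp dC))
  have h1a : finrank k ↥((C (j + 1) ⊓ LinearMap.ker (π.comp dC)).map dC)
      ≤ finrank k ↥(A j ⊓ LinearMap.ker dA) := by
    refine le_trans (Submodule.finrank_mono ?_) (Submodule.finrank_map_le ι _)
    rintro _ ⟨c, ⟨hc1, hc2⟩, rfl⟩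
    obtain ⟨a, ha, hac⟩ := h.exact j (dC c) (h.dC_mem j c hc1) hc2
    refine ⟨a, ⟨ha, ?_⟩, hac⟩
    refine h.inj (j - 1) (dA a) (hj a ha) ?_
    rw [← h.ι_d j a ha, hac, h.dC2]
  have h1b : (C (j + 1) ⊓ LinearMap.ker (π.comp dC)) ⊓ LinearMap.ker dC
      = C (j + 1) ⊓ LinearMap.ker dC := by
    ext c
    simp only [Submodule.mem_inf, LinearMap.mem_ker, LinearMap.comp_apply]
    constructor
    · rintro ⟨⟨h1, -⟩, h2⟩
      exact ⟨h1, h2⟩
    · rintro ⟨h1, h2⟩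
      exact ⟨⟨h1, by rw [h2, map_zero]⟩, h2⟩
  rw [h1b] at h1
  have h2 := les2_rn π (C (j + 1) ⊓ LinearMap.ker (π.comp dC))
  have h2a : finrank k ↥(Q (j + 1) ⊓ LinearMap.ker dQ)
      ≤ finrank k ↥((C (j + 1) ⊓ LinearMap.ker (π.comp dC)).map π) := by
    refine Submodule.finrank_mono ?_
    rintro q ⟨hq1, hq2⟩
    obtain ⟨c, hc, rfl⟩ := h.surj (j + 1) q hq1
    refine ⟨c, ⟨hc, ?_⟩, rfl⟩
    have h3 : dQ (π c) = 0 := hq2
    rw [h.π_d (j + 1) c hc] at h3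
    exact h3
  have h2b : finrank k ↥(A (j + 1))
      ≤ finrank k ↥((C (j + 1) ⊓ LinearMap.ker (π.comp dC)) ⊓ LinearMap.ker π) := by
    have h3 := les2_rn ι (A (j + 1))
    have h4 : A (j + 1) ⊓ LinearMap.ker ι = ⊥ := by
      rw [Submodule.eq_bot_iff]
      rintro a ⟨ha1, ha2⟩
      exact h.inj (j + 1) a ha1 ha2
    rw [h4, finrank_bot, add_zero] at h3
    rw [← h3]
    refine Submodule.finrank_mono ?_
    rintro _ ⟨a, ha, rfl⟩
    refine ⟨⟨h.ι_mem _ a ha, ?_⟩, h.π_ι _ a ha⟩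
    show π (dC (ι a)) = 0
    rw [h.ι_d _ a ha]
    exact h.π_ι j _ (h.dA_mem j a ha)
  have h3 := les2_rn dA (A (j + 1))
  have h4 := les2_rn π ((C (j + 1 + 1)).map dC)
  have h4a : finrank k ↥(((C (j + 1 + 1)).map dC).map π) ≤ finrank k ↥((Q (j + 1 + 1)).map dQ) := by
    refine Submodule.finrank_mono ?_
    rintro _ ⟨_, ⟨c, hc, rfl⟩, rfl⟩
    exact ⟨π c, h.π_mem _ c hc, h.π_d _ c hc⟩
  have h4b : finrank k ↥(((C (j + 1 + 1)).map dC) ⊓ LinearMap.ker π)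
      ≤ finrank k ↥(A (j + 1) ⊓ LinearMap.ker dA) := by
    refine le_trans (Submodule.finrank_mono ?_) (Submodule.finrank_map_le ι _)
    rintro _ ⟨⟨c, hc, rfl⟩, hc2⟩
    obtain ⟨a, ha, hac⟩ := h.exact (j + 1) (dC c) (h.dC_mem (j + 1) c hc) hc2
    refine ⟨a, ⟨ha, ?_⟩, hac⟩
    refine h.inj j (dA a) (h.dA_mem j a ha) ?_
    rw [← h.ι_d (j + 1) a ha, hac, h.dC2]
  unfold be
  omega

end SNG
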