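import Pool.Agent.SNG.Defs

/-!
# Project SNG (architect helper40), module RedImage: relabelling of reducible flag complexes

`Red.lk_mem`: cases on `h` (in the case `nil` there is no vertex).

`Red.image` (relabelling; includes the case `φ = id`, i.e. `Red` only depends on `G` on `S`).
Induction on `Red n S G`, for all `φ`, `G'`: for `v ∈ S`,
`lk (S.image φ) G' (φ v) = (lk S G v).image φ`; `NoSq` is transported; for `s, t ∈ S`,
`(S.image φ).erase (φ t) = (S.erase t).image φ` and `(contract G' (φ s) (φ t)).Adj (φ x) (φ y) ↔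
(contract G s t).Adj x y` for `x, y ∈ S.erase t` (injectivity of `φ` on `S`).
-/

namespace SNG

open Finset

variable {V : Type} [DecidableEq V]

theorem Red.lk_mem {n : ℕ} {S : Finset V} {G : SimpleGraph V} (h : Red n S G) {v : V} (hv : v ∈ S) :
    ∃ m, n = m + 1 ∧ Red m (lk S G v) G := by
  cases h with
  | nil G => exact absurd hv (Finset.notMem_empty v)
  | susp hl a b ha hb hab hn h => exact ⟨_, rfl, hl v hv⟩
  | cont hl s t hs ht hst hq h => exact ⟨_, rfl, hl v hv⟩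

private theorem ri_lk {S : Finset V} {G : SimpleGraph V} {V' : Type} [DecidableEq V']
    (φ : V → V') (G' : SimpleGraph V')
    (hG : ∀ x ∈ S, ∀ y ∈ S, (G'.Adj (φ x) (φ y) ↔ G.Adj x y)) {v : V} (hv : v ∈ S) :
    lk (S.image φ) G' (φ v) = (lk S G v).image φ := by
  ext y
  rw [mem_lk, mem_image, mem_image]
  constructor
  · rintro ⟨⟨x, hx, rfl⟩, h⟩
    exact ⟨x, mem_lk.2 ⟨hx, (hG v hv x hx).1 h⟩, rfl⟩
  · rintro ⟨x, hx, rfl⟩
    rw [mem_lk] at hx
    exact ⟨⟨x, hx.1, rfl⟩, (hG v hv x hx.1).2 hx.2⟩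

private theorem ri_links {n : ℕ} {S : Finset V} {G : SimpleGraph V} {V' : Type}
    [DecidableEq V'] (φ : V → V') (hφ : Set.InjOn φ (S : Set V)) (G' : SimpleGraph V')
    (hG : ∀ x ∈ S, ∀ y ∈ S, (G'.Adj (φ x) (φ y) ↔ G.Adj x y))
    (ih : ∀ v ∈ S, Set.InjOn φ (lk S G v : Set V) → ∀ G' : SimpleGraph V',
      (∀ x ∈ lk S G v, ∀ y ∈ lk S G v, (G'.Adj (φ x) (φ y) ↔ G.Adj x y)) →
        Red n ((lk S G v).image φ) G') :
    ∀ v ∈ S.image φ, Red n (lk (S.image φ) G' v) G' := by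
  intro v hv
  obtain ⟨x, hx, rfl⟩ := mem_image.1 hv
  rw [ri_lk φ G' hG hx]
  refine ih x hx (fun a ha b hb h => ?_) G' fun a ha b hb => hG a (mem_lk.1 ha).1 b (mem_lk.1 hb).1
  exact hφ (mem_lk.1 (mem_coe.1 ha)).1 (mem_lk.1 (mem_coe.1 hb)).1 h

private theorem ri_aux {V' : Type} [DecidableEq V'] (φ : V → V') {n : ℕ} {S : Finset V}
    {G : SimpleGraph V} (h : Red n S G) : ∀ (_ : Set.InjOn φ (S : Set V)) (G' : SimpleGraph V')
    (_ : ∀ x ∈ S, ∀ y ∈ S, (G'.Adj (φ x) (φ y) ↔ G.Adj x y)), Red n (S.image φ) G' := by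
  induction h with
  | nil G =>
    intro _ G' _
    rw [image_empty]
    exact Red.nil G'
  | @susp n S G hl a b ha hb hab hn h ih =>
    intro hφ G' hG
    refine Red.susp (ri_links φ hφ G' hG ih) (φ a) (φ b) (mem_image_of_mem φ ha)
      (mem_image_of_mem φ hb) (fun e => hab (hφ ha hb e)) (fun e => hn ((hG a ha b hb).1 e)) ?_
    intro y hy h1 h2
    obtain ⟨x, hx, rfl⟩ := mem_image.1 hy
    obtain ⟨h3, h4⟩ := h x hx (fun e => h1 (by rw [e])) (fun e => h2 (by rw [e]))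
    exact ⟨(hG a ha x hx).2 h3, (hG b hb x hx).2 h4⟩
  | @cont n S G hl s t hs ht hst hq h ih1 ih2 =>
    intro hφ G' hG
    have hφ' : Set.InjOn φ ((S.erase t : Finset V) : Set V) := by
      intro a ha b hb e
      exact hφ (mem_of_mem_erase (mem_coe.1 ha)) (mem_of_mem_erase (mem_coe.1 hb)) e
    refine Red.cont (ri_links φ hφ G' hG ih1) (φ s) (φ t) (mem_image_of_mem φ hs)
      (mem_image_of_mem φ ht) ((hG s hs t ht).2 hst) ?_ ?_
    · intro x' hx' y' hy'
      obtain ⟨x, hx, rfl⟩ := mem_image.1 hx'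
      obtain ⟨y, hy, rfl⟩ := mem_image.1 hy'
      rw [hG s hs x hx, hG t ht y hy, hG t ht x hx, hG s hs y hy, hG x hx y hy]
      intro h1 h2 h3 h4 h5 h6
      exact hq x hx y hy h1 h2 h3 h4 (fun e => h5 (by rw [e])) (fun e => h6 (by rw [e]))
    · have e : (S.image φ).erase (φ t) = (S.erase t).image φ := by
        ext y
        rw [mem_erase, mem_image, mem_image]
        constructor
        · rintro ⟨h1, x, hx, rfl⟩
          exact ⟨x, mem_erase.2 ⟨fun e => h1 (by rw [e]), hx⟩, rfl⟩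
        · rintro ⟨x, hx, rfl⟩
          rw [mem_erase] at hx
          exact ⟨fun e => hx.1 (hφ hx.2 ht e), x, hx.2, rfl⟩
      rw [e]
      refine ih2 hφ' (contract G' (φ s) (φ t)) fun x hx y hy => ?_
      have hx' := mem_of_mem_erase hx
      have hy' := mem_of_mem_erase hy
      show φ x ≠ φ y ∧ (G'.Adj (φ x) (φ y) ∨ (φ x = φ s ∧ G'.Adj (φ t) (φ y)) ∨
        (φ y = φ s ∧ G'.Adj (φ t) (φ x))) ↔ x ≠ y ∧ (G.Adj x y ∨ (x = s ∧ G.Adj t y) ∨
        (y = s ∧ G.Adj t x))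
      rw [Ne, Ne, hφ.eq_iff hx' hy', hφ.eq_iff hx' hs, hφ.eq_iff hy' hs, hG x hx' y hy',
        hG t ht y hy', hG t ht x hx']

theorem Red.image {n : ℕ} {S : Finset V} {G : SimpleGraph V} (h : Red n S G) {V' : Type}
    [DecidableEq V'] (φ : V → V') (hφ : Set.InjOn φ (S : Set V)) (G' : SimpleGraph V')
    (hG : ∀ x ∈ S, ∀ y ∈ S, (G'.Adj (φ x) (φ y) ↔ G.Adj x y)) : Red n (S.image φ) G' :=
  ri_aux φ h hφ G' hG

theorem Red.congr {n : ℕ} {S : Finset V} {G : SimpleGraph V} (h : Red n S G) (G' : SimpleGraph V)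
    (hG : ∀ x ∈ S, ∀ y ∈ S, (G'.Adj x y ↔ G.Adj x y)) : Red n S G' := by
  have e := h.image id (fun x _ y _ e => e) G' hG
  rwa [image_id] at e

end SNG
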