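import Pool.Agent.SNG.DDefs
import Pool.Agent.SNG.Basic
import Pool.Agent.SNG.Les2
import Pool.Agent.SNG.RedImage

/-!
# Project SNG (architect helper40), module SphRed: reducible flag complexes are homology spheres

Everything for the trivial group `Unit`; write `b_j(S, G) = bt S ∅ G (fun _ => (1 : Unit)) j`; chains
are functions `f T ()` supported on the cliques `T ⊆ S` with `j` elements; the invariance conditions
are empty (so `Ch S R G p j` does not depend on `R`, `bt_trivial`).

`sph_nil`: `Ch ∅ ∅ G p j` is `⊥` for `j ≠ 0` and one dimensional for `j = 0`, `bd = 0` on it.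

`cone_zero`: let `a ∈ S` be adjacent to all other vertices of `S`.  Then `b_j(S, G) = 0` for all `j`:
if `f` is a cycle, `f = bd h` with `h T = if a ∈ T then f (T.erase a) else 0`:
for `a ∉ T`: `(bd h) T = f T` (only `s = a` contributes); for `a ∈ T`: `(bd h) T =
∑_{s ∉ T} f ((insert s T).erase a) = ∑_{s ∉ T} f (insert s (T.erase a)) = (bd f) (T.erase a) + f T = f T`.

`sph_susp`: `S = {a, b} ∪ A`, `A = lk S G b`.  `S.erase b` is a cone with apex `a`, so
`b_j(S.erase b) = 0`.  The short exact sequence `0 → Ch (S - b) j → Ch S j → Ch (lk b) (j - 1) → 0`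
(`ι = id`, `π f T = if b ∈ T then 0 else f (insert b T)`; the same as in module Vert) with `les_a`,
`les_c` gives `b_j(S) = b_{j-1}(lk S G b)`.

`sph_cont`: `b_j(S, G) = b_j(S.erase t, contract G s t)` for all `j`.  Short exact sequence
`0 → K j → Ch S j → Ch (S.erase t) (contract G s t) j → 0`,
`θ f T = if t ∈ T then 0 else if s ∈ T then f T + f (insert t (T.erase s)) else f T` (as in module
Cont but on the full complex of `G`; cliques containing both `s` and `t` are mapped to `0`;
`θ (bd f) = bd (θ f)`: for `s ∈ T`, `t ∉ T` the two terms `f (insert t T)` and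
`f (insert s (insert t (T.erase s)))` are equal and cancel), surjective by `NoSq` as in module Cont,
`K j = Ch S j ∩ ker θ`.  `K` is acyclic: let `f ∈ K j`, `bd f = 0`.  `θ f = 0` means: `f T = 0` for
`s, t ∉ T`, `f (insert s T₀) = f (insert t T₀) =: q T₀` for `s, t ∉ T₀`; let
`r T₀ = f (insert s (insert t T₀))`.  `bd f = 0` at `insert s T₀`: `r T₀ = ∑_{x ∉ T₀, x ≠ s, t}
q (insert x T₀)`.  Put `h T = if s ∈ T ∧ t ∈ T then q ((T.erase s).erase t) else 0`.  Then `h ∈ K (j + 1)`
(if `q T₀ ≠ 0` then `insert s T₀` and `insert t T₀` are cliques, so `insert s (insert t T₀)` is one, as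
`s, t` are adjacent) and `bd h = f`: at `insert s T₀` and `insert t T₀` one gets `q T₀`, at
`insert s (insert t T₀)` one gets `∑_x q (insert x T₀) = r T₀`, at `T₀` one gets `0`.
So `be K = 0` and `les_a`, `les_c` give the equality.

`rd_sph`: induction on `Rd n S G` (`susp`: `lk S G b` satisfies `Sph n` by induction).
`rd_gor`: for a clique `T ⊆ S`, `Rd n S G` implies `Rd (n - |T|) (lks S G T) G` (induction on `|T|`:
`lks S G (insert v T) = lks (lk S G v) G T` and the remark `Rd.lk_mem`), then `rd_sph`.
-/

namespace SNG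

open Finset

variable {V : Type} [Fintype V] [DecidableEq V]

private theorem sr_two {P : Type} (f : P → ZMod 2) : f + f = 0 :=
  funext fun g => CharTwo.add_self_eq_zero _

private theorem sr_eq {P : Type} {f f' : P → ZMod 2} (h : f + f' = 0) : f = f' := by
  funext g
  have h1 : f g + f' g = 0 := congrFun h g
  exact CharTwo.add_eq_zero.1 h1

private theorem sr_bd (f : Finset V → Unit → ZMod 2) (T : Finset V) :
    bd V Unit f T = ∑ x ∈ Tᶜ, f (insert x T) := by
  funext g
  rw [Finset.sum_apply]
  rfl

omit [Fintype V] in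
private theorem sr_supp {S R : Finset V} {G : SimpleGraph V} {j : ℤ} {f : Finset V → Unit → ZMod 2}
    (hf : f ∈ Ch S R G (fun _ => (1 : Unit)) j) {T : Finset V} (h : f T ≠ 0) :
    T ⊆ S ∧ G.IsClique (T : Set V) ∧ (T.card : ℤ) = j := by
  by_contra hn
  exact h (hf.1 T hn)

omit [Fintype V] in
private theorem sr_mk {S R : Finset V} {G : SimpleGraph V} {j : ℤ} {f : Finset V → Unit → ZMod 2}
    (h1 : ∀ T, f T ≠ 0 → T ⊆ S ∧ G.IsClique (T : Set V) ∧ (T.card : ℤ) = j) :
    f ∈ Ch S R G (fun _ => (1 : Unit)) j := by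
  refine ⟨fun T hT => ?_, fun T s _ g => rfl⟩
  by_contra hn
  exact hT (h1 T hn)

private theorem sr_R (S R : Finset V) (G : SimpleGraph V) (j : ℤ) :
    bt S R G (fun _ => (1 : Unit)) j = bt S ∅ G (fun _ => (1 : Unit)) j := by
  have h : ∀ i, Ch S R G (fun _ => (1 : Unit)) i = Ch S ∅ G (fun _ => (1 : Unit)) i := by
    intro i
    ext f
    exact ⟨fun h => sr_mk fun T hT => sr_supp h hT, fun h => sr_mk fun T hT => sr_supp h hT⟩
  unfold bt
  rw [h, h]

private theorem sr_be_zero {M : Type} [AddCommGroup M] [Module (ZMod 2) M]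
    [FiniteDimensional (ZMod 2) M] (A : ℤ → Submodule (ZMod 2) M) (d : M →ₗ[ZMod 2] M) (j : ℤ)
    (h : ∀ f ∈ A j, d f = 0 → ∃ g ∈ A (j + 1), d g = f) : be A d j = 0 := by
  unfold be
  refine Nat.sub_eq_zero_of_le (Submodule.finrank_mono ?_)
  rintro f ⟨h1, h2⟩
  obtain ⟨g, hg, hgf⟩ := h f h1 h2
  exact ⟨g, hg, hgf⟩

theorem sph_nil (G : SimpleGraph V) : Sph 0 (∅ : Finset V) G := by
  intro j
  have h1 : ∀ i : ℤ, ∀ f ∈ Ch (∅ : Finset V) ∅ G (fun _ => (1 : Unit)) i, bd V Unit f = 0 := by
    intro i f hf
    funext T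
    rw [sr_bd]
    refine Finset.sum_eq_zero fun x _ => ?_
    by_contra hn
    obtain ⟨h2, -, -⟩ := sr_supp hf hn
    exact Finset.notMem_empty x (h2 (Finset.mem_insert_self x T))
  have h2 : (Ch (∅ : Finset V) ∅ G (fun _ => (1 : Unit)) (j + 1)).map (bd V Unit) = ⊥ := by
    rw [Submodule.eq_bot_iff]
    rintro _ ⟨f, hf, rfl⟩
    exact h1 _ f hf
  have h3 : Ch (∅ : Finset V) ∅ G (fun _ => (1 : Unit)) j ⊓ LinearMap.ker (bd V Unit) =
      Ch (∅ : Finset V) ∅ G (fun _ => (1 : Unit)) j :=
    inf_eq_left.2 fun f hf => h1 j f hf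
  unfold bt
  rw [h2, h3, finrank_bot, Nat.sub_zero]
  by_cases hj : j = ((0 : ℕ) : ℤ)
  · rw [if_pos hj]
    have h4 : Ch (∅ : Finset V) ∅ G (fun _ => (1 : Unit)) j =
        Submodule.span (ZMod 2) {(fun T _ => if T = ∅ then 1 else 0 :
          Finset V → Unit → ZMod 2)} := by
      ext f
      rw [Submodule.mem_span_singleton]
      constructor
      · intro hf
        refine ⟨f ∅ (), ?_⟩
        funext T g
        show f ∅ () * (if T = ∅ then (1 : ZMod 2) else 0) = f T g
        by_cases hT : T = ∅
        · rw [if_pos hT, hT, mul_one]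
        · rw [if_neg hT, mul_zero]
          by_contra hn
          have h5 : f T ≠ 0 := fun h => hn (by rw [h]; rfl)
          exact hT (Finset.subset_empty.1 (sr_supp hf h5).1)
      · rintro ⟨c, rfl⟩
        refine sr_mk fun T hT => ?_
        by_cases hT' : T = ∅
        · subst hT'
          refine ⟨Finset.Subset.refl _, ?_, ?_⟩
          · intro x hx
            exact absurd hx (by simp)
          · rw [hj]
            simp
        · exfalso
          apply hT
          funext g
          show c * (if T = ∅ then (1 : ZMod 2) else 0) = 0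
          rw [if_neg hT', mul_zero]
    rw [h4, finrank_span_singleton]
    intro h
    have h5 := congrFun (congrFun h ∅) ()
    simp at h5
  · rw [if_neg hj]
    have h4 : Ch (∅ : Finset V) ∅ G (fun _ => (1 : Unit)) j = ⊥ := by
      rw [Submodule.eq_bot_iff]
      intro f hf
      funext T
      by_contra hn
      obtain ⟨h5, -, h6⟩ := sr_supp hf hn
      rw [Finset.subset_empty.1 h5] at h6
      exact hj (by rw [← h6]; simp)
    rw [h4, finrank_bot]

omit [Fintype V] in
private theorem sr_cl {G : SimpleGraph V} {a : V} {T : Finset V} (ha : a ∈ T)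
    (h1 : G.IsClique ((T.erase a : Finset V) : Set V)) (h2 : ∀ x ∈ T.erase a, G.Adj a x) :
    G.IsClique (T : Set V) := by
  rw [← Finset.insert_erase ha, Finset.coe_insert, SimpleGraph.isClique_insert]
  exact ⟨h1, fun b hb _ => h2 b hb⟩

omit [Fintype V] in
private theorem sr_card {a : V} {T : Finset V} (ha : a ∈ T) :
    (T.card : ℤ) = (T.erase a).card + 1 := by
  have h := Finset.card_erase_add_one ha
  exact_mod_cast h.symm

private theorem cone_zero {S : Finset V} {G : SimpleGraph V} {a : V} (ha : a ∈ S)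
    (h : ∀ x ∈ S, x ≠ a → G.Adj a x) (j : ℤ) : bt S ∅ G (fun _ => (1 : Unit)) j = 0 := by
  rw [bt_eq_be]
  refine sr_be_zero _ _ j fun f hf hf0 => ?_
  refine ⟨fun T => if a ∈ T then f (T.erase a) else 0, sr_mk fun T hT => ?_, ?_⟩
  · by_cases haT : a ∈ T
    · have hT' : f (T.erase a) ≠ 0 := by
        intro h0
        exact hT ((if_pos haT).trans h0)
      obtain ⟨h1, h2, h3⟩ := sr_supp hf hT'
      refine ⟨?_, ?_, ?_⟩
      · intro x hx
        by_cases hxa : x = a
        · rw [hxa]
          exact ha
        · exact h1 (Finset.mem_erase.2 ⟨hxa, hx⟩)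
      · exact sr_cl haT h2 fun x hx => h x (h1 hx) (Finset.mem_erase.1 hx).1
      · rw [sr_card haT, h3]
    · exact absurd (if_neg haT) hT
  · funext T
    rw [sr_bd]
    by_cases haT : a ∈ T
    · have h1 := congrFun hf0 (T.erase a)
      rw [sr_bd] at h1
      have h2 : (T.erase a)ᶜ = insert a Tᶜ := by
        ext x
        simp only [Finset.mem_compl, Finset.mem_erase, Finset.mem_insert]
        by_cases hx : x = a
        · simp [hx]
        · simp [hx]
      rw [h2, Finset.sum_insert (fun h => (Finset.mem_compl.1 h) haT), Finset.insert_erase haT]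
        at h1
      refine sr_eq (Eq.trans ?_ h1)
      rw [add_comm]
      congr 1
      refine Finset.sum_congr rfl fun x hx => ?_
      have hxa : x ≠ a := by
        rintro rfl
        exact (Finset.mem_compl.1 hx) haT
      rw [if_pos (Finset.mem_insert_of_mem haT), Finset.erase_insert_of_ne hxa]
    · rw [Finset.sum_eq_single a]
      · rw [if_pos (Finset.mem_insert_self a T), Finset.erase_insert haT]
      · intro x _ hxa
        rw [if_neg]
        intro h'
        rcases Finset.mem_insert.1 h' with h' | h'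
        · exact hxa h'.symm
        · exact haT h'
      · intro h'
        exact absurd (Finset.mem_compl.2 haT) h'

/-- The projection to the chains of the link. -/
private def sr_pv (v : V) : (Finset V → Unit → ZMod 2) →ₗ[ZMod 2] (Finset V → Unit → ZMod 2) where
  toFun f := fun T => if v ∈ T then 0 else f (insert v T)
  map_add' f g := by
    funext T
    by_cases h : v ∈ T
    · simp [h]
    · simp [h]
  map_smul' c f := by
    funext T
    by_cases h : v ∈ T
    · simp [h]
    · simp [h]

omit [Fintype V] in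
private theorem sr_pv_mem {v : V} {T : Finset V} (h : v ∈ T) (f : Finset V → Unit → ZMod 2) :
    sr_pv v f T = 0 := if_pos h

omit [Fintype V] in
private theorem sr_pv_not {v : V} {T : Finset V} (h : v ∉ T) (f : Finset V → Unit → ZMod 2) :
    sr_pv v f T = f (insert v T) := if_neg h

private theorem sr_ses {S : Finset V} {G : SimpleGraph V} {v : V} (hv : v ∈ S) :
    Ses (fun i => Ch (S.erase v) ∅ G (fun _ => (1 : Unit)) i)
      (fun i => Ch S ∅ G (fun _ => (1 : Unit)) i)
      (fun i => Ch (lk S G v) ∅ G (fun _ => (1 : Unit)) (i - 1)) (bd V Unit) (bd V Unit)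
      (bd V Unit) LinearMap.id (sr_pv v) := by
  have hvl : v ∉ lk S G v := fun h => G.loopless.irrefl v (mem_lk.1 h).2
  constructor
  · exact fun j a ha => bd_mem ha
  · exact fun j a ha => bd_mem ha
  · intro j a ha
    have e : j + 1 - 1 = j - 1 + 1 := by ring
    rw [e] at ha
    exact bd_mem ha
  · exact bd_bd
  · exact bd_bd
  · exact bd_bd
  · intro j a ha
    refine sr_mk fun T hT => ?_
    obtain ⟨h1, h2⟩ := sr_supp ha hT
    exact ⟨h1.trans (Finset.erase_subset v S), h2⟩
  · intro j f hf
    refine sr_mk fun T hT => ?_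
    by_cases hvT : v ∈ T
    · exact absurd (sr_pv_mem hvT f) hT
    · rw [sr_pv_not hvT] at hT
      obtain ⟨h1, h2, h3⟩ := sr_supp hf hT
      refine ⟨fun t ht => mem_lk.2 ⟨h1 (Finset.mem_insert_of_mem ht), ?_⟩, ?_, ?_⟩
      · refine h2 (Finset.mem_coe.2 (Finset.mem_insert_self v T))
          (Finset.mem_coe.2 (Finset.mem_insert_of_mem ht)) ?_
        rintro rfl
        exact hvT ht
      · exact h2.subset (Finset.coe_subset.2 (Finset.subset_insert v T))
      · rw [Finset.card_insert_of_notMem hvT] at h3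
        push_cast at h3
        linarith
  · exact fun j a ha => rfl
  · intro j c hc
    funext T
    rw [sr_bd]
    by_cases hvT : v ∈ T
    · rw [sr_pv_mem hvT]
      exact Finset.sum_eq_zero fun s _ => sr_pv_mem (Finset.mem_insert_of_mem hvT) c
    · rw [sr_pv_not hvT, sr_bd, Finset.compl_insert, ← Finset.sum_erase (a := v) Tᶜ
        (f := fun s => sr_pv v c (insert s T)) (sr_pv_mem (Finset.mem_insert_self v T) c)]
      refine Finset.sum_congr rfl fun s hs => ?_
      have h1 := Finset.mem_erase.1 hs
      have h2 : v ∉ insert s T := by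
        rw [Finset.mem_insert]
        rintro (h | h)
        · exact h1.1 h.symm
        · exact hvT h
      rw [sr_pv_not h2, Finset.insert_comm]
  · exact fun j a ha h => h
  · intro j a ha
    funext T
    by_cases hvT : v ∈ T
    · exact sr_pv_mem hvT _
    · refine (sr_pv_not hvT _).trans ?_
      by_contra hn
      exact Finset.notMem_erase v S ((sr_supp ha hn).1 (Finset.mem_insert_self v T))
  · intro j c hc h
    refine ⟨c, sr_mk fun T hT => ?_, rfl⟩
    obtain ⟨h1, h2⟩ := sr_supp hc hT
    refine ⟨fun t ht => Finset.mem_erase.2 ⟨?_, h1 ht⟩, h2⟩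
    rintro rfl
    apply hT
    have h3 := congrFun h (T.erase t)
    rw [sr_pv_not (Finset.notMem_erase t T), Finset.insert_erase ht] at h3
    exact h3
  · intro j q hq
    refine ⟨fun T => if v ∈ T then q (T.erase v) else 0, sr_mk fun T hT => ?_, ?_⟩
    · by_cases hvT : v ∈ T
      · have hT' : q (T.erase v) ≠ 0 := fun h0 => hT ((if_pos hvT).trans h0)
        obtain ⟨h1, h2, h3⟩ := sr_supp hq hT'
        refine ⟨?_, ?_, ?_⟩
        · intro t ht
          by_cases htv : t = v
          · rw [htv]
            exact hv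
          · exact (mem_lk.1 (h1 (Finset.mem_erase.2 ⟨htv, ht⟩))).1
        · exact sr_cl hvT h2 fun x hx => (mem_lk.1 (h1 hx)).2
        · rw [sr_card hvT, h3]
          ring
      · exact absurd (if_neg hvT) hT
    · funext T
      by_cases hvT : v ∈ T
      · rw [sr_pv_mem hvT]
        by_contra hn
        exact hvl ((sr_supp hq (Ne.symm hn)).1 hvT)
      · rw [sr_pv_not hvT, if_pos (Finset.mem_insert_self v T), Finset.erase_insert hvT]

theorem sph_susp {n : ℕ} {S : Finset V} {G : SimpleGraph V} {a b : V} (ha : a ∈ S) (hb : b ∈ S)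
    (hab : a ≠ b) (hn : ¬ G.Adj a b) (h : ∀ x ∈ S, x ≠ a → x ≠ b → G.Adj a x ∧ G.Adj b x)
    (hl : Sph n (lk S G b) G) : Sph (n + 1) S G := by
  have hz : ∀ j, be (fun i => Ch (S.erase b) ∅ G (fun _ => (1 : Unit)) i) (bd V Unit) j = 0 := by
    intro j
    rw [← bt_eq_be]
    refine cone_zero (Finset.mem_erase.2 ⟨hab, ha⟩) (fun x hx hxa => ?_) j
    obtain ⟨h1, h2⟩ := Finset.mem_erase.1 hx
    exact (h x h2 hxa h1).1
  intro j
  have h1 := les_a (sr_ses (G := G) hb) j
  have h2 := les_c (sr_ses (G := G) hb) (j - 1)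
  rw [hz, ← bt_eq_be, ← bt_eq_be_shift] at h1
  rw [hz, ← bt_eq_be, ← bt_eq_be_shift, sub_add_cancel] at h2
  have h3 := hl (j - 1)
  have h4 : bt S ∅ G (fun _ => (1 : Unit)) j = bt (lk S G b) ∅ G (fun _ => (1 : Unit)) (j - 1) := by
    omega
  rw [h4, h3]
  by_cases hj : j = ((n + 1 : ℕ) : ℤ)
  · rw [if_pos hj, if_pos]
    rw [hj]
    push_cast
    ring
  · rw [if_neg hj, if_neg]
    intro h5
    apply hj
    push_cast
    linarith

/-- the map `θ` -/
private def sr_th (s t : V) :
    (Finset V → Unit → ZMod 2) →ₗ[ZMod 2] (Finset V → Unit → ZMod 2) where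
  toFun f := fun T => if t ∈ T then 0 else
    if s ∈ T then f T + f (insert t (T.erase s)) else f T
  map_add' q q' := by
    funext T
    simp only [Pi.add_apply]
    split_ifs
    · simp
    · abel
    · rfl
  map_smul' c q := by
    funext T
    simp only [Pi.smul_apply, RingHom.id_apply]
    split_ifs
    · simp
    · rw [smul_add]
    · rfl

section maps

variable {s t : V} {T : Finset V} (q : Finset V → Unit → ZMod 2)

omit [Fintype V] in
private theorem sr_th_mem (h2 : t ∈ T) : sr_th s t q T = 0 := if_pos h2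

omit [Fintype V] in
private theorem sr_th_left (h1 : s ∈ T) (h2 : t ∉ T) :
    sr_th s t q T = q T + q (insert t (T.erase s)) := (if_neg h2).trans (if_pos h1)

omit [Fintype V] in
private theorem sr_th_none (h1 : s ∉ T) (h2 : t ∉ T) : sr_th s t q T = q T :=
  (if_neg h2).trans (if_neg h1)

end maps

private theorem sr_th_bd {s t : V} (hst : s ≠ t) (f : Finset V → Unit → ZMod 2) :
    bd V Unit (sr_th s t f) = sr_th s t (bd V Unit f) := by
  funext T
  rw [sr_bd]
  by_cases h2 : t ∈ T
  · rw [sr_th_mem _ h2]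
    exact Finset.sum_eq_zero fun x _ => sr_th_mem f (Finset.mem_insert_of_mem h2)
  · by_cases h1 : s ∈ T
    · rw [sr_th_left _ h1 h2, sr_bd, sr_bd]
      have htc : t ∈ Tᶜ := Finset.mem_compl.2 h2
      have e3 : (insert t (T.erase s))ᶜ = insert s (Tᶜ.erase t) := by
        ext x
        simp only [Finset.mem_compl, Finset.mem_erase, Finset.mem_insert]
        by_cases hxs : x = s
        · subst hxs
          simp [hst]
        · simp [hxs]
      have hsn : s ∉ Tᶜ.erase t := fun h => (Finset.mem_compl.1 (Finset.mem_of_mem_erase h)) h1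
      rw [← Finset.add_sum_erase Tᶜ (fun x => sr_th s t f (insert x T)) htc,
        ← Finset.add_sum_erase Tᶜ (fun x => f (insert x T)) htc, e3, Finset.sum_insert hsn]
      have e4 : insert s (insert t (T.erase s)) = insert t T := by
        rw [Finset.insert_comm, Finset.insert_erase h1]
      rw [e4, sr_th_mem f (Finset.mem_insert_self t T)]
      have e5 : ∑ x ∈ Tᶜ.erase t, sr_th s t f (insert x T) =
          ∑ x ∈ Tᶜ.erase t, f (insert x T) +
            ∑ x ∈ Tᶜ.erase t, f (insert x (insert t (T.erase s))) := by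
        rw [← Finset.sum_add_distrib]
        refine Finset.sum_congr rfl fun x hx => ?_
        obtain ⟨k1, k2⟩ := Finset.mem_erase.1 hx
        rw [Finset.mem_compl] at k2
        have hxs : x ≠ s := fun h => k2 (h ▸ h1)
        rw [sr_th_left f (Finset.mem_insert_of_mem h1) (fun h => by
          rcases Finset.mem_insert.1 h with h | h
          · exact k1 h.symm
          · exact h2 h), Finset.erase_insert_of_ne hxs, Finset.insert_comm]
      rw [e5, zero_add]
      have e6 : ∀ A B C : Unit → ZMod 2, A + B = C + A + (C + B) := by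
        intro A B C
        have e7 : C + A + (C + B) = (C + C) + (A + B) := by abel
        rw [e7, sr_two, zero_add]
      exact e6 _ _ _
    · rw [sr_th_none _ h1 h2, sr_bd]
      refine sr_eq ?_
      rw [← Finset.sum_add_distrib, Finset.sum_eq_add_of_mem s t (Finset.mem_compl.2 h1)
        (Finset.mem_compl.2 h2) hst (fun x _ hx => ?_)]
      · rw [sr_th_left f (Finset.mem_insert_self _ _) (fun h => by
          rcases Finset.mem_insert.1 h with h | h
          · exact hst h.symm
          · exact h2 h), Finset.erase_insert h1, sr_th_mem f (Finset.mem_insert_self _ _), zero_add]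
        have h5 : f (insert s T) + f (insert t T) + f (insert s T) + f (insert t T) =
            (f (insert s T) + f (insert s T)) + (f (insert t T) + f (insert t T)) := by abel
        rw [h5, sr_two, sr_two, zero_add]
      · rw [sr_th_none f (fun h => ?_) (fun h => ?_), sr_two]
        · rcases Finset.mem_insert.1 h with h | h
          · exact hx.1 h.symm
          · exact h1 h
        · rcases Finset.mem_insert.1 h with h | h
          · exact hx.2 h.symm
          · exact h2 h

omit [Fintype V] in
private theorem sr_th_ch {S : Finset V} {G : SimpleGraph V} {s t : V} (hs : s ∈ S) (hst : s ≠ t)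
    {j : ℤ} {f : Finset V → Unit → ZMod 2} (hf : f ∈ Ch S ∅ G (fun _ => (1 : Unit)) j) :
    sr_th s t f ∈ Ch (S.erase t) ∅ (contract G s t) (fun _ => (1 : Unit)) j := by
  refine sr_mk fun T hT => ?_
  have htT : t ∉ T := fun h => hT (sr_th_mem f h)
  have k1 : f T ≠ 0 → T ⊆ S.erase t ∧ (contract G s t).IsClique (T : Set V) ∧
      (T.card : ℤ) = j := by
    intro h
    obtain ⟨h1, h2, h3⟩ := sr_supp hf h
    refine ⟨fun x hx => Finset.mem_erase.2 ⟨fun e => htT (e ▸ hx), h1 hx⟩, ?_, h3⟩
    intro x hx y hy hxy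
    exact ⟨hxy, Or.inl (h2 hx hy hxy)⟩
  by_cases hsT : s ∈ T
  · rw [sr_th_left f hsT htT] at hT
    by_cases h0 : f T = 0
    · rw [h0, zero_add] at hT
      obtain ⟨h1, h2, h3⟩ := sr_supp hf hT
      refine ⟨?_, ?_, ?_⟩
      · intro x hx
        refine Finset.mem_erase.2 ⟨fun e => htT (e ▸ hx), ?_⟩
        by_cases hxs : x = s
        · rw [hxs]
          exact hs
        · exact h1 (Finset.mem_insert_of_mem (Finset.mem_erase.2 ⟨hxs, hx⟩))
      · have hin : ∀ x ∈ T, x ≠ s → x ∈ ((insert t (T.erase s) : Finset V) : Set V) :=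
          fun x hx hxs => Finset.mem_coe.2 (Finset.mem_insert_of_mem (Finset.mem_erase.2 ⟨hxs, hx⟩))
        have hit : t ∈ ((insert t (T.erase s) : Finset V) : Set V) :=
          Finset.mem_coe.2 (Finset.mem_insert_self _ _)
        intro x hx y hy hxy
        refine ⟨hxy, ?_⟩
        by_cases hxs : x = s
        · have hys : y ≠ s := fun e => hxy (hxs.trans e.symm)
          exact Or.inr (Or.inl ⟨hxs, h2 hit (hin y hy hys) (fun e => htT (e ▸ hy))⟩)
        · by_cases hys : y = s
          · exact Or.inr (Or.inr ⟨hys, h2 hit (hin x hx hxs) (fun e => htT (e ▸ hx))⟩)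
          · exact Or.inl (h2 (hin x hx hxs) (hin y hy hys) hxy)
      · rw [← h3, Finset.card_insert_of_notMem (fun h => htT (Finset.mem_of_mem_erase h)),
          Finset.card_erase_add_one hsT]
    · exact k1 h0
  · rw [sr_th_none f hsT htT] at hT
    exact k1 hT

omit [Fintype V] in
private theorem sr_key {S : Finset V} {G : SimpleGraph V} {s t : V} (hq : NoSq S G s t)
    {T : Finset V} (hTS : T ⊆ S.erase t)
    (hc : (contract G s t).IsClique (T : Set V)) (hsT : s ∈ T)
    (hn : ¬ G.IsClique (T : Set V)) : G.IsClique ((insert t (T.erase s) : Finset V) : Set V) := by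
  have hG : ∀ x ∈ T.erase s, ∀ y ∈ T.erase s, x ≠ y → G.Adj x y := by
    intro x hx y hy hxy
    obtain ⟨hx1, hx2⟩ := Finset.mem_erase.1 hx
    obtain ⟨hy1, hy2⟩ := Finset.mem_erase.1 hy
    rcases (hc (Finset.mem_coe.2 hx2) (Finset.mem_coe.2 hy2) hxy).2 with h | h | h
    · exact h
    · exact absurd h.1 hx1
    · exact absurd h.1 hy1
  have hor : ∀ y ∈ T.erase s, G.Adj s y ∨ G.Adj t y := by
    intro y hy
    obtain ⟨hy1, hy2⟩ := Finset.mem_erase.1 hy
    rcases (hc (Finset.mem_coe.2 hsT) (Finset.mem_coe.2 hy2) (Ne.symm hy1)).2 with h | h | h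
    · exact Or.inl h
    · exact Or.inr h.2
    · exact absurd h.1 hy1
  obtain ⟨x, hx, hsx⟩ : ∃ x ∈ T.erase s, ¬ G.Adj s x := by
    by_contra hcon
    push Not at hcon
    apply hn
    refine sr_cl hsT ?_ hcon
    intro x hx y hy hxy
    exact hG x (Finset.mem_coe.1 hx) y (Finset.mem_coe.1 hy) hxy
  have htx : G.Adj t x := (hor x hx).resolve_left hsx
  have hT : ∀ y ∈ T.erase s, G.Adj t y := by
    intro y hy
    by_contra hty
    have hsy : G.Adj s y := (hor y hy).resolve_right hty
    have hyx : y ≠ x := fun h => hsx (h ▸ hsy)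
    have hxS := Finset.mem_erase.1 (hTS (Finset.mem_of_mem_erase hx))
    have hyS := Finset.mem_erase.1 (hTS (Finset.mem_of_mem_erase hy))
    exact hq y hyS.2 x hxS.2 hsy htx hty hsx hyS.1 (Finset.mem_erase.1 hx).1
      (hG y hy x hx hyx)
  rw [Finset.coe_insert, SimpleGraph.isClique_insert]
  refine ⟨?_, fun b hb _ => hT b (Finset.mem_coe.1 hb)⟩
  intro x hx y hy hxy
  exact hG x (Finset.mem_coe.1 hx) y (Finset.mem_coe.1 hy) hxy

omit [Fintype V] in
private theorem sr_surj {S : Finset V} {G : SimpleGraph V} {s t : V} (ht : t ∈ S)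
    (hst : G.Adj s t) (hq : NoSq S G s t) {j : ℤ} {h : Finset V → Unit → ZMod 2}
    (hh : h ∈ Ch (S.erase t) ∅ (contract G s t) (fun _ => (1 : Unit)) j) :
    ∃ f ∈ Ch S ∅ G (fun _ => (1 : Unit)) j, sr_th s t f = h := by
  classical
  have hst' : s ≠ t := hst.ne
  obtain ⟨f, hf⟩ : ∃ f : Finset V → Unit → ZMod 2, ∀ T, f T =
      if t ∈ T then (if s ∈ T then 0 else if G.IsClique ((insert s (T.erase t) : Finset V) : Set V)
        then 0 else if G.IsClique (T : Set V) then h (insert s (T.erase t)) else 0)
      else if G.IsClique (T : Set V) then h T else 0 := ⟨_, fun _ => rfl⟩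
  have hA : ∀ T : Finset V, t ∉ T → G.IsClique (T : Set V) → f T = h T := by
    intro T h1 h2
    rw [hf, if_neg h1, if_pos h2]
  have hB : ∀ T : Finset V, t ∉ T → ¬ G.IsClique (T : Set V) → f T = 0 := by
    intro T h1 h2
    rw [hf, if_neg h1, if_neg h2]
  have hC : ∀ T : Finset V, t ∈ T → s ∉ T → ¬ G.IsClique ((insert s (T.erase t) : Finset V) : Set V) →
      G.IsClique (T : Set V) → f T = h (insert s (T.erase t)) := by
    intro T h1 h2 h3 h4
    rw [hf, if_pos h1, if_neg h2, if_neg h3, if_pos h4]
  have hD : ∀ T : Finset V, t ∈ T → s ∉ T → G.IsClique ((insert s (T.erase t) : Finset V) : Set V) →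
      f T = 0 := by
    intro T h1 h2 h3
    rw [hf, if_pos h1, if_neg h2, if_pos h3]
  have hE : ∀ T : Finset V, t ∈ T → ¬ (s ∉ T ∧ ¬ G.IsClique ((insert s (T.erase t) : Finset V) : Set V) ∧
      G.IsClique (T : Set V)) → f T = 0 := by
    intro T h1 h2
    rw [hf, if_pos h1]
    by_cases h3 : s ∈ T
    · rw [if_pos h3]
    · rw [if_neg h3]
      by_cases h4 : G.IsClique ((insert s (T.erase t) : Finset V) : Set V)
      · rw [if_pos h4]
      · rw [if_neg h4]
        by_cases h5 : G.IsClique (T : Set V)
        · exact absurd ⟨h3, h4, h5⟩ h2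
        · rw [if_neg h5]
  refine ⟨f, sr_mk ?_, ?_⟩
  · intro T hT
    by_cases htT : t ∈ T
    · by_cases hc : s ∉ T ∧ ¬ G.IsClique ((insert s (T.erase t) : Finset V) : Set V) ∧
          G.IsClique (T : Set V)
      · rw [hC T htT hc.1 hc.2.1 hc.2.2] at hT
        obtain ⟨k1, -, k3⟩ := sr_supp hh hT
        refine ⟨?_, hc.2.2, ?_⟩
        · intro x hx
          by_cases hxt : x = t
          · rw [hxt]
            exact ht
          · exact Finset.mem_of_mem_erase
              (k1 (Finset.mem_insert_of_mem (Finset.mem_erase.2 ⟨hxt, hx⟩)))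
        · rw [← k3, Finset.card_insert_of_notMem (fun h => hc.1 (Finset.mem_of_mem_erase h)),
            Finset.card_erase_add_one htT]
      · exact absurd (hE T htT hc) hT
    · by_cases hc : G.IsClique (T : Set V)
      · rw [hA T htT hc] at hT
        obtain ⟨k1, -, k3⟩ := sr_supp hh hT
        exact ⟨fun x hx => Finset.mem_of_mem_erase (k1 hx), hc, k3⟩
      · exact absurd (hB T htT hc) hT
  · funext T
    by_cases htT : t ∈ T
    · rw [sr_th_mem f htT]
      by_contra hn
      obtain ⟨k1, -, -⟩ := sr_supp hh (Ne.symm hn)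
      exact Finset.notMem_erase t S (k1 htT)
    · by_cases hsT : s ∈ T
      · rw [sr_th_left f hsT htT]
        have htT' : t ∉ T.erase s := fun h => htT (Finset.mem_of_mem_erase h)
        have h1 : t ∈ insert t (T.erase s) := Finset.mem_insert_self _ _
        have h2 : s ∉ insert t (T.erase s) := fun h => by
          rcases Finset.mem_insert.1 h with h | h
          · exact hst' h
          · exact Finset.notMem_erase s T h
        have h3 : insert s ((insert t (T.erase s)).erase t) = T := by
          rw [Finset.erase_insert htT', Finset.insert_erase hsT]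
        by_cases hc : G.IsClique (T : Set V)
        · rw [hA T htT hc, hD _ h1 h2 (by rw [h3]; exact hc), add_zero]
        · rw [hB T htT hc, zero_add]
          by_cases hhT : h T = 0
          · rw [hhT]
            by_cases hc' : G.IsClique ((insert t (T.erase s) : Finset V) : Set V)
            · rw [hC _ h1 h2 (by rw [h3]; exact hc) hc', h3, hhT]
            · exact hE _ h1 fun h => hc' h.2.2
          · obtain ⟨k1, k2, -⟩ := sr_supp hh hhT
            rw [hC _ h1 h2 (by rw [h3]; exact hc) (sr_key hq k1 k2 hsT hc), h3]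
      · rw [sr_th_none f hsT htT]
        by_cases hhT : h T = 0
        · by_cases hc : G.IsClique (T : Set V)
          · exact hA T htT hc
          · rw [hB T htT hc, hhT]
        · obtain ⟨-, k2, -⟩ := sr_supp hh hhT
          refine hA T htT ?_
          intro x hx y hy hxy
          rcases (k2 hx hy hxy).2 with h' | h' | h'
          · exact h'
          · exact absurd (h'.1 ▸ Finset.mem_coe.1 hx) hsT
          · exact absurd (h'.1 ▸ Finset.mem_coe.1 hy) hsT

/-- The kernel of `θ` is acyclic. -/
private theorem sr_acyc {S : Finset V} {G : SimpleGraph V} {s t : V} (ht : t ∈ S)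
    (hst : G.Adj s t) {j : ℤ} {f : Finset V → Unit → ZMod 2}
    (hf : f ∈ Ch S ∅ G (fun _ => (1 : Unit)) j ⊓ LinearMap.ker (sr_th s t))
    (hf0 : bd V Unit f = 0) :
    ∃ h ∈ Ch S ∅ G (fun _ => (1 : Unit)) (j + 1) ⊓ LinearMap.ker (sr_th s t),
      bd V Unit h = f := by
  have hst' : s ≠ t := hst.ne
  obtain ⟨hf1, hf2⟩ := hf
  have hf3 : sr_th s t f = 0 := hf2
  -- the two sides agree
  have hag : ∀ T : Finset V, s ∉ T → t ∈ T → f (insert s (T.erase t)) = f T := by
    intro T hs1 ht1
    have h1 := congrFun hf3 (insert s (T.erase t))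
    have h2 : t ∉ insert s (T.erase t) := fun h => by
      rcases Finset.mem_insert.1 h with h | h
      · exact hst' h.symm
      · exact Finset.notMem_erase t T h
    have h3 : s ∉ T.erase t := fun h => hs1 (Finset.mem_of_mem_erase h)
    rw [sr_th_left f (Finset.mem_insert_self _ _) h2, Finset.erase_insert h3,
      Finset.insert_erase ht1] at h1
    exact sr_eq h1
  obtain ⟨h, hh⟩ : ∃ h : Finset V → Unit → ZMod 2, ∀ T, h T =
      if s ∈ T ∧ t ∈ T then f (T.erase t) else 0 := ⟨_, fun _ => rfl⟩
  have hh1 : ∀ T, s ∈ T → t ∈ T → h T = f (T.erase t) := fun T a b => by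
    rw [hh, if_pos ⟨a, b⟩]
  have hh2 : ∀ T, ¬ (s ∈ T ∧ t ∈ T) → h T = 0 := fun T a => by
    rw [hh, if_neg a]
  refine ⟨h, ⟨sr_mk fun T hT => ?_, ?_⟩, ?_⟩
  · have hc : s ∈ T ∧ t ∈ T := by
      by_contra hn
      exact hT (hh2 T hn)
    rw [hh1 T hc.1 hc.2] at hT
    obtain ⟨k1, k2, k3⟩ := sr_supp hf1 hT
    have hT2 : f (T.erase s) ≠ 0 := by
      have h1 := hag (T.erase s) (Finset.notMem_erase s T)
        (Finset.mem_erase.2 ⟨hst'.symm, hc.2⟩)
      have h2 : insert s ((T.erase s).erase t) = T.erase t := by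
        rw [Finset.erase_right_comm, Finset.insert_erase]
        exact Finset.mem_erase.2 ⟨hst', hc.1⟩
      rw [h2] at h1
      rw [← h1]
      exact hT
    obtain ⟨l1, l2, l3⟩ := sr_supp hf1 hT2
    refine ⟨?_, ?_, ?_⟩
    · intro x hx
      by_cases hxt : x = t
      · rw [hxt]
        exact ht
      · exact k1 (Finset.mem_erase.2 ⟨hxt, hx⟩)
    · refine sr_cl hc.2 k2 fun x hx => ?_
      obtain ⟨m1, m2⟩ := Finset.mem_erase.1 hx
      by_cases hxs : x = s
      · rw [hxs]
        exact hst.symm
      · exact l2 (Finset.mem_coe.2 (Finset.mem_erase.2 ⟨hst'.symm, hc.2⟩))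
          (Finset.mem_coe.2 (Finset.mem_erase.2 ⟨hxs, m2⟩)) (Ne.symm m1)
    · rw [sr_card hc.2, k3]
  · show sr_th s t h = 0
    funext T
    by_cases htT : t ∈ T
    · exact sr_th_mem h htT
    · by_cases hsT : s ∈ T
      · rw [sr_th_left h hsT htT, hh2 T fun e => htT e.2, hh2 _ fun e => ?_, add_zero]
        · rfl
        · rcases Finset.mem_insert.1 e.1 with e | e
          · exact hst' e
          · exact Finset.notMem_erase s T e
      · rw [sr_th_none h hsT htT, hh2 T fun e => htT e.2]
        rfl
  · funext T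
    rw [sr_bd]
    by_cases hsT : s ∈ T
    · by_cases htT : t ∈ T
      · have h1 := congrFun hf0 (T.erase t)
        rw [sr_bd] at h1
        have h2 : (T.erase t)ᶜ = insert t Tᶜ := by
          ext x
          simp only [Finset.mem_compl, Finset.mem_erase, Finset.mem_insert]
          by_cases hx : x = t
          · simp [hx]
          · simp [hx]
        rw [h2, Finset.sum_insert (fun h => (Finset.mem_compl.1 h) htT),
          Finset.insert_erase htT] at h1
        refine sr_eq (Eq.trans ?_ h1)
        rw [add_comm]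
        congr 1
        refine Finset.sum_congr rfl fun x hx => ?_
        have hxt : x ≠ t := by
          rintro rfl
          exact (Finset.mem_compl.1 hx) htT
        rw [hh1 _ (Finset.mem_insert_of_mem hsT) (Finset.mem_insert_of_mem htT),
          Finset.erase_insert_of_ne hxt]
      · rw [Finset.sum_eq_single t]
        · rw [hh1 _ (Finset.mem_insert_of_mem hsT) (Finset.mem_insert_self _ _),
            Finset.erase_insert htT]
        · intro x _ hxt
          refine hh2 _ fun e => ?_
          rcases Finset.mem_insert.1 e.2 with e | e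
          · exact hxt e.symm
          · exact htT e
        · intro e
          exact absurd (Finset.mem_compl.2 htT) e
    · by_cases htT : t ∈ T
      · rw [Finset.sum_eq_single s]
        · rw [hh1 _ (Finset.mem_insert_self _ _) (Finset.mem_insert_of_mem htT),
            Finset.erase_insert_of_ne hst', hag T hsT htT]
        · intro x _ hxs
          refine hh2 _ fun e => ?_
          rcases Finset.mem_insert.1 e.1 with e | e
          · exact hxs e.symm
          · exact hsT e
        · intro e
          exact absurd (Finset.mem_compl.2 hsT) e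
      · have h1 := congrFun hf3 T
        rw [sr_th_none f hsT htT] at h1
        rw [h1]
        refine Finset.sum_eq_zero fun x _ => hh2 _ fun e => ?_
        rcases Finset.mem_insert.1 e.1 with e1 | e1
        · rcases Finset.mem_insert.1 e.2 with e2 | e2
          · exact hst' (e1.trans e2.symm)
          · exact htT e2
        · exact hsT e1

private theorem sr_cont_eq {S : Finset V} {G : SimpleGraph V} {s t : V} (hs : s ∈ S) (ht : t ∈ S)
    (hst : G.Adj s t) (hq : NoSq S G s t) (j : ℤ) :
    bt S ∅ G (fun _ => (1 : Unit)) j =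
      bt (S.erase t) ∅ (contract G s t) (fun _ => (1 : Unit)) j := by
  have hses : Ses (fun i => Ch S ∅ G (fun _ => (1 : Unit)) i ⊓ LinearMap.ker (sr_th s t))
      (fun i => Ch S ∅ G (fun _ => (1 : Unit)) i)
      (fun i => Ch (S.erase t) ∅ (contract G s t) (fun _ => (1 : Unit)) i) (bd V Unit) (bd V Unit)
      (bd V Unit) LinearMap.id (sr_th s t) :=
    { dA_mem := fun j a ha => by
        refine ⟨bd_mem ha.1, ?_⟩
        have h1 : sr_th s t a = 0 := ha.2
        show sr_th s t (bd V Unit a) = 0
        rw [← sr_th_bd hst.ne, h1, map_zero]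
      dC_mem := fun j a ha => bd_mem ha
      dQ_mem := fun j a ha => bd_mem ha
      dA2 := bd_bd
      dC2 := bd_bd
      dQ2 := bd_bd
      ι_mem := fun j a ha => ha.1
      π_mem := fun j a ha => sr_th_ch hs hst.ne ha
      ι_d := fun j a ha => rfl
      π_d := fun j c hc => sr_th_bd hst.ne c
      inj := fun j a ha h => h
      π_ι := fun j a ha => ha.2
      exact := fun j c hc h => ⟨c, ⟨hc, h⟩, rfl⟩
      surj := fun j q hq' => sr_surj ht hst hq hq' }
  have hz : ∀ j, be (fun i => Ch S ∅ G (fun _ => (1 : Unit)) i ⊓ LinearMap.ker (sr_th s t))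
      (bd V Unit) j = 0 := fun j => sr_be_zero _ _ j fun f hf hf0 => sr_acyc ht hst hf hf0
  have h1 := les_a hses j
  have h2 := les_c hses (j - 1)
  rw [hz, ← bt_eq_be, ← bt_eq_be] at h1
  rw [hz, ← bt_eq_be, ← bt_eq_be, sub_add_cancel] at h2
  omega

theorem sph_cont {n : ℕ} {S : Finset V} {G : SimpleGraph V} {s t : V} (hs : s ∈ S) (ht : t ∈ S)
    (hst : G.Adj s t) (hq : NoSq S G s t) (h : Sph n (S.erase t) (contract G s t)) : Sph n S G :=
  fun j => (sr_cont_eq hs ht hst hq j).trans (h j)

theorem sph_cont_back {n : ℕ} {S : Finset V} {G : SimpleGraph V} {s t : V} (hs : s ∈ S) (ht : t ∈ S)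
    (hst : G.Adj s t) (hq : NoSq S G s t) (h : Sph n S G) : Sph n (S.erase t) (contract G s t) :=
  fun j => (sr_cont_eq hs ht hst hq j).symm.trans (h j)

private theorem sr_lks_empty (S : Finset V) (G : SimpleGraph V) : lks S G ∅ = S := by
  classical
  ext x
  simp [lks]

private theorem sr_lks_insert (S : Finset V) (G : SimpleGraph V) (v : V) (T : Finset V) :
    lks S G (insert v T) = lks (lk S G v) G T := by
  classical
  ext x
  simp only [lks, Finset.mem_filter, mem_lk, Finset.forall_mem_insert]
  tauto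

theorem Rd.lk_mem {n : ℕ} {S : Finset V} {G : SimpleGraph V} (h : Rd n S G) {v : V} (hv : v ∈ S) :
    ∃ m, n = m + 1 ∧ Rd m (lk S G v) G := by
  cases h with
  | nil G => exact absurd hv (Finset.notMem_empty v)
  | even hl hn hs => exact ⟨_, rfl, hl v hv⟩
  | susp hl a b ha hb hab hn h => exact ⟨_, rfl, hl v hv⟩
  | cont hl s t hs ht hst hq h => exact ⟨_, rfl, hl v hv⟩

theorem rd_sph {n : ℕ} {S : Finset V} {G : SimpleGraph V} (h : Rd n S G) : Sph n S G := by
  induction h with
  | nil G => exact sph_nil G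
  | even hl hn hs ih => exact hs
  | susp hl a b ha hb hab hn h ih => exact sph_susp ha hb hab hn h (ih b hb)
  | cont hl s t hs ht hst hq h ih1 ih2 => exact sph_cont hs ht hst hq ih2

private theorem sr_lks_rd {G : SimpleGraph V} (T : Finset V) : ∀ {n : ℕ} {S : Finset V},
    Rd n S G → T ⊆ S → G.IsClique (T : Set V) → ∃ m : ℕ, m + T.card = n ∧ Rd m (lks S G T) G := by
  induction T using Finset.induction_on with
  | empty =>
    intro n S h _ _
    refine ⟨n, by simp, ?_⟩
    rw [sr_lks_empty]
    exact h
  | insert v T hv ih =>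
    intro n S h hTS hc
    obtain ⟨m, rfl, hm⟩ := h.lk_mem (hTS (Finset.mem_insert_self v T))
    obtain ⟨m', hm', hr⟩ := ih hm (fun x hx => mem_lk.2 ⟨hTS (Finset.mem_insert_of_mem hx),
      hc (Finset.mem_coe.2 (Finset.mem_insert_self v T))
        (Finset.mem_coe.2 (Finset.mem_insert_of_mem hx)) (fun e => hv (e ▸ hx))⟩)
      (hc.subset (Finset.coe_subset.2 (Finset.subset_insert v T)))
    refine ⟨m', ?_, ?_⟩
    · rw [Finset.card_insert_of_notMem hv]
      omega
    · rw [sr_lks_insert]
      exact hr

theorem rd_gor {n : ℕ} {S : Finset V} {G : SimpleGraph V} (h : Rd n S G) : Gor n S G := by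
  intro T hT hc
  obtain ⟨m, hm, hr⟩ := sr_lks_rd T h hT hc
  exact ⟨m, hm, rd_sph hr⟩

end SNG
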