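import Pool.Agent.SNG.Basic

/-!
# Project SNG (architect helper40), module Inv: invariants under one more involution

`be_retract` with `A j = Ch S (insert r R) G p j`, `C j = Ch S R G p j`, `ι = id` and
`(ρ f) T g = c g * f T g + (c g + 1) * f T (g * p r)`.
* `ρ f` is invariant under `p r`: `c (g p_r) = c g + 1`, `g p_r p_r = g`, `c g + 1 + 1 = c g`.
* `ρ f` is invariant under `p s`, `s ∈ T ∪ R`, for `T ⊆ S` (for other `T` it is `0`):
  `c (g p_s) = c g` and `g p_s p_r = g p_r p_s`.
* `ρ` commutes with `bd` (obvious), `ρ f = f` for `f` invariant under `p r` (`c + (c + 1) = 1`).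
-/

namespace SNG

open Finset

variable {V : Type} [Fintype V] [DecidableEq V] {P : Type} [Group P] [Finite P]

theorem inv_le {S R : Finset V} {G : SimpleGraph V} {p : V → P} {r : V} (c : P → ZMod 2)
    (hc : ∀ g, c (g * p r) = c g + 1) (hi : ∀ s ∈ S ∪ R, ∀ g, c (g * p s) = c g)
    (hr : p r * p r = 1) (hcomm : ∀ s ∈ S ∪ R, p s * p r = p r * p s) (j : ℤ) :
    bt S (insert r R) G p j ≤ bt S R G p j := by
  have h2 : ∀ x : ZMod 2, x + 1 + 1 = x := by decide
  let ρ : (Finset V → P → ZMod 2) →ₗ[ZMod 2] (Finset V → P → ZMod 2) :=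
    { toFun := fun f T g => c g * f T g + (c g + 1) * f T (g * p r)
      map_add' := by
        intro f f'
        funext T g
        simp only [Pi.add_apply]
        ring
      map_smul' := by
        intro a f
        funext T g
        simp only [Pi.smul_apply, smul_eq_mul, RingHom.id_apply]
        ring }
  have hρ : ∀ f T g, ρ f T g = c g * f T g + (c g + 1) * f T (g * p r) := fun _ _ _ => rfl
  rw [bt_eq_be, bt_eq_be]
  refine be_retract (A := fun i => Ch S (insert r R) G p i) (C := fun i => Ch S R G p i)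
    (dA := bd V P) (dC := bd V P) (j := j) (fun f hf => bd_mem hf) (fun f _ => bd_bd f)
    LinearMap.id ρ ?_ (fun a _ h => h) ?_ ?_ ?_
  · rintro f ⟨hf1, hf2⟩
    refine ⟨hf1, fun T s hs g => hf2 T s ?_ g⟩
    rw [Finset.mem_union] at hs ⊢
    exact hs.imp id fun h => Finset.mem_insert_of_mem h
  · rintro f ⟨hf1, hf2⟩
    refine ⟨fun T hT => ?_, fun T s hs g => ?_⟩
    · funext g
      rw [hρ, hf1 T hT]
      simp
    · by_cases hT : T ⊆ S
      · by_cases hsr : s = r
        · subst hsr
          rw [hρ, hρ, hc, h2, mul_assoc, hr, mul_one, add_comm]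
        · have hs1 : s ∈ T ∪ R := by
            rw [Finset.mem_union] at hs ⊢
            exact hs.imp id fun h => (Finset.mem_insert.1 h).resolve_left hsr
          have hs2 : s ∈ S ∪ R := by
            rw [Finset.mem_union] at hs1 ⊢
            exact hs1.imp (fun h => hT h) id
          rw [hρ, hρ, hi s hs2, hf2 T s hs1, mul_assoc, hcomm s hs2, ← mul_assoc, hf2 T s hs1]
      · have h0 : f T = 0 := hf1 T fun h => hT h.1
        rw [hρ, hρ, h0]
        simp
  · intro f _
    funext T g
    rw [hρ]
    show c g * (∑ s ∈ Tᶜ, f (insert s T) g) + (c g + 1) * (∑ s ∈ Tᶜ, f (insert s T) (g * p r)) =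
      ∑ s ∈ Tᶜ, (c g * f (insert s T) g + (c g + 1) * f (insert s T) (g * p r))
    rw [Finset.sum_add_distrib, Finset.mul_sum, Finset.mul_sum]
  · rintro f ⟨hf1, hf2⟩
    funext T g
    rw [LinearMap.id_apply, hρ, hf2 T r (Finset.mem_union_right _ (Finset.mem_insert_self _ _))]
    have h3 : c g + (c g + 1) = 1 := by
      have : ∀ x : ZMod 2, x + (x + 1) = 1 := by decide
      exact this _
    rw [← add_mul, h3, one_mul]

/-- One involution. -/
theorem inv_le_one {S : Finset V} {G : SimpleGraph V} {p : V → P} {r : V} (c : P → ZMod 2)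
    (hc : ∀ g, c (g * p r) = c g + 1) (hi : ∀ s ∈ S, ∀ g, c (g * p s) = c g)
    (hr : p r * p r = 1) (hcomm : ∀ s ∈ S, p s * p r = p r * p s) (j : ℤ) :
    bt S {r} G p j ≤ bt S ∅ G p j := by
  have h := inv_le (S := S) (R := ∅) (G := G) (p := p) (r := r) c hc (by simpa using hi) hr
    (by simpa using hcomm) j
  simpa using h

end SNG
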