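import Pool.Agent.SNG.Cover

/-!
# Project SNG (architect helper40), module Surj: normalised Betti numbers decrease along covers

`surj_le`: for a surjective homomorphism `α : P → P₁`, `P` a finite 2-group:
`bt(p) / |P| ≤ bt(α ∘ p) / |P₁|`.

Proof by induction on `|P|` (all data varying, `P₁` fixed).  If `α` is injective it is an
isomorphism; then `bt` agree (the map `f ↦ (T, g) ↦ f T (α g)` is a linear equivalence taking
`Ch` to `Ch` and commuting with `bd`; one inequality suffices: `be_retract`) and `|P| = |P₁|`.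
Otherwise `ker α` is a nontrivial normal subgroup of the 2-group `P`, so it contains a central
element `z ≠ 1` (`P` acts on `ker α` by conjugation, `IsPGroup.card_modEq_card_fixedPoints`; or see
whether Mathlib has the lemma), and replacing `z` by a power we may assume `z * z = 1` (the order of
`z` is a power of 2).  Let `N = Subgroup.zpowers z = {1, z}`, `P' = P ⧸ N`, `π = QuotientGroup.mk' N`,
`α' : P' → P₁` the induced homomorphism (`QuotientGroup.lift`), surjective.  `P'` is a 2-group
(`IsPGroup.to_quotient`), `|P| = 2 |P'|`.  `Loc S G (π ∘ p)` follows from `Loc S G (α ∘ p)` by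
composing the coordinate functions with `α'`.  By `cover_le` and the induction hypothesis for `P'`,
`bt(p) |P₁| ≤ 2 bt(π ∘ p) |P₁| ≤ 2 bt(α ∘ p) |P'| = bt(α ∘ p) |P|`.
-/

namespace SNG

open Finset

variable {V : Type} [Fintype V] [DecidableEq V]

/-- A nontrivial normal subgroup of a finite 2-group contains a central involution. -/
private theorem exists_central {P : Type} [Group P] [Finite P] (hP : IsPGroup 2 P)
    (H : Subgroup P) [H.Normal] (hH : H ≠ ⊥) :
    ∃ z ∈ H, z ≠ 1 ∧ z * z = 1 ∧ ∀ g, g * z = z * g := by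
  have : Fact (Nat.Prime 2) := ⟨Nat.prime_two⟩
  have : Nontrivial H := (Subgroup.nontrivial_iff_ne_bot H).2 hH
  have hdvd : 2 ∣ Nat.card H := by
    obtain ⟨n, hn0, hn⟩ := (hP.to_subgroup H).nontrivial_iff_card.mp inferInstance
    exact hn.symm ▸ dvd_pow_self _ (ne_of_gt hn0)
  have hfix : (1 : H) ∈ MulAction.fixedPoints (ConjAct P) H := by
    intro g
    exact smul_one g
  obtain ⟨b, hb, hb1⟩ := (hP.of_equiv ConjAct.toConjAct).exists_fixed_point_of_prime_dvd_card_of_fixed_point
    H hdvd hfix
  have hbc : ∀ g : P, g * (b : P) = b * g := by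
    intro g
    have h1 := congrArg (Subtype.val) (hb (ConjAct.toConjAct g))
    rw [ConjAct.Subgroup.val_conj_smul, ConjAct.smul_def, ConjAct.ofConjAct_toConjAct] at h1
    rw [mul_inv_eq_iff_eq_mul] at h1
    exact h1
  obtain ⟨n, hn⟩ := hP (b : P)
  -- the least power
  have hex : ∃ n, (b : P) ^ 2 ^ n = 1 := ⟨n, hn⟩
  classical
  obtain ⟨m, hm⟩ : ∃ m, m = Nat.find hex := ⟨_, rfl⟩
  have hm1 : (b : P) ^ 2 ^ m = 1 := by rw [hm]; exact Nat.find_spec hex
  have hm0 : m ≠ 0 := by
    intro h
    rw [h, pow_zero, pow_one] at hm1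
    exact hb1 (Subtype.ext hm1.symm)
  obtain ⟨k, rfl⟩ := Nat.exists_eq_succ_of_ne_zero hm0
  refine ⟨(b : P) ^ 2 ^ k, H.pow_mem b.2 _, ?_, ?_, ?_⟩
  · exact Nat.find_min hex (by omega : k < Nat.find hex)
  · rw [← pow_add, ← two_mul, ← pow_succ']
    exact hm1
  · intro g
    exact ((show Commute g (b : P) from hbc g).pow_right _).eq

private theorem surj_inj {P P₁ : Type} [Group P] [Finite P] [Group P₁] (e : P ≃* P₁)
    {S : Finset V} {G : SimpleGraph V} {p : V → P} (j : ℤ) :
    bt S ∅ G p j ≤ bt S ∅ G (fun v => e (p v)) j := by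
  have : Finite P₁ := Finite.of_equiv P e.toEquiv
  rw [bt_eq_be, bt_eq_be]
  refine be_retract (A := fun i => Ch S ∅ G p i) (C := fun i => Ch S ∅ G (fun v => e (p v)) i)
    (fun c hc => bd_mem hc) (fun c _ => bd_bd c)
    { toFun := fun f T g => f T (e.symm g)
      map_add' := fun f g => rfl
      map_smul' := fun c f => rfl }
    { toFun := fun f T g => f T (e g)
      map_add' := fun f g => rfl
      map_smul' := fun c f => rfl } ?_ ?_ ?_ ?_ ?_
  · rintro f ⟨h1, h2⟩
    refine ⟨fun T hT => ?_, fun T s hs g => ?_⟩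
    · funext g
      show f T (e.symm g) = 0
      rw [h1 T hT]
      rfl
    · show f T (e.symm (g * e (p s))) = f T (e.symm g)
      rw [map_mul, MulEquiv.symm_apply_apply]
      exact h2 T s hs _
  · intro f _ hf
    funext T g
    exact congrFun (congrFun hf T) (e.symm g)
  · rintro f ⟨h1, h2⟩
    refine ⟨fun T hT => ?_, fun T s hs g => ?_⟩
    · funext g
      show f T (e g) = 0
      rw [h1 T hT]
      rfl
    · show f T (e (g * p s)) = f T (e g)
      rw [map_mul]
      exact h2 T s hs _
  · intro f _
    rfl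
  · intro f _
    funext T g
    show f T (e.symm (e g)) = f T g
    rw [MulEquiv.symm_apply_apply]

private theorem surj_aux {P₁ : Type} [Group P₁] {S : Finset V} {G : SimpleGraph V} (j : ℤ)
    (n : ℕ) : ∀ (P : Type) [Group P] [Finite P] (α : P →* P₁), Nat.card P = n →
    Function.Surjective α → IsPGroup 2 P → ∀ p : V → P,
    (∀ v ∈ S, p v * p v = 1) → (∀ v ∈ S, ∀ w ∈ S, G.Adj v w → p v * p w = p w * p v) →
    Loc S G (fun v => α (p v)) →
    bt S ∅ G p j * Nat.card P₁ ≤ bt S ∅ G (fun v => α (p v)) j * Nat.card P := by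
  induction n using Nat.strong_induction_on with
  | _ n ih =>
    intro P _ _ α hn hα hP p hsq hcomm hloc
    by_cases hker : α.ker = ⊥
    · have hinj : Function.Injective α := (MonoidHom.ker_eq_bot_iff α).1 hker
      obtain ⟨e, he⟩ : ∃ e : P ≃* P₁, ∀ g, e g = α g :=
        ⟨MulEquiv.ofBijective α ⟨hinj, hα⟩, fun g => rfl⟩
      have h1 := surj_inj (S := S) (G := G) (p := p) e j
      simp only [he] at h1
      rw [Nat.card_congr e.toEquiv]
      exact Nat.mul_le_mul_right _ h1
    · obtain ⟨z, hzk, hz1, hz2, hzc⟩ := exists_central hP α.ker hker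
      have hN : (Subgroup.zpowers z).Normal := by
        refine ⟨fun x hx g => ?_⟩
        obtain ⟨i, rfl⟩ := Subgroup.mem_zpowers_iff.1 hx
        have : g * z ^ i * g⁻¹ = z ^ i := by
          rw [mul_inv_eq_iff_eq_mul]
          exact ((show Commute g z from hzc g).zpow_right i).eq
        rw [this]
        exact hx
      have hmem : ∀ g, g ∈ Subgroup.zpowers z ↔ g = 1 ∨ g = z := by
        intro g
        constructor
        · intro hg
          obtain ⟨i, rfl⟩ := Subgroup.mem_zpowers_iff.1 hg
          have hz3 : z ^ (2 : ℤ) = 1 := by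
            rw [zpow_two]
            exact hz2
          rcases Int.even_or_odd' i with ⟨m, hm | hm⟩
          · left
            rw [hm, zpow_mul, hz3, one_zpow]
          · right
            rw [hm, zpow_add, zpow_mul, hz3, one_zpow, one_mul, zpow_one]
        · rintro (rfl | rfl)
          · exact Subgroup.one_mem _
          · exact Subgroup.mem_zpowers _
      have hle : ∀ g ∈ Subgroup.zpowers z, α g = 1 := by
        intro g hg
        rcases (hmem g).1 hg with rfl | rfl
        · exact map_one α
        · exact hzk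
      have hcardN : Nat.card (Subgroup.zpowers z) = 2 := by
        rw [Nat.card_zpowers, orderOf_eq_prime_iff]
        exact ⟨by rw [pow_two]; exact hz2, hz1⟩
      have hcard : Nat.card P = Nat.card (P ⧸ Subgroup.zpowers z) * 2 := by
        rw [Subgroup.card_eq_card_quotient_mul_card_subgroup (Subgroup.zpowers z), hcardN]
      have hpos : 0 < Nat.card (P ⧸ Subgroup.zpowers z) := Nat.card_pos
      obtain ⟨α', hα'⟩ : ∃ α' : (P ⧸ Subgroup.zpowers z) →* P₁,
          ∀ g, α' (QuotientGroup.mk' (Subgroup.zpowers z) g) = α g :=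
        ⟨QuotientGroup.lift (Subgroup.zpowers z) α hle, fun g => rfl⟩
      have hsurj' : Function.Surjective α' := by
        intro y
        obtain ⟨g, rfl⟩ := hα y
        exact ⟨_, hα' g⟩
      have hloc' : Loc S G (fun v => QuotientGroup.mk' (Subgroup.zpowers z) (p v)) := by
        intro T hT hcl
        obtain ⟨c, hc⟩ := hloc T hT hcl
        refine ⟨fun v y => c v (α' y), fun v hv w hw g => ?_⟩
        show c v (α' (g * QuotientGroup.mk' (Subgroup.zpowers z) (p w))) = _
        rw [map_mul, hα']
        exact hc v hv w hw _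
      have h1 := cover_le (QuotientGroup.mk' (Subgroup.zpowers z))
        (QuotientGroup.mk'_surjective _) z hz1 (fun g => by
          rw [← hmem g, ← MonoidHom.mem_ker, QuotientGroup.ker_mk']) hsq hcomm hloc' j
      have h2 := ih (Nat.card (P ⧸ Subgroup.zpowers z)) (by omega) (P ⧸ Subgroup.zpowers z) α' rfl
        hsurj' (hP.to_quotient _) (fun v => QuotientGroup.mk' (Subgroup.zpowers z) (p v))
        (fun v hv => by
          rw [← map_mul, hsq v hv, map_one])
        (fun v hv w hw hvw => by
          rw [← map_mul, hcomm v hv w hw hvw, map_mul])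
        (by simpa only [hα'] using hloc)
      simp only [hα'] at h2
      calc bt S ∅ G p j * Nat.card P₁
          ≤ (2 * bt S ∅ G (fun v => QuotientGroup.mk' (Subgroup.zpowers z) (p v)) j) *
            Nat.card P₁ := Nat.mul_le_mul_right _ h1
        _ = 2 * (bt S ∅ G (fun v => QuotientGroup.mk' (Subgroup.zpowers z) (p v)) j *
            Nat.card P₁) := by ring
        _ ≤ 2 * (bt S ∅ G (fun v => α (p v)) j * Nat.card (P ⧸ Subgroup.zpowers z)) :=
            Nat.mul_le_mul_left _ h2
        _ = bt S ∅ G (fun v => α (p v)) j * Nat.card P := by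
            rw [hcard]
            ring

theorem surj_le {P P₁ : Type} [Group P] [Finite P] [Group P₁] (α : P →* P₁)
    (hα : Function.Surjective α) (hP : IsPGroup 2 P) {S : Finset V} {G : SimpleGraph V} {p : V → P}
    (hsq : ∀ v ∈ S, p v * p v = 1) (hcomm : ∀ v ∈ S, ∀ w ∈ S, G.Adj v w → p v * p w = p w * p v)
    (hloc : Loc S G (fun v => α (p v))) (j : ℤ) :
    bt S ∅ G p j * Nat.card P₁ ≤ bt S ∅ G (fun v => α (p v)) j * Nat.card P :=
  surj_aux j (Nat.card P) P α rfl hα hP p hsq hcomm hloc

end SNG
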