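import Pool.Agent.SNG.Cont
import Pool.Agent.SNG.Inv
import Pool.Agent.SNG.Surj

/-!
# Project SNG (architect helper40), module ZCont: `Zp` and edge contractions

`Z/2` is `Multiplicative (ZMod 2)` with generator `τ = ofAdd 1`.

`z_cont`: `(P₁, p₁)` data for `(S.erase t, contract G s t, j)`, `(P₂, p₂)` for
`(ck S G s t, G, j - 1)`, `(P₃, p₃)` for `(ck S G s t, G, j - 2)`, all with `3 * m` in place of `m`.
`P⁻ = P₁ × P₂ × P₃`, `P = P⁻ × Z/2`.  For `x ≠ t`:
`p x = ((p₁ x, if x ∈ ck then p₂ x else 1, if x ∈ ck then p₃ x else 1), 1)` and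
`p t = ((p₁ s, 1, 1), τ)`  (note `s ∉ ck`, so `p s = ((p₁ s, 1, 1), 1)`).
* `IsDat S G p`.  sq: clear.  comm: for adjacent `x, y ≠ t` they are adjacent in `contract G s t`;
  for `x = t`, `y ≠ s` adjacent in `G`, `s` and `y` are adjacent in `contract G s t`, so `p₁ s`, `p₁ y`
  commute; `x = t`, `y = s`: clear.  coordinates: `c_x = c₁_x ∘ fst` for `x ≠ s, t`; `c_t =` last
  coordinate; `c_s = c₁_s + ` last coordinate.
* `edge_add` and `inv_le` twice (`{s, t} = insert s {t}`, first remove `s` with `c_s`, which is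
  invariant under `p t`; then `inv_le_one` with `c_t`):
  `bt S ∅ G p j ≤ bt S ∅ (cut G s t) p j + bt ck ∅ G p (j - 2)`.
* Let `π : P → P⁻` be the projection, `z = (1, τ)`.  `Loc S (cut G s t) (π ∘ p)`: a clique `T ⊆ S` of
  `cut G s t` does not contain both `s` and `t`.  If `t ∉ T` use the coordinates `c₁_x ∘ fst`; if
  `t ∈ T` use `c₁_s ∘ fst` for `t` and `c₁_x ∘ fst` for the others.  `cover_le`:
  `bt S ∅ (cut G s t) p j ≤ 2 * bt S ∅ (cut G s t) (π ∘ p) j`.
* `(π ∘ p) t = (π ∘ p) s`, so by `cont_le` and `inv_le_one` (with `c₁_s ∘ fst`):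
  `bt S ∅ (cut G s t) (π ∘ p) j ≤ bt (S.erase t) ∅ (contract G s t) (π ∘ p) j +
  bt ck ∅ G (π ∘ p) (j - 1)`.
* `surj_le` for the projections `P⁻ → P₁`, `P⁻ → P₂`, `P → P₃`:
  `3 m * bt (S.erase t) ∅ (contract G s t) (π ∘ p) j ≤ |P⁻|`, `3 m * bt ck ∅ G (π ∘ p) (j - 1) ≤ |P⁻|`,
  `3 m * bt ck ∅ G p (j - 2) ≤ |P|`.
Sum: `3 m * bt S ∅ G p j ≤ 2 (|P⁻| + |P⁻|) + |P| = 3 |P|`.
-/

namespace SNG

open Finset

variable {V : Type} [Fintype V] [DecidableEq V]

private theorem pgroup_prod {A B : Type} [Group A] [Group B] [Finite A] [Finite B]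
    (hA : IsPGroup 2 A) (hB : IsPGroup 2 B) : IsPGroup 2 (A × B) := by
  obtain ⟨a, ha⟩ := IsPGroup.iff_card.1 hA
  obtain ⟨b, hb⟩ := IsPGroup.iff_card.1 hB
  exact IsPGroup.of_card (n := a + b) (by rw [Nat.card_prod, ha, hb, pow_add])

private theorem pgroup_two : IsPGroup 2 (Multiplicative (ZMod 2)) :=
  IsPGroup.of_card (n := 1) (by
    rw [Nat.card_congr Multiplicative.toAdd, Nat.card_zmod, pow_one])

omit [Fintype V] in
private theorem ext_sq {A : Finset V} {G : SimpleGraph V} {P : Type} [Group P] {p : V → P}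
    (d : IsDat A G p) (v : V) :
    (if v ∈ A then p v else 1) * (if v ∈ A then p v else 1) = 1 := by
  by_cases h : v ∈ A
  · rw [if_pos h]
    exact d.sq v h
  · rw [if_neg h, mul_one]

omit [Fintype V] in
private theorem ext_comm {A : Finset V} {G : SimpleGraph V} {P : Type} [Group P] {p : V → P}
    (d : IsDat A G p) {v w : V} (h : v ∈ A → w ∈ A → G.Adj v w) :
    (if v ∈ A then p v else 1) * (if w ∈ A then p w else 1) =
      (if w ∈ A then p w else 1) * (if v ∈ A then p v else 1) := by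
  by_cases hv : v ∈ A
  · by_cases hw : w ∈ A
    · rw [if_pos hv, if_pos hw]
      exact d.comm v hv w hw (h hv hw)
    · rw [if_neg hw, mul_one, one_mul]
  · rw [if_neg hv, mul_one, one_mul]

/-- Normalised Betti numbers and projections. -/
private theorem proj_le {Q P₁ : Type} [Group Q] [Finite Q] [Group P₁] [Finite P₁] (α : Q →* P₁)
    (hα : Function.Surjective α) (hQ : IsPGroup 2 Q) {S : Finset V} {G : SimpleGraph V}
    {p : V → Q} {p₁ : V → P₁} (h₁ : IsDat S G p₁) (hp : ∀ v ∈ S, α (p v) = p₁ v)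
    (hsq : ∀ v ∈ S, p v * p v = 1) (hcomm : ∀ v ∈ S, ∀ w ∈ S, G.Adj v w → p v * p w = p w * p v)
    (j : ℤ) {m : ℕ} (hm : m * bt S ∅ G p₁ j ≤ Nat.card P₁) :
    m * bt S ∅ G p j ≤ Nat.card Q := by
  have hloc : Loc S G (fun v => α (p v)) := by
    intro T hT hc
    obtain ⟨c, hc'⟩ := h₁.loc T hT hc
    refine ⟨c, fun v hv w hw g => ?_⟩
    show c v (g * α (p w)) = _
    rw [hp w (hT hw)]
    exact hc' v hv w hw g
  have h := surj_le α hα hQ hsq hcomm hloc j
  have e : bt S ∅ G (fun v => α (p v)) j = bt S ∅ G p₁ j :=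
    bt_congr (fun _ _ _ _ => Iff.rfl) (fun x hx => hp x (by simpa using hx)) j
  rw [e] at h
  have hpos : 0 < Nat.card P₁ := Nat.card_pos
  refine le_of_mul_le_mul_right (a := Nat.card P₁) ?_ hpos
  calc m * bt S ∅ G p j * Nat.card P₁ = m * (bt S ∅ G p j * Nat.card P₁) := by ring
    _ ≤ m * (bt S ∅ G p₁ j * Nat.card Q) := Nat.mul_le_mul_left _ h
    _ = (m * bt S ∅ G p₁ j) * Nat.card Q := by ring
    _ ≤ Nat.card P₁ * Nat.card Q := Nat.mul_le_mul_right _ hm
    _ = Nat.card Q * Nat.card P₁ := by ring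

theorem z_cont {S : Finset V} {G : SimpleGraph V} {s t : V} (hs : s ∈ S) (ht : t ∈ S)
    (hst : G.Adj s t) (hq : NoSq S G s t) {j : ℤ}
    (h1 : Zp (S.erase t) (contract G s t) j) (h2 : Zp (ck S G s t) G (j - 1))
    (h3 : Zp (ck S G s t) G (j - 2)) : Zp S G j := by
  classical
  intro m
  obtain ⟨P₁, gP₁, fP₁, p₁, hP₁, d₁, b₁⟩ := h1 (3 * m)
  obtain ⟨P₂, gP₂, fP₂, p₂, hP₂, d₂, b₂⟩ := h2 (3 * m)
  obtain ⟨P₃, gP₃, fP₃, p₃, hP₃, d₃, b₃⟩ := h3 (3 * m)
  have hne : s ≠ t := hst.ne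
  have hsc : s ∉ ck S G s t := fun h => G.loopless.irrefl s (mem_ck.1 h).2.1
  have htc : t ∉ ck S G s t := fun h => G.loopless.irrefl t (mem_ck.1 h).2.2
  have hAS : ck S G s t ⊆ S := fun x hx => (mem_ck.1 hx).1
  have hse : s ∈ S.erase t := Finset.mem_erase.2 ⟨hne, hs⟩
  have hAe : ck S G s t ⊆ S.erase t := fun x hx =>
    Finset.mem_erase.2 ⟨fun h => htc (h ▸ hx), hAS hx⟩
  obtain ⟨c₁, hc₁⟩ := d₁.co
  -- the first coordinate
  obtain ⟨f₁, hf₁⟩ : ∃ f : V → P₁, ∀ x, f x = if x = t then p₁ s else p₁ x := ⟨_, fun _ => rfl⟩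
  obtain ⟨q, hq'⟩ : ∃ q : V → P₁ × P₂ × P₃, ∀ x, q x = (f₁ x,
    (if x ∈ ck S G s t then p₂ x else 1), (if x ∈ ck S G s t then p₃ x else 1)) :=
    ⟨_, fun _ => rfl⟩
  obtain ⟨p, hp⟩ : ∃ p : V → (P₁ × P₂ × P₃) × Multiplicative (ZMod 2), ∀ x, p x = (q x,
    if x = t then Multiplicative.ofAdd (1 : ZMod 2) else 1) := ⟨_, fun _ => rfl⟩
  have hf₁t : f₁ t = p₁ s := by rw [hf₁, if_pos rfl]
  have hf₁n : ∀ x, x ≠ t → f₁ x = p₁ x := fun x hx => by rw [hf₁, if_neg hx]
  have hf₁s : f₁ s = p₁ s := hf₁n s hne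
  have hqt : q t = q s := by
    rw [hq', hq', if_neg htc, if_neg htc, if_neg hsc, if_neg hsc, hf₁t, hf₁s]
  have f₁sq : ∀ v ∈ S, f₁ v * f₁ v = 1 := by
    intro v hv
    by_cases hvt : v = t
    · rw [hvt, hf₁t]
      exact d₁.sq s hse
    · rw [hf₁n v hvt]
      exact d₁.sq v (Finset.mem_erase.2 ⟨hvt, hv⟩)
  have f₁comm' : ∀ v ∈ S.erase t, ∀ w ∈ S.erase t, (contract G s t).Adj v w →
      f₁ v * f₁ w = f₁ w * f₁ v := by
    intro v hv w hw h
    rw [hf₁n v (Finset.mem_erase.1 hv).1, hf₁n w (Finset.mem_erase.1 hw).1]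
    exact d₁.comm v hv w hw h
  have f₁commt : ∀ w ∈ S, G.Adj t w → f₁ t * f₁ w = f₁ w * f₁ t := by
    intro w hw h
    have hwt : w ≠ t := h.ne'
    by_cases hws : w = s
    · rw [hws, hf₁t, hf₁s]
    · rw [hf₁t, hf₁n w hwt]
      exact d₁.comm s hse w (Finset.mem_erase.2 ⟨hwt, hw⟩)
        ⟨fun e => hws e.symm, Or.inr (Or.inl ⟨rfl, h⟩)⟩
  have f₁comm : ∀ v ∈ S, ∀ w ∈ S, G.Adj v w → f₁ v * f₁ w = f₁ w * f₁ v := by
    intro v hv w hw h
    by_cases hvt : v = t
    · rw [hvt] at h ⊢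
      exact f₁commt w hw h
    · by_cases hwt : w = t
      · rw [hwt] at h ⊢
        exact (f₁commt v hv h.symm).symm
      · exact f₁comm' v (Finset.mem_erase.2 ⟨hvt, hv⟩) w (Finset.mem_erase.2 ⟨hwt, hw⟩)
          ⟨h.ne, Or.inl h⟩
  have qsq : ∀ v ∈ S, q v * q v = 1 := by
    intro v hv
    rw [hq']
    exact Prod.ext (f₁sq v hv) (Prod.ext (ext_sq d₂ v) (ext_sq d₃ v))
  have qcomm : ∀ v ∈ S, ∀ w ∈ S, G.Adj v w → q v * q w = q w * q v := by
    intro v hv w hw h
    rw [hq', hq']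
    exact Prod.ext (f₁comm v hv w hw h)
      (Prod.ext (ext_comm d₂ fun _ _ => h) (ext_comm d₃ fun _ _ => h))
  have qcomm' : ∀ v ∈ S.erase t, ∀ w ∈ S.erase t, (contract G s t).Adj v w →
      q v * q w = q w * q v := by
    intro v hv w hw h
    have hG : v ∈ ck S G s t → w ∈ ck S G s t → G.Adj v w := by
      intro hv' hw'
      rcases h.2 with h' | h' | h'
      · exact h'
      · exact absurd (h'.1 ▸ hv') hsc
      · exact absurd (h'.1 ▸ hw') hsc
    rw [hq', hq']
    exact Prod.ext (f₁comm' v hv w hw h) (Prod.ext (ext_comm d₂ hG) (ext_comm d₃ hG))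
  have hdat : IsDat S G p := by
    refine ⟨fun v hv => ?_, fun v hv w hw h => ?_, ?_⟩
    · rw [hp]
      refine Prod.ext (qsq v hv) ?_
      show (if v = t then Multiplicative.ofAdd (1 : ZMod 2) else 1) *
        (if v = t then Multiplicative.ofAdd (1 : ZMod 2) else 1) = 1
      by_cases hvt : v = t
      · rw [if_pos hvt]
        decide
      · rw [if_neg hvt, mul_one]
    · rw [hp, hp]
      exact Prod.ext (qcomm v hv w hw h) (mul_comm _ _)
    · refine ⟨fun v g => if v = t then Multiplicative.toAdd g.2 else if v = s then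
        c₁ s g.1.1 + Multiplicative.toAdd g.2 else c₁ v g.1.1, ?_⟩
      intro v hv w hw g
      have e1 : (g * p w).1.1 = g.1.1 * f₁ w := by
        rw [hp, hq']
        rfl
      have e2 : Multiplicative.toAdd (g * p w).2 = Multiplicative.toAdd g.2 +
          if w = t then 1 else 0 := by
        rw [hp]
        show Multiplicative.toAdd (g.2 * (if w = t then Multiplicative.ofAdd (1 : ZMod 2) else 1)) = _
        by_cases hwt : w = t
        · rw [if_pos hwt, if_pos hwt]
          rfl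
        · rw [if_neg hwt, if_neg hwt, mul_one, add_zero]
      show (if v = t then Multiplicative.toAdd (g * p w).2 else if v = s then
        c₁ s (g * p w).1.1 + Multiplicative.toAdd (g * p w).2 else c₁ v (g * p w).1.1) =
        (if v = t then Multiplicative.toAdd g.2 else if v = s then
        c₁ s g.1.1 + Multiplicative.toAdd g.2 else c₁ v g.1.1) + _
      rw [e1, e2]
      by_cases hvt : v = t
      · rw [if_pos hvt, if_pos hvt, hvt]
      · rw [if_neg hvt, if_neg hvt]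
        by_cases hvs : v = s
        · rw [if_pos hvs, if_pos hvs, hvs]
          by_cases hwt : w = t
          · rw [if_pos hwt, hwt, hf₁t, hc₁ s hse s hse, if_pos rfl, if_neg hne.symm]
            have h2 : (1 : ZMod 2) + 1 = 0 := by decide
            calc c₁ s g.1.1 + 1 + (Multiplicative.toAdd g.2 + 1)
                = c₁ s g.1.1 + Multiplicative.toAdd g.2 + (1 + 1) := by ring
              _ = c₁ s g.1.1 + Multiplicative.toAdd g.2 + 0 := by rw [h2]
          · rw [if_neg hwt, hf₁n w hwt, hc₁ s hse w (Finset.mem_erase.2 ⟨hwt, hw⟩)]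
            ring
        · rw [if_neg hvs, if_neg hvs]
          have hve : v ∈ S.erase t := Finset.mem_erase.2 ⟨hvt, hv⟩
          by_cases hwt : w = t
          · rw [hwt, hf₁t, hc₁ v hve s hse, if_neg (fun e => hvs e.symm),
              if_neg (fun e => hvt e.symm)]
          · rw [hf₁n w hwt, hc₁ v hve w (Finset.mem_erase.2 ⟨hwt, hw⟩)]
  have hQ : IsPGroup 2 (P₁ × P₂ × P₃) := pgroup_prod hP₁ (pgroup_prod hP₂ hP₃)
  have hPP : IsPGroup 2 ((P₁ × P₂ × P₃) × Multiplicative (ZMod 2)) := pgroup_prod hQ pgroup_two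
  have cardP : Nat.card ((P₁ × P₂ × P₃) × Multiplicative (ZMod 2)) =
      2 * Nat.card (P₁ × P₂ × P₃) := by
    rw [Nat.card_prod, Nat.card_congr (Multiplicative.toAdd (α := ZMod 2)), Nat.card_zmod,
      mul_comm]
  refine ⟨(P₁ × P₂ × P₃) × Multiplicative (ZMod 2), inferInstance, inferInstance, p, hPP, hdat, ?_⟩
  obtain ⟨c, hc⟩ := hdat.co
  -- removing the edge
  have k1 : bt S ∅ G p j ≤ bt S ∅ (cut G s t) p j + bt (ck S G s t) ∅ G p (j - 2) := by
    refine le_trans (edge_add hs ht hst j) (Nat.add_le_add_left ?_ _)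
    have i1 : bt (ck S G s t) {s, t} G p (j - 2) ≤ bt (ck S G s t) {t} G p (j - 2) := by
      refine inv_le (S := ck S G s t) (R := {t}) (G := G) (p := p) (r := s) (c s) (fun g => ?_)
        (fun x hx g => ?_) (hdat.sq s hs) (fun x hx => ?_) (j - 2)
      · rw [hc s hs s hs, if_pos rfl]
      · have hx' : x ∈ S ∧ x ≠ s := by
          rcases Finset.mem_union.1 hx with h | h
          · exact ⟨hAS h, fun e => hsc (e ▸ h)⟩
          · rw [Finset.mem_singleton.1 h]
            exact ⟨ht, hne.symm⟩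
        rw [hc s hs x hx'.1, if_neg hx'.2, add_zero]
      · rcases Finset.mem_union.1 hx with h | h
        · exact hdat.comm x (hAS h) s hs (mem_ck.1 h).2.1.symm
        · rw [Finset.mem_singleton.1 h]
          exact hdat.comm t ht s hs hst.symm
    refine le_trans i1 ?_
    refine inv_le_one (S := ck S G s t) (G := G) (p := p) (r := t) (c t) (fun g => ?_)
      (fun x hx g => ?_) (hdat.sq t ht) (fun x hx => ?_) (j - 2)
    · rw [hc t ht t ht, if_pos rfl]
    · rw [hc t ht x (hAS hx), if_neg (fun e : x = t => htc (e ▸ hx)), add_zero]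
    · exact hdat.comm x (hAS hx) t ht (mem_ck.1 hx).2.2.symm
  -- the double cover
  have hπp : (fun v => (MonoidHom.fst (P₁ × P₂ × P₃) (Multiplicative (ZMod 2))) (p v)) = q := by
    funext v
    rw [hp]
    rfl
  have k2 : bt S ∅ (cut G s t) p j ≤ 2 * bt S ∅ (cut G s t) q j := by
    have hloc : Loc S (cut G s t) q := by
      intro T hT hcl
      have hnst := ((isClique_cut hst T).1 hcl).2
      by_cases htT : t ∈ T
      · have hsT : s ∉ T := fun h => hnst ⟨h, htT⟩
        refine ⟨fun v g => if v = t then c₁ s g.1 else c₁ v g.1, ?_⟩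
        intro v hv w hw g
        have e1 : (g * q w).1 = g.1 * f₁ w := by
          rw [hq']
          rfl
        show (if v = t then c₁ s (g * q w).1 else c₁ v (g * q w).1) =
          (if v = t then c₁ s g.1 else c₁ v g.1) + _
        rw [e1]
        by_cases hvt : v = t
        · rw [if_pos hvt, if_pos hvt]
          by_cases hwt : w = t
          · rw [hwt, hf₁t, hc₁ s hse s hse, if_pos rfl, if_pos hvt.symm]
          · rw [hf₁n w hwt, hc₁ s hse w (Finset.mem_erase.2 ⟨hwt, hT hw⟩),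
              if_neg (fun e : w = s => hsT (e ▸ hw)), if_neg (fun e : w = v => hwt (e.trans hvt))]
        · have hve : v ∈ S.erase t := Finset.mem_erase.2 ⟨hvt, hT hv⟩
          rw [if_neg hvt, if_neg hvt]
          by_cases hwt : w = t
          · rw [hwt, hf₁t, hc₁ v hve s hse, if_neg (fun e => hsT (by rw [e]; exact hv)),
              if_neg (fun e => hvt e.symm)]
          · rw [hf₁n w hwt, hc₁ v hve w (Finset.mem_erase.2 ⟨hwt, hT hw⟩)]
      · refine ⟨fun v g => c₁ v g.1, ?_⟩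
        intro v hv w hw g
        have hwt : w ≠ t := fun e => htT (e ▸ hw)
        have hvt : v ≠ t := fun e => htT (e ▸ hv)
        have e1 : (g * q w).1 = g.1 * f₁ w := by
          rw [hq']
          rfl
        show c₁ v (g * q w).1 = c₁ v g.1 + _
        rw [e1, hf₁n w hwt]
        exact hc₁ v (Finset.mem_erase.2 ⟨hvt, hT hv⟩) w (Finset.mem_erase.2 ⟨hwt, hT hw⟩) g.1
    have hk : ∀ g : (P₁ × P₂ × P₃) × Multiplicative (ZMod 2),
        (MonoidHom.fst (P₁ × P₂ × P₃) (Multiplicative (ZMod 2))) g = 1 ↔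
          g = 1 ∨ g = (1, Multiplicative.ofAdd (1 : ZMod 2)) := by
      intro g
      have h01 : ∀ u : Multiplicative (ZMod 2), u = 1 ∨ u = Multiplicative.ofAdd (1 : ZMod 2) := by
        decide
      constructor
      · intro h
        have h' : g.1 = 1 := h
        rcases h01 g.2 with h2 | h2
        · exact Or.inl (Prod.ext h' h2)
        · exact Or.inr (Prod.ext h' h2)
      · rintro (h | h)
        · rw [h]
          rfl
        · rw [h]
          rfl
    have hτ : Multiplicative.ofAdd (1 : ZMod 2) ≠ 1 := by decide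
    have h := cover_le (MonoidHom.fst (P₁ × P₂ × P₃) (Multiplicative (ZMod 2)))
      Prod.fst_surjective (1, Multiplicative.ofAdd (1 : ZMod 2))
      (fun h => hτ (congrArg Prod.snd h)) hk (S := S) (G := cut G s t) (p := p)
      hdat.sq (fun v hv w hw h => hdat.comm v hv w hw h.1) (by rw [hπp]; exact hloc) j
    rw [hπp] at h
    exact h
  -- contraction
  have k3 : bt S ∅ (cut G s t) q j ≤ bt (S.erase t) ∅ (contract G s t) q j +
      bt (ck S G s t) ∅ G q (j - 1) := by
    refine le_trans (cont_le hs ht hst hq hqt j) (Nat.add_le_add_left ?_ _)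
    have e1 : ∀ (g : P₁ × P₂ × P₃) (w : V), (g * q w).1 = g.1 * f₁ w := by
      intro g w
      rw [hq']
      rfl
    refine inv_le_one (S := ck S G s t) (G := G) (p := q) (r := s) (fun g => c₁ s g.1)
      (fun g => ?_) (fun x hx g => ?_) (qsq s hs) (fun x hx => ?_) (j - 1)
    · show c₁ s (g * q s).1 = c₁ s g.1 + 1
      rw [e1, hf₁s, hc₁ s hse s hse, if_pos rfl]
    · show c₁ s (g * q x).1 = c₁ s g.1
      rw [e1, hf₁n x (fun e => htc (e ▸ hx)), hc₁ s hse x (hAe hx),
        if_neg (fun e : x = s => hsc (e ▸ hx)), add_zero]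
    · exact qcomm x (hAS hx) s hs (mem_ck.1 hx).2.1.symm
  -- the three projections
  have k4 : 3 * m * bt (S.erase t) ∅ (contract G s t) q j ≤ Nat.card (P₁ × P₂ × P₃) := by
    refine proj_le (MonoidHom.fst P₁ (P₂ × P₃)) Prod.fst_surjective hQ d₁ (fun v hv => ?_)
      (fun v hv => qsq v (Finset.mem_erase.1 hv).2) qcomm' j b₁
    rw [hq']
    exact hf₁n v (Finset.mem_erase.1 hv).1
  have k5 : 3 * m * bt (ck S G s t) ∅ G q (j - 1) ≤ Nat.card (P₁ × P₂ × P₃) := by
    refine proj_le ((MonoidHom.fst P₂ P₃).comp (MonoidHom.snd P₁ (P₂ × P₃)))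
      (Prod.fst_surjective.comp Prod.snd_surjective) hQ d₂ (fun v hv => ?_)
      (fun v hv => qsq v (hAS hv)) (fun v hv w hw h => qcomm v (hAS hv) w (hAS hw) h) (j - 1) b₂
    rw [hq']
    exact if_pos hv
  have k6 : 3 * m * bt (ck S G s t) ∅ G p (j - 2) ≤
      Nat.card ((P₁ × P₂ × P₃) × Multiplicative (ZMod 2)) := by
    refine proj_le (((MonoidHom.snd P₂ P₃).comp (MonoidHom.snd P₁ (P₂ × P₃))).comp
      (MonoidHom.fst (P₁ × P₂ × P₃) (Multiplicative (ZMod 2))))
      ((Prod.snd_surjective.comp Prod.snd_surjective).comp Prod.fst_surjective) hPP d₃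
      (fun v hv => ?_) (fun v hv => hdat.sq v (hAS hv))
      (fun v hv w hw h => hdat.comm v (hAS hv) w (hAS hw) h) (j - 2) b₃
    rw [hp, hq']
    exact if_pos hv
  rw [cardP] at k6 ⊢
  have key : 3 * (m * bt S ∅ G p j) ≤ 3 * (2 * Nat.card (P₁ × P₂ × P₃)) := by
    calc 3 * (m * bt S ∅ G p j)
        ≤ 3 * (m * (2 * (bt (S.erase t) ∅ (contract G s t) q j + bt (ck S G s t) ∅ G q (j - 1)) +
            bt (ck S G s t) ∅ G p (j - 2))) := by
          refine Nat.mul_le_mul_left _ (Nat.mul_le_mul_left _ ?_)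
          omega
      _ = 2 * (3 * m * bt (S.erase t) ∅ (contract G s t) q j) +
          2 * (3 * m * bt (ck S G s t) ∅ G q (j - 1)) +
          3 * m * bt (ck S G s t) ∅ G p (j - 2) := by ring
      _ ≤ 3 * (2 * Nat.card (P₁ × P₂ × P₃)) := by omega
  omega

end SNG
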