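import Pool.Agent.SNG.Vert
import Pool.Agent.SNG.Inv
import Pool.Agent.SNG.Surj

/-!
# Project SNG (architect helper40), module Zcalc: calculus of the predicate `Zp`

`Z/2` is `Multiplicative (ZMod 2)` with generator `τ = ofAdd 1`.

`z_empty`: `P` trivial (`PUnit` or `Multiplicative (ZMod 1)`), `Ch ∅ ∅ G p j = ⊥` for `j ≠ 0` (only
`T = ∅`, with `0` elements, is contained in `∅`), so `bt = 0`.

`z_congr`: `bt_congr`, `IsDat` only uses the graph on `S`.

`z_add`: given `m`, let `(P₁, p₁)` be data for `(S.erase v, j)` and `(P₂, p₂)` data for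
`(lk S G v, j - 1)`, both with `2 * m` in place of `m`.  `P = P₁ × P₂ × Z/2`,
`p x = (p₁ x, if x ∈ lk S G v then p₂ x else 1, 1)` for `x ≠ v` and `p v = (1, 1, τ)`.
`IsDat S G p`: coordinates `c_x = c₁_x ∘ fst` for `x ≠ v`, `c_v =` last coordinate (as an element of
`ZMod 2`).  Then
`bt S ∅ G p j ≤ bt (S.erase v) ∅ G p j + bt (lk S G v) {v} G p (j - 1)`  (`vert_add`)
`≤ bt (S.erase v) ∅ G p j + bt (lk S G v) ∅ G p (j - 1)`  (`inv_le_one` with `c_v`)
and by `surj_le` (with `bt_congr`) for the projections `P → P₁`, `P → P₂`: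
`bt (S.erase v) ∅ G p j * |P₁| ≤ bt (S.erase v) ∅ G p₁ j * |P|`, hence
`2 m * bt (S.erase v) ∅ G p j ≤ |P|`; in the same way `2 m * bt (lk S G v) ∅ G p (j - 1) ≤ |P|`.
Sum: `2 m * bt S ∅ G p j ≤ 2 |P|`.

`z_del`: `(P₁, p₁)` data for `(S, j)`, `(P₂, p₂)` data for `(lk S G v, j)`, `P = P₁ × P₂`,
`p x = (p₁ x, if x ∈ lk S G v then p₂ x else 1)`; use `vert_del`, `inv_le_one` (with
`c_v = c₁_v ∘ fst`), `surj_le`.
-/

namespace SNG

open Finset

variable {V : Type} [Fintype V] [DecidableEq V]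

private theorem isP2 : IsPGroup 2 (Multiplicative (ZMod 2)) := by
  intro g
  refine ⟨1, ?_⟩
  rw [pow_one]
  revert g
  decide

private theorem isP_prod {A B : Type} [Group A] [Group B] (hA : IsPGroup 2 A) (hB : IsPGroup 2 B) :
    IsPGroup 2 (A × B) := by
  rintro ⟨a, b⟩
  obtain ⟨k, hk⟩ := hA a
  obtain ⟨l, hl⟩ := hB b
  refine ⟨k + l, ?_⟩
  ext
  · simp only [Prod.pow_fst, Prod.fst_one]
    rw [pow_add, pow_mul, hk, one_pow]
  · simp only [Prod.pow_snd, Prod.snd_one]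
    rw [pow_add, mul_comm, pow_mul, hl, one_pow]

theorem z_empty (G : SimpleGraph V) {j : ℤ} (hj : j ≠ 0) : Zp (∅ : Finset V) G j := by
  intro m
  refine ⟨PUnit, inferInstance, inferInstance, fun _ => 1, ?_, ?_, ?_⟩
  · intro g
    exact ⟨0, Subsingleton.elim _ _⟩
  · refine ⟨by simp, by simp, fun _ _ => 0, by simp⟩
  · have h0 : Ch (∅ : Finset V) ∅ G (fun _ : V => (1 : PUnit)) j = ⊥ := by
      rw [eq_bot_iff]
      intro f hf
      rw [Submodule.mem_bot]
      funext T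
      apply hf.1
      rintro ⟨h1, -, h2⟩
      rw [Finset.subset_empty.1 h1, card_empty] at h2
      exact hj (by simpa using h2.symm)
    have h1 : bt (∅ : Finset V) ∅ G (fun _ : V => (1 : PUnit)) j = 0 := by
      unfold bt
      rw [h0, bot_inf_eq, finrank_bot, Nat.zero_sub]
    rw [h1, mul_zero]
    exact Nat.zero_le _

theorem z_congr {S : Finset V} {G G' : SimpleGraph V}
    (h : ∀ x ∈ S, ∀ y ∈ S, (G.Adj x y ↔ G'.Adj x y)) {j : ℤ} (hz : Zp S G j) : Zp S G' j := by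
  intro m
  obtain ⟨P, i1, i2, p, hP, hD, hm⟩ := hz m
  refine ⟨P, i1, i2, p, hP, ⟨hD.sq, ?_, hD.co⟩, ?_⟩
  · intro v hv w hw hvw
    exact hD.comm v hv w hw ((h v hv w hw).2 hvw)
  · rw [← bt_congr (R := ∅) (p := p) (p' := p) h (fun _ _ => rfl) j]
    exact hm

/-- Pulling back along a surjective homomorphism keeps the normalised Betti number small. -/
private theorem pull {P P₁ : Type} [Group P] [Finite P] [Group P₁] [Finite P₁] (α : P →* P₁)
    (hα : Function.Surjective α) (hP : IsPGroup 2 P) {S : Finset V} {G : SimpleGraph V}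
    {p : V → P} {p₁ : V → P₁} (hp : ∀ x ∈ S, α (p x) = p₁ x) (hD : IsDat S G p₁)
    (hsq : ∀ v ∈ S, p v * p v = 1) (hcomm : ∀ v ∈ S, ∀ w ∈ S, G.Adj v w → p v * p w = p w * p v)
    {j : ℤ} {M : ℕ} (hM : M * bt S ∅ G p₁ j ≤ Nat.card P₁) : M * bt S ∅ G p j ≤ Nat.card P := by
  have hloc : Loc S G (fun v => α (p v)) := by
    intro T hT hc
    obtain ⟨c, hc⟩ := hD.loc T hT hc
    refine ⟨c, fun v hv w hw g => ?_⟩
    have h := hc v hv w hw g
    rw [← hp w (hT hw)] at h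
    exact h
  have h1 := surj_le α hα hP hsq hcomm hloc j
  have h2 : bt S ∅ G (fun v => α (p v)) j = bt S ∅ G p₁ j := by
    refine bt_congr (fun _ _ _ _ => Iff.rfl) ?_ j
    intro x hx
    exact hp x (by simpa using hx)
  rw [h2] at h1
  have h3 : 0 < Nat.card P₁ := Nat.card_pos
  have h4 : M * bt S ∅ G p j * Nat.card P₁ ≤ Nat.card P * Nat.card P₁ := by
    calc M * bt S ∅ G p j * Nat.card P₁ = M * (bt S ∅ G p j * Nat.card P₁) := by ring
      _ ≤ M * (bt S ∅ G p₁ j * Nat.card P) := Nat.mul_le_mul_left _ h1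
      _ = (M * bt S ∅ G p₁ j) * Nat.card P := by ring
      _ ≤ Nat.card P₁ * Nat.card P := Nat.mul_le_mul_right _ hM
      _ = Nat.card P * Nat.card P₁ := by ring
  exact Nat.le_of_mul_le_mul_right h4 h3

theorem z_add {S : Finset V} {G : SimpleGraph V} {v : V} (hv : v ∈ S) {j : ℤ}
    (h1 : Zp (S.erase v) G j) (h2 : Zp (lk S G v) G (j - 1)) : Zp S G j := by
  classical
  intro m
  obtain ⟨P₁, i1, i2, p₁, hP₁, hD₁, hm₁⟩ := h1 (2 * m)
  obtain ⟨P₂, i3, i4, p₂, hP₂, hD₂, hm₂⟩ := h2 (2 * m)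
  obtain ⟨c₁, hc₁⟩ := hD₁.co
  obtain ⟨τ, hτ⟩ : ∃ τ : Multiplicative (ZMod 2), τ = Multiplicative.ofAdd 1 := ⟨_, rfl⟩
  have hττ : τ * τ = 1 := by
    rw [hτ]
    decide
  obtain ⟨p, hp⟩ : ∃ p : V → P₁ × P₂ × Multiplicative (ZMod 2), p = fun x =>
      if x = v then (1, 1, τ) else (p₁ x, if x ∈ lk S G v then p₂ x else 1, 1) := ⟨_, rfl⟩
  have hpv : p v = (1, 1, τ) := by simp [hp]
  have hpx : ∀ x, x ≠ v → p x = (p₁ x, if x ∈ lk S G v then p₂ x else 1, 1) := by
    intro x hx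
    simp [hp, hx]
  have hlkv : v ∉ lk S G v := by
    rw [mem_lk]
    exact fun h => G.loopless.irrefl v h.2
  have hlke : ∀ x ∈ lk S G v, x ∈ S.erase v := by
    intro x hx
    rw [mem_erase]
    exact ⟨fun h => hlkv (h ▸ hx), (mem_lk.1 hx).1⟩
  have hP : IsPGroup 2 (P₁ × P₂ × Multiplicative (ZMod 2)) := isP_prod hP₁ (isP_prod hP₂ isP2)
  have hsq : ∀ x ∈ S, p x * p x = 1 := by
    intro x hx
    by_cases hxv : x = v
    · rw [hxv, hpv]
      simp [hττ]
    · rw [hpx x hxv]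
      have e1 : p₁ x * p₁ x = 1 := hD₁.sq x (mem_erase.2 ⟨hxv, hx⟩)
      have e2 : (if x ∈ lk S G v then p₂ x else 1) * (if x ∈ lk S G v then p₂ x else 1) = 1 := by
        split_ifs with h
        · exact hD₂.sq x h
        · rw [one_mul]
      simp only [Prod.mk_mul_mk, e1, e2, one_mul]
      rfl
  have hcv : ∀ x, p v * p x = p x * p v := by
    intro x
    by_cases hxv : x = v
    · rw [hxv]
    · rw [hpx x hxv, hpv]
      simp
  have hcomm : ∀ x ∈ S, ∀ y ∈ S, G.Adj x y → p x * p y = p y * p x := by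
    intro x hx y hy hxy
    by_cases hxv : x = v
    · rw [hxv]
      exact hcv y
    · by_cases hyv : y = v
      · rw [hyv]
        exact (hcv x).symm
      · rw [hpx x hxv, hpx y hyv]
        have e1 : p₁ x * p₁ y = p₁ y * p₁ x :=
          hD₁.comm x (mem_erase.2 ⟨hxv, hx⟩) y (mem_erase.2 ⟨hyv, hy⟩) hxy
        have e2 : (if x ∈ lk S G v then p₂ x else 1) * (if y ∈ lk S G v then p₂ y else 1) =
            (if y ∈ lk S G v then p₂ y else 1) * (if x ∈ lk S G v then p₂ x else 1) := by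
          split_ifs with h h' h'
          · exact hD₂.comm x h y h' hxy
          · rw [one_mul, mul_one]
          · rw [one_mul, mul_one]
          · rfl
        simp only [Prod.mk_mul_mk, e1, e2]
  refine ⟨P₁ × P₂ × Multiplicative (ZMod 2), inferInstance, inferInstance, p, hP,
    ⟨hsq, hcomm, ?_⟩, ?_⟩
  · refine ⟨fun x g => if x = v then Multiplicative.toAdd g.2.2 else c₁ x g.1, ?_⟩
    intro x hx w hw g
    by_cases hxv : x = v
    · simp only [hxv, if_true]
      by_cases hwv : w = v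
      · rw [hwv, hpv]
        simp [hτ]
      · rw [hpx w hwv]
        simp [hwv]
    · simp only [hxv, if_false]
      by_cases hwv : w = v
      · have hvx : ¬ v = x := fun h => hxv h.symm
        rw [hwv, hpv]
        simp [hvx]
      · rw [hpx w hwv]
        exact hc₁ x (mem_erase.2 ⟨hxv, hx⟩) w (mem_erase.2 ⟨hwv, hw⟩) g.1
  · have k1 : 2 * m * bt (S.erase v) ∅ G p j ≤ Nat.card (P₁ × P₂ × Multiplicative (ZMod 2)) := by
      refine pull (MonoidHom.fst P₁ (P₂ × Multiplicative (ZMod 2))) (fun a => ⟨(a, 1), rfl⟩) hP ?_ hD₁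
        (fun x hx => hsq x (mem_erase.1 hx).2)
        (fun x hx y hy => hcomm x (mem_erase.1 hx).2 y (mem_erase.1 hy).2) hm₁
      intro x hx
      rw [hpx x (mem_erase.1 hx).1]
      rfl
    have k2 : 2 * m * bt (lk S G v) ∅ G p (j - 1) ≤
        Nat.card (P₁ × P₂ × Multiplicative (ZMod 2)) := by
      refine pull ((MonoidHom.fst P₂ (Multiplicative (ZMod 2))).comp
        (MonoidHom.snd P₁ (P₂ × Multiplicative (ZMod 2)))) (fun a => ⟨(1, a, 1), rfl⟩) hP ?_ hD₂
        (fun x hx => hsq x (mem_lk.1 hx).1)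
        (fun x hx y hy => hcomm x (mem_lk.1 hx).1 y (mem_lk.1 hy).1) hm₂
      intro x hx
      rw [hpx x (mem_erase.1 (hlke x hx)).1]
      simp [hx]
    have k3 := vert_add (p := p) (G := G) hv j
    have k4 : bt (lk S G v) {v} G p (j - 1) ≤ bt (lk S G v) ∅ G p (j - 1) := by
      refine inv_le_one (fun g => Multiplicative.toAdd g.2.2) ?_ ?_ (hsq v hv)
        (fun s _ => (hcv s).symm) (j - 1)
      · intro g
        rw [hpv]
        simp [hτ]
      · intro s hs g
        rw [hpx s (mem_erase.1 (hlke s hs)).1]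
        simp
    have k5 : m * bt S ∅ G p j ≤
        m * bt (S.erase v) ∅ G p j + m * bt (lk S G v) ∅ G p (j - 1) := by
      rw [← mul_add]
      exact Nat.mul_le_mul_left _ (k3.trans (Nat.add_le_add_left k4 _))
    have e1 : 2 * m * bt (S.erase v) ∅ G p j = 2 * (m * bt (S.erase v) ∅ G p j) := by ring
    have e2 : 2 * m * bt (lk S G v) ∅ G p (j - 1) = 2 * (m * bt (lk S G v) ∅ G p (j - 1)) := by ring
    rw [e1] at k1
    rw [e2] at k2
    omega

theorem z_del {S : Finset V} {G : SimpleGraph V} {v : V} (hv : v ∈ S) {j : ℤ}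
    (h1 : Zp S G j) (h2 : Zp (lk S G v) G j) : Zp (S.erase v) G j := by
  classical
  intro m
  obtain ⟨P₁, i1, i2, p₁, hP₁, hD₁, hm₁⟩ := h1 (2 * m)
  obtain ⟨P₂, i3, i4, p₂, hP₂, hD₂, hm₂⟩ := h2 (2 * m)
  obtain ⟨c₁, hc₁⟩ := hD₁.co
  obtain ⟨p, hp⟩ : ∃ p : V → P₁ × P₂, p = fun x =>
      (p₁ x, if x ∈ lk S G v then p₂ x else 1) := ⟨_, rfl⟩
  have hpx : ∀ x, p x = (p₁ x, if x ∈ lk S G v then p₂ x else 1) := by
    intro x
    rw [hp]
  have hlkv : v ∉ lk S G v := by
    rw [mem_lk]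
    exact fun h => G.loopless.irrefl v h.2
  have hP : IsPGroup 2 (P₁ × P₂) := isP_prod hP₁ hP₂
  have hsq : ∀ x ∈ S, p x * p x = 1 := by
    intro x hx
    rw [hpx x]
    have e1 : p₁ x * p₁ x = 1 := hD₁.sq x hx
    have e2 : (if x ∈ lk S G v then p₂ x else 1) * (if x ∈ lk S G v then p₂ x else 1) = 1 := by
      split_ifs with h
      · exact hD₂.sq x h
      · rw [one_mul]
    simp only [Prod.mk_mul_mk, e1, e2]
    rfl
  have hcomm : ∀ x ∈ S, ∀ y ∈ S, G.Adj x y → p x * p y = p y * p x := by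
    intro x hx y hy hxy
    rw [hpx x, hpx y]
    have e1 : p₁ x * p₁ y = p₁ y * p₁ x := hD₁.comm x hx y hy hxy
    have e2 : (if x ∈ lk S G v then p₂ x else 1) * (if y ∈ lk S G v then p₂ y else 1) =
        (if y ∈ lk S G v then p₂ y else 1) * (if x ∈ lk S G v then p₂ x else 1) := by
      split_ifs with h h' h'
      · exact hD₂.comm x h y h' hxy
      · rw [one_mul, mul_one]
      · rw [one_mul, mul_one]
      · rfl
    simp only [Prod.mk_mul_mk, e1, e2]
  refine ⟨P₁ × P₂, inferInstance, inferInstance, p, hP,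
    ⟨fun x hx => hsq x (mem_erase.1 hx).2,
      fun x hx y hy => hcomm x (mem_erase.1 hx).2 y (mem_erase.1 hy).2, ?_⟩, ?_⟩
  · refine ⟨fun x g => c₁ x g.1, ?_⟩
    intro x hx w hw g
    rw [hpx w]
    exact hc₁ x (mem_erase.1 hx).2 w (mem_erase.1 hw).2 g.1
  · have k1 : 2 * m * bt S ∅ G p j ≤ Nat.card (P₁ × P₂) := by
      refine pull (MonoidHom.fst P₁ P₂) (fun a => ⟨(a, 1), rfl⟩) hP ?_ hD₁ hsq hcomm hm₁
      intro x hx
      rw [hpx x]
      rfl
    have k2 : 2 * m * bt (lk S G v) ∅ G p j ≤ Nat.card (P₁ × P₂) := by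
      refine pull (MonoidHom.snd P₁ P₂) (fun a => ⟨(1, a), rfl⟩) hP ?_ hD₂
        (fun x hx => hsq x (mem_lk.1 hx).1)
        (fun x hx y hy => hcomm x (mem_lk.1 hx).1 y (mem_lk.1 hy).1) hm₂
      intro x hx
      rw [hpx x]
      simp [hx]
    have k3 := vert_del (p := p) (G := G) hv j
    have k4 : bt (lk S G v) {v} G p j ≤ bt (lk S G v) ∅ G p j := by
      refine inv_le_one (fun g => c₁ v g.1) ?_ ?_ (hsq v hv) ?_ j
      · intro g
        rw [hpx v]
        have h := hc₁ v hv v hv g.1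
        rw [if_pos rfl] at h
        exact h
      · intro s hs g
        rw [hpx s]
        have h := hc₁ v hv s (mem_lk.1 hs).1 g.1
        have hsv : ¬ s = v := fun h' => hlkv (h' ▸ hs)
        rw [if_neg hsv, add_zero] at h
        exact h
      · intro s hs
        exact (hcomm v hv s (mem_lk.1 hs).1 (mem_lk.1 hs).2).symm
    have k5 : m * bt (S.erase v) ∅ G p j ≤
        m * bt S ∅ G p j + m * bt (lk S G v) ∅ G p j := by
      rw [← mul_add]
      exact Nat.mul_le_mul_left _ (k3.trans (Nat.add_le_add_left k4 _))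
    have e1 : 2 * m * bt S ∅ G p j = 2 * (m * bt S ∅ G p j) := by ring
    have e2 : 2 * m * bt (lk S G v) ∅ G p j = 2 * (m * bt (lk S G v) ∅ G p j) := by ring
    rw [e1] at k1
    rw [e2] at k2
    omega

end SNG
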