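import Pool.Agent.SNG.TDefs

/-!
# Project SNG (architect helper40), module TCont: contraction of an edge of a flag surface

Let `Tri S G`, `s ~ t` in `S` with `NoSq S G s t`; `S' = S.erase t`, `G' = contract G s t`.  Then
`Tri S' G'`.
First facts: for `x, y ∈ S'`, `x, y ≠ s`: `G'.Adj x y ↔ G.Adj x y`; `G'.Adj s y ↔ G.Adj s y ∨ G.Adj t y`
(`y ≠ s`).  (N): if `x ~ s`, `x ≁ t`, `y ~ t`, `y ≁ s`, `x ≠ t`, `y ≠ s`, then `x ≁ y`.
`{c, d} = ck S G s t`, `c ≁ d` (`noK4`).
* `noK4`: let `T` be a clique of `G'` in `S'` with four elements.  If `s ∉ T` it is a clique of `G`.  If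
  `s ∈ T`, `T = {s, x, y, z}`: by (N) `x, y, z` are all adjacent to `s` or all adjacent to `t`
  (otherwise there are `x ≁ s` and `y ≁ t` among them; `x ≠ y`, `x ~ t`, `y ~ s`: contradiction to (N)),
  so `T` or `{t, x, y, z}` is a clique of `G` with four elements.
* `two`: let `x ~ y` in `G'`.
  - `x, y ≠ s`: `ck S G x y = {c', d'}`.  If `t ∉ {c', d'}`: `ck S' G' x y = {c', d'}` unless `s` is a
    new common neighbour: `s` is adjacent in `G'` to `x` and `y` but not in `G`; then, as `t` is not a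
    common neighbour in `G`, one of them is adjacent to `s` and not to `t`, the other to `t` and not to
    `s`: contradiction to (N).  If `t ∈ {c', d'}`, the other one is not `s` (`noK4` for
    `x, y, s, t`), and `ck S' G' x y = {s} ∪ ({c', d'} \ {t})`.
  - `x = s`: `y ~ s` or `y ~ t` in `G`.  If `y ~ s`, `y ≁ t`: for `z ≠ s, t` with `z ~ y` and `z ~ t`,
    `z ≁ s` we get a contradiction to (N); so `ck S' G' s y = ck S G s y` (`t` is not in it).
    If `y ~ t`, `y ≁ s`: `ck S' G' s y = ck S G t y`.  If `y ~ s` and `y ~ t`: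
    `ck S G s y = {t, α}`, `ck S G t y = {s, β}`, `α ≠ β` (`noK4` for `s, t, y, α`), and
    `ck S' G' s y = {α, β}`.
* `ne`: `s ∈ S'`.  `lne`: clear (for `v ≠ s`: if `t` is a neighbour then `s` is one in `G'`).
* `conn`, for `v ∈ S'`.
  - `v ≠ s` and not (`v ~ s` and `v ~ t`): if `v ≁ t`, `lk S' G' v = lk S G v` with the same adjacency
    among its elements ((N), if `v ~ s`; if `v ≁ s` then `s` is not in it).  If `v ~ t`, `v ≁ s`:
    `lk S' G' v = lk S G v` with `t` replaced by `s`, the same adjacency.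
  - `v ∈ {c, d}`: `s, t ∈ lk S G v` are adjacent; `lk S' G' v = (lk S G v).erase t`; a subset `Y` of it
    closed under adjacency of `G'` gives the closed subset `Y` or `insert t Y` (if `s ∈ Y`) of
    `lk S G v`.
  - `v = s`: `lk S' G' s = (lk s - t) ∪ (lk t - s)` (links in `(S, G)`), with intersection `{c, d}`.
    `lk s - t` is connected: let `Y ⊆ lk s - t` be nonempty and closed under adjacency inside
    `lk s - t`.  The neighbours of `t` in `lk s` are `c, d`.  If `c, d ∉ Y` then `Y` is closed in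
    `lk s`, so `Y = lk s ∋ t`, contradiction.  If exactly one of `c, d` is in `Y` the number of ordered
    pairs of adjacent elements of `Y` is `2 |Y| - 1` (each element has exactly two neighbours in
    `lk s`), but it is even: contradiction.  So `c, d ∈ Y`.  Two complementary closed subsets would
    both contain `c`.  So `lk s - t` is connected, `lk t - s` too, and both contain `c`.
-/

namespace SNG

open Finset

variable {V : Type} [Fintype V] [DecidableEq V] {S : Finset V} {G : SimpleGraph V}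

namespace Tc

omit [Fintype V] in
open Classical in
/-- handshake lemma for a finite set of vertices -/
private theorem hand (G : SimpleGraph V) (Z : Finset V) :
    Even (∑ x ∈ Z, (Z.filter (G.Adj x)).card) := by
  induction Z using Finset.induction_on with
  | empty => simp
  | insert a Z ha ih =>
    have e1 : (insert a Z).filter (G.Adj a) = Z.filter (G.Adj a) := by
      rw [filter_insert, if_neg (G.loopless.irrefl a)]
    have e2 : ∀ x ∈ Z, ((insert a Z).filter (G.Adj x)).card =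
        (Z.filter (G.Adj x)).card + if G.Adj a x then 1 else 0 := by
      intro x _
      rw [filter_insert]
      by_cases h : G.Adj x a
      · rw [if_pos h, if_pos h.symm, card_insert_of_notMem (by simp [ha])]
      · rw [if_neg h, if_neg (fun h' => h h'.symm), add_zero]
    rw [sum_insert ha, e1, sum_congr rfl e2, sum_add_distrib, ← card_filter]
    have e3 : (Z.filter (G.Adj a)).card + (∑ x ∈ Z, (Z.filter (G.Adj x)).card +
        (Z.filter (G.Adj a)).card) = ∑ x ∈ Z, (Z.filter (G.Adj x)).card +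
        2 * (Z.filter (G.Adj a)).card := by ring
    rw [e3]
    exact ih.add (even_two_mul _)

omit [Fintype V] in
private theorem key (h : Tri S G) {s t : V} (hs : s ∈ S) (ht : t ∈ S) (hst : G.Adj s t)
    {Z : Finset V} (hZ : Z ⊆ (lk S G s).erase t) (hne : Z.Nonempty)
    (hcl : ∀ y ∈ Z, ∀ z ∈ (lk S G s).erase t, G.Adj y z → z ∈ Z) : ck S G s t ⊆ Z := by
  classical
  have hdeg : ∀ x ∈ Z, (Z.filter (G.Adj x)).card + (if G.Adj t x then 1 else 0) = 2 := by
    intro x hx
    have hxL := mem_erase.1 (hZ hx)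
    have hxl := mem_lk.1 hxL.2
    have h2 := h.two s hs x hxl.1 hxl.2
    by_cases htx : G.Adj t x
    · have e : ck S G s x = insert t (Z.filter (G.Adj x)) := by
        ext z
        rw [mem_ck, mem_insert, mem_filter]
        constructor
        · rintro ⟨h3, h4, h5⟩
          by_cases hzt : z = t
          · exact Or.inl hzt
          · exact Or.inr ⟨hcl x hx z (mem_erase.2 ⟨hzt, mem_lk.2 ⟨h3, h4⟩⟩) h5, h5⟩
        · rintro (rfl | ⟨h3, h4⟩)
          · exact ⟨ht, hst, htx.symm⟩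
          · have h5 := mem_lk.1 (mem_of_mem_erase (hZ h3))
            exact ⟨h5.1, h5.2, h4⟩
      rw [e, card_insert_of_notMem] at h2
      · rw [if_pos htx]
        exact h2
      · intro h3
        exact (mem_erase.1 (hZ (mem_filter.1 h3).1)).1 rfl
    · have e : ck S G s x = Z.filter (G.Adj x) := by
        ext z
        rw [mem_ck, mem_filter]
        constructor
        · rintro ⟨h3, h4, h5⟩
          have hzt : z ≠ t := by
            rintro rfl
            exact htx h5.symm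
          exact ⟨hcl x hx z (mem_erase.2 ⟨hzt, mem_lk.2 ⟨h3, h4⟩⟩) h5, h5⟩
        · rintro ⟨h3, h4⟩
          have h5 := mem_lk.1 (mem_of_mem_erase (hZ h3))
          exact ⟨h5.1, h5.2, h4⟩
      rw [e] at h2
      rw [if_neg htx, add_zero]
      exact h2
  have hsum := sum_congr (s₁ := Z) rfl hdeg
  rw [sum_add_distrib, ← card_filter, sum_const, smul_eq_mul] at hsum
  have hev : Even (Z.filter (G.Adj t)).card := by
    obtain ⟨r, hr⟩ := hand G Z
    rw [hr] at hsum
    have hsum' : r + r + (Z.filter (G.Adj t)).card = Z.card * 2 := hsum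
    exact ⟨Z.card - r, by omega⟩
  have hsub : Z.filter (G.Adj t) ⊆ ck S G s t := by
    intro x hx
    have h1 := mem_filter.1 hx
    have h5 := mem_lk.1 (mem_of_mem_erase (hZ h1.1))
    exact mem_ck.2 ⟨h5.1, h5.2, h1.2⟩
  have h2 := h.two s hs t ht hst
  have hle := card_le_card hsub
  rw [h2] at hle
  rcases (Nat.le_iff_lt_or_eq.1 hle) with hlt | heq
  · have h0 : (Z.filter (G.Adj t)).card = 0 := by
      obtain ⟨r, hr⟩ := hev
      omega
    rw [card_eq_zero] at h0
    have hnt : ∀ y ∈ Z, ¬ G.Adj t y := by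
      intro y hy hty
      have : y ∈ Z.filter (G.Adj t) := mem_filter.2 ⟨hy, hty⟩
      rw [h0] at this
      exact absurd this (notMem_empty _)
    have hZL : Z = lk S G s := by
      refine h.conn s hs Z (fun z hz => mem_of_mem_erase (hZ hz)) hne ?_
      intro y hy z hz hyz
      refine hcl y hy z (mem_erase.2 ⟨?_, hz⟩) hyz
      rintro rfl
      exact hnt y hy hyz.symm
    have htZ : t ∈ Z := by
      rw [hZL]
      exact mem_lk.2 ⟨ht, hst⟩
    exact absurd rfl (mem_erase.1 (hZ htZ)).1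
  · have e := eq_of_subset_of_card_le hsub (by rw [h2, heq])
    rw [← e]
    exact filter_subset _ _

omit [Fintype V] in
private theorem eraseConn (h : Tri S G) {s t : V} (hs : s ∈ S) (ht : t ∈ S) (hst : G.Adj s t)
    {Z : Finset V} (hZ : Z ⊆ (lk S G s).erase t) (hne : Z.Nonempty)
    (hcl : ∀ y ∈ Z, ∀ z ∈ (lk S G s).erase t, G.Adj y z → z ∈ Z) : Z = (lk S G s).erase t := by
  by_contra hn
  obtain ⟨x, hx, hxZ⟩ : ∃ x ∈ (lk S G s).erase t, x ∉ Z := by
    by_contra h'
    push Not at h'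
    exact hn (Subset.antisymm hZ h')
  have h1 := key h hs ht hst hZ hne hcl
  have h2 := key h hs ht hst (Z := ((lk S G s).erase t) \ Z) sdiff_subset
    ⟨x, mem_sdiff.2 ⟨hx, hxZ⟩⟩ (by
      intro y hy z hz hyz
      rw [mem_sdiff] at hy ⊢
      exact ⟨hz, fun hzZ => hy.2 (hcl z hzZ y hy.1 hyz.symm)⟩)
  obtain ⟨c, hc⟩ : (ck S G s t).Nonempty := card_pos.1 (by rw [h.two s hs t ht hst]; norm_num)
  exact (mem_sdiff.1 (h2 hc)).2 (h1 hc)

omit [Fintype V] [DecidableEq V] in
private theorem ck_comm (S : Finset V) (G : SimpleGraph V) (x y : V) :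
    ck S G x y = ck S G y x := by
  ext z
  rw [mem_ck, mem_ck]
  tauto

section adj

variable {s t x y : V}

omit [Fintype V] [DecidableEq V] in
private theorem adj1 (hx : x ≠ s) (hy : y ≠ s) : (contract G s t).Adj x y ↔ G.Adj x y := by
  constructor
  · rintro ⟨_, h | h | h⟩
    · exact h
    · exact absurd h.1 hx
    · exact absurd h.1 hy
  · exact fun h => ⟨h.ne, Or.inl h⟩

omit [Fintype V] [DecidableEq V] in
private theorem adj2 (hy : y ≠ s) : (contract G s t).Adj s y ↔ G.Adj s y ∨ G.Adj t y := by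
  constructor
  · rintro ⟨_, h | h | h⟩
    · exact Or.inl h
    · exact Or.inr h.2
    · exact absurd h.1 hy
  · rintro (h | h)
    · exact ⟨hy.symm, Or.inl h⟩
    · exact ⟨hy.symm, Or.inr (Or.inl ⟨rfl, h⟩)⟩

omit [Fintype V] [DecidableEq V] in
private theorem adj3 (hy : y ≠ s) : (contract G s t).Adj y s ↔ G.Adj s y ∨ G.Adj t y := by
  rw [SimpleGraph.adj_comm]
  exact adj2 hy

omit [Fintype V] [DecidableEq V] in
/-- two adjacent vertices adjacent to the contracted vertex -/
private theorem pair (hq : NoSq S G s t) (hx : x ∈ S) (hy : y ∈ S) (hxs : x ≠ s) (hys : y ≠ s)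
    (hxt : x ≠ t) (hyt : y ≠ t) (hxy : G.Adj x y) (h1 : G.Adj s x ∨ G.Adj t x)
    (h2 : G.Adj s y ∨ G.Adj t y) : (G.Adj s x ∧ G.Adj s y) ∨ (G.Adj t x ∧ G.Adj t y) := by
  by_contra hn
  push Not at hn
  obtain ⟨n1, n2⟩ := hn
  rcases h1 with h1 | h1
  · have h3 := n1 h1
    have h4 : G.Adj t y := h2.resolve_left h3
    have h5 : ¬ G.Adj t x := fun h => n2 h h4
    exact hq x hx y hy h1 h4 h5 h3 hxt hys hxy
  · have h3 := n2 h1
    have h4 : G.Adj s y := h2.resolve_right h3
    have h5 : ¬ G.Adj s x := fun h => n1 h h4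
    exact hq y hy x hx h4 h1 h3 h5 hyt hxs hxy.symm

end adj

omit [Fintype V] in
private theorem noK4s (h : Tri S G) {s t : V} (hs : s ∈ S) (ht : t ∈ S) (hq : NoSq S G s t)
    {x y z : V} (hx : x ∈ S.erase t) (hy : y ∈ S.erase t) (hz : z ∈ S.erase t)
    (h1 : (contract G s t).Adj s x) (h2 : (contract G s t).Adj s y)
    (h3 : (contract G s t).Adj s z) (h4 : (contract G s t).Adj x y)
    (h5 : (contract G s t).Adj x z) : ¬ (contract G s t).Adj y z := by
  intro h6
  have hxs : x ≠ s := h1.ne'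
  have hys : y ≠ s := h2.ne'
  have hzs : z ≠ s := h3.ne'
  rw [mem_erase] at hx hy hz
  rw [adj2 hxs] at h1
  rw [adj2 hys] at h2
  rw [adj2 hzs] at h3
  rw [adj1 hxs hys] at h4
  rw [adj1 hxs hzs] at h5
  rw [adj1 hys hzs] at h6
  have p1 := pair hq hx.2 hy.2 hxs hys hx.1 hy.1 h4 h1 h2
  have p2 := pair hq hx.2 hz.2 hxs hzs hx.1 hz.1 h5 h1 h3
  have p3 := pair hq hy.2 hz.2 hys hzs hy.1 hz.1 h6 h2 h3
  have hall : (G.Adj s x ∧ G.Adj s y ∧ G.Adj s z) ∨ (G.Adj t x ∧ G.Adj t y ∧ G.Adj t z) := by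
    tauto
  rcases hall with ⟨a1, a2, a3⟩ | ⟨a1, a2, a3⟩
  · exact h.noK4 s hs x hx.2 y hy.2 z hz.2 a1 a2 a3 h4 h5 h6
  · exact h.noK4 t ht x hx.2 y hy.2 z hz.2 a1 a2 a3 h4 h5 h6

omit [Fintype V] in
private theorem two1 (h : Tri S G) {s t : V} (hs : s ∈ S) (ht : t ∈ S) (hst : G.Adj s t)
    (hq : NoSq S G s t) {x y : V} (hx : x ∈ S.erase t) (hy : y ∈ S.erase t) (hxs : x ≠ s)
    (hys : y ≠ s) (hxy : (contract G s t).Adj x y) :
    (ck (S.erase t) (contract G s t) x y).card = 2 := by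
  rw [mem_erase] at hx hy
  rw [adj1 hxs hys] at hxy
  have h2 := h.two x hx.2 y hy.2 hxy
  by_cases hc : G.Adj t x ∧ G.Adj t y
  · have hsn : s ∉ ck S G x y := by
      intro hsc
      rw [mem_ck] at hsc
      exact h.noK4 x hx.2 y hy.2 s hs t ht hxy hsc.2.1 hc.1.symm hsc.2.2 hc.2.symm hst
    have htc : t ∈ ck S G x y := mem_ck.2 ⟨ht, hc.1.symm, hc.2.symm⟩
    have e : ck (S.erase t) (contract G s t) x y = insert s ((ck S G x y).erase t) := by
      ext z
      rw [mem_ck, mem_insert, mem_erase, mem_erase, mem_ck]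
      by_cases hzs : z = s
      · subst hzs
        rw [adj3 hxs, adj3 hys]
        simp only [true_or, iff_true]
        exact ⟨⟨hst.ne, hs⟩, Or.inr hc.1, Or.inr hc.2⟩
      · rw [adj1 hxs hzs, adj1 hys hzs]
        tauto
    rw [e, card_insert_of_notMem (fun h3 => hsn (mem_of_mem_erase h3)), card_erase_of_mem htc, h2]
  · have e : ck (S.erase t) (contract G s t) x y = ck S G x y := by
      ext z
      rw [mem_ck, mem_ck, mem_erase]
      by_cases hzs : z = s
      · subst hzs
        rw [adj3 hxs, adj3 hys]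
        constructor
        · rintro ⟨_, h3, h4⟩
          rcases pair hq hx.2 hy.2 hxs hys hx.1 hy.1 hxy h3 h4 with h5 | h5
          · exact ⟨hs, h5.1.symm, h5.2.symm⟩
          · exact absurd h5 hc
        · rintro ⟨_, h3, h4⟩
          exact ⟨⟨hst.ne, hs⟩, Or.inl h3.symm, Or.inl h4.symm⟩
      · rw [adj1 hxs hzs, adj1 hys hzs]
        constructor
        · rintro ⟨⟨_, h3⟩, h4, h5⟩
          exact ⟨h3, h4, h5⟩
        · rintro ⟨h3, h4, h5⟩
          refine ⟨⟨?_, h3⟩, h4, h5⟩
          rintro rfl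
          exact hc ⟨h4.symm, h5.symm⟩
    rw [e, h2]

omit [Fintype V] in
private theorem two2 (h : Tri S G) {s t : V} (hs : s ∈ S) (ht : t ∈ S) (hst : G.Adj s t)
    (hq : NoSq S G s t) {y : V} (hy : y ∈ S.erase t) (hsy : (contract G s t).Adj s y) :
    (ck (S.erase t) (contract G s t) s y).card = 2 := by
  have hys : y ≠ s := hsy.ne'
  rw [mem_erase] at hy
  rw [adj2 hys] at hsy
  have mem : ∀ z, z ∈ ck (S.erase t) (contract G s t) s y ↔
      z ≠ s ∧ z ≠ t ∧ z ∈ S ∧ (G.Adj s z ∨ G.Adj t z) ∧ G.Adj y z := by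
    intro z
    rw [mem_ck, mem_erase]
    by_cases hzs : z = s
    · subst hzs
      have := (contract G z t).loopless.irrefl z
      tauto
    · rw [adj2 hzs, adj1 hys hzs]
      tauto
  by_cases h1 : G.Adj s y <;> by_cases h2 : G.Adj t y
  · have htc : t ∈ ck S G s y := mem_ck.2 ⟨ht, hst, h2.symm⟩
    have hsc : s ∈ ck S G t y := mem_ck.2 ⟨hs, hst.symm, h1.symm⟩
    have e : ck (S.erase t) (contract G s t) s y = (ck S G s y).erase t ∪ (ck S G t y).erase s := by
      ext z
      rw [mem, mem_union, mem_erase, mem_erase, mem_ck, mem_ck]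
      constructor
      · rintro ⟨a1, a2, a3, a4 | a4, a5⟩
        · exact Or.inl ⟨a2, a3, a4, a5⟩
        · exact Or.inr ⟨a1, a3, a4, a5⟩
      · rintro (⟨a1, a2, a3, a4⟩ | ⟨a1, a2, a3, a4⟩)
        · exact ⟨a3.ne', a1, a2, Or.inl a3, a4⟩
        · exact ⟨a1, a3.ne', a2, Or.inr a3, a4⟩
    have hdis : Disjoint ((ck S G s y).erase t) ((ck S G t y).erase s) := by
      rw [Finset.disjoint_left]
      intro z hz1 hz2
      rw [mem_erase, mem_ck] at hz1 hz2
      exact h.noK4 s hs t ht y hy.2 z hz1.2.1 hst h1 hz1.2.2.1 h2 hz2.2.2.1 hz1.2.2.2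
    rw [e, card_union_of_disjoint hdis, card_erase_of_mem htc, card_erase_of_mem hsc,
      h.two s hs y hy.2 h1, h.two t ht y hy.2 h2]
  · have e : ck (S.erase t) (contract G s t) s y = ck S G s y := by
      ext z
      rw [mem, mem_ck]
      constructor
      · rintro ⟨a1, a2, a3, a4, a5⟩
        refine ⟨a3, ?_, a5⟩
        by_contra hn
        exact hq y hy.2 z a3 h1 (a4.resolve_left hn) h2 hn hy.1 a1 a5
      · rintro ⟨a3, a4, a5⟩
        refine ⟨a4.ne', ?_, a3, Or.inl a4, a5⟩
        rintro rfl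
        exact h2 a5.symm
    rw [e, h.two s hs y hy.2 h1]
  · have e : ck (S.erase t) (contract G s t) s y = ck S G t y := by
      ext z
      rw [mem, mem_ck]
      constructor
      · rintro ⟨a1, a2, a3, a4, a5⟩
        refine ⟨a3, ?_, a5⟩
        by_contra hn
        exact hq z a3 y hy.2 (a4.resolve_right hn) h2 hn h1 a2 hys a5.symm
      · rintro ⟨a3, a4, a5⟩
        refine ⟨?_, a4.ne', a3, Or.inr a4, a5⟩
        rintro rfl
        exact h1 a5.symm
    rw [e, h.two t ht y hy.2 h2]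
  · exact absurd hsy (by tauto)

omit [Fintype V] in
private theorem conn1 (h : Tri S G) {s t : V} (hs : s ∈ S) (ht : t ∈ S) (hst : G.Adj s t)
    {v : V} (hv : v ∈ S.erase t) (hvs : v ≠ s) {Y : Finset V}
    (hY : Y ⊆ lk (S.erase t) (contract G s t) v) (hne : Y.Nonempty)
    (hcl : ∀ y ∈ Y, ∀ z ∈ lk (S.erase t) (contract G s t) v, (contract G s t).Adj y z → z ∈ Y) :
    Y = lk (S.erase t) (contract G s t) v := by
  classical
  rw [mem_erase] at hv
  -- the retraction
  have hr1 : ∀ z ∈ lk S G v, (if z = t then s else z) ∈ lk (S.erase t) (contract G s t) v := by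
    intro z hz
    rw [mem_lk] at hz
    rw [mem_lk]
    by_cases hzt : z = t
    · rw [if_pos hzt, mem_erase, adj3 hvs]
      subst hzt
      exact ⟨⟨hst.ne, hs⟩, Or.inr hz.2.symm⟩
    · rw [if_neg hzt, mem_erase]
      refine ⟨⟨hzt, hz.1⟩, ?_⟩
      by_cases hzs : z = s
      · subst hzs
        rw [adj3 hvs]
        exact Or.inl hz.2.symm
      · rw [adj1 hvs hzs]
        exact hz.2
  have hr2 : ∀ y z, G.Adj y z → (if y = t then s else y) = (if z = t then s else z) ∨
      (contract G s t).Adj (if y = t then s else y) (if z = t then s else z) := by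
    intro y z hyz
    by_cases hyt : y = t
    · subst hyt
      have hzt : z ≠ y := hyz.ne'
      rw [if_pos rfl, if_neg hzt]
      by_cases hzs : z = s
      · exact Or.inl hzs.symm
      · rw [adj2 hzs]
        exact Or.inr (Or.inr hyz)
    · rw [if_neg hyt]
      by_cases hzt : z = t
      · subst hzt
        rw [if_pos rfl]
        by_cases hys : y = s
        · exact Or.inl hys
        · rw [adj3 hys]
          exact Or.inr (Or.inr hyz.symm)
      · rw [if_neg hzt]
        exact Or.inr ⟨hyz.ne, Or.inl hyz⟩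
  have hr3 : ∀ z ∈ lk (S.erase t) (contract G s t) v, ∃ z0 ∈ lk S G v,
      (if z0 = t then s else z0) = z := by
    intro z hz
    rw [mem_lk, mem_erase] at hz
    obtain ⟨⟨hzt, hzS⟩, hvz⟩ := hz
    by_cases hzs : z = s
    · subst hzs
      rw [adj3 hvs] at hvz
      rcases hvz with h1 | h1
      · exact ⟨z, mem_lk.2 ⟨hs, h1.symm⟩, if_neg hzt⟩
      · exact ⟨t, mem_lk.2 ⟨ht, h1.symm⟩, if_pos rfl⟩
    · rw [adj1 hvs hzs] at hvz
      exact ⟨z, mem_lk.2 ⟨hzS, hvz⟩, if_neg hzt⟩
  have hY1 : (lk S G v).filter (fun z => (if z = t then s else z) ∈ Y) = lk S G v := by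
    refine h.conn v hv.2 _ (filter_subset _ _) ?_ ?_
    · obtain ⟨y, hy⟩ := hne
      obtain ⟨y0, hy0, e⟩ := hr3 y (hY hy)
      exact ⟨y0, mem_filter.2 ⟨hy0, by rw [e]; exact hy⟩⟩
    · intro y hy z hz hyz
      rw [mem_filter] at hy ⊢
      refine ⟨hz, ?_⟩
      rcases hr2 y z hyz with e | e
      · rw [← e]
        exact hy.2
      · exact hcl _ hy.2 _ (hr1 z hz) e
  refine Subset.antisymm hY fun z hz => ?_
  obtain ⟨z0, hz0, e⟩ := hr3 z hz
  rw [← hY1, mem_filter] at hz0
  rw [← e]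
  exact hz0.2

omit [Fintype V] in
private theorem conn2 (h : Tri S G) {s t : V} (hs : s ∈ S) (ht : t ∈ S) (hst : G.Adj s t)
    {Y : Finset V} (hY : Y ⊆ lk (S.erase t) (contract G s t) s) (hne : Y.Nonempty)
    (hcl : ∀ y ∈ Y, ∀ z ∈ lk (S.erase t) (contract G s t) s, (contract G s t).Adj y z → z ∈ Y) :
    Y = lk (S.erase t) (contract G s t) s := by
  classical
  have mem : ∀ z, z ∈ lk (S.erase t) (contract G s t) s ↔
      z ∈ (lk S G s).erase t ∨ z ∈ (lk S G t).erase s := by
    intro z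
    rw [mem_lk, mem_erase, mem_erase, mem_erase, mem_lk, mem_lk]
    by_cases hzs : z = s
    · subst hzs
      have h1 := (contract G z t).loopless.irrefl z
      have h2 := G.loopless.irrefl z
      tauto
    · rw [adj2 hzs]
      have h2 := G.loopless.irrefl t
      constructor
      · rintro ⟨⟨h3, h4⟩, h5 | h5⟩
        · exact Or.inl ⟨h3, h4, h5⟩
        · exact Or.inr ⟨hzs, h4, h5⟩
      · rintro (⟨h3, h4, h5⟩ | ⟨h3, h4, h5⟩)
        · exact ⟨⟨h3, h4⟩, Or.inl h5⟩
        · exact ⟨⟨h5.ne', h4⟩, Or.inr h5⟩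
  obtain ⟨c, hc⟩ : (ck S G s t).Nonempty := card_pos.1 (by rw [h.two s hs t ht hst]; norm_num)
  have hc' := mem_ck.1 hc
  have hcA : c ∈ (lk S G s).erase t := mem_erase.2 ⟨hc'.2.2.ne', mem_lk.2 ⟨hc'.1, hc'.2.1⟩⟩
  have hcB : c ∈ (lk S G t).erase s := mem_erase.2 ⟨hc'.2.1.ne', mem_lk.2 ⟨hc'.1, hc'.2.2⟩⟩
  have ne1 : ∀ z ∈ (lk S G s).erase t, z ≠ s := fun z hz =>
    (mem_lk.1 (mem_of_mem_erase hz)).2.ne'
  have ne2 : ∀ z ∈ (lk S G t).erase s, z ≠ s := fun z hz => ne_of_mem_erase hz
  -- the two parts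
  have hA : (Y.filter (fun z => z ∈ (lk S G s).erase t)).Nonempty →
      (lk S G s).erase t ⊆ Y := by
    intro hn
    have e := eraseConn h hs ht hst (Z := Y.filter (fun z => z ∈ (lk S G s).erase t))
      (fun z hz => (mem_filter.1 hz).2) hn (by
        intro y hy z hz hyz
        rw [mem_filter] at hy ⊢
        refine ⟨hcl y hy.1 z ((mem z).2 (Or.inl hz)) ?_, hz⟩
        rw [adj1 (ne1 y hy.2) (ne1 z hz)]
        exact hyz)
    rw [← e]
    exact filter_subset _ _
  have hB : (Y.filter (fun z => z ∈ (lk S G t).erase s)).Nonempty →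
      (lk S G t).erase s ⊆ Y := by
    intro hn
    have e := eraseConn h ht hs hst.symm (Z := Y.filter (fun z => z ∈ (lk S G t).erase s))
      (fun z hz => (mem_filter.1 hz).2) hn (by
        intro y hy z hz hyz
        rw [mem_filter] at hy ⊢
        refine ⟨hcl y hy.1 z ((mem z).2 (Or.inr hz)) ?_, hz⟩
        rw [adj1 (ne2 y hy.2) (ne2 z hz)]
        exact hyz)
    rw [← e]
    exact filter_subset _ _
  have hboth : (lk S G s).erase t ⊆ Y ∧ (lk S G t).erase s ⊆ Y := by
    obtain ⟨y, hy⟩ := hne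
    rcases (mem y).1 (hY hy) with h1 | h1
    · have h2 := hA ⟨y, mem_filter.2 ⟨hy, h1⟩⟩
      exact ⟨h2, hB ⟨c, mem_filter.2 ⟨h2 hcA, hcB⟩⟩⟩
    · have h2 := hB ⟨y, mem_filter.2 ⟨hy, h1⟩⟩
      exact ⟨hA ⟨c, mem_filter.2 ⟨h2 hcB, hcA⟩⟩, h2⟩
  refine Subset.antisymm hY fun z hz => ?_
  rcases (mem z).1 hz with h1 | h1
  · exact hboth.1 h1
  · exact hboth.2 h1

end Tc

theorem tri_cont (h : Tri S G) {s t : V} (hs : s ∈ S) (ht : t ∈ S) (hst : G.Adj s t)
    (hq : NoSq S G s t) : Tri (S.erase t) (contract G s t) := by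
  refine ⟨⟨s, mem_erase.2 ⟨hst.ne, hs⟩⟩, ?_, ?_, ?_, ?_⟩
  · intro x hx y hy hxy
    by_cases hxs : x = s
    · subst hxs
      exact Tc.two2 h hs ht hst hq hy hxy
    · by_cases hys : y = s
      · subst hys
        rw [Tc.ck_comm]
        exact Tc.two2 h hs ht hst hq hx hxy.symm
      · exact Tc.two1 h hs ht hst hq hx hy hxs hys hxy
  · intro x hx y hy z hz w hw h1 h2 h3 h4 h5 h6
    by_cases hxs : x = s
    · subst hxs
      exact Tc.noK4s h hs ht hq hy hz hw h1 h2 h3 h4 h5 h6
    · by_cases hys : y = s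
      · subst hys
        exact Tc.noK4s h hs ht hq hx hz hw h1.symm h4 h5 h2 h3 h6
      · by_cases hzs : z = s
        · subst hzs
          exact Tc.noK4s h hs ht hq hx hy hw h2.symm h4.symm h6 h1 h3 h5
        · by_cases hws : w = s
          · subst hws
            exact Tc.noK4s h hs ht hq hx hy hz h3.symm h5.symm h6.symm h1 h2 h4
          · rw [Tc.adj1 hxs hys] at h1
            rw [Tc.adj1 hxs hzs] at h2
            rw [Tc.adj1 hxs hws] at h3
            rw [Tc.adj1 hys hzs] at h4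
            rw [Tc.adj1 hys hws] at h5
            rw [Tc.adj1 hzs hws] at h6
            exact h.noK4 x (mem_of_mem_erase hx) y (mem_of_mem_erase hy) z (mem_of_mem_erase hz) w
              (mem_of_mem_erase hw) h1 h2 h3 h4 h5 h6
  · intro v hv
    by_cases hvs : v = s
    · subst hvs
      obtain ⟨c, hc⟩ : (ck S G v t).Nonempty :=
        card_pos.1 (by rw [h.two v hs t ht hst]; norm_num)
      have hc' := mem_ck.1 hc
      refine ⟨c, mem_lk.2 ⟨mem_erase.2 ⟨hc'.2.2.ne', hc'.1⟩, ?_⟩⟩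
      rw [Tc.adj2 hc'.2.1.ne']
      exact Or.inl hc'.2.1
    · obtain ⟨x, hx⟩ := h.lne v (mem_of_mem_erase hv)
      rw [mem_lk] at hx
      by_cases hxt : x = t
      · subst hxt
        refine ⟨s, mem_lk.2 ⟨mem_erase.2 ⟨hst.ne, hs⟩, ?_⟩⟩
        rw [Tc.adj3 hvs]
        exact Or.inr hx.2.symm
      · refine ⟨x, mem_lk.2 ⟨mem_erase.2 ⟨hxt, hx.1⟩, ?_⟩⟩
        exact ⟨hx.2.ne, Or.inl hx.2⟩
  · intro v hv Y hY hne hcl
    by_cases hvs : v = s
    · subst hvs
      exact Tc.conn2 h hs ht hst hY hne hcl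
    · exact Tc.conn1 h hs ht hst hv hvs hY hne hcl

end SNG
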