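import Pool.Agent.SNG.TSide

/-!
# Project SNG (architect helper40), module TEdge: flag 2-spheres have contractible edges

Let `Tri S G` and `Hom2 S G`.  Claim: `S` is a suspension or there is an edge `s t` with `NoSq S G s t`.

Module TSide contains the basic facts (`C4`, `Fl`, `co`, `ins`, `exists_fl`, `fl_co`, `fl_unique`, `even_at`,
`star_all`, `ins_or`, `ins_not`, `ins_adj`, `ins_ne`, `lk_ins`, `lk_eq`), which are repeated here.
An induced 4-cycle is `C = (x, y, z, w)`: `x ~ y ~ z ~ w ~ x`, `x ≁ z`, `y ≁ w`, `x ≠ z`,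
`y ≠ w`; `ω` is a filling of `C` if its boundary (edges `ab` with `Odd (nT ω a b)`; since every edge is
in exactly two triangles this means: exactly one of its two triangles is in `ω`) is `C`.  Fillings
exist (`fill`); if `ω` is one then so is the complement `ω^c` (in the set of all triangles), and there
are no others (`closed` applied to the symmetric difference).
`I(ω)` = vertices `v ∈ S \ C` with all triangles containing `v` in `ω`; `O(ω) = I(ω^c)`.
(B1) every `v ∈ S \ C` is in `I(ω)` or `O(ω)`, not both: the set of `x ∈ lk v` such that the two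
   triangles containing `v, x` are in `ω`: consecutive triangles around `v` share an edge `v x`, which
   is not in `C`, so both or none are in `ω`; `conn`.
(B2) there is no edge between `I(ω)` and `O(ω)` (it would be in a triangle).
(B3) `I(ω) ≠ ∅`: otherwise no triangle of `ω` has a vertex outside of `C` (such a vertex would be in
   `O(ω)`), but `C` contains no triangle (`x ≁ z`, `y ≁ w`), so `ω = ∅`, contradiction.
(B4) if `I(ω) = {v}` then `lk S G v = C`: all neighbours of `v` are in `C` by (B1), (B2); every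
   neighbour has exactly two neighbours in `lk v`, so, going around, all of `C` (`conn`, `two`).
(B5) let `C₁` be another 4-cycle (four different vertices, consecutive ones adjacent, not necessarily
   induced), with `∂ω₁ = C₁`.  For `δ = ω₁ ∩ ω^c` an edge can only be in `∂δ` if it is in `C ∪ C₁`.

Suppose no edge `s t` satisfies `NoSq`: every edge is in an induced 4-cycle.  [`¬ NoSq S G s t` gives
`x ~ s`, `y ~ t`, `x ~ y`, `x ≁ t`, `y ≁ s`, `x ≠ t`, `y ≠ s`: the induced 4-cycle `(s, x, y, t)`.]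
Since there are edges (`ne`, `lne`) there are pairs (`C`, `ω`).

Case 0: for all induced 4-cycles `C` and all fillings `|I(ω)| ≤ 1`.  Then for one of them
`I(ω) = {a}`, `O(ω) = {b}`, `S = {a, b} ∪ C`, and by (B4) `S` is the suspension of `C` with poles `a, b`
(`a ≁ b` by (B2)).
Otherwise choose (`C`, `ω`) with `|I(ω)| ≥ 2` minimal.

Case 1: there is `u ∈ I(ω)` and an edge `u v` and an induced 4-cycle `C'` through it which meets `O(ω)`.
`C'` has a vertex `u ∈ I(ω)` and a vertex `b ∈ O(ω)`, which are not adjacent, so they are opposite and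
the two others are in `C` and not adjacent: they are `x, z` or `y, w`; say `x, z` (rename).  So
`u ~ x, z`.
 1a: `u ~ y` and `u ~ w`.  Then `C ⊆ lk u` and `lk u = C` (as in (B4)), so with `σ` the four triangles at
   `u`, `∂σ = C`, `σ ⊆ ω` (`u ∈ I(ω)`), so `σ = ω` (the fillings of `C` are `ω`, `ω^c`, and `σ ⊆ ω` is
   not empty) and `I(ω) = {u}`: contradiction to `|I(ω)| ≥ 2`.
 1b: `u ≁ y` (the case `u ≁ w` is symmetric).  `C₁ = (u, x, y, z)` is an induced 4-cycle.  Choose its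
   filling `ω₁` with `w ∉ I(ω₁)` (`w ∉ C₁`, so `w ∈ O(ω₁)`).  Let `δ = ω₁ ∩ ω^c`.  `∂δ ⊆ {xy, yz}`: edges
   not in `C ∪ C₁`: no; `ux`, `uz`: their triangles contain `u ∈ I(ω)`, are in `ω`; `zw`, `wx`: their
   triangles contain `w ∈ O(ω₁)`, are not in `ω₁`.  `∂δ` is a cycle (every vertex is in an even number
   of edges of `∂δ`: the number of pairs (edge of `∂δ` at `x`, triangle of `δ` containing it) has the
   parity of twice the number of triangles of `δ` at `x`), and at `x` it can only contain `xy`, so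
   `∂δ = ∅`, and `δ = ∅` or everything (`closed`); `δ ⊆ ω^c` is not everything as `ω ≠ ∅`.  So
   `ω₁ ⊆ ω`, `I(ω₁) ⊆ I(ω) \ {u}` (for `v ∈ I(ω₁)`: `v ∉ C₁`, `v ≠ w`, all triangles at `v` are in `ω`,
   so `v ∉ O(ω)`).  By minimality and (B3) `I(ω₁) = {v₁}`, `lk v₁ = {u, x, y, z}` by (B4).
   Claim `NoSq S G u v₁`: let `x' ~ u`, `y' ~ v₁`, `x' ≁ v₁`, `y' ≁ u`, `x' ≠ v₁`, `y' ≠ u`, `x' ~ y'`.
   `y' ∈ {u, x, y, z}`, so `y' = y`.  `x' ~ u ∈ I(ω)`, so `x' ∈ I(ω) ∪ C`; `x' ∉ {x, z}` (they are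
   adjacent to `v₁`), `x' ≠ y` (`x' ~ y`), `x' ≠ w` (`y ≁ w`); so `x' ∈ I(ω)`, `x' ≠ u`, `x' ∉ C₁`.
   `x' ∉ I(ω₁) = {v₁}`, so `x' ∈ O(ω₁)`.  All triangles at `x'` are in `ω \ ω₁`.  The edge `x' y` is in
   a triangle `τ ∈ ω \ ω₁`.  Around `y`: the boundary of `ω \ ω₁` is `∂ω + ∂ω₁` = `{zw, wx, ux, uz}`,
   which contains no edge at `y`, so all triangles at `y` are in `ω \ ω₁` or none (`conn`, as in
   (B1)); but `y v₁` is in a triangle of `ω₁`.  Contradiction.
Case 2: every induced 4-cycle which meets `I(ω)` is contained in `I(ω) ∪ C`.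
   Let `C'` be an induced 4-cycle meeting `I(ω)`; fix `o ∈ O(ω)` (B3); `o ∉ C'`; let `ω'` be the filling
   of `C'` with `o ∉ I(ω')`.  `δ = ω' ∩ ω^c`: `∂δ ⊆ C`: an edge of `C'` not in `C` has an endpoint in
   `I(ω)` (the edges of `G` between vertices of `C` are the edges of `C`), so its triangles are in `ω`.
   A cycle contained in the 4-cycle `C` is `∅` or `C` (at each vertex both edges or none).  If
   `∂δ = C` then `δ` is `ω` or `ω^c`, so `δ = ω^c` (`δ ⊆ ω^c`), `ω^c ⊆ ω'`, `o ∈ I(ω')`: contradiction.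
   So `∂δ = ∅`, `δ = ∅` (not everything as `ω ≠ ∅`), `ω' ⊆ ω`, `I(ω') ⊆ I(ω)` (for `v ∈ I(ω')`: not in
   `O(ω)`; not in `C`, since at a vertex of `C` there is a triangle not in `ω`), and a vertex of
   `C' ∩ I(ω)` is not in `I(ω')`.  By minimality `I(ω') = {v'}`, `v' ∈ I(ω)`, `lk v' = C'` by (B4).
   So: (*) every induced 4-cycle meeting `I(ω)` is `lk v'` for some `v' ∈ I(ω)`.
   Take any edge at a vertex of `I(ω)`: we get `v' ∈ I(ω)` with `lk v' = (p, q, r, s)` an induced
   4-cycle.  The edge `v' p` is in an induced 4-cycle, which is `lk v''`, `v'' ∈ I(ω)`; `v''` is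
   adjacent to `v'` and `p`, so `v'' ∈ {q, s}`; say `v'' = q`.  `lk q` is an induced 4-cycle containing
   `v'`, and `p`, `r` (the neighbours of `v'` in it are the common neighbours of `q` and `v'`), so
   `lk q = (v', p, t, r)` with `t ≠ v'`, `t ~ p, r, q`, `t ≁ v'`; `t ≠ s` as `q ≁ s`.
   2a: `s ~ t`.  `lk p` contains the closed cycle `v', q, t, s`, so it is equal to it (`two`, `conn`),
     and `lk r` too; `lk s ⊇ (p, v', r, t)`, so equal, `lk t ⊇ (p, q, r, s)`, so equal.  The set of all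
     triangles with a vertex in `{p, q, r, s, t, v'}` is closed, so it is everything and
     `S = {p, q, r, s, t, v'}` (every vertex is in a triangle): `S` is a suspension with poles `p, r`.
   2b: `s ≁ t`: then `NoSq S G v' q`: `x' ~ v'`, `x' ≁ q`, `x' ≠ q` gives `x' = s`; `y' ~ q`, `y' ≁ v'`,
     `y' ≠ v'` gives `y' = t`; so `x' ≁ y'`.  Contradiction.
-/

set_option linter.unusedSectionVars false

namespace SNG

open Finset

variable {V : Type} [Fintype V] [DecidableEq V] {S : Finset V} {G : SimpleGraph V}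

private lemma pair99 {a b c d : V} :
    ({a, b} : Finset V) = {c, d} ↔ (a = c ∧ b = d) ∨ (a = d ∧ b = c) := by
  rw [← Finset.coe_inj]
  push_cast
  exact Set.pair_eq_pair_iff

private lemma nT_comm99 (ω : Finset (Finset V)) (a b : V) : nT ω a b = nT ω b a := by
  unfold nT
  congr 1
  ext T
  simp only [mem_filter, and_comm (a := a ∈ T)]

private lemma even_iff99 (h : Tri S G) {ω : Finset (Finset V)} (hω : ∀ T ∈ ω, IsTri S G T)
    {a b : V} (ha : a ∈ S) (hb : b ∈ S) (hab : G.Adj a b) :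
    Even (nT ω a b) ↔ (∀ T, IsTri S G T → a ∈ T → b ∈ T → T ∈ ω) ∨
      (∀ T, IsTri S G T → a ∈ T → b ∈ T → T ∉ ω) := by
  have h2 := nT_co h hω ha hb hab
  constructor
  · intro he
    have h02 : nT ω a b = 0 ∨ nT ω a b = 2 := by
      obtain ⟨k, hk⟩ := he
      omega
    rcases h02 with h0 | h0
    · right
      intro T hT haT hbT hTω
      have hm : T ∈ ω.filter fun T => a ∈ T ∧ b ∈ T := mem_filter.2 ⟨hTω, haT, hbT⟩
      have hp := Finset.card_pos.2 ⟨T, hm⟩
      unfold nT at h0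
      omega
    · left
      intro T hT haT hbT
      by_contra hn
      have h3 : nT (co S G ω) a b = 0 := by omega
      have hm : T ∈ (co S G ω).filter fun T => a ∈ T ∧ b ∈ T :=
        mem_filter.2 ⟨mem_co.2 ⟨hT, hn⟩, haT, hbT⟩
      have hp := Finset.card_pos.2 ⟨T, hm⟩
      unfold nT at h3
      omega
  · rintro (hall | hnone)
    · have h0 : nT (co S G ω) a b = 0 := by
        unfold nT
        rw [card_eq_zero, filter_eq_empty_iff]
        rintro T hT ⟨h1, h2⟩
        rw [mem_co] at hT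
        exact hT.2 (hall T hT.1 h1 h2)
      have h1 : nT ω a b = 2 := by omega
      rw [h1]
      exact ⟨1, rfl⟩
    · have h0 : nT ω a b = 0 := by
        unfold nT
        rw [card_eq_zero, filter_eq_empty_iff]
        rintro T hT ⟨h1, h2⟩
        exact hnone T (hω T hT) h1 h2 hT
      rw [h0]
      exact ⟨0, rfl⟩

private lemma sdiff_tri99 {ω ω₁ : Finset (Finset V)} (hω₁ : ∀ T ∈ ω₁, IsTri S G T) :
    ∀ T ∈ ω₁ \ ω, IsTri S G T := fun T hT => hω₁ T (mem_sdiff.1 hT).1

private lemma even_of_none99 (h : Tri S G) {δ : Finset (Finset V)} (hδ : ∀ T ∈ δ, IsTri S G T)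
    {a b : V} (ha : a ∈ S) (hb : b ∈ S) (hab : G.Adj a b)
    (hn : ∀ T, IsTri S G T → a ∈ T → b ∈ T → T ∉ δ) : Even (nT δ a b) :=
  (even_iff99 h hδ ha hb hab).2 (Or.inr hn)

private lemma even_sdiff99 (h : Tri S G) {ω ω₁ : Finset (Finset V)} (hω : ∀ T ∈ ω, IsTri S G T)
    (hω₁ : ∀ T ∈ ω₁, IsTri S G T) {a b : V} (ha : a ∈ S) (hb : b ∈ S) (hab : G.Adj a b)
    (h1 : Even (nT ω a b)) (h2 : Even (nT ω₁ a b)) : Even (nT (ω₁ \ ω) a b) := by
  rw [even_iff99 h hω ha hb hab] at h1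
  rw [even_iff99 h hω₁ ha hb hab] at h2
  rw [even_iff99 h (sdiff_tri99 hω₁) ha hb hab]
  rcases h1 with h1 | h1
  · right
    intro T hT haT hbT hm
    exact (mem_sdiff.1 hm).2 (h1 T hT haT hbT)
  · rcases h2 with h2 | h2
    · left
      intro T hT haT hbT
      exact mem_sdiff.2 ⟨h2 T hT haT hbT, h1 T hT haT hbT⟩
    · right
      intro T hT haT hbT hm
      exact h2 T hT haT hbT (mem_sdiff.1 hm).1

private lemma nT_sdiff99 {ω ω₁ : Finset (Finset V)} (hs : ω₁ ⊆ ω) (a b : V) :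
    nT (ω \ ω₁) a b + nT ω₁ a b = nT ω a b := by
  unfold nT
  rw [← card_union_of_disjoint (disjoint_filter_filter sdiff_disjoint), ← filter_union,
    sdiff_union_of_subset hs]

private lemma sub99 (hh : Hom2 S G) {ω ω₁ : Finset (Finset V)} (hω₁ : ∀ T ∈ ω₁, IsTri S G T)
    (hne : ∃ T ∈ ω, IsTri S G T)
    (he : ∀ a ∈ S, ∀ b ∈ S, G.Adj a b → Even (nT (ω₁ \ ω) a b)) : ω₁ ⊆ ω := by
  rcases hh.closed (ω₁ \ ω) (sdiff_tri99 hω₁) he with h0 | h0
  · exact sdiff_eq_empty_iff_subset.1 h0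
  · obtain ⟨T, hT, hT'⟩ := hne
    exact absurd hT (mem_sdiff.1 (h0 T hT')).2

private lemma parity99 (h : Tri S G) {δ : Finset (Finset V)} (hδ : ∀ T ∈ δ, IsTri S G T)
    {x y : V} (hx : x ∈ S) (hy : y ∈ S) (hxy : G.Adj x y)
    (he : ∀ a ∈ S, G.Adj x a → a ≠ y → Even (nT δ x a)) : Even (nT δ x y) := by
  by_contra ho
  rw [Nat.not_even_iff_odd] at ho
  have hev := even_at h hδ hx
  have e : (lk S G x).filter (fun a => Odd (nT δ x a)) = {y} := by
    ext a
    rw [mem_filter, mem_lk, mem_singleton]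
    constructor
    · rintro ⟨⟨haS, hxa⟩, hodd⟩
      by_contra hn
      exact (Nat.not_odd_iff_even.2 (he a haS hxa hn)) hodd
    · rintro rfl
      exact ⟨⟨hy, hxy⟩, ho⟩
  rw [e] at hev
  simp at hev

private lemma parity2_99 (h : Tri S G) {δ : Finset (Finset V)} (hδ : ∀ T ∈ δ, IsTri S G T)
    {x y w : V} (hx : x ∈ S) (hy : y ∈ S) (hxy : G.Adj x y)
    (he : ∀ a ∈ S, G.Adj x a → a ≠ y → a ≠ w → Even (nT δ x a)) (ho : Odd (nT δ x y)) :
    Odd (nT δ x w) := by
  by_contra hn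
  rw [Nat.not_odd_iff_even] at hn
  refine Nat.not_even_iff_odd.2 ho (parity99 h hδ hx hy hxy fun a ha hxa hay => ?_)
  by_cases haw : a = w
  · rw [haw]
    exact hn
  · exact he a ha hxa hay haw

private structure Cfg99 (S : Finset V) (G : SimpleGraph V) (x y z w : V)
    (ω : Finset (Finset V)) : Prop where
  c : C4 S G x y z w
  xz : ¬ G.Adj x z
  yw : ¬ G.Adj y w
  fl : Fl S G x y z w ω

private lemma rotC99 {x y z w : V} (h : C4 S G x y z w) : C4 S G y z w x :=
  ⟨h.hy, h.hz, h.hw, h.hx, h.yz, h.zw, h.wx, h.xy, h.yw, h.xz.symm⟩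

private lemma refC99 {x y z w : V} (h : C4 S G x y z w) : C4 S G x w z y :=
  ⟨h.hx, h.hw, h.hz, h.hy, h.wx.symm, h.zw.symm, h.yz.symm, h.xy.symm, h.xz, h.yw.symm⟩

private lemma Cfg99.rot {x y z w : V} {ω : Finset (Finset V)} (h : Cfg99 S G x y z w ω) :
    Cfg99 S G y z w x ω := by
  refine ⟨rotC99 h.c, h.yw, fun hn => h.xz hn.symm, h.fl.1, fun a ha b hb hab => ?_⟩
  rw [h.fl.2 a ha b hb hab]
  tauto

private lemma Cfg99.ref {x y z w : V} {ω : Finset (Finset V)} (h : Cfg99 S G x y z w ω) :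
    Cfg99 S G x w z y ω := by
  refine ⟨refC99 h.c, h.xz, fun hn => h.yw hn.symm, h.fl.1, fun a ha b hb hab => ?_⟩
  rw [h.fl.2 a ha b hb hab, Finset.pair_comm x w, Finset.pair_comm w z, Finset.pair_comm z y,
    Finset.pair_comm y x]
  tauto

private lemma Cfg99.co {x y z w : V} {ω : Finset (Finset V)} (h : Cfg99 S G x y z w ω)
    (hT : Tri S G) : Cfg99 S G x y z w (co S G ω) :=
  ⟨h.c, h.xz, h.yw, fl_co hT h.fl⟩

private lemma rotS99 (x y z w : V) : ({y, z, w, x} : Finset V) = {x, y, z, w} := by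
  ext a
  simp only [mem_insert, mem_singleton]
  tauto

private lemma refS99 (x y z w : V) : ({x, w, z, y} : Finset V) = {x, y, z, w} := by
  ext a
  simp only [mem_insert, mem_singleton]
  tauto

private lemma ins_rot99 (x y z w : V) (ω : Finset (Finset V)) :
    ins S G y z w x ω = ins S G x y z w ω := by
  ext v
  rw [mem_ins, mem_ins, rotS99]

private lemma ins_ref99 (x y z w : V) (ω : Finset (Finset V)) :
    ins S G x w z y ω = ins S G x y z w ω := by
  ext v
  rw [mem_ins, mem_ins, refS99]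

/-- an edge between vertices of an induced 4-cycle -/
private lemma edge_of_mem99 {x y z w : V} (hc : C4 S G x y z w) (hxz : ¬ G.Adj x z)
    (hyw : ¬ G.Adj y w) {a b : V} (ha : a ∈ ({x, y, z, w} : Finset V))
    (hb : b ∈ ({x, y, z, w} : Finset V)) (hab : G.Adj a b) :
    ({a, b} : Finset V) = {x, y} ∨ ({a, b} : Finset V) = {y, z} ∨ ({a, b} : Finset V) = {z, w} ∨
      ({a, b} : Finset V) = {w, x} := by
  simp only [mem_insert, mem_singleton] at ha hb
  simp only [pair99]
  rcases ha with rfl | rfl | rfl | rfl <;> rcases hb with rfl | rfl | rfl | rfl <;>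
    first
      | exact absurd hab (G.loopless.irrefl _)
      | exact absurd hab hxz
      | exact absurd hab.symm hxz
      | exact absurd hab hyw
      | exact absurd hab.symm hyw
      | tauto

/-- there is a filling avoiding the triangles at a given vertex outside of the 4-cycle -/
private lemma fill_out99 (h : Tri S G) (hh : Hom2 S G) {x y z w o : V} (hc : C4 S G x y z w)
    (ho : o ∈ S) (hn : o ∉ ({x, y, z, w} : Finset V)) :
    ∃ ω, Fl S G x y z w ω ∧ ∀ T, IsTri S G T → o ∈ T → T ∉ ω := by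
  obtain ⟨ω, hf⟩ := exists_fl hh hc
  rcases ins_or h hf ho hn with h1 | h1
  · refine ⟨co S G ω, fl_co h hf, fun T hT hoT hm => ?_⟩
    exact (mem_co.1 hm).2 ((mem_ins.1 h1).2.2 T hT hoT)
  · refine ⟨ω, hf, fun T hT hoT hm => ?_⟩
    exact (mem_co.1 ((mem_ins.1 h1).2.2 T hT hoT)).2 hm

private lemma adj_of_tri99 {T : Finset V} (hT : IsTri S G T) {a b : V} (ha : a ∈ T) (hb : b ∈ T)
    (hab : a ≠ b) : G.Adj a b :=
  hT.2.1 (Finset.mem_coe.2 ha) (Finset.mem_coe.2 hb) hab

private lemma case1a99 (h : Tri S G) (hh : Hom2 S G) {x y z w : V} {ω : Finset (Finset V)}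
    (hC : Cfg99 S G x y z w ω) {u : V} (hu : u ∈ ins S G x y z w ω) (hux : G.Adj u x)
    (huy : G.Adj u y) (huz : G.Adj u z) (huw : G.Adj u w) : ins S G x y z w ω = {u} := by
  obtain ⟨huS, huC, huT⟩ := mem_ins.1 hu
  have hlk : lk S G u = {x, y, z, w} := lk_eq h hC.c huS hux huy huz huw
  have hδ : ∀ T ∈ ω.filter (fun T => u ∉ T), IsTri S G T := fun T hT => hC.fl.1 T (mem_filter.1 hT).1
  have hev : ∀ a ∈ S, ∀ b ∈ S, G.Adj a b → Even (nT (ω.filter (fun T => u ∉ T)) a b) := by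
    intro a ha b hb hab
    by_cases hau : a = u
    · subst hau
      refine even_of_none99 h hδ ha hb hab fun T hT haT hbT hm => ?_
      exact (mem_filter.1 hm).2 haT
    by_cases hbu : b = u
    · subst hbu
      refine even_of_none99 h hδ ha hb hab fun T hT haT hbT hm => ?_
      exact (mem_filter.1 hm).2 hbT
    by_cases hodd : Odd (nT ω a b)
    · -- an edge of the 4-cycle
      have hE := (hC.fl.2 a ha b hb hab).1 hodd
      simp only [pair99] at hE
      have hua : G.Adj u a := by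
        rcases hE with (⟨rfl, rfl⟩ | ⟨rfl, rfl⟩) | (⟨rfl, rfl⟩ | ⟨rfl, rfl⟩) |
          (⟨rfl, rfl⟩ | ⟨rfl, rfl⟩) | (⟨rfl, rfl⟩ | ⟨rfl, rfl⟩) <;> assumption
      have hub : G.Adj u b := by
        rcases hE with (⟨rfl, rfl⟩ | ⟨rfl, rfl⟩) | (⟨rfl, rfl⟩ | ⟨rfl, rfl⟩) |
          (⟨rfl, rfl⟩ | ⟨rfl, rfl⟩) | (⟨rfl, rfl⟩ | ⟨rfl, rfl⟩) <;> assumption
      have hT0 : IsTri S G {u, a, b} := by
        refine ⟨?_, ?_, ?_⟩
        · intro v hv
          simp only [mem_insert, mem_singleton] at hv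
          rcases hv with rfl | rfl | rfl <;> assumption
        · intro v hv v' hv' hvv'
          simp only [coe_insert, coe_singleton, Set.mem_insert_iff, Set.mem_singleton_iff] at hv hv'
          rcases hv with rfl | rfl | rfl <;> rcases hv' with rfl | rfl | rfl <;>
            first
              | exact absurd rfl hvv'
              | assumption
              | exact hua.symm
              | exact hub.symm
              | exact hab.symm
        · rw [card_eq_three]
          exact ⟨u, a, b, hua.ne, hub.ne, hab.ne, rfl⟩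
      have h1 := nT_co h hC.fl.1 ha hb hab
      have hle : nT (ω.filter (fun T => u ∉ T)) a b < nT ω a b := by
        unfold nT
        apply card_lt_card
        rw [ssubset_iff_of_subset (filter_subset_filter _ (filter_subset _ _))]
        refine ⟨{u, a, b}, ?_, ?_⟩
        · rw [mem_filter]
          exact ⟨huT _ hT0 (by simp), by simp, by simp⟩
        · intro hm
          exact (mem_filter.1 (mem_filter.1 hm).1).2 (by simp)
      have h3 : nT (ω.filter (fun T => u ∉ T)) a b = 0 := by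
        obtain ⟨k, hk⟩ := hodd
        omega
      rw [h3]
      exact ⟨0, rfl⟩
    · rw [Nat.not_odd_iff_even] at hodd
      rw [even_iff99 h hC.fl.1 ha hb hab] at hodd
      rw [even_iff99 h hδ ha hb hab]
      rcases hodd with h1 | h1
      · left
        intro T hT haT hbT
        refine mem_filter.2 ⟨h1 T hT haT hbT, fun huT' => ?_⟩
        have hua : a ∈ ({x, y, z, w} : Finset V) := by
          rw [← hlk, mem_lk]
          exact ⟨ha, adj_of_tri99 hT huT' haT (Ne.symm hau)⟩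
        have hub : b ∈ ({x, y, z, w} : Finset V) := by
          rw [← hlk, mem_lk]
          exact ⟨hb, adj_of_tri99 hT huT' hbT (Ne.symm hbu)⟩
        have hE := (hC.fl.2 a ha b hb hab).2 (edge_of_mem99 hC.c hC.xz hC.yw hua hub hab)
        exact Nat.not_even_iff_odd.2 hE ((even_iff99 h hC.fl.1 ha hb hab).2 (Or.inl h1))
      · right
        intro T hT haT hbT hm
        exact h1 T hT haT hbT (mem_filter.1 hm).1
  have hempty : ω.filter (fun T => u ∉ T) = ∅ := by
    rcases hh.closed _ hδ hev with h0 | h0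
    · exact h0
    · obtain ⟨T, hT, huT'⟩ := exists_tri_vertex h huS
      exact absurd huT' (mem_filter.1 (h0 T hT)).2
  rw [filter_eq_empty_iff] at hempty
  ext v
  rw [mem_singleton]
  constructor
  · intro hv
    obtain ⟨hvS, hvC, hvT⟩ := mem_ins.1 hv
    by_contra hne
    obtain ⟨T, hT, hvT'⟩ := exists_tri_vertex h hvS
    have huT' : u ∈ T := by
      have := hempty (hvT T hT hvT')
      simpa using this
    apply hvC
    rw [← hlk, mem_lk]
    exact ⟨hvS, adj_of_tri99 hT huT' hvT' (Ne.symm hne)⟩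
  · rintro rfl
    exact hu

private lemma even_out99 (h : Tri S G) {x y z w x' y' z' w' : V} {ω ω₁ : Finset (Finset V)}
    (hf : Fl S G x y z w ω) (hf₁ : Fl S G x' y' z' w' ω₁) {a b : V} (ha : a ∈ S) (hb : b ∈ S)
    (hab : G.Adj a b)
    (h1 : ¬ (({a, b} : Finset V) = {x, y} ∨ ({a, b} : Finset V) = {y, z} ∨
      ({a, b} : Finset V) = {z, w} ∨ ({a, b} : Finset V) = {w, x}))
    (h2 : ¬ (({a, b} : Finset V) = {x', y'} ∨ ({a, b} : Finset V) = {y', z'} ∨
      ({a, b} : Finset V) = {z', w'} ∨ ({a, b} : Finset V) = {w', x'})) :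
    Even (nT (ω₁ \ ω) a b) := by
  refine even_sdiff99 h hf.1 hf₁.1 ha hb hab ?_ ?_
  · rw [← Nat.not_odd_iff_even, hf.2 a ha b hb hab]
    exact h1
  · rw [← Nat.not_odd_iff_even, hf₁.2 a ha b hb hab]
    exact h2

private lemma case1b99 (h : Tri S G) (hh : Hom2 S G)
    (hN : ∀ s ∈ S, ∀ t ∈ S, G.Adj s t → ¬ NoSq S G s t)
    {x y z w : V} {ω : Finset (Finset V)} (hC : Cfg99 S G x y z w ω)
    (hmin : ∀ x' y' z' w' : V, ∀ ω' : Finset (Finset V), Cfg99 S G x' y' z' w' ω' →
      ins S G x' y' z' w' ω' ⊂ ins S G x y z w ω → ∃ v, ins S G x' y' z' w' ω' = {v})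
    {u : V} (hu : u ∈ ins S G x y z w ω) (hux : G.Adj u x) (huz : G.Adj u z)
    (huy : ¬ G.Adj u y) : False := by
  obtain ⟨huS, huC, huT⟩ := mem_ins.1 hu
  have huC' := huC
  simp only [mem_insert, mem_singleton, not_or] at huC'
  obtain ⟨nux, nuy, nuz, nuw⟩ := huC'
  have hc := hC.c
  have hc1 : C4 S G u x y z := ⟨huS, hc.hx, hc.hy, hc.hz, hux, hc.xy, hc.yz, huz.symm, nuy, hc.xz⟩
  have hwn : w ∉ ({u, x, y, z} : Finset V) := by
    simp only [mem_insert, mem_singleton, not_or]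
    exact ⟨Ne.symm nuw, hc.wx.ne, hc.yw.symm, hc.zw.symm.ne⟩
  obtain ⟨ω₁, hf₁, hw₁⟩ := fill_out99 h hh hc1 hc.hw hwn
  have hC1 : Cfg99 S G u x y z ω₁ := ⟨hc1, huy, hC.xz, hf₁⟩
  have hδ : ∀ T ∈ ω₁ \ ω, IsTri S G T := sdiff_tri99 hf₁.1
  -- evenness away from `xy` and `yz`
  have hev1 : ∀ a ∈ S, ∀ b ∈ S, G.Adj a b → ({a, b} : Finset V) ≠ {x, y} →
      ({a, b} : Finset V) ≠ {y, z} → Even (nT (ω₁ \ ω) a b) := by
    intro a ha b hb hab n1 n2
    by_cases hau : a = u
    · refine even_of_none99 h hδ ha hb hab fun T hT haT hbT hm => ?_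
      exact (mem_sdiff.1 hm).2 (huT T hT (hau ▸ haT))
    by_cases hbu : b = u
    · refine even_of_none99 h hδ ha hb hab fun T hT haT hbT hm => ?_
      exact (mem_sdiff.1 hm).2 (huT T hT (hbu ▸ hbT))
    by_cases haw : a = w
    · refine even_of_none99 h hδ ha hb hab fun T hT haT hbT hm => ?_
      exact hw₁ T hT (haw ▸ haT) (mem_sdiff.1 hm).1
    by_cases hbw : b = w
    · refine even_of_none99 h hδ ha hb hab fun T hT haT hbT hm => ?_
      exact hw₁ T hT (hbw ▸ hbT) (mem_sdiff.1 hm).1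
    refine even_out99 h hC.fl hf₁ ha hb hab ?_ ?_
    · rintro (h1 | h1 | h1 | h1)
      · exact n1 h1
      · exact n2 h1
      · rw [pair99] at h1
        tauto
      · rw [pair99] at h1
        tauto
    · rintro (h1 | h1 | h1 | h1)
      · rw [pair99] at h1
        tauto
      · exact n1 h1
      · exact n2 h1
      · rw [pair99] at h1
        tauto
  have hxy : Even (nT (ω₁ \ ω) x y) := by
    refine parity99 h hδ hc.hx hc.hy hc.xy fun a ha hxa hay => hev1 x hc.hx a ha hxa ?_ ?_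
    · intro h1
      rw [pair99] at h1
      rcases h1 with ⟨-, h2⟩ | ⟨h2, -⟩
      · exact hay h2
      · exact hc.xy.ne h2
    · intro h1
      rw [pair99] at h1
      rcases h1 with ⟨h2, -⟩ | ⟨h2, -⟩
      · exact hc.xy.ne h2
      · exact hc.xz h2
  have hzy : Even (nT (ω₁ \ ω) z y) := by
    refine parity99 h hδ hc.hz hc.hy hc.yz.symm fun a ha hza hay => hev1 z hc.hz a ha hza ?_ ?_
    · intro h1
      rw [pair99] at h1
      rcases h1 with ⟨h2, -⟩ | ⟨h2, -⟩
      · exact hc.xz h2.symm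
      · exact hc.yz.ne h2.symm
    · intro h1
      rw [pair99] at h1
      rcases h1 with ⟨h2, -⟩ | ⟨-, h2⟩
      · exact hc.yz.ne h2.symm
      · exact hay h2
  have hev : ∀ a ∈ S, ∀ b ∈ S, G.Adj a b → Even (nT (ω₁ \ ω) a b) := by
    intro a ha b hb hab
    by_cases h1 : ({a, b} : Finset V) = {x, y}
    · rw [pair99] at h1
      rcases h1 with ⟨rfl, rfl⟩ | ⟨rfl, rfl⟩
      · exact hxy
      · rw [nT_comm99]
        exact hxy
    by_cases h2 : ({a, b} : Finset V) = {y, z}
    · rw [pair99] at h2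
      rcases h2 with ⟨rfl, rfl⟩ | ⟨rfl, rfl⟩
      · rw [nT_comm99]
        exact hzy
      · exact hzy
    exact hev1 a ha b hb hab h1 h2
  obtain ⟨T0, hT0, huT0⟩ := exists_tri_vertex h huS
  have hsub : ω₁ ⊆ ω := sub99 hh hf₁.1 ⟨T0, huT T0 hT0 huT0, hT0⟩ hev
  have hss : ins S G u x y z ω₁ ⊂ ins S G x y z w ω := by
    rw [ssubset_iff_of_subset]
    · refine ⟨u, hu, fun hm => ?_⟩
      exact (mem_ins.1 hm).2.1 (by simp)
    · intro v hv
      obtain ⟨hvS, hvC, hvT⟩ := mem_ins.1 hv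
      refine mem_ins.2 ⟨hvS, ?_, fun T hT hvT' => hsub (hvT T hT hvT')⟩
      simp only [mem_insert, mem_singleton, not_or] at hvC ⊢
      refine ⟨hvC.2.1, hvC.2.2.1, hvC.2.2.2, ?_⟩
      rintro rfl
      obtain ⟨T1, hT1, hvT1⟩ := exists_tri_vertex h hvS
      exact hw₁ T1 hT1 hvT1 (hvT T1 hT1 hvT1)
  obtain ⟨v₁, hv₁⟩ := hmin u x y z ω₁ hC1 hss
  have hlk := lk_ins h hc1 huy hC.xz hf₁ hv₁
  have hv₁m : v₁ ∈ ins S G u x y z ω₁ := by
    rw [hv₁]
    exact mem_singleton_self _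
  obtain ⟨hv₁S, hv₁C, hv₁T⟩ := mem_ins.1 hv₁m
  have hadj : ∀ a, a ∈ ({u, x, y, z} : Finset V) → G.Adj v₁ a := by
    intro a ha
    rw [← hlk, mem_lk] at ha
    exact ha.2
  have hv₁u : G.Adj v₁ u := hadj u (by simp)
  have hv₁x : G.Adj v₁ x := hadj x (by simp)
  have hv₁y : G.Adj v₁ y := hadj y (by simp)
  have hv₁z : G.Adj v₁ z := hadj z (by simp)
  refine hN u huS v₁ hv₁S hv₁u.symm ?_
  intro x' hx'S y' hy'S hux' hv₁y' hv₁x' huy' hne1 hne2 hx'y'
  have hy'm : y' ∈ ({u, x, y, z} : Finset V) := by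
    rw [← hlk, mem_lk]
    exact ⟨hy'S, hv₁y'⟩
  simp only [mem_insert, mem_singleton] at hy'm
  have hy'y : y' = y := by
    rcases hy'm with rfl | rfl | h1 | rfl
    · exact absurd rfl hne2
    · exact absurd hux huy'
    · exact h1
    · exact absurd huz huy'
  subst hy'y
  have hx'C : x' ∉ ({x, y', z, w} : Finset V) := by
    simp only [mem_insert, mem_singleton, not_or]
    refine ⟨?_, hx'y'.ne, ?_, ?_⟩
    · rintro rfl
      exact hv₁x' hv₁x
    · rintro rfl
      exact hv₁x' hv₁z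
    · rintro rfl
      exact hC.yw hx'y'.symm
  have hx'I : x' ∈ ins S G x y' z w ω := by
    rcases ins_or h hC.fl hx'S hx'C with h1 | h1
    · exact h1
    · exact absurd hux' (ins_adj h hu h1)
  have hx'C1 : x' ∉ ({u, x, y', z} : Finset V) := by
    simp only [mem_insert, mem_singleton, not_or] at hx'C ⊢
    exact ⟨hux'.symm.ne, hx'C.1, hx'C.2.1, hx'C.2.2.1⟩
  have hx'O : x' ∈ ins S G u x y' z (co S G ω₁) := by
    rcases ins_or h hf₁ hx'S hx'C1 with h1 | h1
    · rw [hv₁, mem_singleton] at h1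
      exact absurd h1 hne1
    · exact h1
  -- all triangles at `y'` are in `ω \ ω₁` or none
  have hε : ∀ T ∈ ω \ ω₁, IsTri S G T := sdiff_tri99 hC.fl.1
  have hyev : ∀ a ∈ lk S G y', Even (nT (ω \ ω₁) y' a) := by
    intro a ha
    obtain ⟨haS, hya⟩ := mem_lk.1 ha
    have hcnt := nT_sdiff99 hsub y' a
    have h1 := hC.fl.2 y' hc.hy a haS hya
    have h2 := hf₁.2 y' hc.hy a haS hya
    have hiff : Odd (nT ω y' a) ↔ Odd (nT ω₁ y' a) := by
      rw [h1, h2]
      simp only [pair99]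
      have n1 := hc.xy.ne
      have n2 := hc.yz.ne
      have n3 := hc.yw
      have n4 := hc.xz
      constructor
      · rintro ((⟨e1, e2⟩ | ⟨e1, e2⟩) | (⟨e1, e2⟩ | ⟨e1, e2⟩) | (⟨e1, e2⟩ | ⟨e1, e2⟩) |
          (⟨e1, e2⟩ | ⟨e1, e2⟩))
        · exact absurd e1.symm n1
        · exact Or.inr (Or.inl (Or.inr ⟨e1, e2⟩))
        · exact Or.inr (Or.inr (Or.inl (Or.inl ⟨e1, e2⟩)))
        · exact absurd e1 n2
        · exact absurd e1 n2
        · exact absurd e1 n3
        · exact absurd e1 n3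
        · exact absurd e1.symm n1
      · rintro ((⟨e1, e2⟩ | ⟨e1, e2⟩) | (⟨e1, e2⟩ | ⟨e1, e2⟩) | (⟨e1, e2⟩ | ⟨e1, e2⟩) |
          (⟨e1, e2⟩ | ⟨e1, e2⟩))
        · exact absurd e1.symm nuy
        · exact absurd e1.symm n1
        · exact absurd e1.symm n1
        · exact Or.inl (Or.inr ⟨e1, e2⟩)
        · exact Or.inr (Or.inl (Or.inl ⟨e1, e2⟩))
        · exact absurd e1 n2
        · exact absurd e1 n2
        · exact absurd e1.symm nuy
    rcases Nat.even_or_odd (nT (ω \ ω₁) y' a) with h3 | h3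
    · exact h3
    · exfalso
      rcases Nat.even_or_odd (nT ω₁ y' a) with h4 | h4
      · have h5 : Odd (nT ω y' a) := by
          rw [← hcnt]
          exact h3.add_even h4
        exact Nat.not_even_iff_odd.2 (hiff.1 h5) h4
      · have h5 : Even (nT ω y' a) := by
          rw [← hcnt]
          exact h3.add_odd h4
        exact Nat.not_even_iff_odd.2 (hiff.2 h4) h5
  obtain ⟨τ, hτ, hx'τ, hyτ⟩ := exists_tri_edge h hx'S hc.hy hx'y'
  have hτm : τ ∈ ω \ ω₁ := by
    refine mem_sdiff.2 ⟨(mem_ins.1 hx'I).2.2 τ hτ hx'τ, fun hm => ?_⟩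
    exact (mem_co.1 ((mem_ins.1 hx'O).2.2 τ hτ hx'τ)).2 hm
  rcases star_all h hε hc.hy hyev with h1 | h1
  · obtain ⟨T, hT, hyT, hvT⟩ := exists_tri_edge h hc.hy hv₁S hv₁y.symm
    exact (mem_sdiff.1 (h1 T hT hyT)).2 (hv₁T T hT hvT)
  · exact h1 τ hτm hyτ

private lemma case1_99 (h : Tri S G) (hh : Hom2 S G)
    (hN : ∀ s ∈ S, ∀ t ∈ S, G.Adj s t → ¬ NoSq S G s t)
    {x y z w : V} {ω : Finset (Finset V)} (hC : Cfg99 S G x y z w ω)
    (hmin : ∀ x' y' z' w' : V, ∀ ω' : Finset (Finset V), Cfg99 S G x' y' z' w' ω' →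
      ins S G x' y' z' w' ω' ⊂ ins S G x y z w ω → ∃ v, ins S G x' y' z' w' ω' = {v})
    (h2 : 2 ≤ (ins S G x y z w ω).card)
    {u : V} (hu : u ∈ ins S G x y z w ω) (hux : G.Adj u x) (huz : G.Adj u z) : False := by
  by_cases huy : G.Adj u y
  · by_cases huw : G.Adj u w
    · rw [case1a99 h hh hC hu hux huy huz huw, card_singleton] at h2
      omega
    · refine case1b99 h hh hN hC.ref ?_ (u := u) ?_ hux huz huw
      · intro x' y' z' w' ω' hC' hss
        rw [ins_ref99 x y z w ω] at hss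
        exact hmin x' y' z' w' ω' hC' hss
      · rw [ins_ref99]
        exact hu
  · exact case1b99 h hh hN hC hmin hu hux huz huy

/-- Case 1: an induced 4-cycle does not meet both sides. -/
private lemma case1c99 (h : Tri S G) (hh : Hom2 S G)
    (hN : ∀ s ∈ S, ∀ t ∈ S, G.Adj s t → ¬ NoSq S G s t)
    {x y z w : V} {ω : Finset (Finset V)} (hC : Cfg99 S G x y z w ω)
    (hmin : ∀ x' y' z' w' : V, ∀ ω' : Finset (Finset V), Cfg99 S G x' y' z' w' ω' →
      ins S G x' y' z' w' ω' ⊂ ins S G x y z w ω → ∃ v, ins S G x' y' z' w' ω' = {v})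
    (h2 : 2 ≤ (ins S G x y z w ω).card)
    {u p o q : V} (hc' : C4 S G u p o q) (hpq : ¬ G.Adj p q) (hu : u ∈ ins S G x y z w ω)
    (ho : o ∈ ins S G x y z w (co S G ω)) : False := by
  have hmem : ∀ a ∈ S, G.Adj u a → G.Adj a o → a ∈ ({x, y, z, w} : Finset V) := by
    intro a haS hua hao
    by_contra hn
    rcases ins_or h hC.fl haS hn with h1 | h1
    · exact ins_adj h h1 ho hao
    · exact ins_adj h hu h1 hua
  have hp := hmem p hc'.hy hc'.xy hc'.yz
  have hq := hmem q hc'.hw hc'.wx.symm hc'.zw.symm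
  have hup := hc'.xy
  have huq := hc'.wx.symm
  have npq := hc'.yw
  have hc := hC.c
  have key : (G.Adj u x ∧ G.Adj u z) ∨ (G.Adj u y ∧ G.Adj u w) := by
    simp only [mem_insert, mem_singleton] at hp hq
    rcases hp with rfl | rfl | rfl | rfl <;> rcases hq with rfl | rfl | rfl | rfl <;>
      first
        | exact absurd rfl npq
        | exact absurd hc.xy hpq
        | exact absurd hc.yz hpq
        | exact absurd hc.zw hpq
        | exact absurd hc.wx hpq
        | exact absurd hc.xy.symm hpq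
        | exact absurd hc.yz.symm hpq
        | exact absurd hc.zw.symm hpq
        | exact absurd hc.wx.symm hpq
        | exact Or.inl ⟨hup, huq⟩
        | exact Or.inl ⟨huq, hup⟩
        | exact Or.inr ⟨hup, huq⟩
        | exact Or.inr ⟨huq, hup⟩
  rcases key with ⟨h3, h4⟩ | ⟨h3, h4⟩
  · exact case1_99 h hh hN hC hmin h2 hu h3 h4
  · refine case1_99 h hh hN hC.rot ?_ ?_ (u := u) ?_ h3 h4
    · intro x' y' z' w' ω' hC' hss
      rw [ins_rot99 x y z w ω] at hss
      exact hmin x' y' z' w' ω' hC' hss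
    · rw [ins_rot99]
      exact h2
    · rw [ins_rot99]
      exact hu

/-- Case 2: induced 4-cycles meeting the inner vertices are links of inner vertices. -/
private lemma case2_99 (h : Tri S G) (hh : Hom2 S G)
    (hN : ∀ s ∈ S, ∀ t ∈ S, G.Adj s t → ¬ NoSq S G s t)
    {x y z w : V} {ω : Finset (Finset V)} (hC : Cfg99 S G x y z w ω)
    (hmin : ∀ x' y' z' w' : V, ∀ ω' : Finset (Finset V), Cfg99 S G x' y' z' w' ω' →
      ins S G x' y' z' w' ω' ⊂ ins S G x y z w ω → ∃ v, ins S G x' y' z' w' ω' = {v})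
    (h2 : 2 ≤ (ins S G x y z w ω).card)
    {a b c d : V} (hc' : C4 S G a b c d) (hac : ¬ G.Adj a c) (hbd : ¬ G.Adj b d)
    (hi : a ∈ ins S G x y z w ω) :
    ∃ v ∈ ins S G x y z w ω, lk S G v = {a, b, c, d} := by
  obtain ⟨haS, haC, haT⟩ := mem_ins.1 hi
  have hc := hC.c
  -- no vertex of the cycle in the other side
  have hbO : ∀ o, o ∈ ins S G x y z w (co S G ω) → o ∉ ({a, b, c, d} : Finset V) := by
    intro o ho hm
    simp only [mem_insert, mem_singleton] at hm
    rcases hm with rfl | rfl | rfl | rfl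
    · exact ins_not h hi ho
    · exact ins_adj h hi ho hc'.xy
    · exact case1c99 h hh hN hC hmin h2 hc' hbd hi ho
    · exact ins_adj h hi ho hc'.wx.symm
  have hIC : ∀ v ∈ S, v ∈ ({a, b, c, d} : Finset V) → v ∈ ins S G x y z w ω ∨
      v ∈ ({x, y, z, w} : Finset V) := by
    intro v hvS hv
    by_cases hm : v ∈ ({x, y, z, w} : Finset V)
    · exact Or.inr hm
    · rcases ins_or h hC.fl hvS hm with h1 | h1
      · exact Or.inl h1
      · exact absurd hv (hbO v h1)
  obtain ⟨o, ho⟩ := ins_ne h hc hC.xz hC.yw (fl_co h hC.fl)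
  obtain ⟨hoS, hoC, hoT⟩ := mem_ins.1 ho
  obtain ⟨ω', hf', hω'o⟩ := fill_out99 h hh hc' hoS (hbO o ho)
  have hC' : Cfg99 S G a b c d ω' := ⟨hc', hac, hbd, hf'⟩
  have hδ : ∀ T ∈ ω' \ ω, IsTri S G T := sdiff_tri99 hf'.1
  have hinner : ∀ i ∈ ins S G x y z w ω, ∀ T, IsTri S G T → i ∈ T → T ∉ ω' \ ω := by
    intro i hi' T hT hiT hm
    exact (mem_sdiff.1 hm).2 ((mem_ins.1 hi').2.2 T hT hiT)
  obtain ⟨T0, hT0, haT0⟩ := exists_tri_vertex h haS
  have hT0ω : T0 ∈ ω := haT T0 hT0 haT0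
  -- evenness away from the 4-cycle
  have hev1 : ∀ s ∈ S, ∀ t ∈ S, G.Adj s t → ¬ (({s, t} : Finset V) = {x, y} ∨
      ({s, t} : Finset V) = {y, z} ∨ ({s, t} : Finset V) = {z, w} ∨
      ({s, t} : Finset V) = {w, x}) → Even (nT (ω' \ ω) s t) := by
    intro s hs t ht hst hn
    by_cases hsI : s ∈ ins S G x y z w ω
    · exact even_of_none99 h hδ hs ht hst fun T hT hsT htT => hinner s hsI T hT hsT
    by_cases htI : t ∈ ins S G x y z w ω
    · exact even_of_none99 h hδ hs ht hst fun T hT hsT htT => hinner t htI T hT htT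
    refine even_out99 h hC.fl hf' hs ht hst hn fun hE => ?_
    have hsm : s ∈ ({a, b, c, d} : Finset V) := by
      simp only [pair99] at hE
      simp only [mem_insert, mem_singleton]
      tauto
    have htm : t ∈ ({a, b, c, d} : Finset V) := by
      simp only [pair99] at hE
      simp only [mem_insert, mem_singleton]
      tauto
    have hs2 := (hIC s hs hsm).resolve_left hsI
    have ht2 := (hIC t ht htm).resolve_left htI
    exact hn (edge_of_mem99 hc hC.xz hC.yw hs2 ht2 hst)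
  -- all even
  have hev : ∀ s ∈ S, ∀ t ∈ S, G.Adj s t → Even (nT (ω' \ ω) s t) := by
    by_contra hcon
    push Not at hcon
    obtain ⟨s, hs, t, ht, hst, hodd⟩ := hcon
    rw [Nat.not_even_iff_odd] at hodd
    -- one of the four edges is odd, hence all
    have step : ∀ {x1 y1 z1 w1 : V}, C4 S G x1 y1 z1 w1 →
        (∀ s ∈ S, ∀ t ∈ S, G.Adj s t → ¬ (({s, t} : Finset V) = {x1, y1} ∨
          ({s, t} : Finset V) = {y1, z1} ∨ ({s, t} : Finset V) = {z1, w1} ∨
          ({s, t} : Finset V) = {w1, x1}) → Even (nT (ω' \ ω) s t)) →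
        Odd (nT (ω' \ ω) x1 y1) → Odd (nT (ω' \ ω) y1 z1) := by
      intro x1 y1 z1 w1 hc1 he1 ho1
      rw [nT_comm99] at ho1
      refine parity2_99 h hδ hc1.hy hc1.hx hc1.xy.symm (fun a ha hya n1 n2 => ?_) ho1
      refine he1 y1 hc1.hy a ha hya ?_
      simp only [pair99]
      have m1 := hc1.xy.ne
      have m2 := hc1.yz.ne
      have m3 := hc1.yw
      rintro ((⟨e1, e2⟩ | ⟨e1, e2⟩) | (⟨e1, e2⟩ | ⟨e1, e2⟩) | (⟨e1, e2⟩ | ⟨e1, e2⟩) |
          (⟨e1, e2⟩ | ⟨e1, e2⟩))
      · exact m1 e1.symm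
      · exact n1 e2
      · exact n2 e2
      · exact m2 e1
      · exact m2 e1
      · exact m3 e1
      · exact m3 e1
      · exact m1 e1.symm
    have he2 : ∀ s ∈ S, ∀ t ∈ S, G.Adj s t → ¬ (({s, t} : Finset V) = {y, z} ∨
          ({s, t} : Finset V) = {z, w} ∨ ({s, t} : Finset V) = {w, x} ∨
          ({s, t} : Finset V) = {x, y}) → Even (nT (ω' \ ω) s t) := by
      intro s hs t ht hst hn
      exact hev1 s hs t ht hst (by tauto)
    have he3 : ∀ s ∈ S, ∀ t ∈ S, G.Adj s t → ¬ (({s, t} : Finset V) = {z, w} ∨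
          ({s, t} : Finset V) = {w, x} ∨ ({s, t} : Finset V) = {x, y} ∨
          ({s, t} : Finset V) = {y, z}) → Even (nT (ω' \ ω) s t) := by
      intro s hs t ht hst hn
      exact hev1 s hs t ht hst (by tauto)
    have he4 : ∀ s ∈ S, ∀ t ∈ S, G.Adj s t → ¬ (({s, t} : Finset V) = {w, x} ∨
          ({s, t} : Finset V) = {x, y} ∨ ({s, t} : Finset V) = {y, z} ∨
          ({s, t} : Finset V) = {z, w}) → Even (nT (ω' \ ω) s t) := by
      intro s hs t ht hst hn
      exact hev1 s hs t ht hst (by tauto)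
    have s1 := step hc hev1
    have s2 := step (rotC99 hc) he2
    have s3 := step (rotC99 (rotC99 hc)) he3
    have s4 := step (rotC99 (rotC99 (rotC99 hc))) he4
    have hall : Odd (nT (ω' \ ω) x y) ∧ Odd (nT (ω' \ ω) y z) ∧ Odd (nT (ω' \ ω) z w) ∧
        Odd (nT (ω' \ ω) w x) := by
      by_cases hE : (({s, t} : Finset V) = {x, y} ∨ ({s, t} : Finset V) = {y, z} ∨
          ({s, t} : Finset V) = {z, w} ∨ ({s, t} : Finset V) = {w, x})
      · have ho' : Odd (nT (ω' \ ω) x y) ∨ Odd (nT (ω' \ ω) y z) ∨ Odd (nT (ω' \ ω) z w) ∨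
            Odd (nT (ω' \ ω) w x) := by
          simp only [pair99] at hE
          rcases hE with (⟨rfl, rfl⟩ | ⟨rfl, rfl⟩) | (⟨rfl, rfl⟩ | ⟨rfl, rfl⟩) |
            (⟨rfl, rfl⟩ | ⟨rfl, rfl⟩) | (⟨rfl, rfl⟩ | ⟨rfl, rfl⟩)
          · exact Or.inl hodd
          · exact Or.inl (by rwa [nT_comm99])
          · exact Or.inr (Or.inl hodd)
          · exact Or.inr (Or.inl (by rwa [nT_comm99]))
          · exact Or.inr (Or.inr (Or.inl hodd))
          · exact Or.inr (Or.inr (Or.inl (by rwa [nT_comm99])))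
          · exact Or.inr (Or.inr (Or.inr hodd))
          · exact Or.inr (Or.inr (Or.inr (by rwa [nT_comm99])))
        tauto
      · exact absurd (hev1 s hs t ht hst hE) (Nat.not_even_iff_odd.2 hodd)
    have hfδ : Fl S G x y z w (ω' \ ω) := by
      refine ⟨hδ, fun s' hs' t' ht' hst' => ⟨fun ho1 => ?_, fun hE => ?_⟩⟩
      · by_contra hn
        exact absurd (hev1 s' hs' t' ht' hst' hn) (Nat.not_even_iff_odd.2 ho1)
      · obtain ⟨o1, o2, o3, o4⟩ := hall
        simp only [pair99] at hE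
        rcases hE with (⟨rfl, rfl⟩ | ⟨rfl, rfl⟩) | (⟨rfl, rfl⟩ | ⟨rfl, rfl⟩) |
            (⟨rfl, rfl⟩ | ⟨rfl, rfl⟩) | (⟨rfl, rfl⟩ | ⟨rfl, rfl⟩) <;>
          first
            | assumption
            | (rw [nT_comm99]; assumption)
    rcases fl_unique h hh hC.fl hfδ with h3 | h3
    · have h4 : T0 ∈ ω' \ ω := by
        rw [h3]
        exact hT0ω
      exact (mem_sdiff.1 h4).2 hT0ω
    · obtain ⟨T1, hT1, hoT1⟩ := exists_tri_vertex h hoS
      have h4 : T1 ∈ ω' \ ω := by
        rw [h3]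
        exact hoT T1 hT1 hoT1
      exact hω'o T1 hT1 hoT1 (mem_sdiff.1 h4).1
  have hsub : ω' ⊆ ω := sub99 hh hf'.1 ⟨T0, hT0ω, hT0⟩ hev
  -- at every vertex of the 4-cycle there is a triangle not in `ω`
  have hCn : ∀ v ∈ ({x, y, z, w} : Finset V), ∃ T, IsTri S G T ∧ v ∈ T ∧ T ∉ ω := by
    intro v hv
    have aux : ∀ s ∈ S, ∀ t ∈ S, G.Adj s t → (({s, t} : Finset V) = {x, y} ∨
        ({s, t} : Finset V) = {y, z} ∨ ({s, t} : Finset V) = {z, w} ∨
        ({s, t} : Finset V) = {w, x}) → ∃ T, IsTri S G T ∧ s ∈ T ∧ T ∉ ω := by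
      intro s hs t ht hst hE
      by_contra hn
      push Not at hn
      have ho1 := (hC.fl.2 s hs t ht hst).2 hE
      refine Nat.not_even_iff_odd.2 ho1 ((even_iff99 h hC.fl.1 hs ht hst).2 (Or.inl ?_))
      intro T hT hsT _
      exact hn T hT hsT
    simp only [mem_insert, mem_singleton] at hv
    rcases hv with rfl | rfl | rfl | rfl
    · exact aux _ hc.hx _ hc.hy hc.xy (Or.inl rfl)
    · exact aux _ hc.hy _ hc.hz hc.yz (Or.inr (Or.inl rfl))
    · exact aux _ hc.hz _ hc.hw hc.zw (Or.inr (Or.inr (Or.inl rfl)))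
    · exact aux _ hc.hw _ hc.hx hc.wx (Or.inr (Or.inr (Or.inr rfl)))
  have hss' : ins S G a b c d ω' ⊆ ins S G x y z w ω := by
    intro v hv
    obtain ⟨hvS, hvC, hvT⟩ := mem_ins.1 hv
    refine mem_ins.2 ⟨hvS, ?_, fun T hT hvT' => hsub (hvT T hT hvT')⟩
    intro hm
    obtain ⟨T, hT, hvT1, hTn⟩ := hCn v hm
    exact hTn (hsub (hvT T hT hvT1))
  have hss : ins S G a b c d ω' ⊂ ins S G x y z w ω := by
    rw [ssubset_iff_of_subset hss']
    exact ⟨a, hi, fun hm => (mem_ins.1 hm).2.1 (by simp)⟩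
  obtain ⟨v, hv⟩ := hmin a b c d ω' hC' hss
  refine ⟨v, hss' ?_, lk_ins h hc' hac hbd hf' hv⟩
  rw [hv]
  exact mem_singleton_self v

theorem tri_edge (h : Tri S G) (hh : Hom2 S G) :
    (∃ a ∈ S, ∃ b ∈ S, a ≠ b ∧ ¬ G.Adj a b ∧ ∀ x ∈ S, x ≠ a → x ≠ b → G.Adj a x ∧ G.Adj b x) ∨
      ∃ s ∈ S, ∃ t ∈ S, G.Adj s t ∧ NoSq S G s t := by
  by_cases hN : ∃ s ∈ S, ∃ t ∈ S, G.Adj s t ∧ NoSq S G s t
  · exact Or.inr hN
  left
  replace hN : ∀ s ∈ S, ∀ t ∈ S, G.Adj s t → ¬ NoSq S G s t :=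
    fun s hs t ht hst hn => hN ⟨s, hs, t, ht, hst, hn⟩
  -- every edge is in an induced 4-cycle
  have hsq : ∀ s ∈ S, ∀ t ∈ S, G.Adj s t → ∃ x y, C4 S G s x y t ∧ ¬ G.Adj s y ∧ ¬ G.Adj x t := by
    intro s hs t ht hst
    have h1 := hN s hs t ht hst
    unfold NoSq at h1
    push Not at h1
    obtain ⟨x, hx, y, hy, hsx, hty, htx, hsy, hxt, hys, hxy⟩ := h1
    exact ⟨x, y, ⟨hs, hx, hy, ht, hsx, hxy, hty.symm, hst.symm, hys.symm, hxt⟩, hsy,
      fun hn => htx hn.symm⟩
  -- there are pairs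
  have hex : ∃ x y z w ω, Cfg99 S G x y z w ω := by
    obtain ⟨s, hs⟩ := h.ne
    obtain ⟨t, ht⟩ := h.lne s hs
    obtain ⟨htS, hst⟩ := mem_lk.1 ht
    obtain ⟨x, y, hc, h1, h2⟩ := hsq s hs t htS hst
    obtain ⟨ω, hf⟩ := exists_fl hh hc
    exact ⟨s, x, y, t, ω, hc, h1, h2, hf⟩
  by_cases hbig : ∃ n, 2 ≤ n ∧ ∃ x y z w ω, Cfg99 S G x y z w ω ∧
      (ins S G x y z w ω).card = n
  swap
  · -- Case 0
    obtain ⟨x, y, z, w, ω, hC⟩ := hex
    have hone : ∀ ω', Cfg99 S G x y z w ω' → ∃ a, ins S G x y z w ω' = {a} := by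
      intro ω' hC'
      have h1 := card_pos.2 (ins_ne h hC'.c hC'.xz hC'.yw hC'.fl)
      have h2 : ¬ 2 ≤ (ins S G x y z w ω').card := fun hh2 =>
        hbig ⟨_, hh2, x, y, z, w, ω', hC', rfl⟩
      exact card_eq_one.1 (by omega)
    obtain ⟨a, ha⟩ := hone ω hC
    obtain ⟨b, hb⟩ := hone _ (hC.co h)
    have hla := lk_ins h hC.c hC.xz hC.yw hC.fl ha
    have hlb := lk_ins h hC.c hC.xz hC.yw (hC.co h).fl hb
    have hma : a ∈ ins S G x y z w ω := by
      rw [ha]
      exact mem_singleton_self a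
    have hmb : b ∈ ins S G x y z w (co S G ω) := by
      rw [hb]
      exact mem_singleton_self b
    refine ⟨a, (mem_ins.1 hma).1, b, (mem_ins.1 hmb).1, ?_, ins_adj h hma hmb, ?_⟩
    · rintro rfl
      exact ins_not h hma hmb
    · intro v hv hva hvb
      have hvC : v ∈ ({x, y, z, w} : Finset V) := by
        by_contra hn
        rcases ins_or h hC.fl hv hn with h1 | h1
        · rw [ha, mem_singleton] at h1
          exact hva h1
        · rw [hb, mem_singleton] at h1
          exact hvb h1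
      constructor
      · rw [← hla, mem_lk] at hvC
        exact hvC.2
      · rw [← hlb, mem_lk] at hvC
        exact hvC.2
  -- choose a minimal pair
  classical
  obtain ⟨h2n, x, y, z, w, ω, hC, hcard⟩ := Nat.find_spec hbig
  have hmin : ∀ x' y' z' w' : V, ∀ ω' : Finset (Finset V), Cfg99 S G x' y' z' w' ω' →
      ins S G x' y' z' w' ω' ⊂ ins S G x y z w ω → ∃ v, ins S G x' y' z' w' ω' = {v} := by
    intro x' y' z' w' ω' hC' hss
    have h1 := card_pos.2 (ins_ne h hC'.c hC'.xz hC'.yw hC'.fl)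
    have h3 := card_lt_card hss
    have h2 : ¬ 2 ≤ (ins S G x' y' z' w' ω').card := fun hh2 => by
      have h4 := Nat.find_min' hbig ⟨hh2, x', y', z', w', ω', hC', rfl⟩
      omega
    exact card_eq_one.1 (by omega)
  have h2 : 2 ≤ (ins S G x y z w ω).card := by omega
  clear hcard h2n
  have hstar : ∀ {a b c d : V}, C4 S G a b c d → ¬ G.Adj a c → ¬ G.Adj b d →
      a ∈ ins S G x y z w ω → ∃ v ∈ ins S G x y z w ω, lk S G v = {a, b, c, d} :=
    fun hc' hac hbd hi => case2_99 h hh hN hC hmin h2 hc' hac hbd hi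
  -- a first link
  obtain ⟨i₀, hi₀⟩ := ins_ne h hC.c hC.xz hC.yw hC.fl
  have hi₀S := (mem_ins.1 hi₀).1
  obtain ⟨j₀, hj₀⟩ := h.lne i₀ hi₀S
  obtain ⟨hj₀S, hij⟩ := mem_lk.1 hj₀
  obtain ⟨q₀, r₀, hc₀, n1, n2⟩ := hsq i₀ hi₀S j₀ hj₀S hij
  obtain ⟨v', hv'I, hv'⟩ := hstar hc₀ n1 n2 hi₀
  have hv'S := (mem_ins.1 hv'I).1
  -- rename the link of `v'` such that the link of `q` is known
  have hexq : ∃ p q r s t : V, C4 S G p q r s ∧ ¬ G.Adj p r ∧ ¬ G.Adj q s ∧
      lk S G v' = {p, q, r, s} ∧ lk S G q = {v', r, t, p} ∧ C4 S G v' r t p ∧ ¬ G.Adj v' t := by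
    obtain ⟨p, q, r, s, hp, hpr, hqs, hl⟩ : ∃ p q r s : V, C4 S G p q r s ∧ ¬ G.Adj p r ∧
        ¬ G.Adj q s ∧ lk S G v' = {p, q, r, s} := ⟨i₀, q₀, r₀, j₀, hc₀, n1, n2, hv'⟩
    have hv'p : G.Adj v' p := by
      have : p ∈ lk S G v' := by rw [hl]; simp
      exact (mem_lk.1 this).2
    obtain ⟨a, t, hcc, m1, m2⟩ := hsq v' hv'S p hp.hx hv'p
    obtain ⟨v'', hv''I, hv''⟩ := hstar hcc m1 m2 hv'I
    have hv''S := (mem_ins.1 hv''I).1
    have ad1 : G.Adj v'' v' := by
      have : v' ∈ lk S G v'' := by rw [hv'']; simp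
      exact (mem_lk.1 this).2
    have ad2 : G.Adj v'' p := by
      have : p ∈ lk S G v'' := by rw [hv'']; simp
      exact (mem_lk.1 this).2
    have ad3 : G.Adj v'' a := by
      have : a ∈ lk S G v'' := by rw [hv'']; simp
      exact (mem_lk.1 this).2
    have hm : v'' ∈ ({p, q, r, s} : Finset V) := by
      rw [← hl, mem_lk]
      exact ⟨hv''S, ad1.symm⟩
    have ham : a ∈ ({p, q, r, s} : Finset V) := by
      rw [← hl, mem_lk]
      exact ⟨hcc.hy, hcc.xy⟩
    simp only [mem_insert, mem_singleton] at hm ham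
    have hap : a ≠ p := hcc.yw
    rcases hm with rfl | rfl | rfl | rfl
    · exact absurd ad2 (G.loopless.irrefl _)
    · -- `v'' = q`
      have har : a = r := by
        rcases ham with rfl | rfl | h1 | rfl
        · exact absurd rfl hap
        · exact absurd ad3 (G.loopless.irrefl _)
        · exact h1
        · exact absurd ad3 hqs
      subst har
      exact ⟨p, v'', a, s, t, hp, hpr, hqs, hl, hv'', hcc, m1⟩
    · exact absurd ad2.symm hpr
    · -- `v'' = s`
      have har : a = r := by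
        rcases ham with rfl | rfl | h1 | rfl
        · exact absurd rfl hap
        · exact absurd ad3.symm hqs
        · exact h1
        · exact absurd ad3 (G.loopless.irrefl _)
      subst har
      refine ⟨p, v'', a, q, t, refC99 hp, hpr, fun hn => hqs hn.symm, ?_, hv'', hcc, m1⟩
      rw [hl]
      exact (refS99 p q a v'').symm
  obtain ⟨p, q, r, s, t, hc1, hpr, hqs, hlv, hlq, hc2, hvt⟩ := hexq
  have mlk : ∀ {a b : V}, a ∈ lk S G b → G.Adj b a := fun hm => (mem_lk.1 hm).2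
  have vp : G.Adj v' p := mlk (by rw [hlv]; simp)
  have vq : G.Adj v' q := mlk (by rw [hlv]; simp)
  have vr : G.Adj v' r := mlk (by rw [hlv]; simp)
  have vs : G.Adj v' s := mlk (by rw [hlv]; simp)
  have qv : G.Adj q v' := mlk (by rw [hlq]; simp)
  have qr : G.Adj q r := mlk (by rw [hlq]; simp)
  have qt : G.Adj q t := mlk (by rw [hlq]; simp)
  have qp : G.Adj q p := mlk (by rw [hlq]; simp)
  by_cases hst : G.Adj s t
  · -- octahedron
    have hlp : lk S G p = {v', q, t, s} :=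
      lk_eq h ⟨hv'S, hc1.hy, hc2.hz, hc1.hw, vq, qt, hst.symm, vs.symm, hc2.xz, hc1.yw⟩ hc1.hx
        vp.symm qp.symm hc2.zw.symm hc1.wx.symm
    have hlr : lk S G r = {v', q, t, s} :=
      lk_eq h ⟨hv'S, hc1.hy, hc2.hz, hc1.hw, vq, qt, hst.symm, vs.symm, hc2.xz, hc1.yw⟩ hc1.hz
        vr.symm qr.symm hc2.yz hc1.zw
    have hls : lk S G s = {p, v', r, t} :=
      lk_eq h ⟨hc1.hx, hv'S, hc1.hz, hc2.hz, vp.symm, vr, hc2.yz, hc2.zw, hc1.xz, hc2.xz⟩ hc1.hw
        hc1.wx vs.symm hc1.zw.symm hst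
    have hlt : lk S G t = {p, q, r, s} :=
      lk_eq h hc1 hc2.hz hc2.zw qt.symm hc2.yz.symm hst.symm
    set K : Finset V := {p, q, r, s, t, v'} with hK
    have hKlk : ∀ c ∈ K, ∀ a ∈ S, G.Adj c a → a ∈ K := by
      intro c hcK a ha hca
      have ham : a ∈ lk S G c := mem_lk.2 ⟨ha, hca⟩
      rw [hK] at hcK ⊢
      simp only [mem_insert, mem_singleton] at hcK ⊢
      rcases hcK with rfl | rfl | rfl | rfl | rfl | rfl
      · rw [hlp] at ham
        simp only [mem_insert, mem_singleton] at ham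
        tauto
      · rw [hlq] at ham
        simp only [mem_insert, mem_singleton] at ham
        tauto
      · rw [hlr] at ham
        simp only [mem_insert, mem_singleton] at ham
        tauto
      · rw [hls] at ham
        simp only [mem_insert, mem_singleton] at ham
        tauto
      · rw [hlt] at ham
        simp only [mem_insert, mem_singleton] at ham
        tauto
      · rw [hlv] at ham
        simp only [mem_insert, mem_singleton] at ham
        tauto
    have hpK : p ∈ K := by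
      rw [hK]
      simp
    let Ω : Finset (Finset V) := univ.filter fun T => IsTri S G T ∧ ∃ c ∈ K, c ∈ T
    have hΩ : ∀ T ∈ Ω, IsTri S G T := fun T hT => (mem_filter.1 hT).2.1
    have hΩev : ∀ a ∈ S, ∀ b ∈ S, G.Adj a b → Even (nT Ω a b) := by
      intro a ha b hb hab
      rw [even_iff99 h hΩ ha hb hab]
      by_cases haK : a ∈ K
      · left
        intro T hT haT hbT
        exact mem_filter.2 ⟨mem_univ _, hT, a, haK, haT⟩
      · right
        intro T hT haT hbT hm
        obtain ⟨c, hcK, hcT⟩ := (mem_filter.1 hm).2.2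
        have hca : c ≠ a := by
          rintro rfl
          exact haK hcK
        exact haK (hKlk c hcK a ha (adj_of_tri99 hT hcT haT hca))
    have hall : ∀ T, IsTri S G T → T ∈ Ω := by
      rcases hh.closed Ω hΩ hΩev with h0 | h0
      · exfalso
        obtain ⟨T, hT, hpT⟩ := exists_tri_vertex h hc1.hx
        have hm : T ∈ Ω := mem_filter.2 ⟨mem_univ _, hT, p, hpK, hpT⟩
        rw [h0] at hm
        exact notMem_empty _ hm
      · exact h0
    have hSK : ∀ v ∈ S, v ∈ K := by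
      intro v hv
      by_contra hn
      obtain ⟨T, hT, hvT⟩ := exists_tri_vertex h hv
      obtain ⟨c, hcK, hcT⟩ := (mem_filter.1 (hall T hT)).2.2
      have hcv : c ≠ v := by
        rintro rfl
        exact hn hcK
      exact hn (hKlk c hcK v hv (adj_of_tri99 hT hcT hvT hcv))
    refine ⟨p, hc1.hx, r, hc1.hz, hc1.xz, hpr, fun v hv hvp hvr => ?_⟩
    have hvK := hSK v hv
    rw [hK] at hvK
    simp only [mem_insert, mem_singleton] at hvK
    rcases hvK with rfl | rfl | rfl | rfl | rfl | rfl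
    · exact absurd rfl hvp
    · exact ⟨qp.symm, qr.symm⟩
    · exact absurd rfl hvr
    · exact ⟨hc1.wx.symm, hc1.zw⟩
    · exact ⟨hc2.zw.symm, hc2.yz⟩
    · exact ⟨vp.symm, vr.symm⟩
  · exfalso
    refine hN v' hv'S q hc1.hy vq ?_
    intro x' hx' y' hy' hvx hqy hqx hvy n3 n4 hxy
    have hxm : x' ∈ ({p, q, r, s} : Finset V) := by
      rw [← hlv, mem_lk]
      exact ⟨hx', hvx⟩
    have hym : y' ∈ ({v', r, t, p} : Finset V) := by
      rw [← hlq, mem_lk]
      exact ⟨hy', hqy⟩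
    simp only [mem_insert, mem_singleton] at hxm hym
    have hxs : x' = s := by
      rcases hxm with rfl | rfl | rfl | h1
      · exact absurd qp hqx
      · exact absurd rfl n3
      · exact absurd qr hqx
      · exact h1
    have hyt : y' = t := by
      rcases hym with rfl | rfl | h1 | rfl
      · exact absurd rfl n4
      · exact absurd vr hvy
      · exact h1
      · exact absurd vp hvy
    subst hxs hyt
    exact hst hxy

end SNG
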