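import Pool.Agent.SNG.TFacts
import Pool.Agent.SNG.TEdge
import Pool.Agent.SNG.TCont
import Pool.Agent.SNG.SphRed

/-!
# Project SNG (architect helper40), module Small: all flag homology spheres are reducible for `n ≤ 4`

`tri_rd`: `Tri S G` and `Sph 3 S G` imply `Rd 3 S G`: induction on `|S|`; links by `tri_link`; by
`tri_hom` and `tri_edge` either `Rd.susp` or `Rd.cont`; the contraction satisfies `Tri` (`tri_cont`) and
`Sph 3` (`sph_cont_back`, module SphRed).

`gor_rd` (`n ≤ 4`).  `Gor n S G` implies `Gor (n - 1) (lk S G v) G` for `v ∈ S` (`n ≥ 1`): for a clique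
`T ⊆ lk S G v`, `insert v T` is a clique and `lks (lk S G v) G T = lks S G (insert v T)`.
`n = 0`: `Sph 0 S G` implies `S = ∅` (if `x ∈ S` the chain `1` at `∅` is a boundary): `Rd.nil`.
`n = 1`: all links satisfy `Gor 0`, so they are empty: no edges; `Sph 1 S G` gives `|S| = 2`: `Rd.susp`.
`n = 2`, `n = 4`: `Rd.even`, links by `n - 1`.  `n = 3`: `gor_tri`, `gor_sph`, `tri_rd`.
-/

namespace SNG

open Finset

variable {V : Type} [Fintype V] [DecidableEq V] {S : Finset V} {G : SimpleGraph V}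

theorem tri_rd (h : Tri S G) (hs : Sph 3 S G) : Rd 3 S G := by
  induction hn : S.card using Nat.strong_induction_on generalizing S G with
  | _ n ih =>
    have hl : ∀ v ∈ S, Rd 2 (lk S G v) G := fun v hv => tri_link h hv
    rcases tri_edge h (tri_hom h hs) with ⟨a, ha, b, hb, hab, hn', hx⟩ | ⟨s, hs', t, ht, hst, hq⟩
    · exact Rd.susp hl a b ha hb hab hn' hx
    · refine Rd.cont hl s t hs' ht hst hq ?_
      exact ih (S.erase t).card (by rw [← hn]; exact card_erase_lt_of_mem ht)
        (tri_cont h hs' ht hst hq) (sph_cont_back hs' ht hst hq hs) rfl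

private theorem sm_mem_lks {T : Finset V} {x : V} : x ∈ lks S G T ↔ x ∈ S ∧ ∀ t ∈ T, G.Adj t x := by
  simp [lks]

private theorem sm_gor_lk {n : ℕ} (h : Gor (n + 1) S G) {v : V} (hv : v ∈ S) :
    Gor n (lk S G v) G := by
  intro T hT hc
  have hvT : v ∉ T := fun hh => G.irrefl (mem_lk.1 (hT hh)).2
  obtain ⟨m, hm, hs⟩ := h (insert v T) (insert_subset hv fun x hx => (mem_lk.1 (hT hx)).1) (by
    rw [coe_insert, SimpleGraph.isClique_insert]
    exact ⟨hc, fun b hb _ => (mem_lk.1 (hT (mem_coe.1 hb))).2⟩)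
  rw [card_insert_of_notMem hvT] at hm
  refine ⟨m, by omega, ?_⟩
  have e : lks S G (insert v T) = lks (lk S G v) G T := by
    ext x
    rw [sm_mem_lks, sm_mem_lks, mem_lk, forall_mem_insert, and_assoc]
  rwa [e] at hs

private theorem sm_gor_card {n : ℕ} (h : Gor n S G) {T : Finset V} (hT : T ⊆ S)
    (hc : G.IsClique (T : Set V)) : T.card ≤ n := by
  obtain ⟨m, hm, -⟩ := h T hT hc
  omega

private theorem sm_gor_zero (h : Gor 0 S G) : S = ∅ := by
  by_contra hne
  obtain ⟨x, hx⟩ := nonempty_iff_ne_empty.2 hne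
  have h2 := sm_gor_card h (T := {x}) (singleton_subset_iff.2 hx) (by simp)
  rw [card_singleton] at h2
  omega

private theorem sm_gor_one_adj (h : Gor 1 S G) {x y : V} (hx : x ∈ S) (hy : y ∈ S) :
    ¬ G.Adj x y := by
  intro hxy
  have h2 := sm_gor_card h (T := {x, y}) (insert_subset hx (singleton_subset_iff.2 hy)) (by
    simp only [coe_insert, coe_singleton, SimpleGraph.isClique_pair]
    exact fun _ => hxy)
  rw [card_pair hxy.ne] at h2
  omega

/-- the indicator of the vertex `x` -/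
private def sm_d (x : V) : Finset V → Unit → ZMod 2 := fun T _ => if T = {x} then 1 else 0

private theorem sm_bd (f : Finset V → Unit → ZMod 2) (h : f ∈ Ch S ∅ G (fun _ => (1 : Unit)) 1) :
    bd V Unit f = fun T _ => if T = ∅ then ∑ x, f {x} () else 0 := by
  funext T g
  change ∑ s ∈ Tᶜ, f (insert s T) g = _
  by_cases hT : T = ∅
  · subst hT
    rw [if_pos rfl, compl_empty]
    rfl
  · rw [if_neg hT]
    refine sum_eq_zero fun s hs => ?_
    rw [h.1 (insert s T)]
    · rfl
    · rintro ⟨-, -, h3⟩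
      rw [mem_compl] at hs
      rw [card_insert_of_notMem hs] at h3
      have : T.card ≠ 0 := fun hh => hT (card_eq_zero.1 hh)
      push_cast at h3
      omega

private theorem sm_two (h : Gor 1 S G) : ∃ a ∈ S, ∃ b ∈ S, a ≠ b ∧ ∀ x ∈ S, x = a ∨ x = b := by
  have hs : Sph 1 S G := gor_sph h
  have h1 := hs 1
  rw [if_pos (by norm_num)] at h1
  have e2 : Ch S ∅ G (fun _ => (1 : Unit)) (1 + 1) = ⊥ := by
    rw [Submodule.eq_bot_iff]
    intro f hf
    funext T
    refine hf.1 T ?_
    rintro ⟨hT, hc, h3⟩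
    have := sm_gor_card h hT hc
    omega
  unfold bt at h1
  rw [e2, Submodule.map_bot, finrank_bot, Nat.sub_zero, finrank_eq_one_iff'] at h1
  obtain ⟨⟨v, hv⟩, hv0, hw⟩ := h1
  have hall : ∀ w ∈ Ch S ∅ G (fun _ => (1 : Unit)) 1, bd V Unit w = 0 → w = 0 ∨ w = v := by
    intro w hw1 hw2
    obtain ⟨c, hc⟩ := hw ⟨w, hw1, hw2⟩
    have hc' : c • v = w := congrArg Subtype.val hc
    have h01 : ∀ c : ZMod 2, c = 0 ∨ c = 1 := by decide
    rcases h01 c with hc0 | hc0
    · left
      rw [← hc', hc0, zero_smul]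
    · right
      rw [← hc', hc0, one_smul]
  have hv1 := hv.1
  have hv2 : bd V Unit v = 0 := hv.2
  have hvne : v ≠ 0 := fun hh => hv0 (Subtype.ext hh)
  obtain ⟨T, hT⟩ := Function.ne_iff.1 hvne
  have hT' : T ⊆ S ∧ G.IsClique (T : Set V) ∧ (T.card : ℤ) = 1 := by
    by_contra hh
    exact hT (hv1.1 T hh)
  obtain ⟨a, rfl⟩ := card_eq_one.1 (by exact_mod_cast hT'.2.2 : T.card = 1)
  have ha : a ∈ S := singleton_subset_iff.1 hT'.1
  have hva : v {a} () ≠ 0 := fun hh => hT (by funext u; exact hh)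
  have hsum : ∑ x, v {x} () = 0 := by
    have := congrFun (congrFun hv2 ∅) ()
    rw [sm_bd v hv1] at this
    simpa using this
  have hb : ∃ b, b ≠ a ∧ v {b} () ≠ 0 := by
    by_contra hh
    push Not at hh
    rw [sum_eq_single a (fun b _ hb => hh b hb) (fun hh => absurd (mem_univ a) hh)] at hsum
    exact hva hsum
  obtain ⟨b, hba, hvb⟩ := hb
  have hb : b ∈ S := by
    by_contra hh
    exact hvb (by rw [hv1.1 {b} fun h => hh (singleton_subset_iff.1 h.1)]; rfl)
  have hd : ∀ x ∈ S, ∀ y ∈ S, x ≠ y → sm_d x + sm_d y = v := by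
    intro x hx y hy hxy
    have hm : ∀ z ∈ S, sm_d z ∈ Ch S ∅ G (fun _ => (1 : Unit)) 1 := by
      intro z hz
      refine ⟨fun T hT => ?_, fun T s hs g => rfl⟩
      funext u
      change (if T = {z} then (1 : ZMod 2) else 0) = 0
      rw [if_neg]
      rintro rfl
      exact hT ⟨singleton_subset_iff.2 hz, by simp, by simp⟩
    have hmm := Submodule.add_mem _ (hm x hx) (hm y hy)
    have hs1 : ∀ z : V, ∑ w, sm_d z {w} () = 1 := by
      intro z
      simp only [sm_d, singleton_inj]
      rw [sum_ite_eq' univ z, if_pos (mem_univ z)]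
    rcases hall (sm_d x + sm_d y) hmm (by
      rw [sm_bd _ hmm]
      funext T u
      simp only [Pi.add_apply, sum_add_distrib, hs1]
      have : (1 : ZMod 2) + 1 = 0 := by decide
      rw [this, ite_self]
      rfl) with h0 | h0
    · exfalso
      have := congrFun (congrFun h0 {x}) ()
      simp [sm_d, hxy] at this
    · exact h0
  refine ⟨a, ha, b, hb, hba.symm, fun x hx => ?_⟩
  by_contra hh
  push Not at hh
  have h3 := (hd a ha b hb hba.symm).trans (hd a ha x hx hh.1.symm).symm
  have := congrFun (congrFun h3 {x}) ()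
  simp [sm_d, hh.1, hh.2] at this

theorem gor_rd {n : ℕ} (hn : n ≤ 4) (h : Gor n S G) : Rd n S G := by
  have h0 : ∀ {S : Finset V}, Gor 0 S G → Rd 0 S G := by
    intro S h
    rw [sm_gor_zero h]
    exact Rd.nil G
  have h1 : ∀ {S : Finset V}, Gor 1 S G → Rd 1 S G := by
    intro S h
    obtain ⟨a, ha, b, hb, hab, hx⟩ := sm_two h
    refine Rd.susp (fun v hv => h0 (sm_gor_lk h hv)) a b ha hb hab (sm_gor_one_adj h ha hb) ?_
    intro x hxS hxa hxb
    rcases hx x hxS with h | h
    · exact absurd h hxa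
    · exact absurd h hxb
  have h2 : ∀ {S : Finset V}, Gor 2 S G → Rd 2 S G := by
    intro S h
    exact Rd.even (fun v hv => h1 (sm_gor_lk h hv)) (by decide) (gor_sph h)
  have h3 : ∀ {S : Finset V}, Gor 3 S G → Rd 3 S G := fun h => tri_rd (gor_tri h) (gor_sph h)
  have h4 : ∀ {S : Finset V}, Gor 4 S G → Rd 4 S G := by
    intro S h
    exact Rd.even (fun v hv => h3 (sm_gor_lk h hv)) (by decide) (gor_sph h)
  interval_cases n
  · exact h0 h
  · exact h1 h
  · exact h2 h
  · exact h3 h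
  · exact h4 h

end SNG
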