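import Pool.Agent.SNG.HsEq
import Pool.Agent.SNG.Ind2
import Pool.Agent.SNG.Small

/-!
# Project SNG (architect helper40), module Ind3: the induction for the class `Rz`
-/

namespace SNG

open Finset

variable {V : Type} [Fintype V] [DecidableEq V]

/-- The claim. -/
def PZ (n : ℕ) (S : Finset V) (G : SimpleGraph V) : Prop :=
  (∀ j : ℤ, 2 * j ≠ n → Zp S G j) ∧ ∀ A ⊆ S, ∀ j : ℤ, (n : ℤ) < 2 * j → Zp A G j

omit [Fintype V] [DecidableEq V] in
theorem lk_mono' {A S : Finset V} (h : A ⊆ S) (G : SimpleGraph V) (v : V) :
    lk A G v ⊆ lk S G v := by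
  intro x hx
  rw [mem_lk] at hx ⊢
  exact ⟨h hx.1, hx.2⟩

/-- Part (2) in odd degrees. -/
theorem pz_odd {n : ℕ} {S : Finset V} {G : SimpleGraph V}
    (hL : ∀ v ∈ S, PZ n (lk S G v) G) (h1 : ∀ j : ℤ, Zp S G j) (A : Finset V) (hA : A ⊆ S)
    (j : ℤ) (hj : ((n + 1 : ℕ) : ℤ) < 2 * j) : Zp A G j := by
  have key : ∀ B : Finset V, B ⊆ S → Zp (S \ B) G j := by
    intro B
    induction B using Finset.induction_on with
    | empty =>
      intro _
      rw [sdiff_empty]
      exact h1 j
    | insert v B hv ih =>
      intro hB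
      have hvS : v ∈ S := hB (mem_insert_self v B)
      have h2 : S \ insert v B = (S \ B).erase v := by
        ext x
        simp only [mem_sdiff, mem_insert, mem_erase]
        tauto
      rw [h2]
      apply z_del (mem_sdiff.2 ⟨hvS, hv⟩) (ih ((subset_insert v B).trans hB))
      apply (hL v hvS).2 _ (lk_mono' sdiff_subset G v)
      push_cast at hj
      omega
  have h3 := key (S \ A) sdiff_subset
  rwa [Finset.sdiff_sdiff_eq_self hA] at h3

/-- Part (2) in even degrees. -/
theorem pz_even {n : ℕ} {S : Finset V} {G : SimpleGraph V} (hn : Even n) (r : V → ℕ)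
    (hr : ∀ x ∈ S, ∀ y ∈ S, r x = r y → x = y) (m : V → ℕ) (hm : ∀ v ∈ S, m v < n)
    (B : V → Finset V) (hB : ∀ v ∈ S, PZ (m v) (B v) G)
    (h : ∀ v ∈ S, ∀ x ∈ S, G.Adj v x → r x < r v → x ∈ B v) (A : Finset V) (hA : A ⊆ S)
    (j : ℤ) (hj : (n : ℤ) < 2 * j) : Zp A G j := by
  obtain ⟨c, hc⟩ : ∃ c, A.card = c := ⟨_, rfl⟩
  induction c using Nat.strong_induction_on generalizing A with
  | _ c ih =>
    rcases A.eq_empty_or_nonempty with rfl | hne
    · apply z_empty
      rintro rfl
      omega
    · obtain ⟨v, hv, hmax⟩ := A.exists_max_image r hne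
      have hvS := hA hv
      apply z_add hv
      · exact ih (A.erase v).card (by rw [← hc]; exact card_erase_lt_of_mem hv) (A.erase v)
          ((erase_subset v A).trans hA) rfl
      · apply (hB v hvS).2
        · intro x hx
          rw [mem_lk] at hx
          have hxS := hA hx.1
          refine h v hvS x hxS hx.2 (lt_of_le_of_ne (hmax x hx.1) fun e => ?_)
          exact hx.2.ne (hr x hxS v hvS e).symm
        · have h3 := hm v hvS
          obtain ⟨k, hk⟩ := hn
          omega

theorem rz_z {n : ℕ} {S : Finset V} {G : SimpleGraph V} (h : Rz n S G) : PZ n S G := by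
  induction h with
  | small hn h => exact rd_z (gor_rd hn ((gor_iff _ _ _).2 h))
  | @even n S G hn hg r hr m hm B hB h ih =>
    have h2 := pz_even hn r hr m hm B ih h
    refine ⟨fun j hj => ?_, h2⟩
    rcases lt_or_gt_of_ne hj with h3 | h3
    · exact zp_dual ((gor_iff _ _ _).2 hg) (h2 S (Subset.refl S) _ (by omega))
    · exact h2 S (Subset.refl S) j h3
  | @join n S G hn hl m hm S₁ hS h₁ h ih1 ih2 =>
    have key : ∀ A : Finset V, A ⊆ S \ S₁ → ∀ j : ℤ, Zp (S₁ ∪ A) G j := by
      intro A
      obtain ⟨c, hc⟩ : ∃ c, A.card = c := ⟨_, rfl⟩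
      induction c using Nat.strong_induction_on generalizing A with
      | _ c ih =>
        intro hA j
        rcases A.eq_empty_or_nonempty with rfl | ⟨v, hv⟩
        · rw [union_empty]
          apply ih2.1
          obtain ⟨k, hk⟩ := hm
          omega
        · have hvS := mem_sdiff.1 (hA hv)
          apply z_add (mem_union_right S₁ hv)
          · have e : (S₁ ∪ A).erase v = S₁ ∪ A.erase v := by
              ext x
              simp only [mem_erase, mem_union]
              constructor
              · rintro ⟨h1, h2 | h2⟩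
                · exact Or.inl h2
                · exact Or.inr ⟨h1, h2⟩
              · rintro (h1 | ⟨h1, h2⟩)
                · exact ⟨fun e => hvS.2 (e ▸ h1), Or.inl h1⟩
                · exact ⟨h1, Or.inr h2⟩
            rw [e]
            exact ih (A.erase v).card (by rw [← hc]; exact card_erase_lt_of_mem hv) (A.erase v)
              rfl ((erase_subset v A).trans hA) j
          · have e : lk (S₁ ∪ A) G v = S₁ ∪ lk A G v := by
              ext x
              simp only [mem_lk, mem_union]
              constructor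
              · rintro ⟨h1 | h1, h2⟩
                · exact Or.inl h1
                · exact Or.inr ⟨h1, h2⟩
              · rintro (h1 | ⟨h1, h2⟩)
                · exact ⟨Or.inl h1, (h x h1 v hvS.1 hvS.2).symm⟩
                · exact ⟨Or.inr h1, h2⟩
            rw [e]
            have hlt : (lk A G v).card < c := by
              rw [← hc]
              refine card_lt_card ⟨fun x hx => (mem_lk.1 hx).1, fun h => ?_⟩
              exact (mem_lk.1 (h hv)).2.ne rfl
            exact ih (lk A G v).card hlt (lk A G v) rfl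
              ((fun x hx => hA (mem_lk.1 hx).1)) _
    have h1 : ∀ j : ℤ, Zp S G j := by
      intro j
      have h2 := key (S \ S₁) (Subset.refl _) j
      rwa [union_sdiff_of_subset hS] at h2
    exact ⟨fun j _ => h1 j, fun A hA j hj => pz_odd ih1 h1 A hA j hj⟩
  | @cont n S G hn hl s t hs ht hst hq hc h ih1 ih2 ih3 =>
    have h1 : ∀ j : ℤ, Zp S G j := by
      intro j
      obtain ⟨k, hk⟩ := hn
      apply z_cont hs ht hst hq
      · apply ih3.1
        omega
      · apply ih2.1
        omega
      · apply ih2.1
        omega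
    exact ⟨fun j _ => h1 j, fun A hA j hj => pz_odd (n := n + 1) ih1 h1 A hA j hj⟩

end SNG
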