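import Pool.Agent.SNG.Final
import Pool.Agent.SNG.Ind3

/-!
# Project SNG (architect helper40): final assembly for the class `Rz`
-/

namespace SNG

open Finset Module

section

variable {V : Type} [Fintype V] [DecidableEq V]

omit [Fintype V] [DecidableEq V] in
theorem ck_eq_lk (S : Finset V) (G : SimpleGraph V) (s t : V) :
    ck S G s t = lk (lk S G s) G t := by
  ext x
  rw [mem_ck, mem_lk, mem_lk, and_assoc]

/-- A pair of nonadjacent vertices is in the class in degree `1`. -/
theorem rz_pair {G : SimpleGraph V} {a b : V} (hab : a ≠ b) (hn : ¬ G.Adj a b) :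
    Rz 1 ({a, b} : Finset V) G := by
  refine Rz.small (by norm_num) ((gor_iff _ _ _).1 (rd_gor ?_))
  refine Rd.susp (n := 0) (fun v hv => ?_) a b (by simp) (by simp) hab hn (fun x hx h1 h2 => ?_)
  · have e : lk ({a, b} : Finset V) G v = ∅ := by
      rw [eq_empty_iff_forall_notMem]
      intro x hx
      rw [mem_lk, mem_insert, mem_singleton] at hx
      rw [mem_insert, mem_singleton] at hv
      rcases hx.1 with rfl | rfl <;> rcases hv with rfl | rfl
      · exact hx.2.ne rfl
      · exact hn hx.2.symm
      · exact hn hx.2
      · exact hx.2.ne rfl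
    rw [e]
    exact Rd.nil G
  · rw [mem_insert, mem_singleton] at hx
    rcases hx with rfl | rfl
    · exact absurd rfl h1
    · exact absurd rfl h2

theorem Red.rz {n : ℕ} : ∀ {S : Finset V} {G : SimpleGraph V}, Red n S G → Rz n S G := by
  induction n using Nat.strong_induction_on with
  | _ n ihn =>
    intro S
    obtain ⟨c, hc⟩ : ∃ c, S.card = c := ⟨_, rfl⟩
    induction c using Nat.strong_induction_on generalizing S with
    | _ c ihc =>
      intro G h
      rcases Nat.even_or_odd n with hev | hodd
      · by_cases h0 : n ≤ 4
        · exact Rz.small h0 ((gor_iff _ _ _).1 (rd_gor h.rd))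
        · refine Rz.even hev ((gor_iff _ _ _).1 (rd_gor h.rd)) (fun v => (Fintype.equivFin V v).val)
            (fun x _ y _ e => ?_) (fun _ => n - 1) (fun v _ => by omega) (fun v => lk S G v)
            (fun v hv => ?_) (fun v _ x hx hvx _ => mem_lk.2 ⟨hx, hvx⟩)
          · exact (Fintype.equivFin V).injective (Fin.ext e)
          · obtain ⟨m, hm, hr⟩ := h.lk_mem hv
            have e : n - 1 = m := by omega
            rw [e]
            exact ihn m (by omega) hr
      · cases h with
        | nil => exact absurd hodd (by decide)
        | @susp n _ _ hl a b ha hb hab hn h =>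
          refine Rz.join hodd (fun v hv => ihn n (Nat.lt_succ_self n) (hl v hv)) 1 odd_one {a, b}
            ?_ (rz_pair hab hn) ?_
          · intro x hx
            rw [mem_insert, mem_singleton] at hx
            rcases hx with rfl | rfl
            · exact ha
            · exact hb
          · intro x hx y hy hny
            rw [mem_insert, mem_singleton] at hx hny
            push Not at hny
            rcases hx with rfl | rfl
            · exact (h y hy hny.1 hny.2).1
            · exact (h y hy hny.1 hny.2).2
        | @cont n _ _ hl s t hs ht hst hq h =>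
          obtain ⟨m, rfl, hck⟩ := (hl s hs).lk_mem (mem_lk.2 ⟨ht, hst⟩)
          rw [← ck_eq_lk] at hck
          refine Rz.cont (n := m) ?_ (fun v hv => ihn (m + 1) (Nat.lt_succ_self _) (hl v hv)) s t hs
            ht hst hq (ihn m (by omega) hck) ?_
          · obtain ⟨k, hk⟩ := hodd
            exact ⟨k - 1, by omega⟩
          · exact ihc (S.erase t).card (by rw [← hc]; exact card_erase_lt_of_mem ht) rfl h

end

variable {V : Type} [Fintype V] [LinearOrder V]

theorem singer_rz (G : SimpleGraph V) (n : ℕ) (hr : Rz n univ G) (i : ℕ) (hi : 2 * i ≠ n)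
    (f : Finset V → W G → ℝ) (hf : Harm G (sm G) i f) (hs : ∀ T, Summable fun w => f T w ^ 2) :
    f = 0 :=
  singer_of_zp G i ((rz_z hr).1 i (by exact_mod_cast hi)) f hf hs

end SNG
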