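import Pool.Agent.SNG.DDefs
import Pool.Agent.SNG.Basic

/-!
# Project SNG (architect helper40), module HsEq: the elementary definition of homology spheres
-/

namespace SNG

open Finset Module

variable {V : Type} [Fintype V] [DecidableEq V]

private abbrev c1 (A : Finset V) (G : SimpleGraph V) (j : ℤ) :
    Submodule (ZMod 2) (Finset V → Unit → ZMod 2) := Ch A ∅ G (fun _ => (1 : Unit)) j

omit [Fintype V] in
private theorem c1_iff {A : Finset V} {G : SimpleGraph V} {i : ℕ} {f : Finset V → Unit → ZMod 2} :
    f ∈ c1 A G (i : ℤ) ↔ IsCh A G i fun T => f T () := by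
  constructor
  · intro h T hT
    by_contra hc
    refine hT ?_
    have h2 := h.1 T fun hh => hc ⟨hh.1, hh.2.1, by exact_mod_cast hh.2.2⟩
    exact congrFun h2 ()
  · intro h
    refine ⟨fun T hT => ?_, fun T s _ g => rfl⟩
    funext u
    by_contra hc
    have h2 := h T (by simpa using hc)
    exact hT ⟨h2.1, h2.2.1, by exact_mod_cast h2.2.2⟩

private theorem dd_eq (f : Finset V → Unit → ZMod 2) :
    dd (fun T => f T ()) = fun T => bd V Unit f T () := rfl

private theorem bd_iff {f : Finset V → Unit → ZMod 2} :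
    bd V Unit f = 0 ↔ dd (fun T => f T ()) = 0 := by
  rw [dd_eq]
  constructor
  · intro h
    funext T
    rw [h]
    rfl
  · intro h
    funext T u
    exact congrFun h T

private theorem im_iff {A : Finset V} {G : SimpleGraph V} {i : ℕ} {f : Finset V → Unit → ZMod 2} :
    f ∈ (c1 A G ((i : ℤ))).map (bd V Unit) ↔ IsBd A G i fun T => f T () := by
  rw [Submodule.mem_map]
  constructor
  · rintro ⟨y, hy, rfl⟩
    exact ⟨fun T => y T (), c1_iff.1 hy, rfl⟩
  · rintro ⟨y, hy, h⟩
    refine ⟨fun T _ => y T, c1_iff.2 hy, ?_⟩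
    funext T u
    exact congrFun h T

private theorem im_le {A : Finset V} {G : SimpleGraph V} (j : ℤ) :
    (c1 A G (j + 1)).map (bd V Unit) ≤ c1 A G j ⊓ LinearMap.ker (bd V Unit) := by
  rintro x ⟨y, hy, rfl⟩
  refine ⟨?_, LinearMap.mem_ker.2 (bd_bd y)⟩
  exact bd_mem hy

private theorem zm2 (c : ZMod 2) : c = 0 ∨ c = 1 := by
  revert c
  decide

omit [Fintype V] [DecidableEq V] in
private theorem two0 (x : Finset V → Unit → ZMod 2) : x + x = 0 := by
  funext T u
  simp only [Pi.add_apply, Pi.zero_apply]
  generalize x T u = a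
  revert a
  decide

theorem sph_iff (n : ℕ) (A : Finset V) (G : SimpleGraph V) : Sph n A G ↔ HSph n A G := by
  constructor
  · intro h
    refine ⟨fun i hi x hx hd => ?_, ?_⟩
    · have h1 := h (i : ℤ)
      rw [if_neg (by exact_mod_cast hi)] at h1
      have h2 := Submodule.eq_of_le_of_finrank_le (im_le (A := A) (G := G) (i : ℤ))
        (Nat.sub_eq_zero_iff_le.1 h1)
      have h3 : (fun T _ => x T : Finset V → Unit → ZMod 2) ∈
          c1 A G (i : ℤ) ⊓ LinearMap.ker (bd V Unit) :=
        ⟨c1_iff.2 hx, LinearMap.mem_ker.2 (bd_iff.2 hd)⟩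
      rw [← h2] at h3
      exact im_iff (i := i + 1).1 (by exact_mod_cast h3)
    · have h1 := h (n : ℤ)
      rw [if_pos rfl] at h1
      have hle := im_le (A := A) (G := G) (n : ℤ)
      have h1' : finrank (ZMod 2) ↥(c1 A G (n : ℤ) ⊓ LinearMap.ker (bd V Unit)) =
          finrank (ZMod 2) ↥((c1 A G ((n : ℤ) + 1)).map (bd V Unit)) + 1 := by
        have h5 : finrank (ZMod 2) ↥(c1 A G (n : ℤ) ⊓ LinearMap.ker (bd V Unit)) -
          finrank (ZMod 2) ↥((c1 A G ((n : ℤ) + 1)).map (bd V Unit)) = 1 := h1
        omega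
      have hnle : ¬ c1 A G (n : ℤ) ⊓ LinearMap.ker (bd V Unit) ≤
          (c1 A G ((n : ℤ) + 1)).map (bd V Unit) := by
        intro hc
        have h2 := Submodule.finrank_mono hc
        omega
      obtain ⟨z, hz', hzn'⟩ := SetLike.not_le_iff_exists.1 hnle
      refine ⟨fun T => z T (), c1_iff.1 hz'.1, bd_iff.1 (LinearMap.mem_ker.1 hz'.2),
        fun hc => hzn' ?_, fun x hx hd => ?_⟩
      · have h6 := im_iff (i := n + 1).2 hc
        exact_mod_cast h6
      · have hlt : (c1 A G ((n : ℤ) + 1)).map (bd V Unit) <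
            (c1 A G ((n : ℤ) + 1)).map (bd V Unit) ⊔ Submodule.span (ZMod 2) {z} := by
          refine lt_of_le_of_ne le_sup_left fun he => hzn' ?_
          rw [he]
          exact Submodule.mem_sup_right (Submodule.mem_span_singleton_self z)
        have h2 := Submodule.finrank_lt_finrank_of_lt hlt
        have h3 : (c1 A G ((n : ℤ) + 1)).map (bd V Unit) ⊔ Submodule.span (ZMod 2) {z} =
            c1 A G (n : ℤ) ⊓ LinearMap.ker (bd V Unit) := by
          refine Submodule.eq_of_le_of_finrank_le (sup_le hle ?_) (by omega)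
          rw [Submodule.span_singleton_le_iff_mem]
          exact hz'
        have h4 : (fun T _ => x T : Finset V → Unit → ZMod 2) ∈
            c1 A G (n : ℤ) ⊓ LinearMap.ker (bd V Unit) :=
          ⟨c1_iff.2 hx, LinearMap.mem_ker.2 (bd_iff.2 hd)⟩
        rw [← h3, Submodule.mem_sup] at h4
        obtain ⟨b, hb, w, hw, hbw⟩ := h4
        obtain ⟨c, rfl⟩ := Submodule.mem_span_singleton.1 hw
        rcases zm2 c with rfl | rfl
        · left
          rw [zero_smul, add_zero] at hbw
          rw [hbw] at hb
          exact im_iff (i := n + 1).1 (by exact_mod_cast hb)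
        · right
          rw [one_smul] at hbw
          have h7 : (fun T _ => x T : Finset V → Unit → ZMod 2) + z = b := by
            rw [← hbw, add_assoc, two0, add_zero]
          rw [← h7] at hb
          have h8 := im_iff (i := n + 1).1 (by exact_mod_cast hb)
          exact h8
  · rintro ⟨h1, z, hz, hdz, hzn, h2⟩ j
    by_cases hj : j < 0
    · have e : c1 A G j = ⊥ := by
        rw [eq_bot_iff]
        intro f hf
        rw [Submodule.mem_bot]
        funext T
        refine hf.1 T fun h => ?_
        have := h.2.2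
        omega
      rw [if_neg (by omega)]
      have e2 : bt A ∅ G (fun _ => (1 : Unit)) j =
        finrank (ZMod 2) ↥(c1 A G j ⊓ LinearMap.ker (bd V Unit)) -
          finrank (ZMod 2) ↥((c1 A G (j + 1)).map (bd V Unit)) := rfl
      rw [e2, e, bot_inf_eq, finrank_bot, Nat.zero_sub]
    · obtain ⟨i, rfl⟩ : ∃ i : ℕ, j = i := ⟨j.toNat, by omega⟩
      have e2 : bt A ∅ G (fun _ => (1 : Unit)) (i : ℤ) =
        finrank (ZMod 2) ↥(c1 A G (i : ℤ) ⊓ LinearMap.ker (bd V Unit)) -
          finrank (ZMod 2) ↥((c1 A G ((i : ℤ) + 1)).map (bd V Unit)) := rfl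
      rw [e2]
      by_cases hi : i = n
      · subst hi
        rw [if_pos rfl]
        have hz0 : (fun T _ => z T : Finset V → Unit → ZMod 2) ∈
            c1 A G (i : ℤ) ⊓ LinearMap.ker (bd V Unit) :=
          ⟨c1_iff.2 hz, LinearMap.mem_ker.2 (bd_iff.2 hdz)⟩
        have hzn' : (fun T _ => z T : Finset V → Unit → ZMod 2) ∉
            (c1 A G ((i : ℤ) + 1)).map (bd V Unit) := fun hc =>
          hzn (im_iff (i := i + 1).1 (by exact_mod_cast hc))
        generalize hB : (c1 A G ((i : ℤ) + 1)).map (bd V Unit) = B at hzn' ⊢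
        generalize hZ : (fun T _ => z T : Finset V → Unit → ZMod 2) = zz at hz0 hzn'
        have h3 : c1 A G (i : ℤ) ⊓ LinearMap.ker (bd V Unit) =
            B ⊔ Submodule.span (ZMod 2) {zz} := by
          refine le_antisymm (fun x hx => ?_) (sup_le ?_ ?_)
          · have h5 := h2 (fun T => x T ()) (c1_iff.1 hx.1) (bd_iff.1 (LinearMap.mem_ker.1 hx.2))
            rcases h5 with h5 | h5
            · have h6 : x ∈ (c1 A G (((i + 1 : ℕ) : ℤ))).map (bd V Unit) := im_iff.2 h5
              push_cast at h6
              rw [hB] at h6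
              exact Submodule.mem_sup_left h6
            · have h6 : x + zz ∈ (c1 A G (((i + 1 : ℕ) : ℤ))).map (bd V Unit) := by
                rw [← hZ]
                exact im_iff.2 h5
              push_cast at h6
              rw [hB] at h6
              have h7 : x = (x + zz) + zz := by rw [add_assoc, two0, add_zero]
              rw [h7]
              exact Submodule.add_mem_sup h6 (Submodule.mem_span_singleton_self zz)
          · rw [← hB]
            exact im_le (i : ℤ)
          · rw [Submodule.span_singleton_le_iff_mem]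
            exact hz0
        have hne : zz ≠ 0 := fun h => hzn' (h ▸ B.zero_mem)
        have h4 : B ⊓ Submodule.span (ZMod 2) {zz} = ⊥ := by
          rw [eq_bot_iff]
          rintro x ⟨hx1, hx2⟩
          obtain ⟨c, rfl⟩ := Submodule.mem_span_singleton.1 hx2
          rcases zm2 c with rfl | rfl
          · rw [zero_smul]
            exact Submodule.zero_mem _
          · rw [one_smul] at hx1
            exact absurd hx1 hzn'
        have h5 := Submodule.finrank_sup_add_finrank_inf_eq B (Submodule.span (ZMod 2) {zz})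
        rw [h4, finrank_bot, add_zero, finrank_span_singleton hne] at h5
        rw [h3, h5]
        omega
      · rw [if_neg (by exact_mod_cast hi), Nat.sub_eq_zero_iff_le]
        apply Submodule.finrank_mono
        intro x hx
        have h3 := h1 i hi (fun T => x T ()) (c1_iff.1 hx.1) (bd_iff.1 (LinearMap.mem_ker.1 hx.2))
        have h4 := im_iff (i := i + 1).2 h3
        exact_mod_cast h4

theorem gor_iff (n : ℕ) (S : Finset V) (G : SimpleGraph V) : Gor n S G ↔ HGor n S G := by
  constructor
  · intro h T hT hc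
    obtain ⟨m, hm, hs⟩ := h T hT hc
    exact ⟨m, hm, (sph_iff m _ G).1 hs⟩
  · intro h T hT hc
    obtain ⟨m, hm, hs⟩ := h T hT hc
    exact ⟨m, hm, (sph_iff m _ G).2 hs⟩

end SNG
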