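import Pool.Agent.SNG.Susp
import Pool.Agent.SNG.RedImage
import Pool.Agent.SNG.Zcalc
import Pool.Agent.SNG.ZCont

/-!
# Project SNG (architect helper40), module Ind: the induction

Claim `P(n, S, G)` for `Red n S G`: (1) `Zp S G j` for all `j` with `2 j ≠ n`;
(2) `Zp A G j` for all `A ⊆ S` and `j` with `n < 2 j`.

Strong induction on `n`, and for fixed `n` induction on `|S|`.
First a remark (`Red.lk_mem`): if `Red m B G` and `v ∈ B` then `m = m' + 1` and `Red m' (lk B G v) G`.

`n = 0`: `S = ∅`: `z_empty`.

`n + 1 = N`.  All links `lk S G v`, `v ∈ S`, satisfy `Red n`, so `P(n, lk S G v, G)`.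
In the case `cont`: `ck S G s t = lk (lk S G s) G t` and `t ∈ lk S G s`, so (remark) `n = n' + 1`,
`N = n' + 2` and `Red n' ck G`, so `P(n', ck, G)`.

`N` odd:
 (1) for all `j`: `susp`: `susp_zp`.  `cont`: `z_cont` with (1) for `(S.erase t, contract G s t)`
   (fewer vertices) and (1) for `ck` (`n' = N - 2` is odd, so no condition on `j`).
 (2) by (1) and `z_del`, deleting the vertices of `S \ A` one after the other: for `A ⊆ A' ⊆ S` and
   `v ∈ A' \ A`, `lk A' G v ⊆ lk S G v`, so `Zp (lk A' G v) G j` by (2) for `lk S G v` (`n < N < 2 j`).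
`N` even:
 (2) by `z_add`, starting from `∅` (`z_empty`, `j > 0`), adding one vertex at a time:
   `lk A G v ⊆ lk S G v` and `n < 2 (j - 1)` because `2 j > N` gives `2 j ≥ N + 2 = n + 3`.
 (1) for `2 j > N`: (2) with `A = S`.  For `2 j < N`: `susp`: `susp_zp`; `cont`: `z_cont` with (1) for
   `(S.erase t, contract G s t)`, (1) for `ck` in degrees `j - 1`: `2 (j - 1) ≠ n' = N - 2`, and
   `j - 2`: `2 (j - 2) ≠ N - 2` because `2 j < N`.
-/

namespace SNG

open Finset

variable {V : Type} [Fintype V] [DecidableEq V]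

/-- The claim. -/
private def PP (n : ℕ) (S : Finset V) (G : SimpleGraph V) : Prop :=
  (∀ j : ℤ, 2 * j ≠ n → Zp S G j) ∧ ∀ A ⊆ S, ∀ j : ℤ, (n : ℤ) < 2 * j → Zp A G j

omit [Fintype V] [DecidableEq V] in
private theorem lk_mono {A S : Finset V} (h : A ⊆ S) (G : SimpleGraph V) (v : V) :
    lk A G v ⊆ lk S G v := by
  intro x hx
  rw [mem_lk] at hx ⊢
  exact ⟨h hx.1, hx.2⟩

omit [Fintype V] [DecidableEq V] in
private theorem ck_eq (S : Finset V) (G : SimpleGraph V) (s t : V) :
    ck S G s t = lk (lk S G s) G t := by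
  ext x
  rw [mem_ck, mem_lk, mem_lk, and_assoc]

/-- Part (2) for even dimensions. -/
private theorem part_even {n : ℕ} {S : Finset V} {G : SimpleGraph V}
    (hL : ∀ v ∈ S, PP n (lk S G v) G) (hev : Even (n + 1)) (A : Finset V) (hA : A ⊆ S) (j : ℤ)
    (hj : ((n + 1 : ℕ) : ℤ) < 2 * j) : Zp A G j := by
  induction A using Finset.induction_on with
  | empty =>
    apply z_empty
    rintro rfl
    push_cast at hj
    omega
  | insert v A hv ih =>
    have hvS : v ∈ S := hA (mem_insert_self v A)
    apply z_add (mem_insert_self v A)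
    · rw [erase_insert hv]
      exact ih ((subset_insert v A).trans hA)
    · apply (hL v hvS).2 _ (lk_mono hA G v)
      obtain ⟨r, hr⟩ := hev
      omega

/-- Part (2) for odd dimensions. -/
private theorem part_odd {n : ℕ} {S : Finset V} {G : SimpleGraph V}
    (hL : ∀ v ∈ S, PP n (lk S G v) G) (h1 : ∀ j : ℤ, Zp S G j) (A : Finset V) (hA : A ⊆ S)
    (j : ℤ) (hj : ((n + 1 : ℕ) : ℤ) < 2 * j) : Zp A G j := by
  have key : ∀ B : Finset V, B ⊆ S → Zp (S \ B) G j := by
    intro B
    induction B using Finset.induction_on with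
    | empty =>
      intro _
      rw [sdiff_empty]
      exact h1 j
    | insert v B hv ih =>
      intro hB
      have hvS : v ∈ S := hB (mem_insert_self v B)
      have h2 : S \ insert v B = (S \ B).erase v := by
        ext x
        simp only [mem_sdiff, mem_insert, mem_erase]
        tauto
      rw [h2]
      apply z_del (mem_sdiff.2 ⟨hvS, hv⟩) (ih ((subset_insert v B).trans hB))
      apply (hL v hvS).2 _ (lk_mono sdiff_subset G v)
      omega
  have h3 := key (S \ A) sdiff_subset
  rwa [Finset.sdiff_sdiff_eq_self hA] at h3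

private theorem step {n : ℕ} {S : Finset V} {G : SimpleGraph V}
    (hL : ∀ v ∈ S, PP n (lk S G v) G)
    (h1 : ∀ j : ℤ, 2 * j ≠ ((n + 1 : ℕ) : ℤ) → (Even (n + 1) → 2 * j < ((n + 1 : ℕ) : ℤ)) →
      Zp S G j) : PP (n + 1) S G := by
  rcases Nat.even_or_odd (n + 1) with hev | hodd
  · refine ⟨fun j hj => ?_, fun A hA j hj => part_even hL hev A hA j hj⟩
    rcases lt_or_gt_of_ne hj with h2 | h2
    · exact h1 j hj fun _ => h2
    · exact part_even hL hev S (Subset.refl S) j h2
  · have h3 : ∀ j : ℤ, Zp S G j := fun j => h1 j (by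
      obtain ⟨r, hr⟩ := hodd
      omega) (fun hev => absurd hev (Nat.not_even_iff_odd.2 hodd))
    exact ⟨fun j _ => h3 j, fun A hA j hj => part_odd hL h3 A hA j hj⟩

private theorem main (n : ℕ) : ∀ (S : Finset V) (G : SimpleGraph V), Red n S G → PP n S G := by
  induction n using Nat.strong_induction_on with
  | _ n ihn =>
    intro S
    obtain ⟨c, hc⟩ : ∃ c, S.card = c := ⟨_, rfl⟩
    induction c using Nat.strong_induction_on generalizing S with
    | _ c ihc =>
      intro G h
      cases h with
      | nil =>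
        refine ⟨fun j hj => z_empty G ?_, fun A hA j hj => ?_⟩
        · rintro rfl
          exact hj (by simp)
        · rw [subset_empty.1 hA]
          apply z_empty
          rintro rfl
          simp at hj
      | @susp n _ _ hl a b ha hb hab hn h =>
        refine step (fun v hv => ihn n (Nat.lt_succ_self n) _ _ (hl v hv)) fun j _ _ => ?_
        exact susp_zp ha hb hab hn h j
      | @cont n _ _ hl s t hs ht hst hq h =>
        refine step (fun v hv => ihn n (Nat.lt_succ_self n) _ _ (hl v hv)) fun j hj hev => ?_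
        have htl : t ∈ lk S G s := mem_lk.2 ⟨ht, hst⟩
        obtain ⟨m, hm, hred⟩ := (hl s hs).lk_mem htl
        rw [← ck_eq] at hred
        have hck := ihn m (by omega) _ _ hred
        have hcon := ihc (S.erase t).card (by
          rw [← hc]
          exact card_erase_lt_of_mem ht) (S.erase t) rfl _ h
        apply z_cont hs ht hst hq
        · exact hcon.1 j hj
        · apply hck.1
          omega
        · apply hck.1
          rcases Nat.even_or_odd (n + 1) with he | ho
          · have := hev he
            omega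
          · obtain ⟨r, hr⟩ := ho
            omega

theorem red_z {n : ℕ} {S : Finset V} {G : SimpleGraph V} (h : Red n S G) :
    (∀ j : ℤ, 2 * j ≠ n → Zp S G j) ∧ ∀ A ⊆ S, ∀ j : ℤ, (n : ℤ) < 2 * j → Zp A G j :=
  main n S G h

end SNG
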