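import Pool.Agent.SNG.Defs

/-!
# Project SNG (architect helper40): operators on finitely supported functions (definitions)
-/

namespace SNG

open Finset

variable {W X I J : Type} [Group W] [Group X] [Fintype I] [Fintype J]

/-- The operator `op φ A` on finitely supported functions:
`δ_(i, x) ↦ ∑_j ∑_u A_ji(u) δ_(j, x φ(u)⁻¹)`. -/
noncomputable def dO (φ : W →* X) (A : J → I → W →₀ ℤ) : (I × X →₀ ℝ) →ₗ[ℝ] (J × X →₀ ℝ) :=
  Finsupp.linearCombination ℝ fun q : I × X =>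
    ∑ j, (A j q.1).sum fun u c => Finsupp.single (j, q.2 * (φ u)⁻¹) (c : ℝ)

/-- Its adjoint `δ_(j, y) ↦ ∑_i ∑_u A_ji(u) δ_(i, y φ(u))`. -/
noncomputable def dT (φ : W →* X) (A : J → I → W →₀ ℤ) : (J × X →₀ ℝ) →ₗ[ℝ] (I × X →₀ ℝ) :=
  Finsupp.linearCombination ℝ fun q : J × X =>
    ∑ i, (A q.1 i).sum fun u c => Finsupp.single (i, q.2 * φ u) (c : ℝ)

/-- The operator `1 - D* D / K`. -/
noncomputable def tO (K : ℝ) (φ : W →* X) (A : J → I → W →₀ ℤ) : Module.End ℝ (I × X →₀ ℝ) :=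
  1 - (1 / K) • (dT φ A ∘ₗ dO φ A)

/-- The pairing of functions and finitely supported functions. -/
noncomputable def pr (f : I → X → ℝ) (g : I × X →₀ ℝ) : ℝ := g.sum fun q c => c * f q.1 q.2

/-- The von Neumann trace of `(1 - D* D / K) ^ (2 M)`. -/
noncomputable def tau (K : ℝ) (A : J → I → W →₀ ℤ) (M : ℕ) : ℝ :=
  ∑ i, ((tO K (MonoidHom.id W) A) ^ (2 * M)) (Finsupp.single (i, 1) 1) (i, 1)

end SNG
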