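import Pool.Agent.SNG.LuckDefs
import Pool.Agent.SNG.Eig

/-!
# Project SNG (architect helper40), module LuckFin: finite quotients

Let `X` be a finite group, `φ : W → X`.  Let `B` be the integer matrix with rows `J × X`, columns
`I × X`, `B (j, x) (i, y) = ∑_{u, x φ(u) = y} A_ji(u)` (so `B` is the matrix of `op φ A`).
* `opKer φ A` is isomorphic to the kernel of `B` over `ℝ` (currying).
* `hK` of `trace_le`: `|B f|² ≤ κ² |f|²` with `κ = ∑_j κ_j`, `κ_j = ∑_i ∑_u |A_ji(u)|`: by
  Cauchy-Schwarz `(B f)(j, x)² = (∑_{i,u} A_ji(u) f_i(x φ(u)))² ≤ κ_j ∑_{i,u} |A_ji(u)| f_i(x φ(u))²`,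
  and `∑_x f_i(x φ(u))² = |f_i|² ≤ |f|²`, so `|B f|² ≤ ∑_j κ_j² |f|² ≤ κ² |f|²`.
* So `trace_le` gives: `trace ((1 - BᵀB / K) ^ (2 M)) ≤ dim opKer + |I| |X| (...)`.
* The matrix of `tO K φ A` (with `I × X →₀ ℝ` identified with functions on `I × X`) is
  `1 - BᵀB / K`, so the trace is `∑_(i, x) ((tO K φ A) ^ (2 M) δ_(i, x)) (i, x)`.
* Left translations `L_g : δ_(i, x) ↦ δ_(i, g x)` commute with `dO`, `dT`, `tO`; so the summand does
  not depend on `x`: the trace is `|X| ∑_i ((tO K φ A) ^ (2 M) δ_(i, 1)) (i, 1)`.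
* Naturality: `φ_* = Finsupp.mapDomain (fun (i, w) => (i, φ w))` satisfies
  `dO φ A ∘ φ_* = φ_* ∘ dO id A`, the same for `dT`, `tO`.  So
  `(tO K φ A) ^ (2 M) δ_(i, 1) = φ_* g_i`, `g_i = (tO K id A) ^ (2 M) δ_(i, 1)`, and its value at
  `(i, 1)` is `∑_{w, φ w = 1} g_i (i, w)`.
* `F = ` all `w ≠ 1` such that `(i, w)` is in the support of `g_i` for some `i`.  If `φ w ≠ 1` for all
  `w ∈ F` the value is `g_i (i, 1)`, so the trace is `|X| tau K A M`.
-/

namespace SNG

open Finset Module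

variable {W I J : Type} [Group W] [Fintype I] [Fintype J]

/-! ### evaluation -/

section eval

variable {X : Type} [Group X]

omit [Fintype I] in
open Classical in
theorem dO_single (φ : W →* X) (A : J → I → W →₀ ℤ) (q : I × X) (a : ℝ) (p : J × X) :
    dO φ A (Finsupp.single q a) p =
      a * (A p.1 q.1).sum fun u c => if p.2 * φ u = q.2 then (c : ℝ) else 0 := by
  unfold dO
  rw [Finsupp.linearCombination_single, Finsupp.smul_apply, smul_eq_mul]
  congr 1
  rw [Finsupp.finsetSum_apply, Finset.sum_eq_single p.1]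
  · rw [Finsupp.sum_apply]
    refine Finsupp.sum_congr fun u _ => ?_
    rw [Finsupp.single_apply]
    refine if_congr ?_ rfl rfl
    constructor
    · intro h
      rw [← h]
      simp
    · intro h
      rw [← h]
      simp
  · intro j _ hj
    rw [Finsupp.sum_apply]
    refine Finset.sum_eq_zero fun u _ => ?_
    beta_reduce
    rw [Finsupp.single_apply, if_neg]
    intro h
    exact hj (congrArg Prod.fst h)
  · intro h
    exact absurd (Finset.mem_univ _) h

omit [Fintype J] in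
open Classical in
theorem dT_single (φ : W →* X) (A : J → I → W →₀ ℤ) (p : J × X) (a : ℝ) (q : I × X) :
    dT φ A (Finsupp.single p a) q =
      a * (A p.1 q.1).sum fun u c => if p.2 * φ u = q.2 then (c : ℝ) else 0 := by
  unfold dT
  rw [Finsupp.linearCombination_single, Finsupp.smul_apply, smul_eq_mul]
  congr 1
  rw [Finsupp.finsetSum_apply, Finset.sum_eq_single q.1]
  · rw [Finsupp.sum_apply]
    refine Finsupp.sum_congr fun u _ => ?_
    rw [Finsupp.single_apply]
    refine if_congr ?_ rfl rfl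
    constructor
    · intro h
      rw [← h]
    · intro h
      rw [h]
  · intro j _ hj
    rw [Finsupp.sum_apply]
    refine Finset.sum_eq_zero fun u _ => ?_
    beta_reduce
    rw [Finsupp.single_apply, if_neg]
    intro h
    exact hj (congrArg Prod.fst h)
  · intro h
    exact absurd (Finset.mem_univ _) h

end eval

/-! ### naturality -/

section nat

variable {X Y : Type} [Group X] [Group Y]

/-- push forward -/
noncomputable def pm {I X Y : Type} (ψ : X → Y) : (I × X →₀ ℝ) →ₗ[ℝ] (I × Y →₀ ℝ) :=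
  Finsupp.lmapDomain ℝ ℝ fun q => (q.1, ψ q.2)

theorem pm_single {I X Y : Type} (ψ : X → Y) (q : I × X) (a : ℝ) :
    pm ψ (Finsupp.single q a) = Finsupp.single (q.1, ψ q.2) a := by
  unfold pm
  rw [Finsupp.lmapDomain_apply, Finsupp.mapDomain_single]

omit [Fintype I] in
theorem pm_dO (φ : W →* X) (φ' : W →* Y) (ψ : X → Y) (h : ∀ x u, ψ (x * φ u) = ψ x * φ' u)
    (A : J → I → W →₀ ℤ) (g : I × X →₀ ℝ) : pm ψ (dO φ A g) = dO φ' A (pm ψ g) := by
  have h' : ∀ x u, ψ (x * (φ u)⁻¹) = ψ x * (φ' u)⁻¹ := by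
    intro x u
    rw [← map_inv, ← map_inv, h]
  induction g using Finsupp.induction_linear with
  | zero => simp
  | add f g hf hg => rw [map_add, map_add, hf, hg, map_add, map_add]
  | single q a =>
    rw [pm_single]
    unfold dO
    rw [Finsupp.linearCombination_single, Finsupp.linearCombination_single, map_smul]
    congr 1
    rw [map_sum]
    refine Finset.sum_congr rfl fun j _ => ?_
    rw [Finsupp.sum, map_sum]
    refine Finset.sum_congr rfl fun u _ => ?_
    rw [pm_single, h']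

omit [Fintype J] in
theorem pm_dT (φ : W →* X) (φ' : W →* Y) (ψ : X → Y) (h : ∀ x u, ψ (x * φ u) = ψ x * φ' u)
    (A : J → I → W →₀ ℤ) (g : J × X →₀ ℝ) : pm ψ (dT φ A g) = dT φ' A (pm ψ g) := by
  induction g using Finsupp.induction_linear with
  | zero => simp
  | add f g hf hg => rw [map_add, map_add, hf, hg, map_add, map_add]
  | single q a =>
    rw [pm_single]
    unfold dT
    rw [Finsupp.linearCombination_single, Finsupp.linearCombination_single, map_smul]
    congr 1
    rw [map_sum]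
    refine Finset.sum_congr rfl fun j _ => ?_
    rw [Finsupp.sum, map_sum]
    refine Finset.sum_congr rfl fun u _ => ?_
    rw [pm_single, h]

theorem tO_apply {X : Type} [Group X] (K : ℝ) (φ : W →* X) (A : J → I → W →₀ ℤ)
    (g : I × X →₀ ℝ) : tO K φ A g = g - (1 / K) • dT φ A (dO φ A g) := rfl

theorem pm_tO (K : ℝ) (φ : W →* X) (φ' : W →* Y) (ψ : X → Y)
    (h : ∀ x u, ψ (x * φ u) = ψ x * φ' u) (A : J → I → W →₀ ℤ) (g : I × X →₀ ℝ) :
    pm ψ (tO K φ A g) = tO K φ' A (pm ψ g) := by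
  rw [tO_apply, tO_apply, map_sub, map_smul, pm_dT φ φ' ψ h, pm_dO φ φ' ψ h]

theorem pm_tO_pow (K : ℝ) (φ : W →* X) (φ' : W →* Y) (ψ : X → Y)
    (h : ∀ x u, ψ (x * φ u) = ψ x * φ' u) (A : J → I → W →₀ ℤ) (n : ℕ) (g : I × X →₀ ℝ) :
    pm ψ ((tO K φ A ^ n) g) = (tO K φ' A ^ n) (pm ψ g) := by
  induction n generalizing g with
  | zero => simp
  | succ n ih =>
    rw [pow_succ, pow_succ, Module.End.mul_apply, Module.End.mul_apply, ih, pm_tO K φ φ' ψ h]

end nat

/-! ### the matrix -/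

section fin

variable {X : Type} [Group X]

open Classical in
/-- the integer matrix -/
noncomputable def mB (φ : W →* X) (A : J → I → W →₀ ℤ) : Matrix (J × X) (I × X) ℤ :=
  fun p q => (A p.1 q.1).sum fun u c => if p.2 * φ u = q.2 then c else 0

/-- the real matrix -/
noncomputable def mR (φ : W →* X) (A : J → I → W →₀ ℤ) : Matrix (J × X) (I × X) ℝ :=
  (mB φ A).map (Int.cast : ℤ → ℝ)

omit [Fintype I] [Fintype J] in
open Classical in
theorem mR_apply (φ : W →* X) (A : J → I → W →₀ ℤ) (p : J × X) (q : I × X) :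
    mR φ A p q = (A p.1 q.1).sum fun u c => if p.2 * φ u = q.2 then (c : ℝ) else 0 := by
  unfold mR mB
  rw [Matrix.map_apply, Finsupp.sum, Finsupp.sum, Int.cast_sum]
  refine Finset.sum_congr rfl fun u _ => ?_
  split_ifs
  · rfl
  · exact Int.cast_zero

variable [Fintype X]

theorem dO_mat (φ : W →* X) (A : J → I → W →₀ ℤ) (g : I × X →₀ ℝ) :
    (⇑(dO φ A g) : J × X → ℝ) = (mR φ A).mulVec ⇑g := by
  classical
  induction g using Finsupp.induction_linear with
  | zero => simp
  | add f g hf hg => rw [map_add, Finsupp.coe_add, Finsupp.coe_add, Matrix.mulVec_add, hf, hg]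
  | single q a =>
    funext p
    rw [dO_single, Matrix.mulVec, dotProduct, Finset.sum_eq_single q]
    · rw [Finsupp.single_eq_same, mR_apply, mul_comm]
    · intro b _ hb
      rw [Finsupp.single_eq_of_ne hb, mul_zero]
    · intro h
      exact absurd (Finset.mem_univ _) h

theorem dT_mat (φ : W →* X) (A : J → I → W →₀ ℤ) (g : J × X →₀ ℝ) :
    (⇑(dT φ A g) : I × X → ℝ) = (mR φ A).transpose.mulVec ⇑g := by
  classical
  induction g using Finsupp.induction_linear with
  | zero => simp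
  | add f g hf hg => rw [map_add, Finsupp.coe_add, Finsupp.coe_add, Matrix.mulVec_add, hf, hg]
  | single p a =>
    funext q
    rw [dT_single, Matrix.mulVec, dotProduct, Finset.sum_eq_single p]
    · rw [Finsupp.single_eq_same, Matrix.transpose_apply, mR_apply, mul_comm]
    · intro b _ hb
      rw [Finsupp.single_eq_of_ne hb, mul_zero]
    · intro h
      exact absurd (Finset.mem_univ _) h

open Classical in
theorem tO_mat (K : ℝ) (φ : W →* X) (A : J → I → W →₀ ℤ) (g : I × X →₀ ℝ) :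
    (⇑(tO K φ A g) : I × X → ℝ) =
      (1 - (1 / K) • ((mR φ A).transpose * mR φ A)).mulVec ⇑g := by
  rw [tO_apply, Finsupp.coe_sub, Finsupp.coe_smul, dT_mat, dO_mat, Matrix.sub_mulVec,
    Matrix.one_mulVec, Matrix.smul_mulVec, Matrix.mulVec_mulVec]

open Classical in
theorem tO_pow_mat (K : ℝ) (φ : W →* X) (A : J → I → W →₀ ℤ) (n : ℕ) (g : I × X →₀ ℝ) :
    (⇑((tO K φ A ^ n) g) : I × X → ℝ) =
      ((1 - (1 / K) • ((mR φ A).transpose * mR φ A)) ^ n).mulVec ⇑g := by
  induction n generalizing g with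
  | zero => simp
  | succ n ih =>
    rw [pow_succ, pow_succ, Module.End.mul_apply, ih, tO_mat, Matrix.mulVec_mulVec]

open Classical in
theorem trace_eq (K : ℝ) (φ : W →* X) (A : J → I → W →₀ ℤ) (n : ℕ) :
    Matrix.trace ((1 - (1 / K) • ((mR φ A).transpose * mR φ A)) ^ n) =
      ∑ q : I × X, ((tO K φ A ^ n) (Finsupp.single q 1)) q := by
  rw [Matrix.trace]
  refine Finset.sum_congr rfl fun q _ => ?_
  rw [tO_pow_mat, Matrix.diag_apply, Matrix.mulVec, dotProduct, Finset.sum_eq_single q]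
  · rw [Finsupp.single_eq_same, mul_one]
  · intro b _ hb
    rw [Finsupp.single_eq_of_ne hb, mul_zero]
  · intro h
    exact absurd (Finset.mem_univ _) h

omit [Fintype X] in
theorem trans_inv (K : ℝ) (φ : W →* X) (A : J → I → W →₀ ℤ) (n : ℕ) (i : I) (x : X) :
    ((tO K φ A ^ n) (Finsupp.single (i, x) 1)) (i, x) =
      ((tO K φ A ^ n) (Finsupp.single (i, 1) 1)) (i, 1) := by
  have h1 := pm_tO_pow K φ φ (fun y => x * y) (fun y u => by rw [mul_assoc]) A n
    (Finsupp.single (i, 1) 1)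
  rw [pm_single] at h1
  simp only [mul_one] at h1
  rw [← h1]
  unfold pm
  rw [Finsupp.lmapDomain_apply]
  have hinj : Function.Injective fun q : I × X => (q.1, x * q.2) := by
    rintro ⟨a, b⟩ ⟨c, d⟩ h
    rw [Prod.mk.injEq] at h ⊢
    exact ⟨h.1, mul_left_cancel h.2⟩
  have h2 := Finsupp.mapDomain_apply hinj ((tO K φ A ^ n) (Finsupp.single (i, 1) 1)) (i, 1)
  simp only [mul_one] at h2
  exact h2

omit [Fintype J] in
theorem mulVec_op (φ : W →* X) (A : J → I → W →₀ ℤ) (f : I × X → ℝ) (j : J) (x : X) :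
    (mR φ A).mulVec f (j, x) = op φ A (fun i y => f (i, y)) j x := by
  classical
  rw [Matrix.mulVec, dotProduct, Fintype.sum_prod_type]
  unfold op
  refine Finset.sum_congr rfl fun i _ => ?_
  simp only [mR_apply, Finsupp.sum, Finset.sum_mul]
  rw [Finset.sum_comm]
  refine Finset.sum_congr rfl fun u _ => ?_
  rw [Finset.sum_eq_single (x * φ u)]
  · rw [if_pos rfl]
  · intro b _ hb
    rw [if_neg (Ne.symm hb), zero_mul]
  · intro h
    exact absurd (Finset.mem_univ _) h

omit [Fintype J] in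
theorem ker_eq (φ : W →* X) (A : J → I → W →₀ ℤ) :
    finrank ℝ ↥(LinearMap.ker (mR φ A).mulVecLin) = finrank ℝ ↥(opKer φ A) := by
  have h : (LinearMap.ker (mR φ A).mulVecLin).map
      (LinearEquiv.curry ℝ ℝ I X : (I × X → ℝ) →ₗ[ℝ] (I → X → ℝ)) = opKer φ A := by
    ext f
    rw [Submodule.mem_map]
    constructor
    · rintro ⟨g, hg, rfl⟩
      intro j x
      have h1 := congrFun (LinearMap.mem_ker.1 hg) (j, x)
      rw [Matrix.mulVecLin_apply, mulVec_op] at h1
      exact h1
    · intro hf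
      refine ⟨(LinearEquiv.curry ℝ ℝ I X).symm f, ?_, LinearEquiv.apply_symm_apply _ _⟩
      rw [LinearMap.mem_ker, Matrix.mulVecLin_apply]
      funext ⟨j, x⟩
      rw [mulVec_op]
      exact hf j x
  rw [← h]
  exact (LinearEquiv.finrank_map_eq (LinearEquiv.curry ℝ ℝ I X) _).symm

theorem norm_le (φ : W →* X) (A : J → I → W →₀ ℤ) (f : I × X → ℝ) :
    (mR φ A).mulVec f ⬝ᵥ (mR φ A).mulVec f ≤
      (∑ j, ∑ i, (A j i).sum fun _ c => |(c : ℝ)|) ^ 2 * (f ⬝ᵥ f) := by
  classical
  have hN : 0 ≤ f ⬝ᵥ f := Finset.sum_nonneg fun q _ => mul_self_nonneg _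
  have hkn : ∀ j, 0 ≤ ∑ i, (A j i).sum fun _ c => |(c : ℝ)| := fun j =>
    Finset.sum_nonneg fun i _ => Finset.sum_nonneg fun u _ => abs_nonneg _
  have hrow : ∀ j : J, ∑ x : X, (mR φ A).mulVec f (j, x) ^ 2 ≤
      (∑ i, (A j i).sum fun _ c => |(c : ℝ)|) ^ 2 * (f ⬝ᵥ f) := by
    intro j
    have h1 : ∀ x : X, (mR φ A).mulVec f (j, x) ^ 2 ≤
        (∑ i, (A j i).sum fun _ c => |(c : ℝ)|) *
          ∑ i, ∑ u ∈ (A j i).support, |(A j i u : ℝ)| * f (i, x * φ u) ^ 2 := by
      intro x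
      rw [mulVec_op]
      unfold op
      simp only [Finsupp.sum]
      rw [Finset.sum_sigma', Finset.sum_sigma', Finset.sum_sigma']
      refine Finset.sum_sq_le_sum_mul_sum_of_sq_le_mul _ (fun _ _ => abs_nonneg _)
        (fun _ _ => mul_nonneg (abs_nonneg _) (sq_nonneg _)) (fun a _ => le_of_eq ?_)
      rw [mul_pow, ← mul_assoc, ← sq, sq_abs]
    refine (Finset.sum_le_sum fun x _ => h1 x).trans ?_
    rw [← Finset.mul_sum, sq, mul_assoc]
    refine mul_le_mul_of_nonneg_left ?_ (hkn j)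
    rw [Finset.sum_comm, Finset.sum_mul]
    refine Finset.sum_le_sum fun i _ => ?_
    rw [Finset.sum_comm, Finsupp.sum, Finset.sum_mul]
    refine Finset.sum_le_sum fun u _ => ?_
    rw [← Finset.mul_sum]
    refine mul_le_mul_of_nonneg_left ?_ (abs_nonneg _)
    have h5 := Equiv.sum_comp (Equiv.mulRight (φ u)) (fun y => f (i, y) ^ 2)
    simp only [Equiv.coe_mulRight] at h5
    rw [h5]
    have h2 : f ⬝ᵥ f = ∑ i', ∑ y, f (i', y) ^ 2 := by
      rw [dotProduct, Fintype.sum_prod_type]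
      exact Finset.sum_congr rfl fun _ _ => Finset.sum_congr rfl fun _ _ => by ring
    rw [h2]
    exact Finset.single_le_sum (f := fun i' => ∑ y, f (i', y) ^ 2)
      (fun i' _ => Finset.sum_nonneg fun y _ => sq_nonneg _) (Finset.mem_univ i)
  have h3 : (mR φ A).mulVec f ⬝ᵥ (mR φ A).mulVec f =
      ∑ j, ∑ x, (mR φ A).mulVec f (j, x) ^ 2 := by
    rw [dotProduct, Fintype.sum_prod_type]
    exact Finset.sum_congr rfl fun _ _ => Finset.sum_congr rfl fun _ _ => by ring
  rw [h3]
  refine (Finset.sum_le_sum fun j _ => hrow j).trans ?_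
  rw [← Finset.sum_mul]
  refine mul_le_mul_of_nonneg_right ?_ hN
  rw [sq, Finset.sum_mul]
  refine Finset.sum_le_sum fun j _ => ?_
  rw [sq]
  refine mul_le_mul_of_nonneg_left ?_ (hkn j)
  exact Finset.single_le_sum (f := fun j => ∑ i, (A j i).sum fun _ c => |(c : ℝ)|)
    (fun j _ => hkn j) (Finset.mem_univ j)

end fin

theorem luck_fin (A : J → I → W →₀ ℤ) {K : ℝ} (hK1 : 1 ≤ K)
    (hK : (∑ j, ∑ i, (A j i).sum fun _ c => |(c : ℝ)|) ^ 2 ≤ K) (M : ℕ) :
    ∃ F : Finset W, (1 : W) ∉ F ∧ ∀ (X : Type) [Group X] [Finite X] (φ : W →* X),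
      (∀ w ∈ F, φ w ≠ 1) → ∀ δ : ℝ, 0 < δ → δ < 1 →
      tau K A M * Nat.card X ≤ finrank ℝ ↥(opKer φ A) +
        Fintype.card I * Nat.card X * (Real.log K / Real.log (1 / δ)) +
        Fintype.card I * Nat.card X * (1 - δ / K) ^ (2 * M) := by
  classical
  obtain ⟨g, hg⟩ : ∃ g : I → (I × W →₀ ℝ), ∀ i, g i =
      (tO K (MonoidHom.id W) A ^ (2 * M)) (Finsupp.single (i, 1) 1) := ⟨_, fun _ => rfl⟩
  refine ⟨(Finset.univ.biUnion fun i => (g i).support.image Prod.snd).erase 1,
    Finset.notMem_erase _ _, ?_⟩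
  intro X _ _ φ hφ δ hδ hδ1
  have : Fintype X := Fintype.ofFinite X
  have h1 := trace_le (mB φ A) hK1 (fun x => (norm_le φ A x).trans
    (mul_le_mul_of_nonneg_right hK (Finset.sum_nonneg fun q _ => mul_self_nonneg _))) hδ hδ1 M
  have h2 := trace_eq K φ A (2 * M)
  have h3 := ker_eq φ A
  unfold mR at h2 h3
  rw [h2, h3, Fintype.card_prod, ← Nat.card_eq_fintype_card (α := X)] at h1
  have h4 : ∑ q : I × X, ((tO K φ A ^ (2 * M)) (Finsupp.single q 1)) q =
      tau K A M * Nat.card X := by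
    rw [Fintype.sum_prod_type]
    unfold tau
    rw [Finset.sum_mul]
    refine Finset.sum_congr rfl fun i _ => ?_
    rw [Finset.sum_congr rfl fun x _ => trans_inv K φ A (2 * M) i x, Finset.sum_const,
      Finset.card_univ, nsmul_eq_mul, mul_comm, ← Nat.card_eq_fintype_card]
    congr 1
    have h5 := pm_tO_pow K (MonoidHom.id W) φ (fun w => φ w)
      (fun y u => by rw [MonoidHom.id_apply, map_mul]) A (2 * M) (Finsupp.single (i, 1) 1)
    rw [pm_single] at h5
    simp only [map_one] at h5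
    rw [← h5, ← hg]
    unfold pm
    rw [Finsupp.lmapDomain_apply, Finsupp.mapDomain, Finsupp.sum_apply, Finsupp.sum,
      Finset.sum_eq_single (i, 1)]
    · simp only [map_one, Finsupp.single_eq_same]
    · rintro ⟨i', w⟩ hw hne
      rw [Finsupp.single_apply, if_neg]
      intro h6
      rw [Prod.mk.injEq] at h6
      have h7 : w ≠ 1 := by
        rintro rfl
        have h8 : i' = i := h6.1
        exact hne (by rw [h8])
      refine hφ w ?_ h6.2
      rw [Finset.mem_erase]
      refine ⟨h7, Finset.mem_biUnion.2 ⟨i, Finset.mem_univ _, Finset.mem_image.2 ⟨(i', w), hw, rfl⟩⟩⟩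
    · intro h6
      rw [Finsupp.notMem_support_iff.1 h6]
      simp
  rw [h4] at h1
  push_cast at h1
  exact h1

end SNG
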