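import Pool.Agent.SNG.Vert
import Pool.Agent.SNG.Inv

/-!
# Project SNG (architect helper40), module Susp: suspensions

Let `a, b ∈ S` be nonadjacent and all other vertices of `S` adjacent to both.  Then `Zp S G j` for
all `j`.

Data: for `m ≥ 1` put `P = Multiplicative (V → ZMod 2) × DihedralGroup (2 ^ m)`,
`p v = (e_v, 1)` for `v ≠ a, b`, `p a = (e_a, sr 0)`, `p b = (e_b, sr 1)`, where
`e_v = Multiplicative.ofAdd (Pi.single v 1)`.  `IsDat S G p`: `e_v` have square `1` and commute,
`sr i * sr i = 1`; for adjacent `v, w` at most one of them is in `{a, b}`.  Coordinates: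
`c v g = (Multiplicative.toAdd g.1) v`.  `P` is a 2-group with `2 ^ |V| * 2 * 2 ^ m` elements.

Claim A: `bt {a, b} ∅ G p j ≤ 2 ^ |V|` for all `j`.  Let `I` be the space of functions `P → ZMod 2`
invariant under `p a` and `p b` (right multiplication).  `dim I ≤ 2 ^ |V|`: the values on the
elements `(x, 1)` determine `f ∈ I`, because for every `(x, d)` the element `d` is a product of
`sr 0`, `sr 1` (they generate the dihedral group: `r 1 = sr 0 * sr 1`), so `(x, d) = (x', 1) * w` with
`w` a product of `p a`, `p b`.  The cliques in `{a, b}` are `∅, {a}, {b}`.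
  - `j = 0`: chains are all functions `f ∅` (dimension `|P|`), boundaries are
    `{f {a} + f {b}} = I_a + I_b`, `I_a`, `I_b` the functions invariant under `p a`, `p b`.
    `dim I_a = |P| / 2 = dim I_b` (it suffices `≥`: rank nullity for `f ↦ f + f (· p_a)`, whose image is
    contained in its kernel `I_a`, gives `2 dim I_a ≥ |P|`), so
    `bt = |P| - dim (I_a + I_b) = |P| - dim I_a - dim I_b + dim I ≤ dim I`.
  - `j = 1`: cycles `(f {a}, f {b})` with `f {a} + f {b} = 0`: this space embeds in `I`.
  - other `j`: there are no chains (`Ch = ⊥`), `bt = 0`.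
Claim B: `bt A ∅ G p j ≤ 2 ^ |A| * 2 ^ |V|` for all `A ⊆ S` with `a, b ∈ A` and all `j`.  Induction on
`|A|`: if `A = {a, b}` Claim A; otherwise take `v ∈ A`, `v ≠ a, b`; `vert_add` and `inv_le_one` (with
the coordinate function `c v`) give `bt A j ≤ bt (A.erase v) j + bt (lk A G v) ∅ (j - 1)`; both sets
contain `a, b` and have fewer elements than `A`.
So `bt S ∅ G p j ≤ 2 ^ |S| * 2 ^ |V|` does not depend on `m`, while `|P| → ∞`.
-/

namespace SNG

open Finset

variable {V : Type} [Fintype V] [DecidableEq V]

/-! ### Functions invariant under an involution -/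

section inv

variable {P : Type} [Group P]

private def Iv (x : P) : Submodule (ZMod 2) (P → ZMod 2) where
  carrier := {u | ∀ g, u (g * x) = u g}
  zero_mem' := fun _ => rfl
  add_mem' := fun {u w} hu hw g => by rw [Pi.add_apply, Pi.add_apply, hu g, hw g]
  smul_mem' := fun c u hu g => by rw [Pi.smul_apply, Pi.smul_apply, hu g]

private def Dv (x : P) : (P → ZMod 2) →ₗ[ZMod 2] (P → ZMod 2) where
  toFun u := fun g => u g + u (g * x)
  map_add' u w := by
    funext g
    simp only [Pi.add_apply]
    ring
  map_smul' c u := by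
    funext g
    simp only [Pi.smul_apply, smul_eq_mul, RingHom.id_apply]
    ring

private theorem z2_eq {x y : ZMod 2} (h : x + y = 0) : x = y := by
  have h1 := CharTwo.add_self_eq_zero y
  exact add_right_cancel (h.trans h1.symm)

private theorem card_le_Iv [Finite P] (x : P) (hx : x * x = 1) :
    Nat.card P ≤ 2 * Module.finrank (ZMod 2) (Iv x) := by
  haveI := Fintype.ofFinite P
  have h1 := LinearMap.finrank_range_add_finrank_ker (Dv x)
  rw [Module.finrank_fintype_fun_eq_card] at h1
  have h2 : LinearMap.ker (Dv x) ≤ Iv x := by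
    intro u hu g
    have h3 : u g + u (g * x) = 0 := congrFun (LinearMap.mem_ker.1 hu) g
    exact (z2_eq h3).symm
  have h3 : LinearMap.range (Dv x) ≤ Iv x := by
    rintro _ ⟨u, rfl⟩ g
    change u (g * x) + u (g * x * x) = u g + u (g * x)
    rw [mul_assoc, hx, mul_one, add_comm]
  have h4 := Submodule.finrank_mono h2
  have h5 := Submodule.finrank_mono h3
  rw [Nat.card_eq_fintype_card]
  omega

end inv

/-! ### The group -/

private abbrev PP (V : Type) (k : ℕ) : Type := Multiplicative (V → ZMod 2) × DihedralGroup (2 ^ k)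

private def ee (v : V) : Multiplicative (V → ZMod 2) := Multiplicative.ofAdd (Pi.single v 1)

private def pd (k : ℕ) (a b v : V) : PP V k :=
  (ee v, if v = a then DihedralGroup.sr 0 else if v = b then DihedralGroup.sr 1 else 1)

omit [Fintype V] in
private theorem ee_sq (v : V) : ee v * ee v = 1 := by
  unfold ee
  rw [← ofAdd_add, ← ofAdd_zero]
  congr 1
  funext w
  exact CharTwo.add_self_eq_zero _

omit [Fintype V] in
private theorem pd_sq (k : ℕ) (a b v : V) : pd k a b v * pd k a b v = 1 := by
  unfold pd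
  refine Prod.ext (ee_sq v) ?_
  change (if v = a then DihedralGroup.sr 0 else if v = b then DihedralGroup.sr 1 else 1) *
    (if v = a then DihedralGroup.sr 0 else if v = b then DihedralGroup.sr 1 else 1) =
      (1 : DihedralGroup (2 ^ k))
  split_ifs
  · exact DihedralGroup.sr_mul_self 0
  · exact DihedralGroup.sr_mul_self 1
  · exact one_mul 1

omit [Fintype V] in
private theorem pd_dat {S : Finset V} {G : SimpleGraph V} (k : ℕ) {a b : V}
    (hn : ¬ G.Adj a b) : IsDat S G (pd k a b) := by
  refine ⟨fun v _ => pd_sq k a b v, fun v _ w _ hvw => ?_, ⟨fun v g => (Multiplicative.toAdd g.1) v,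
    fun v _ w _ g => ?_⟩⟩
  · refine Prod.ext (mul_comm _ _) ?_
    change (if v = a then DihedralGroup.sr 0 else if v = b then DihedralGroup.sr 1 else 1) *
      (if w = a then DihedralGroup.sr 0 else if w = b then DihedralGroup.sr 1 else 1) =
      (if w = a then DihedralGroup.sr 0 else if w = b then DihedralGroup.sr 1 else 1) *
      (if v = a then DihedralGroup.sr 0 else if v = b then DihedralGroup.sr 1 else
        (1 : DihedralGroup (2 ^ k)))
    by_cases h1 : v = a
    · by_cases h2 : w = a
      · rw [if_pos h1, if_pos h2]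
      · by_cases h3 : w = b
        · rw [h1, h3] at hvw
          exact absurd hvw hn
        · rw [if_neg h2, if_neg h3, mul_one, one_mul]
    · by_cases h4 : v = b
      · by_cases h2 : w = a
        · rw [h4, h2] at hvw
          exact absurd hvw.symm hn
        · by_cases h3 : w = b
          · rw [if_neg h1, if_pos h4, if_neg h2, if_pos h3]
          · rw [if_neg h2, if_neg h3, mul_one, one_mul]
      · rw [if_neg h1, if_neg h4, mul_one, one_mul]
  · change (Multiplicative.toAdd g.1) v + (Pi.single w 1 : V → ZMod 2) v = _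
    congr 1
    rw [Pi.single_apply]
    by_cases h : v = w
    · rw [if_pos h, if_pos h.symm]
    · rw [if_neg h, if_neg (Ne.symm h)]

omit [Fintype V] in
private theorem inv_zero {k : ℕ} {a b : V} (hab : a ≠ b) {u : PP V k → ZMod 2}
    (ha : ∀ g, u (g * pd k a b a) = u g) (hb : ∀ g, u (g * pd k a b b) = u g)
    (h1 : ∀ x, u (x, 1) = 0) (g : PP V k) : u g = 0 := by
  have h2 : pd k a b a = (ee a, DihedralGroup.sr 0) := by
    unfold pd
    rw [if_pos rfl]
  have h3 : pd k a b b = (ee b, DihedralGroup.sr 1) := by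
    unfold pd
    rw [if_neg hab.symm, if_pos rfl]
  have h4 : ∀ d : DihedralGroup (2 ^ k), (∀ x, u (x, d) = 0) →
      ∀ x, u (x, d * DihedralGroup.sr 0) = 0 := by
    intro d hd x
    have h5 := ha (x * (ee a)⁻¹, d)
    rw [h2] at h5
    have h6 : ((x * (ee a)⁻¹, d) * (ee a, DihedralGroup.sr 0) : PP V k) =
        (x, d * DihedralGroup.sr 0) := Prod.ext (inv_mul_cancel_right x (ee a)) rfl
    rw [h6] at h5
    rw [h5]
    exact hd _
  have h5 : ∀ d : DihedralGroup (2 ^ k), (∀ x, u (x, d) = 0) →
      ∀ x, u (x, d * DihedralGroup.sr 1) = 0 := by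
    intro d hd x
    have h5 := hb (x * (ee b)⁻¹, d)
    rw [h3] at h5
    have h6 : ((x * (ee b)⁻¹, d) * (ee b, DihedralGroup.sr 1) : PP V k) =
        (x, d * DihedralGroup.sr 1) := Prod.ext (inv_mul_cancel_right x (ee b)) rfl
    rw [h6] at h5
    rw [h5]
    exact hd _
  have h6 : ∀ t : ℕ, ∀ x, u (x, DihedralGroup.r (t : ZMod (2 ^ k))) = 0 := by
    intro t
    induction t with
    | zero =>
      intro x
      rw [Nat.cast_zero]
      exact h1 x
    | succ t ih =>
      have h7 := h5 _ (h4 _ ih)
      intro x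
      have h8 := h7 x
      rw [DihedralGroup.r_mul_sr, DihedralGroup.sr_mul_sr] at h8
      have h9 : (1 : ZMod (2 ^ k)) - (0 - (t : ZMod (2 ^ k))) = ((t + 1 : ℕ) : ZMod (2 ^ k)) := by
        push_cast
        ring
      rw [h9] at h8
      exact h8
  haveI : NeZero (2 ^ k) := ⟨by positivity⟩
  have h7 : ∀ i : ZMod (2 ^ k), ∀ x, u (x, DihedralGroup.r i) = 0 := by
    intro i x
    have h8 := h6 i.val x
    rwa [ZMod.natCast_zmod_val] at h8
  obtain ⟨x, d⟩ := g
  rcases d with i | i
  · exact h7 i x
  · have h8 := h4 _ (h7 (-i)) x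
    rw [DihedralGroup.r_mul_sr, zero_sub, neg_neg] at h8
    exact h8

/-! ### Claim A -/

private theorem card_mul (V : Type) [Fintype V] [DecidableEq V] :
    Module.finrank (ZMod 2) (Multiplicative (V → ZMod 2) → ZMod 2) = 2 ^ Fintype.card V := by
  haveI : Fintype (Multiplicative (V → ZMod 2)) := inferInstanceAs (Fintype (V → ZMod 2))
  rw [Module.finrank_fintype_fun_eq_card]
  have h : Fintype.card (Multiplicative (V → ZMod 2)) = Fintype.card (V → ZMod 2) :=
    Fintype.card_congr Multiplicative.toAdd
  rw [h, Fintype.card_fun, ZMod.card]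

private theorem card_PP (V : Type) [Fintype V] [DecidableEq V] (k : ℕ) :
    Nat.card (PP V k) = 2 ^ Fintype.card V * (2 * 2 ^ k) := by
  haveI : NeZero (2 ^ k) := ⟨by positivity⟩
  rw [Nat.card_prod, DihedralGroup.nat_card]
  congr 1
  have h : Nat.card (Multiplicative (V → ZMod 2)) = Nat.card (V → ZMod 2) :=
    Nat.card_congr Multiplicative.toAdd
  rw [h, Nat.card_eq_fintype_card, Fintype.card_fun, ZMod.card]

private def La (a : V) (k : ℕ) : (Finset V → PP V k → ZMod 2) →ₗ[ZMod 2]
    (Multiplicative (V → ZMod 2) → ZMod 2) where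
  toFun f := fun x => f {a} (x, 1)
  map_add' _ _ := rfl
  map_smul' _ _ := rfl

private def L0 (V P : Type) : (Finset V → P → ZMod 2) →ₗ[ZMod 2] (P → ZMod 2) where
  toFun f := f ∅
  map_add' _ _ := rfl
  map_smul' _ _ := rfl

private theorem sub_pair {a b : V} {G : SimpleGraph V} (hab : a ≠ b) (hn : ¬ G.Adj a b)
    {T : Finset V} (hT : T ⊆ {a, b}) (hc : G.IsClique (T : Set V)) : T = ∅ ∨ T = {a} ∨ T = {b} := by
  by_cases h1 : a ∈ T
  · by_cases h2 : b ∈ T
    · exact absurd (hc (mem_coe.2 h1) (mem_coe.2 h2) hab) hn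
    · refine Or.inr (Or.inl (Subset.antisymm (fun x hx => ?_) (singleton_subset_iff.2 h1)))
      rcases mem_insert.1 (hT hx) with h3 | h3
      · exact mem_singleton.2 h3
      · rw [mem_singleton.1 h3] at hx
        exact absurd hx h2
  · by_cases h2 : b ∈ T
    · refine Or.inr (Or.inr (Subset.antisymm (fun x hx => ?_) (singleton_subset_iff.2 h2)))
      rcases mem_insert.1 (hT hx) with h3 | h3
      · rw [h3] at hx
        exact absurd hx h1
      · exact h3
    · refine Or.inl (Finset.eq_empty_of_forall_notMem fun x hx => ?_)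
      rcases mem_insert.1 (hT hx) with h3 | h3
      · rw [h3] at hx
        exact h1 hx
      · rw [mem_singleton.1 h3] at hx
        exact h2 hx

private theorem cycle_le {G : SimpleGraph V} {a b : V} (hab : a ≠ b) (hn : ¬ G.Adj a b) (k : ℕ) :
    Module.finrank (ZMod 2) ↥(Ch {a, b} ∅ G (pd k a b) 1 ⊓ LinearMap.ker (bd V (PP V k))) ≤
      2 ^ Fintype.card V := by
  rw [← card_mul V]
  refine LinearMap.finrank_le_finrank_of_injective
    (f := (La a k).domRestrict (Ch {a, b} ∅ G (pd k a b) 1 ⊓ LinearMap.ker (bd V (PP V k)))) ?_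
  rw [← LinearMap.ker_eq_bot, LinearMap.ker_eq_bot']
  rintro ⟨f, hf, hfk⟩ hL
  have hL' : ∀ x, f {a} (x, 1) = 0 := fun x => congrFun hL x
  have hsupp : ∀ T : Finset V, T ≠ {a} → T ≠ {b} → f T = 0 := by
    intro T h1 h2
    refine hf.1 T fun h => ?_
    rcases sub_pair hab hn h.1 h.2.1 with h3 | h3 | h3
    · have h4 := h.2.2
      rw [h3] at h4
      simp at h4
    · exact h1 h3
    · exact h2 h3
  have hsum : ∀ g, f {a} g + f {b} g = 0 := by
    intro g
    have h1 : bd V (PP V k) f ∅ g = 0 := congrFun (congrFun (LinearMap.mem_ker.1 hfk) ∅) g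
    have h2 : bd V (PP V k) f ∅ g = ∑ s ∈ (∅ : Finset V)ᶜ, f (insert s ∅) g := rfl
    rw [h2, compl_empty] at h1
    rw [← h1, ← Finset.sum_subset (subset_univ ({a, b} : Finset V))]
    · rw [sum_pair hab]
      rfl
    · intro x _ hx
      have h3 : f (insert x ∅) = 0 := by
        refine hsupp _ (fun h => hx ?_) (fun h => hx ?_)
        · have h4 : x ∈ ({a} : Finset V) := by
            rw [← h]
            exact mem_insert_self x ∅
          rw [mem_singleton.1 h4]
          exact mem_insert_self a _
        · have h4 : x ∈ ({b} : Finset V) := by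
            rw [← h]
            exact mem_insert_self x ∅
          rw [mem_singleton.1 h4]
          exact mem_insert_of_mem (mem_singleton_self b)
      rw [h3]
      rfl
  have heq : f {a} = f {b} := by
    funext g
    exact z2_eq (hsum g)
  have ha : ∀ g, f {a} (g * pd k a b a) = f {a} g :=
    hf.2 {a} a (mem_union_left _ (mem_singleton_self a))
  have hb : ∀ g, f {a} (g * pd k a b b) = f {a} g := by
    rw [heq]
    exact hf.2 {b} b (mem_union_left _ (mem_singleton_self b))
  have h0 : f {a} = 0 := by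
    funext g
    exact inv_zero hab ha hb hL' g
  refine Subtype.ext ?_
  change f = 0
  funext T
  by_cases h1 : T = {a}
  · rw [h1, h0]
    rfl
  · by_cases h2 : T = {b}
    · rw [h2, ← heq, h0]
      rfl
    · rw [hsupp T h1 h2]
      rfl

private def Ev (P : Type) (a b : V) :
    ((P → ZMod 2) × (P → ZMod 2)) →ₗ[ZMod 2] (Finset V → P → ZMod 2) where
  toFun q := fun T => if T = {a} then q.1 else if T = {b} then q.2 else 0
  map_add' q r := by
    funext T
    simp only [Pi.add_apply]
    split_ifs
    · rfl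
    · rfl
    · simp
  map_smul' c q := by
    funext T
    simp only [Pi.smul_apply, RingHom.id_apply]
    split_ifs
    · rfl
    · rfl
    · simp

private theorem chain_ge {G : SimpleGraph V} {a b : V} (hab : a ≠ b) (k : ℕ) :
    Nat.card (PP V k) ≤ Module.finrank (ZMod 2) (Ch {a, b} ∅ G (pd k a b) 1) := by
  haveI : NeZero (2 ^ k) := ⟨by positivity⟩
  have hne : ({b} : Finset V) ≠ {a} := fun h => hab (Finset.singleton_injective h).symm
  have h1 := card_le_Iv (pd k a b a) (pd_sq k a b a)
  have h2 := card_le_Iv (pd k a b b) (pd_sq k a b b)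
  let ψ : (Iv (pd k a b a) × Iv (pd k a b b)) →ₗ[ZMod 2] (Finset V → PP V k → ZMod 2) :=
    (Ev (PP V k) a b).comp ((Iv (pd k a b a)).subtype.prodMap (Iv (pd k a b b)).subtype)
  have hψ : ∀ q, ψ q = fun T => if T = {a} then (q.1 : PP V k → ZMod 2) else
      if T = {b} then (q.2 : PP V k → ZMod 2) else 0 := fun q => rfl
  have hmem : ∀ q, ψ q ∈ Ch {a, b} ∅ G (pd k a b) 1 := by
    intro q
    constructor
    · intro T hT
      rw [hψ]
      change (if T = {a} then (q.1 : PP V k → ZMod 2) else
        if T = {b} then (q.2 : PP V k → ZMod 2) else 0) = 0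
      rw [if_neg, if_neg]
      · rintro rfl
        refine hT ⟨?_, ?_, ?_⟩
        · exact singleton_subset_iff.2 (mem_insert_of_mem (mem_singleton_self b))
        · simp
        · simp
      · rintro rfl
        refine hT ⟨?_, ?_, ?_⟩
        · exact singleton_subset_iff.2 (mem_insert_self a _)
        · simp
        · simp
    · intro T s hs g
      rw [hψ]
      change (if T = {a} then (q.1 : PP V k → ZMod 2) else
        if T = {b} then (q.2 : PP V k → ZMod 2) else 0) (g * pd k a b s) =
        (if T = {a} then (q.1 : PP V k → ZMod 2) else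
        if T = {b} then (q.2 : PP V k → ZMod 2) else 0) g
      rw [union_empty] at hs
      split_ifs with h3 h4
      · rw [h3] at hs
        rw [mem_singleton.1 hs]
        exact q.1.2 g
      · rw [h4] at hs
        rw [mem_singleton.1 hs]
        exact q.2.2 g
      · rfl
  have h3 : Module.finrank (ZMod 2) (Iv (pd k a b a) × Iv (pd k a b b)) ≤
      Module.finrank (ZMod 2) (Ch {a, b} ∅ G (pd k a b) 1) := by
    refine LinearMap.finrank_le_finrank_of_injective
      (f := ψ.codRestrict (Ch {a, b} ∅ G (pd k a b) 1) hmem) ?_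
    intro q r hqr
    have h4 : ψ q = ψ r := congrArg Subtype.val hqr
    rw [hψ, hψ] at h4
    refine Prod.ext (Subtype.ext ?_) (Subtype.ext ?_)
    · have h5 := congrFun h4 {a}
      simp only [if_true] at h5
      exact h5
    · have h5 := congrFun h4 {b}
      simp only [if_neg hne, if_true] at h5
      exact h5
  rw [Module.finrank_prod] at h3
  omega

private theorem claimA {G : SimpleGraph V} {a b : V} (hab : a ≠ b) (hn : ¬ G.Adj a b) (k : ℕ)
    (j : ℤ) : bt {a, b} ∅ G (pd k a b) j ≤ 2 ^ Fintype.card V := by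
  haveI : NeZero (2 ^ k) := ⟨by positivity⟩
  by_cases hj1 : j = 1
  · subst hj1
    unfold bt
    exact (Nat.sub_le _ _).trans (cycle_le hab hn k)
  · by_cases hj0 : j = 0
    · subst hj0
      unfold bt
      have h1 : Module.finrank (ZMod 2)
          ↥(Ch {a, b} ∅ G (pd k a b) 0 ⊓ LinearMap.ker (bd V (PP V k))) ≤ Nat.card (PP V k) := by
        haveI := Fintype.ofFinite (PP V k)
        rw [Nat.card_eq_fintype_card, ← Module.finrank_fintype_fun_eq_card (ZMod 2)]
        refine LinearMap.finrank_le_finrank_of_injective (f := (L0 V (PP V k)).domRestrict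
          (Ch {a, b} ∅ G (pd k a b) 0 ⊓ LinearMap.ker (bd V (PP V k)))) ?_
        rw [← LinearMap.ker_eq_bot, LinearMap.ker_eq_bot']
        rintro ⟨f, hf, hfk⟩ hL
        have hL' : f ∅ = 0 := hL
        refine Subtype.ext ?_
        change f = 0
        funext T
        by_cases hT : T = ∅
        · rw [hT, hL']
          rfl
        · refine hf.1 T fun h => ?_
          have h2 := h.2.2
          exact hT (card_eq_zero.1 (by exact_mod_cast h2))
      obtain ⟨φ, hφ⟩ : ∃ φ, φ = (bd V (PP V k)).domRestrict (Ch {a, b} ∅ G (pd k a b) 1) :=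
        ⟨_, rfl⟩
      have h2 := LinearMap.finrank_range_add_finrank_ker φ
      have h3 : LinearMap.range φ = (Ch {a, b} ∅ G (pd k a b) 1).map (bd V (PP V k)) := by
        rw [hφ, LinearMap.range_domRestrict]
      have h4 : Module.finrank (ZMod 2) (LinearMap.ker φ) = Module.finrank (ZMod 2)
          ↥(Ch {a, b} ∅ G (pd k a b) 1 ⊓ LinearMap.ker (bd V (PP V k))) := by
        rw [hφ, LinearMap.ker_domRestrict, ← Submodule.map_comap_subtype,
          Submodule.finrank_map_subtype_eq]
      rw [h3, h4] at h2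
      have h5 := cycle_le hab hn k
      have h6 := chain_ge (G := G) hab k
      have h7 : (0 : ℤ) + 1 = 1 := by norm_num
      rw [h7]
      omega
    · have h1 : Ch {a, b} ∅ G (pd k a b) j = ⊥ := by
        rw [eq_bot_iff]
        intro f hf
        rw [Submodule.mem_bot]
        funext T
        refine hf.1 T fun h => ?_
        rcases sub_pair hab hn h.1 h.2.1 with h3 | h3 | h3
        · have h4 := h.2.2
          rw [h3] at h4
          simp at h4
          exact hj0 h4.symm
        · have h4 := h.2.2
          rw [h3] at h4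
          simp at h4
          exact hj1 h4.symm
        · have h4 := h.2.2
          rw [h3] at h4
          simp at h4
          exact hj1 h4.symm
      unfold bt
      rw [h1, bot_inf_eq, finrank_bot, Nat.zero_sub]
      exact Nat.zero_le _

private theorem claimB {S : Finset V} {G : SimpleGraph V} {a b : V} (hab : a ≠ b)
    (hn : ¬ G.Adj a b) (h : ∀ x ∈ S, x ≠ a → x ≠ b → G.Adj a x ∧ G.Adj b x) (k : ℕ) :
    ∀ (n : ℕ) (A : Finset V), A.card = n → A ⊆ S → a ∈ A → b ∈ A → ∀ j : ℤ,
      bt A ∅ G (pd k a b) j ≤ 2 ^ n * 2 ^ Fintype.card V := by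
  haveI : NeZero (2 ^ k) := ⟨by positivity⟩
  intro n
  induction n using Nat.strong_induction_on with
  | _ n ih =>
    intro A hAn hAS haA hbA j
    by_cases hA : A = {a, b}
    · rw [hA]
      refine (claimA hab hn k j).trans ?_
      exact Nat.le_mul_of_pos_left _ (by positivity)
    · obtain ⟨v, hv, hva, hvb⟩ : ∃ v ∈ A, v ≠ a ∧ v ≠ b := by
        by_contra hcon
        push Not at hcon
        apply hA
        refine Subset.antisymm (fun x hx => ?_) (fun x hx => ?_)
        · by_cases hxa : x = a
          · rw [hxa]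
            exact mem_insert_self a _
          · rw [hcon x hx hxa]
            exact mem_insert_of_mem (mem_singleton_self b)
        · rcases mem_insert.1 hx with h3 | h3
          · rw [h3]
            exact haA
          · rw [mem_singleton.1 h3]
            exact hbA
      have hD : IsDat A G (pd k a b) := pd_dat k hn
      obtain ⟨c, hc⟩ := hD.co
      have h1 := vert_add (G := G) (p := pd k a b) hv j
      have hlk : ∀ s ∈ lk A G v, s ∈ A ∧ G.Adj v s := fun s hs => mem_lk.1 hs
      have h2 := inv_le_one (S := lk A G v) (G := G) (p := pd k a b) (r := v) (c v)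
        (fun g => by rw [hc v hv v hv g, if_pos rfl])
        (fun s hs g => by
          rw [hc v hv s (hlk s hs).1 g, if_neg (fun e => (hlk s hs).2.ne e.symm), add_zero])
        (hD.sq v hv) (fun s hs => hD.comm s (hlk s hs).1 v hv (hlk s hs).2.symm) (j - 1)
      have hcard : (A.erase v).card = n - 1 := by rw [card_erase_of_mem hv, hAn]
      have hn0 : 0 < n := by
        rw [← hAn]
        exact card_pos.2 ⟨v, hv⟩
      have h3 := ih (n - 1) (by omega) (A.erase v) hcard ((erase_subset v A).trans hAS)
        (mem_erase.2 ⟨hva.symm, haA⟩) (mem_erase.2 ⟨hvb.symm, hbA⟩) j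
      have hsub : lk A G v ⊆ A.erase v := by
        intro s hs
        exact mem_erase.2 ⟨(hlk s hs).2.ne.symm, (hlk s hs).1⟩
      have hcard2 : (lk A G v).card ≤ n - 1 := by
        rw [← hcard]
        exact card_le_card hsub
      have hadj := h v (hAS hv) hva hvb
      have h4 := ih (lk A G v).card (by omega) (lk A G v) rfl
        ((hsub.trans (erase_subset v A)).trans hAS) (mem_lk.2 ⟨haA, hadj.1.symm⟩)
        (mem_lk.2 ⟨hbA, hadj.2.symm⟩) (j - 1)
      have h5 : 2 ^ (lk A G v).card ≤ 2 ^ (n - 1) := Nat.pow_le_pow_right (by norm_num) hcard2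
      have h6 : 2 ^ (lk A G v).card * 2 ^ Fintype.card V ≤ 2 ^ (n - 1) * 2 ^ Fintype.card V :=
        Nat.mul_le_mul_right _ h5
      have h7 : 2 ^ n * 2 ^ Fintype.card V =
          2 ^ (n - 1) * 2 ^ Fintype.card V + 2 ^ (n - 1) * 2 ^ Fintype.card V := by
        obtain ⟨n', rfl⟩ : ∃ n', n = n' + 1 := ⟨n - 1, by omega⟩
        rw [Nat.add_sub_cancel, pow_succ]
        ring
      omega

theorem susp_zp {S : Finset V} {G : SimpleGraph V} {a b : V} (ha : a ∈ S) (hb : b ∈ S)
    (hab : a ≠ b) (hn : ¬ G.Adj a b) (h : ∀ x ∈ S, x ≠ a → x ≠ b → G.Adj a x ∧ G.Adj b x) (j : ℤ) :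
    Zp S G j := by
  intro m
  obtain ⟨k, hk⟩ : ∃ k, k = m + S.card := ⟨_, rfl⟩
  haveI : NeZero (2 ^ k) := ⟨by positivity⟩
  refine ⟨PP V k, inferInstance, inferInstance, pd k a b, ?_, pd_dat k hn, ?_⟩
  · refine IsPGroup.of_card (n := Fintype.card V + (1 + k)) ?_
    rw [card_PP, pow_add, pow_add, pow_one]
  · have h1 := claimB hab hn h k S.card S rfl (Subset.refl S) ha hb j
    rw [card_PP]
    have h2 : m ≤ 2 ^ m := Nat.lt_two_pow_self.le
    calc m * bt S ∅ G (pd k a b) j ≤ 2 ^ m * (2 ^ S.card * 2 ^ Fintype.card V) :=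
          Nat.mul_le_mul h2 h1
      _ = 2 ^ Fintype.card V * 2 ^ k := by
          rw [hk, pow_add]
          ring
      _ ≤ 2 ^ Fintype.card V * (2 * 2 ^ k) :=
          Nat.mul_le_mul_left _ (Nat.le_mul_of_pos_left _ (by norm_num))

end SNG
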