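import Pool.Agent.SNG.DDefs

/-!
# Project SNG (architect helper40): definitions for flag 2-spheres
-/

namespace SNG

open Finset

variable {V : Type} [Fintype V] [DecidableEq V]

/-- Flag surfaces: every edge is in exactly two triangles, there is no clique with four elements,
links are nonempty and connected. -/
structure Tri (S : Finset V) (G : SimpleGraph V) : Prop where
  ne : S.Nonempty
  two : ∀ x ∈ S, ∀ y ∈ S, G.Adj x y → (ck S G x y).card = 2
  noK4 : ∀ x ∈ S, ∀ y ∈ S, ∀ z ∈ S, ∀ w ∈ S, G.Adj x y → G.Adj x z → G.Adj x w → G.Adj y z →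
    G.Adj y w → ¬ G.Adj z w
  lne : ∀ v ∈ S, (lk S G v).Nonempty
  conn : ∀ v ∈ S, ∀ Y ⊆ lk S G v, Y.Nonempty → (∀ y ∈ Y, ∀ z ∈ lk S G v, G.Adj y z → z ∈ Y) →
    Y = lk S G v

/-- `T` is a triangle of `(S, G)`. -/
def IsTri (S : Finset V) (G : SimpleGraph V) (T : Finset V) : Prop :=
  T ⊆ S ∧ G.IsClique (T : Set V) ∧ T.card = 3

/-- The number of triangles of the family `ω` containing `x` and `y`. -/
def nT (ω : Finset (Finset V)) (x y : V) : ℕ := (ω.filter fun T => x ∈ T ∧ y ∈ T).card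

/-- Homological conditions, in terms of sets of triangles: the only closed sets of triangles are
`∅` and the set of all triangles; every 4-cycle is the boundary of a set of triangles. -/
structure Hom2 (S : Finset V) (G : SimpleGraph V) : Prop where
  closed : ∀ ω : Finset (Finset V), (∀ T ∈ ω, IsTri S G T) →
    (∀ x ∈ S, ∀ y ∈ S, G.Adj x y → Even (nT ω x y)) → ω = ∅ ∨ ∀ T, IsTri S G T → T ∈ ω
  fill : ∀ x ∈ S, ∀ y ∈ S, ∀ z ∈ S, ∀ w ∈ S, G.Adj x y → G.Adj y z → G.Adj z w → G.Adj w x →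
    x ≠ z → y ≠ w → ∃ ω : Finset (Finset V), (∀ T ∈ ω, IsTri S G T) ∧
      ∀ a ∈ S, ∀ b ∈ S, G.Adj a b → (Odd (nT ω a b) ↔
        (({a, b} : Finset V) = {x, y} ∨ ({a, b} : Finset V) = {y, z} ∨ ({a, b} : Finset V) = {z, w} ∨
          ({a, b} : Finset V) = {w, x}))

end SNG
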