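import Pool.Agent.SNG.TDefs
import Pool.Agent.SNG.Basic
import Pool.Agent.SNG.RedImage

/-!
# Project SNG (architect helper40), module TFacts: flag homology 2-spheres

All homology is for the trivial group `Unit`: chains are functions `f T ()`, supported on cliques
`T ⊆ S` with `j` elements, the invariance conditions are empty.

`gor_tri`: let `Gor 3 S G`.
 - `ne`: `Sph 3 ∅ G` is false (`bt ∅ = 0` in degree `3`).
 - `two`: `T = {x, y}`: `lks S G T = ck S G x y =: A` satisfies `Sph 1`; for an edge `z, w` in `A` the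
   clique `{x, y, z, w}` contradicts `Gor` (`m + 4 = 3`).  So the chain complex of `A` is
   `F₂ ^ A → F₂` and `Sph 1 A G` gives `A ≠ ∅` (degree 0) and `|A| - 1 = 1` (degree 1).
 - `noK4`: `Gor` for the clique with four elements: `m + 4 = 3` is impossible.
 - `lne`, `conn`: `T = {v}`: `A = lk S G v` satisfies `Sph 2`.  `A ≠ ∅` because of degree `0`.  Let `Y`
   be as in `conn` and `y ∈ Y`, and suppose `z ∈ A \ Y`.  The chain `δ_{y} + δ_{z}` is a cycle in degree
   `1`, hence the boundary of a set of edges `E`; the number of pairs (edge of `E`, endpoint of it in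
   `Y`) is even because an edge has `0` or `2` endpoints in `Y`, but modulo 2 it is the sum over
   `x ∈ Y` of `(bd E)({x})`, which is `1`.
`gor_sph`: `T = ∅`.

`tri_hom`: let `Tri S G`, `Sph 3 S G`.
 - `closed`: the indicator of `ω` is a cycle in degree `3`; there are no chains in degree `4`
   (`noK4`), so the space of cycles in degree `3` has dimension `1`.  The indicator of the set of
   all triangles is a cycle by `two`, and it is not `0` if there is a triangle (`ne`, `lne`, `two`).
   So `ω` is empty or everything.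
 - `fill`: the indicator of `{{x,y}, {y,z}, {z,w}, {w,x}}` (four different sets) is a cycle in degree
   `2`, so it is a boundary (`bt = 0` in degree `2`).
   (`bd f {a, b} = ∑_{c ∉ {a,b}} f {a,b,c}`, modulo 2 the number of triangles of `ω` containing `a, b`.)

`tri_link`: let `Tri S G` and `v ∈ S`.  Then `Rd 2 (lk S G v) G`, by the constructor `Rd.even`:
 - for `x ∈ A = lk S G v`: `lk A G x = ck S G v x` has two elements, which are not adjacent (`noK4`):
   `Rd 1` by `Rd.susp` (all its links are empty: `Rd.nil`).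
 - `Sph 2 A G`: `b_0 = 0` as `A ≠ ∅`; `b_1 = 0`: let `f` be a cycle in degree `1`, i.e. a subset of `A`
   of even size; it is enough that `δ_{y} + δ_{z}` is a boundary for all `y, z ∈ A`: for fixed `y` the
   set of such `z` is nonempty and closed under adjacency, so it is `A` (`conn`).  `b_j = 0` for
   `j ≥ 3` or `j < 0`: no chains (`noK4`).  `b_2 = 1`: a cycle in degree `2` is a set `E` of edges of `A`
   such that every vertex of `A` is in an even number of edges of `E`; every vertex of `A` is in
   exactly two edges of `A`, so the vertices which are in an edge of `E` form a set closed under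
   adjacency (all edges at such a vertex are in `E`): `E = ∅` or `E` is the set of all edges, which is
   a cycle and not `∅`.
-/

namespace SNG

open Finset

variable {V : Type} [Fintype V] [DecidableEq V] {S : Finset V} {G : SimpleGraph V}

omit [Fintype V] in
private theorem tf_mem {j : ℤ} {f : Finset V → Unit → ZMod 2} :
    f ∈ Ch S ∅ G (fun _ => (1 : Unit)) j ↔
      ∀ T : Finset V, f T () ≠ 0 → T ⊆ S ∧ G.IsClique (T : Set V) ∧ (T.card : ℤ) = j := by
  constructor
  · rintro ⟨h1, _⟩ T hT
    by_contra hc
    exact hT (by rw [h1 T hc]; rfl)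
  · intro h
    refine ⟨fun T hT => ?_, fun T s _ g => rfl⟩
    funext u
    cases u
    by_contra hc
    exact hT (h T hc)

private theorem tf_ex {j : ℤ} (h : bt S ∅ G (fun _ => (1 : Unit)) j = 0)
    {f : Finset V → Unit → ZMod 2} (hf : f ∈ Ch S ∅ G (fun _ => (1 : Unit)) j)
    (hb : bd V Unit f = 0) :
    ∃ g ∈ Ch S ∅ G (fun _ => (1 : Unit)) (j + 1), bd V Unit g = f := by
  have hle : (Ch S ∅ G (fun _ => (1 : Unit)) (j + 1)).map (bd V Unit) ≤
      Ch S ∅ G (fun _ => (1 : Unit)) j ⊓ LinearMap.ker (bd V Unit) := by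
    rintro _ ⟨g, hg, rfl⟩
    exact ⟨bd_mem hg, bd_bd g⟩
  have heq := Submodule.eq_of_le_of_finrank_le hle (by unfold bt at h; omega)
  have h2 : f ∈ (Ch S ∅ G (fun _ => (1 : Unit)) (j + 1)).map (bd V Unit) := by
    rw [heq]
    exact ⟨hf, hb⟩
  obtain ⟨g, hg, e⟩ := h2
  exact ⟨g, hg, e⟩

private theorem tf_bt0 {j : ℤ}
    (h : ∀ f ∈ Ch S ∅ G (fun _ => (1 : Unit)) j, bd V Unit f = 0 →
      ∃ g ∈ Ch S ∅ G (fun _ => (1 : Unit)) (j + 1), bd V Unit g = f) :
    bt S ∅ G (fun _ => (1 : Unit)) j = 0 := by
  unfold bt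
  rw [Nat.sub_eq_zero_iff_le]
  apply Submodule.finrank_mono
  rintro f ⟨hf, hb⟩
  obtain ⟨g, hg, e⟩ := h f hf hb
  exact ⟨g, hg, e⟩

private theorem tf_Z {j : ℤ} (h1 : ∀ g ∈ Ch S ∅ G (fun _ => (1 : Unit)) (j + 1), g = 0) :
    bt S ∅ G (fun _ => (1 : Unit)) j =
      Module.finrank (ZMod 2)
        ↥(Ch S ∅ G (fun _ => (1 : Unit)) j ⊓ LinearMap.ker (bd V Unit)) := by
  have e : Ch S ∅ G (fun _ => (1 : Unit)) (j + 1) = ⊥ := by
    rw [Submodule.eq_bot_iff]
    exact h1
  unfold bt
  rw [e, Submodule.map_bot, finrank_bot, Nat.sub_zero]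

private theorem tf_two (c : ZMod 2) : c = 0 ∨ c = 1 := by
  revert c
  decide

private theorem tf_one {j : ℤ} (h : bt S ∅ G (fun _ => (1 : Unit)) j = 1)
    (h1 : ∀ g ∈ Ch S ∅ G (fun _ => (1 : Unit)) (j + 1), g = 0) :
    (∃ f ∈ Ch S ∅ G (fun _ => (1 : Unit)) j, bd V Unit f = 0 ∧ f ≠ 0) ∧
      ∀ f g, f ∈ Ch S ∅ G (fun _ => (1 : Unit)) j → bd V Unit f = 0 →
        g ∈ Ch S ∅ G (fun _ => (1 : Unit)) j → bd V Unit g = 0 → f ≠ 0 → g ≠ 0 → f = g := by
  rw [tf_Z h1, finrank_eq_one_iff'] at h
  obtain ⟨v, hv0, hv⟩ := h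
  refine ⟨⟨v.1, v.2.1, v.2.2, fun h0 => hv0 (Subtype.ext h0)⟩, ?_⟩
  intro f g hf hbf hg hbg hf0 hg0
  obtain ⟨c, hc⟩ := hv ⟨f, hf, hbf⟩
  obtain ⟨d, hd⟩ := hv ⟨g, hg, hbg⟩
  rw [Subtype.ext_iff] at hc hd
  change c • v.1 = f at hc
  change d • v.1 = g at hd
  rcases tf_two c with rfl | rfl
  · exact absurd (by rw [← hc, zero_smul]) hf0
  · rcases tf_two d with rfl | rfl
    · exact absurd (by rw [← hd, zero_smul]) hg0
    · rw [← hc, ← hd]

private theorem tf_one' {j : ℤ} (h1 : ∀ g ∈ Ch S ∅ G (fun _ => (1 : Unit)) (j + 1), g = 0)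
    {f : Finset V → Unit → ZMod 2} (hf : f ∈ Ch S ∅ G (fun _ => (1 : Unit)) j)
    (hbf : bd V Unit f = 0) (hf0 : f ≠ 0)
    (h : ∀ g ∈ Ch S ∅ G (fun _ => (1 : Unit)) j, bd V Unit g = 0 → g ≠ 0 → g = f) :
    bt S ∅ G (fun _ => (1 : Unit)) j = 1 := by
  rw [tf_Z h1, finrank_eq_one_iff']
  refine ⟨⟨f, hf, hbf⟩, fun h0 => hf0 (congrArg Subtype.val h0), ?_⟩
  rintro ⟨g, hg, hbg⟩
  by_cases hg0 : g = 0
  · refine ⟨0, ?_⟩
    apply Subtype.ext
    change (0 : ZMod 2) • f = g
    rw [hg0, zero_smul]
  · refine ⟨1, ?_⟩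
    apply Subtype.ext
    change (1 : ZMod 2) • f = g
    rw [h g hg hbg hg0, one_smul]

/-- delta function -/
private def tfd (U : Finset V) : Finset V → Unit → ZMod 2 := fun T _ => if T = U then 1 else 0

/-- indicator -/
private def tfi (ω : Finset (Finset V)) : Finset V → Unit → ZMod 2 :=
  fun T _ => if T ∈ ω then 1 else 0

omit [Fintype V] in
private theorem tfd_ne (U : Finset V) : tfd U ≠ 0 := by
  intro h
  have := congrFun (congrFun h U) ()
  simp [tfd] at this

private theorem tfd_bd (U : Finset V) :
    bd V Unit (tfd U) = ∑ s ∈ U, tfd (U.erase s) := by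
  funext T u
  cases u
  rw [Finset.sum_apply, Finset.sum_apply]
  change ∑ s ∈ Tᶜ, (if insert s T = U then (1 : ZMod 2) else 0) =
    ∑ s ∈ U, (if T = U.erase s then (1 : ZMod 2) else 0)
  rw [← Finset.sum_filter, ← Finset.sum_filter]
  refine Finset.sum_congr ?_ fun _ _ => rfl
  ext s
  simp only [mem_filter, mem_compl]
  constructor
  · rintro ⟨h1, rfl⟩
    exact ⟨mem_insert_self s T, (erase_insert h1).symm⟩
  · rintro ⟨h1, rfl⟩
    exact ⟨notMem_erase s U, insert_erase h1⟩

private theorem tfd_bd1 (a : V) : bd V Unit (tfd {a}) = tfd ∅ := by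
  rw [tfd_bd, sum_singleton]
  congr 1
  ext x
  simp

private theorem tfd_bd2 {a b : V} (h : a ≠ b) :
    bd V Unit (tfd {a, b}) = tfd {a} + tfd {b} := by
  rw [tfd_bd, sum_pair h, add_comm]
  congr 2
  · ext x
    simp only [mem_erase, mem_insert, mem_singleton]
    constructor
    · rintro ⟨h1, h2 | h2⟩
      · exact h2
      · exact absurd h2 h1
    · rintro rfl
      exact ⟨h, Or.inl rfl⟩
  · ext x
    simp only [mem_erase, mem_insert, mem_singleton]
    constructor
    · rintro ⟨h1, h2 | h2⟩
      · exact absurd h2 h1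
      · exact h2
    · rintro rfl
      exact ⟨h.symm, Or.inr rfl⟩

private theorem tfd_bd0 : bd V Unit (tfd (∅ : Finset V)) = 0 := by
  rw [tfd_bd, sum_empty]

omit [Fintype V] in
private theorem tfd_mem {U : Finset V} {j : ℤ} (h1 : U ⊆ S) (h2 : G.IsClique (U : Set V))
    (h3 : (U.card : ℤ) = j) : tfd U ∈ Ch S ∅ G (fun _ => (1 : Unit)) j := by
  rw [tf_mem]
  intro T hT
  have : T = U := by
    by_contra hc
    exact hT (by simp [tfd, hc])
  subst this
  exact ⟨h1, h2, h3⟩

omit [Fintype V] [DecidableEq V] in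
private theorem tf_dbl (f : Finset V → Unit → ZMod 2) : f + f = 0 := by
  funext T u
  exact CharTwo.add_self_eq_zero _

omit [Fintype V] [DecidableEq V] in
private theorem tf_cl2 {a b : V} (h : G.Adj a b) [DecidableEq V] :
    G.IsClique ((({a, b} : Finset V)) : Set V) := by
  intro x hx y hy hxy
  simp only [coe_insert, coe_singleton, Set.mem_insert_iff, Set.mem_singleton_iff] at hx hy
  rcases hx with rfl | rfl <;> rcases hy with rfl | rfl
  · exact absurd rfl hxy
  · exact h
  · exact h.symm
  · exact absurd rfl hxy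

omit [Fintype V] [DecidableEq V] in
private theorem tf_cl1 (a : V) : G.IsClique ((({a} : Finset V)) : Set V) := by
  simp

omit [Fintype V] in
private theorem tf_cl_insert {a : V} {T : Finset V} (h : G.IsClique (T : Set V))
    (ha : ∀ t ∈ T, G.Adj a t) : G.IsClique ((insert a T : Finset V) : Set V) := by
  intro x hx y hy hxy
  simp only [coe_insert, Set.mem_insert_iff, mem_coe] at hx hy
  rcases hx with rfl | hx
  · rcases hy with rfl | hy
    · exact absurd rfl hxy
    · exact ha y hy
  · rcases hy with rfl | hy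
    · exact (ha x hx).symm
    · exact h hx hy hxy

private theorem lks_empty : lks S G ∅ = S := by
  ext x
  simp [lks]

private theorem lks_one (v : V) : lks S G {v} = lk S G v := by
  ext x
  simp [lks, lk]

private theorem lks_two (x y : V) : lks S G {x, y} = ck S G x y := by
  ext z
  simp [lks, ck]

private theorem gor_noK4 (h : Gor 3 S G) {x y z w : V} (hx : x ∈ S) (hy : y ∈ S) (hz : z ∈ S)
    (hw : w ∈ S) (h1 : G.Adj x y) (h2 : G.Adj x z) (h3 : G.Adj x w) (h4 : G.Adj y z)
    (h5 : G.Adj y w) (h6 : G.Adj z w) : False := by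
  have hc : G.IsClique ((({x, y, z, w} : Finset V)) : Set V) := by
    refine tf_cl_insert (tf_cl_insert (tf_cl2 h6) ?_) ?_
    · intro t ht
      simp only [mem_insert, mem_singleton] at ht
      rcases ht with rfl | rfl
      · exact h4
      · exact h5
    · intro t ht
      simp only [mem_insert, mem_singleton] at ht
      rcases ht with rfl | rfl | rfl
      · exact h1
      · exact h2
      · exact h3
  obtain ⟨m, hm, _⟩ := h {x, y, z, w} (by
    intro t ht
    simp only [mem_insert, mem_singleton] at ht
    rcases ht with rfl | rfl | rfl | rfl <;> assumption) hc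
  have hcard : ({x, y, z, w} : Finset V).card = 4 := by
    rw [card_insert_of_notMem, card_insert_of_notMem, card_pair h6.ne]
    · simp [h4.ne, h5.ne]
    · simp [h1.ne, h2.ne, h3.ne]
  omega

theorem gor_sph {n : ℕ} (h : Gor n S G) : Sph n S G := by
  obtain ⟨m, hm, hs⟩ := h ∅ (empty_subset S) (by simp)
  rw [lks_empty] at hs
  rw [card_empty, add_zero] at hm
  rw [← hm]
  exact hs

private theorem tf_conn {A : Finset V} (h0 : bt A ∅ G (fun _ => (1 : Unit)) 1 = 0) {Y : Finset V}
    (hY : Y ⊆ A) (hne : Y.Nonempty) (hcl : ∀ y ∈ Y, ∀ z ∈ A, G.Adj y z → z ∈ Y) : Y = A := by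
  refine Subset.antisymm hY fun z hz => ?_
  by_contra hzY
  obtain ⟨y, hy⟩ := hne
  have hf : tfd {y} + tfd {z} ∈ Ch A ∅ G (fun _ => (1 : Unit)) 1 :=
    Submodule.add_mem _
      (tfd_mem (singleton_subset_iff.2 (hY hy)) (tf_cl1 y) (by simp))
      (tfd_mem (singleton_subset_iff.2 hz) (tf_cl1 z) (by simp))
  have hb : bd V Unit (tfd {y} + tfd {z}) = 0 := by
    rw [map_add, tfd_bd1, tfd_bd1]
    exact tf_dbl _
  obtain ⟨g, hg, e⟩ := tf_ex h0 hf hb
  rw [tf_mem] at hg
  have e1 : ∑ x ∈ Y, (tfd {y} + tfd {z}) {x} () = (1 : ZMod 2) := by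
    rw [sum_eq_single_of_mem y hy]
    · have : ({y} : Finset V) ≠ {z} := by
        intro h
        rw [singleton_inj] at h
        exact hzY (h ▸ hy)
      simp [tfd, this]
    · intro x hx hxy
      have h1 : ({x} : Finset V) ≠ {y} := by
        intro h
        rw [singleton_inj] at h
        exact hxy h
      have h2 : ({x} : Finset V) ≠ {z} := by
        intro h
        rw [singleton_inj] at h
        exact hzY (h ▸ hx)
      simp [tfd, h1, h2]
  have e2 : ∑ x ∈ Y, (bd V Unit g) {x} () = (0 : ZMod 2) := by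
    change ∑ x ∈ Y, ∑ s ∈ ({x} : Finset V)ᶜ, g (insert s {x}) () = 0
    rw [Finset.sum_sigma']
    have e3 : ∑ x ∈ Y.sigma (fun x => ({x} : Finset V)ᶜ), g (insert x.2 {x.1}) () =
        ∑ x ∈ (Y.sigma (fun x => ({x} : Finset V)ᶜ)).filter (fun x => x.2 ∈ Y),
          g (insert x.2 {x.1}) () := by
      rw [Finset.sum_filter_of_ne]
      rintro ⟨x, s⟩ hx hne
      rw [mem_sigma] at hx
      obtain ⟨h1, h2, h3⟩ := hg _ hne
      have hs : s ≠ x := by simpa using hx.2
      exact hcl x hx.1 s (h1 (mem_insert_self _ _)) (h2 (by simp) (by simp) hs.symm)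
    rw [e3]
    refine Finset.sum_involution (fun x _ => ⟨x.2, x.1⟩) ?_ ?_ ?_ ?_
    · rintro ⟨x, s⟩ _
      change g (insert s {x}) () + g (insert x {s}) () = 0
      rw [Finset.pair_comm]
      exact CharTwo.add_self_eq_zero _
    · rintro ⟨x, s⟩ h _ h2
      rw [mem_filter, mem_sigma, mem_compl, mem_singleton] at h
      exact h.1.2 (congrArg Sigma.fst h2)
    · rintro ⟨x, s⟩ h
      rw [mem_filter, mem_sigma, mem_compl, mem_singleton] at h ⊢
      exact ⟨⟨h.2, fun h2 => h.1.2 h2.symm⟩, h.1.1⟩
    · rintro ⟨x, s⟩ _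
      rfl
  rw [e, e1] at e2
  exact one_ne_zero e2

theorem gor_tri (h : Gor 3 S G) : Tri S G := by
  have hlk : ∀ v ∈ S, Sph 2 (lk S G v) G := by
    intro v hv
    obtain ⟨m, hm, hs⟩ := h {v} (singleton_subset_iff.2 hv) (tf_cl1 v)
    rw [lks_one] at hs
    rw [card_singleton] at hm
    have : m = 2 := by omega
    rw [← this]
    exact hs
  refine ⟨?_, ?_, ?_, ?_, ?_⟩
  · rw [Finset.nonempty_iff_ne_empty]
    intro h0
    have h1 := gor_sph h 3
    rw [if_pos (by norm_num)] at h1
    have h2 : bt S ∅ G (fun _ => (1 : Unit)) 3 = 0 := by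
      apply tf_bt0
      intro f hf _
      refine ⟨0, Submodule.zero_mem _, ?_⟩
      rw [map_zero]
      symm
      funext T u
      cases u
      by_contra hc
      rw [tf_mem] at hf
      obtain ⟨h3, _, h5⟩ := hf T hc
      rw [h0, subset_empty] at h3
      rw [h3] at h5
      simp at h5
    rw [h2] at h1
    exact zero_ne_one h1
  · intro x hx y hy hxy
    obtain ⟨m, hm, hs⟩ := h {x, y} (by
      intro t ht
      simp only [mem_insert, mem_singleton] at ht
      rcases ht with rfl | rfl <;> assumption) (tf_cl2 hxy)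
    rw [lks_two] at hs
    rw [card_pair hxy.ne] at hm
    have hm1 : m = 1 := by omega
    subst hm1
    have hA : ∀ z ∈ ck S G x y, ∀ w ∈ ck S G x y, ¬ G.Adj z w := by
      intro z hz w hw hzw
      rw [mem_ck] at hz hw
      exact gor_noK4 h hx hy hz.1 hw.1 hxy hz.2.1 hw.2.1 hz.2.2 hw.2.2 hzw
    have h1 := hs 1
    rw [if_pos (by norm_num)] at h1
    have hno : ∀ g ∈ Ch (ck S G x y) ∅ G (fun _ => (1 : Unit)) (1 + 1), g = 0 := by
      intro g hg
      funext T u
      cases u
      by_contra hc
      rw [tf_mem] at hg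
      obtain ⟨h3, h4, h5⟩ := hg T hc
      have h6 : T.card = 2 := by
        have : (T.card : ℤ) = 2 := by rw [h5]; norm_num
        exact_mod_cast this
      obtain ⟨a, b, hab, rfl⟩ := card_eq_two.1 h6
      exact hA a (h3 (by simp)) b (h3 (by simp)) (h4 (by simp) (by simp) hab)
    obtain ⟨⟨f, hf, hbf, hf0⟩, huniq⟩ := tf_one h1 hno
    have hle1 : 1 < (ck S G x y).card := by
      by_contra hc
      have hc : (ck S G x y).card ≤ 1 := by omega
      apply hf0
      funext T u
      cases u
      by_contra hT
      rw [tf_mem] at hf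
      obtain ⟨h3, h4, h5⟩ := hf T hT
      have h6 : T.card = 1 := by exact_mod_cast h5
      obtain ⟨a, rfl⟩ := card_eq_one.1 h6
      have ha : a ∈ ck S G x y := h3 (by simp)
      have hA1 : ck S G x y = {a} := by
        refine (Finset.eq_of_subset_of_card_le h3 ?_).symm
        rw [card_singleton]
        exact hc
      have h7 := congrFun (congrFun hbf ∅) ()
      change ∑ s ∈ (∅ : Finset V)ᶜ, f (insert s ∅) () = 0 at h7
      rw [sum_eq_single_of_mem a (by simp)] at h7
      · exact hT h7
      · intro b _ hb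
        by_contra hc2
        obtain ⟨h8, _, _⟩ := hf _ hc2
        have h9 : b ∈ ck S G x y := h8 (by simp)
        rw [hA1, mem_singleton] at h9
        exact hb h9
    have hle2 : (ck S G x y).card ≤ 2 := by
      by_contra hc
      have hc : 2 < (ck S G x y).card := by omega
      obtain ⟨a, b, c, ha, hb, hc, hab, hac, hbc⟩ := Finset.two_lt_card_iff.1 hc
      have hz : ∀ u ∈ ck S G x y, ∀ v ∈ ck S G x y, u ≠ v →
          tfd {u} + tfd {v} ∈ Ch (ck S G x y) ∅ G (fun _ => (1 : Unit)) 1 ∧
          bd V Unit (tfd {u} + tfd {v}) = 0 ∧ tfd {u} + tfd {v} ≠ 0 := by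
        intro u hu v hv huv
        refine ⟨Submodule.add_mem _
          (tfd_mem (singleton_subset_iff.2 hu) (tf_cl1 u) (by simp))
          (tfd_mem (singleton_subset_iff.2 hv) (tf_cl1 v) (by simp)), ?_, ?_⟩
        · rw [map_add, tfd_bd1, tfd_bd1]
          exact tf_dbl _
        · intro h0
          have := congrFun (congrFun h0 {u}) ()
          have h2 : ({u} : Finset V) ≠ {v} := by
            intro h
            rw [singleton_inj] at h
            exact huv h
          simp [tfd, h2] at this
      obtain ⟨p1, p2, p3⟩ := hz a ha b hb hab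
      obtain ⟨q1, q2, q3⟩ := hz a ha c hc hac
      have he := huniq _ _ p1 p2 q1 q2 p3 q3
      have h8 := congrFun (congrFun he {b}) ()
      have n1 : ({b} : Finset V) ≠ {a} := by
        intro h
        rw [singleton_inj] at h
        exact hab h.symm
      have n2 : ({b} : Finset V) ≠ {c} := by
        intro h
        rw [singleton_inj] at h
        exact hbc h
      simp [tfd, n1, n2] at h8
    omega
  · intro x hx y hy z hz w hw h1 h2 h3 h4 h5 h6
    exact gor_noK4 h hx hy hz hw h1 h2 h3 h4 h5 h6
  · intro v hv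
    rw [Finset.nonempty_iff_ne_empty]
    intro h0
    have h1 := hlk v hv 0
    rw [if_neg (by norm_num)] at h1
    obtain ⟨g, hg, e⟩ := tf_ex h1 (tfd_mem (empty_subset _) (by simp) (by simp)) tfd_bd0
    have hg0 : g = 0 := by
      funext T u
      cases u
      by_contra hc
      rw [tf_mem] at hg
      obtain ⟨h3, h4, h5⟩ := hg T hc
      rw [h0, subset_empty] at h3
      rw [h3] at h5
      simp at h5
    rw [hg0, map_zero] at e
    exact tfd_ne _ e.symm
  · intro v hv Y hY hne hcl
    have h1 := hlk v hv 1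
    rw [if_neg (by norm_num)] at h1
    exact tf_conn h1 hY hne hcl


omit [Fintype V] [DecidableEq V] in
private theorem tf_noT {S : Finset V} (h : Tri S G) {v : V} (hv : v ∈ S) {T : Finset V}
    (hT : T ⊆ lk S G v) (hc : G.IsClique (T : Set V)) : T.card ≤ 2 := by
  by_contra hcard
  have hcard : 2 < T.card := by omega
  obtain ⟨a, b, c, ha, hb, hc', hab, hac, hbc⟩ := Finset.two_lt_card_iff.1 hcard
  have h1 := mem_lk.1 (hT ha)
  have h2 := mem_lk.1 (hT hb)
  have h3 := mem_lk.1 (hT hc')
  exact h.noK4 v hv a h1.1 b h2.1 c h3.1 h1.2 h2.2 h3.2 (hc ha hb hab) (hc ha hc' hac)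
    (hc hb hc' hbc)

omit [Fintype V] in
private theorem tf_noT4 {S : Finset V} (h : Tri S G) {T : Finset V}
    (hT : T ⊆ S) (hc : G.IsClique (T : Set V)) : T.card ≤ 3 := by
  by_contra hcard
  have hcard : 0 < T.card := by omega
  obtain ⟨v, hv⟩ := card_pos.1 hcard
  have h1 := tf_noT h (hT hv) (T := T.erase v) (by
    intro x hx
    rw [mem_erase] at hx
    rw [mem_lk]
    exact ⟨hT hx.2, hc hv hx.2 hx.1.symm⟩) (hc.subset (by
    intro x hx
    exact mem_of_mem_erase hx))
  rw [card_erase_of_mem hv] at h1
  omega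

private theorem tf_eqi (g : Finset V → Unit → ZMod 2) :
    g = tfi (univ.filter fun U => g U () ≠ 0) := by
  funext T u
  cases u
  simp only [tfi, mem_filter, mem_univ, true_and]
  by_cases h : g T () = 0
  · rw [if_neg (not_not.2 h)]
    exact h
  · rw [if_pos h]
    rcases tf_two (g T ()) with h1 | h1
    · exact absurd h1 h
    · exact h1

private theorem tf_cnt {ω : Finset (Finset V)} (h3 : ∀ T ∈ ω, T.card = 3) {a b : V} (hab : a ≠ b) :
    bd V Unit (tfi ω) {a, b} () = (nT ω a b : ZMod 2) := by
  change ∑ s ∈ ({a, b} : Finset V)ᶜ, (if insert s {a, b} ∈ ω then (1 : ZMod 2) else 0) = _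
  rw [Finset.sum_boole]
  congr 1
  unfold nT
  refine Finset.card_bij (fun s _ => insert s {a, b}) ?_ ?_ ?_
  · intro s hs
    rw [mem_filter] at hs ⊢
    refine ⟨hs.2, ?_, ?_⟩ <;> simp
  · intro s hs t ht hst
    rw [mem_filter, mem_compl] at hs ht
    have h1 : s ∈ insert t ({a, b} : Finset V) := by
      rw [← hst]
      exact mem_insert_self _ _
    rw [mem_insert] at h1
    exact h1.resolve_right hs.1
  · intro U hU
    rw [mem_filter] at hU
    have hsub : ({a, b} : Finset V) ⊆ U := by
      intro x hx
      simp only [mem_insert, mem_singleton] at hx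
      rcases hx with rfl | rfl
      · exact hU.2.1
      · exact hU.2.2
    have h4 : (U \ {a, b}).card = 1 := by
      rw [card_sdiff_of_subset hsub, h3 U hU.1, card_pair hab]
    obtain ⟨s, hs⟩ := card_eq_one.1 h4
    have hs1 : s ∈ U \ {a, b} := by
      rw [hs]
      exact mem_singleton_self s
    rw [mem_sdiff] at hs1
    have hU2 : insert s {a, b} = U := by
      have : U = (U \ {a, b}) ∪ {a, b} := (sdiff_union_of_subset hsub).symm
      rw [this, hs]
      rfl
    refine ⟨s, ?_, hU2⟩
    rw [mem_filter, mem_compl]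
    exact ⟨hs1.2, by rw [hU2]; exact hU.1⟩

private theorem tf_icyc {ω : Finset (Finset V)} (h : ∀ T ∈ ω, IsTri S G T)
    (he : ∀ x ∈ S, ∀ y ∈ S, G.Adj x y → bd V Unit (tfi ω) {x, y} () = 0) :
    bd V Unit (tfi ω) = 0 := by
  funext T u
  cases u
  by_cases hT : ∃ s ∈ Tᶜ, insert s T ∈ ω
  · obtain ⟨s, hs, hs2⟩ := hT
    rw [mem_compl] at hs
    obtain ⟨h1, h2, h3⟩ := h _ hs2
    rw [card_insert_of_notMem hs] at h3
    have h4 : T.card = 2 := by omega
    obtain ⟨x, y, hxy, rfl⟩ := card_eq_two.1 h4
    exact he x (h1 (by simp)) y (h1 (by simp)) (h2 (by simp) (by simp) hxy)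
  · push Not at hT
    change ∑ s ∈ Tᶜ, (if insert s T ∈ ω then (1 : ZMod 2) else 0) = 0
    refine sum_eq_zero fun s hs => ?_
    rw [if_neg (hT s hs)]

omit [Fintype V] in
private theorem tfi_mem {ω : Finset (Finset V)} (h : ∀ T ∈ ω, IsTri S G T) :
    tfi ω ∈ Ch S ∅ G (fun _ => (1 : Unit)) 3 := by
  rw [tf_mem]
  intro T hT
  have h1 : T ∈ ω := by
    by_contra hc
    exact hT (by simp [tfi, hc])
  obtain ⟨h2, h3, h4⟩ := h T h1
  exact ⟨h2, h3, by rw [h4]; norm_num⟩

open Classical in
private theorem tf_all (h : Tri S G) :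
    bd V Unit (tfi (univ.filter fun T => IsTri S G T)) = 0 := by
  refine tf_icyc (S := S) (G := G) (fun T hT => (mem_filter.1 hT).2) ?_
  intro x hx y hy hxy
  change ∑ s ∈ ({x, y} : Finset V)ᶜ,
    (if insert s {x, y} ∈ univ.filter (fun T => IsTri S G T) then (1 : ZMod 2) else 0) = 0
  rw [Finset.sum_boole]
  have e : (({x, y} : Finset V)ᶜ.filter
      fun s => insert s {x, y} ∈ univ.filter (fun T => IsTri S G T)) = ck S G x y := by
    ext s
    simp only [mem_filter, mem_compl, mem_univ, true_and, mem_ck]
    constructor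
    · rintro ⟨h1, h2, h3, h4⟩
      have hsx : s ≠ x := by
        rintro rfl
        exact h1 (by simp)
      have hsy : s ≠ y := by
        rintro rfl
        exact h1 (by simp)
      exact ⟨h2 (by simp), h3 (by simp) (by simp) hsx.symm, h3 (by simp) (by simp) hsy.symm⟩
    · rintro ⟨h1, h2, h3⟩
      refine ⟨?_, ?_, ?_, ?_⟩
      · simp only [mem_insert, mem_singleton, not_or]
        exact ⟨h2.ne', h3.ne'⟩
      · intro t ht
        simp only [mem_insert, mem_singleton] at ht
        rcases ht with rfl | rfl | rfl <;> assumption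
      · refine tf_cl_insert (tf_cl2 hxy) ?_
        intro t ht
        simp only [mem_insert, mem_singleton] at ht
        rcases ht with rfl | rfl
        · exact h2.symm
        · exact h3.symm
      · rw [card_insert_of_notMem, card_pair hxy.ne]
        simp only [mem_insert, mem_singleton, not_or]
        exact ⟨h2.ne', h3.ne'⟩
  rw [e, h.two x hx y hy hxy]
  decide

theorem tri_hom (h : Tri S G) (hs : Sph 3 S G) : Hom2 S G := by
  classical
  refine ⟨?_, ?_⟩
  · intro ω hω hev
    by_cases h0 : ω = ∅
    · exact Or.inl h0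
    right
    have h1 := hs 3
    rw [if_pos (by norm_num)] at h1
    have hno : ∀ g ∈ Ch S ∅ G (fun _ => (1 : Unit)) (3 + 1), g = 0 := by
      intro g hg
      funext T u
      cases u
      by_contra hc
      rw [tf_mem] at hg
      obtain ⟨h3, h4, h5⟩ := hg T hc
      have := tf_noT4 h h3 h4
      omega
    obtain ⟨_, huniq⟩ := tf_one h1 hno
    have hb : bd V Unit (tfi ω) = 0 := by
      refine tf_icyc hω ?_
      intro x hx y hy hxy
      rw [tf_cnt (fun T hT => (hω T hT).2.2) hxy.ne]
      exact (ZMod.natCast_eq_zero_iff_even).2 (hev x hx y hy hxy)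
    have hne : tfi ω ≠ 0 := by
      obtain ⟨T, hT⟩ := Finset.nonempty_iff_ne_empty.2 h0
      intro h2
      have := congrFun (congrFun h2 T) ()
      simp [tfi, hT] at this
    intro T hT
    have hall : tfi (univ.filter fun T => IsTri S G T) ≠ 0 := by
      intro h2
      have := congrFun (congrFun h2 T) ()
      simp [tfi, hT] at this
    have he := huniq _ _ (tfi_mem hω) hb
      (tfi_mem (S := S) (G := G) (ω := univ.filter fun T => IsTri S G T)
        (fun T hT => (mem_filter.1 hT).2)) (tf_all h) hne hall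
    have h6 := congrFun (congrFun he T) ()
    by_contra hc
    simp [tfi, hT, hc] at h6
  · intro x hx y hy z hz w hw hxy hyz hzw hwx hxz hyw
    have h1 := hs 2
    rw [if_neg (by norm_num)] at h1
    have hm : ∀ a ∈ S, ∀ b ∈ S, G.Adj a b →
        tfd {a, b} ∈ Ch S ∅ G (fun _ => (1 : Unit)) 2 := by
      intro a ha b hb hab
      refine tfd_mem ?_ (tf_cl2 hab) (by rw [card_pair hab.ne]; norm_num)
      intro t ht
      simp only [mem_insert, mem_singleton] at ht
      rcases ht with rfl | rfl <;> assumption
    obtain ⟨g, hg, e⟩ := tf_ex (f := tfd {x, y} + tfd {y, z} + tfd {z, w} + tfd {w, x}) h1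
      (Submodule.add_mem _ (Submodule.add_mem _ (Submodule.add_mem _ (hm x hx y hy hxy)
        (hm y hy z hz hyz)) (hm z hz w hw hzw)) (hm w hw x hx hwx)) (by
      rw [map_add, map_add, map_add, tfd_bd2 hxy.ne, tfd_bd2 hyz.ne, tfd_bd2 hzw.ne,
        tfd_bd2 hwx.ne]
      have e1 : tfd {x} + tfd {y} + (tfd {y} + tfd {z}) + (tfd {z} + tfd {w}) +
          (tfd {w} + tfd {x}) = (tfd {x} + tfd {x}) + (tfd {y} + tfd {y}) + (tfd {z} + tfd {z}) +
          (tfd {w} + tfd {w}) := by abel
      rw [e1, tf_dbl (tfd {x}), tf_dbl (tfd {y}), tf_dbl (tfd {z}), tf_dbl (tfd {w})]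
      simp)
    have hg3 : g ∈ Ch S ∅ G (fun _ => (1 : Unit)) 3 := hg
    rw [tf_mem] at hg3
    have hω : ∀ T ∈ (univ.filter fun U : Finset V => g U () ≠ 0), IsTri S G T := by
      intro T hT
      rw [mem_filter] at hT
      obtain ⟨h3, h4, h5⟩ := hg3 T hT.2
      exact ⟨h3, h4, by exact_mod_cast h5⟩
    refine ⟨univ.filter fun U : Finset V => g U () ≠ 0, hω, ?_⟩
    intro a ha b hb hab
    have h7 := tf_cnt (fun T hT => (hω T hT).2.2) hab.ne
    rw [← tf_eqi g, e] at h7
    have h8 : Odd (nT (univ.filter fun U : Finset V => g U () ≠ 0) a b) ↔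
        ((nT (univ.filter fun U : Finset V => g U () ≠ 0) a b : ℕ) : ZMod 2) ≠ 0 := by
      rw [Ne, ZMod.natCast_eq_zero_iff_even, Nat.not_even_iff_odd]
    rw [h8, ← h7]
    have d1 : ({x, y} : Finset V) ≠ {y, z} := by
      intro hc
      have : x ∈ ({y, z} : Finset V) := by rw [← hc]; simp
      simp only [mem_insert, mem_singleton] at this
      exact this.elim hxy.ne hxz
    have d2 : ({x, y} : Finset V) ≠ {z, w} := by
      intro hc
      have : x ∈ ({z, w} : Finset V) := by rw [← hc]; simp
      simp only [mem_insert, mem_singleton] at this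
      exact this.elim hxz hwx.ne'
    have d3 : ({x, y} : Finset V) ≠ {w, x} := by
      intro hc
      have : y ∈ ({w, x} : Finset V) := by rw [← hc]; simp
      simp only [mem_insert, mem_singleton] at this
      exact this.elim hyw hxy.ne'
    have d4 : ({y, z} : Finset V) ≠ {z, w} := by
      intro hc
      have : y ∈ ({z, w} : Finset V) := by rw [← hc]; simp
      simp only [mem_insert, mem_singleton] at this
      exact this.elim hyz.ne hyw
    have d5 : ({y, z} : Finset V) ≠ {w, x} := by
      intro hc
      have : y ∈ ({w, x} : Finset V) := by rw [← hc]; simp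
      simp only [mem_insert, mem_singleton] at this
      exact this.elim hyw hxy.ne'
    have d6 : ({z, w} : Finset V) ≠ {w, x} := by
      intro hc
      have : z ∈ ({w, x} : Finset V) := by rw [← hc]; simp
      simp only [mem_insert, mem_singleton] at this
      exact this.elim hzw.ne hxz.symm
    change ((if ({a, b} : Finset V) = {x, y} then (1 : ZMod 2) else 0) +
      (if ({a, b} : Finset V) = {y, z} then (1 : ZMod 2) else 0) +
      (if ({a, b} : Finset V) = {z, w} then (1 : ZMod 2) else 0) +
      (if ({a, b} : Finset V) = {w, x} then (1 : ZMod 2) else 0)) ≠ 0 ↔ _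
    by_cases c1 : ({a, b} : Finset V) = {x, y}
    · rw [c1, if_pos rfl, if_neg d1, if_neg d2, if_neg d3]
      simp
    by_cases c2 : ({a, b} : Finset V) = {y, z}
    · rw [c2, if_neg d1.symm, if_pos rfl, if_neg d4, if_neg d5]
      simp
    by_cases c3 : ({a, b} : Finset V) = {z, w}
    · rw [c3, if_neg d2.symm, if_neg d4.symm, if_pos rfl, if_neg d6]
      simp
    by_cases c4 : ({a, b} : Finset V) = {w, x}
    · rw [c4, if_neg d3.symm, if_neg d5.symm, if_neg d6.symm, if_pos rfl]
      simp
    rw [if_neg c1, if_neg c2, if_neg c3, if_neg c4]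
    simp [c1, c2, c3, c4]

omit [Fintype V] [DecidableEq V] in
private theorem lk_lk {A : Finset V} {x : V} (hA : A = lk S G x) (v : V) :
    lk A G v = ck S G x v := by
  subst hA
  ext z
  simp [lk, ck, and_assoc]

theorem tri_link (h : Tri S G) {v : V} (hv : v ∈ S) : Rd 2 (lk S G v) G := by
  classical
  have hcl : ∀ Y ⊆ lk S G v, Y.Nonempty → (∀ y ∈ Y, ∀ z ∈ lk S G v, G.Adj y z → z ∈ Y) →
      Y = lk S G v := h.conn v hv
  refine Rd.even ?_ (by decide) ?_
  · intro x hx
    rw [lk_lk rfl]
    have hx2 := mem_lk.1 hx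
    obtain ⟨a, b, hab, e⟩ := card_eq_two.1 (h.two v hv x hx2.1 hx2.2)
    have ha : a ∈ ck S G v x := by rw [e]; simp
    have hb : b ∈ ck S G v x := by rw [e]; simp
    have ha2 := mem_ck.1 ha
    have hb2 := mem_ck.1 hb
    have hnab : ¬ G.Adj a b := h.noK4 v hv x hx2.1 a ha2.1 b hb2.1 hx2.2 ha2.2.1 hb2.2.1 ha2.2.2
      hb2.2.2
    refine Rd.susp ?_ a b ha hb hab hnab ?_
    · intro u hu
      have : lk (ck S G v x) G u = ∅ := by
        rw [Finset.eq_empty_iff_forall_notMem]
        intro t ht
        rw [mem_lk] at ht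
        rw [e] at hu ht
        simp only [mem_insert, mem_singleton] at hu ht
        rcases hu with rfl | rfl <;> rcases ht.1 with h1 | h1
        · rw [h1] at ht; exact G.loopless.irrefl _ ht.2
        · rw [h1] at ht; exact hnab ht.2
        · rw [h1] at ht; exact hnab ht.2.symm
        · rw [h1] at ht; exact G.loopless.irrefl _ ht.2
      rw [this]
      exact Rd.nil G
    · intro t ht h1 h2
      rw [e] at ht
      simp only [mem_insert, mem_singleton] at ht
      exact (ht.elim h1 h2).elim
  · have hA2 : ∀ T : Finset V, T ⊆ lk S G v → G.IsClique (T : Set V) → T.card ≤ 2 :=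
      fun T h1 h2 => tf_noT h hv h1 h2
    obtain ⟨a0, ha0⟩ := h.lne v hv
    have hbig : ∀ j : ℤ, (3 ≤ j ∨ j < 0) → ∀ g ∈ Ch (lk S G v) ∅ G (fun _ => (1 : Unit)) j,
        g = 0 := by
      intro j hj g hg
      funext T u
      cases u
      by_contra hc
      rw [tf_mem] at hg
      obtain ⟨h3, h4, h5⟩ := hg T hc
      have := hA2 T h3 h4
      omega
    intro j
    by_cases hj2 : j = 2
    · subst hj2
      rw [if_pos (by norm_num)]
      have hno : ∀ g ∈ Ch (lk S G v) ∅ G (fun _ => (1 : Unit)) (2 + 1), g = 0 :=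
        hbig _ (by norm_num)
      -- neighbours
      have hnb : ∀ y ∈ lk S G v, ∃ a b, a ≠ b ∧ lk (lk S G v) G y = {a, b} := by
        intro y hy
        rw [lk_lk rfl]
        have hy2 := mem_lk.1 hy
        obtain ⟨a, b, hab, e⟩ := card_eq_two.1 (h.two v hv y hy2.1 hy2.2)
        exact ⟨a, b, hab, e⟩
      have hbdv : ∀ f ∈ Ch (lk S G v) ∅ G (fun _ => (1 : Unit)) 2, ∀ y ∈ lk S G v,
          bd V Unit f {y} () = ∑ s ∈ lk (lk S G v) G y, f {s, y} () := by
        intro f hf y hy
        rw [tf_mem] at hf
        change ∑ s ∈ ({y} : Finset V)ᶜ, f (insert s {y}) () = _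
        symm
        apply Finset.sum_subset
        · intro s hs
          rw [mem_lk] at hs
          rw [mem_compl, mem_singleton]
          exact hs.2.ne'
        · intro s hs hs2
          by_contra hc
          obtain ⟨h3, h4, h5⟩ := hf _ hc
          rw [mem_compl, mem_singleton] at hs
          exact hs2 (mem_lk.2 ⟨h3 (by simp), h4 (by simp) (by simp) (Ne.symm hs)⟩)
      set E : Finset (Finset V) := univ.filter fun T => T ⊆ lk S G v ∧ G.IsClique (T : Set V) ∧
        T.card = 2 with hE
      have hEm : tfi E ∈ Ch (lk S G v) ∅ G (fun _ => (1 : Unit)) 2 := by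
        rw [tf_mem]
        intro T hT
        have h1 : T ∈ E := by
          by_contra hc
          exact hT (by simp [tfi, hc])
        rw [hE, mem_filter] at h1
        exact ⟨h1.2.1, h1.2.2.1, by rw [h1.2.2.2]; norm_num⟩
      have hEe : ∀ a ∈ lk S G v, ∀ b ∈ lk S G v, G.Adj a b → ({a, b} : Finset V) ∈ E := by
        intro a ha b hb hab
        rw [hE, mem_filter]
        refine ⟨mem_univ _, ?_, tf_cl2 hab, card_pair hab.ne⟩
        intro t ht
        simp only [mem_insert, mem_singleton] at ht
        rcases ht with rfl | rfl <;> assumption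
      have hsupp : ∀ f ∈ Ch (lk S G v) ∅ G (fun _ => (1 : Unit)) 2,
          (∀ y ∈ lk S G v, bd V Unit f {y} () = 0) → bd V Unit f = 0 := by
        intro f hf hall
        have h2 := bd_mem (j := 1) (show f ∈ Ch (lk S G v) ∅ G (fun _ => (1 : Unit)) (1 + 1) from hf)
        rw [tf_mem] at h2
        funext T u
        cases u
        by_contra hc
        obtain ⟨h3, h4, h5⟩ := h2 T hc
        have h6 : T.card = 1 := by exact_mod_cast h5
        obtain ⟨y, rfl⟩ := card_eq_one.1 h6
        exact hc (hall y (h3 (by simp)))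
      obtain ⟨a1, b1, hab1, e1⟩ := hnb a0 ha0
      have ha1 : a1 ∈ lk (lk S G v) G a0 := by rw [e1]; simp
      have ha1' := mem_lk.1 ha1
      refine tf_one' hno hEm ?_ ?_ ?_
      · apply hsupp _ hEm
        intro y hy
        rw [hbdv _ hEm y hy]
        obtain ⟨a, b, hab, e⟩ := hnb y hy
        have ha : a ∈ lk (lk S G v) G y := by rw [e]; simp
        have hb : b ∈ lk (lk S G v) G y := by rw [e]; simp
        rw [mem_lk] at ha hb
        rw [e, sum_pair hab]
        have u1 : ({a, y} : Finset V) ∈ E := hEe a ha.1 y hy ha.2.symm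
        have u2 : ({b, y} : Finset V) ∈ E := hEe b hb.1 y hy hb.2.symm
        simp only [tfi, if_pos u1, if_pos u2]
        decide
      · intro h0
        have := congrFun (congrFun h0 {a0, a1}) ()
        simp [tfi, hEe a0 ha0 a1 ha1'.1 ha1'.2] at this
      · intro g hg hbg hg0
        have hg' := hg
        rw [tf_mem] at hg'
        have key : (univ.filter fun y => y ∈ lk S G v ∧ ∃ z, y ≠ z ∧ g {z, y} () ≠ 0) =
            lk S G v := by
          apply hcl
          · intro y hy
            rw [mem_filter] at hy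
            exact hy.2.1
          · by_contra hc
            rw [not_nonempty_iff_eq_empty] at hc
            apply hg0
            funext T u
            cases u
            by_contra hT
            obtain ⟨h3, h4, h5⟩ := hg' T hT
            have h6 : T.card = 2 := by exact_mod_cast h5
            obtain ⟨a, b, hab, rfl⟩ := card_eq_two.1 h6
            have : b ∈ (univ.filter fun y => y ∈ lk S G v ∧ ∃ z, y ≠ z ∧ g {z, y} () ≠ 0) := by
              rw [mem_filter]
              exact ⟨mem_univ _, h3 (by simp), a, hab.symm, hT⟩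
            rw [hc] at this
            simp at this
          · intro y hy z hz hyz
            rw [mem_filter] at hy ⊢
            obtain ⟨_, hyA, t, hyt, ht⟩ := hy
            obtain ⟨h3, h4, h5⟩ := hg' _ ht
            have hty : G.Adj y t := h4 (by simp) (by simp) hyt
            have htA : t ∈ lk S G v := h3 (by simp)
            have hb0 := congrFun (congrFun hbg {y}) ()
            rw [hbdv g hg y hyA] at hb0
            obtain ⟨a, b, hab, e⟩ := hnb y hyA
            have hz2 : z ∈ lk (lk S G v) G y := mem_lk.2 ⟨hz, hyz⟩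
            have ht2 : t ∈ lk (lk S G v) G y := mem_lk.2 ⟨htA, hty⟩
            rw [e, sum_pair hab] at hb0
            rw [e] at hz2 ht2
            simp only [mem_insert, mem_singleton] at hz2 ht2
            have hab0 : g {a, y} () ≠ 0 ∧ g {b, y} () ≠ 0 := by
              change g {a, y} () + g {b, y} () = 0 at hb0
              rcases ht2 with rfl | rfl
              · refine ⟨ht, fun h0 => ht ?_⟩
                rw [h0, add_zero] at hb0
                exact hb0
              · refine ⟨fun h0 => ht ?_, ht⟩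
                rw [h0, zero_add] at hb0
                exact hb0
            refine ⟨mem_univ _, hz, y, hyz.ne', ?_⟩
            rw [Finset.pair_comm]
            rcases hz2 with rfl | rfl
            · exact hab0.1
            · exact hab0.2
        have hone : ∀ a ∈ lk S G v, ∀ b ∈ lk S G v, G.Adj a b → g {a, b} () ≠ 0 := by
          intro y hyA z hz hyz
          have hy : y ∈ (univ.filter fun y => y ∈ lk S G v ∧ ∃ z, y ≠ z ∧ g {z, y} () ≠ 0) := by
            rw [key]
            exact hyA
          rw [mem_filter] at hy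
          obtain ⟨_, _, t, hyt, ht⟩ := hy
          obtain ⟨h3, h4, h5⟩ := hg' _ ht
          have hty : G.Adj y t := h4 (by simp) (by simp) hyt
          have htA : t ∈ lk S G v := h3 (by simp)
          have hb0 := congrFun (congrFun hbg {y}) ()
          rw [hbdv g hg y hyA] at hb0
          obtain ⟨a, b, hab, e⟩ := hnb y hyA
          have hz2 : z ∈ lk (lk S G v) G y := mem_lk.2 ⟨hz, hyz⟩
          have ht2 : t ∈ lk (lk S G v) G y := mem_lk.2 ⟨htA, hty⟩
          rw [e, sum_pair hab] at hb0
          rw [e] at hz2 ht2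
          simp only [mem_insert, mem_singleton] at hz2 ht2
          have hab0 : g {a, y} () ≠ 0 ∧ g {b, y} () ≠ 0 := by
            change g {a, y} () + g {b, y} () = 0 at hb0
            rcases ht2 with rfl | rfl
            · refine ⟨ht, fun h0 => ht ?_⟩
              rw [h0, add_zero] at hb0
              exact hb0
            · refine ⟨fun h0 => ht ?_, ht⟩
              rw [h0, zero_add] at hb0
              exact hb0
          rw [Finset.pair_comm]
          rcases hz2 with rfl | rfl
          · exact hab0.1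
          · exact hab0.2
        funext T u
        cases u
        by_cases hT : T ∈ E
        · have hT' := hT
          rw [hE, mem_filter] at hT'
          obtain ⟨_, h3, h4, h5⟩ := hT'
          obtain ⟨a, b, hab, rfl⟩ := card_eq_two.1 h5
          have h6 := hone a (h3 (by simp)) b (h3 (by simp)) (h4 (by simp) (by simp) hab)
          have h7 : tfi E {a, b} () = 1 := by simp [tfi, hT]
          rw [h7]
          exact (tf_two _).resolve_left h6
        · have h7 : tfi E T () = 0 := by simp [tfi, hT]
          rw [h7]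
          by_contra hc
          obtain ⟨h3, h4, h5⟩ := hg' T hc
          apply hT
          rw [hE, mem_filter]
          exact ⟨mem_univ _, h3, h4, by exact_mod_cast h5⟩
    · rw [if_neg (by exact_mod_cast hj2)]
      apply tf_bt0
      intro f hf hbf
      by_cases hj1 : j = 1
      · subst hj1
        have hf' := hf
        rw [tf_mem] at hf'
        -- connectedness
        have hconn : (univ.filter fun z => z ∈ lk S G v ∧
            ∃ g ∈ Ch (lk S G v) ∅ G (fun _ => (1 : Unit)) 2,
              bd V Unit g = tfd {a0} + tfd {z}) = lk S G v := by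
          apply hcl
          · intro y hy
            rw [mem_filter] at hy
            exact hy.2.1
          · refine ⟨a0, ?_⟩
            rw [mem_filter]
            exact ⟨mem_univ _, ha0, 0, Submodule.zero_mem _, by rw [map_zero, tf_dbl]⟩
          · intro y hy z hz hyz
            rw [mem_filter] at hy ⊢
            obtain ⟨_, hyA, g, hg, e⟩ := hy
            refine ⟨mem_univ _, hz, g + tfd {y, z}, Submodule.add_mem _ hg
              (tfd_mem ?_ (tf_cl2 hyz) (by rw [card_pair hyz.ne]; norm_num)), ?_⟩
            · intro t ht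
              simp only [mem_insert, mem_singleton] at ht
              rcases ht with rfl | rfl <;> assumption
            · rw [map_add, e, tfd_bd2 hyz.ne]
              have e1 : tfd {a0} + tfd {y} + (tfd {y} + tfd {z}) =
                tfd {a0} + tfd {z} + (tfd {y} + tfd {y}) := by abel
              rw [e1, tf_dbl, add_zero]
        have hch : ∀ z ∈ lk S G v, ∃ g ∈ Ch (lk S G v) ∅ G (fun _ => (1 : Unit)) 2,
              bd V Unit g = tfd {a0} + tfd {z} := by
          intro z hz
          rw [← hconn, mem_filter] at hz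
          exact hz.2.2
        choose! g hg hge using hch
        refine ⟨∑ z ∈ lk S G v, f {z} () • g z, Submodule.sum_mem _ fun z hz =>
          Submodule.smul_mem _ _ (hg z hz), ?_⟩
        rw [map_sum]
        have hsum : ∑ z ∈ lk S G v, f {z} () = 0 := by
          have h7 := congrFun (congrFun hbf ∅) ()
          change ∑ s ∈ (∅ : Finset V)ᶜ, f (insert s ∅) () = 0 at h7
          rw [← h7]
          apply Finset.sum_subset
          · intro s _
            simp
          · intro s _ hs2
            by_contra hc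
            obtain ⟨h3, _, _⟩ := hf' _ hc
            exact hs2 (h3 (by simp))
        have e2 : ∀ z ∈ lk S G v, bd V Unit (f {z} () • g z) =
            f {z} () • tfd {a0} + f {z} () • tfd {z} := by
          intro z hz
          rw [map_smul, hge z hz, smul_add]
        rw [Finset.sum_congr rfl e2, Finset.sum_add_distrib, ← Finset.sum_smul, hsum, zero_smul,
          zero_add]
        funext T u
        cases u
        rw [Finset.sum_apply, Finset.sum_apply]
        change ∑ z ∈ lk S G v, f {z} () * (if T = {z} then (1 : ZMod 2) else 0) = f T ()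
        by_cases hT : ∃ z ∈ lk S G v, T = {z}
        · obtain ⟨z, hz, rfl⟩ := hT
          rw [sum_eq_single_of_mem z hz]
          · rw [if_pos rfl, mul_one]
          · intro b _ hb
            rw [if_neg, mul_zero]
            intro h0
            rw [singleton_inj] at h0
            exact hb h0.symm
        · push Not at hT
          rw [sum_eq_zero]
          · symm
            by_contra hc
            obtain ⟨h3, h4, h5⟩ := hf' T hc
            have h6 : T.card = 1 := by exact_mod_cast h5
            obtain ⟨y, rfl⟩ := card_eq_one.1 h6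
            exact hT y (h3 (by simp)) rfl
          · intro z hz
            rw [if_neg (hT z hz), mul_zero]
      · by_cases hj0 : j = 0
        · subst hj0
          rw [tf_mem] at hf
          refine ⟨f ∅ () • tfd {a0}, Submodule.smul_mem _ _
            (tfd_mem (singleton_subset_iff.2 ha0) (tf_cl1 a0) (by simp)), ?_⟩
          rw [map_smul, tfd_bd1]
          funext T u
          cases u
          change f ∅ () * (if T = ∅ then (1 : ZMod 2) else 0) = f T ()
          by_cases hT : T = ∅
          · rw [hT, if_pos rfl, mul_one]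
          · rw [if_neg hT, mul_zero]
            symm
            by_contra hc
            obtain ⟨h3, h4, h5⟩ := hf T hc
            exact hT (card_eq_zero.1 (by exact_mod_cast h5))
        · refine ⟨0, Submodule.zero_mem _, ?_⟩
          rw [map_zero, hbig j (by omega) f hf]

end SNG
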