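import Pool.Agent.SNG.TDefs

/-!
# Project SNG (architect helper40), module TSide: sides of a 4-cycle in a flag 2-sphere

Let `Tri S G` and `Hom2 S G`.  A 4-cycle is `(x, y, z, w)` with `x ~ y ~ z ~ w ~ x`, `x ≠ z`, `y ≠ w`
(`C4`), induced if moreover `x ≁ z`, `y ≁ w`.  `Fl S G x y z w ω`: `ω` is a set of triangles with
boundary the 4-cycle.  `co S G ω` is the complement of `ω` in the set of all triangles, `ins` the set of
inner vertices.  Every edge `a b` is contained in exactly two triangles `{a, b, c}`, `c ∈ ck S G a b`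
(`two`; a triangle containing `a, b` is of this form), so `nT ω a b ∈ {0, 1, 2}` for sets `ω` of
triangles.

* `fl_co`: `nT ω a b + nT (co ω) a b = 2`.
* `fl_unique`: the symmetric difference of two fillings is closed.  (`closed`.)
* `even_at`: for a set `ω` of triangles and `v ∈ S` the number of `a ∈ lk S G v` with `Odd (nT ω v a)` is
  even: `∑_{a ∈ lk v} nT ω v a = 2 * #{T ∈ ω : v ∈ T}` (each triangle at `v` has two other vertices).
* `star_all`: if no edge at `v` is in the boundary of `ω` (all `nT ω v a` even) then all triangles at `v`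
  are in `ω` or none: `Y = {a ∈ lk v : nT ω v a = 2}`; if `a ∈ Y` and `b ∈ lk v` is adjacent to `a`, the
  triangle `v a b` is in `ω`, so `nT ω v b ≥ 1`, even, so `2`; `conn`.
* `ins_or`: for `v ∈ S` not in the 4-cycle: `v ∈ ins ω` or `v ∈ ins (co ω)` (`star_all`); not both
  (there is a triangle at `v`: `lne`, `two`).
* `ins_adj`: no edge between `ins ω` and `ins (co ω)`: it would be in a triangle.
* `ins_ne`: for an induced 4-cycle `ins ω ≠ ∅`: otherwise all vertices outside are in `ins (co ω)`, so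
  the triangles of `ω` have all vertices in `{x, y, z, w}`, but there are none (`x ≁ z`, `y ≁ w`); so
  `ω = ∅`, but `Odd (nT ω x y)`.
* `lk_ins`: if `ins ω = {v}` (induced 4-cycle) then `lk S G v = {x, y, z, w}`: a neighbour of `v` is not
  in `ins ω = {v}`, not in `ins (co ω)` (`ins_adj`), so it is in the 4-cycle; let `a` be a neighbour,
  then the two elements of `ck S G v a` are in the 4-cycle and adjacent to `a`, so they are the two
  neighbours of `a` in the 4-cycle (it is induced).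
* `lk_eq`: if a link `lk S G v` contains a 4-cycle (`a b c d`, consecutive ones adjacent, `a ≠ c`,
  `b ≠ d`) then it is equal to it: each of the four has exactly two neighbours in `lk v`, the two
  neighbours in the 4-cycle; `conn`.
-/

namespace SNG

open Finset

variable {V : Type} [Fintype V] [DecidableEq V]

/-- A 4-cycle in `(S, G)`. -/
structure C4 (S : Finset V) (G : SimpleGraph V) (x y z w : V) : Prop where
  hx : x ∈ S
  hy : y ∈ S
  hz : z ∈ S
  hw : w ∈ S
  xy : G.Adj x y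
  yz : G.Adj y z
  zw : G.Adj z w
  wx : G.Adj w x
  xz : x ≠ z
  yw : y ≠ w

/-- `ω` is a set of triangles with boundary the 4-cycle `x y z w`. -/
def Fl (S : Finset V) (G : SimpleGraph V) (x y z w : V) (ω : Finset (Finset V)) : Prop :=
  (∀ T ∈ ω, IsTri S G T) ∧ ∀ a ∈ S, ∀ b ∈ S, G.Adj a b → (Odd (nT ω a b) ↔
    (({a, b} : Finset V) = {x, y} ∨ ({a, b} : Finset V) = {y, z} ∨ ({a, b} : Finset V) = {z, w} ∨
      ({a, b} : Finset V) = {w, x}))

open Classical in
/-- The complementary set of triangles. -/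
noncomputable def co (S : Finset V) (G : SimpleGraph V) (ω : Finset (Finset V)) :
    Finset (Finset V) := univ.filter fun T => IsTri S G T ∧ T ∉ ω

open Classical in
/-- The inner vertices. -/
noncomputable def ins (S : Finset V) (G : SimpleGraph V) (x y z w : V) (ω : Finset (Finset V)) :
    Finset V :=
  S.filter fun v => v ∉ ({x, y, z, w} : Finset V) ∧ ∀ T, IsTri S G T → v ∈ T → T ∈ ω

variable {S : Finset V} {G : SimpleGraph V} {x y z w : V} {ω : Finset (Finset V)}

theorem exists_fl (hh : Hom2 S G) (hc : C4 S G x y z w) : ∃ ω, Fl S G x y z w ω :=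
  hh.fill x hc.hx y hc.hy z hc.hz w hc.hw hc.xy hc.yz hc.zw hc.wx hc.xz hc.yw

theorem mem_co {T : Finset V} : T ∈ co S G ω ↔ IsTri S G T ∧ T ∉ ω := by
  simp [co]

theorem mem_ins {v : V} : v ∈ ins S G x y z w ω ↔
    v ∈ S ∧ v ∉ ({x, y, z, w} : Finset V) ∧ ∀ T, IsTri S G T → v ∈ T → T ∈ ω := by
  simp [ins]

private theorem tri_mk {a b c : V} (ha : a ∈ S) (hb : b ∈ S) (hab : G.Adj a b) (hc : c ∈ ck S G a b) :
    IsTri S G ({a, b, c} : Finset V) := by
  rw [mem_ck] at hc
  obtain ⟨h1, h2, h3⟩ := hc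
  refine ⟨?_, ?_, ?_⟩
  · intro t ht
    simp only [mem_insert, mem_singleton] at ht
    rcases ht with rfl | rfl | rfl <;> assumption
  · intro s hs t ht hst
    simp only [coe_insert, coe_singleton, Set.mem_insert_iff, Set.mem_singleton_iff] at hs ht
    rcases hs with rfl | rfl | rfl <;> rcases ht with rfl | rfl | rfl
    · exact absurd rfl hst
    · exact hab
    · exact h2
    · exact hab.symm
    · exact absurd rfl hst
    · exact h3
    · exact h2.symm
    · exact h3.symm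
    · exact absurd rfl hst
  · exact card_eq_three.2 ⟨a, b, c, hab.ne, h2.ne, h3.ne, rfl⟩

private theorem tri_ex {T : Finset V} (hT : IsTri S G T) {a b : V} (ha : a ∈ T) (hb : b ∈ T)
    (hab : a ≠ b) : ∃ c, c ∈ ck S G a b ∧ T = {a, b, c} := by
  obtain ⟨h1, h2, h3⟩ := hT
  have hb' : b ∈ T.erase a := mem_erase.2 ⟨hab.symm, hb⟩
  have hc : ((T.erase a).erase b).card = 1 := by
    rw [card_erase_of_mem hb', card_erase_of_mem ha, h3]
  obtain ⟨c, hc⟩ := card_eq_one.1 hc
  have hT' : T = {a, b, c} := by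
    rw [← insert_erase ha, ← insert_erase hb', hc]
  have hc1 : c ∈ (T.erase a).erase b := by rw [hc]; exact mem_singleton_self c
  obtain ⟨hcb, hc2⟩ := mem_erase.1 hc1
  obtain ⟨hca, hcT⟩ := mem_erase.1 hc2
  refine ⟨c, mem_ck.2 ⟨h1 hcT, ?_, ?_⟩, hT'⟩
  · exact h2 ha hcT hca.symm
  · exact h2 hb hcT hcb.symm

private theorem tri_inj {a b c c' : V} (hc : c ≠ a) (hc1 : c ≠ b)
    (h : ({a, b, c} : Finset V) = {a, b, c'}) : c = c' := by
  have : c ∈ ({a, b, c'} : Finset V) := by rw [← h]; simp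
  simp only [mem_insert, mem_singleton] at this
  rcases this with h1 | h1 | h1
  · exact absurd h1 hc
  · exact absurd h1 hc1
  · exact h1

private theorem nT_eq (hω : ∀ T ∈ ω, IsTri S G T) {a b : V} (hab : G.Adj a b) :
    nT ω a b = ((ck S G a b).filter fun c => ({a, b, c} : Finset V) ∈ ω).card := by
  classical
  unfold nT
  have : (ω.filter fun T => a ∈ T ∧ b ∈ T) =
      ((ck S G a b).filter fun c => ({a, b, c} : Finset V) ∈ ω).image fun c =>
        ({a, b, c} : Finset V) := by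
    ext T
    simp only [mem_filter, mem_image]
    constructor
    · rintro ⟨h1, h2, h3⟩
      obtain ⟨c, hc, rfl⟩ := tri_ex (hω T h1) h2 h3 hab.ne
      exact ⟨c, ⟨hc, h1⟩, rfl⟩
    · rintro ⟨c, ⟨hc, h1⟩, rfl⟩
      exact ⟨h1, by simp, by simp⟩
  rw [this, card_image_of_injOn]
  intro c hc c' hc' h
  have h1 := (mem_ck.1 (mem_filter.1 hc).1)
  exact tri_inj h1.2.1.ne.symm h1.2.2.ne.symm h

private theorem co_tri : ∀ T ∈ co S G ω, IsTri S G T := fun _ hT => (mem_co.1 hT).1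

theorem nT_co (h : Tri S G) (hω : ∀ T ∈ ω, IsTri S G T) {a b : V} (ha : a ∈ S) (hb : b ∈ S)
    (hab : G.Adj a b) : nT ω a b + nT (co S G ω) a b = 2 := by
  classical
  rw [nT_eq hω hab, nT_eq co_tri hab, ← h.two a ha b hb hab,
    ← card_filter_add_card_filter_not (s := ck S G a b) (fun c => ({a, b, c} : Finset V) ∈ ω)]
  congr 2
  refine filter_congr fun c hc => ?_
  rw [mem_co]
  exact ⟨fun h => h.2, fun h1 => ⟨tri_mk ha hb hab hc, h1⟩⟩

private theorem nT_le (h : Tri S G) (hω : ∀ T ∈ ω, IsTri S G T) {a b : V} (ha : a ∈ S) (hb : b ∈ S)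
    (hab : G.Adj a b) : nT ω a b ≤ 2 := by
  have := nT_co h hω ha hb hab
  omega

private theorem nT_two (h : Tri S G) (hω : ∀ T ∈ ω, IsTri S G T) {a b : V} (ha : a ∈ S) (hb : b ∈ S)
    (hab : G.Adj a b) (h2 : nT ω a b = 2) {T : Finset V} (hT : IsTri S G T) (haT : a ∈ T)
    (hbT : b ∈ T) : T ∈ ω := by
  classical
  by_contra hn
  have h1 := nT_co h hω ha hb hab
  have h3 : nT (co S G ω) a b = 0 := by omega
  unfold nT at h3
  rw [card_eq_zero] at h3
  have : T ∈ (co S G ω).filter fun T => a ∈ T ∧ b ∈ T :=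
    mem_filter.2 ⟨mem_co.2 ⟨hT, hn⟩, haT, hbT⟩
  rw [h3] at this
  exact absurd this (notMem_empty _)

private theorem nT_pos {a b : V} {T : Finset V} (hT : T ∈ ω) (ha : a ∈ T) (hb : b ∈ T) :
    1 ≤ nT ω a b := by
  unfold nT
  exact card_pos.2 ⟨T, mem_filter.2 ⟨hT, ha, hb⟩⟩

theorem fl_co (h : Tri S G) (hf : Fl S G x y z w ω) : Fl S G x y z w (co S G ω) := by
  refine ⟨co_tri, fun a ha b hb hab => ?_⟩
  rw [← hf.2 a ha b hb hab]
  have := nT_co h hf.1 ha hb hab
  constructor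
  · rintro ⟨k, hk⟩
    exact ⟨0, by omega⟩
  · rintro ⟨k, hk⟩
    exact ⟨0, by omega⟩

theorem fl_unique (h : Tri S G) (hh : Hom2 S G) (hf : Fl S G x y z w ω) {ω' : Finset (Finset V)}
    (hf' : Fl S G x y z w ω') : ω' = ω ∨ ω' = co S G ω := by
  classical
  have hd : ∀ T ∈ (ω \ ω') ∪ (ω' \ ω), IsTri S G T := by
    intro T hT
    rcases mem_union.1 hT with h1 | h1
    · exact hf.1 T (mem_sdiff.1 h1).1
    · exact hf'.1 T (mem_sdiff.1 h1).1
  have hev : ∀ a ∈ S, ∀ b ∈ S, G.Adj a b → Even (nT ((ω \ ω') ∪ (ω' \ ω)) a b) := by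
    intro a ha b hb hab
    have e1 : nT ω a b = nT (ω \ ω') a b + nT (ω ∩ ω') a b := by
      unfold nT
      rw [← card_union_of_disjoint]
      · congr 1
        rw [← filter_union, sdiff_union_inter]
      · refine disjoint_filter_filter ?_
        exact disjoint_sdiff_inter ω ω'
    have e2 : nT ω' a b = nT (ω' \ ω) a b + nT (ω ∩ ω') a b := by
      unfold nT
      rw [← card_union_of_disjoint]
      · congr 1
        rw [← filter_union, inter_comm ω ω', sdiff_union_inter]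
      · refine disjoint_filter_filter ?_
        rw [inter_comm ω ω']
        exact disjoint_sdiff_inter ω' ω
    have e3 : nT ((ω \ ω') ∪ (ω' \ ω)) a b = nT (ω \ ω') a b + nT (ω' \ ω) a b := by
      unfold nT
      rw [← card_union_of_disjoint]
      · congr 1
        rw [filter_union]
      · refine disjoint_filter_filter ?_
        rw [disjoint_left]
        intro T h1 h2
        exact (mem_sdiff.1 h1).2 (mem_sdiff.1 h2).1
    have h4 : Odd (nT ω a b) ↔ Odd (nT ω' a b) :=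
      (hf.2 a ha b hb hab).trans (hf'.2 a ha b hb hab).symm
    rw [e3]
    rw [e1, e2] at h4
    rcases Nat.even_or_odd (nT (ω \ ω') a b) with p1 | p1 <;>
    rcases Nat.even_or_odd (nT (ω' \ ω) a b) with p2 | p2 <;>
    rcases Nat.even_or_odd (nT (ω ∩ ω') a b) with p3 | p3
    · exact p1.add p2
    · exact p1.add p2
    · exact absurd (h4.2 (p2.add_even p3)) (Nat.not_odd_iff_even.2 (p1.add p3))
    · exact absurd (h4.1 (p1.add_odd p3)) (Nat.not_odd_iff_even.2 (p2.add_odd p3))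
    · exact absurd (h4.1 (p1.add_even p3)) (Nat.not_odd_iff_even.2 (p2.add p3))
    · exact absurd (h4.2 (p2.add_odd p3)) (Nat.not_odd_iff_even.2 (p1.add_odd p3))
    · exact p1.add_odd p2
    · exact p1.add_odd p2
  rcases hh.closed _ hd hev with h1 | h1
  · left
    have h2 := union_eq_empty.1 h1
    rw [sdiff_eq_empty_iff_subset, sdiff_eq_empty_iff_subset] at h2
    exact subset_antisymm h2.2 h2.1
  · right
    ext T
    rw [mem_co]
    constructor
    · intro hT
      refine ⟨hf'.1 T hT, fun hT' => ?_⟩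
      have h3 := h1 T (hf'.1 T hT)
      rcases mem_union.1 h3 with h4 | h4
      · exact (mem_sdiff.1 h4).2 hT
      · exact (mem_sdiff.1 h4).2 hT'
    · rintro ⟨hT, hT'⟩
      rcases mem_union.1 (h1 T hT) with h4 | h4
      · exact absurd (mem_sdiff.1 h4).1 hT'
      · exact (mem_sdiff.1 h4).1

theorem even_at (h : Tri S G) (hω : ∀ T ∈ ω, IsTri S G T) {v : V} (hv : v ∈ S) :
    Even ((lk S G v).filter fun a => Odd (nT ω v a)).card := by
  classical
  rw [← Finset.even_sum_iff_even_card_odd]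
  have e1 : ∑ a ∈ lk S G v, nT ω v a = ∑ T ∈ ω.filter (fun T => v ∈ T), 2 := by
    unfold nT
    simp only [card_filter]
    rw [sum_comm, sum_filter]
    refine sum_congr rfl fun T hT => ?_
    by_cases hvT : v ∈ T
    · rw [if_pos hvT]
      have e2 : ∑ a ∈ lk S G v, (if v ∈ T ∧ a ∈ T then 1 else 0) =
          ((lk S G v).filter fun a => a ∈ T).card := by
        rw [card_filter]
        refine sum_congr rfl fun a _ => ?_
        simp only [hvT, true_and]
      rw [e2]
      have e3 : ((lk S G v).filter fun a => a ∈ T) = T.erase v := by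
        ext a
        rw [mem_filter, mem_lk, mem_erase]
        constructor
        · rintro ⟨⟨h1, h2⟩, h3⟩
          exact ⟨h2.ne.symm, h3⟩
        · rintro ⟨h1, h2⟩
          exact ⟨⟨(hω T hT).1 h2, (hω T hT).2.1 hvT h2 h1.symm⟩, h2⟩
      rw [e3, card_erase_of_mem hvT, (hω T hT).2.2]
    · rw [if_neg hvT]
      exact sum_eq_zero fun a _ => if_neg fun h => hvT h.1
  rw [e1, sum_const, smul_eq_mul]
  exact ⟨(ω.filter (fun T => v ∈ T)).card, by ring⟩

private theorem exists_other {T : Finset V} (hT : IsTri S G T) {v : V} (hv : v ∈ T) :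
    ∃ a, a ∈ T ∧ a ∈ lk S G v := by
  obtain ⟨a, ha⟩ : (T.erase v).Nonempty := by
    rw [← card_pos, card_erase_of_mem hv, hT.2.2]
    norm_num
  obtain ⟨h1, h2⟩ := mem_erase.1 ha
  exact ⟨a, h2, mem_lk.2 ⟨hT.1 h2, hT.2.1 hv h2 h1.symm⟩⟩

theorem star_all (h : Tri S G) (hω : ∀ T ∈ ω, IsTri S G T) {v : V} (hv : v ∈ S)
    (he : ∀ a ∈ lk S G v, Even (nT ω v a)) :
    (∀ T, IsTri S G T → v ∈ T → T ∈ ω) ∨ ∀ T ∈ ω, v ∉ T := by
  classical
  by_cases hn : ∀ T ∈ ω, v ∉ T
  · exact Or.inr hn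
  left
  push Not at hn
  obtain ⟨T0, hT0, hvT0⟩ := hn
  have key : ∀ a ∈ lk S G v, 1 ≤ nT ω v a → nT ω v a = 2 := by
    intro a ha h1
    have h2 := nT_le h hω hv (mem_lk.1 ha).1 (mem_lk.1 ha).2
    obtain ⟨k, hk⟩ := he a ha
    omega
  have hY := h.conn v hv ((lk S G v).filter fun a => nT ω v a = 2) (filter_subset _ _) (by
    obtain ⟨a, haT, hal⟩ := exists_other (hω T0 hT0) hvT0
    exact ⟨a, mem_filter.2 ⟨hal, key a hal (nT_pos hT0 hvT0 haT)⟩⟩) (by
    intro a ha b hb hab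
    obtain ⟨h1, h2⟩ := mem_filter.1 ha
    refine mem_filter.2 ⟨hb, key b hb ?_⟩
    have hb' : b ∈ ck S G v a := mem_ck.2 ⟨(mem_lk.1 hb).1, (mem_lk.1 hb).2, hab⟩
    have h3 := nT_two h hω hv (mem_lk.1 h1).1 (mem_lk.1 h1).2 h2
      (tri_mk hv (mem_lk.1 h1).1 (mem_lk.1 h1).2 hb') (by simp) (by simp)
    exact nT_pos h3 (by simp) (by simp))
  intro T hT hvT
  obtain ⟨a, haT, hal⟩ := exists_other hT hvT
  rw [← hY] at hal
  obtain ⟨h1, h2⟩ := mem_filter.1 hal
  exact nT_two h hω hv (mem_lk.1 h1).1 (mem_lk.1 h1).2 h2 hT hvT haT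

theorem exists_tri_edge (h : Tri S G) {a b : V} (ha : a ∈ S) (hb : b ∈ S) (hab : G.Adj a b) :
    ∃ T, IsTri S G T ∧ a ∈ T ∧ b ∈ T := by
  obtain ⟨c, hc⟩ : (ck S G a b).Nonempty := by
    rw [← card_pos, h.two a ha b hb hab]
    norm_num
  exact ⟨_, tri_mk ha hb hab hc, by simp, by simp⟩

theorem exists_tri_vertex (h : Tri S G) {a : V} (ha : a ∈ S) : ∃ T, IsTri S G T ∧ a ∈ T := by
  obtain ⟨b, hb⟩ := h.lne a ha
  obtain ⟨T, h1, h2, -⟩ := exists_tri_edge h ha (mem_lk.1 hb).1 (mem_lk.1 hb).2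
  exact ⟨T, h1, h2⟩

theorem ins_or (h : Tri S G) (hf : Fl S G x y z w ω) {v : V} (hv : v ∈ S)
    (hn : v ∉ ({x, y, z, w} : Finset V)) :
    v ∈ ins S G x y z w ω ∨ v ∈ ins S G x y z w (co S G ω) := by
  have he : ∀ a ∈ lk S G v, Even (nT ω v a) := by
    intro a ha
    rw [← Nat.not_odd_iff_even, hf.2 v hv a (mem_lk.1 ha).1 (mem_lk.1 ha).2]
    have hv' : v ∈ ({v, a} : Finset V) := by simp
    rintro (h1 | h1 | h1 | h1) <;> rw [h1] at hv' <;> apply hn <;>
      simp only [mem_insert, mem_singleton] at hv' ⊢ <;> tauto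
  rcases star_all h hf.1 hv he with h1 | h1
  · exact Or.inl (mem_ins.2 ⟨hv, hn, h1⟩)
  · exact Or.inr (mem_ins.2 ⟨hv, hn, fun T hT hvT => mem_co.2 ⟨hT, fun h2 => h1 T h2 hvT⟩⟩)

theorem ins_not (h : Tri S G) {v : V} (h1 : v ∈ ins S G x y z w ω)
    (h2 : v ∈ ins S G x y z w (co S G ω)) : False := by
  rw [mem_ins] at h1 h2
  obtain ⟨T, hT, hvT⟩ := exists_tri_vertex h h1.1
  exact (mem_co.1 (h2.2.2 T hT hvT)).2 (h1.2.2 T hT hvT)

theorem ins_adj (h : Tri S G) {a b : V} (h1 : a ∈ ins S G x y z w ω)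
    (h2 : b ∈ ins S G x y z w (co S G ω)) : ¬ G.Adj a b := by
  intro hab
  rw [mem_ins] at h1 h2
  obtain ⟨T, hT, haT, hbT⟩ := exists_tri_edge h h1.1 h2.1 hab
  exact (mem_co.1 (h2.2.2 T hT hbT)).2 (h1.2.2 T hT haT)

theorem ins_ne (h : Tri S G) (hc : C4 S G x y z w) (hxz : ¬ G.Adj x z) (hyw : ¬ G.Adj y w)
    (hf : Fl S G x y z w ω) : (ins S G x y z w ω).Nonempty := by
  classical
  rw [nonempty_iff_ne_empty]
  intro he
  have hodd : Odd (nT ω x y) := (hf.2 x hc.hx y hc.hy hc.xy).2 (Or.inl rfl)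
  have hpos : 0 < nT ω x y := hodd.pos
  unfold nT at hpos
  obtain ⟨T, hT⟩ := card_pos.1 hpos
  obtain ⟨h1, h2, h3⟩ := mem_filter.1 hT
  obtain ⟨c, hck, rfl⟩ := tri_ex (hf.1 T h1) h2 h3 hc.xy.ne
  rw [mem_ck] at hck
  have hcn : c ∉ ({x, y, z, w} : Finset V) := by
    simp only [mem_insert, mem_singleton]
    rintro (rfl | rfl | rfl | rfl)
    · exact hck.2.1.ne rfl
    · exact hck.2.2.ne rfl
    · exact hxz hck.2.1
    · exact hyw hck.2.2
  rcases ins_or h hf hck.1 hcn with h4 | h4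
  · rw [he] at h4
    exact absurd h4 (notMem_empty _)
  · have h5 := (mem_ins.1 h4).2.2 _ (hf.1 _ h1) (by simp)
    exact (mem_co.1 h5).2 h1

private theorem rot (hc : C4 S G x y z w) : C4 S G y z w x :=
  ⟨hc.hy, hc.hz, hc.hw, hc.hx, hc.yz, hc.zw, hc.wx, hc.xy, hc.yw, hc.xz.symm⟩

private theorem lk_step (h : Tri S G) (hc : C4 S G x y z w) (hxz : ¬ G.Adj x z) {v : V} (hv : v ∈ S)
    (hsub : lk S G v ⊆ {x, y, z, w}) (hx : x ∈ lk S G v) : y ∈ lk S G v ∧ w ∈ lk S G v := by
  have h1 : ck S G v x ⊆ {y, w} := by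
    intro c hck
    rw [mem_ck] at hck
    have h2 : c ∈ lk S G v := mem_lk.2 ⟨hck.1, hck.2.1⟩
    have h3 := hsub h2
    simp only [mem_insert, mem_singleton] at h3 ⊢
    rcases h3 with rfl | rfl | rfl | rfl
    · exact absurd rfl hck.2.2.ne
    · exact Or.inl rfl
    · exact absurd hck.2.2 hxz
    · exact Or.inr rfl
  have h2 : ck S G v x = {y, w} := by
    refine eq_of_subset_of_card_le h1 ?_
    rw [h.two v hv x (mem_lk.1 hx).1 (mem_lk.1 hx).2]
    exact card_le_two
  have h3 : y ∈ ck S G v x := by rw [h2]; simp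
  have h4 : w ∈ ck S G v x := by rw [h2]; simp
  rw [mem_ck] at h3 h4
  exact ⟨mem_lk.2 ⟨h3.1, h3.2.1⟩, mem_lk.2 ⟨h4.1, h4.2.1⟩⟩

theorem lk_ins (h : Tri S G) (hc : C4 S G x y z w) (hxz : ¬ G.Adj x z) (hyw : ¬ G.Adj y w)
    (hf : Fl S G x y z w ω) {v : V} (hv : ins S G x y z w ω = {v}) : lk S G v = {x, y, z, w} := by
  have hvi : v ∈ ins S G x y z w ω := by rw [hv]; exact mem_singleton_self v
  have hvS : v ∈ S := (mem_ins.1 hvi).1
  have hsub : lk S G v ⊆ {x, y, z, w} := by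
    intro u hu
    rw [mem_lk] at hu
    by_contra hn
    rcases ins_or h hf hu.1 hn with h1 | h1
    · rw [hv, mem_singleton] at h1
      exact hu.2.ne h1.symm
    · exact ins_adj h hvi h1 hu.2
  have hc1 := rot hc
  have hc2 := rot hc1
  have hc3 := rot hc2
  have hsub1 : lk S G v ⊆ {y, z, w, x} := by
    intro u hu
    have := hsub hu
    simp only [mem_insert, mem_singleton] at this ⊢
    tauto
  have hsub2 : lk S G v ⊆ {z, w, x, y} := by
    intro u hu
    have := hsub hu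
    simp only [mem_insert, mem_singleton] at this ⊢
    tauto
  have hsub3 : lk S G v ⊆ {w, x, y, z} := by
    intro u hu
    have := hsub hu
    simp only [mem_insert, mem_singleton] at this ⊢
    tauto
  have hzx : ¬ G.Adj z x := fun h => hxz h.symm
  have hwy : ¬ G.Adj w y := fun h => hyw h.symm
  have s0 := lk_step h hc hxz hvS hsub
  have s1 := lk_step h hc1 hyw hvS hsub1
  have s2 := lk_step h hc2 hzx hvS hsub2
  have s3 := lk_step h hc3 hwy hvS hsub3
  obtain ⟨a, ha⟩ := h.lne v hvS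
  have ha' := hsub ha
  simp only [mem_insert, mem_singleton] at ha'
  have hall : x ∈ lk S G v ∧ y ∈ lk S G v ∧ z ∈ lk S G v ∧ w ∈ lk S G v := by
    rcases ha' with rfl | rfl | rfl | rfl
    · have t := s0 ha
      exact ⟨ha, t.1, (s1 t.1).1, t.2⟩
    · have t := s1 ha
      exact ⟨t.2, ha, t.1, (s0 t.2).2⟩
    · have t := s2 ha
      exact ⟨(s1 t.2).2, t.2, ha, t.1⟩
    · have t := s3 ha
      exact ⟨t.1, (s0 t.1).1, t.2, ha⟩
  refine subset_antisymm hsub fun u hu => ?_
  simp only [mem_insert, mem_singleton] at hu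
  rcases hu with rfl | rfl | rfl | rfl
  · exact hall.1
  · exact hall.2.1
  · exact hall.2.2.1
  · exact hall.2.2.2

private theorem ck_pair (h : Tri S G) {v a b d : V} (hv : v ∈ S) (ha : a ∈ S) (hva : G.Adj v a)
    (hb : b ∈ S) (hd : d ∈ S) (hvb : G.Adj v b) (hvd : G.Adj v d) (hab : G.Adj a b)
    (had : G.Adj a d) (hbd : b ≠ d) : ck S G v a = {b, d} := by
  symm
  refine eq_of_subset_of_card_le ?_ ?_
  · intro c hc
    simp only [mem_insert, mem_singleton] at hc
    rcases hc with rfl | rfl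
    · exact mem_ck.2 ⟨hb, hvb, hab⟩
    · exact mem_ck.2 ⟨hd, hvd, had⟩
  · rw [h.two v hv a ha hva, card_pair hbd]

theorem lk_eq (h : Tri S G) (hc : C4 S G x y z w) {v : V} (hv : v ∈ S) (hx : G.Adj v x)
    (hy : G.Adj v y) (hz : G.Adj v z) (hw : G.Adj v w) : lk S G v = {x, y, z, w} := by
  symm
  have k1 := ck_pair h hv hc.hx hx hc.hy hc.hw hy hw hc.xy hc.wx.symm hc.yw
  have k2 := ck_pair h hv hc.hy hy hc.hx hc.hz hx hz hc.xy.symm hc.yz hc.xz
  have k3 := ck_pair h hv hc.hz hz hc.hy hc.hw hy hw hc.yz.symm hc.zw hc.yw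
  have k4 := ck_pair h hv hc.hw hw hc.hx hc.hz hx hz hc.wx hc.zw.symm hc.xz
  refine h.conn v hv {x, y, z, w} ?_ ⟨x, by simp⟩ ?_
  · intro u hu
    simp only [mem_insert, mem_singleton] at hu
    rcases hu with rfl | rfl | rfl | rfl
    · exact mem_lk.2 ⟨hc.hx, hx⟩
    · exact mem_lk.2 ⟨hc.hy, hy⟩
    · exact mem_lk.2 ⟨hc.hz, hz⟩
    · exact mem_lk.2 ⟨hc.hw, hw⟩
  · intro a ha b hb hab
    have hb' := mem_lk.1 hb
    simp only [mem_insert, mem_singleton] at ha
    rcases ha with rfl | rfl | rfl | rfl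
    · have : b ∈ ck S G v a := mem_ck.2 ⟨hb'.1, hb'.2, hab⟩
      rw [k1] at this
      simp only [mem_insert, mem_singleton] at this ⊢
      tauto
    · have : b ∈ ck S G v a := mem_ck.2 ⟨hb'.1, hb'.2, hab⟩
      rw [k2] at this
      simp only [mem_insert, mem_singleton] at this ⊢
      tauto
    · have : b ∈ ck S G v a := mem_ck.2 ⟨hb'.1, hb'.2, hab⟩
      rw [k3] at this
      simp only [mem_insert, mem_singleton] at this ⊢
      tauto
    · have : b ∈ ck S G v a := mem_ck.2 ⟨hb'.1, hb'.2, hab⟩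
      rw [k4] at this
      simp only [mem_insert, mem_singleton] at this ⊢
      tauto

end SNG
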