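import Pool.Agent.SNG.Basic

/-!
# Project SNG (architect helper40), module Vert: removing a vertex

Short exact sequence (`Ses`) `0 → Ch (S - v) ∅ j → Ch S ∅ j → Ch (lk v) {v} (j - 1) → 0` with
`ι = id` and `π f T = if v ∈ T then 0 else f (insert v T)`.
* `π` commutes with `bd`: for `v ∈ T` both sides are `0`; for `v ∉ T` both sides are
  `∑_{s ∉ T, s ≠ v} f (insert s (insert v T))`.
* `π f ∈ Ch (lk v) {v} (j - 1)`: if `π f T ≠ 0` then `v ∉ T` and `insert v T ⊆ S` is a clique with
  `j` elements, so `T ⊆ lk v` is a clique with `j - 1` elements; `T ∪ {v} ⊆ insert v T`.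
* exact: if `f ∈ Ch S ∅ j` and `π f = 0` then `f T = 0` whenever `v ∈ T` (apply `π f = 0` to
  `T.erase v`), so `f ∈ Ch (S.erase v) ∅ j`.
* surjective: for `q ∈ Ch (lk v) {v} (j - 1)` take `f T = if v ∈ T then q (T.erase v) else 0`
  (`q T = 0` for `v ∈ T` as `v ∉ lk v`; here `v ∈ S` is used: `T = insert v (T.erase v) ⊆ S` is a
  clique with `j` elements).
`vert_add` is `les_a`, `vert_del` is `les_b` (at `j + 1` the quotient is `Ch (lk v) {v} (j + 1 - 1)`);
use `bt_eq_be`, `bt_eq_be_shift`.
-/

namespace SNG

open Finset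

variable {V : Type} [Fintype V] [DecidableEq V] {P : Type} [Group P] [Finite P]

/-- The projection to the chains of the link. -/
private def pv (v : V) : (Finset V → P → ZMod 2) →ₗ[ZMod 2] (Finset V → P → ZMod 2) where
  toFun f := fun T => if v ∈ T then 0 else f (insert v T)
  map_add' f g := by
    funext T
    by_cases h : v ∈ T
    · simp [h]
    · simp [h]
  map_smul' c f := by
    funext T
    by_cases h : v ∈ T
    · simp [h]
    · simp [h]

omit [Fintype V] [Group P] [Finite P] in
private theorem pv_mem {v : V} {T : Finset V} (h : v ∈ T) (f : Finset V → P → ZMod 2) :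
    pv v f T = 0 := if_pos h

omit [Fintype V] [Group P] [Finite P] in
private theorem pv_not {v : V} {T : Finset V} (h : v ∉ T) (f : Finset V → P → ZMod 2) :
    pv v f T = f (insert v T) := if_neg h

omit [Finite P] in
private theorem ses {S : Finset V} {G : SimpleGraph V} {p : V → P} {v : V} (hv : v ∈ S) :
    Ses (fun i => Ch (S.erase v) ∅ G p i) (fun i => Ch S ∅ G p i)
      (fun i => Ch (lk S G v) {v} G p (i - 1)) (bd V P) (bd V P) (bd V P) LinearMap.id (pv v) := by
  have hvl : v ∉ lk S G v := fun h => G.loopless.irrefl v (mem_lk.1 h).2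
  constructor
  · exact fun j a ha => bd_mem ha
  · exact fun j a ha => bd_mem ha
  · intro j a ha
    have e : j + 1 - 1 = j - 1 + 1 := by ring
    rw [e] at ha
    exact bd_mem ha
  · exact bd_bd
  · exact bd_bd
  · exact bd_bd
  · intro j a ha
    refine ⟨fun T hT => ha.1 T fun h => hT ⟨h.1.trans (Finset.erase_subset v S), h.2⟩, ha.2⟩
  · intro j f hf
    refine ⟨fun T hT => ?_, fun T s hs g => ?_⟩
    · by_cases hvT : v ∈ T
      · exact pv_mem hvT f
      · rw [pv_not hvT]
        refine hf.1 _ fun h => hT ?_
        obtain ⟨h1, h2, h3⟩ := h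
        refine ⟨fun t ht => mem_lk.2 ⟨h1 (Finset.mem_insert_of_mem ht), ?_⟩, ?_, ?_⟩
        · refine h2 (Finset.mem_coe.2 (Finset.mem_insert_self v T))
            (Finset.mem_coe.2 (Finset.mem_insert_of_mem ht)) ?_
          rintro rfl
          exact hvT ht
        · exact h2.subset (Finset.coe_subset.2 (Finset.subset_insert v T))
        · rw [Finset.card_insert_of_notMem hvT] at h3
          push_cast at h3
          linarith
    · by_cases hvT : v ∈ T
      · rw [pv_mem hvT]
        rfl
      · rw [pv_not hvT]
        refine hf.2 _ s ?_ g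
        rw [Finset.union_empty]
        rcases Finset.mem_union.1 hs with h | h
        · exact Finset.mem_insert_of_mem h
        · rw [Finset.mem_singleton.1 h]
          exact Finset.mem_insert_self v T
  · exact fun j a ha => rfl
  · intro j c hc
    funext T g
    by_cases hvT : v ∈ T
    · rw [pv_mem hvT]
      show ∑ s ∈ Tᶜ, pv v c (insert s T) g = 0
      refine Finset.sum_eq_zero fun s _ => ?_
      rw [pv_mem (Finset.mem_insert_of_mem hvT)]
      rfl
    · rw [pv_not hvT]
      show ∑ s ∈ Tᶜ, pv v c (insert s T) g = ∑ s ∈ (insert v T)ᶜ, c (insert s (insert v T)) g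
      rw [Finset.compl_insert, ← Finset.sum_erase (a := v) Tᶜ
        (f := fun s => pv v c (insert s T) g)]
      · refine Finset.sum_congr rfl fun s hs => ?_
        have h1 := Finset.mem_erase.1 hs
        have h2 : v ∉ insert s T := by
          rw [Finset.mem_insert]
          rintro (h | h)
          · exact h1.1 h.symm
          · exact hvT h
        rw [pv_not h2, Finset.insert_comm]
      · rw [pv_mem (Finset.mem_insert_self v T)]
        rfl
  · exact fun j a ha h => h
  · intro j a ha
    funext T
    by_cases hvT : v ∈ T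
    · exact pv_mem hvT _
    · rw [pv_not hvT]
      refine ha.1 _ fun h => ?_
      exact Finset.notMem_erase v S (h.1 (Finset.mem_insert_self v T))
  · intro j c hc h
    refine ⟨c, ⟨fun T hT => ?_, hc.2⟩, rfl⟩
    by_cases hvT : v ∈ T
    · have h1 := congrFun h (T.erase v)
      rw [pv_not (Finset.notMem_erase v T), Finset.insert_erase hvT] at h1
      exact h1
    · refine hc.1 T fun h1 => hT ⟨fun t ht => Finset.mem_erase.2 ⟨?_, h1.1 ht⟩, h1.2⟩
      rintro rfl
      exact hvT ht
  · intro j q hq
    refine ⟨fun T => if v ∈ T then q (T.erase v) else 0, ⟨fun T hT => ?_, fun T s hs g => ?_⟩, ?_⟩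
    · show (if v ∈ T then q (T.erase v) else 0) = 0
      by_cases hvT : v ∈ T
      · rw [if_pos hvT]
        refine hq.1 _ fun h => hT ?_
        obtain ⟨h1, h2, h3⟩ := h
        refine ⟨?_, ?_, ?_⟩
        · intro t ht
          by_cases htv : t = v
          · rw [htv]
            exact hv
          · exact (mem_lk.1 (h1 (Finset.mem_erase.2 ⟨htv, ht⟩))).1
        · intro a ha b hb hab
          have ha' : a ∈ T := Finset.mem_coe.1 ha
          have hb' : b ∈ T := Finset.mem_coe.1 hb
          by_cases hav : a = v
          · rw [hav]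
            have hbv : b ≠ v := fun h => hab (hav.trans h.symm)
            exact (mem_lk.1 (h1 (Finset.mem_erase.2 ⟨hbv, hb'⟩))).2
          · by_cases hbv : b = v
            · rw [hbv]
              exact (mem_lk.1 (h1 (Finset.mem_erase.2 ⟨hav, ha'⟩))).2.symm
            · exact h2 (Finset.mem_coe.2 (Finset.mem_erase.2 ⟨hav, ha'⟩))
                (Finset.mem_coe.2 (Finset.mem_erase.2 ⟨hbv, hb'⟩)) hab
        · have h4 := Finset.card_erase_add_one hvT
          rw [← h4]
          push_cast
          linarith
      · exact if_neg hvT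
    · show (if v ∈ T then q (T.erase v) else 0) (g * p s) =
        (if v ∈ T then q (T.erase v) else 0) g
      by_cases hvT : v ∈ T
      · rw [if_pos hvT]
        refine hq.2 _ s ?_ g
        rw [Finset.union_empty] at hs
        by_cases hsv : s = v
        · exact Finset.mem_union_right _ (Finset.mem_singleton.2 hsv)
        · exact Finset.mem_union_left _ (Finset.mem_erase.2 ⟨hsv, hs⟩)
      · rw [if_neg hvT]
        rfl
    · funext T
      by_cases hvT : v ∈ T
      · rw [pv_mem hvT]
        refine (hq.1 T fun h => ?_).symm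
        exact hvl (h.1 hvT)
      · rw [pv_not hvT, if_pos (Finset.mem_insert_self v T), Finset.erase_insert hvT]

theorem vert_add {S : Finset V} {G : SimpleGraph V} {p : V → P} {v : V} (hv : v ∈ S) (j : ℤ) :
    bt S ∅ G p j ≤ bt (S.erase v) ∅ G p j + bt (lk S G v) {v} G p (j - 1) := by
  have h := les_a (ses (G := G) (p := p) hv) j
  rw [bt_eq_be_shift, bt_eq_be, bt_eq_be]
  exact h

theorem vert_del {S : Finset V} {G : SimpleGraph V} {p : V → P} {v : V} (hv : v ∈ S) (j : ℤ) :
    bt (S.erase v) ∅ G p j ≤ bt S ∅ G p j + bt (lk S G v) {v} G p j := by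
  have h := les_b (ses (G := G) (p := p) hv) j
  have e : bt (lk S G v) {v} G p j = bt (lk S G v) {v} G p (j + 1 - 1) := by
    rw [add_sub_cancel_right]
  rw [e, bt_eq_be_shift, bt_eq_be, bt_eq_be]
  exact h

end SNG
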